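import Pool.Agent.Lib.P0q.B8Con

/-!
# B10Am: the enclosing event in the disc and in the lattice

`η ⊆ inner a (b+1)`, `ω = cf a b η`, `x ∈ box a (b+1)` active, `q ∈ nbP x`, `q ∈ pas a b`. `K = KK η x` (edges of the cluster of
`x`; for `e ∈ η`: `e ∈ K` iff `Conn η x (src e)` iff `Conn η x (tgt e)`).

`am_side`: `Am η x q ↔ ¬ Tb (side ω (q,false) (x,true))`.
(1) Suppose the side meets `bd`; show `q` is not enclosed. By definition of `side` there is a chain of steps `stp` avoiding `cl x` from `q` to some
`z ∈ bd`. Claim by induction along the chain: for a passive vertex `w` of the chain: `Pcon K q w`; for an active one: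
`Pcon K q q'` for all `q' ∈ nbP w`. Around an active `w ∉ cl x` the four sites of `nbP w` are `Pcon K`-connected (cyclically
across the four edges at `w`, none of which is in `K`, because an edge of `K` has both ends in `cl x`: `con_act`).
Corner step passive `w` → active `w'` (`w ∈ nbP w'` by `cor_box`) and active → passive: clear.
Own diagonal passive–passive: closed edge `e ∉ η`, so `e ∉ K`, one `Pcon` step. Own diagonal active–active `w, w'`, ends of an
edge `e`: `pu e ∈ nbP w ∩ nbP w'`. At the end: `z` passive, not in `box a b`, or `z` active in `bdry a b`, which has a site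
`q' ∈ nbP z` not in `box a b`. So `Pcon K q o`, `o ∉ box a b`. If `pu e, pl e ∉ box a b` then `e ∉ inner a (b+1)` (`cr_mem_inner`, every `e` is
`cr e'`, `{pu e, pl e} = {src e', tgt e'}`), hence `e ∉ K`. So all passive sites outside `box a b` are `Pcon K`-connected
(`P0de.const_outside` applied to the predicate; passive edges between outside sites cross edges `∉ K`), and there are such sites outside every `box (-R) R`.
(2) Suppose the side `S = side ω (q,false) (x,true)` misses `bd`. Then every `q'` with `Pcon K q q'` is (the site of) a passive vertex in `S`,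
so it lies in `box a b`, and `R = |a| + |b| + 1` shows `Enc`. Induction: `q₁ ∈ S` passive, `q₁ ∈ box a b` (not in `bd`), step
across `e ∉ K` to `q₂`: `e ∈ inner a (b+1)` (one of its passive ends is in `box a b`: `cr_mem_inner`). If `e ∉ η`: `{q₁, q₂}` is an own
diagonal, `side_UC`. If `e ∈ η`, `e ∉ K`: `¬ Conn η x (src e)`; the corner `{q₁, src e}`: if `src e ∉ S` then `side_cross` gives
`Con ω x (src e)`, contradiction (`con_act`); so `src e ∈ S`, and then `q₂ ∈ S`, since a crossing corner `{src e, q₂}` with `src e ∈ S`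
would give `Con ω q (src e)`, impossible (different labels, `Con_pr`).

-/

set_option autoImplicit false

open Finset P0de

namespace P0q

namespace B10AmAux

theorem mem_KK {η : Finset Ed} {x : Site} {e : Ed} :
    e ∈ KK η x ↔ e ∈ η ∧ Conn η x (src e) := by
  unfold KK
  simp only [mem_filter]

/-- an edge of the cluster of `x` has both ends in the cluster of `x` -/
theorem conn_of_KK {η : Finset Ed} {x w : Site} {e : Ed} (he : e ∈ KK η x)
    (hw : src e = w ∨ tgt e = w) : Conn η x w := by
  rw [mem_KK] at he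
  rcases hw with rfl | rfl
  · exact he.2
  · exact he.2.tail ⟨e, he.1, Or.inl ⟨rfl, rfl⟩⟩

theorem pcon_step {K : Finset Ed} {e : Ed} (he : e ∉ K) : Pcon K (pu e) (pl e) :=
  Relation.ReflTransGen.single ⟨e, he, Or.inl ⟨rfl, rfl⟩⟩

theorem pcon_step' {K : Finset Ed} {e : Ed} (he : e ∉ K) : Pcon K (pl e) (pu e) :=
  Relation.ReflTransGen.single ⟨e, he, Or.inr ⟨rfl, rfl⟩⟩

theorem pcon_trans {K : Finset Ed} {p q r : Site} (h : Pcon K p q) (h' : Pcon K q r) :
    Pcon K p r := Relation.ReflTransGen.trans h h'

/-- the four passive sites around an active site outside the cluster of `x` are connected -/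
theorem around {η : Finset Ed} {x w : Site} (hw : ¬ Conn η x w) {p q : Site} (hp : p ∈ nbP w)
    (hq : q ∈ nbP w) : Pcon (KK η x) p q := by
  have key : ∀ e : Ed, (src e = w ∨ tgt e = w) → e ∉ KK η x :=
    fun e he h => hw (conn_of_KK h he)
  obtain ⟨i, j⟩ := w
  have e1 := key ((i, j), false) (Or.inl rfl)
  have e2 := key ((i, j), true) (Or.inl rfl)
  have e3 := key ((i - 1, j), false) (Or.inr (by simp [tgt, dir]))
  have e4 := key ((i, j - 1), true) (Or.inr (by simp [tgt, dir]))
  have s1 := pcon_step e1
  have s1' := pcon_step' e1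
  have s2 := pcon_step e2
  have s2' := pcon_step' e2
  have s3 := pcon_step e3
  have s3' := pcon_step' e3
  have s4 := pcon_step e4
  have s4' := pcon_step' e4
  simp only [pu, pl, dir, Bool.not_true, Bool.not_false, cond_true, cond_false, Prod.mk_sub_mk,
    sub_zero] at s1 s1' s2 s2' s3 s3' s4 s4'
  have to0 : ∀ p : Site, p ∈ nbP (i, j) → Pcon (KK η x) p (i, j) ∧ Pcon (KK η x) (i, j) p := by
    intro p hp
    rw [mem_nbP_iff] at hp
    obtain ⟨k, l⟩ := p
    simp only at hp
    obtain ⟨rfl | rfl, rfl | rfl⟩ := hp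
    · exact ⟨Relation.ReflTransGen.refl, Relation.ReflTransGen.refl⟩
    · exact ⟨s1', s1⟩
    · exact ⟨s2', s2⟩
    · exact ⟨pcon_trans s3' s2', pcon_trans s2 s3⟩
  exact pcon_trans (to0 p hp).1 (to0 q hq).2

theorem pu_nbP_src (e : Ed) : pu e ∈ nbP (src e) := by
  rw [mem_nbP_iff]
  exact ⟨Or.inl rfl, Or.inl rfl⟩

theorem pu_nbP_tgt (e : Ed) : pu e ∈ nbP (tgt e) := by
  obtain ⟨⟨i, j⟩, c⟩ := e
  rw [mem_nbP_iff]
  cases c <;> simp [pu, tgt, dir]

theorem pl_nbP_src (e : Ed) : pl e ∈ nbP (src e) := by
  obtain ⟨⟨i, j⟩, c⟩ := e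
  rw [mem_nbP_iff]
  cases c <;> simp [pl, src, dir]

/-- an edge with a passive end in `box a b` is inside the closed box -/
theorem inner_of_pu {a b : ℤ} {e : Ed} (h : pu e ∈ box a b ∨ pl e ∈ box a b) :
    e ∈ inner a (b + 1) := by
  obtain ⟨⟨i, j⟩, c⟩ := e
  rw [DualAux.mem_inner, DualAux.mem_box, DualAux.mem_box]
  rw [DualAux.mem_box, DualAux.mem_box] at h
  cases c
  · simp only [src, tgt, pu, pl, dir, cond_true, cond_false, Bool.not_false, Prod.mk_add_mk,
      Prod.mk_sub_mk, add_zero, sub_zero] at h ⊢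
    omega
  · simp only [src, tgt, pu, pl, dir, cond_true, cond_false, Bool.not_true, Prod.mk_add_mk,
      Prod.mk_sub_mk, add_zero, sub_zero] at h ⊢
    omega

/-- the predicate carried along the chain -/
def PP (K : Finset Ed) (q : Site) (z : Site × Bool) : Prop :=
  (z.2 = false → Pcon K q z.1) ∧ (z.2 = true → ∀ q' ∈ nbP z.1, Pcon K q q')

theorem pcon_outside {a b : ℤ} {K : Finset Ed} (hK : K ⊆ inner a (b + 1)) {q o : Site}
    (ho : o ∉ box a b) (h : Pcon K q o) {o' : Site} (ho' : o' ∉ box a b) : Pcon K q o' := by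
  have hc := const_outside (a := a) (b := b) (fun s => Pcon K q s) (by
    intro e h1 h2
    have he : cr e ∉ K := by
      intro hk
      have := hK hk
      rw [DualAux.cr_mem_inner, mem_union, DualAux.mem_inner, DualAux.mem_stubs] at this
      tauto
    have s1 := pcon_step he
    have s2 := pcon_step' he
    have hpu : pu (cr e) = tgt e := rfl
    have hpl : pl (cr e) = src e := by
      obtain ⟨⟨i, j⟩, c⟩ := e
      cases c <;> simp [pl, cr, src, dir]
    rw [hpu, hpl] at s1 s2
    exact propext ⟨fun hh => pcon_trans hh s2, fun hh => pcon_trans hh s1⟩) o o' ho ho'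
  have hc' : Pcon K q o = Pcon K q o' := hc
  rw [← hc']
  exact h

end B10AmAux

open B10AmAux

theorem am_side {a b : ℤ} (hab : a < b) {η : Finset Ed} (hη : η ⊆ inner a (b + 1)) {x q : Site}
    (hx : (x, true) ∈ VS a b) (hq : (q, false) ∈ VS a b) (hqx : q ∈ nbP x) :
    Am η x q ↔ ¬ (BQ a b).Tb ((BQ a b).side (cf a b η) ⟨(q, false), hq⟩ ⟨(x, true), hx⟩) := by
  have hQ := isDisc hab
  have hcor : (BQ a b).cor ⟨(q, false), hq⟩ ⟨(x, true), hx⟩ :=
    (BQ a b).cor_symm ((cor_box hab hx hq).2 hqx)
  have hKη : KK η x ⊆ η := fun e he => (mem_KK.1 he).1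
  constructor
  · rintro ⟨R, hR⟩ ⟨z, hz, hzb⟩
    have hz' : Relation.ReflTransGen ((BQ a b).stp (cf a b η) ⟨(x, true), hx⟩)
        ⟨(q, false), hq⟩ z := by
      unfold Quad.side at hz
      simpa only [mem_filter, mem_univ, true_and] using hz
    have key : PP (KK η x) q z.1 := by
      clear hz hzb
      induction hz' with
      | refl => exact ⟨fun _ => Relation.ReflTransGen.refl, fun h => by simp at h⟩
      | @tail u v _ huv ih =>
        obtain ⟨-, hv, hs⟩ := huv
        obtain ⟨⟨u, cu⟩, hu'⟩ := u
        obtain ⟨⟨v, cv⟩, hv'⟩ := v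
        simp only [PP] at ih ⊢
        have hva : cv = true → ¬ Conn η x v := by
          rintro rfl hc
          exact hv ((con_act hη hx hv').2 hc)
        rcases hs with hs | hs
        · have hne : cu ≠ cv := hs.1
          cases cu
          · cases cv
            · exact absurd rfl hne
            · refine ⟨fun h => by simp at h, fun _ q' hq' => ?_⟩
              have hn : u ∈ nbP v := (cor_box hab hv' hu').1 ((BQ a b).cor_symm hs)
              exact pcon_trans (ih.1 rfl) (around (hva rfl) hn hq')
          · cases cv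
            · refine ⟨fun _ => ?_, fun h => by simp at h⟩
              have hn : v ∈ nbP u := (cor_box hab hu' hv').1 hs
              exact ih.2 rfl v hn
            · exact absurd rfl hne
        · obtain ⟨e, i, h1, h2⟩ := hs
          by_cases he : e.1 ∈ η
          · have hω : cf a b η e = true := by simp [cf, he]
            rw [hω] at h1 h2
            have h1' := congrArg Subtype.val h1
            have h2' := congrArg Subtype.val h2
            cases i
            · have h1s : (u, cu) = (src e.1, true) := h1'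
              have h2s : (v, cv) = (tgt e.1, true) := h2'
              simp only [Prod.mk.injEq] at h1s h2s
              obtain ⟨rfl, rfl⟩ := h1s
              obtain ⟨rfl, rfl⟩ := h2s
              refine ⟨fun h => by simp at h, fun _ q' hq' => ?_⟩
              exact pcon_trans (ih.2 rfl _ (pu_nbP_src e.1)) (around (hva rfl) (pu_nbP_tgt e.1) hq')
            · have h1s : (u, cu) = (tgt e.1, true) := h1'
              have h2s : (v, cv) = (src e.1, true) := h2'
              simp only [Prod.mk.injEq] at h1s h2s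
              obtain ⟨rfl, rfl⟩ := h1s
              obtain ⟨rfl, rfl⟩ := h2s
              refine ⟨fun h => by simp at h, fun _ q' hq' => ?_⟩
              exact pcon_trans (ih.2 rfl _ (pu_nbP_tgt e.1)) (around (hva rfl) (pu_nbP_src e.1) hq')
          · have hω : cf a b η e = false := by simp [cf, he]
            rw [hω] at h1 h2
            have h1' := congrArg Subtype.val h1
            have h2' := congrArg Subtype.val h2
            have heK : e.1 ∉ KK η x := fun h => he (hKη h)
            cases i
            · have h1s : (u, cu) = (pu e.1, false) := h1'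
              have h2s : (v, cv) = (pl e.1, false) := h2'
              simp only [Prod.mk.injEq] at h1s h2s
              obtain ⟨rfl, rfl⟩ := h1s
              obtain ⟨rfl, rfl⟩ := h2s
              refine ⟨fun _ => ?_, fun h => by simp at h⟩
              exact pcon_trans (ih.1 rfl) (pcon_step heK)
            · have h1s : (u, cu) = (pl e.1, false) := h1'
              have h2s : (v, cv) = (pu e.1, false) := h2'
              simp only [Prod.mk.injEq] at h1s h2s
              obtain ⟨rfl, rfl⟩ := h1s
              obtain ⟨rfl, rfl⟩ := h2s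
              refine ⟨fun _ => ?_, fun h => by simp at h⟩
              exact pcon_trans (ih.1 rfl) (pcon_step' heK)
    obtain ⟨o, ho, hqo⟩ : ∃ o, o ∉ box a b ∧ Pcon (KK η x) q o := by
      obtain ⟨⟨z, cz⟩, hz''⟩ := z
      cases cz
      · exact ⟨z, (mem_bd_pas hz'').1 hzb, key.1 rfl⟩
      · have hb := (mem_bd_act hz'').1 hzb
        obtain ⟨i, j⟩ := z
        rw [bdry, mem_sdiff, DualAux.mem_box, DualAux.mem_box] at hb
        have hex : ∃ o ∈ nbP (i, j), o ∉ box a b := by
          by_cases h1 : i = a ∨ i = b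
          · rcases h1 with rfl | rfl
            · refine ⟨(i - 1, j), mem_nbP_iff.2 (by simp), ?_⟩
              rw [DualAux.mem_box]
              omega
            · refine ⟨(i, j), mem_nbP_iff.2 (by simp), ?_⟩
              rw [DualAux.mem_box]
              omega
          · by_cases h2 : j = a
            · refine ⟨(i, j - 1), mem_nbP_iff.2 (by simp), ?_⟩
              rw [DualAux.mem_box]
              omega
            · refine ⟨(i, j), mem_nbP_iff.2 (by simp), ?_⟩
              rw [DualAux.mem_box]
              simp only at hb ⊢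
              omega
        obtain ⟨o, ho1, ho2⟩ := hex
        exact ⟨o, ho2, key.2 rfl o ho1⟩
    have hfar1 : ((|R| + |b| + 1, 0) : Site) ∉ box a b := by
      rw [DualAux.mem_box]
      have h1 := le_abs_self b
      have h2 := abs_nonneg R
      simp only
      omega
    have hfar2 : ((|R| + |b| + 1, 0) : Site) ∉ box (-R) R := by
      rw [DualAux.mem_box]
      have h1 := le_abs_self R
      have h2 := abs_nonneg b
      simp only
      omega
    exact hR _ hfar2 (pcon_outside (hKη.trans hη) ho hqo hfar1)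
  · intro hT
    set S := (BQ a b).side (cf a b η) ⟨(q, false), hq⟩ ⟨(x, true), hx⟩ with hS
    have hbox : ∀ (q' : Site) (h : (q', false) ∈ VS a b), (⟨(q', false), h⟩ : VV a b) ∈ S →
        q' ∈ box a b := by
      intro q' h hm
      by_contra hn
      exact hT ⟨_, hm, (mem_bd_pas h).2 hn⟩
    have hstep : ∀ (e : Ed) (q₁ q₂ : Site), e ∉ KK η x →
        ((pu e = q₁ ∧ pl e = q₂) ∨ (pu e = q₂ ∧ pl e = q₁)) →
        (∃ h : (q₁, false) ∈ VS a b, (⟨(q₁, false), h⟩ : VV a b) ∈ S) →
        ∃ h : (q₂, false) ∈ VS a b, (⟨(q₂, false), h⟩ : VV a b) ∈ S := by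
      rintro e q₁ q₂ heK hpp ⟨h₁, hm₁⟩
      have hb1 := hbox q₁ h₁ hm₁
      have hin : e ∈ inner a (b + 1) := by
        apply inner_of_pu
        rcases hpp with ⟨rfl, -⟩ | ⟨-, rfl⟩
        · exact Or.inl hb1
        · exact Or.inr hb1
      obtain ⟨m1, -, m3, m4⟩ := en_mem hin
      by_cases he : e ∈ η
      · have hnc : ¬ Conn η x (src e) := fun hc => heK (mem_KK.2 ⟨he, hc⟩)
        have hn1 : q₁ ∈ nbP (src e) := by
          rcases hpp with ⟨rfl, -⟩ | ⟨-, rfl⟩
          · exact pu_nbP_src e
          · exact pl_nbP_src e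
        have hn2 : q₂ ∈ nbP (src e) := by
          rcases hpp with ⟨-, rfl⟩ | ⟨rfl, -⟩
          · exact pl_nbP_src e
          · exact pu_nbP_src e
        have h₂ : (q₂, false) ∈ VS a b := by
          rcases hpp with ⟨-, rfl⟩ | ⟨rfl, -⟩
          · exact m4
          · exact m3
        have hsrc : (⟨(src e, true), m1⟩ : VV a b) ∈ S := by
          by_contra hns
          have hcr := (BQ a b).side_cross hQ (cf a b η) hcor
            ((BQ a b).cor_symm ((cor_box hab m1 h₁).2 hn1)) hm₁ hns
          exact hnc ((con_act hη hx m1).1 hcr.2)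
        refine ⟨h₂, ?_⟩
        by_contra hns
        have hcr := (BQ a b).side_cross hQ (cf a b η) hcor ((cor_box hab m1 h₂).2 hn2) hsrc hns
        have := (BQ a b).Con_pr hQ (cf a b η) hcr.1
        simp [BQ] at this
      · have hU := (BQ a b).side_UC hQ (cf a b η) hcor ⟨e, hin⟩
        have hω : cf a b η ⟨e, hin⟩ = false := by simp [cf, he]
        rw [hω] at hU
        have hU' : (⟨(pu e, false), m3⟩ : VV a b) ∈ S ↔ (⟨(pl e, false), m4⟩ : VV a b) ∈ S := hU
        rcases hpp with ⟨rfl, rfl⟩ | ⟨rfl, rfl⟩
        · exact ⟨m4, hU'.1 hm₁⟩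
        · exact ⟨m3, hU'.2 hm₁⟩
    have key : ∀ q', Pcon (KK η x) q q' →
        ∃ h : (q', false) ∈ VS a b, (⟨(q', false), h⟩ : VV a b) ∈ S := by
      intro q' h
      unfold Pcon at h
      induction h with
      | refl => exact ⟨hq, (BQ a b).mem_side_self (cf a b η) _ _⟩
      | tail _ hbc ih =>
        obtain ⟨e, he, hpp⟩ := hbc
        exact hstep e _ _ he hpp ih
    refine ⟨|a| + |b| + 1, fun q' hq' hc => hq' ?_⟩
    obtain ⟨h, hm⟩ := key q' hc
    have hb := hbox q' h hm
    rw [DualAux.mem_box] at hb ⊢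
    have h1 := neg_abs_le a
    have h2 := le_abs_self b
    have h3 := abs_nonneg a
    have h4 := abs_nonneg b
    omega

/-- `Am` is increasing: `KK` is increasing in `η`, `Pcon` is decreasing in `K` -/
theorem Am_up (x q : Site) : Up (fun η => Am η x q) := by
  rintro η η' h ⟨R, hR⟩
  refine ⟨R, fun q' hq' hc => hR q' hq' ?_⟩
  refine Relation.ReflTransGen.mono ?_ _ _ hc
  rintro p r ⟨e, he, hpr⟩
  refine ⟨e, fun hk => he ?_, hpr⟩
  rw [mem_KK] at hk ⊢
  exact ⟨h hk.1, hk.2.mono h⟩

/-- if `x` is not connected to `bdry a b` in `η ∩ inner a (b+1)`, then the cluster of `x ∈ box a (b+1)` is the same for `η` and for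
`η ∩ inner a (b+1)` (all edges at a site of `box (a+1) b` are in `inner a (b+1)`) -/
theorem Am_local {a b : ℤ} {η : Finset Ed} {x : Site} (q : Site) (hx : x ∈ box a (b + 1))
    (h : ¬ Tc a b (η ∩ inner a (b + 1)) x) :
    Am η x q ↔ Am (η ∩ inner a (b + 1)) x q := by
  have hin : ∀ e : Ed, (src e ∈ box (a + 1) b ∨ tgt e ∈ box (a + 1) b) → e ∈ inner a (b + 1) := by
    rintro ⟨⟨i, j⟩, c⟩ h
    rw [DualAux.mem_inner, DualAux.mem_box, DualAux.mem_box]
    rw [DualAux.mem_box, DualAux.mem_box] at h
    cases c
    · simp only [src, tgt, dir, cond_false, Prod.mk_add_mk, add_zero] at h ⊢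
      omega
    · simp only [src, tgt, dir, cond_true, Prod.mk_add_mk, add_zero] at h ⊢
      omega
  have hnb : ∀ y, y ∈ box a (b + 1) → Conn (η ∩ inner a (b + 1)) x y → y ∈ box (a + 1) b := by
    intro y hy hc
    by_contra hn
    exact h ⟨y, by rw [bdry, mem_sdiff]; exact ⟨hy, hn⟩, hc⟩
  have key : ∀ y, Conn η x y → Conn (η ∩ inner a (b + 1)) x y ∧ y ∈ box (a + 1) b := by
    intro y hy
    unfold Conn at hy
    induction hy with
    | refl => exact ⟨Relation.ReflTransGen.refl, hnb x hx Relation.ReflTransGen.refl⟩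
    | @tail u v _ huv ih =>
      obtain ⟨e, he, hev⟩ := huv
      have hei : e ∈ inner a (b + 1) := by
        apply hin
        rcases hev with ⟨h1, -⟩ | ⟨-, h1⟩
        · exact Or.inl (h1 ▸ ih.2)
        · exact Or.inr (h1 ▸ ih.2)
      have hc : Conn (η ∩ inner a (b + 1)) x v :=
        Relation.ReflTransGen.tail ih.1 ⟨e, mem_inter.2 ⟨he, hei⟩, hev⟩
      refine ⟨hc, hnb v ?_ hc⟩
      rw [DualAux.mem_inner] at hei
      rcases hev with ⟨-, h1⟩ | ⟨h1, -⟩
      · exact h1 ▸ hei.2
      · exact h1 ▸ hei.1
  have hKK : KK η x = KK (η ∩ inner a (b + 1)) x := by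
    ext e
    rw [mem_KK, mem_KK]
    constructor
    · rintro ⟨he, hc⟩
      obtain ⟨h1, h2⟩ := key _ hc
      exact ⟨mem_inter.2 ⟨he, hin e (Or.inl h2)⟩, h1⟩
    · rintro ⟨he, hc⟩
      exact ⟨(mem_inter.1 he).1, hc.mono inter_subset_left⟩
  unfold Am
  rw [hKK]

end P0q
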