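import Pool.Agent.Lib.P0q.B10Am

/-!
# B11AmD: the enclosing event of the passive lattice in the disc

Notation and part (1) as in `B10Am` (read its header first).
`am_dual`: if `(dual a b η, q, x - (1,1))` is enclosing (the passive lattice in the role of the active one; the site `s` which is passive
for the passive lattice is the active site `s + (1,1)`), then `side ω (x,true) (q,false)` misses `bd`. Proof of the contrapositive as in (1):
`K' = KK (dual a b η) q ⊆ inner a b ∪ stubs a b`. For a passive edge `e'`: `pu e' + (1,1) = tgt (cr e')` and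
`pl e' + (1,1) = src (cr e')`. So `Pcon K' (s - (1,1)) (s' - (1,1))` means: active path from `s` to `s'` such that every
edge `cr e'` used has `e' ∉ K'`. Along a chain of steps avoiding `cl q` from `x` to `z ∈ bd`: active `w`: connected to `x` in this
sense; passive `w`: all of the four sites of `nbA w` are (they are connected around `w`: the four passive edges at `w` are not in `K'`, because
`w ∉ cl q`, `con_pas`). Own diagonal active–active: open edge `e = cr e' ∈ η`, so `e' ∉ dual a b η`. Own diagonal
passive–passive `w, w'`: they have common neighbours `nbA w ∩ nbA w'` (the ends of the crossed edge). End: `z` active in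
`bdry a b`: step across the boundary: the outward edge at `z` is not in `inner a (b+1)`, so its `e'` is not in `K'`; outside
`box a (b+1)` everything is connected (`const_outside`), and unbounded. `z` passive, `∉ box a b`: `nbA z` contains a site of `bdry a b`.
-/

set_option autoImplicit false

open Finset P0de

namespace P0q

namespace B11AmDAux

theorem Pcon_symm_step {K : Finset Ed} {p r r' : Site} {e : Ed} (he : e ∉ K)
    (h : (pu e = r ∧ pl e = r') ∨ (pu e = r' ∧ pl e = r)) (hp : Pcon K p r) : Pcon K p r' :=
  Relation.ReflTransGen.tail hp ⟨e, he, h⟩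

/-- crossing the active edge `f` -/
theorem cross {a b : ℤ} {η : Finset Ed} {q p : Site} (hq : (q, false) ∈ VS a b) (f : Ed) :
    (Pcon (KK (dual a b η) q) p (src f - (1, 1)) ↔ Pcon (KK (dual a b η) q) p (tgt f - (1, 1))) ∨
      ∃ hf : f ∈ inner a (b + 1), f ∉ η ∧
        (BQ a b).Con (cf a b η) ⟨(q, false), hq⟩ ⟨(pu f, false), (en_mem hf).2.2.1⟩ ∧
        (BQ a b).Con (cf a b η) ⟨(q, false), hq⟩ ⟨(pl f, false), (en_mem hf).2.2.2⟩ := by
  obtain ⟨e, rfl⟩ := DualAux.cr_surjective f
  have hu : pu e = tgt (cr e) - (1, 1) := by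
    obtain ⟨⟨i, j⟩, c⟩ := e
    cases c <;> simp [pu, tgt, cr, dir]
  have hl : pl e = src (cr e) - (1, 1) := by
    obtain ⟨⟨i, j⟩, c⟩ := e
    cases c <;> simp [pl, src, cr, dir]
  have hs : pl (cr e) = src e := by
    obtain ⟨⟨i, j⟩, c⟩ := e
    cases c <;> simp [pl, src, cr, dir]
  have ht : pu (cr e) = tgt e := by
    obtain ⟨⟨i, j⟩, c⟩ := e
    cases c <;> simp [pu, tgt, cr, dir]
  by_cases he : e ∈ KK (dual a b η) q
  · right
    simp only [KK, mem_filter] at he
    obtain ⟨he1, he2⟩ := he
    obtain ⟨h1, h2⟩ := DualAux.mem_dual'.1 he1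
    have h3 : Conn (dual a b η) q (tgt e) :=
      Relation.ReflTransGen.tail he2 ⟨e, he1, Or.inl ⟨rfl, rfl⟩⟩
    refine ⟨h1, h2, ?_, ?_⟩
    · rw [con_pas]
      rw [ht]
      exact h3
    · rw [con_pas]
      rw [hs]
      exact he2
  · left
    rw [← hu, ← hl]
    exact ⟨Pcon_symm_step he (Or.inr ⟨rfl, rfl⟩), Pcon_symm_step he (Or.inl ⟨rfl, rfl⟩)⟩

/-- the predicate carried along the chain -/
def Good (K : Finset Ed) (p : Site) (z : Site × Bool) : Prop :=
  if z.2 = true then Pcon K p (z.1 - (1, 1)) else ∀ s ∈ nbA z.1, Pcon K p (s - (1, 1))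

theorem good_act {K : Finset Ed} {p s : Site} : Good K p (s, true) ↔ Pcon K p (s - (1, 1)) := by
  simp [Good]

theorem good_pas {K : Finset Ed} {p r : Site} :
    Good K p (r, false) ↔ ∀ s ∈ nbA r, Pcon K p (s - (1, 1)) := by
  simp [Good]

theorem mem_nbA_iff {s r : Site} : s ∈ nbA r ↔ r ∈ nbP s := by
  obtain ⟨i, j⟩ := s
  obtain ⟨k, l⟩ := r
  simp only [nbA, nbP, mem_insert, mem_singleton, Prod.mk_add_mk, Prod.mk_sub_mk, Prod.mk.injEq]
  omega

/-- around a passive vertex not in the cluster of `q` -/
theorem around {a b : ℤ} {η : Finset Ed} {q p r s : Site} (hq : (q, false) ∈ VS a b)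
    (hr : (r, false) ∈ VS a b)
    (hn : ¬ (BQ a b).Con (cf a b η) ⟨(q, false), hq⟩ ⟨(r, false), hr⟩)
    (hs : s ∈ nbA r) (hg : Pcon (KK (dual a b η) q) p (s - (1, 1))) :
    Good (KK (dual a b η) q) p (r, false) := by
  rw [good_pas]
  have key : ∀ f : Ed, (pu f = r ∨ pl f = r) →
      (Pcon (KK (dual a b η) q) p (src f - (1, 1)) ↔
        Pcon (KK (dual a b η) q) p (tgt f - (1, 1))) := by
    intro f hf
    rcases cross (η := η) (p := p) hq f with h | ⟨h1, h2, h3, h4⟩
    · exact h
    · exfalso
      rcases hf with rfl | rfl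
      · exact hn h3
      · exact hn h4
  obtain ⟨i, j⟩ := r
  have k1 := key ((i, j), false) (Or.inl rfl)
  have k2 := key ((i, j), true) (Or.inl rfl)
  have k3 := key ((i, j + 1), false) (Or.inr (by simp [pl, dir]))
  have k4 := key ((i + 1, j), true) (Or.inr (by simp [pl, dir]))
  simp only [src, tgt, dir, cond_true, cond_false, Prod.mk_add_mk, add_zero] at k1 k2 k3 k4
  have h1 : Pcon (KK (dual a b η) q) p ((i, j) - (1, 1)) := by
    simp only [nbA, mem_insert, mem_singleton, Prod.mk_add_mk, add_zero] at hs
    rcases hs with hs | hs | hs | hs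
    · rw [hs] at hg
      exact hg
    · rw [hs] at hg
      exact k1.2 hg
    · rw [hs] at hg
      exact k2.2 hg
    · rw [hs] at hg
      exact k1.2 (k4.2 hg)
  intro t ht
  simp only [nbA, mem_insert, mem_singleton, Prod.mk_add_mk, add_zero] at ht
  rcases ht with ht | ht | ht | ht
  · rw [ht]
    exact h1
  · rw [ht]
    exact k1.1 h1
  · rw [ht]
    exact k2.1 h1
  · rw [ht]
    exact k4.1 (k1.1 h1)

end B11AmDAux

open B11AmDAux

theorem am_dual {a b : ℤ} (hab : a < b) {η : Finset Ed} (hη : η ⊆ inner a (b + 1)) {x q : Site}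
    (hx : (x, true) ∈ VS a b) (hq : (q, false) ∈ VS a b) (hqx : q ∈ nbP x)
    (h : Am (dual a b η) q (x - (1, 1))) :
    ¬ (BQ a b).Tb ((BQ a b).side (cf a b η) ⟨(x, true), hx⟩ ⟨(q, false), hq⟩) := by
  rintro ⟨z, hz, hzb⟩
  set ω := cf a b η with hω
  set K := KK (dual a b η) q with hK
  have hgood : Good K (x - (1, 1)) z.1 := by
    unfold Quad.side at hz
    simp only [mem_filter, mem_univ, true_and] at hz
    clear hzb
    induction hz with
    | refl =>
      rw [good_act]
      exact Relation.ReflTransGen.refl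
    | @tail u v _ huv ih =>
      obtain ⟨h1, h2, h3⟩ := huv
      obtain ⟨⟨s, c⟩, hs⟩ := u
      obtain ⟨⟨t, d⟩, ht⟩ := v
      rcases h3 with h3 | h3
      · cases c
        · cases d
          · exact absurd rfl h3.1
          · have h4 := (cor_box hab ht hs).1 (Quad.cor_symm _ h3)
            rw [good_pas] at ih
            rw [good_act]
            exact ih t (mem_nbA_iff.2 h4)
        · cases d
          · have h4 := (cor_box hab hs ht).1 h3
            rw [good_act] at ih
            exact around hq ht h2 (mem_nbA_iff.2 h4) ih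
          · exact absurd rfl h3.1
      · obtain ⟨e, i, h4, h5⟩ := h3
        cases he : ω e
        · have h6 : e.1 ∈ inner a (b + 1) := e.2
          have hsrc : ∀ j, ∃ r hr, (BQ a b).en e false j = ⟨(r, false), hr⟩ ∧ src e.1 ∈ nbA r := by
            intro j
            cases j
            · refine ⟨pu e.1, (en_mem e.2).2.2.1, rfl, ?_⟩
              simp [pu, src, nbA]
            · refine ⟨pl e.1, (en_mem e.2).2.2.2, rfl, ?_⟩
              obtain ⟨⟨⟨k, l⟩, c'⟩, he'⟩ := e
              cases c' <;> simp [pl, src, nbA, dir]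
          rw [he] at h4 h5
          obtain ⟨r, hr, h7, h8⟩ := hsrc i
          obtain ⟨r', hr', h9, h10⟩ := hsrc (!i)
          rw [h7] at h4
          rw [h9] at h5
          obtain ⟨rfl, rfl⟩ : s = r ∧ c = false := by
            have := congrArg Subtype.val h4
            simpa using this
          obtain ⟨rfl, rfl⟩ : t = r' ∧ d = false := by
            have := congrArg Subtype.val h5
            simpa using this
          rw [good_pas] at ih
          exact around hq ht h2 h10 (ih _ h8)
        · have h6 : e.1 ∈ η := by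
            simpa [hω, cf] using he
          have h7 := cross (η := η) (p := x - (1, 1)) hq e.1
          rw [← hK] at h7
          have h8 : Pcon K (x - (1, 1)) (src e.1 - (1, 1)) ↔
              Pcon K (x - (1, 1)) (tgt e.1 - (1, 1)) := by
            rcases h7 with h7 | ⟨_, h7, _⟩
            · exact h7
            · exact absurd h6 h7
          rw [he] at h4 h5
          cases i
          · have h9 : (s, c) = (src e.1, true) := congrArg Subtype.val h4
            have h10 : (t, d) = (tgt e.1, true) := congrArg Subtype.val h5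
            change Good K (x - (1, 1)) (s, c) at ih
            change Good K (x - (1, 1)) (t, d)
            rw [h9, good_act] at ih
            rw [h10, good_act]
            exact h8.1 ih
          · have h9 : (s, c) = (tgt e.1, true) := congrArg Subtype.val h4
            have h10 : (t, d) = (src e.1, true) := congrArg Subtype.val h5
            change Good K (x - (1, 1)) (s, c) at ih
            change Good K (x - (1, 1)) (t, d)
            rw [h9, good_act] at ih
            rw [h10, good_act]
            exact h8.2 ih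
  -- outside the box
  have hout : ∀ f : Ed, f ∉ inner a (b + 1) → (Pcon K (x - (1, 1)) (src f - (1, 1)) ↔
      Pcon K (x - (1, 1)) (tgt f - (1, 1))) := by
    intro f hf
    rcases cross (η := η) (p := x - (1, 1)) hq f with h7 | ⟨h7, _⟩
    · exact h7
    · exact absurd h7 hf
  have hb : ∃ s, s ∈ bdry a b ∧ Pcon K (x - (1, 1)) (s - (1, 1)) := by
    obtain ⟨⟨s, c⟩, hs⟩ := z
    cases c
    · rw [good_pas] at hgood
      have h1 : s ∉ box a b := (mem_bd_pas hs).1 hzb
      have h2 := mem_pas.1 (mem_VS_false.1 hs)
      obtain ⟨i, j⟩ := s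
      simp only [nbA, mem_insert, mem_singleton, Prod.mk_add_mk, add_zero, forall_eq_or_imp,
        forall_eq] at hgood
      simp only [P0de.mem_box] at h1
      simp only at h2
      obtain ⟨g1, g2, g3, g4⟩ := hgood
      have hcases : (i, j) ∈ bdry a b ∨ (i + 1, j) ∈ bdry a b ∨ (i, j + 1) ∈ bdry a b ∨
          (i + 1, j + 1) ∈ bdry a b := by
        simp only [bdry, mem_sdiff, P0de.mem_box]
        omega
      rcases hcases with h | h | h | h
      · exact ⟨_, h, g1⟩
      · exact ⟨_, h, g2⟩
      · exact ⟨_, h, g3⟩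
      · exact ⟨_, h, g4⟩
    · rw [good_act] at hgood
      exact ⟨s, (mem_bd_act hs).1 hzb, hgood⟩
  have ho : ∃ s, s ∉ box a (b + 1) ∧ Pcon K (x - (1, 1)) (s - (1, 1)) := by
    obtain ⟨⟨i, j⟩, hs, hg⟩ := hb
    simp only [bdry, mem_sdiff, P0de.mem_box] at hs
    have e1 := hout ((i, j), false)
    have e2 := hout ((i, j), true)
    have e3 := hout ((i - 1, j), false)
    have e4 := hout ((i, j - 1), true)
    simp only [P0de.mem_inner, P0de.mem_box, src, tgt, dir, cond_true, cond_false, Prod.mk_add_mk,
      add_zero, sub_add_cancel] at e1 e2 e3 e4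
    have hcases : i + 1 = b + 1 ∨ j + 1 = b + 1 ∨ i = a ∨ j = a := by omega
    rcases hcases with h | h | h | h
    · exact ⟨(i + 1, j), by simp only [P0de.mem_box]; omega, (e1 (by omega)).1 hg⟩
    · exact ⟨(i, j + 1), by simp only [P0de.mem_box]; omega, (e2 (by omega)).1 hg⟩
    · exact ⟨(i - 1, j), by simp only [P0de.mem_box]; omega, (e3 (by omega)).2 hg⟩
    · exact ⟨(i, j - 1), by simp only [P0de.mem_box]; omega, (e4 (by omega)).2 hg⟩
  have hall : ∀ s, s ∉ box a (b + 1) → Pcon K (x - (1, 1)) (s - (1, 1)) := by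
    obtain ⟨o, ho1, ho2⟩ := ho
    intro s hs
    have := const_outside (a := a) (b := b + 1)
      (fun s => Pcon K (x - (1, 1)) (s - (1, 1))) (by
        intro e h1 _
        refine propext (hout e ?_)
        rw [P0de.mem_inner]
        exact fun h => h1 h.1) o s ho1 hs
    exact this.mp ho2
  obtain ⟨R, hR⟩ := h
  refine hR ((|R| + |b| + 1, |R| + |b| + 1) : Site) ?_ ?_
  · simp only [P0de.mem_box]
    have := abs_nonneg b
    have := le_abs_self R
    omega
  · have h1 := hall ((|R| + |b| + 1 + 1, |R| + |b| + 1 + 1) : Site) (by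
      simp only [P0de.mem_box]
      have := abs_nonneg R
      have := le_abs_self b
      omega)
    simpa using h1

/-- the two enclosing events are disjoint (`side_or`) -/
theorem am_disj {a b : ℤ} (hab : a < b) {η : Finset Ed} (hη : η ⊆ inner a (b + 1)) {x q : Site}
    (hx : (x, true) ∈ VS a b) (hq : (q, false) ∈ VS a b) (hqx : q ∈ nbP x) :
    ¬ (Am η x q ∧ Am (dual a b η) q (x - (1, 1))) := by
  rintro ⟨h1, h2⟩
  have hc := (cor_box hab hx hq).2 hqx
  rcases (BQ a b).side_or (isDisc hab) (cf a b η) hc with h | h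
  · exact am_dual hab hη hx hq hqx h2 h
  · exact (am_side hab hη hx hq hqx).1 h1 h

end P0q
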