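import Pool.Agent.Lib.P0q.Defs

/-!
# B1Pot: the potential axiom for the disc of a box

`a < b`. Let `ε` be a function on pairs of vertices of `BQ a b` whose sum over the four corners of every square vanishes. For
`e ∈ inner a (b+1)` put `f e = ε (src e, pu e) + ε (tgt e, pu e) = ε (src e, pl e) + ε (tgt e, pl e)` (square relation,
characteristic 2). Extend to all edges of `ℤ²` by clamping: let `cl t = max a (min t b)`; for
`e = ((i, j), false)`: `f' e = f ((i, cl j), false)` if `a ≤ i < b`, else `0`; for `e = ((i, j), true)`: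
`f' e = f ((cl i, j), true)` if `a ≤ j < b`, else `0`. Hypothesis of `P0de.exists_pot` at `x = (i, j)`
(`f'(x,false) + f'(x+(1,0),true) + f'(x+(0,1),false) + f'(x,true) = 0`):
- `a ≤ i < b`, `a ≤ j < b`: the four edges around the inner face `x`; `x = pu (x,false)`, `x = pl (x+(1,0),true)`
  (`pl e = e.1 - dir (!e.2)`), `x = pl (x+(0,1),false)`, `x = pu (x,true)`: so each `f` is the sum of `ε` at the two
  ends with the passive site `x`; every one of the four sites occurs twice: sum `0`.
- `a ≤ i < b`, `j` outside `[a, b)`: `cl j = cl (j+1)`, so the two horizontal terms are equal, the vertical ones are `0`.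
- `i` outside, `a ≤ j < b`: symmetric. Both outside: all `0`.
So there is `g : Site → ZMod 2` with `f' e = g (src e) + g (tgt e)`; for `e` in the box `f' e = f e`.
`γ (x, true) = g x`. For a passive vertex `q` choose (classically) an edge `e_q ∈ inner a (b+1)` with `q ∈ {pu e_q, pl e_q}` if there
is one and put `γ (q, false) = g (src e_q) + ε (src e_q, q)`. Independence: for every `e ∈ inner a (b+1)` with
`q ∈ {pu e, pl e}` the value `g x + ε (x, q)` is the same for `x = src e, tgt e` (`f e = g (src e) + g (tgt e)`). If `q ∈ box a b` the edges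
beside `q` are `(q,false), (q+(1,0),true), (q+(0,1),false), (q,true)`, consecutive ones share an end, so
the value is the same for all of them; if `q ∉ box a b` there is only one such edge in the box. So
`ε (x, q) = γ x + γ q` for all corners.
-/

set_option autoImplicit false

open Finset P0de

namespace P0q

namespace B1PotAux

theorem two_eq : (2 : ZMod 2) = 0 := by decide

/-- the combinatorial core: `E i j k l` is the value at the active site `(i, j)` and the passive
site `(k, l)` -/
theorem core {a b : ℤ} (hab : a < b) (E : ℤ → ℤ → ℤ → ℤ → ZMod 2)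
    (hH : ∀ i j, a ≤ i → i < b → a ≤ j → j ≤ b →
      E i j i j + E i j i (j - 1) + (E (i + 1) j i j + E (i + 1) j i (j - 1)) = 0)
    (hV : ∀ i j, a ≤ i → i ≤ b → a ≤ j → j < b →
      E i j i j + E i j (i - 1) j + (E i (j + 1) i j + E i (j + 1) (i - 1) j) = 0) :
    ∃ (g : ℤ → ℤ → ZMod 2) (G : ℤ → ℤ → ZMod 2), ∀ i j k l,
      a ≤ i → i ≤ b → a ≤ j → j ≤ b →
      ((a ≤ k ∧ k < b ∧ a - 1 ≤ l ∧ l ≤ b) ∨ (a - 1 ≤ k ∧ k ≤ b ∧ a ≤ l ∧ l < b)) →
      (i = k ∨ i = k + 1) → (j = l ∨ j = l + 1) → E i j k l = g i j + G k l := by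
  classical
  let cl : ℤ → ℤ := fun t => max a (min t b)
  have clin : ∀ t, a ≤ t → t ≤ b → cl t = t := by
    intro t h1 h2
    show max a (min t b) = t
    omega
  obtain ⟨g, hg⟩ := exists_pot
    (fun e => bif e.2 then
      (if a ≤ e.1.2 ∧ e.1.2 < b then
        E (cl e.1.1) e.1.2 (cl e.1.1) e.1.2 + E (cl e.1.1) (e.1.2 + 1) (cl e.1.1) e.1.2 else 0)
      else
      (if a ≤ e.1.1 ∧ e.1.1 < b then
        E e.1.1 (cl e.1.2) e.1.1 (cl e.1.2) + E (e.1.1 + 1) (cl e.1.2) e.1.1 (cl e.1.2) else 0))
    (by
      rintro ⟨i, j⟩
      simp only [cond_true, cond_false, Prod.mk_add_mk, add_zero]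
      by_cases hi : a ≤ i ∧ i < b
      · by_cases hj : a ≤ j ∧ j < b
        · rw [if_pos hi, if_pos hj, if_pos hi, if_pos hj, clin j hj.1 hj.2.le,
            clin (i + 1) (by omega) (by omega), clin (j + 1) (by omega) (by omega),
            clin i hi.1 hi.2.le]
          have h1 := hV (i + 1) j (by omega) (by omega) hj.1 hj.2
          have h2 := hH i (j + 1) hi.1 hi.2 (by omega) (by omega)
          rw [add_sub_cancel_right] at h1 h2
          linear_combination h1 + h2 + (E i j i j - E (i + 1) (j + 1) i j) * two_eq
        · rw [if_pos hi, if_neg hj, if_pos hi, if_neg hj]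
          have hc : cl (j + 1) = cl j := by
            show max a (min (j + 1) b) = max a (min j b)
            omega
          rw [hc]
          linear_combination (E i (cl j) i (cl j) + E (i + 1) (cl j) i (cl j)) * two_eq
      · by_cases hj : a ≤ j ∧ j < b
        · rw [if_neg hi, if_pos hj, if_neg hi, if_pos hj]
          have hc : cl (i + 1) = cl i := by
            show max a (min (i + 1) b) = max a (min i b)
            omega
          rw [hc]
          linear_combination (E (cl i) j (cl i) j + E (cl i) (j + 1) (cl i) j) * two_eq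
        · rw [if_neg hi, if_neg hj, if_neg hi, if_neg hj]
          simp)
  have gH : ∀ i j, a ≤ i → i < b → a ≤ j → j ≤ b →
      E i j i j + E (i + 1) j i j = g (i, j) + g (i + 1, j) := by
    intro i j h1 h2 h3 h4
    have := hg ((i, j), false)
    simpa only [cond_false, if_pos (And.intro h1 h2), clin j h3 h4, src, tgt, dir,
      Prod.mk_add_mk, add_zero] using this
  have gV : ∀ i j, a ≤ i → i ≤ b → a ≤ j → j < b →
      E i j i j + E i (j + 1) i j = g (i, j) + g (i, j + 1) := by
    intro i j h1 h2 h3 h4
    have := hg ((i, j), true)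
    simpa only [cond_true, if_pos (And.intro h3 h4), clin i h1 h2, src, tgt, dir,
      Prod.mk_add_mk, add_zero] using this
  have gH' : ∀ i j, a ≤ i → i < b → a ≤ j → j ≤ b →
      E i j i (j - 1) + E (i + 1) j i (j - 1) = g (i, j) + g (i + 1, j) := by
    intro i j h1 h2 h3 h4
    linear_combination hH i j h1 h2 h3 h4 + gH i j h1 h2 h3 h4 -
      (E i j i j + E (i + 1) j i j) * two_eq
  have gV' : ∀ i j, a ≤ i → i ≤ b → a ≤ j → j < b →
      E i j (i - 1) j + E i (j + 1) (i - 1) j = g (i, j) + g (i, j + 1) := by
    intro i j h1 h2 h3 h4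
    linear_combination hV i j h1 h2 h3 h4 + gV i j h1 h2 h3 h4 -
      (E i j i j + E i (j + 1) i j) * two_eq
  refine ⟨fun i j => g (i, j),
    fun k l => g (max a k, max a l) + E (max a k) (max a l) k l, ?_⟩
  intro i j k l hi1 hi2 hj1 hj2 hkl hik hjl
  -- reduce to the equality of `g + E` at `(i, j)` and at the representative
  suffices hD : g (i, j) + E i j k l = g (max a k, max a l) + E (max a k) (max a l) k l by
    linear_combination hD - g (i, j) * two_eq
  by_cases hk1 : k < a
  · -- `k = a - 1`
    have hk : k = a - 1 := by omega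
    have hi : i = a := by omega
    subst hk
    subst hi
    rw [max_eq_left (by omega), max_eq_right (by omega)]
    rcases hjl with rfl | rfl
    · rfl
    · have := gV' i l le_rfl (by omega) (by omega) (by omega)
      linear_combination this + (g (i, l + 1) - E i l (i - 1) l) * two_eq
  · by_cases hk2 : k = b
    · subst hk2
      have hi : i = k := by omega
      subst hi
      rw [max_eq_right (by omega), max_eq_right (by omega)]
      rcases hjl with rfl | rfl
      · rfl
      · have := gV i l (by omega) le_rfl (by omega) (by omega)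
        linear_combination this + (g (i, l + 1) - E i l i l) * two_eq
    · have hk3 : a ≤ k := by omega
      have hk4 : k < b := by omega
      rw [max_eq_right hk3]
      by_cases hl1 : l < a
      · have hl : l = a - 1 := by omega
        have hj : j = a := by omega
        subst hl
        subst hj
        rw [max_eq_left (by omega)]
        rcases hik with rfl | rfl
        · rfl
        · have := gH' k j hk3 hk4 le_rfl (by omega)
          linear_combination this + (g (k + 1, j) - E k j k (j - 1)) * two_eq
      · rw [max_eq_right (by omega)]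
        have hA : ∀ (_ : a ≤ l) (_ : l ≤ b), g (k + 1, l) + E (k + 1) l k l =
            g (k, l) + E k l k l := by
          intro h1 h2
          have := gH k l hk3 hk4 h1 h2
          linear_combination this + (g (k + 1, l) - E k l k l) * two_eq
        rcases hjl with rfl | rfl
        · rcases hik with rfl | rfl
          · rfl
          · exact hA hj1 hj2
        · rcases hik with rfl | rfl
          · have := gV i l hk3 (by omega) (by omega) (by omega)
            linear_combination this + (g (i, l + 1) - E i l i l) * two_eq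
          · have h1 := gV' (k + 1) l (by omega) (by omega) (by omega) (by omega)
            rw [add_sub_cancel_right] at h1
            have h2 := hA (by omega) (by omega)
            linear_combination h1 + h2 + (g (k + 1, l + 1) - E (k + 1) l k l) * two_eq

end B1PotAux

theorem box_pot {a b : ℤ} (hab : a < b) (ε : VV a b → VV a b → ZMod 2)
    (h : ∀ e, ∑ i : Bool, ∑ j : Bool, ε ((BQ a b).en e true i) ((BQ a b).en e false j) = 0) :
    ∃ γ : VV a b → ZMod 2, ∀ e i j, ε ((BQ a b).en e true i) ((BQ a b).en e false j) =
      γ ((BQ a b).en e true i) + γ ((BQ a b).en e false j) := by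
  classical
  obtain ⟨E, hE⟩ : ∃ E : Site → Site → ZMod 2, ∀ (x q : Site) (hx : (x, true) ∈ VS a b)
      (hq : (q, false) ∈ VS a b), E x q = ε ⟨(x, true), hx⟩ ⟨(q, false), hq⟩ := by
    refine ⟨fun x q => if hx : (x, true) ∈ VS a b then
      if hq : (q, false) ∈ VS a b then ε ⟨(x, true), hx⟩ ⟨(q, false), hq⟩ else 0 else 0, ?_⟩
    intro x q hx hq
    beta_reduce
    rw [dif_pos hx, dif_pos hq]
  have hsq : ∀ e ∈ inner a (b + 1), E (src e) (pu e) + E (src e) (pl e) +
      (E (tgt e) (pu e) + E (tgt e) (pl e)) = 0 := by
    intro e he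
    obtain ⟨h1, h2, h3, h4⟩ := en_mem he
    rw [hE _ _ h1 h3, hE _ _ h1 h4, hE _ _ h2 h3, hE _ _ h2 h4]
    have h' := h ⟨e, he⟩
    simp only [Fintype.sum_bool, BQ] at h'
    linear_combination h'
  obtain ⟨g, G, hgG⟩ := B1PotAux.core hab (fun i j k l => E (i, j) (k, l))
    (by
      intro i j h1 h2 h3 h4
      have h5 := hsq ((i, j), false) (by
        rw [P0de.mem_inner, P0de.mem_box, P0de.mem_box]
        simp only [src, tgt, dir, cond_false, Prod.mk_add_mk]
        omega)
      simpa only [src, tgt, pu, pl, dir, cond_false, cond_true, Bool.not_false, Prod.mk_add_mk,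
        Prod.mk_sub_mk, add_zero, sub_zero] using h5)
    (by
      intro i j h1 h2 h3 h4
      have h5 := hsq ((i, j), true) (by
        rw [P0de.mem_inner, P0de.mem_box, P0de.mem_box]
        simp only [src, tgt, dir, cond_true, Prod.mk_add_mk]
        omega)
      simpa only [src, tgt, pu, pl, dir, cond_false, cond_true, Bool.not_true, Prod.mk_add_mk,
        Prod.mk_sub_mk, add_zero, sub_zero] using h5)
  have key : ∀ (x q : Site) (hx : (x, true) ∈ VS a b) (hq : (q, false) ∈ VS a b),
      (x.1 = q.1 ∨ x.1 = q.1 + 1) → (x.2 = q.2 ∨ x.2 = q.2 + 1) →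
      ε ⟨(x, true), hx⟩ ⟨(q, false), hq⟩ = g x.1 x.2 + G q.1 q.2 := by
    rintro ⟨i, j⟩ ⟨k, l⟩ hx hq h1 h2
    rw [← hE _ _ hx hq]
    rw [mem_VS_true, P0de.mem_box] at hx
    rw [mem_VS_false, mem_pas] at hq
    simp only at hx hq h1 h2
    exact hgG i j k l (by omega) (by omega) (by omega) (by omega) (by omega) h1 h2
  refine ⟨fun z => bif z.1.2 then g z.1.1.1 z.1.1.2 else G z.1.1.1 z.1.1.2, ?_⟩
  rintro ⟨⟨⟨i, j⟩, c⟩, he⟩ s t
  cases c <;> cases s <;> cases t <;>
  · refine key _ _ _ _ ?_ ?_ <;>
    simp [src, tgt, pu, pl, dir]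

end P0q
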