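import Pool.Agent.Lib.P0q.Defs

/-!
# B2Star: corners and squares of the disc of a box

Concrete facts: an edge `e` (as a square) has the active vertices `src e, tgt e` and the passive vertices
`pu e = e.1`, `pl e = e.1 - dir (!e.2)`. For an active site `x` and `q ∈ nbP x` the edges of `ℤ²` having both as vertices are exactly two:
`q = x`: `(x, false)`, `(x, true)`; `q = x - (1,0)`: `(x - (1,0), false)`, `(x, true)`; `q = x - (0,1)`: `(x, false)`,
`(x - (0,1), true)`; `q = x - (1,1)`: `(x - (1,0), false)`, `(x - (0,1), true)`. If `q ∉ nbP x` there is none.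
For `x ∈ box a (b+1)` and `q ∈ pas a b`, `q ∈ nbP x`: both edges are in `inner a (b+1)` if `q ∈ box a b`, exactly one is if
`q ∉ box a b` (then `x ∈ bdry a b`). All statements are finite case distinctions with `omega`
(`P0de.mem_box`, `P0de.mem_inner`, `mem_pas`; `cases` on the direction of the edges).

`star_box`: around an active `x` the squares are the edges at `x` in the box; consecutive ones in the cyclic order
`(x,false), (x,true), (x-(1,0),false), (x-(0,1),true)` share the passive vertices `x`, `x-(1,0)`, `x-(1,1)`, `x-(0,1)`;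
inside the box the edges at `x` form an interval of this cycle of at least 2 edges (4 for interior `x`, 3 for flat boundary
vertices, 2 for box corners), consecutive ones with a common passive vertex. Around a passive `q ∈ box a b`: the edges
`(q,false), (q+(1,0),true), (q+(0,1),false), (q,true)`, consecutive ones share an active vertex. Around
`q ∉ box a b` there is only one square.
-/

set_option autoImplicit false

open Finset P0de

namespace P0q

namespace B2StarAux

theorem on_act {a b : ℤ} {e : MM a b} {x : Site} (hx : (x, true) ∈ VS a b) :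
    (BQ a b).on e ⟨(x, true), hx⟩ ↔ src e.1 = x ∨ tgt e.1 = x := by
  constructor
  · rintro ⟨c, i, h⟩
    cases c <;> cases i <;> simp [BQ] at h
    · exact Or.inl h
    · exact Or.inr h
  · rintro (h | h)
    · exact ⟨true, false, by simp [BQ, h]⟩
    · exact ⟨true, true, by simp [BQ, h]⟩

theorem on_pas {a b : ℤ} {e : MM a b} {q : Site} (hq : (q, false) ∈ VS a b) :
    (BQ a b).on e ⟨(q, false), hq⟩ ↔ pu e.1 = q ∨ pl e.1 = q := by
  constructor
  · rintro ⟨c, i, h⟩
    cases c <;> cases i <;> simp [BQ] at h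
    · exact Or.inl h
    · exact Or.inr h
  · rintro (h | h)
    · exact ⟨false, false, by simp [BQ, h]⟩
    · exact ⟨false, true, by simp [BQ, h]⟩

theorem src_tgt_iff {i j : ℤ} {c : Bool} {x : Site} :
    (src ((i, j), c) = x ∨ tgt ((i, j), c) = x) ↔
      (c = false ∧ (x.1 = i ∨ x.1 = i + 1) ∧ x.2 = j) ∨
      (c = true ∧ x.1 = i ∧ (x.2 = j ∨ x.2 = j + 1)) := by
  obtain ⟨x1, x2⟩ := x
  cases c
  · simp only [src, tgt, dir, cond_false, Prod.mk_add_mk, Prod.mk.injEq, add_zero, true_and,
      Bool.false_eq_true, false_and, or_false]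
    omega
  · simp only [src, tgt, dir, cond_true, Prod.mk_add_mk, Prod.mk.injEq, add_zero, true_and,
      Bool.true_eq_false, false_and, false_or]
    omega

theorem pu_pl_iff {i j : ℤ} {c : Bool} {q : Site} :
    (pu ((i, j), c) = q ∨ pl ((i, j), c) = q) ↔
      (c = false ∧ q.1 = i ∧ (q.2 = j ∨ q.2 = j - 1)) ∨
      (c = true ∧ (q.1 = i ∨ q.1 = i - 1) ∧ q.2 = j) := by
  obtain ⟨x1, x2⟩ := q
  cases c
  · simp only [pu, pl, dir, Bool.not_false, cond_true, Prod.mk_sub_mk, Prod.mk.injEq, sub_zero,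
      true_and, Bool.false_eq_true, false_and, or_false]
    omega
  · simp only [pu, pl, dir, Bool.not_true, cond_false, Prod.mk_sub_mk, Prod.mk.injEq, sub_zero,
      true_and, Bool.true_eq_false, false_and, false_or]
    omega

theorem inner_iff {a b i j : ℤ} {c : Bool} : ((i, j), c) ∈ inner a (b + 1) ↔
    (c = false ∧ (a ≤ i ∧ i < b) ∧ a ≤ j ∧ j ≤ b) ∨ (c = true ∧ (a ≤ i ∧ i ≤ b) ∧ a ≤ j ∧ j < b) := by
  rw [P0de.mem_inner, P0de.mem_box, P0de.mem_box]
  cases c
  · simp only [src, tgt, dir, cond_false, Prod.mk_add_mk, add_zero, true_and,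
      Bool.false_eq_true, false_and, or_false]
    omega
  · simp only [src, tgt, dir, cond_true, Prod.mk_add_mk, add_zero, true_and,
      Bool.true_eq_false, false_and, false_or]
    omega

theorem nbP_iff {x q : Site} : q ∈ nbP x ↔
    (q.1 = x.1 ∨ q.1 = x.1 - 1) ∧ (q.2 = x.2 ∨ q.2 = x.2 - 1) := by
  obtain ⟨x1, x2⟩ := x
  obtain ⟨q1, q2⟩ := q
  simp only [nbP, mem_insert, mem_singleton, Prod.mk_sub_mk, Prod.mk.injEq, sub_zero]
  omega

/-- the squares at the active `x` and the passive `q` as a set of edges -/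
noncomputable def sqE (a b : ℤ) (x q : Site) : Finset Ed :=
  (if a ≤ q.1 ∧ q.1 < b then {((q.1, x.2), false)} else ∅) ∪
    (if a ≤ q.2 ∧ q.2 < b then {((x.1, q.2), true)} else ∅)

theorem mem_sqE {a b : ℤ} {x q : Site} {i j : ℤ} {c : Bool} : ((i, j), c) ∈ sqE a b x q ↔
    (c = false ∧ (a ≤ q.1 ∧ q.1 < b) ∧ i = q.1 ∧ j = x.2) ∨
    (c = true ∧ (a ≤ q.2 ∧ q.2 < b) ∧ i = x.1 ∧ j = q.2) := by
  rw [sqE, mem_union]
  cases c
  · split_ifs with h1 h2 h2 <;> simp [h1]
  · split_ifs with h1 h2 h2 <;> simp [h2]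

theorem card_sqE {a b : ℤ} {x q : Site} : (sqE a b x q).card =
    (if a ≤ q.1 ∧ q.1 < b then 1 else 0) + (if a ≤ q.2 ∧ q.2 < b then 1 else 0) := by
  rw [sqE, card_union_of_disjoint]
  · split_ifs <;> simp
  · split_ifs <;> simp

theorem card_sq {a b : ℤ} {x q : Site} (hx : (x, true) ∈ VS a b) (hq : (q, false) ∈ VS a b)
    (h : q ∈ nbP x) :
    ((BQ a b).sq ⟨(x, true), hx⟩ ⟨(q, false), hq⟩).card = (sqE a b x q).card := by
  rw [← card_image_of_injective _ Subtype.val_injective]
  congr 1
  ext ⟨⟨i, j⟩, c⟩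
  rw [mem_VS_true, P0de.mem_box] at hx
  rw [nbP_iff] at h
  rw [mem_image, mem_sqE]
  constructor
  · rintro ⟨⟨e, he⟩, h1, rfl⟩
    rw [Quad.sq, mem_filter, on_act, on_pas, src_tgt_iff, pu_pl_iff] at h1
    rw [inner_iff] at he
    cases c <;> simp at he h1 ⊢ <;> omega
  · intro h1
    have he : ((i, j), c) ∈ inner a (b + 1) := by
      rw [inner_iff]
      cases c <;> simp at h1 ⊢ <;> omega
    refine ⟨⟨_, he⟩, ?_, rfl⟩
    rw [Quad.sq, mem_filter, on_act, on_pas, src_tgt_iff, pu_pl_iff]
    cases c <;> simp at h1 ⊢ <;> omega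

theorem card_sq_zero {a b : ℤ} {x q : Site} (hx : (x, true) ∈ VS a b) (hq : (q, false) ∈ VS a b)
    (h : q ∉ nbP x) : ((BQ a b).sq ⟨(x, true), hx⟩ ⟨(q, false), hq⟩).card = 0 := by
  rw [card_eq_zero, eq_empty_iff_forall_notMem]
  rintro ⟨⟨⟨i, j⟩, c⟩, he⟩ h1
  rw [Quad.sq, mem_filter, on_act, on_pas, src_tgt_iff, pu_pl_iff] at h1
  rw [nbP_iff] at h
  cases c <;> simp at h1 <;> omega

end B2StarAux

open B2StarAux

/-- the number of squares containing an active and a passive vertex -/
theorem sq_card {a b : ℤ} (hab : a < b) {x q : Site} (hx : (x, true) ∈ VS a b)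
    (hq : (q, false) ∈ VS a b) : ((BQ a b).sq ⟨(x, true), hx⟩ ⟨(q, false), hq⟩).card =
      if q ∈ nbP x then (if q ∈ box a b then 2 else 1) else 0 := by
  by_cases h : q ∈ nbP x
  · rw [if_pos h, card_sq hx hq h, card_sqE]
    rw [mem_VS_false, mem_pas] at hq
    by_cases hb : q ∈ box a b
    · rw [if_pos hb]
      rw [P0de.mem_box] at hb
      rw [if_pos hb.1, if_pos hb.2]
    · rw [if_neg hb]
      rw [P0de.mem_box] at hb
      split_ifs <;> omega
  · rw [if_neg h, card_sq_zero hx hq h]

theorem sq_comm {a b : ℤ} (z z' : VV a b) : (BQ a b).sq z z' = (BQ a b).sq z' z := by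
  rw [Quad.sq, Quad.sq]
  apply filter_congr
  intro e _
  exact and_comm

/-- corners of the disc -/
theorem cor_box {a b : ℤ} (hab : a < b) {x q : Site} (hx : (x, true) ∈ VS a b)
    (hq : (q, false) ∈ VS a b) :
    (BQ a b).cor ⟨(x, true), hx⟩ ⟨(q, false), hq⟩ ↔ q ∈ nbP x := by
  rw [Quad.cor, ← card_pos, sq_card hab hx hq]
  have h1 : (BQ a b).pr ⟨(x, true), hx⟩ ≠ (BQ a b).pr ⟨(q, false), hq⟩ := by simp [BQ]
  rw [and_iff_right h1]
  split_ifs with h2 h3 <;> simp [h2]

theorem star_box {a b : ℤ} (hab : a < b) (x : VV a b) (g : MM a b → ZMod 2)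
    (hg : ∀ y, (BQ a b).pr y ≠ (BQ a b).pr x → ∀ e e', e ∈ (BQ a b).sq x y →
      e' ∈ (BQ a b).sq x y → g e = g e') (e e' : MM a b) (he : (BQ a b).on e x)
    (he' : (BQ a b).on e' x) : g e = g e' := by
  -- it is enough to treat edges of different directions
  have key : ∀ e e' : MM a b, (BQ a b).on e x → (BQ a b).on e' x → e.1.2 = false →
      e'.1.2 = true → g e = g e' := by
    rintro ⟨⟨⟨i, j⟩, c⟩, h1⟩ ⟨⟨⟨i', j'⟩, c'⟩, h1'⟩ h2 h2' h3 h3'
    obtain rfl : c = false := h3
    obtain rfl : c' = true := h3'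
    obtain ⟨⟨⟨x1, x2⟩, d⟩, hx⟩ := x
    have k1 := inner_iff.1 h1
    have k1' := inner_iff.1 h1'
    cases d
    · have k2 := pu_pl_iff.1 ((on_pas hx).1 h2)
      have k2' := pu_pl_iff.1 ((on_pas hx).1 h2')
      simp at k1 k1' k2 k2'
      have hy : (((i', j), true) : Site × Bool) ∈ VS a b := by
        rw [mem_VS_true, P0de.mem_box]
        simp
        omega
      refine hg ⟨((i', j), true), hy⟩ (by simp [BQ]) _ _ ?_ ?_
      · rw [Quad.sq, mem_filter]
        refine ⟨mem_univ _, h2, ?_⟩
        rw [on_act, src_tgt_iff]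
        simp
        omega
      · rw [Quad.sq, mem_filter]
        refine ⟨mem_univ _, h2', ?_⟩
        rw [on_act, src_tgt_iff]
        simp
        omega
    · have k2 := src_tgt_iff.1 ((on_act hx).1 h2)
      have k2' := src_tgt_iff.1 ((on_act hx).1 h2')
      simp at k1 k1' k2 k2'
      have hy : (((i, j'), false) : Site × Bool) ∈ VS a b := by
        rw [mem_VS_false, mem_pas]
        simp
        omega
      refine hg ⟨((i, j'), false), hy⟩ (by simp [BQ]) _ _ ?_ ?_
      · rw [Quad.sq, mem_filter]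
        refine ⟨mem_univ _, h2, ?_⟩
        rw [on_pas, pu_pl_iff]
        simp
        omega
      · rw [Quad.sq, mem_filter]
        refine ⟨mem_univ _, h2', ?_⟩
        rw [on_pas, pu_pl_iff]
        simp
        omega
  have key2 : ∀ e e' : MM a b, e ≠ e' → (BQ a b).on e x → (BQ a b).on e' x → e.1.2 = e'.1.2 →
      ∃ e'' : MM a b, (BQ a b).on e'' x ∧ e''.1.2 ≠ e.1.2 := by
    rintro ⟨⟨⟨i, j⟩, c⟩, h1⟩ ⟨⟨⟨i', j'⟩, c'⟩, h1'⟩ h0 h2 h2' h3
    obtain rfl : c = c' := h3
    obtain ⟨⟨⟨x1, x2⟩, d⟩, hx⟩ := x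
    have k1 := inner_iff.1 h1
    have k1' := inner_iff.1 h1'
    simp only [ne_eq, Subtype.mk.injEq, Prod.mk.injEq, and_true] at h0
    cases d
    · have k2 := pu_pl_iff.1 ((on_pas hx).1 h2)
      have k2' := pu_pl_iff.1 ((on_pas hx).1 h2')
      have hy : (((x1, x2), !c) : Ed) ∈ inner a (b + 1) := by
        rw [inner_iff]
        cases c <;> simp at k1 k1' k2 k2' ⊢ <;> omega
      refine ⟨⟨_, hy⟩, ?_, by simp⟩
      rw [on_pas, pu_pl_iff]
      cases c <;> simp
    · have k2 := src_tgt_iff.1 ((on_act hx).1 h2)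
      have k2' := src_tgt_iff.1 ((on_act hx).1 h2')
      have hx' := hx
      rw [mem_VS_true, P0de.mem_box] at hx'
      simp only at hx'
      cases c
      · simp at k1 k1' k2 k2'
        by_cases hb : x2 < b
        · have hy : (((x1, x2), true) : Ed) ∈ inner a (b + 1) := by
            rw [inner_iff]
            simp
            omega
          refine ⟨⟨_, hy⟩, ?_, by simp⟩
          rw [on_act, src_tgt_iff]
          simp
        · have hy : (((x1, x2 - 1), true) : Ed) ∈ inner a (b + 1) := by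
            rw [inner_iff]
            simp
            omega
          refine ⟨⟨_, hy⟩, ?_, by simp⟩
          rw [on_act, src_tgt_iff]
          simp
      · simp at k1 k1' k2 k2'
        by_cases hb : x1 < b
        · have hy : (((x1, x2), false) : Ed) ∈ inner a (b + 1) := by
            rw [inner_iff]
            simp
            omega
          refine ⟨⟨_, hy⟩, ?_, by simp⟩
          rw [on_act, src_tgt_iff]
          simp
        · have hy : (((x1 - 1, x2), false) : Ed) ∈ inner a (b + 1) := by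
            rw [inner_iff]
            simp
            omega
          refine ⟨⟨_, hy⟩, ?_, by simp⟩
          rw [on_act, src_tgt_iff]
          simp
  have key3 : ∀ e e' : MM a b, (BQ a b).on e x → (BQ a b).on e' x → e.1.2 ≠ e'.1.2 →
      g e = g e' := by
    intro e e' h1 h2 h3
    cases hc : e.1.2
    · apply key e e' h1 h2 hc
      rw [hc] at h3
      cases hc' : e'.1.2
      · exact absurd hc'.symm h3
      · rfl
    · symm
      apply key e' e h2 h1 _ hc
      rw [hc] at h3
      cases hc' : e'.1.2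
      · rfl
      · exact absurd hc'.symm h3
  by_cases h0 : e = e'
  · rw [h0]
  · by_cases h3 : e.1.2 = e'.1.2
    · obtain ⟨e'', h4, h5⟩ := key2 e e' h0 he he' h3
      rw [key3 e e'' he h4 (Ne.symm h5), key3 e'' e' h4 he' (by rw [← h3]; exact h5)]
    · exact key3 e e' he he' h3

end P0q
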