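import Pool.Agent.Lib.P0q.B2Star

/-!
# B3Conn: connectedness, boundary corners, degrees of the disc of a box

`conn_box`: `T` nonempty with `en e true i ∈ T ↔ en e false j ∈ T` for all squares. For `e ∈ inner a (b+1)` its two active
ends are both in `T` or both not (through `pu e`). So the set of active sites of the box in `T` is closed under the
edges of the box: it is everything or empty (a box is connected: induction on the coordinates). Every passive vertex is a
vertex of some square in the box (`mem_pas`: `q = (i, j)` with `a ≤ i < b`, `a - 1 ≤ j ≤ b`: the edge `((i, j), false)` if `a ≤ j`, or `((i, j+1), false)`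
if `j < b`; similarly in the other case), and every active vertex too (`a < b`). So `T` contains an active site, hence all, hence all passive vertices.

`mem_bc_box`: by `sq_card`: `(z, z') ∈ bc` iff `z = (x, true)`, `z' = (q, false)`, `q ∈ nbP x`, `q ∉ box a b`.
`bc_mem_box`: then `x ∈ bdry a b` (`x ∈ box a (b+1)`, `q ∈ nbP x` not in `box a b`: if `x` were in `box (a+1) b` all of
`nbP x ⊆ box a b`).
`bc_two_box`: an active `x ∈ bdry a b` has exactly two elements of `nbP x` in `pas a b \ box a b`; a passive `q ∈ pas a b \ box a b`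
has exactly two `x ∈ box a (b+1)` with `q ∈ nbP x`. (Case distinction: the side of the box; for the box corner `(a, a)`:
`(a-1, a)`, `(a, a-1)`, since `(a-1, a-1) ∉ pas`.)
`deg_int_box`: vertices not in `bd`: `x ∈ box (a+1) b` active: the four edges at `x`; `q ∈ box a b` passive: the four edges around `q`; all
in `inner a (b+1)`.
-/

set_option autoImplicit false

open Finset P0de

namespace P0q

namespace B3ConnAux

theorem en_tf {a b : ℤ} (e : MM a b) : ((BQ a b).en e true false).1 = (src e.1, true) := rfl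
theorem en_tt {a b : ℤ} (e : MM a b) : ((BQ a b).en e true true).1 = (tgt e.1, true) := rfl
theorem en_ff {a b : ℤ} (e : MM a b) : ((BQ a b).en e false false).1 = (pu e.1, false) := rfl
theorem en_ft {a b : ℤ} (e : MM a b) : ((BQ a b).en e false true).1 = (pl e.1, false) := rfl

theorem on_act {a b : ℤ} (e : MM a b) {x : Site} (hx : (x, true) ∈ VS a b) :
    (BQ a b).on e ⟨(x, true), hx⟩ ↔ src e.1 = x ∨ tgt e.1 = x := by
  constructor
  · rintro ⟨c, i, h⟩
    have h' := congrArg Subtype.val h
    cases c <;> cases i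
    · rw [en_ff] at h'
      simp at h'
    · rw [en_ft] at h'
      simp at h'
    · rw [en_tf] at h'
      left
      exact congrArg Prod.fst h'
    · rw [en_tt] at h'
      right
      exact congrArg Prod.fst h'
  · rintro (h | h)
    · refine ⟨true, false, Subtype.ext ?_⟩
      rw [en_tf, h]
    · refine ⟨true, true, Subtype.ext ?_⟩
      rw [en_tt, h]

theorem on_pas {a b : ℤ} (e : MM a b) {q : Site} (hq : (q, false) ∈ VS a b) :
    (BQ a b).on e ⟨(q, false), hq⟩ ↔ pu e.1 = q ∨ pl e.1 = q := by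
  constructor
  · rintro ⟨c, i, h⟩
    have h' := congrArg Subtype.val h
    cases c <;> cases i
    · rw [en_ff] at h'
      left
      exact congrArg Prod.fst h'
    · rw [en_ft] at h'
      right
      exact congrArg Prod.fst h'
    · rw [en_tf] at h'
      simp at h'
    · rw [en_tt] at h'
      simp at h'
  · rintro (h | h)
    · refine ⟨false, false, Subtype.ext ?_⟩
      rw [en_ff, h]
    · refine ⟨false, true, Subtype.ext ?_⟩
      rw [en_ft, h]

theorem mem_inner_h {a b i j : ℤ} : (((i, j), false) : Ed) ∈ inner a (b + 1) ↔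
    (a ≤ i ∧ i < b) ∧ a ≤ j ∧ j ≤ b := by
  rw [P0de.mem_inner, P0de.mem_box, P0de.mem_box]
  simp only [src, tgt, dir, cond_false, Prod.mk_add_mk, add_zero]
  omega

theorem mem_inner_v {a b i j : ℤ} : (((i, j), true) : Ed) ∈ inner a (b + 1) ↔
    (a ≤ i ∧ i ≤ b) ∧ a ≤ j ∧ j < b := by
  rw [P0de.mem_inner, P0de.mem_box, P0de.mem_box]
  simp only [src, tgt, dir, cond_true, Prod.mk_add_mk, add_zero]
  omega

theorem mem_bdry' {a b i j : ℤ} : ((i, j) : Site) ∈ bdry a b ↔
    (a ≤ i ∧ i ≤ b ∧ a ≤ j ∧ j ≤ b) ∧ (i = a ∨ i = b ∨ j = a ∨ j = b) := by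
  unfold bdry
  rw [mem_sdiff, P0de.mem_box, P0de.mem_box]
  simp only
  omega

theorem mem_nbP' {i j k l : ℤ} : ((k, l) : Site) ∈ nbP (i, j) ↔
    (k = i ∧ l = j) ∨ (k = i - 1 ∧ l = j) ∨ (k = i ∧ l = j - 1) ∨ (k = i - 1 ∧ l = j - 1) := by
  unfold nbP
  simp only [mem_insert, mem_singleton, Prod.mk_sub_mk, Prod.mk.injEq, sub_zero]

/-- four points -/
theorem card_four {α : Type*} [DecidableEq α] (P : α → Prop) [DecidablePred P] {x y z t : α}
    (h1 : x ≠ y) (h2 : x ≠ z) (h3 : x ≠ t) (h4 : y ≠ z) (h5 : y ≠ t) (h6 : z ≠ t) :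
    (({x, y, z, t} : Finset α).filter P).card = (if P x then 1 else 0) + (if P y then 1 else 0)
      + (if P z then 1 else 0) + (if P t then 1 else 0) := by
  rw [card_filter, sum_insert (by simp [h1, h2, h3]), sum_insert (by simp [h4, h5]),
    sum_insert (by simp [h6]), sum_singleton]
  ring

theorem card_nbP {a b i j : ℤ} (hab : a < b) (h : ((i, j) : Site) ∈ bdry a b) :
    ((nbP (i, j)).filter fun q => q ∉ box a b ∧ q ∈ pas a b).card = 2 := by
  rw [mem_bdry'] at h
  have e : nbP (i, j) = {((i, j) : Site), (i - 1, j), (i, j - 1), (i - 1, j - 1)} := by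
    unfold nbP
    simp only [Prod.mk_sub_mk, sub_zero]
  rw [e, card_four]
  · simp only [P0de.mem_box, mem_pas]
    split_ifs <;> omega
  all_goals
    simp only [ne_eq, Prod.mk.injEq]
    omega

theorem card_nbA {a b i j : ℤ} (hab : a < b) (h : ((i, j) : Site) ∈ pas a b)
    (h' : ((i, j) : Site) ∉ box a b) :
    ((nbA (i, j)).filter fun x => x ∈ box a (b + 1)).card = 2 := by
  rw [mem_pas] at h
  rw [P0de.mem_box] at h'
  simp only at h h'
  have e : nbA (i, j) = {((i, j) : Site), (i + 1, j), (i, j + 1), (i + 1, j + 1)} := by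
    unfold nbA
    simp only [Prod.mk_add_mk, add_zero]
  rw [e, card_four]
  · simp only [P0de.mem_box]
    split_ifs <;> omega
  all_goals
    simp only [ne_eq, Prod.mk.injEq]
    omega

theorem mem_nbA_iff {x q : Site} : x ∈ nbA q ↔ q ∈ nbP x := by
  obtain ⟨i, j⟩ := x
  obtain ⟨k, l⟩ := q
  rw [mem_nbP']
  unfold nbA
  simp only [mem_insert, mem_singleton, Prod.mk_add_mk, Prod.mk.injEq, add_zero]
  omega

/-- a passive vertex is a vertex of a square -/
theorem exists_sq {a b : ℤ} {q : Site} (hq : q ∈ pas a b) :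
    ∃ e ∈ inner a (b + 1), pu e = q ∨ pl e = q := by
  obtain ⟨i, j⟩ := q
  rw [mem_pas] at hq
  simp only at hq
  by_cases h1 : a ≤ i ∧ i < b
  · by_cases h2 : a ≤ j
    · exact ⟨((i, j), false), mem_inner_h.2 (by omega), Or.inl rfl⟩
    · refine ⟨((i, j + 1), false), mem_inner_h.2 (by omega), Or.inr ?_⟩
      simp [pl, dir]
  · by_cases h2 : a ≤ i
    · exact ⟨((i, j), true), mem_inner_v.2 (by omega), Or.inl rfl⟩
    · refine ⟨((i + 1, j), true), mem_inner_v.2 (by omega), Or.inr ?_⟩
      simp [pl, dir]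

end B3ConnAux

open B3ConnAux

theorem conn_box {a b : ℤ} (hab : a < b) (T : Finset (VV a b)) (hT : T.Nonempty)
    (h : ∀ e i j, (BQ a b).en e true i ∈ T ↔ (BQ a b).en e false j ∈ T) : ∀ x, x ∈ T := by
  have hV : ∀ (e : Ed) (he : e ∈ inner a (b + 1)),
      ((⟨(src e, true), (en_mem he).1⟩ : VV a b) ∈ T ↔
        (⟨(pu e, false), (en_mem he).2.2.1⟩ : VV a b) ∈ T) ∧
      ((⟨(tgt e, true), (en_mem he).2.1⟩ : VV a b) ∈ T ↔
        (⟨(pu e, false), (en_mem he).2.2.1⟩ : VV a b) ∈ T) ∧
      ((⟨(src e, true), (en_mem he).1⟩ : VV a b) ∈ T ↔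
        (⟨(pl e, false), (en_mem he).2.2.2⟩ : VV a b) ∈ T) := by
    intro e he
    exact ⟨h ⟨e, he⟩ false false, h ⟨e, he⟩ true false, h ⟨e, he⟩ false true⟩
  set A : Site → Prop := fun x => ∃ hx : (x, true) ∈ VS a b, (⟨(x, true), hx⟩ : VV a b) ∈ T with hA
  have hst : ∀ e ∈ inner a (b + 1), (A (src e) ↔ A (tgt e)) := by
    intro e he
    have h1 := hV e he
    constructor
    · rintro ⟨_, h2⟩
      exact ⟨(en_mem he).2.1, h1.2.1.2 (h1.1.1 h2)⟩
    · rintro ⟨_, h2⟩
      exact ⟨(en_mem he).1, h1.1.2 (h1.2.1.1 h2)⟩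
  have hrow : ∀ i j : ℤ, a ≤ i → i ≤ b → a ≤ j → j ≤ b → (A (i, j) ↔ A (a, j)) := by
    intro i j hi
    induction i, hi using Int.leInduction with
    | base => intros; rfl
    | succ k hk ih =>
      intro h1 h2 h3
      have h4 := hst ((k, j), false) (mem_inner_h.2 (by omega))
      have h5 : tgt ((k, j), false) = (k + 1, j) := by simp [tgt, dir]
      rw [h5] at h4
      exact h4.symm.trans (ih (by omega) h2 h3)
  have hcol : ∀ j : ℤ, a ≤ j → j ≤ b → (A (a, j) ↔ A (a, a)) := by
    intro j hj
    induction j, hj using Int.leInduction with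
    | base => intros; rfl
    | succ k hk ih =>
      intro h1
      have h4 := hst ((a, k), true) (mem_inner_v.2 (by omega))
      have h5 : tgt ((a, k), true) = (a, k + 1) := by simp [tgt, dir]
      rw [h5] at h4
      exact h4.symm.trans (ih (by omega))
  have hall : ∀ x ∈ box a (b + 1), (A x ↔ A (a, a)) := by
    rintro ⟨i, j⟩ hx
    rw [P0de.mem_box] at hx
    simp only at hx
    exact (hrow i j (by omega) (by omega) (by omega) (by omega)).trans
      (hcol j (by omega) (by omega))
  have haa : A (a, a) := by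
    obtain ⟨⟨⟨z, c⟩, hz⟩, hzT⟩ := hT
    cases c
    · obtain ⟨e, he, hpe⟩ := exists_sq (mem_VS_false.1 hz)
      have h1 := hV e he
      have h2 : (⟨(src e, true), (en_mem he).1⟩ : VV a b) ∈ T := by
        rcases hpe with h3 | h3
        · subst h3
          exact h1.1.2 hzT
        · subst h3
          exact h1.2.2.2 hzT
      exact (hall _ (mem_VS_true.1 (en_mem he).1)).1 ⟨_, h2⟩
    · exact (hall z (mem_VS_true.1 hz)).1 ⟨hz, hzT⟩
  rintro ⟨⟨z, c⟩, hz⟩
  cases c
  · obtain ⟨e, he, hpe⟩ := exists_sq (mem_VS_false.1 hz)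
    have h1 := hV e he
    obtain ⟨_, h2⟩ := (hall _ (mem_VS_true.1 (en_mem he).1)).2 haa
    rcases hpe with h3 | h3
    · subst h3
      exact h1.1.1 h2
    · subst h3
      exact h1.2.2.1 h2
  · obtain ⟨_, h2⟩ := (hall z (mem_VS_true.1 hz)).2 haa
    exact h2

theorem mem_bd_act {a b : ℤ} {x : Site} (hx : (x, true) ∈ VS a b) :
    (⟨(x, true), hx⟩ : VV a b) ∈ (BQ a b).bd ↔ x ∈ bdry a b := by
  simp [BQ]

theorem mem_bd_pas {a b : ℤ} {q : Site} (hq : (q, false) ∈ VS a b) :
    (⟨(q, false), hq⟩ : VV a b) ∈ (BQ a b).bd ↔ q ∉ box a b := by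
  simp [BQ]

theorem mem_bc_box {a b : ℤ} (hab : a < b) {x q : Site} (hx : (x, true) ∈ VS a b)
    (hq : (q, false) ∈ VS a b) :
    ((⟨(x, true), hx⟩, ⟨(q, false), hq⟩) : VV a b × VV a b) ∈ (BQ a b).bc ↔
      q ∈ nbP x ∧ q ∉ box a b := by
  unfold Quad.bc
  rw [mem_filter]
  have h1 := sq_card hab hx hq
  constructor
  · rintro ⟨-, -, -, h2⟩
    rw [h1] at h2
    by_cases h3 : q ∈ nbP x
    · rw [if_pos h3] at h2
      by_cases h4 : q ∈ box a b
      · rw [if_pos h4] at h2
        omega
      · exact ⟨h3, h4⟩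
    · rw [if_neg h3] at h2
      omega
  · rintro ⟨h2, h3⟩
    refine ⟨mem_univ _, rfl, rfl, ?_⟩
    rw [h1, if_pos h2, if_neg h3]

theorem bc_mem_box {a b : ℤ} (hab : a < b) :
    ∀ c ∈ (BQ a b).bc, c.1 ∈ (BQ a b).bd ∧ c.2 ∈ (BQ a b).bd := by
  rintro ⟨⟨⟨x, c⟩, hx⟩, ⟨⟨q, c'⟩, hq⟩⟩ hc
  have h0 := hc
  unfold Quad.bc at h0
  rw [mem_filter] at h0
  obtain ⟨-, hc1, hc2, -⟩ := h0
  have e1 : c = true := hc1
  have e2 : c' = false := hc2
  subst e1 e2
  rw [mem_bc_box hab hx hq] at hc
  obtain ⟨h1, h2⟩ := hc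
  refine ⟨(mem_bd_act hx).2 ?_, (mem_bd_pas hq).2 h2⟩
  have hx' := mem_VS_true.1 hx
  obtain ⟨i, j⟩ := x
  obtain ⟨k, l⟩ := q
  rw [mem_bdry']
  rw [mem_nbP'] at h1
  rw [P0de.mem_box] at h2 hx'
  simp only at h2 hx'
  omega

theorem bc_two_box {a b : ℤ} (hab : a < b) :
    ∀ x ∈ (BQ a b).bd, ((BQ a b).bc.filter fun c => c.1 = x ∨ c.2 = x).card = 2 := by
  have hform : ∀ c ∈ (BQ a b).bc, ∃ (x q : Site) (hx : (x, true) ∈ VS a b)
      (hq : (q, false) ∈ VS a b), c = (⟨(x, true), hx⟩, ⟨(q, false), hq⟩) ∧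
        q ∈ nbP x ∧ q ∉ box a b := by
    rintro ⟨⟨⟨x, c⟩, hx⟩, ⟨⟨q, c'⟩, hq⟩⟩ hc
    have h0 := hc
    unfold Quad.bc at h0
    rw [mem_filter] at h0
    obtain ⟨-, hc1, hc2, -⟩ := h0
    have e1 : c = true := hc1
    have e2 : c' = false := hc2
    subst e1 e2
    rw [mem_bc_box hab hx hq] at hc
    exact ⟨x, q, hx, hq, rfl, hc⟩
  rintro ⟨⟨z, c⟩, hz⟩ hbd
  cases c
  · have hbd' := (mem_bd_pas hz).1 hbd
    have hzp := mem_VS_false.1 hz
    have key : ((nbA z).filter fun x => x ∈ box a (b + 1)).card = 2 := by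
      obtain ⟨i, j⟩ := z
      exact card_nbA hab hzp hbd'
    rw [← key]
    refine Finset.card_bij (fun c _ => c.1.1.1) ?_ ?_ ?_
    · intro c hc
      rw [mem_filter] at hc
      obtain ⟨x, q, hx, hq, rfl, h1, h2⟩ := hform c hc.1
      rcases hc.2 with h3 | h3
      · have h4 := congrArg (fun t : VV a b => t.1.2) h3
        simp at h4
      · have h4 : q = z := congrArg (fun t : VV a b => t.1.1) h3
        subst h4
        rw [mem_filter]
        exact ⟨mem_nbA_iff.2 h1, mem_VS_true.1 hx⟩
    · intro c hc c' hc' heq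
      rw [mem_filter] at hc hc'
      obtain ⟨x, q, hx, hq, rfl, h1, h2⟩ := hform c hc.1
      obtain ⟨x', q', hx', hq', rfl, h1', h2'⟩ := hform c' hc'.1
      have e1 : x = x' := heq
      subst e1
      have e2 : q = z := by
        rcases hc.2 with h3 | h3
        · have h4 := congrArg (fun t : VV a b => t.1.2) h3
          simp at h4
        · exact congrArg (fun t : VV a b => t.1.1) h3
      have e3 : q' = z := by
        rcases hc'.2 with h3 | h3
        · have h4 := congrArg (fun t : VV a b => t.1.2) h3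
          simp at h4
        · exact congrArg (fun t : VV a b => t.1.1) h3
      subst e2
      subst e3
      rfl
    · intro x hx
      rw [mem_filter] at hx
      refine ⟨(⟨(x, true), mem_VS_true.2 hx.2⟩, ⟨(z, false), hz⟩), ?_, rfl⟩
      rw [mem_filter]
      refine ⟨?_, Or.inr rfl⟩
      rw [mem_bc_box hab]
      exact ⟨mem_nbA_iff.1 hx.1, hbd'⟩
  · have hbd' := (mem_bd_act hz).1 hbd
    have key : ((nbP z).filter fun q => q ∉ box a b ∧ q ∈ pas a b).card = 2 := by
      obtain ⟨i, j⟩ := z
      exact card_nbP hab hbd'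
    rw [← key]
    refine Finset.card_bij (fun c _ => c.2.1.1) ?_ ?_ ?_
    · intro c hc
      rw [mem_filter] at hc
      obtain ⟨x, q, hx, hq, rfl, h1, h2⟩ := hform c hc.1
      rcases hc.2 with h3 | h3
      · have h4 : x = z := congrArg (fun t : VV a b => t.1.1) h3
        subst h4
        rw [mem_filter]
        exact ⟨h1, h2, mem_VS_false.1 hq⟩
      · have h4 := congrArg (fun t : VV a b => t.1.2) h3
        simp at h4
    · intro c hc c' hc' heq
      rw [mem_filter] at hc hc'
      obtain ⟨x, q, hx, hq, rfl, h1, h2⟩ := hform c hc.1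
      obtain ⟨x', q', hx', hq', rfl, h1', h2'⟩ := hform c' hc'.1
      have e1 : q = q' := heq
      subst e1
      have e2 : x = z := by
        rcases hc.2 with h3 | h3
        · exact congrArg (fun t : VV a b => t.1.1) h3
        · have h4 := congrArg (fun t : VV a b => t.1.2) h3
          simp at h4
      have e3 : x' = z := by
        rcases hc'.2 with h3 | h3
        · exact congrArg (fun t : VV a b => t.1.1) h3
        · have h4 := congrArg (fun t : VV a b => t.1.2) h3
          simp at h4
      subst e2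
      subst e3
      rfl
    · intro q hq
      rw [mem_filter] at hq
      refine ⟨(⟨(z, true), hz⟩, ⟨(q, false), mem_VS_false.2 hq.2.2⟩), ?_, rfl⟩
      rw [mem_filter]
      refine ⟨?_, Or.inl rfl⟩
      rw [mem_bc_box hab]
      exact ⟨hq.1, hq.2.1⟩

theorem deg_int_box {a b : ℤ} (hab : a < b) : ∀ x, x ∉ (BQ a b).bd → (BQ a b).deg x = 4 := by
  rintro ⟨⟨z, c⟩, hz⟩ hbd
  unfold Quad.deg
  cases c
  · rw [mem_bd_pas hz, not_not] at hbd
    obtain ⟨i, j⟩ := z
    rw [P0de.mem_box] at hbd
    simp only at hbd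
    have key : ({((i, j), false), ((i, j), true), ((i, j + 1), false), ((i + 1, j), true)} :
        Finset Ed).card = 4 := by
      rw [card_insert_of_notMem, card_insert_of_notMem, card_insert_of_notMem, card_singleton]
      all_goals simp
    rw [← key]
    refine Finset.card_bij (fun e _ => e.1) ?_ (fun e _ e' _ h => Subtype.ext h) ?_
    · rintro ⟨⟨⟨k, l⟩, d⟩, he⟩ h1
      rw [mem_filter, on_pas] at h1
      obtain ⟨-, h1⟩ := h1
      cases d
      · simp only [pu, pl, dir, Bool.not_false, cond_true, Prod.mk_sub_mk, Prod.mk.injEq,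
          sub_zero] at h1
        simp only [mem_insert, mem_singleton, Prod.mk.injEq, and_true, and_false,
          Bool.false_eq_true, or_false, false_or]
        omega
      · simp only [pu, pl, dir, Bool.not_true, cond_false, Prod.mk_sub_mk, Prod.mk.injEq,
          sub_zero] at h1
        simp only [mem_insert, mem_singleton, Prod.mk.injEq, and_true, and_false,
          Bool.true_eq_false, or_false, false_or]
        omega
    · intro e he
      have hin : e ∈ inner a (b + 1) := by
        simp only [mem_insert, mem_singleton] at he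
        rcases he with rfl | rfl | rfl | rfl
        · exact mem_inner_h.2 (by omega)
        · exact mem_inner_v.2 (by omega)
        · exact mem_inner_h.2 (by omega)
        · exact mem_inner_v.2 (by omega)
      refine ⟨⟨e, hin⟩, ?_, rfl⟩
      rw [mem_filter, on_pas]
      refine ⟨mem_univ _, ?_⟩
      simp only [mem_insert, mem_singleton] at he
      rcases he with rfl | rfl | rfl | rfl <;> simp [pu, pl, dir]
  · rw [mem_bd_act hz] at hbd
    have hz' := mem_VS_true.1 hz
    obtain ⟨i, j⟩ := z
    rw [mem_bdry'] at hbd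
    rw [P0de.mem_box] at hz'
    simp only at hz'
    have key : ({((i, j), false), ((i, j), true), ((i - 1, j), false), ((i, j - 1), true)} :
        Finset Ed).card = 4 := by
      rw [card_insert_of_notMem, card_insert_of_notMem, card_insert_of_notMem, card_singleton]
      all_goals simp
      all_goals omega
    rw [← key]
    refine Finset.card_bij (fun e _ => e.1) ?_ (fun e _ e' _ h => Subtype.ext h) ?_
    · rintro ⟨⟨⟨k, l⟩, d⟩, he⟩ h1
      rw [mem_filter, on_act] at h1
      obtain ⟨-, h1⟩ := h1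
      cases d
      · simp only [src, tgt, dir, cond_false, Prod.mk_add_mk, Prod.mk.injEq, add_zero] at h1
        simp only [mem_insert, mem_singleton, Prod.mk.injEq, and_true, and_false,
          Bool.false_eq_true, or_false, false_or]
        omega
      · simp only [src, tgt, dir, cond_true, Prod.mk_add_mk, Prod.mk.injEq, add_zero] at h1
        simp only [mem_insert, mem_singleton, Prod.mk.injEq, and_true, and_false,
          Bool.true_eq_false, or_false, false_or]
        omega
    · intro e he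
      have hin : e ∈ inner a (b + 1) := by
        simp only [mem_insert, mem_singleton] at he
        rcases he with rfl | rfl | rfl | rfl
        · exact mem_inner_h.2 (by omega)
        · exact mem_inner_v.2 (by omega)
        · exact mem_inner_h.2 (by omega)
        · exact mem_inner_v.2 (by omega)
      refine ⟨⟨e, hin⟩, ?_, rfl⟩
      rw [mem_filter, on_act]
      refine ⟨mem_univ _, ?_⟩
      simp only [mem_insert, mem_singleton] at he
      rcases he with rfl | rfl | rfl | rfl <;> simp [src, tgt, dir]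

end P0q
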