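import Pool.Agent.Lib.P0q.B3Conn

/-!
# B5Count: the Euler identity for the disc of a box

`b = a + N`, `N ≥ 1`. `|V| = |box a (b+1)| + |pas a b| = (N+1)² + (N+2)² - 4` (`P0de.card_box`; the four removed sites are
different elements of `box (a-1) (b+1)`), `|M| = |inner a (b+1)| = 2N(N+1)` (`P0de.card_inner`), and `|bc| = |bd|` (count pairs
(boundary corner, end) with `bc_two_box`, `bc_mem_box`: `2|bc| = 2|bd|`; the two ends of a boundary corner are different), `|bd| = |bdry a b| + |pas a b \ box a b| =
((N+1)² - (N-1)²) + ((N+2)² - 4 - N²) = 4N + 4N`. So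
`2|V| = 4N² + 12N + 2 = 4N(N+1) + 8N + 2`.
(`Fintype.card` of a subtype of a `Finset`: `Fintype.card_coe`.)
-/

set_option autoImplicit false

open Finset P0de

namespace P0q

namespace B5CountAux

theorem card_box' {a b : ℤ} (n : ℕ) (h : b = a + n) : (box a b).card = n * n :=
  DualAux.card_box h

theorem card_inner' {a b : ℤ} (n : ℕ) (h : b = a + n) :
    (inner a (b + 1)).card = 2 * (n * (n + 1)) := DualAux.card_inner h

/-- the number of passive vertices -/
theorem card_pas {a b : ℤ} (n : ℕ) (hn : 0 < n) (h : b = a + n) :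
    (pas a b).card + 4 = (n + 2) * (n + 2) := by
  have h1 : (box (a - 1) (b + 1)).card = (n + 2) * (n + 2) :=
    card_box' (n + 2) (by push_cast; omega)
  have h2 : ({(a - 1, a - 1), (a - 1, b), (b, a - 1), (b, b)} : Finset Site) ⊆
      box (a - 1) (b + 1) := by
    intro x hx
    simp only [mem_insert, mem_singleton] at hx
    rw [P0de.mem_box]
    rcases hx with rfl | rfl | rfl | rfl <;> simp only <;> omega
  have h3 : ({(a - 1, a - 1), (a - 1, b), (b, a - 1), (b, b)} : Finset Site).card = 4 := by
    rw [card_insert_of_notMem, card_insert_of_notMem, card_insert_of_notMem, card_singleton]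
    · simp only [mem_singleton, Prod.mk.injEq]
      omega
    · simp only [mem_insert, mem_singleton, Prod.mk.injEq]
      omega
    · simp only [mem_insert, mem_singleton, Prod.mk.injEq]
      omega
  have h4 := card_sdiff_add_card_eq_card h2
  rw [h3, h1] at h4
  exact h4

/-- the number of passive boundary vertices -/
theorem card_pas_bd {a b : ℤ} (n : ℕ) (hn : 0 < n) (h : b = a + n) :
    (pas a b \ box a b).card = 4 * n := by
  have h1 : box a b ⊆ pas a b := by
    intro x hx
    rw [P0de.mem_box] at hx
    rw [mem_pas]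
    omega
  have h2 := card_sdiff_add_card_eq_card h1
  rw [card_box' n h] at h2
  have h3 := card_pas n hn h
  have h4 : (n + 2) * (n + 2) = n * n + 4 * n + 4 := by ring
  omega

/-- the number of active boundary vertices -/
theorem card_bdry {a b : ℤ} (n : ℕ) (hn : 0 < n) (h : b = a + n) : (bdry a b).card = 4 * n := by
  obtain ⟨m, rfl⟩ : ∃ m, n = m + 1 := ⟨n - 1, by omega⟩
  push_cast at h
  have h1 : box (a + 1) b ⊆ box a (b + 1) := by
    intro x hx
    rw [P0de.mem_box] at hx ⊢
    omega
  have h2 := card_sdiff_add_card_eq_card h1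
  rw [card_box' m (by omega), card_box' (m + 2) (by push_cast; omega)] at h2
  have h4 : (m + 2) * (m + 2) = m * m + 4 * m + 4 := by ring
  rw [bdry]
  omega

theorem card_VV {a b : ℤ} (n : ℕ) (hn : 0 < n) (h : b = a + n) :
    Fintype.card (VV a b) + 4 = (n + 1) * (n + 1) + (n + 2) * (n + 2) := by
  rw [Fintype.card_coe, VS, card_union_of_disjoint, card_product, card_product, card_singleton,
    card_singleton, mul_one, mul_one, add_assoc, card_pas n hn h,
    card_box' (n + 1) (by push_cast; omega)]
  rw [disjoint_left]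
  rintro ⟨x, c⟩ h1 h2
  rw [mem_product, mem_singleton] at h1 h2
  rw [h1.2] at h2
  exact absurd h2.2 (by simp)

theorem card_MM {a b : ℤ} (n : ℕ) (h : b = a + n) :
    Fintype.card (MM a b) = 2 * (n * (n + 1)) := by
  rw [Fintype.card_coe, card_inner' n h]

theorem card_bd {a b : ℤ} (n : ℕ) (hn : 0 < n) (h : b = a + n) : (BQ a b).bd.card = 8 * n := by
  have hab : a < b := by omega
  have h1 : (BQ a b).bd.image (fun z : VV a b => z.1) =
      (bdry a b ×ˢ {true}) ∪ ((pas a b \ box a b) ×ˢ {false}) := by
    ext ⟨x, c⟩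
    rw [mem_image, mem_union, mem_product, mem_product, mem_singleton, mem_singleton]
    cases c
    · constructor
      · rintro ⟨⟨⟨y, d⟩, hz⟩, h1, h2⟩
        simp only [Prod.mk.injEq] at h2
        obtain ⟨rfl, rfl⟩ := h2
        rw [mem_bd_pas] at h1
        rw [mem_VS_false] at hz
        exact Or.inr ⟨mem_sdiff.2 ⟨hz, h1⟩, rfl⟩
      · rintro (h1 | h1)
        · exact absurd h1.2 (by simp)
        · have h2 := mem_sdiff.1 h1.1
          refine ⟨⟨(x, false), mem_VS_false.2 h2.1⟩, ?_, rfl⟩
          rw [mem_bd_pas]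
          exact h2.2
    · constructor
      · rintro ⟨⟨⟨y, d⟩, hz⟩, h1, h2⟩
        simp only [Prod.mk.injEq] at h2
        obtain ⟨rfl, rfl⟩ := h2
        rw [mem_bd_act] at h1
        exact Or.inl ⟨h1, rfl⟩
      · rintro (h1 | h1)
        · have h2 := (mem_sdiff.1 h1.1).1
          refine ⟨⟨(x, true), mem_VS_true.2 h2⟩, ?_, rfl⟩
          rw [mem_bd_act]
          exact h1.1
        · exact absurd h1.2 (by simp)
  rw [← card_image_of_injective _ Subtype.val_injective, h1, card_union_of_disjoint, card_product,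
    card_product, card_singleton, card_singleton, card_bdry n hn h, card_pas_bd n hn h]
  · ring
  · rw [disjoint_left]
    rintro ⟨x, c⟩ h1 h2
    rw [mem_product, mem_singleton] at h1 h2
    rw [h1.2] at h2
    exact absurd h2.2 (by simp)

theorem card_bc {a b : ℤ} (hab : a < b) : (BQ a b).bc.card = (BQ a b).bd.card := by
  have h1 := sum_card_bipartiteAbove_eq_sum_card_bipartiteBelow (s := (BQ a b).bd)
    (t := (BQ a b).bc) (fun z c => c.1 = z ∨ c.2 = z)
  have h2 : ∀ z ∈ (BQ a b).bd,
      (bipartiteAbove (fun (z : VV a b) (c : VV a b × VV a b) => c.1 = z ∨ c.2 = z)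
        (BQ a b).bc z).card = 2 := fun z hz => bc_two_box hab z hz
  have h3 : ∀ c ∈ (BQ a b).bc,
      (bipartiteBelow (fun (z : VV a b) (c : VV a b × VV a b) => c.1 = z ∨ c.2 = z)
        (BQ a b).bd c).card = 2 := by
    intro c hc
    have h4 := bc_mem_box hab c hc
    have h5 : c.1 ≠ c.2 := by
      intro h
      rw [Quad.bc, mem_filter] at hc
      have h6 := hc.2.1
      rw [h, hc.2.2.1] at h6
      exact absurd h6 (by simp)
    have h6 : bipartiteBelow (fun (z : VV a b) (c : VV a b × VV a b) => c.1 = z ∨ c.2 = z)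
        (BQ a b).bd c = {c.1, c.2} := by
      ext z
      rw [bipartiteBelow, mem_filter, mem_insert, mem_singleton]
      constructor
      · rintro ⟨_, h | h⟩
        · exact Or.inl h.symm
        · exact Or.inr h.symm
      · rintro (h | h)
        · rw [h]
          exact ⟨h4.1, Or.inl rfl⟩
        · rw [h]
          exact ⟨h4.2, Or.inr rfl⟩
    rw [h6, card_pair h5]
  rw [sum_congr rfl h2, sum_congr rfl h3, sum_const, sum_const, smul_eq_mul, smul_eq_mul] at h1
  omega

end B5CountAux

open B5CountAux

theorem euler_box {a b : ℤ} (hab : a < b) :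
    2 * Fintype.card (VV a b) = 2 * Fintype.card (MM a b) + (BQ a b).bc.card + 2 := by
  obtain ⟨n, hn⟩ := Int.eq_ofNat_of_zero_le (a := b - a) (by omega)
  have h : b = a + n := by omega
  have hn0 : 0 < n := by omega
  have h1 := card_VV n hn0 h
  rw [card_MM n h, card_bc hab, card_bd n hn0 h]
  have h2 : (n + 1) * (n + 1) + (n + 2) * (n + 2) = 2 * (n * n) + 6 * n + 5 := by ring
  have h3 : n * (n + 1) = n * n + n := by ring
  omega

end P0q
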