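import Pool.Agent.Lib.P0q.B1Pot
import Pool.Agent.Lib.P0q.B5Count

/-!
# B6Disc: the disc of a box satisfies the axioms

`isDisc`: assemble `box_pot`, `conn_box`, `star_box`, `sq_card` (and `sq_comm`), `bc_mem_box`, `bc_two_box`, `deg_int_box`, `euler_box`;
`pr_en` by cases; `en_ne`: `src e ≠ tgt e`, `pu e ≠ pl e`; `bd_ne`: `(a, a)`.

`crn a b : Fin 4 → VV a b`: the four box corners in cyclic order (definition only).
-/

set_option autoImplicit false

open Finset P0de

namespace P0q

theorem isDisc {a b : ℤ} (hab : a < b) : (BQ a b).IsDisc where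
  pr_en e c i := by cases c <;> cases i <;> rfl
  en_ne := by
    rintro ⟨⟨⟨i, j⟩, d⟩, he⟩ c h
    have h' := congrArg Subtype.val h
    cases c <;> cases d <;>
      simp [BQ, src, tgt, pu, pl, dir] at h' <;> omega
  bd_ne := by
    refine ⟨⟨((a, a), true), ?_⟩, ?_⟩
    · rw [mem_VS_true, P0de.mem_box]
      omega
    · rw [BQ, mem_filter]
      refine ⟨mem_univ _, Or.inl ⟨rfl, ?_⟩⟩
      show ((a, a) : Site) ∈ bdry a b
      unfold bdry
      rw [mem_sdiff, P0de.mem_box, P0de.mem_box]
      simp only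
      omega
  pot := box_pot hab
  conn := conn_box hab
  star := star_box hab
  sq_le := by
    rintro ⟨⟨x, c⟩, hx⟩ ⟨⟨y, d⟩, hy⟩ h
    cases c <;> cases d
    · exact absurd rfl h
    · rw [sq_comm, sq_card hab]
      split_ifs <;> omega
    · rw [sq_card hab]
      split_ifs <;> omega
    · exact absurd rfl h
  bc_mem := bc_mem_box hab
  bc_two := bc_two_box hab
  deg_int := deg_int_box hab
  euler := euler_box hab

theorem corner_mem {a b : ℤ} (hab : a < b) : ((a, a), true) ∈ VS a b ∧ ((b, a), true) ∈ VS a b ∧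
    ((b, b), true) ∈ VS a b ∧ ((a, b), true) ∈ VS a b := by
  simp only [mem_VS_true, P0de.mem_box]
  omega

/-- the four corners of the box -/
def crn (a b : ℤ) (hab : a < b) : Fin 4 → VV a b :=
  ![⟨((a, a), true), (corner_mem hab).1⟩, ⟨((b, a), true), (corner_mem hab).2.1⟩,
    ⟨((b, b), true), (corner_mem hab).2.2.1⟩, ⟨((a, b), true), (corner_mem hab).2.2.2⟩]

end P0q
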