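import Pool.Agent.Lib.P0q.K4Turn

/-!
# K5Arc: turning numbers of arcs (second half of Lemma 3 (ii) of Q4_proof.md)

Both sides of the corner `{x, y}` meet the boundary, `S = side ω x y`. The degrees of the boundary vertices are
`3 - #{i | c i = z}` for active and `1` for passive ones (`c : Fin 4 → V` the four box corners, injective).
Then `NS ω S = 3 - J` if `x` is active and `1 - J` if `x` is passive, `J = #{i | c i ∈ S}`.

Proof. Let `p`, `g` be the numbers of active and passive vertices in `S ∩ bd`, `k` the number of boundary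
corners with both ends in `S`. The two crossing boundary corners (`side_arc`: `|bX S| = 2`) join `cl x` to `cl y`
(`side_cross`), so their end in `S` has the label of `x`. Count pairs (boundary corner, end in `S`) by the label of the end,
using `bc_two`: if `x` is active: `2p = k + 2`, `2g = k`; if `x` is passive: `2p = k`, `2g = k + 2`.
`|bT S| = k + 2`. `rel_euler`: `2|S| = 2|M_S| + k + 2`.
`NS = ∑_{S} deg - 4|M_S| = 4|S| - (∑_{z ∈ S ∩ bd} (4 - deg z)) - 4|M_S| = 2(k+2) - (p + J) - 3g`
(`4 - deg z = 1 + #{i | c i = z}` for active `z ∈ bd`, `3` for passive ones; the `c i` are active boundary vertices).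
Active `x`: `k = 2g`, `p = g + 1`: `4g + 4 - g - 1 - J - 3g = 3 - J`. Passive: `k = 2p`, `g = p + 1`:
`4p + 4 - p - J - 3p - 3 = 1 - J`.
-/

set_option autoImplicit false

open Finset P0de

namespace P0q

variable {V M : Type} [Fintype V] [DecidableEq V] [Fintype M] [DecidableEq M] (Q : Quad V M)

namespace Quad

/-- boundary degrees of a box with corners `c 0, ..., c 3` -/
structure BdDeg (c : Fin 4 → V) : Prop where
  inj : Function.Injective c
  mem : ∀ i, c i ∈ Q.bd ∧ Q.pr (c i) = true
  deg_act : ∀ z ∈ Q.bd, Q.pr z = true → Q.deg z + (univ.filter fun i => c i = z).card = 3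
  deg_pas : ∀ z ∈ Q.bd, Q.pr z = false → Q.deg z = 1

/-- number of box corners in `S` -/
def Jc (c : Fin 4 → V) (S : Finset V) : ℕ := (univ.filter fun i => c i ∈ S).card

namespace K5ArcAux

/-- active boundary vertices in `S` -/
def PA (S : Finset V) : Finset V := S.filter fun z => z ∈ Q.bd ∧ Q.pr z = true

/-- passive boundary vertices in `S` -/
def PP (S : Finset V) : Finset V := S.filter fun z => z ∈ Q.bd ∧ Q.pr z = false

theorem bc_pr {c : V × V} (hc : c ∈ Q.bc) : Q.pr c.1 = true ∧ Q.pr c.2 = false := by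
  simp only [bc, mem_filter, mem_univ, true_and] at hc
  exact ⟨hc.1, hc.2.1⟩

theorem count_act (hQ : Q.IsDisc) (S : Finset V) :
    (Q.bc.filter fun c => c.1 ∈ S).card = 2 * (PA Q S).card := by
  have hm : ∀ c ∈ Q.bc.filter fun c => c.1 ∈ S, c.1 ∈ PA Q S := by
    intro c hc
    rw [mem_filter] at hc
    rw [PA, mem_filter]
    exact ⟨hc.2, (hQ.bc_mem c hc.1).1, (bc_pr Q hc.1).1⟩
  rw [Finset.card_eq_sum_card_fiberwise hm]
  have h2 : ∀ z ∈ PA Q S, ((Q.bc.filter fun c => c.1 ∈ S).filter fun c => c.1 = z).card = 2 := by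
    intro z hz
    rw [PA, mem_filter] at hz
    rw [← hQ.bc_two z hz.2.1]
    congr 1
    ext c
    simp only [mem_filter]
    constructor
    · rintro ⟨⟨h1, _⟩, h3⟩
      exact ⟨h1, Or.inl h3⟩
    · rintro ⟨h1, h3 | h3⟩
      · exact ⟨⟨h1, h3 ▸ hz.1⟩, h3⟩
      · exfalso
        have h4 := (bc_pr Q h1).2
        rw [h3, hz.2.2] at h4
        exact Bool.noConfusion h4
  rw [Finset.sum_congr rfl h2, Finset.sum_const, smul_eq_mul, mul_comm]

theorem count_pas (hQ : Q.IsDisc) (S : Finset V) :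
    (Q.bc.filter fun c => c.2 ∈ S).card = 2 * (PP Q S).card := by
  have hm : ∀ c ∈ Q.bc.filter fun c => c.2 ∈ S, c.2 ∈ PP Q S := by
    intro c hc
    rw [mem_filter] at hc
    rw [PP, mem_filter]
    exact ⟨hc.2, (hQ.bc_mem c hc.1).2, (bc_pr Q hc.1).2⟩
  rw [Finset.card_eq_sum_card_fiberwise hm]
  have h2 : ∀ z ∈ PP Q S, ((Q.bc.filter fun c => c.2 ∈ S).filter fun c => c.2 = z).card = 2 := by
    intro z hz
    rw [PP, mem_filter] at hz
    rw [← hQ.bc_two z hz.2.1]
    congr 1
    ext c
    simp only [mem_filter]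
    constructor
    · rintro ⟨⟨h1, _⟩, h3⟩
      exact ⟨h1, Or.inr h3⟩
    · rintro ⟨h1, h3 | h3⟩
      · exfalso
        have h4 := (bc_pr Q h1).1
        rw [h3, hz.2.2] at h4
        exact Bool.noConfusion h4
      · exact ⟨⟨h1, h3 ▸ hz.1⟩, h3⟩
  rw [Finset.sum_congr rfl h2, Finset.sum_const, smul_eq_mul, mul_comm]

/-- both ends in `S` -/
def bB (S : Finset V) : Finset (V × V) := Q.bc.filter fun c => c.1 ∈ S ∧ c.2 ∈ S

theorem bT_card (S : Finset V) : (Q.bT S).card = (bB Q S).card + (Q.bX S).card := by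
  rw [← Finset.card_union_of_disjoint]
  · congr 1
    ext c
    simp only [bT, bB, bX, mem_filter, mem_union]
    tauto
  · rw [Finset.disjoint_left]
    intro c h1 h2
    simp only [bB, bX, mem_filter] at h1 h2
    tauto

theorem card_fst (S : Finset V) (hx : ∀ c ∈ Q.bX S, c.1 ∈ S) :
    (Q.bc.filter fun c => c.1 ∈ S).card = (bB Q S).card + (Q.bX S).card ∧
    (Q.bc.filter fun c => c.2 ∈ S).card = (bB Q S).card := by
  constructor
  · rw [← Finset.card_union_of_disjoint]
    · congr 1
      ext c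
      simp only [bB, mem_filter, mem_union]
      constructor
      · rintro ⟨h1, h2⟩
        by_cases h3 : c.2 ∈ S
        · exact Or.inl ⟨h1, h2, h3⟩
        · refine Or.inr ?_
          simp only [bX, mem_filter]
          exact ⟨h1, by tauto⟩
      · rintro (h1 | h1)
        · exact ⟨h1.1, h1.2.1⟩
        · refine ⟨?_, hx c h1⟩
          simp only [bX, mem_filter] at h1
          exact h1.1
    · rw [Finset.disjoint_left]
      intro c h1 h2
      simp only [bB, bX, mem_filter] at h1 h2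
      tauto
  · congr 1
    ext c
    simp only [bB, mem_filter]
    constructor
    · rintro ⟨h1, h2⟩
      refine ⟨h1, ?_, h2⟩
      by_contra h3
      apply h3
      apply hx c
      simp only [bX, mem_filter]
      exact ⟨h1, by tauto⟩
    · rintro ⟨h1, h2, h3⟩
      exact ⟨h1, h3⟩

theorem card_snd (S : Finset V) (hx : ∀ c ∈ Q.bX S, c.2 ∈ S) :
    (Q.bc.filter fun c => c.2 ∈ S).card = (bB Q S).card + (Q.bX S).card ∧
    (Q.bc.filter fun c => c.1 ∈ S).card = (bB Q S).card := by
  constructor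
  · rw [← Finset.card_union_of_disjoint]
    · congr 1
      ext c
      simp only [bB, mem_filter, mem_union]
      constructor
      · rintro ⟨h1, h2⟩
        by_cases h3 : c.1 ∈ S
        · exact Or.inl ⟨h1, h3, h2⟩
        · refine Or.inr ?_
          simp only [bX, mem_filter]
          exact ⟨h1, by tauto⟩
      · rintro (h1 | h1)
        · exact ⟨h1.1, h1.2.2⟩
        · refine ⟨?_, hx c h1⟩
          simp only [bX, mem_filter] at h1
          exact h1.1
    · rw [Finset.disjoint_left]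
      intro c h1 h2
      simp only [bB, bX, mem_filter] at h1 h2
      tauto
  · congr 1
    ext c
    simp only [bB, mem_filter]
    constructor
    · rintro ⟨h1, h2⟩
      refine ⟨h1, h2, ?_⟩
      by_contra h3
      apply h3
      apply hx c
      simp only [bX, mem_filter]
      exact ⟨h1, by tauto⟩
    · rintro ⟨h1, h2, h3⟩
      exact ⟨h1, h2⟩

theorem Jc_eq (c : Fin 4 → V) (hc : Q.BdDeg c) (S : Finset V) :
    Quad.Jc c S = ∑ z ∈ PA Q S, (univ.filter fun i => c i = z).card := by
  have hm : ∀ i ∈ univ.filter fun i => c i ∈ S, c i ∈ PA Q S := by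
    intro i hi
    rw [mem_filter] at hi
    rw [PA, mem_filter]
    exact ⟨hi.2, hc.mem i⟩
  rw [Jc, Finset.card_eq_sum_card_fiberwise hm]
  refine Finset.sum_congr rfl fun z hz => ?_
  rw [PA, mem_filter] at hz
  congr 1
  ext i
  simp only [mem_filter, mem_univ, true_and]
  constructor
  · rintro ⟨_, h⟩; exact h
  · intro h; exact ⟨h ▸ hz.1, h⟩

theorem sum_deg_S (hQ : Q.IsDisc) (c : Fin 4 → V) (hc : Q.BdDeg c) (S : Finset V) :
    ∑ z ∈ S, Q.deg z + (PA Q S).card + Quad.Jc c S + 3 * (PP Q S).card = 4 * S.card := by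
  have hsplit : ∀ f : V → ℕ, ∑ z ∈ S, f z = ∑ z ∈ S.filter (fun z => z ∉ Q.bd), f z +
      ∑ z ∈ PA Q S, f z + ∑ z ∈ PP Q S, f z := by
    intro f
    rw [← Finset.sum_filter_not_add_sum_filter S (fun z => z ∈ Q.bd) f, add_assoc]
    congr 1
    rw [← Finset.sum_filter_add_sum_filter_not (S.filter fun z => z ∈ Q.bd) (fun z => Q.pr z = true)
      f, Finset.filter_filter, Finset.filter_filter]
    congr 1
    refine Finset.sum_congr ?_ fun _ _ => rfl
    ext z
    simp [PP]
  have h1 : ∑ z ∈ S.filter (fun z => z ∉ Q.bd), Q.deg z = 4 * (S.filter (fun z => z ∉ Q.bd)).card := by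
    rw [Finset.sum_congr rfl (g := fun _ => 4) fun z hz => hQ.deg_int z (mem_filter.mp hz).2,
      Finset.sum_const, smul_eq_mul, mul_comm]
  have h2 : ∑ z ∈ PA Q S, Q.deg z + Quad.Jc c S = 3 * (PA Q S).card := by
    rw [Jc_eq Q c hc, ← Finset.sum_add_distrib,
      Finset.sum_congr rfl (g := fun _ => 3) fun z hz => ?_, Finset.sum_const, smul_eq_mul, mul_comm]
    rw [PA, mem_filter] at hz
    exact hc.deg_act z hz.2.1 hz.2.2
  have h3 : ∑ z ∈ PP Q S, Q.deg z = (PP Q S).card := by
    rw [Finset.sum_congr rfl (g := fun _ => 1) fun z hz => ?_, Finset.sum_const, smul_eq_mul,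
      mul_one]
    rw [PP, mem_filter] at hz
    exact hc.deg_pas z hz.2.1 hz.2.2
  have h4 : S.card = (S.filter (fun z => z ∉ Q.bd)).card + (PA Q S).card + (PP Q S).card := by
    have := hsplit fun _ => 1
    simpa using this
  have h5 := hsplit Q.deg
  omega

end K5ArcAux

theorem NS_arc (hQ : Q.IsDisc) (c : Fin 4 → V) (hc : Q.BdDeg c) (ω : M → Bool) {x y : V}
    (h : Q.cor x y) (h1 : Q.Tb (Q.side ω x y)) (h2 : Q.Tb (Q.side ω y x)) :
    Q.NS ω (Q.side ω x y) = (if Q.pr x = true then 3 else 1) - (Quad.Jc c (Q.side ω x y) : ℤ) := by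
  have hU := side_UC Q hQ ω h
  have hC1 := side_CS Q hQ ω h
  have hC2 := side_CS Q hQ ω (cor_symm Q h)
  rw [side_compl Q hQ ω h] at hC2
  have hne : ((Q.side ω x y)ᶜ).Nonempty := by
    rw [← side_compl Q hQ ω h]
    exact ⟨y, mem_side_self Q ω y x⟩
  have hE := rel_euler Q hQ ω (Q.side ω x y) hU hC1 hC2 h1 hne
  have hX := (side_arc Q hQ ω h h1 h2).1
  have hcr : ∀ c ∈ Q.bX (Q.side ω x y), (c.1 ∈ Q.side ω x y → Q.pr x = true) ∧
      (c.2 ∈ Q.side ω x y → Q.pr x = false) := by
    intro c hc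
    simp only [bX, mem_filter] at hc
    have hcor := bc_cor Q hc.1
    have hpr := K5ArcAux.bc_pr Q hc.1
    constructor
    · intro h3
      have h4 : c.2 ∉ Q.side ω x y := by tauto
      rw [Con_pr Q hQ ω (side_cross Q hQ ω h hcor h3 h4).1]
      exact hpr.1
    · intro h3
      have h4 : c.1 ∉ Q.side ω x y := by tauto
      rw [Con_pr Q hQ ω (side_cross Q hQ ω h (cor_symm Q hcor) h3 h4).1]
      exact hpr.2
  have hT := K5ArcAux.bT_card Q (Q.side ω x y)
  have hA := K5ArcAux.count_act Q hQ (Q.side ω x y)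
  have hP := K5ArcAux.count_pas Q hQ (Q.side ω x y)
  have hD := K5ArcAux.sum_deg_S Q hQ c hc (Q.side ω x y)
  unfold NS
  have hD' : (∑ z ∈ Q.side ω x y, (Q.deg z : ℤ)) = ((∑ z ∈ Q.side ω x y, Q.deg z : ℕ) : ℤ) := by
    push_cast; rfl
  rw [hD']
  by_cases hpr : Q.pr x = true
  · rw [if_pos hpr]
    have hx : ∀ c ∈ Q.bX (Q.side ω x y), c.1 ∈ Q.side ω x y := by
      intro c hc
      by_contra h3
      have h4 : c.2 ∈ Q.side ω x y := by
        simp only [bX, mem_filter] at hc
        tauto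
      have h5 := (hcr c hc).2 h4
      rw [hpr] at h5
      exact Bool.noConfusion h5
    obtain ⟨h3, h4⟩ := K5ArcAux.card_fst Q (Q.side ω x y) hx
    omega
  · rw [if_neg hpr]
    have hx : ∀ c ∈ Q.bX (Q.side ω x y), c.2 ∈ Q.side ω x y := by
      intro c hc
      by_contra h3
      have h4 : c.1 ∈ Q.side ω x y := by
        simp only [bX, mem_filter] at hc
        tauto
      exact hpr ((hcr c hc).1 h4)
    obtain ⟨h3, h4⟩ := K5ArcAux.card_snd Q (Q.side ω x y) hx
    omega

end Quad

end P0q
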