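import Pool.Agent.Lib.P0q.B6Disc
import Pool.Agent.Lib.P0q.K5Arc

/-!
# B7Alt: the box corners

`crn a b : Fin 4 → VV a b`: the four box corners in cyclic order. `bdDeg`: injective since `a < b`; the degree of an active boundary
vertex `x` is the number of edges of the box at `x`: `2` for box corners, `3` for the others; of an outer face: `1`.

`no_alt`: let `S` be a set of vertices with at most 3 crossing boundary corners (`bX S`). If `c 0, c 2 ∈ S` and `c 1, c 3 ∉ S` (or
conversely) then every one of the four sides of the box contains a crossing boundary corner: bottom side: the vertices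
`(a,a), (a,a-1)*, (a+1,a), (a+1,a-1)*, ..., (b,a)` (`*`: passive), consecutive ones form boundary corners (`mem_bc_box`); if none is crossing
then by induction `c 0 ∈ S ↔ c 1 ∈ S`. The boundary corners of the bottom, right, top, left side are those whose passive end
`q` has `q.2 = a - 1`, `q.1 = b`, `q.2 = b`, `q.1 = a - 1`; for `q ∈ pas a b` these are disjoint conditions, so there are four different
elements of `bX S`.
-/

set_option autoImplicit false

open Finset P0de

namespace P0q

namespace B7AltAux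

theorem on_act {a b : ℤ} (e : MM a b) {x : Site} (hx : (x, true) ∈ VS a b) :
    (BQ a b).on e ⟨(x, true), hx⟩ ↔ src e.1 = x ∨ tgt e.1 = x := by
  constructor
  · rintro ⟨c, i, h⟩
    cases c <;> cases i
    · have h1 := congrArg (fun z : VV a b => z.1.2) h
      exact Bool.noConfusion (show (false : Bool) = true from h1)
    · have h1 := congrArg (fun z : VV a b => z.1.2) h
      exact Bool.noConfusion (show (false : Bool) = true from h1)
    · exact Or.inl (congrArg (fun z : VV a b => z.1.1) h)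
    · exact Or.inr (congrArg (fun z : VV a b => z.1.1) h)
  · rintro (h | h)
    · refine ⟨true, false, ?_⟩
      subst h
      rfl
    · refine ⟨true, true, ?_⟩
      subst h
      rfl

theorem on_pas {a b : ℤ} (e : MM a b) {q : Site} (hq : (q, false) ∈ VS a b) :
    (BQ a b).on e ⟨(q, false), hq⟩ ↔ pu e.1 = q ∨ pl e.1 = q := by
  constructor
  · rintro ⟨c, i, h⟩
    cases c <;> cases i
    · exact Or.inl (congrArg (fun z : VV a b => z.1.1) h)
    · exact Or.inr (congrArg (fun z : VV a b => z.1.1) h)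
    · have h1 := congrArg (fun z : VV a b => z.1.2) h
      exact Bool.noConfusion (show (true : Bool) = false from h1)
    · have h1 := congrArg (fun z : VV a b => z.1.2) h
      exact Bool.noConfusion (show (true : Bool) = false from h1)
  · rintro (h | h)
    · refine ⟨false, false, ?_⟩
      subst h
      rfl
    · refine ⟨false, true, ?_⟩
      subst h
      rfl

theorem deg_eq {a b : ℤ} (z : VV a b) (F : Finset Ed)
    (h : ∀ e : MM a b, (BQ a b).on e z ↔ e.1 ∈ F) :
    (BQ a b).deg z = ∑ e ∈ F, if e ∈ inner a (b + 1) then 1 else 0 := by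
  classical
  unfold Quad.deg
  rw [← card_filter, ← card_map (Function.Embedding.subtype _)]
  congr 1
  ext e
  simp only [mem_map, mem_filter, mem_univ, true_and, Function.Embedding.coe_subtype, h]
  constructor
  · rintro ⟨e', h1, rfl⟩
    exact ⟨h1, e'.2⟩
  · rintro ⟨h1, h2⟩
    exact ⟨⟨e, h2⟩, h1, rfl⟩

theorem deg_act {a b : ℤ} {x : Site} (hx : (x, true) ∈ VS a b) :
    (BQ a b).deg ⟨(x, true), hx⟩ = (if x.1 < b then 1 else 0) + (if x.2 < b then 1 else 0) +
      (if a < x.1 then 1 else 0) + (if a < x.2 then 1 else 0) := by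
  obtain ⟨i, j⟩ := x
  rw [deg_eq _ {((i, j), false), ((i, j), true), ((i - 1, j), false), ((i, j - 1), true)}]
  · have hb := mem_VS_true.1 hx
    rw [P0de.mem_box] at hb
    simp only at hb
    rw [sum_insert, sum_insert, sum_insert, sum_singleton]
    · have e1 : (((i, j), false) : Ed) ∈ inner a (b + 1) ↔ i < b := by
        simp only [P0de.mem_inner, P0de.mem_box, src, tgt, dir, cond_false, Prod.mk_add_mk]
        omega
      have e2 : (((i, j), true) : Ed) ∈ inner a (b + 1) ↔ j < b := by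
        simp only [P0de.mem_inner, P0de.mem_box, src, tgt, dir, cond_true, Prod.mk_add_mk]
        omega
      have e3 : (((i - 1, j), false) : Ed) ∈ inner a (b + 1) ↔ a < i := by
        simp only [P0de.mem_inner, P0de.mem_box, src, tgt, dir, cond_false, Prod.mk_add_mk]
        omega
      have e4 : (((i, j - 1), true) : Ed) ∈ inner a (b + 1) ↔ a < j := by
        simp only [P0de.mem_inner, P0de.mem_box, src, tgt, dir, cond_true, Prod.mk_add_mk]
        omega
      simp only [e1, e2, e3, e4, add_assoc]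
    · simp
    · simp; omega
    · simp; omega
  · intro e
    rw [on_act]
    obtain ⟨⟨⟨k, l⟩, c⟩, he⟩ := e
    cases c
    · simp only [src, tgt, dir, cond_false, Prod.mk_add_mk, mem_insert, mem_singleton,
        Prod.mk.injEq, reduceCtorEq, and_false, and_true, or_false, false_or]
      omega
    · simp only [src, tgt, dir, cond_true, Prod.mk_add_mk, mem_insert, mem_singleton,
        Prod.mk.injEq, reduceCtorEq, and_false, and_true, false_or]
      omega

theorem deg_pas {a b : ℤ} {q : Site} (hq : (q, false) ∈ VS a b) (hb : q ∉ box a b) :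
    (BQ a b).deg ⟨(q, false), hq⟩ = 1 := by
  obtain ⟨i, j⟩ := q
  rw [deg_eq _ {((i, j), false), ((i, j), true), ((i, j + 1), false), ((i + 1, j), true)}]
  · have hp := mem_VS_false.1 hq
    rw [mem_pas] at hp
    rw [P0de.mem_box] at hb
    simp only at hb hp
    rw [sum_insert, sum_insert, sum_insert, sum_singleton]
    · have e1 : (((i, j), false) : Ed) ∈ inner a (b + 1) ↔ a ≤ i ∧ i < b ∧ a ≤ j ∧ j ≤ b := by
        simp only [P0de.mem_inner, P0de.mem_box, src, tgt, dir, cond_false, Prod.mk_add_mk]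
        omega
      have e2 : (((i, j), true) : Ed) ∈ inner a (b + 1) ↔ a ≤ i ∧ i ≤ b ∧ a ≤ j ∧ j < b := by
        simp only [P0de.mem_inner, P0de.mem_box, src, tgt, dir, cond_true, Prod.mk_add_mk]
        omega
      have e3 : (((i, j + 1), false) : Ed) ∈ inner a (b + 1) ↔
          a ≤ i ∧ i < b ∧ a ≤ j + 1 ∧ j + 1 ≤ b := by
        simp only [P0de.mem_inner, P0de.mem_box, src, tgt, dir, cond_false, Prod.mk_add_mk]
        omega
      have e4 : (((i + 1, j), true) : Ed) ∈ inner a (b + 1) ↔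
          a ≤ i + 1 ∧ i + 1 ≤ b ∧ a ≤ j ∧ j < b := by
        simp only [P0de.mem_inner, P0de.mem_box, src, tgt, dir, cond_true, Prod.mk_add_mk]
        omega
      simp only [e1, e2, e3, e4]
      have hc : (j = a - 1 ∧ a ≤ i ∧ i < b) ∨ (j = b ∧ a ≤ i ∧ i < b) ∨
          (i = a - 1 ∧ a ≤ j ∧ j < b) ∨ (i = b ∧ a ≤ j ∧ j < b) := by omega
      clear hp hb
      rcases hc with ⟨h1, h2, h3⟩ | ⟨h1, h2, h3⟩ | ⟨h1, h2, h3⟩ | ⟨h1, h2, h3⟩
      · rw [if_neg (by omega), if_neg (by omega), if_pos (by omega), if_neg (by omega)]; omega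
      · rw [if_pos (by omega), if_neg (by omega), if_neg (by omega), if_neg (by omega)]; omega
      · rw [if_neg (by omega), if_neg (by omega), if_neg (by omega), if_pos (by omega)]; omega
      · rw [if_neg (by omega), if_pos (by omega), if_neg (by omega), if_neg (by omega)]; omega
    · simp
    · simp
    · simp
  · intro e
    rw [on_pas]
    obtain ⟨⟨⟨k, l⟩, c⟩, he⟩ := e
    cases c
    · simp only [pu, pl, dir, Bool.not_false, cond_true, Prod.mk_sub_mk, mem_insert,
        mem_singleton, Prod.mk.injEq, reduceCtorEq, and_false, and_true, or_false, false_or]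
      omega
    · simp only [pu, pl, dir, Bool.not_true, cond_false, Prod.mk_sub_mk, mem_insert,
        mem_singleton, Prod.mk.injEq, reduceCtorEq, and_false, and_true, false_or]
      omega

theorem cnt' {A B C D : Prop} [Decidable A] [Decidable B] [Decidable C] [Decidable D]
    (B1 : ¬ (A ∧ B)) (B2 : ¬ (C ∧ D)) (h' : A ∨ B ∨ C ∨ D) :
    (if ¬ B then 1 else 0) + (if ¬ D then 1 else 0) + (if ¬ A then 1 else 0) +
      (if ¬ C then 1 else 0) + ((if A ∧ C then 1 else 0) +
      (if B ∧ C then 1 else 0) + (if B ∧ D then 1 else 0) +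
      (if A ∧ D then 1 else 0)) = 3 := by
  by_cases hA : A <;> by_cases hB : B <;> by_cases hC : C <;> by_cases hD : D <;>
    simp [hA, hB, hC, hD] at B1 B2 h' ⊢

theorem cnt {a b i j : ℤ} (hab : a < b) (hi : a ≤ i ∧ i ≤ b) (hj : a ≤ j ∧ j ≤ b)
    (h : i = a ∨ i = b ∨ j = a ∨ j = b) :
    (if i < b then 1 else 0) + (if j < b then 1 else 0) + (if a < i then 1 else 0) +
      (if a < j then 1 else 0) + ((if a = i ∧ a = j then 1 else 0) +
      (if b = i ∧ a = j then 1 else 0) + (if b = i ∧ b = j then 1 else 0) +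
      (if a = i ∧ b = j then 1 else 0)) = 3 := by
  have A1 : (i < b) ↔ ¬ (b = i) := by omega
  have A2 : (j < b) ↔ ¬ (b = j) := by omega
  have A3 : (a < i) ↔ ¬ (a = i) := by omega
  have A4 : (a < j) ↔ ¬ (a = j) := by omega
  have h' : a = i ∨ b = i ∨ a = j ∨ b = j := by omega
  have B1 : ¬ (a = i ∧ b = i) := by omega
  have B2 : ¬ (a = j ∧ b = j) := by omega
  rw [if_congr A1 rfl rfl, if_congr A2 rfl rfl, if_congr A3 rfl rfl, if_congr A4 rfl rfl]
  clear A1 A2 A3 A4 h hi hj hab
  exact cnt' B1 B2 h'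

/-- membership of a site with a label -/
def inS {a b : ℤ} (S : Finset (VV a b)) (z : Site × Bool) : Prop := ∃ h, (⟨z, h⟩ : VV a b) ∈ S

theorem inS_iff {a b : ℤ} (S : Finset (VV a b)) {z : Site × Bool} (h : z ∈ VS a b) :
    inS S z ↔ (⟨z, h⟩ : VV a b) ∈ S :=
  ⟨fun ⟨_, h2⟩ => h2, fun h2 => ⟨h, h2⟩⟩

/-- a crossing boundary corner -/
theorem cross {a b : ℤ} (hab : a < b) (S : Finset (VV a b)) {x q : Site}
    (hx : x ∈ box a (b + 1)) (hq : q ∈ pas a b) (hn : q ∈ nbP x) (hb : q ∉ box a b)
    (h : ¬ (inS S (x, true) ↔ inS S (q, false))) :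
    ∃ c ∈ (BQ a b).bX S, c.2.1.1 = q := by
  have hx' := mem_VS_true.2 hx
  have hq' := mem_VS_false.2 hq
  refine ⟨(⟨(x, true), hx'⟩, ⟨(q, false), hq'⟩), ?_, rfl⟩
  unfold Quad.bX
  rw [mem_filter]
  refine ⟨(mem_bc_box hab hx' hq').2 ⟨hn, hb⟩, ?_⟩
  rw [inS_iff S hx', inS_iff S hq'] at h
  exact h

theorem step {a b : ℤ} (P : ℤ → Prop) (hab : a ≤ b) (h : ¬ (P a ↔ P b)) :
    ∃ i, a ≤ i ∧ i < b ∧ ¬ (P i ↔ P (i + 1)) := by
  by_contra hc
  push Not at hc
  apply h
  have key : ∀ n : ℕ, a + n ≤ b → (P a ↔ P (a + n)) := by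
    intro n
    induction n with
    | zero => intro _; simp
    | succ n ih =>
      intro hn
      push_cast at hn ⊢
      rw [ih (by omega), ← add_assoc]
      exact hc (a + n) (by omega) (by omega)
  have h2 := key (b - a).toNat (by omega)
  rwa [show a + ((b - a).toNat : ℤ) = b by omega] at h2

/-- a side of the box -/
theorem side_step {a b : ℤ} (hab : a < b) (S : Finset (VV a b)) (f g : ℤ → Site)
    (hf : ∀ i, a ≤ i → i ≤ b → f i ∈ box a (b + 1)) (hg : ∀ i, a ≤ i → i < b → g i ∈ pas a b)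
    (hg' : ∀ i, a ≤ i → i < b → g i ∉ box a b)
    (h1 : ∀ i, g i ∈ nbP (f i)) (h2 : ∀ i, g i ∈ nbP (f (i + 1)))
    (h : ¬ (inS S (f a, true) ↔ inS S (f b, true))) :
    ∃ i, a ≤ i ∧ i < b ∧ ∃ c ∈ (BQ a b).bX S, c.2.1.1 = g i := by
  obtain ⟨i, hi1, hi2, hi3⟩ := step (fun i => inS S (f i, true)) hab.le h
  refine ⟨i, hi1, hi2, ?_⟩
  by_cases h4 : inS S (f i, true) ↔ inS S (g i, false)
  · have h5 : ¬ (inS S (f (i + 1), true) ↔ inS S (g i, false)) := by
      intro h5
      exact hi3 (h4.trans h5.symm)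
    exact cross hab S (hf _ (by omega) (by omega)) (hg i hi1 hi2) (h2 i) (hg' i hi1 hi2) h5
  · exact cross hab S (hf _ hi1 (by omega)) (hg i hi1 hi2) (h1 i) (hg' i hi1 hi2) h4

theorem four {a b : ℤ} (hab : a < b) (S : Finset (VV a b))
    (h01 : ¬ (inS S ((a, a), true) ↔ inS S ((b, a), true)))
    (h12 : ¬ (inS S ((b, a), true) ↔ inS S ((b, b), true)))
    (h32 : ¬ (inS S ((a, b), true) ↔ inS S ((b, b), true)))
    (h03 : ¬ (inS S ((a, a), true) ↔ inS S ((a, b), true))) : 4 ≤ ((BQ a b).bX S).card := by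
  classical
  obtain ⟨i1, a1, b1, c1, m1, q1⟩ := side_step hab S (fun i => (i, a)) (fun i => (i, a - 1))
    (by intro i h1 h2; simp only [P0de.mem_box]; omega)
    (by intro i h1 h2; simp only [mem_pas]; omega)
    (by intro i h1 h2; simp only [P0de.mem_box]; omega)
    (by intro i; simp [nbP]) (by intro i; simp [nbP]) h01
  obtain ⟨i2, a2, b2, c2, m2, q2⟩ := side_step hab S (fun i => (b, i)) (fun i => (b, i))
    (by intro i h1 h2; simp only [P0de.mem_box]; omega)
    (by intro i h1 h2; simp only [mem_pas]; omega)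
    (by intro i h1 h2; simp only [P0de.mem_box]; omega)
    (by intro i; simp [nbP]) (by intro i; simp [nbP]) h12
  obtain ⟨i3, a3, b3, c3, m3, q3⟩ := side_step hab S (fun i => (i, b)) (fun i => (i, b))
    (by intro i h1 h2; simp only [P0de.mem_box]; omega)
    (by intro i h1 h2; simp only [mem_pas]; omega)
    (by intro i h1 h2; simp only [P0de.mem_box]; omega)
    (by intro i; simp [nbP]) (by intro i; simp [nbP]) h32
  obtain ⟨i4, a4, b4, c4, m4, q4⟩ := side_step hab S (fun i => (a, i)) (fun i => (a - 1, i))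
    (by intro i h1 h2; simp only [P0de.mem_box]; omega)
    (by intro i h1 h2; simp only [mem_pas]; omega)
    (by intro i h1 h2; simp only [P0de.mem_box]; omega)
    (by intro i; simp [nbP]) (by intro i; simp [nbP]) h03
  have hsub : ({(i1, a - 1), (b, i2), (i3, b), (a - 1, i4)} : Finset Site) ⊆
      ((BQ a b).bX S).image fun c => c.2.1.1 := by
    intro q hq
    simp only [mem_insert, mem_singleton] at hq
    rw [mem_image]
    rcases hq with h | h | h | h
    · exact ⟨c1, m1, by rw [q1, h]⟩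
    · exact ⟨c2, m2, by rw [q2, h]⟩
    · exact ⟨c3, m3, by rw [q3, h]⟩
    · exact ⟨c4, m4, by rw [q4, h]⟩
  have h4 : ({(i1, a - 1), (b, i2), (i3, b), (a - 1, i4)} : Finset Site).card = 4 := by
    rw [card_insert_of_notMem, card_insert_of_notMem, card_insert_of_notMem, card_singleton]
    · simp only [mem_singleton, Prod.mk.injEq]
      omega
    · simp only [mem_insert, mem_singleton, Prod.mk.injEq]
      omega
    · simp only [mem_insert, mem_singleton, Prod.mk.injEq]
      omega
  calc 4 = _ := h4.symm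
    _ ≤ _ := card_le_card hsub
    _ ≤ _ := card_image_le

end B7AltAux

open B7AltAux

theorem bdDeg {a b : ℤ} (hab : a < b) : (BQ a b).BdDeg (crn a b hab) := by
  have c0 : crn a b hab 0 = ⟨((a, a), true), (corner_mem hab).1⟩ := rfl
  have c1 : crn a b hab 1 = ⟨((b, a), true), (corner_mem hab).2.1⟩ := rfl
  have c2 : crn a b hab 2 = ⟨((b, b), true), (corner_mem hab).2.2.1⟩ := rfl
  have c3 : crn a b hab 3 = ⟨((a, b), true), (corner_mem hab).2.2.2⟩ := rfl
  refine ⟨?_, ?_, ?_, ?_⟩
  · intro i j hij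
    fin_cases i <;> fin_cases j <;>
      simp only [Fin.zero_eta, Fin.mk_one, Fin.reduceFinMk, c0, c1, c2, c3, Subtype.mk.injEq,
        Prod.mk.injEq, and_true, true_and] at hij ⊢ <;> omega
  · intro i
    fin_cases i
    · exact ⟨(mem_bd_act (corner_mem hab).1).2 (by
        simp only [bdry, mem_sdiff, P0de.mem_box]; omega), rfl⟩
    · exact ⟨(mem_bd_act (corner_mem hab).2.1).2 (by
        simp only [bdry, mem_sdiff, P0de.mem_box]; omega), rfl⟩
    · exact ⟨(mem_bd_act (corner_mem hab).2.2.1).2 (by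
        simp only [bdry, mem_sdiff, P0de.mem_box]; omega), rfl⟩
    · exact ⟨(mem_bd_act (corner_mem hab).2.2.2).2 (by
        simp only [bdry, mem_sdiff, P0de.mem_box]; omega), rfl⟩
  · rintro ⟨⟨⟨i, j⟩, l⟩, hz⟩ hbd hpr
    have hl : l = true := hpr
    subst hl
    rw [mem_bd_act hz] at hbd
    rw [B7AltAux.deg_act hz, card_filter, Fin.sum_univ_four, c0, c1, c2, c3]
    simp only [bdry, mem_sdiff, P0de.mem_box] at hbd
    simp only [Subtype.mk.injEq, Prod.mk.injEq, and_true]
    exact cnt hab (by omega) (by omega) (by omega)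
  · rintro ⟨⟨q, l⟩, hz⟩ hbd hpr
    have hl : l = false := hpr
    subst hl
    rw [mem_bd_pas hz] at hbd
    exact B7AltAux.deg_pas hz hbd

theorem no_alt {a b : ℤ} (hab : a < b) (S : Finset (VV a b)) (h : ((BQ a b).bX S).card ≤ 3) :
    ¬ (crn a b hab 0 ∈ S ∧ crn a b hab 2 ∈ S ∧ crn a b hab 1 ∉ S ∧ crn a b hab 3 ∉ S) ∧
    ¬ (crn a b hab 0 ∉ S ∧ crn a b hab 2 ∉ S ∧ crn a b hab 1 ∈ S ∧ crn a b hab 3 ∈ S) := by
  have c0 : inS S ((a, a), true) ↔ crn a b hab 0 ∈ S := inS_iff S (corner_mem hab).1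
  have c1 : inS S ((b, a), true) ↔ crn a b hab 1 ∈ S := inS_iff S (corner_mem hab).2.1
  have c2 : inS S ((b, b), true) ↔ crn a b hab 2 ∈ S := inS_iff S (corner_mem hab).2.2.1
  have c3 : inS S ((a, b), true) ↔ crn a b hab 3 ∈ S := inS_iff S (corner_mem hab).2.2.2
  constructor
  · rintro ⟨h0, h2, h1, h3⟩
    have := four hab S (by rw [c0, c1]; tauto) (by rw [c1, c2]; tauto) (by rw [c3, c2]; tauto)
      (by rw [c0, c3]; tauto)
    omega
  · rintro ⟨h0, h2, h1, h3⟩
    have := four hab S (by rw [c0, c1]; tauto) (by rw [c1, c2]; tauto) (by rw [c3, c2]; tauto)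
      (by rw [c0, c3]; tauto)
    omega

end P0q
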