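import Pool.Agent.Lib.P0q.K4Turn

/-!
# K6Not: `u ~ v` and `f ~ g` off `e` is impossible (Lemma 4 of Q4_proof.md)

Let `u, v` / `f, g` be the active / passive ends of `e₀`, suppose both pairs are connected off `e₀`. Let
`ω' = update ω e₀ true` (open at `e₀`) and `ω'' = update ω e₀ false`. `Cono ω e₀` does not depend on `ω e₀` and implies
`Con ω'`, `Con ω''`. Let `S = side ω' f u`, `R = Sᶜ = side ω' u f` (`K3Cut`; `{u, f}` is a corner). `f, g ∈ S` (`Con ω' f g`,
`UC`), `u, v ∈ R`. `S` and `R` are unions of clusters for `ω''` as well (`e₀`: the own diagonal is now `{f, g} ⊆ S`),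
and connected by steps for `ω''`: in a chain of steps inside `R` for `ω'` the only step not available for `ω''` is
the diagonal `{u, v}`, which is replaced by a chain of own diagonals off `e₀` (inside `R` because `R` is a union of
clusters: all its vertices are in the `ω'`-cluster of `u`); chains inside `S` do not use `{u, v}` at all.
One of `S`, `R` meets `bd` (`bd_ne`). If `R` does: `rel_euler` for `R` in `ω'` and in `ω''`: the left sides and the `bT R` agree, but
`MS ω' R = insert e₀ (MS ω'' R)` with `e₀ ∉ MS ω'' R`: contradiction. If `S` does: the same with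
`MS ω'' S = insert e₀ (MS ω' S)`.
-/

set_option autoImplicit false

open Finset P0de

namespace P0q

variable {V M : Type} [Fintype V] [DecidableEq V] [Fintype M] [DecidableEq M] (Q : Quad V M)

namespace Quad

namespace K6Aux

theorem UC_compl {ω : M → Bool} {S : Finset V} (h : Q.UC ω S) : Q.UC ω Sᶜ := by
  intro e
  rw [mem_compl, mem_compl]
  exact not_congr (h e)

/-- a chain of own diagonals starting in a union of clusters stays inside it -/
theorem chain_in {ω : M → Bool} {T : Finset V} (hU : Q.UC ω T) {x y : V} (h : Q.Con ω x y)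
    (hx : x ∈ T) :
    Relation.ReflTransGen (fun a b => a ∈ T ∧ b ∈ T ∧ (Q.cor a b ∨ Q.dg ω a b)) x y := by
  induction h with
  | refl => exact Relation.ReflTransGen.refl
  | tail hab hbc ih =>
    exact ih.tail ⟨(Q.UC_Con ω hU hab).1 hx, (Q.UC_Con ω hU (hab.tail hbc)).1 hx, Or.inr hbc⟩

theorem card_MS {ω₁ ω₂ : M → Bool} {e₀ : M} (h : ∀ e, e ≠ e₀ → ω₁ e = ω₂ e) {R : Finset V}
    (h1 : Q.en e₀ (ω₁ e₀) false ∈ R) (h2 : Q.en e₀ (ω₂ e₀) false ∉ R) :
    (Q.MS ω₁ R).card = (Q.MS ω₂ R).card + 1 := by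
  have hins : Q.MS ω₁ R = insert e₀ (Q.MS ω₂ R) := by
    ext e
    simp only [MS, mem_filter, mem_univ, true_and, mem_insert]
    by_cases he : e = e₀
    · subst he
      simp [h1]
    · rw [h e he]
      simp [he]
  have hn : e₀ ∉ Q.MS ω₂ R := by
    simp only [MS, mem_filter, mem_univ, true_and]
    exact h2
  rw [hins, card_insert_of_notMem hn]

/-- `CS` for another configuration -/
theorem CS_change {ω₁ ω₂ : M → Bool} {T : Finset V} (hC : Q.CS ω₁ T)
    (h : ∀ a b, a ∈ T → b ∈ T → Q.dg ω₁ a b →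
      Relation.ReflTransGen (fun a b => a ∈ T ∧ b ∈ T ∧ (Q.cor a b ∨ Q.dg ω₂ a b)) a b) :
    Q.CS ω₂ T := by
  intro x hx y hy
  have hxy := hC x hx y hy
  clear hy
  induction hxy with
  | refl => exact Relation.ReflTransGen.refl
  | tail hab hbc ih =>
    refine ih.trans ?_
    obtain ⟨hb, hc, hs⟩ := hbc
    rcases hs with hs | hs
    · exact Relation.ReflTransGen.single ⟨hb, hc, Or.inl hs⟩
    · exact h _ _ hb hc hs

end K6Aux

/-- connection off `e₀` does not depend on the state of `e₀` -/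
theorem Cono_congr {ω ω' : M → Bool} {e₀ : M} (h : ∀ e, e ≠ e₀ → ω e = ω' e) :
    Q.Cono ω e₀ = Q.Cono ω' e₀ := by
  have hd : Q.dgo ω e₀ = Q.dgo ω' e₀ := by
    funext x y
    apply propext
    constructor
    · rintro ⟨e, i, he, hx, hy⟩
      exact ⟨e, i, he, by rw [← h e he]; exact hx, by rw [← h e he]; exact hy⟩
    · rintro ⟨e, i, he, hx, hy⟩
      exact ⟨e, i, he, by rw [h e he]; exact hx, by rw [h e he]; exact hy⟩
  unfold Cono
  rw [hd]

theorem Cono_Con {ω : M → Bool} {e₀ : M} {x y : V} (h : Q.Cono ω e₀ x y) : Q.Con ω x y := by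
  have hle : Q.dgo ω e₀ ≤ Q.dg ω := by
    rintro a b ⟨e, i, -, ha, hb⟩
    exact ⟨e, i, ha, hb⟩
  exact Relation.ReflTransGen.mono hle x y h

theorem not_both (hQ : Q.IsDisc) (ω : M → Bool) (e₀ : M)
    (h1 : Q.Cono ω e₀ (Q.en e₀ true false) (Q.en e₀ true true))
    (h2 : Q.Cono ω e₀ (Q.en e₀ false false) (Q.en e₀ false true)) : False := by
  set ω₁ : M → Bool := Function.update ω e₀ true with hω₁
  set ω₂ : M → Bool := Function.update ω e₀ false with hω₂
  have hv1 : ω₁ e₀ = true := by rw [hω₁]; simp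
  have hv2 : ω₂ e₀ = false := by rw [hω₂]; simp
  have hn1 : ∀ e, e ≠ e₀ → ω e = ω₁ e := fun e he => by
    rw [hω₁, Function.update_of_ne he]
  have hn2 : ∀ e, e ≠ e₀ → ω e = ω₂ e := fun e he => by
    rw [hω₂, Function.update_of_ne he]
  have h12 : ∀ e, e ≠ e₀ → ω₁ e = ω₂ e := fun e he => by rw [← hn1 e he, hn2 e he]
  have hc1 := Q.Cono_congr hn1
  have hc2 := Q.Cono_congr hn2
  have u1 : Q.Con ω₁ (Q.en e₀ true false) (Q.en e₀ true true) :=
    Q.Cono_Con (by rw [← hc1]; exact h1)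
  have u2 : Q.Con ω₂ (Q.en e₀ true false) (Q.en e₀ true true) :=
    Q.Cono_Con (by rw [← hc2]; exact h1)
  have f1 : Q.Con ω₁ (Q.en e₀ false false) (Q.en e₀ false true) :=
    Q.Cono_Con (by rw [← hc1]; exact h2)
  have hcor : Q.cor (Q.en e₀ false false) (Q.en e₀ true false) :=
    (Q.cor_iff hQ).2 ⟨e₀, false, false, false, rfl, rfl⟩
  have hcor' : Q.cor (Q.en e₀ true false) (Q.en e₀ false false) := Q.cor_symm hcor
  set S : Finset V := Q.side ω₁ (Q.en e₀ false false) (Q.en e₀ true false) with hS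
  have hSc : Q.side ω₁ (Q.en e₀ true false) (Q.en e₀ false false) = Sᶜ :=
    Q.side_compl hQ ω₁ hcor
  have hU1 : Q.UC ω₁ S := Q.side_UC hQ ω₁ hcor
  have hU1c : Q.UC ω₁ Sᶜ := K6Aux.UC_compl Q hU1
  have hf : Q.en e₀ false false ∈ S := Q.mem_side_self ω₁ _ _
  have hg : Q.en e₀ false true ∈ S := (Q.UC_Con ω₁ hU1 f1).1 hf
  have hu : Q.en e₀ true false ∈ Sᶜ := by
    rw [← hSc]
    exact Q.mem_side_self ω₁ _ _
  have hv : Q.en e₀ true true ∈ Sᶜ := (Q.UC_Con ω₁ hU1c u1).1 hu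
  have hU2 : Q.UC ω₂ S := by
    intro e
    by_cases he : e = e₀
    · subst he
      rw [hv2]
      exact ⟨fun _ => hg, fun _ => hf⟩
    · rw [← h12 e he]
      exact hU1 e
  have hU2c : Q.UC ω₂ Sᶜ := K6Aux.UC_compl Q hU2
  have hC1 : Q.CS ω₁ S := Q.side_CS hQ ω₁ hcor
  have hC1c : Q.CS ω₁ Sᶜ := by
    rw [← hSc]
    exact Q.side_CS hQ ω₁ hcor'
  have hC2 : Q.CS ω₂ S := by
    refine K6Aux.CS_change Q hC1 ?_
    rintro a b ha hb ⟨e, i, hae, hbe⟩
    by_cases he : e = e₀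
    · exfalso
      subst he
      rw [hv1] at hae
      cases i
      · exact (mem_compl.1 hu) (hae ▸ ha)
      · exact (mem_compl.1 hv) (hae ▸ ha)
    · refine Relation.ReflTransGen.single ⟨ha, hb, Or.inr ⟨e, i, ?_, ?_⟩⟩
      · rw [← h12 e he]; exact hae
      · rw [← h12 e he]; exact hbe
  have hC2c : Q.CS ω₂ Sᶜ := by
    refine K6Aux.CS_change Q hC1c ?_
    rintro a b ha hb ⟨e, i, hae, hbe⟩
    by_cases he : e = e₀
    · subst he
      rw [hv1] at hae hbe
      cases i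
      · rw [hae, hbe]
        exact K6Aux.chain_in Q hU2c u2 hu
      · rw [hae, hbe]
        exact K6Aux.chain_in Q hU2c (Q.Con_symm ω₂ u2) hv
    · refine Relation.ReflTransGen.single ⟨ha, hb, Or.inr ⟨e, i, ?_, ?_⟩⟩
      · rw [← h12 e he]; exact hae
      · rw [← h12 e he]; exact hbe
  rcases Q.side_or hQ ω₁ hcor with hb | hb
  · -- `S` meets the boundary
    have e1 := Q.rel_euler hQ ω₁ S hU1 hC1 hC1c hb ⟨_, hu⟩
    have e2 := Q.rel_euler hQ ω₂ S hU2 hC2 hC2c hb ⟨_, hu⟩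
    have e3 := K6Aux.card_MS Q (ω₁ := ω₂) (ω₂ := ω₁) (e₀ := e₀) (R := S)
      (fun e he => (h12 e he).symm) (by rw [hv2]; exact hf)
      (by rw [hv1]; exact mem_compl.1 hu)
    omega
  · rw [hSc] at hb
    have hcc : Sᶜᶜ = S := compl_compl S
    have hne : Sᶜᶜ.Nonempty := by rw [hcc]; exact ⟨_, hf⟩
    have e1 := Q.rel_euler hQ ω₁ Sᶜ hU1c hC1c (by rw [hcc]; exact hC1) hb hne
    have e2 := Q.rel_euler hQ ω₂ Sᶜ hU2c hC2c (by rw [hcc]; exact hC2) hb hne
    have e3 := K6Aux.card_MS Q (ω₁ := ω₁) (ω₂ := ω₂) (e₀ := e₀) (R := Sᶜ) h12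
      (by rw [hv1]; exact hu) (by rw [hv2]; exact fun h => (mem_compl.1 h) hf)
    omega

end Quad

end P0q
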