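import Pool.Agent.Lib.P0q.B6Disc
import Pool.Agent.Lib.P0q.K6Not

/-!
# B8Con: clusters of the disc of a box and clusters of edge configurations

`η ⊆ inner a (b+1)`, `ω = cf a b η`. The own diagonal of the square `e` is `{src e, tgt e}` (active) if `e ∈ η`, `{pu e, pl e}` otherwise.
The passive edge `e'` (an element of `Ed` acting on passive sites) crosses the edge `cr e'`, and
`pu (cr e') = tgt e'`, `pl (cr e') = src e'` (definitions: `cr e = (e.1 + dir e.2, !e.2)`, `pu e = e.1`, `pl e = e.1 - dir (!e.2)`);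
`cr` is a bijection with `cr e' ∈ inner a (b+1) ↔ e' ∈ inner a b ∪ stubs a b` (`P0de.cr_mem_inner`, `cr_surjective`), so the own
diagonals of the closed squares are exactly the passive edges of `dual a b η` (`P0de.mem_dual'`).
So chains of own diagonals starting at an active (passive) vertex are chains of edges of `η` (of `dual a b η`), and conversely (all ends of
edges of `η ⊆ inner a (b+1)` are vertices of the disc: `en_mem`; the ends of `dual a b η` too). Inductions on `ReflTransGen` in both directions.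
Off the square `e`: the same with `η.erase e` for active vertices and `dual a b (insert e η)` for passive ones
(the passive edge crossing `e` is removed).
-/

set_option autoImplicit false

open Finset P0de

namespace P0q

namespace B8

open P0de.DualAux

theorem en_tf (a b : ℤ) (e : MM a b) : (BQ a b).en e true false = ⟨(src e.1, true), (en_mem e.2).1⟩ := rfl

theorem en_tt (a b : ℤ) (e : MM a b) : (BQ a b).en e true true = ⟨(tgt e.1, true), (en_mem e.2).2.1⟩ := rfl

theorem en_ff (a b : ℤ) (e : MM a b) : (BQ a b).en e false false = ⟨(pu e.1, false), (en_mem e.2).2.2.1⟩ := rfl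

theorem en_ft (a b : ℤ) (e : MM a b) : (BQ a b).en e false true = ⟨(pl e.1, false), (en_mem e.2).2.2.2⟩ := rfl

theorem en_flag (a b : ℤ) (e : MM a b) (c i : Bool) : ((BQ a b).en e c i).1.2 = c := by
  cases c <;> cases i <;> rfl

theorem pu_cr (e : Ed) : pu (cr e) = tgt e := rfl

theorem pl_cr (e : Ed) : pl (cr e) = src e := by
  simp [pl, cr, src]

theorem cf_true {a b : ℤ} {η : Finset Ed} {e : MM a b} : cf a b η e = true ↔ e.1 ∈ η := by
  simp [cf]

theorem cf_false {a b : ℤ} {η : Finset Ed} {e : MM a b} : cf a b η e = false ↔ e.1 ∉ η := by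
  simp [cf]

/-- steps starting at an active vertex -/
theorem step_act {a b : ℤ} {η : Finset Ed} (hη : η ⊆ inner a (b + 1)) (P : MM a b → Prop)
    (η' : Finset Ed) (hη' : ∀ e : MM a b, e.1 ∈ η' ↔ e.1 ∈ η ∧ P e) (hsub : η' ⊆ η)
    {x y : VV a b} (hx : x.1.2 = true) :
    (∃ e i, P e ∧ x = (BQ a b).en e (cf a b η e) i ∧ y = (BQ a b).en e (cf a b η e) (!i)) ↔
      y.1.2 = true ∧ Adj η' x.1.1 y.1.1 := by
  constructor
  · rintro ⟨e, i, hP, h1, h2⟩
    have hc : cf a b η e = true := by
      rw [h1, en_flag] at hx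
      exact hx
    rw [hc] at h1 h2
    have he := (hη' e).2 ⟨cf_true.1 hc, hP⟩
    refine ⟨by rw [h2, en_flag], e.1, he, ?_⟩
    cases i
    · rw [en_tf] at h1
      rw [Bool.not_false, en_tt] at h2
      left
      exact ⟨by rw [h1], by rw [h2]⟩
    · rw [en_tt] at h1
      rw [Bool.not_true, en_tf] at h2
      right
      exact ⟨by rw [h2], by rw [h1]⟩
  · rintro ⟨hy, e, he, h⟩
    have heη := hsub he
    let e' : MM a b := ⟨e, hη heη⟩
    have hc : cf a b η e' = true := cf_true.2 heη
    have hP := ((hη' e').1 he).2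
    rcases h with ⟨h1, h2⟩ | ⟨h1, h2⟩
    · refine ⟨e', false, hP, ?_, ?_⟩
      · rw [hc, en_tf]
        exact Subtype.ext (Prod.ext h1.symm hx)
      · rw [hc, Bool.not_false, en_tt]
        exact Subtype.ext (Prod.ext h2.symm hy)
    · refine ⟨e', true, hP, ?_, ?_⟩
      · rw [hc, en_tt]
        exact Subtype.ext (Prod.ext h2.symm hx)
      · rw [hc, Bool.not_true, en_tf]
        exact Subtype.ext (Prod.ext h1.symm hy)

/-- steps starting at a passive vertex -/
theorem step_pas {a b : ℤ} (η : Finset Ed) (P : MM a b → Prop)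
    (η' : Finset Ed) (hη' : ∀ e : MM a b, e.1 ∉ η' ↔ e.1 ∉ η ∧ P e)
    {x y : VV a b} (hx : x.1.2 = false) :
    (∃ e i, P e ∧ x = (BQ a b).en e (cf a b η e) i ∧ y = (BQ a b).en e (cf a b η e) (!i)) ↔
      y.1.2 = false ∧ Adj (dual a b η') x.1.1 y.1.1 := by
  constructor
  · rintro ⟨e, i, hP, h1, h2⟩
    have hc : cf a b η e = false := by
      rw [h1, en_flag] at hx
      exact hx
    rw [hc] at h1 h2
    have he := (hη' e).2 ⟨cf_false.1 hc, hP⟩
    refine ⟨by rw [h2, en_flag], ?_⟩
    obtain ⟨e', hee⟩ := cr_surjective e.1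
    have hd : e' ∈ dual a b η' := by
      rw [mem_dual', hee]
      exact ⟨e.2, he⟩
    refine ⟨e', hd, ?_⟩
    cases i
    · rw [en_ff] at h1
      rw [Bool.not_false, en_ft] at h2
      right
      refine ⟨?_, ?_⟩
      · rw [h2, ← pl_cr, hee]
      · rw [h1, ← pu_cr, hee]
    · rw [en_ft] at h1
      rw [Bool.not_true, en_ff] at h2
      left
      refine ⟨?_, ?_⟩
      · rw [h1, ← pl_cr, hee]
      · rw [h2, ← pu_cr, hee]
  · rintro ⟨hy, e, he, h⟩
    rw [mem_dual'] at he
    let e' : MM a b := ⟨cr e, he.1⟩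
    have h3 := (hη' e').1 he.2
    have hc : cf a b η e' = false := cf_false.2 h3.1
    rcases h with ⟨h1, h2⟩ | ⟨h1, h2⟩
    · refine ⟨e', true, h3.2, ?_, ?_⟩
      · rw [hc, en_ft]
        exact Subtype.ext (Prod.ext (h1.symm.trans (pl_cr e).symm) hx)
      · rw [hc, Bool.not_true, en_ff]
        exact Subtype.ext (Prod.ext (h2.symm.trans (pu_cr e).symm) hy)
    · refine ⟨e', false, h3.2, ?_, ?_⟩
      · rw [hc, en_ff]
        exact Subtype.ext (Prod.ext (h2.symm.trans (pu_cr e).symm) hx)
      · rw [hc, Bool.not_false, en_ft]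
        exact Subtype.ext (Prod.ext (h1.symm.trans (pl_cr e).symm) hy)

/-- transfer of chains -/
theorem chain {a b : ℤ} (c : Bool) (R : VV a b → VV a b → Prop) (R' : Site → Site → Prop)
    (h : ∀ x y : VV a b, x.1.2 = c → (R x y ↔ y.1.2 = c ∧ R' x.1.1 y.1.1))
    (hm : ∀ x z : Site, R' x z → (z, c) ∈ VS a b)
    {x y : Site} (hx : (x, c) ∈ VS a b) (hy : (y, c) ∈ VS a b) :
    Relation.ReflTransGen R ⟨(x, c), hx⟩ ⟨(y, c), hy⟩ ↔ Relation.ReflTransGen R' x y := by
  constructor
  · intro h1
    have key : ∀ z : VV a b, Relation.ReflTransGen R ⟨(x, c), hx⟩ z →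
        z.1.2 = c ∧ Relation.ReflTransGen R' x z.1.1 := by
      intro z hz
      induction hz with
      | refl => exact ⟨rfl, Relation.ReflTransGen.refl⟩
      | tail _ h2 ih =>
        have h3 := (h _ _ ih.1).1 h2
        exact ⟨h3.1, ih.2.tail h3.2⟩
    exact (key _ h1).2
  · intro h1
    have key : ∀ z : Site, Relation.ReflTransGen R' x z → ∃ hz : (z, c) ∈ VS a b,
        Relation.ReflTransGen R ⟨(x, c), hx⟩ ⟨(z, c), hz⟩ := by
      intro z hz
      induction hz with
      | refl => exact ⟨hx, Relation.ReflTransGen.refl⟩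
      | tail _ h2 ih =>
        obtain ⟨h3, h4⟩ := ih
        exact ⟨hm _ _ h2, h4.tail ((h _ _ rfl).2 ⟨rfl, h2⟩)⟩
    obtain ⟨_, h2⟩ := key y h1
    exact h2

theorem adj_act_mem {a b : ℤ} {η : Finset Ed} (hη : η ⊆ inner a (b + 1)) (x z : Site)
    (h : Adj η x z) : (z, true) ∈ VS a b := by
  obtain ⟨e, he, h1⟩ := h
  have h2 := en_mem (hη he)
  rcases h1 with ⟨_, h3⟩ | ⟨h3, _⟩
  · rw [← h3]
    exact h2.2.1
  · rw [← h3]
    exact h2.1

theorem adj_pas_mem {a b : ℤ} (η : Finset Ed) (x z : Site)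
    (h : Adj (dual a b η) x z) : (z, false) ∈ VS a b := by
  obtain ⟨e, he, h1⟩ := h
  rw [mem_dual'] at he
  have h2 := en_mem he.1
  rw [pu_cr, pl_cr] at h2
  rcases h1 with ⟨_, h3⟩ | ⟨h3, _⟩
  · rw [← h3]
    exact h2.2.2.1
  · rw [← h3]
    exact h2.2.2.2

end B8

open B8

theorem con_act {a b : ℤ} {η : Finset Ed} (hη : η ⊆ inner a (b + 1)) {x y : Site}
    (hx : (x, true) ∈ VS a b) (hy : (y, true) ∈ VS a b) :
    (BQ a b).Con (cf a b η) ⟨(x, true), hx⟩ ⟨(y, true), hy⟩ ↔ Conn η x y := by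
  unfold Quad.Con Conn
  refine chain true _ _ ?_ (adj_act_mem hη) hx hy
  intro u v hu
  rw [← step_act hη (fun _ => True) η (by simp) (Subset.refl _) hu]
  simp only [Quad.dg, true_and]

theorem con_pas {a b : ℤ} (η : Finset Ed) {x y : Site}
    (hx : (x, false) ∈ VS a b) (hy : (y, false) ∈ VS a b) :
    (BQ a b).Con (cf a b η) ⟨(x, false), hx⟩ ⟨(y, false), hy⟩ ↔ Conn (dual a b η) x y := by
  unfold Quad.Con Conn
  refine chain false _ _ ?_ (adj_pas_mem η) hx hy
  intro u v hu
  rw [← step_pas η (fun _ => True) η (by simp) hu]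
  simp only [Quad.dg, true_and]

theorem cono_act {a b : ℤ} {η : Finset Ed} (hη : η ⊆ inner a (b + 1)) (e : MM a b) {x y : Site}
    (hx : (x, true) ∈ VS a b) (hy : (y, true) ∈ VS a b) :
    (BQ a b).Cono (cf a b η) e ⟨(x, true), hx⟩ ⟨(y, true), hy⟩ ↔ Conn (η.erase e.1) x y := by
  unfold Quad.Cono Conn
  refine chain true _ _ ?_ (adj_act_mem ((erase_subset _ _).trans hη)) hx hy
  intro u v hu
  rw [← step_act hη (fun e' => e' ≠ e) (η.erase e.1) ?_ (erase_subset _ _) hu]
  · rfl
  · intro e'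
    rw [mem_erase, and_comm, ne_eq, ne_eq, Subtype.ext_iff]

theorem cono_pas {a b : ℤ} (η : Finset Ed) (e : MM a b) {x y : Site}
    (hx : (x, false) ∈ VS a b) (hy : (y, false) ∈ VS a b) :
    (BQ a b).Cono (cf a b η) e ⟨(x, false), hx⟩ ⟨(y, false), hy⟩ ↔
      Conn (dual a b (insert e.1 η)) x y := by
  unfold Quad.Cono Conn
  refine chain false _ _ ?_ (adj_pas_mem _) hx hy
  intro u v hu
  rw [← step_pas η (fun e' => e' ≠ e) (insert e.1 η) ?_ hu]
  · rfl
  · intro e'
    rw [mem_insert, not_or, and_comm, ne_eq, Subtype.ext_iff]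

/-- ends of clusters stay in the box -/
theorem Conn_mem {a b : ℤ} {η : Finset Ed} (hη : η ⊆ inner a (b + 1)) {x y : Site}
    (hx : x ∈ box a (b + 1)) (h : Conn η x y) : y ∈ box a (b + 1) := by
  induction h with
  | refl => exact hx
  | tail _ h1 _ => exact mem_VS_true.1 (adj_act_mem hη _ _ h1)

theorem dual_mem {a b : ℤ} {η : Finset Ed} {x y : Site} (hx : x ∈ pas a b)
    (h : Conn (dual a b η) x y) : y ∈ pas a b := by
  induction h with
  | refl => exact hx
  | tail _ h1 _ => exact mem_VS_false.1 (adj_pas_mem _ _ _ h1)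

/-- the configurations of the squares are the subsets of `inner a (b+1)` -/
theorem sum_cf {a b : ℤ} (G : (MM a b → Bool) → ℝ) :
    ∑ η ∈ (inner a (b + 1)).powerset, G (cf a b η) = ∑ ω : MM a b → Bool, G ω := by
  classical
  refine Finset.sum_bij (fun η _ => cf a b η) (fun _ _ => mem_univ _) ?_ ?_ (fun _ _ => rfl)
  · intro η₁ h₁ η₂ h₂ h
    rw [mem_powerset] at h₁ h₂
    ext e
    constructor
    · intro he
      have h3 : cf a b η₁ ⟨e, h₁ he⟩ = true := cf_true.2 he
      rw [show cf a b η₁ ⟨e, h₁ he⟩ = cf a b η₂ ⟨e, h₁ he⟩ from congrFun h _] at h3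
      exact cf_true.1 h3
    · intro he
      have h3 : cf a b η₂ ⟨e, h₂ he⟩ = true := cf_true.2 he
      rw [show cf a b η₂ ⟨e, h₂ he⟩ = cf a b η₁ ⟨e, h₂ he⟩ from (congrFun h _).symm] at h3
      exact cf_true.1 h3
  · intro ω _
    refine ⟨(univ.filter fun e : MM a b => ω e = true).image (fun e => e.1), ?_, ?_⟩
    · rw [mem_powerset]
      intro e he
      rw [mem_image] at he
      obtain ⟨e', _, rfl⟩ := he
      exact e'.2
    · funext e
      have h1 : e.1 ∈ (univ.filter fun e : MM a b => ω e = true).image (fun e => e.1) ↔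
          ω e = true := by
        rw [mem_image]
        constructor
        · rintro ⟨e', h2, h3⟩
          rw [mem_filter] at h2
          rw [← Subtype.ext h3]
          exact h2.2
        · intro h2
          exact ⟨e, mem_filter.2 ⟨mem_univ _, h2⟩, rfl⟩
      cases h2 : ω e
      · rw [cf_false, h1, h2]
        simp
      · rw [cf_true, h1, h2]

theorem cf_insert {a b : ℤ} (η : Finset Ed) (e : MM a b) :
    cf a b (insert e.1 η) = Function.update (cf a b η) e true := by
  funext e'
  by_cases h : e' = e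
  · subst h
    rw [Function.update_self, cf_true]
    exact mem_insert_self _ _
  · rw [Function.update_of_ne h]
    unfold cf
    have h2 : e'.1 ≠ e.1 := fun h3 => h (Subtype.ext h3)
    simp [h2]

theorem cf_erase {a b : ℤ} {η : Finset Ed} (e : MM a b) (he : e.1 ∉ η) :
    cf a b η = Function.update (cf a b η) e false := by
  funext e'
  by_cases h : e' = e
  · subst h
    rw [Function.update_self, cf_false]
    exact he
  · rw [Function.update_of_ne h]

end P0q
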