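import Pool.Agent.Lib.P0de4a2.Main

/-!
# Definitions for the package P0q (MP_0de4a2_pr, full answer for every `q > 4`)

Part 1: abstract quadrangulated discs (`Quad`), configurations, clusters, sides of corners.
Part 2: heights.
Part 3: probabilities on finite sets of edges, free weights.
Part 4: the disc of a box.
-/

set_option autoImplicit false

open Finset P0de

namespace P0q

/-! ## Part 1: quadrangulated discs -/

/-- Basic data of a set `M` of squares on a set `V` of vertices: `en e c i` is the `i`-th end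
(`i = false, true`) of the diagonal `c` (`c = true`: the active one) of the square `e`. -/
structure Quad (V M : Type) [Fintype V] [DecidableEq V] [Fintype M] [DecidableEq M] where
  en : M → Bool → Bool → V
  pr : V → Bool
  bd : Finset V

variable {V M : Type} [Fintype V] [DecidableEq V] [Fintype M] [DecidableEq M]

namespace Quad

variable (Q : Quad V M)

/-- `x` is a vertex of the square `e` -/
def on (e : M) (x : V) : Prop := ∃ c i, Q.en e c i = x

instance (e : M) (x : V) : Decidable (Q.on e x) := by unfold on; infer_instance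

/-- the squares containing both `x` and `y` -/
def sq (x y : V) : Finset M := univ.filter fun e => Q.on e x ∧ Q.on e y

/-- `x` and `y` form a corner -/
def cor (x y : V) : Prop := Q.pr x ≠ Q.pr y ∧ (Q.sq x y).Nonempty

/-- the boundary corners (active end first): corners lying in only one square -/
def bc : Finset (V × V) :=
  univ.filter fun c => Q.pr c.1 = true ∧ Q.pr c.2 = false ∧ (Q.sq c.1 c.2).card = 1

/-- the number of squares at `x` -/
def deg (x : V) : ℕ := (univ.filter fun e => Q.on e x).card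

/-- The combinatorial axioms of a disc. -/
structure IsDisc : Prop where
  pr_en : ∀ e c i, Q.pr (Q.en e c i) = c
  en_ne : ∀ e c, Q.en e c false ≠ Q.en e c true
  bd_ne : Q.bd.Nonempty
  /-- every closed function on corners is a gradient -/
  pot : ∀ ε : V → V → ZMod 2,
    (∀ e, ∑ i : Bool, ∑ j : Bool, ε (Q.en e true i) (Q.en e false j) = 0) →
    ∃ γ : V → ZMod 2, ∀ e i j,
      ε (Q.en e true i) (Q.en e false j) = γ (Q.en e true i) + γ (Q.en e false j)
  /-- the graph of corners is connected -/
  conn : ∀ T : Finset V, T.Nonempty → (∀ e i j, Q.en e true i ∈ T ↔ Q.en e false j ∈ T) →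
    ∀ x, x ∈ T
  /-- the squares around a vertex are linked through the corners at this vertex -/
  star : ∀ (x : V) (g : M → ZMod 2),
    (∀ y, Q.pr y ≠ Q.pr x → ∀ e e', e ∈ Q.sq x y → e' ∈ Q.sq x y → g e = g e') →
    ∀ e e', Q.on e x → Q.on e' x → g e = g e'
  sq_le : ∀ x y, Q.pr x ≠ Q.pr y → (Q.sq x y).card ≤ 2
  bc_mem : ∀ c ∈ Q.bc, c.1 ∈ Q.bd ∧ c.2 ∈ Q.bd
  /-- every boundary vertex lies in exactly two boundary corners -/
  bc_two : ∀ x ∈ Q.bd, (Q.bc.filter fun c => c.1 = x ∨ c.2 = x).card = 2
  deg_int : ∀ x, x ∉ Q.bd → Q.deg x = 4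
  euler : 2 * Fintype.card V = 2 * Fintype.card M + Q.bc.card + 2

/-- exchange of active and passive -/
def dual : Quad V M where
  en e c i := Q.en e (!c) i
  pr x := !(Q.pr x)
  bd := Q.bd

/-- `x` and `y` are the two ends of the own diagonal of a square (`ω e = true`: `e` is open) -/
def dg (ω : M → Bool) (x y : V) : Prop := ∃ e i, x = Q.en e (ω e) i ∧ y = Q.en e (ω e) (!i)

/-- `x` and `y` are in the same cluster -/
def Con (ω : M → Bool) (x y : V) : Prop := Relation.ReflTransGen (Q.dg ω) x y

/-- as `dg`, without the square `e₀` -/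
def dgo (ω : M → Bool) (e₀ : M) (x y : V) : Prop :=
  ∃ e i, e ≠ e₀ ∧ x = Q.en e (ω e) i ∧ y = Q.en e (ω e) (!i)

/-- `x` and `y` are connected by own diagonals of squares other than `e₀` -/
def Cono (ω : M → Bool) (e₀ : M) (x y : V) : Prop := Relation.ReflTransGen (Q.dgo ω e₀) x y

/-- a step (corner or own diagonal) avoiding the cluster of `y` -/
def stp (ω : M → Bool) (y a b : V) : Prop :=
  ¬ Q.Con ω y a ∧ ¬ Q.Con ω y b ∧ (Q.cor a b ∨ Q.dg ω a b)

open Classical in
/-- the side of `x` for the corner `{x, y}` -/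
noncomputable def side (ω : M → Bool) (x y : V) : Finset V :=
  univ.filter fun z => Relation.ReflTransGen (Q.stp ω y) x z

/-- `S` is a union of clusters -/
def UC (ω : M → Bool) (S : Finset V) : Prop :=
  ∀ e, Q.en e (ω e) false ∈ S ↔ Q.en e (ω e) true ∈ S

/-- `S` is connected by steps inside `S` -/
def CS (ω : M → Bool) (S : Finset V) : Prop :=
  ∀ x ∈ S, ∀ y ∈ S, Relation.ReflTransGen
    (fun a b => a ∈ S ∧ b ∈ S ∧ (Q.cor a b ∨ Q.dg ω a b)) x y

/-- the squares whose own diagonal is in `S` -/
def MS (ω : M → Bool) (S : Finset V) : Finset M := univ.filter fun e => Q.en e (ω e) false ∈ S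

/-- the turning number of `S` -/
def NS (ω : M → Bool) (S : Finset V) : ℤ := ∑ x ∈ S, (Q.deg x : ℤ) - 4 * ((Q.MS ω S).card : ℤ)

/-- boundary corners with an end in `S` -/
def bT (S : Finset V) : Finset (V × V) := Q.bc.filter fun c => c.1 ∈ S ∨ c.2 ∈ S

/-- boundary corners with exactly one end in `S` -/
def bX (S : Finset V) : Finset (V × V) := Q.bc.filter fun c => ¬ (c.1 ∈ S ↔ c.2 ∈ S)

/-- `S` meets the boundary -/
def Tb (S : Finset V) : Prop := ∃ x ∈ S, x ∈ Q.bd

/-! ## Part 2: heights -/

/-- admissible heights -/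
def adm (h : V → ℤ) : Prop := ∀ x y, Q.cor x y → h x = h y + 1 ∨ h x = h y - 1

/-- compatible with `ω` -/
def cmp (ω : M → Bool) (h : V → ℤ) : Prop := ∀ e, h (Q.en e (ω e) false) = h (Q.en e (ω e) true)

/-- `h f + h g - h u - h v` -/
def Dl (e : M) (h : V → ℤ) : ℤ :=
  h (Q.en e false false) + h (Q.en e false true) - h (Q.en e true false) - h (Q.en e true true)

/-- the exponent -/
def ph (ω : M → Bool) (h : V → ℤ) : ℤ := ∑ e, (if ω e then Q.Dl e h else - Q.Dl e h)

/-- A finite set of heights: the admissible heights with `h r = 0` and `|h| ≤ |V|`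
(in a disc the bound holds automatically: `mem_Hs`). -/
noncomputable def Hs (r : V) : Finset (V → ℤ) := by
  classical
  exact (Fintype.piFinset fun _ : V => Finset.Icc (-(Fintype.card V : ℤ)) (Fintype.card V)).filter
    fun h => Q.adm h ∧ h r = 0

open Classical in
/-- the partition function of the heights compatible with `ω` -/
noncomputable def Zf (r : V) (κ : ℝ) (F : (V → ℤ) → ℝ) (ω : M → Bool) : ℝ :=
  ∑ h ∈ Q.Hs r, if Q.cmp ω h then F h * Real.exp (κ * (Q.ph ω h : ℝ)) else 0

/-- the shift of `h` by `2` on `S`, normalised at `r` -/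
def shf (S : Finset V) (r : V) (h : V → ℤ) : V → ℤ :=
  fun z => h z + (if z ∈ S then 2 else 0) - (if r ∈ S then 2 else 0)

/-- `F` only depends on the boundary heights -/
def BdF (F : (V → ℤ) → ℝ) : Prop := ∀ h h' : V → ℤ, (∀ z ∈ Q.bd, h z = h' z) → F h = F h'

open Classical in
/-- the boundary values `0` (active) and `1` (passive) -/
noncomputable def F01 (h : V → ℤ) : ℝ :=
  if ∀ z ∈ Q.bd, h z = if Q.pr z then 0 else 1 then 1 else 0

/-- the tilt -/
noncomputable def Fth (θ : ℝ) (c₁ c₃ : V) (h : V → ℤ) : ℝ := Real.exp (θ * ((h c₁ - h c₃ : ℤ) : ℝ))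

/-- the even tilt -/
noncomputable def Fch (θ : ℝ) (c₁ c₃ : V) (h : V → ℤ) : ℝ := Real.cosh (θ * ((h c₁ - h c₃ : ℤ) : ℝ))

/-- `z` can be joined to the boundary using at most `m` corners (own diagonals are free) -/
def Near (ω : M → Bool) : ℕ → V → Prop
  | 0, z => ∃ y ∈ Q.bd, Q.Con ω z y
  | m + 1, z => Near ω m z ∨ ∃ z' y, Q.Con ω z z' ∧ Q.cor z' y ∧ Near ω m y

end Quad

/-! ## Part 3: probabilities on finite sets of edges -/

/-- the expectation of `g` for the weight `w` on the subsets of `E` -/
noncomputable def ex (E : Finset Ed) (w g : Finset Ed → ℝ) : ℝ :=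
  (∑ η ∈ E.powerset, w η * g η) / ∑ η ∈ E.powerset, w η

open Classical in
/-- the indicator of an event -/
noncomputable def ind (A : Finset Ed → Prop) (η : Finset Ed) : ℝ := if A η then 1 else 0

/-- the probability of `A` for the weight `w` on the subsets of `E` -/
noncomputable def ev (E : Finset Ed) (w : Finset Ed → ℝ) (A : Finset Ed → Prop) : ℝ :=
  ex E w (ind A)

/-- increasing events -/
def Up (A : Finset Ed → Prop) : Prop := ∀ η η', η ⊆ η' → A η → A η'

/-- the endpoints of the edges of `η` -/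
def ends (η : Finset Ed) : Finset Site := η.image src ∪ η.image tgt

/-- the rank of `η` -/
noncomputable def rk (η : Finset Ed) : ℕ := (ends η).card - (clus (ends η) η).card

/-- the weight of `η` in the free random-cluster measures at `p_c` (up to a constant, see
`fw_insert`) -/
noncomputable def fw (q : ℝ) (η : Finset Ed) : ℝ := (√q) ^ η.card / q ^ rk η

/-- `x` is connected in `η` to the boundary of `[a, b]²` -/
def Tc (a b : ℤ) (η : Finset Ed) (x : Site) : Prop := ∃ y ∈ bdry a b, Conn η x y

open Classical in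
/-- the ratio of the weights of `insert e η` and `η` for `RC^{qb}` at `p_c` -/
noncomputable def odd (q qb : ℝ) (a b : ℤ) (η : Finset Ed) (e : Ed) : ℝ :=
  if Conn η (src e) (tgt e) then √q
  else if Tc a b η (src e) ∧ Tc a b η (tgt e) then √q / qb else 1 / √q

/-- the edges of the cluster of `x` -/
noncomputable def KK (η : Finset Ed) (x : Site) : Finset Ed := by
  classical exact η.filter fun e => Conn η x (src e)

/-- the passive sites `q`, `q'` are joined without crossing an edge of `K` -/
def Pcon (K : Finset Ed) (q q' : Site) : Prop :=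
  Relation.ReflTransGen (fun a b => ∃ e, e ∉ K ∧ ((pu e = a ∧ pl e = b) ∨ (pu e = b ∧ pl e = a))) q q'

/-- `q` is enclosed by `K` -/
def Enc (K : Finset Ed) (q : Site) : Prop := ∃ R : ℤ, ∀ q', q' ∉ box (-R) R → ¬ Pcon K q q'

/-- the passive site `q` is enclosed by the cluster of `x` -/
def Am (η : Finset Ed) (x q : Site) : Prop := Enc (KK η x) q

/-! ## Part 4: the disc of the box `[a, b]²` -/

/-- the passive sites of the disc of `[a, b]²` -/
noncomputable def pas (a b : ℤ) : Finset Site :=
  box (a - 1) (b + 1) \ {(a - 1, a - 1), (a - 1, b), (b, a - 1), (b, b)}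

/-- the vertices of the disc of `[a, b]²` (`(x, true)`: the active site `x`) -/
noncomputable def VS (a b : ℤ) : Finset (Site × Bool) :=
  (box a (b + 1) ×ˢ {true}) ∪ (pas a b ×ˢ {false})

abbrev VV (a b : ℤ) : Type := {z : Site × Bool // z ∈ VS a b}

abbrev MM (a b : ℤ) : Type := {e : Ed // e ∈ inner a (b + 1)}

theorem mem_VS_true {a b : ℤ} {x : Site} : (x, true) ∈ VS a b ↔ x ∈ box a (b + 1) := by
  simp [VS]

theorem mem_VS_false {a b : ℤ} {x : Site} : (x, false) ∈ VS a b ↔ x ∈ pas a b := by
  simp [VS]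

theorem mem_pas {a b : ℤ} {x : Site} : x ∈ pas a b ↔
    ((a ≤ x.1 ∧ x.1 < b) ∧ a - 1 ≤ x.2 ∧ x.2 ≤ b) ∨ ((a - 1 ≤ x.1 ∧ x.1 ≤ b) ∧ a ≤ x.2 ∧ x.2 < b) := by
  obtain ⟨i, j⟩ := x
  simp only [pas, mem_sdiff, P0de.mem_box, mem_insert, mem_singleton, Prod.mk.injEq, not_or]
  omega

/-- the ends of the squares -/
theorem en_mem {a b : ℤ} {e : Ed} (he : e ∈ inner a (b + 1)) : (src e, true) ∈ VS a b ∧
    (tgt e, true) ∈ VS a b ∧ (pu e, false) ∈ VS a b ∧ (pl e, false) ∈ VS a b := by
  rw [P0de.mem_inner, P0de.mem_box, P0de.mem_box] at he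
  obtain ⟨⟨i, j⟩, c⟩ := e
  rw [mem_VS_true, mem_VS_true, mem_VS_false, mem_VS_false, mem_pas, mem_pas, P0de.mem_box,
    P0de.mem_box]
  cases c
  · simp only [src, tgt, pu, pl, dir, cond_true, cond_false, Bool.not_false, Prod.mk_add_mk,
      Prod.mk_sub_mk, add_zero, sub_zero] at he ⊢
    omega
  · simp only [src, tgt, pu, pl, dir, cond_true, cond_false, Bool.not_true, Prod.mk_add_mk,
      Prod.mk_sub_mk, add_zero, sub_zero] at he ⊢
    omega

open Classical in
/-- the disc of the box `[a, b]²` -/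
noncomputable def BQ (a b : ℤ) : Quad (VV a b) (MM a b) where
  en e c i := match c, i with
    | true, false => ⟨(src e.1, true), (en_mem e.2).1⟩
    | true, true => ⟨(tgt e.1, true), (en_mem e.2).2.1⟩
    | false, false => ⟨(pu e.1, false), (en_mem e.2).2.2.1⟩
    | false, true => ⟨(pl e.1, false), (en_mem e.2).2.2.2⟩
  pr z := z.1.2
  bd := univ.filter fun z => (z.1.2 = true ∧ z.1.1 ∈ bdry a b) ∨ (z.1.2 = false ∧ z.1.1 ∉ box a b)

/-- the configuration of squares given by a set of open edges -/
def cf (a b : ℤ) (η : Finset Ed) : MM a b → Bool := fun e => decide (e.1 ∈ η)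

end P0q
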