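import Pool.Agent.Lib.P0q.R5Aut

/-!
# Definitions for the infinite-volume part of the package P0q

Configurations `ω : Ed → Bool`, local events `{ω | A (op E ω)}`, the passive configuration `dl ω`,
the random-cluster measures as measures on configurations, weak limits.
`FreeLim q μ`: `μ` is the limit of the free measures on the boxes `[-n, n]²` on all local events.
`Good μ`: the properties of the free measure used in the Zhang–Burton–Keane argument.
-/

set_option autoImplicit false

open Finset P0de MeasureTheory Filter Topology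

namespace P0q

/-- the configuration on all edges of `ℤ²` in which exactly the edges of `η` are open -/
def conf (η : Finset Ed) : Ed → Bool := fun e => decide (e ∈ η)

/-- The random-cluster measure `RC^{qb}_{q,p}` on the domain `[a, b]²`, as a measure on
configurations on the edges of `ℤ²` (edges outside the domain are closed). -/
noncomputable def rcM (q qb p : ℝ) (a b : ℤ) : Measure (Ed → Bool) :=
  ∑ η ∈ (inner a (b + 1)).powerset, ENNReal.ofReal (rcW q qb p a b η /
    ∑ η' ∈ (inner a (b + 1)).powerset, rcW q qb p a b η') • Measure.dirac (conf η)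

/-- Weak convergence of measures on configurations (the space `Ed → Bool` is compact). -/
def WeakLim (μ : ℕ → Measure (Ed → Bool)) (ν : Measure (Ed → Bool)) : Prop :=
  ∀ f : (Ed → Bool) → ℝ, Continuous f →
    Tendsto (fun n => ∫ ω, f ω ∂(μ n)) atTop (𝓝 (∫ ω, f ω ∂ν))

/-- the open edges of `ω` in `E` -/
def op (E : Finset Ed) (ω : Ed → Bool) : Finset Ed := E.filter fun e => ω e = true

/-- the passive configuration: the passive edge `f` is open iff the edge `cr f` crossing it is closed -/
def dl (ω : Ed → Bool) : Ed → Bool := fun f => !(ω (cr f))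

/-- the edges of the box `[-n, n]²` -/
noncomputable abbrev EE (n : ℕ) : Finset Ed := inner (-(n : ℤ)) ((n : ℤ) + 1)

/-- `w n` (weights on the edges of `[-n, n]²`) converges to `μ` on all local events -/
def LocLim (w : ℕ → Finset Ed → ℝ) (μ : Measure (Ed → Bool)) : Prop :=
  ∀ (E : Finset Ed) (A : Finset Ed → Prop),
    Tendsto (fun n : ℕ => ev (EE n) (w n) (fun η => A (η ∩ E))) atTop
      (𝓝 (μ.real {ω | A (op E ω)}))

/-- The properties of the free measure used in section 6. -/
structure Good (μ : Measure (Ed → Bool)) : Prop where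
  prob : IsProbabilityMeasure μ
  /-- positive association -/
  fkg : ∀ (E : Finset Ed) (A B : Finset Ed → Prop), Up A → Up B →
    μ.real {ω | A (op E ω)} * μ.real {ω | B (op E ω)} ≤ μ.real {ω | A (op E ω) ∧ B (op E ω)}
  /-- invariance under the automorphisms of the lattice -/
  inv : ∀ φ : Aut, μ.map (fun ω e => ω (φ.g e)) = μ
  /-- mixing (lower bound), uniformly over the events outside a large box -/
  mix : ∀ (E : Finset Ed) (A : Finset Ed → Prop), Up A → ∀ ε > 0, ∃ N : ℕ,
    ∀ (E' : Finset Ed) (C : Finset Ed → Prop), Disjoint E' (EE N) →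
      (μ.real {ω | A (op E ω)} - ε) * μ.real {ω | C (op E' ω)} ≤
        μ.real {ω | A (op E ω) ∧ C (op E' ω)}
  /-- finite energy -/
  fe : ∀ E₀ : Finset Ed, ∃ c > 0, ∀ ζ ⊆ E₀, ∀ (E' : Finset Ed) (C : Finset Ed → Prop),
    Disjoint E' E₀ → c * μ.real {ω | C (op E' ω)} ≤ μ.real {ω | op E₀ ω = ζ ∧ C (op E' ω)}
  /-- the law of the passive configuration dominates `μ` -/
  dom : ∀ (E : Finset Ed) (A : Finset Ed → Prop), Up A →
    μ.real {ω | A (op E ω)} ≤ μ.real {ω | A (op E (dl ω))}

/-- no infinite cluster: the event that some site of `[-R, R]²` is connected inside `[-K, K]²` to its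
boundary -/
def Cross (R K : ℕ) (η : Finset Ed) : Prop :=
  ∃ x ∈ box (-(R : ℤ)) (R + 1), Tc (-(K : ℤ)) K (η ∩ EE K) x

theorem measurable_op (E : Finset Ed) (A : Finset Ed → Prop) :
    MeasurableSet {ω : Ed → Bool | A (op E ω)} := by
  classical
  have h : {ω : Ed → Bool | A (op E ω)} = ⋃ ζ ∈ E.powerset.filter A,
      {ω : Ed → Bool | op E ω = ζ} := by
    ext ω
    simp only [Set.mem_setOf_eq, Set.mem_iUnion, Finset.mem_filter, Finset.mem_powerset,
      exists_prop]
    constructor
    · intro h
      exact ⟨op E ω, ⟨Finset.filter_subset _ _, h⟩, rfl⟩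
    · rintro ⟨ζ, ⟨_, h⟩, rfl⟩
      exact h
  rw [h]
  apply Finset.measurableSet_biUnion
  intro ζ hζ
  have h2 : {ω : Ed → Bool | op E ω = ζ} = ⋂ e ∈ E, {ω : Ed → Bool | ω e = decide (e ∈ ζ)} := by
    have hζE : ζ ⊆ E := by
      have := (Finset.mem_filter.1 hζ).1
      exact Finset.mem_powerset.1 this
    ext ω
    simp only [Set.mem_setOf_eq, Set.mem_iInter, op]
    constructor
    · rintro rfl e he
      by_cases h : ω e = true
      · simp [h, he]
      · simp [h]
    · intro h
      ext e
      rw [Finset.mem_filter]
      constructor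
      · rintro ⟨he, h'⟩
        have := h e he
        rw [h'] at this
        exact of_decide_eq_true this.symm
      · intro he
        refine ⟨hζE he, ?_⟩
        rw [h e (hζE he)]
        exact decide_eq_true he
  rw [h2]
  apply Finset.measurableSet_biInter
  intro e _
  exact (measurable_pi_apply e) (MeasurableSet.singleton _)

end P0q
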