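import Pool.Agent.Lib.P0q.Defs2

/-!
# F0Defs: hypotheses of the final part

`Core q μ`: `μ` is the limit of the free measures on local events and has no infinite cluster (in the form `Cross`).
-/

set_option autoImplicit false

open Finset P0de MeasureTheory Filter Topology

namespace P0q

structure Core (q : ℝ) (μ : Measure (Ed → Bool)) : Prop where
  prob : IsProbabilityMeasure μ
  /-- free measures -/
  free : LocLim (fun _ => fw q) μ
  /-- limit of the free measures on the boxes `[-n, n-1]²` (increasing events) -/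
  free' : ∀ (E : Finset Ed) (A : Finset Ed → Prop), Up A →
    Tendsto (fun n : ℕ => ev (inner (-(n : ℤ)) n) (fw q) (fun η => A (η ∩ E))) atTop
      (𝓝 (μ.real {ω | A (op E ω)}))
  /-- no infinite cluster -/
  noinf : ∀ (R : ℕ) (ε : ℝ), 0 < ε → ∃ K : ℕ, R < K ∧ ∀ K' : ℕ, K ≤ K' →
    μ.real {ω | Cross R K' (op (EE K') ω)} < ε

/-- the wired measure on `[-n, n]²` -/
noncomputable abbrev Wn (q : ℝ) (n : ℕ) : Finset Ed → ℝ := rcW q 1 (pc q) (-(n : ℤ)) n

end P0q
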