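import Pool.Agent.Lib.P0q.F0Defs
import Pool.Agent.Lib.P0q.B10Am

/-!
# F1Shrink: deterministic localisation facts

`Tc_shrink`: `R ≤ n`, `x ∈ [-R, R]²`, `Tc (-n) n η x` implies `Tc (-R) R (η ∩ EE R) x`: follow the chain from `x` to `bdry (-n) n`; if `x ∈ bdry (-R) R` take
`x` itself. Otherwise prove by induction along the chain (from `x`): at each vertex `y` of the chain either `y ∈ box (-R+1) R`, i.e. in the
interior, and `Conn (η ∩ EE R) x y`, or some vertex of `bdry (-R) R` is already connected to `x` in `η ∩ EE R` (an edge at an interior site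
`y` of `[-R, R]²` has both ends in `[-R, R]²`; its other end is interior or in `bdry (-R) R`). At the end of the chain the vertex is in `bdry (-n) n`,
which is not interior for `R ≤ n`.

`cross_of`: if `x ∈ [-R₀, R₀]²`, `R₀ < R ≤ n`, then `Tc (-n) n η x → Cross R₀ R η`.

`am_split`: `η ⊆ EE n`, `R ≤ n`, `x ∈ [-R, R]²`: `Am η x y → Am (η ∩ EE R) x y ∨ Tc (-R) R (η ∩ EE R) x`: `Am_local` with `a = -R`,
`b = R`. `am_mono`: `Am (η ∩ E) x y → Am η x y` (`Am_up`).

`dual_loc`: for `E ⊆ inner (-n) n`: `dual (-n) n η ∩ E = E.filter (cr f ∉ η)` (`P0de.DualAux.mem_dual`), and for `E` with `cr f ∈ EE n`...: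
for `f ∈ E ⊆ inner (-n) n`: `f ∈ dual (-n) n η ↔ cr f ∉ η`.
`dual_cross`: a passive connection of a site `x ∈ [-R₀, R₀]²` in `dual (-n) n η` to a site not in `box (-n) n`, `R₀ < R < n`, implies
`Cross R₀ R (dual (-n) n η ∩ inner (-n) n)`: as in `Tc_shrink` (chain from `x`; the first visit to `bdry (-R) R`; `EE R ⊆ inner (-n) n`
for `R < n`, and sites not in `box (-n) n = [-n, n)²` are not interior to `[-R, R]²`).
-/

set_option autoImplicit false

open Finset P0de MeasureTheory Filter Topology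

namespace P0q

namespace F1ShrinkAux

/-- first visit to the boundary of the box `[a, b]²` -/
theorem first {a b : ℤ} {η : Finset Ed} {x z : Site} (hx : x ∈ box a (b + 1))
    (hc : Conn η x z) (hz : z ∉ box (a + 1) b) : Tc a b (η ∩ inner a (b + 1)) x := by
  by_contra h
  have hin : ∀ e : Ed, (src e ∈ box (a + 1) b ∨ tgt e ∈ box (a + 1) b) → e ∈ inner a (b + 1) := by
    rintro ⟨⟨i, j⟩, c⟩ h
    rw [DualAux.mem_inner, DualAux.mem_box, DualAux.mem_box]
    rw [DualAux.mem_box, DualAux.mem_box] at h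
    cases c
    · simp only [src, tgt, dir, cond_false, Prod.mk_add_mk, add_zero] at h ⊢
      omega
    · simp only [src, tgt, dir, cond_true, Prod.mk_add_mk, add_zero] at h ⊢
      omega
  have hnb : ∀ y, y ∈ box a (b + 1) → Conn (η ∩ inner a (b + 1)) x y → y ∈ box (a + 1) b := by
    intro y hy hc
    by_contra hn
    exact h ⟨y, by rw [bdry, Finset.mem_sdiff]; exact ⟨hy, hn⟩, hc⟩
  have key : ∀ y, Conn η x y → Conn (η ∩ inner a (b + 1)) x y ∧ y ∈ box (a + 1) b := by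
    intro y hy
    unfold Conn at hy
    induction hy with
    | refl => exact ⟨Relation.ReflTransGen.refl, hnb x hx Relation.ReflTransGen.refl⟩
    | @tail u v _ huv ih =>
      obtain ⟨e, he, hev⟩ := huv
      have hei : e ∈ inner a (b + 1) := by
        apply hin
        rcases hev with ⟨h1, -⟩ | ⟨-, h1⟩
        · exact Or.inl (h1 ▸ ih.2)
        · exact Or.inr (h1 ▸ ih.2)
      have hc : Conn (η ∩ inner a (b + 1)) x v :=
        Relation.ReflTransGen.tail ih.1 ⟨e, Finset.mem_inter.2 ⟨he, hei⟩, hev⟩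
      refine ⟨hc, hnb v ?_ hc⟩
      rw [DualAux.mem_inner] at hei
      rcases hev with ⟨-, h1⟩ | ⟨h1, -⟩
      · exact h1 ▸ hei.2
      · exact h1 ▸ hei.1
  exact hz (key z hc).2

theorem box_mono {a b c d : ℤ} (h1 : a ≤ c) (h2 : d ≤ b) {x : Site} (hx : x ∈ box c d) :
    x ∈ box a b := by
  rw [DualAux.mem_box] at hx ⊢
  omega

end F1ShrinkAux

open F1ShrinkAux

theorem Tc_shrink {R n : ℕ} (hR : R ≤ n) {η : Finset Ed} {x : Site}
    (hx : x ∈ box (-(R : ℤ)) (R + 1)) (h : Tc (-(n : ℤ)) n η x) :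
    Tc (-(R : ℤ)) R (η ∩ EE R) x := by
  obtain ⟨y, hy, hc⟩ := h
  refine first hx hc fun hb => ?_
  rw [bdry, Finset.mem_sdiff] at hy
  exact hy.2 (box_mono (by omega) (by omega) hb)

theorem cross_of {R₀ R n : ℕ} (h0 : R₀ ≤ R) (hR : R ≤ n) {η : Finset Ed} {x : Site}
    (hx : x ∈ box (-(R₀ : ℤ)) (R₀ + 1)) (h : Tc (-(n : ℤ)) n η x) : Cross R₀ R η :=
  ⟨x, hx, Tc_shrink hR (box_mono (by omega) (by omega) hx) h⟩

theorem Cross_up (R K : ℕ) : Up (Cross R K) := by
  rintro η η' h ⟨x, hx, y, hy, hc⟩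
  exact ⟨x, hx, y, hy, hc.mono (inter_subset_inter_right h)⟩

theorem am_split {R : ℕ} {η : Finset Ed} {x : Site} (y : Site)
    (hx : x ∈ box (-(R : ℤ)) (R + 1)) (h : Am η x y) :
    Am (η ∩ EE R) x y ∨ Tc (-(R : ℤ)) R (η ∩ EE R) x := by
  by_cases ht : Tc (-(R : ℤ)) R (η ∩ EE R) x
  · exact Or.inr ht
  · exact Or.inl ((Am_local y hx ht).1 h)

theorem am_mono {η E : Finset Ed} {x y : Site} (h : Am (η ∩ E) x y) : Am η x y :=
  Am_up x y _ _ inter_subset_left h

theorem dual_loc {n : ℕ} {E : Finset Ed} (hE : E ⊆ inner (-(n : ℤ)) n) (η : Finset Ed) :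
    dual (-(n : ℤ)) n η ∩ E = E.filter fun f => cr f ∉ η := by
  ext f
  rw [Finset.mem_inter, mem_filter]
  constructor
  · rintro ⟨h1, h2⟩
    exact ⟨h2, (P0de.mem_dual (hE h2)).1 h1⟩
  · rintro ⟨h1, h2⟩
    exact ⟨(P0de.mem_dual (hE h1)).2 h2, h1⟩

theorem EE_sub {R n : ℕ} (h : R < n) : EE R ⊆ inner (-(n : ℤ)) n := by
  intro e he
  rw [EE, DualAux.mem_inner] at he
  rw [DualAux.mem_inner]
  exact ⟨box_mono (by omega) (by omega) he.1, box_mono (by omega) (by omega) he.2⟩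

theorem dual_cross {R₀ R n : ℕ} (h0 : R₀ ≤ R) (hR : R < n) {η : Finset Ed} {x q' : Site}
    (hx : x ∈ box (-(R₀ : ℤ)) (R₀ + 1)) (hq : q' ∉ box (-(n : ℤ)) n)
    (h : Conn (dual (-(n : ℤ)) n η) x q') :
    Cross R₀ R (dual (-(n : ℤ)) n η ∩ inner (-(n : ℤ)) n) := by
  refine ⟨x, hx, ?_⟩
  rw [inter_assoc, inter_eq_right.2 (EE_sub hR)]
  exact first (box_mono (by omega) (by omega) hx) h
    fun hb => hq (box_mono (by omega) (by omega) hb)

end P0q
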