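import Pool.Agent.Lib.P0q.R7NuDom
import Pool.Agent.Lib.P0q.B10Am

/-!
# R9Half: the bound 1/2 for `RC^{qb}`, `√q < qb ≤ w√q` ((3.1) and the first half of (7.1) of Q4_proof.md)

`C = 1/2 + 1/(2 tanh (lam q))`. By `nu_ineq` for the disc of the box (`κ = lam q/4`, corner `{x, y}`, `x` active, `y` passive), divided by the total
weight (`sum_cf`, `am_side`, and `∃ z ∈ bd, Con ω x z ↔ Tc a b η x`: `con_act`, `Con_pr`, `mem_bd_act`):
`1/2 ≤ P_ν(Am η x y) + C P_ν(Tc a b η x)`. Both events are increasing (`Am_up`; `Tc`: `Conn.mono`), so `nu_dom` (`mono_ind`) gives the same for `RC^{qb}`.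
-/

set_option autoImplicit false

open Finset P0de

namespace P0q

theorem Tc_up (a b : ℤ) (x : Site) : Up (fun η => Tc a b η x) := by
  rintro η η' h ⟨y, hy, hc⟩
  exact ⟨y, hy, hc.mono h⟩

namespace R9HalfAux

theorem crn_bd {a b : ℤ} (hab : a < b) (i : Fin 4) : crn a b hab i ∈ (BQ a b).bd := by
  have h : ∀ x : Site, ∀ hx : (x, true) ∈ VS a b, x ∈ bdry a b →
      (⟨(x, true), hx⟩ : VV a b) ∈ (BQ a b).bd := fun x hx hb => (mem_bd_act hx).2 hb
  have hm : ∀ x : Site, x ∈ box a (b + 1) → (x.1 = a ∨ x.1 = b ∨ x.2 = a ∨ x.2 = b) →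
      x ∈ bdry a b := by
    intro x h1 h2
    rw [bdry, mem_sdiff]
    refine ⟨h1, ?_⟩
    rw [P0de.mem_box]
    omega
  have hc := corner_mem hab
  simp only [mem_VS_true] at hc
  fin_cases i
  · exact h _ _ (hm _ hc.1 (by simp))
  · exact h _ _ (hm _ hc.2.1 (by simp))
  · exact h _ _ (hm _ hc.2.2.1 (by simp))
  · exact h _ _ (hm _ hc.2.2.2 (by simp))

theorem con_bd {a b : ℤ} {η : Finset Ed} (hη : η ⊆ inner a (b + 1)) {x : Site}
    (hx : x ∈ box a (b + 1)) (hab : a < b) :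
    (∃ z ∈ (BQ a b).bd, (BQ a b).Con (cf a b η) ⟨(x, true), mem_VS_true.2 hx⟩ z) ↔
      Tc a b η x := by
  constructor
  · rintro ⟨z, hz, hc⟩
    have hp := (BQ a b).Con_pr (isDisc hab) _ hc
    obtain ⟨⟨z, c⟩, hzm⟩ := z
    have hc' : c = true := hp.symm
    subst hc'
    exact ⟨z, (mem_bd_act hzm).1 hz, (con_act hη _ _).1 hc⟩
  · rintro ⟨y, hy, hc⟩
    have hyb := Conn_mem hη hx hc
    exact ⟨⟨(y, true), mem_VS_true.2 hyb⟩, (mem_bd_act _).2 hy, (con_act hη _ _).2 hc⟩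

end R9HalfAux

open R9HalfAux

theorem rc_half {q : ℝ} (hq : 4 < q) : ∃ w C : ℝ, 1 < w ∧ w * √q ≤ q ∧ 0 < C ∧
    ∀ (a b : ℤ), a < b → ∀ qb : ℝ, 1 ≤ qb → qb ≤ w * √q → ∀ x y : Site, x ∈ box a (b + 1) →
      y ∈ nbP x → y ∈ pas a b →
      1 / 2 ≤ ev (inner a (b + 1)) (rcW q qb (pc q) a b) (fun η => Am η x y) +
        C * ev (inner a (b + 1)) (rcW q qb (pc q) a b) (fun η => Tc a b η x) := by
  classical
  obtain ⟨θ, w, hw1, hw2, hdom⟩ := nu_dom hq
  obtain ⟨hl0, hl1, hl2⟩ := lam_spec hq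
  have htanh : 0 < Real.tanh (lam q) := by
    rw [Real.tanh_eq_sinh_div_cosh]
    exact div_pos (Real.sinh_pos_iff.2 hl0) (Real.cosh_pos _)
  refine ⟨w, 1 / 2 + 1 / (2 * Real.tanh (lam q)), hw1, hw2, by positivity, ?_⟩
  intro a b hab qb hqb1 hqb2 x y hx hy hyp
  have hxV : (x, true) ∈ VS a b := mem_VS_true.2 hx
  have hyV : (y, false) ∈ VS a b := mem_VS_false.2 hyp
  have hC0 : 0 ≤ 1 / 2 + 1 / (2 * Real.tanh (lam q)) := by positivity
  -- the inequality for the free heights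
  have hkey := (BQ a b).nu_ineq (isDisc hab) (crn_bd hab 0) (crn_bd hab 0) (crn_bd hab 2)
    (lam q / 4) θ (by positivity) (x := ⟨(x, true), hxV⟩) (y := ⟨(y, false), hyV⟩)
    ((cor_box hab hxV hyV).2 hy) rfl
  rw [show 4 * (lam q / 4) = lam q by ring] at hkey
  rw [← sum_cf, ← sum_cf, ← sum_cf] at hkey
  have hpos : ∀ η ⊆ inner a (b + 1), 0 < nuW q θ a b hab η := fun η _ => nuW_pos θ hab η
  have hsum : 0 < ∑ η ∈ (inner a (b + 1)).powerset, nuW q θ a b hab η :=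
    Finset.sum_pos (fun η hη => hpos η (mem_powerset.1 hη)) ⟨∅, mem_powerset.2 (empty_subset _)⟩
  have hkey1 : 1 / 2 * ∑ η ∈ (inner a (b + 1)).powerset, nuW q θ a b hab η ≤
      (∑ η ∈ (inner a (b + 1)).powerset, nuW q θ a b hab η * ind (fun η => Am η x y) η) +
      (1 / 2 + 1 / (2 * Real.tanh (lam q))) *
        ∑ η ∈ (inner a (b + 1)).powerset, nuW q θ a b hab η * ind (fun η => Tc a b η x) η := by
    refine le_trans hkey (add_le_add (le_of_eq ?_)
      (mul_le_mul_of_nonneg_left (le_of_eq ?_) hC0))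
    · refine Finset.sum_congr rfl fun η hη => ?_
      have h := am_side hab (mem_powerset.1 hη) hxV hyV hy
      unfold ind nuW
      by_cases hA : Am η x y
      · rw [if_pos (h.1 hA), if_pos hA, mul_one]
      · rw [if_neg (fun h' => hA (h.2 h')), if_neg hA, mul_zero]
    · refine Finset.sum_congr rfl fun η hη => ?_
      have h := con_bd (mem_powerset.1 hη) hx hab
      unfold ind nuW
      by_cases hA : Tc a b η x
      · rw [if_pos (h.2 hA), if_pos hA, mul_one]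
      · rw [if_neg (fun h' => hA (h.1 h')), if_neg hA, mul_zero]
  have hkey2 : 1 / 2 ≤ ev (inner a (b + 1)) (nuW q θ a b hab) (fun η => Am η x y) +
      (1 / 2 + 1 / (2 * Real.tanh (lam q))) *
        ev (inner a (b + 1)) (nuW q θ a b hab) (fun η => Tc a b η x) := by
    unfold ev ex
    rw [← mul_div_assoc, ← add_div, le_div_iff₀ hsum]
    exact hkey1
  have h1 := hdom a b hab qb hqb1 hqb2 (ind fun η => Am η x y) (mono_ind (Am_up x y))
  have h2 := hdom a b hab qb hqb1 hqb2 (ind fun η => Tc a b η x) (mono_ind (Tc_up a b x))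
  have h3 := mul_le_mul_of_nonneg_left h2 hC0
  unfold ev at hkey2 ⊢
  linarith

end P0q
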