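import Pool.Agent.Lib.P0q.F1Shrink
import Pool.Agent.Lib.P0q.R9Half

/-!
# F2Half: the bound 1/2 in the limit ((7.1) of Q4_proof.md)

Let `w, C` be given by `rc_half` (for this module: hypotheses `hC`, `hrc`), `qb ∈ [1, w√q]`, and suppose that
`rcW q qb (pc q) (-n) n` converges to `μ` on all local events (`hB`). Fix `x`, `y ∈ nbP x`, `ε > 0`. Choose `R₀` with `x ∈ box (-R₀) (R₀+1)` and, by `Core.noinf`,
`R > R₀` such that `μ(Cross R₀ R') < ε/(C + 1)` for `R' = R` and all larger; enlarge `R` so that also `y ∈ box (-R) R`. For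
`n > R`: `rc_half` with `a = -n`, `b = n` (`y ∈ box (-n) n ⊆ pas`, `mem_pas`): `1/2 ≤ P_n(Am η x y) + C P_n(Tc (-n) n η x)`. For `η ⊆ EE n`:
`Tc (-n) n η x` implies `Tc (-R) R (η ∩ EE R) x` (`Tc_shrink`), hence `Cross R₀ R (η ∩ EE R)`; `am_split`. So
`1/2 ≤ P_n(Am (η ∩ EE R) x y) + (C + 1) P_n(Cross R₀ R (η ∩ EE R))` (`ev_or`, `ev_le`). Let `n → ∞` (`hB` for `E = EE R`; note
`Cross R₀ R (η ∩ EE R)` is the event `Cross R₀ R` evaluated at `η ∩ EE R`): `1/2 ≤ μ(Am (op (EE R) ω) x y) + ε`.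
The statement holds for this `R` and, since `Am (op (EE R) ω) x y` is increasing in `R` (`EE R ⊆ EE R'`, `Am_up`), for all larger `R'`.
-/

set_option autoImplicit false

open Finset P0de MeasureTheory Filter Topology

namespace P0q

theorem half_lim {q : ℝ} (hq : 4 < q) {μ : Measure (Ed → Bool)} (hμ : Core q μ) {C qb : ℝ}
    (hC : 0 < C) (hqb : 1 ≤ qb)
    (hrc : ∀ (a b : ℤ), a < b → ∀ x y : Site, x ∈ box a (b + 1) →
      y ∈ nbP x → y ∈ pas a b →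
      1 / 2 ≤ ev (inner a (b + 1)) (rcW q qb (pc q) a b) (fun η => Am η x y) +
        C * ev (inner a (b + 1)) (rcW q qb (pc q) a b) (fun η => Tc a b η x))
    (hB : LocLim (fun n => rcW q qb (pc q) (-(n : ℤ)) n) μ) {x y : Site} (hy : y ∈ nbP x) {ε : ℝ}
    (hε : 0 < ε) :
    ∃ R : ℕ, ∀ R' : ℕ, R ≤ R' → 1 / 2 - ε ≤ μ.real {ω | Am (op (EE R') ω) x y} := by
  obtain ⟨R₀, hR₀⟩ : ∃ R₀ : ℕ, R₀ = x.1.natAbs + x.2.natAbs := ⟨_, rfl⟩
  have hxn : ∀ n : ℕ, R₀ ≤ n → x ∈ box (-(n : ℤ)) (n + 1) := by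
    intro n hn
    rw [P0de.mem_box]
    omega
  have hyx : (x.1 - 1 ≤ y.1 ∧ y.1 ≤ x.1) ∧ x.2 - 1 ≤ y.2 ∧ y.2 ≤ x.2 := by
    obtain ⟨x1, x2⟩ := x
    obtain ⟨y1, y2⟩ := y
    simp only [nbP, mem_insert, mem_singleton, Prod.mk_sub_mk, Prod.mk.injEq] at hy
    simp only
    omega
  have hyn : ∀ n : ℕ, R₀ + 2 ≤ n → y ∈ pas (-(n : ℤ)) n := by
    intro n hn
    rw [mem_pas]
    left
    omega
  have hC1 : 0 < C + 1 := by linarith
  obtain ⟨K, hK, hKε⟩ := hμ.noinf R₀ (ε / (C + 1)) (div_pos hε hC1)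
  refine ⟨K + 2, fun R hR => ?_⟩
  have hcr := hKε R (by omega)
  have hW : ∀ n : ℕ, ∀ η ⊆ EE n, 0 < rcW q qb (pc q) (-(n : ℤ)) n η := fun n η _ =>
    rcW_pos (by linarith) (by linarith) _ _ _
  have hstep : ∀ n : ℕ, R ≤ n → 1 / 2 ≤
      ev (EE n) (rcW q qb (pc q) (-(n : ℤ)) n) (fun η => Am (η ∩ EE R) x y) +
        (C + 1) * ev (EE n) (rcW q qb (pc q) (-(n : ℤ)) n) (fun η => Cross R₀ R (η ∩ EE R)) := by
    intro n hn
    have hT : ∀ η : Finset Ed, Tc (-(R : ℤ)) R (η ∩ EE R) x → Cross R₀ R (η ∩ EE R) := by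
      intro η h
      refine ⟨x, hxn R₀ le_rfl, ?_⟩
      rw [inter_assoc, inter_self]
      exact h
    have h1 := hrc (-(n : ℤ)) n (by omega) x y (hxn n (by omega)) hy (hyn n (by omega))
    have h2 : ev (EE n) (rcW q qb (pc q) (-(n : ℤ)) n) (fun η => Am η x y) ≤
        ev (EE n) (rcW q qb (pc q) (-(n : ℤ)) n) (fun η => Am (η ∩ EE R) x y) +
        ev (EE n) (rcW q qb (pc q) (-(n : ℤ)) n) (fun η => Cross R₀ R (η ∩ EE R)) := by
      refine le_trans (ev_le (hW n) (B := fun η => Am (η ∩ EE R) x y ∨ Cross R₀ R (η ∩ EE R))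
        ?_) (ev_or (hW n) _ _)
      intro η _ hA
      rcases am_split y (hxn R (by omega)) hA with h | h
      · exact Or.inl h
      · exact Or.inr (hT η h)
    have h3 : ev (EE n) (rcW q qb (pc q) (-(n : ℤ)) n) (fun η => Tc (-(n : ℤ)) n η x) ≤
        ev (EE n) (rcW q qb (pc q) (-(n : ℤ)) n) (fun η => Cross R₀ R (η ∩ EE R)) := by
      refine ev_le (hW n) ?_
      intro η _ h
      exact hT η (Tc_shrink hn (hxn R (by omega)) h)
    have h4 := mul_le_mul_of_nonneg_left h3 hC.le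
    linarith
  have hlim := (hB (EE R) (fun ζ => Am ζ x y)).add
    ((hB (EE R) (fun ζ => Cross R₀ R ζ)).const_mul (C + 1))
  have hge := ge_of_tendsto hlim (eventually_atTop.2 ⟨R, fun n hn => hstep n hn⟩)
  have h5 : (C + 1) * μ.real {ω | Cross R₀ R (op (EE R) ω)} ≤ ε := by
    calc (C + 1) * μ.real {ω | Cross R₀ R (op (EE R) ω)} ≤ (C + 1) * (ε / (C + 1)) :=
          mul_le_mul_of_nonneg_left hcr.le hC1.le
      _ = ε := mul_div_cancel₀ ε hC1.ne'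
  linarith

end P0q
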