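import Pool.Agent.Lib.P0q.R3Rc

/-!
# R6Dual: the passive configuration of the wired measure is free

`a < b`, `q ≥ 1`. `P0de.rcW_dual` with `u = q^{1/16} ≥ 1` (`u^16 = q`, `P0de.exists_u`) and `qb = 1`: for `η ⊆ inner a (b+1)`
`rcW q 1 (pc q) a b η = C · gw u q a b (stubs a b) (dual a b η)`. For `ω = dual a b η = ω₁ ∪ ω₂`, `ω₁ = ω ∩ inner a b`, `ω₂ = ω ∩ stubs a b`
(disjoint: `P0de.inner_disj_stubs`):
`gw = u^{8|ω|} u^{16 kInt} q^{kStub + |stubs \ ω|} = (√q)^{|ω₁|} q^{kInt + kStub} · (√q)^{|ω₂|} q^{|stubs \ ω₂|}` and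
`kInt + kStub = |clus (box a b) ω₁| = |box a b| - rk ω₁` (`rk_eq`). So `gw = q^{|box a b|} fw q ω₁ · s(ω₂)`, `s > 0`.
`η ↦ dual a b η` is a bijection of `(inner a (b+1)).powerset` onto `(inner a b ∪ stubs a b).powerset` (`P0de.dual_bij`), and
`ω ↦ (ω₁, ω₂)` a bijection onto `(inner a b).powerset × (stubs a b).powerset`. So for every `G`:
`∑_η rcW · G (dual a b η ∩ inner a b) = C q^{|box|} (∑_{ω₁} fw ω₁ G ω₁) (∑_{ω₂} s ω₂)`; divide by the same with `G = 1`.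
-/

set_option autoImplicit false

open Finset P0de

namespace P0q

namespace R6DualAux

open P0de.DualAux

theorem inter_left {A B ω₁ ω₂ : Finset Ed} (hd : Disjoint A B) (h1 : ω₁ ⊆ A) (h2 : ω₂ ⊆ B) :
    (ω₁ ∪ ω₂) ∩ A = ω₁ := by
  ext e
  rw [mem_inter, mem_union]
  constructor
  · rintro ⟨h | h, h3⟩
    · exact h
    · exact absurd (h2 h) (disjoint_left.1 hd h3)
  · intro h
    exact ⟨Or.inl h, h1 h⟩

theorem sdiff_right {A B ω₁ ω₂ : Finset Ed} (hd : Disjoint A B) (h1 : ω₁ ⊆ A) :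
    B \ (ω₁ ∪ ω₂) = B \ ω₂ := by
  ext e
  rw [mem_sdiff, mem_sdiff, mem_union]
  constructor
  · rintro ⟨h, h'⟩
    exact ⟨h, fun h2 => h' (Or.inr h2)⟩
  · rintro ⟨h, h'⟩
    refine ⟨h, ?_⟩
    rintro (h2 | h2)
    · exact disjoint_left.1 hd (h1 h2) h
    · exact h' h2

theorem ends_sub {a b : ℤ} {ω : Finset Ed} (h : ω ⊆ inner a b) : ends ω ⊆ box a b := by
  intro x hx
  rw [ends, mem_union, mem_image, mem_image] at hx
  rcases hx with ⟨e, he, rfl⟩ | ⟨e, he, rfl⟩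
  · exact (P0de.mem_inner.1 (h he)).1
  · exact (P0de.mem_inner.1 (h he)).2

/-- the weight of the stubs -/
noncomputable def sw (q : ℝ) (a b : ℤ) (ω : Finset Ed) : ℝ :=
  (√q) ^ ω.card * q ^ (stubs a b \ ω).card

theorem gw_split {u : ℝ} (hu : 1 ≤ u) {a b : ℤ} {ω₁ ω₂ : Finset Ed} (h1 : ω₁ ⊆ inner a b)
    (h2 : ω₂ ⊆ stubs a b) : gw u (u ^ 16 / 1) a b (stubs a b) (ω₁ ∪ ω₂) =
      (u ^ 16) ^ (box a b).card * fw (u ^ 16) ω₁ * sw (u ^ 16) a b ω₂ := by
  have hu0 : 0 < u := by linarith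
  have hd := inner_disj_stubs a b
  have hd' : Disjoint ω₁ ω₂ := disjoint_of_subset_left h1 (disjoint_of_subset_right h2 hd)
  have hs : √(u ^ 16) = u ^ 8 := by
    rw [show u ^ 16 = (u ^ 8) ^ 2 by ring]
    exact Real.sqrt_sq (by positivity)
  have e1 : kInt a b (ω₁ ∪ ω₂) + kStub a b (ω₁ ∪ ω₂) = (clus (box a b) ω₁).card := by
    classical
    rw [kInt, kStub, inter_left hd h1 h2, add_comm]
    exact card_filter_add_card_filter_not _
  have e2 : rk ω₁ + (clus (box a b) ω₁).card = (box a b).card := rk_eq (ends_sub h1)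
  rw [gw, sw, fw, card_union_of_disjoint hd', sdiff_right hd h1, hs, div_one]
  rw [← e2, ← e1]
  have hr : (u ^ 16) ^ rk ω₁ ≠ 0 := by positivity
  field_simp
  ring

/-- a sum over the subsets of a disjoint union -/
theorem sum_split {A B : Finset Ed} (hd : Disjoint A B) (F : Finset Ed → ℝ) :
    ∑ ω ∈ (A ∪ B).powerset, F ω = ∑ ω₁ ∈ A.powerset, ∑ ω₂ ∈ B.powerset, F (ω₁ ∪ ω₂) := by
  rw [← sum_product']
  apply sum_nbij' (fun ω => (ω ∩ A, ω ∩ B)) (fun p => p.1 ∪ p.2)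
  · intro ω _
    rw [mem_product, mem_powerset, mem_powerset]
    exact ⟨inter_subset_right, inter_subset_right⟩
  · rintro ⟨ω₁, ω₂⟩ h
    rw [mem_product, mem_powerset, mem_powerset] at h
    rw [mem_powerset]
    exact union_subset_union h.1 h.2
  · intro ω hω
    rw [mem_powerset] at hω
    simp only
    rw [← inter_union_distrib_left, inter_eq_left]
    exact hω
  · rintro ⟨ω₁, ω₂⟩ h
    rw [mem_product, mem_powerset, mem_powerset] at h
    have h1 : (ω₁ ∪ ω₂) ∩ A = ω₁ := inter_left hd h.1 h.2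
    have h2 : (ω₁ ∪ ω₂) ∩ B = ω₂ := by
      rw [union_comm]
      exact inter_left hd.symm h.2 h.1
    simp only
    rw [h1, h2]
  · intro ω hω
    rw [mem_powerset] at hω
    simp only
    rw [← inter_union_distrib_left, inter_eq_left.2 hω]

theorem main {q : ℝ} (hq : 1 ≤ q) {a b : ℤ} (hab : a < b) : ∃ K : ℝ, 0 < K ∧
    ∀ G : Finset Ed → ℝ, ∑ η ∈ (inner a (b + 1)).powerset,
      rcW q 1 (pc q) a b η * G (dual a b η ∩ inner a b) =
        K * ∑ ω ∈ (inner a b).powerset, fw q ω * G ω := by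
  obtain ⟨u, hu, hqu, -⟩ := exists_u (u₀ := 1) (q := q) le_rfl (by simpa using hq)
  subst hqu
  obtain ⟨C, hC, hdual⟩ := rcW_dual (u := u) (qb := 1) hu one_pos hab
  have hu0 : 0 < u := by linarith
  have hd := inner_disj_stubs a b
  have hs : 0 < ∑ ω ∈ (stubs a b).powerset, sw (u ^ 16) a b ω := by
    apply sum_pos
    · intro ω _
      unfold sw
      have : 0 < √(u ^ 16) := Real.sqrt_pos.2 (by positivity)
      positivity
    · exact powerset_nonempty _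
  refine ⟨C * (u ^ 16) ^ (box a b).card * ∑ ω ∈ (stubs a b).powerset, sw (u ^ 16) a b ω,
    by positivity, ?_⟩
  intro G
  have hb := dual_bij (a := a) (b := b) hab
  have e1 : ∑ η ∈ (inner a (b + 1)).powerset,
      rcW (u ^ 16) 1 (pc (u ^ 16)) a b η * G (dual a b η ∩ inner a b) =
      ∑ ω ∈ (inner a b ∪ stubs a b).powerset,
        C * gw u (u ^ 16 / 1) a b (stubs a b) ω * G (ω ∩ inner a b) := by
    apply sum_nbij (dual a b)
    · intro η hη
      exact mem_coe.1 (hb.mapsTo (mem_coe.2 hη))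
    · exact hb.injOn
    · exact hb.surjOn
    · intro η hη
      rw [hdual η (mem_powerset.1 hη)]
  rw [e1, sum_split hd, mul_assoc, mul_sum]
  rw [mul_sum]
  apply sum_congr rfl
  intro ω₁ h1
  rw [mem_powerset] at h1
  have e2 : ∀ ω₂ ∈ (stubs a b).powerset,
      C * gw u (u ^ 16 / 1) a b (stubs a b) (ω₁ ∪ ω₂) * G ((ω₁ ∪ ω₂) ∩ inner a b) =
      (C * (u ^ 16) ^ (box a b).card * fw (u ^ 16) ω₁ * G ω₁) * sw (u ^ 16) a b ω₂ := by
    intro ω₂ h2
    rw [mem_powerset] at h2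
    rw [gw_split hu h1 h2, inter_left hd h1 h2]
    ring
  rw [sum_congr rfl e2, ← mul_sum]
  ring

end R6DualAux

theorem dual_law {q : ℝ} (hq : 1 ≤ q) {a b : ℤ} (hab : a < b) (G : Finset Ed → ℝ) :
    ex (inner a (b + 1)) (rcW q 1 (pc q) a b) (fun η => G (dual a b η ∩ inner a b)) =
      ex (inner a b) (fw q) G := by
  obtain ⟨K, hK, h⟩ := R6DualAux.main hq hab
  have h1 := h (fun _ => 1)
  simp only [mul_one] at h1
  unfold ex
  rw [h G, h1, mul_div_mul_left _ _ hK.ne']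

end P0q
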