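import Pool.Agent.Lib.P0q.F1Shrink
import Pool.Agent.Lib.P0q.B11AmD
import Pool.Agent.Lib.P0q.R6Dual

/-!
# F3FW: free and wired probabilities of the enclosing events (end of (7.1), (7.2) of Q4_proof.md)

Hypothesis `hH`: the conclusion of `half_lim` for all corners.

`free_half`: for all `x`, `y ∈ nbP x`, `ε > 0`, eventually `1/2 - ε ≤ ev (EE n) (fw q) (Am η x y)`: choose `R` with
`μ(Am (op (EE R) ω) x y) ≥ 1/2 - ε/2`; `ev (EE n) (fw q) (Am (η ∩ EE R) x y)` converges to it (`Core.free`) and is at most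
`ev (EE n) (fw q) (Am η x y)` (`am_mono`, `ev_le`).

`wired_half`: eventually `ev (EE n) (Wn q n) (Am η x y) ≤ 1/2 + ε`. For large `n` (`x ∈ box (-n) (n+1)`, `y ∈ box (-n) n`, so `y ∈ pas (-n) n`, `mem_pas`)
`am_disj` with `a = -n`, `b = n`: the events `Am η x y` and `Am (dual (-n) n η) y (x - (1,1))` are disjoint, so
`P_W(Am η x y) ≤ 1 - P_W(Am (dual η) y x')`, `x' = x - (1,1)`. And `P_W(Am (dual η) y x') ≥ P_W(Am (dual η ∩ inner (-n) n ∩ EE R) y x')`
(`am_mono`) `= ev (inner (-n) n) (fw q) (Am (η ∩ EE R) y x')` (`dual_law` with `G = ind ...`, `η ∩ inner (-n) n = η` on the right) `→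
μ(Am (op (EE R) ω) y x') ≥ 1/2 - ε/2` (`Core.free'`; `x' ∈ nbP y` because `y ∈ nbP x`: four cases).
-/

set_option autoImplicit false

open Finset P0de MeasureTheory Filter Topology

namespace P0q

/-- the conclusion of `half_lim` for all corners -/
def HalfAll (μ : Measure (Ed → Bool)) : Prop := ∀ x y : Site, y ∈ nbP x → ∀ ε : ℝ, 0 < ε →
  ∃ R : ℕ, ∀ R' : ℕ, R ≤ R' → 1 / 2 - ε ≤ μ.real {ω | Am (op (EE R') ω) x y}

namespace F3FWAux

theorem nbP_back {x y : Site} (hy : y ∈ nbP x) : x - (1, 1) ∈ nbP y := by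
  obtain ⟨i, j⟩ := x
  obtain ⟨k, l⟩ := y
  simp only [nbP, mem_insert, mem_singleton, Prod.mk_sub_mk, Prod.mk.injEq] at hy ⊢
  omega

theorem pos_fw {q : ℝ} (hq : 4 < q) (η : Finset Ed) : 0 < fw q η := fw_pos (by linarith) η

theorem pos_Wn {q : ℝ} (hq : 4 < q) (n : ℕ) (η : Finset Ed) : 0 < Wn q n η :=
  rcW_pos (by linarith) one_pos _ _ η

/-- `dual_law` for events -/
theorem dual_ev {q : ℝ} (hq : 4 < q) {n : ℕ} (hn : 0 < n) (A : Finset Ed → Prop) :
    ev (EE n) (Wn q n) (fun η => A (dual (-(n : ℤ)) n η ∩ inner (-(n : ℤ)) n)) =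
      ev (inner (-(n : ℤ)) n) (fw q) A := by
  have h := dual_law (q := q) (by linarith) (a := -(n : ℤ)) (b := n) (by omega) (ind A)
  unfold ev
  rw [← h]
  rfl

end F3FWAux

open F3FWAux

theorem free_half {q : ℝ} (hq : 4 < q) {μ : Measure (Ed → Bool)} (hμ : Core q μ)
    (hH : HalfAll μ) {x y : Site} (hy : y ∈ nbP x) {ε : ℝ} (hε : 0 < ε) :
    ∀ᶠ n : ℕ in atTop, 1 / 2 - ε ≤ ev (EE n) (fw q) (fun η => Am η x y) := by
  obtain ⟨R, hR⟩ := hH x y hy (ε / 2) (by linarith)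
  have h1 := hR R le_rfl
  have h2 := hμ.free (EE R) (fun η => Am η x y)
  have h3 : 1 / 2 - ε < μ.real {ω | Am (op (EE R) ω) x y} := by linarith
  filter_upwards [h2.eventually (lt_mem_nhds h3)] with n hn
  refine hn.le.trans ?_
  exact ev_le (fun η _ => pos_fw hq η) (fun η _ h => am_mono h)

theorem wired_half {q : ℝ} (hq : 4 < q) {μ : Measure (Ed → Bool)} (hμ : Core q μ)
    (hH : HalfAll μ) {x y : Site} (hy : y ∈ nbP x) {ε : ℝ} (hε : 0 < ε) :
    ∀ᶠ n : ℕ in atTop, ev (EE n) (Wn q n) (fun η => Am η x y) ≤ 1 / 2 + ε := by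
  obtain ⟨R, hR⟩ := hH y (x - (1, 1)) (nbP_back hy) (ε / 2) (by linarith)
  have h1 := hR R le_rfl
  have h2 := hμ.free' (EE R) (fun η => Am η y (x - (1, 1))) (Am_up _ _)
  have h3 : 1 / 2 - ε < μ.real {ω | Am (op (EE R) ω) y (x - (1, 1))} := by linarith
  filter_upwards [h2.eventually (lt_mem_nhds h3), eventually_gt_atTop 0,
    eventually_gt_atTop (x.1.natAbs + x.2.natAbs + 1)] with n hn hn0 hnx
  have hx : (x, true) ∈ VS (-(n : ℤ)) n := by
    rw [mem_VS_true, P0de.mem_box]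
    omega
  have hyv : (y, false) ∈ VS (-(n : ℤ)) n := by
    rw [mem_VS_false, mem_pas]
    obtain ⟨i, j⟩ := x
    obtain ⟨k, l⟩ := y
    simp only [nbP, mem_insert, mem_singleton, Prod.mk_sub_mk, Prod.mk.injEq] at hy
    simp only at hnx ⊢
    omega
  have k1 : ev (EE n) (Wn q n) (fun η => Am η x y) ≤
      ev (EE n) (Wn q n) (fun η => ¬ Am (dual (-(n : ℤ)) n η) y (x - (1, 1))) := by
    refine ev_le (fun η _ => pos_Wn hq n η) (fun η hη h h' => ?_)
    exact am_disj (a := -(n : ℤ)) (b := n) (by omega) hη hx hyv hy ⟨h, h'⟩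
  have k2 : ev (EE n) (Wn q n) (fun η => ¬ Am (dual (-(n : ℤ)) n η) y (x - (1, 1))) =
      1 - ev (EE n) (Wn q n) (fun η => Am (dual (-(n : ℤ)) n η) y (x - (1, 1))) :=
    ev_not (fun η _ => pos_Wn hq n η) _
  have k3 : ev (EE n) (Wn q n) (fun η =>
      Am (dual (-(n : ℤ)) n η ∩ inner (-(n : ℤ)) n ∩ EE R) y (x - (1, 1))) ≤
      ev (EE n) (Wn q n) (fun η => Am (dual (-(n : ℤ)) n η) y (x - (1, 1))) :=
    ev_le (fun η _ => pos_Wn hq n η) (fun η _ h => am_mono (am_mono h))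
  have k4 : ev (EE n) (Wn q n) (fun η =>
      Am (dual (-(n : ℤ)) n η ∩ inner (-(n : ℤ)) n ∩ EE R) y (x - (1, 1))) =
      ev (inner (-(n : ℤ)) n) (fw q) (fun η => Am (η ∩ EE R) y (x - (1, 1))) :=
    dual_ev hq hn0 (fun ζ => Am (ζ ∩ EE R) y (x - (1, 1)))
  rw [k4] at k3
  linarith

/-- passive crossings under the wired measure have the same limit as active ones under the free measure -/
theorem wired_dual_cross {q : ℝ} (hq : 4 < q) {μ : Measure (Ed → Bool)} (hμ : Core q μ)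
    (R₀ R : ℕ) {ε : ℝ} (hε : 0 < ε) :
    ∀ᶠ n : ℕ in atTop, ev (EE n) (Wn q n)
      (fun η => Cross R₀ R (dual (-(n : ℤ)) n η ∩ inner (-(n : ℤ)) n)) ≤
      μ.real {ω | Cross R₀ R (op (EE R) ω)} + ε := by
  have h2 := hμ.free' (EE R) (Cross R₀ R) (Cross_up R₀ R)
  have h3 : μ.real {ω | Cross R₀ R (op (EE R) ω)} <
      μ.real {ω | Cross R₀ R (op (EE R) ω)} + ε := by linarith
  filter_upwards [h2.eventually (gt_mem_nhds h3), eventually_gt_atTop 0] with n hn hn0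
  rw [dual_ev hq hn0]
  refine (le_of_eq ?_).trans hn.le
  have : Cross R₀ R = fun η => Cross R₀ R (η ∩ EE R) := by
    funext η
    unfold Cross
    rw [inter_assoc, inter_self]
  rw [← this]

end P0q
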