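import Pool.Agent.Lib.P0q.R2Fw

/-!
# R3Rc: the measures `RC^{qb}` on a box

`rcW_insert`: `η ⊆ inner a (b+1)`, `e ∈ inner a (b+1) \ η`. `|η|` increases by one and the number of closed edges decreases by one: factor
`p/(1-p) = √q` for `p = pc q = √q/(√q+1)`. The clusters (of the sites of the box): if `Conn η u v` nothing changes. Otherwise the
clusters `C_u ≠ C_v` are replaced by their union. If both meet `bdry a b` (`Tc a b η u`, `Tc a b η v`): `kB` decreases by one, `kI`
unchanged: factor `1/qb`. Otherwise `kI` decreases by one and `kB` is unchanged (the union meets the boundary iff one of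
them does): factor `1/q`; `√q/q = 1/√q`.
(`kI`, `kB` count the members of `clus (box a (b+1)) η` that are disjoint from / meet `bdry a b`; for `x ∈ box a (b+1)` the cluster
is the set of `y ∈ box a (b+1)` with `Conn η x y`; `Tc a b η x` iff it meets `bdry a b`.)

`odd_mono`: `1 ≤ qb ≤ q`: `√q ≥ √q/qb ≥ 1/√q`, and the conditions are increasing in `η`: if `Conn η u v` then `Conn η' u v`; if
both are connected to the boundary in `η`, then also in `η'`.

`rc_odds`, `rc_dom`: by `odds_of`. `rc_free`: `qb = q`: the odds of `rcW q q` are `√q` or `1/√q` (since `√q/q = 1/√q`), the same as for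
`fw`; induction on `η` from `∅`: `rcW q q (pc q) a b η = rcW q q (pc q) a b ∅ * fw q η`.
-/

set_option autoImplicit false

open Finset P0de

namespace P0q

namespace R3RcAux

/-- connections after the insertion of an edge -/
theorem conn_insert {η : Finset Ed} {e : Ed} {x y : Site} :
    Conn (insert e η) x y ↔ Conn η x y ∨ (Conn η x (src e) ∧ Conn η (tgt e) y) ∨
      (Conn η x (tgt e) ∧ Conn η (src e) y) := by
  constructor
  · intro h
    unfold Conn at h
    induction h with
    | refl => exact Or.inl Relation.ReflTransGen.refl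
    | @tail y z _ h2 ih =>
      obtain ⟨e', he', h3⟩ := h2
      rw [mem_insert] at he'
      rcases he' with rfl | he'
      · rcases h3 with ⟨rfl, rfl⟩ | ⟨rfl, rfl⟩
        · rcases ih with ih | ⟨ih1, ih2⟩ | ⟨ih1, ih2⟩
          · exact Or.inr (Or.inl ⟨ih, Relation.ReflTransGen.refl⟩)
          · exact Or.inr (Or.inl ⟨ih1, Relation.ReflTransGen.refl⟩)
          · exact Or.inl ih1
        · rcases ih with ih | ⟨ih1, ih2⟩ | ⟨ih1, ih2⟩
          · exact Or.inr (Or.inr ⟨ih, Relation.ReflTransGen.refl⟩)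
          · exact Or.inl ih1
          · exact Or.inr (Or.inr ⟨ih1, Relation.ReflTransGen.refl⟩)
      · have h4 : Conn η y z := Relation.ReflTransGen.single ⟨e', he', h3⟩
        rcases ih with ih | ⟨ih1, ih2⟩ | ⟨ih1, ih2⟩
        · exact Or.inl (ih.trans h4)
        · exact Or.inr (Or.inl ⟨ih1, ih2.trans h4⟩)
        · exact Or.inr (Or.inr ⟨ih1, ih2.trans h4⟩)
  · have hs : Conn (insert e η) (src e) (tgt e) :=
      Relation.ReflTransGen.single ⟨e, mem_insert_self _ _, Or.inl ⟨rfl, rfl⟩⟩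
    have hm : ∀ {x y : Site}, Conn η x y → Conn (insert e η) x y := fun h =>
      Conn.mono (subset_insert _ _) h
    rintro (h | ⟨h1, h2⟩ | ⟨h1, h2⟩)
    · exact hm h
    · exact (hm h1).trans (hs.trans (hm h2))
    · exact (hm h1).trans (hs.symm.trans (hm h2))

open Classical in
/-- the cluster of `x` in `V` -/
noncomputable def cl (V : Finset Site) (η : Finset Ed) (x : Site) : Finset Site :=
  V.filter fun y => Conn η x y

theorem mem_cl {V : Finset Site} {η : Finset Ed} {x y : Site} :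
    y ∈ cl V η x ↔ y ∈ V ∧ Conn η x y := by
  classical
  exact mem_filter

theorem mem_clus_iff {V : Finset Site} {η : Finset Ed} {C : Finset Site} :
    C ∈ clus V η ↔ ∃ x ∈ V, cl V η x = C := by
  classical
  unfold clus
  rw [mem_image]
  constructor
  · rintro ⟨x, hx, rfl⟩
    exact ⟨x, hx, by unfold cl; congr⟩
  · rintro ⟨x, hx, rfl⟩
    exact ⟨x, hx, by unfold cl; congr⟩

theorem cl_eq_iff {V : Finset Site} {η : Finset Ed} {x y : Site} (hx : x ∈ V) :
    cl V η x = cl V η y ↔ Conn η x y := by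
  constructor
  · intro h
    have h1 : x ∈ cl V η x := mem_cl.2 ⟨hx, Relation.ReflTransGen.refl⟩
    rw [h] at h1
    exact (mem_cl.1 h1).2.symm
  · intro h
    ext z
    rw [mem_cl, mem_cl]
    exact ⟨fun ⟨h1, h2⟩ => ⟨h1, h.symm.trans h2⟩, fun ⟨h1, h2⟩ => ⟨h1, h.trans h2⟩⟩

theorem clus_insert_eq (V : Finset Site) {η : Finset Ed} {e : Ed}
    (h : Conn η (src e) (tgt e)) : clus V (insert e η) = clus V η := by
  have h1 : ∀ x, cl V (insert e η) x = cl V η x := by
    intro x
    ext y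
    rw [mem_cl, mem_cl, conn_insert]
    constructor
    · rintro ⟨hy, h2 | ⟨h2, h3⟩ | ⟨h2, h3⟩⟩
      · exact ⟨hy, h2⟩
      · exact ⟨hy, h2.trans (h.trans h3)⟩
      · exact ⟨hy, h2.trans (h.symm.trans h3)⟩
    · rintro ⟨hy, h2⟩
      exact ⟨hy, Or.inl h2⟩
  ext C
  rw [mem_clus_iff, mem_clus_iff]
  simp only [h1]

theorem clus_insert_ne {V : Finset Site} {η : Finset Ed} {e : Ed} (hs : src e ∈ V)
    (ht : tgt e ∈ V) (h : ¬ Conn η (src e) (tgt e)) :
    clus V (insert e η) = insert (cl V η (src e) ∪ cl V η (tgt e))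
      (((clus V η).erase (cl V η (src e))).erase (cl V η (tgt e))) ∧
    cl V η (src e) ∪ cl V η (tgt e) ∉ clus V η := by
  have h1 : ∀ x, Conn η x (src e) ∨ Conn η x (tgt e) →
      cl V (insert e η) x = cl V η (src e) ∪ cl V η (tgt e) := by
    intro x hx
    ext y
    rw [mem_union, mem_cl, mem_cl, mem_cl, conn_insert]
    rcases hx with hx | hx
    · constructor
      · rintro ⟨hy, h2 | ⟨h2, h3⟩ | ⟨h2, h3⟩⟩
        · exact Or.inl ⟨hy, hx.symm.trans h2⟩
        · exact Or.inr ⟨hy, h3⟩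
        · exact Or.inl ⟨hy, h3⟩
      · rintro (⟨hy, h2⟩ | ⟨hy, h2⟩)
        · exact ⟨hy, Or.inl (hx.trans h2)⟩
        · exact ⟨hy, Or.inr (Or.inl ⟨hx, h2⟩)⟩
    · constructor
      · rintro ⟨hy, h2 | ⟨h2, h3⟩ | ⟨h2, h3⟩⟩
        · exact Or.inr ⟨hy, hx.symm.trans h2⟩
        · exact Or.inr ⟨hy, h3⟩
        · exact Or.inl ⟨hy, h3⟩
      · rintro (⟨hy, h2⟩ | ⟨hy, h2⟩)
        · exact ⟨hy, Or.inr (Or.inr ⟨hx, h2⟩)⟩
        · exact ⟨hy, Or.inl (hx.trans h2)⟩
  have h2 : ∀ x, ¬ Conn η x (src e) → ¬ Conn η x (tgt e) →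
      cl V (insert e η) x = cl V η x := by
    intro x hx1 hx2
    ext y
    rw [mem_cl, mem_cl, conn_insert]
    constructor
    · rintro ⟨hy, h2 | ⟨h2, h3⟩ | ⟨h2, h3⟩⟩
      · exact ⟨hy, h2⟩
      · exact absurd h2 hx1
      · exact absurd h2 hx2
    · rintro ⟨hy, h2⟩
      exact ⟨hy, Or.inl h2⟩
  constructor
  · ext C
    rw [mem_clus_iff, mem_insert, mem_erase, mem_erase, mem_clus_iff]
    constructor
    · rintro ⟨x, hx, rfl⟩
      by_cases h3 : Conn η x (src e) ∨ Conn η x (tgt e)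
      · exact Or.inl (h1 x h3)
      · rw [not_or] at h3
        rw [h2 x h3.1 h3.2]
        exact Or.inr ⟨fun h4 => h3.2 ((cl_eq_iff hx).1 h4),
          fun h4 => h3.1 ((cl_eq_iff hx).1 h4), x, hx, rfl⟩
    · rintro (rfl | ⟨h3, h4, x, hx, rfl⟩)
      · exact ⟨src e, hs, h1 _ (Or.inl Relation.ReflTransGen.refl)⟩
      · exact ⟨x, hx, h2 x (fun h5 => h4 ((cl_eq_iff hx).2 h5))
          (fun h5 => h3 ((cl_eq_iff hx).2 h5))⟩
  · intro h3
    obtain ⟨x, hx, h4⟩ := mem_clus_iff.1 h3
    have h5 : src e ∈ cl V η x := by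
      rw [h4]
      exact mem_union_left _ (mem_cl.2 ⟨hs, Relation.ReflTransGen.refl⟩)
    have h6 : tgt e ∈ cl V η x := by
      rw [h4]
      exact mem_union_right _ (mem_cl.2 ⟨ht, Relation.ReflTransGen.refl⟩)
    exact h ((mem_cl.1 h5).2.symm.trans (mem_cl.1 h6).2)

theorem card_filter_inst {α : Type} (s : Finset α) (p : α → Prop) (i1 i2 : DecidablePred p) :
    (@Finset.filter α p i1 s).card = (@Finset.filter α p i2 s).card := by
  rw [Subsingleton.elim i1 i2]

/-- counting clusters with a property -/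
theorem count_insert {V : Finset Site} {η : Finset Ed} {e : Ed} (hs : src e ∈ V)
    (ht : tgt e ∈ V) (h : ¬ Conn η (src e) (tgt e)) (P : Finset Site → Prop) [DecidablePred P] :
    ((clus V (insert e η)).filter P).card + ((if P (cl V η (src e)) then 1 else 0) +
      (if P (cl V η (tgt e)) then 1 else 0)) = ((clus V η).filter P).card +
      (if P (cl V η (src e) ∪ cl V η (tgt e)) then 1 else 0) := by
  obtain ⟨h1, h2⟩ := clus_insert_ne hs ht h
  have hne : cl V η (tgt e) ≠ cl V η (src e) := fun h3 => h ((cl_eq_iff ht).1 h3).symm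
  have hms : cl V η (src e) ∈ clus V η := mem_clus_iff.2 ⟨_, hs, rfl⟩
  have hmt : cl V η (tgt e) ∈ clus V η := mem_clus_iff.2 ⟨_, ht, rfl⟩
  have e1 : ∀ (S : Finset (Finset Site)), (S.filter P).card = ∑ C ∈ S, if P C then 1 else 0 := by
    intro S
    rw [card_filter]
  rw [e1, e1, h1, sum_insert (fun h3 => h2 (mem_of_mem_erase (mem_of_mem_erase h3)))]
  have e2 := sum_erase_add (clus V η) (fun C => if P C then 1 else 0) hms
  have e3 := sum_erase_add ((clus V η).erase (cl V η (src e))) (fun C => if P C then 1 else 0)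
    (mem_erase.2 ⟨hne, hmt⟩)
  omega

theorem bdry_sub (a b : ℤ) : bdry a b ⊆ box a (b + 1) := sdiff_subset

theorem disj_iff {a b : ℤ} {η : Finset Ed} {x : Site} :
    Disjoint (cl (box a (b + 1)) η x) (bdry a b) ↔ ¬ Tc a b η x := by
  rw [disjoint_left]
  constructor
  · rintro h ⟨y, hy, hc⟩
    exact h (mem_cl.2 ⟨bdry_sub a b hy, hc⟩) hy
  · intro h y hy hb
    exact h ⟨y, hb, (mem_cl.1 hy).2⟩

theorem k_conn {a b : ℤ} {η : Finset Ed} {e : Ed} (h : Conn η (src e) (tgt e)) :
    kI a b (insert e η) = kI a b η ∧ kB a b (insert e η) = kB a b η := by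
  unfold kI kB
  rw [clus_insert_eq _ h]
  exact ⟨rfl, rfl⟩

theorem k_ne {a b : ℤ} {η : Finset Ed} {e : Ed} (he : e ∈ inner a (b + 1))
    (h : ¬ Conn η (src e) (tgt e)) :
    (Tc a b η (src e) ∧ Tc a b η (tgt e) →
      kI a b (insert e η) = kI a b η ∧ kB a b (insert e η) + 1 = kB a b η) ∧
    (¬ (Tc a b η (src e) ∧ Tc a b η (tgt e)) →
      kI a b (insert e η) + 1 = kI a b η ∧ kB a b (insert e η) = kB a b η) := by
  classical
  have he' := P0de.DualAux.mem_inner.1 he
  have hI := count_insert he'.1 he'.2 h (fun C => Disjoint C (bdry a b))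
  have hB := count_insert he'.1 he'.2 h (fun C => ¬ Disjoint C (bdry a b))
  simp only [disjoint_union_left, disj_iff, not_not] at hI hB
  have eI : ∀ η, ((clus (box a (b + 1)) η).filter
      fun C => Disjoint C (bdry a b)).card = kI a b η := fun η => card_filter_inst _ _ _ _
  have eB : ∀ η, ((clus (box a (b + 1)) η).filter
      fun C => ¬ Disjoint C (bdry a b)).card = kB a b η := fun η => card_filter_inst _ _ _ _
  rw [eI, eI] at hI
  rw [eB, eB] at hB
  constructor
  · rintro ⟨h1, h2⟩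
    rw [if_neg (not_not.2 h1), if_neg (not_not.2 h2), if_neg (fun h3 => h3.1 h1)] at hI
    rw [if_pos h1, if_pos h2, if_pos (fun h3 => h3.1 h1)] at hB
    omega
  · intro h3
    by_cases h1 : Tc a b η (src e)
    · have h2 : ¬ Tc a b η (tgt e) := fun h2 => h3 ⟨h1, h2⟩
      rw [if_neg (not_not.2 h1), if_pos h2, if_neg (fun h3 => h3.1 h1)] at hI
      rw [if_pos h1, if_neg h2, if_pos (fun h3 => h3.1 h1)] at hB
      omega
    · by_cases h2 : Tc a b η (tgt e)
      · rw [if_pos h1, if_neg (not_not.2 h2), if_neg (fun h3 => h3.2 h2)] at hI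
        rw [if_neg h1, if_pos h2, if_pos (fun h3 => h3.2 h2)] at hB
        omega
      · rw [if_pos h1, if_pos h2, if_pos ⟨h1, h2⟩] at hI
        rw [if_neg h1, if_neg h2, if_neg (fun h3 => h3 ⟨h1, h2⟩)] at hB
        omega

end R3RcAux

open R3RcAux

theorem rcW_insert {q qb : ℝ} (hq : 0 < q) (hqb : 0 < qb) {a b : ℤ} {η : Finset Ed}
    (hη : η ⊆ inner a (b + 1)) {e : Ed} (he : e ∈ inner a (b + 1)) (hn : e ∉ η) :
    rcW q qb (pc q) a b (insert e η) = odd q qb a b η e * rcW q qb (pc q) a b η := by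
  have hs : 0 < √q := Real.sqrt_pos.2 hq
  have hsq : √q * √q = q := Real.mul_self_sqrt hq.le
  have hc1 : (insert e η).card = η.card + 1 := card_insert_of_notMem hn
  have hc2 : (inner a (b + 1) \ η).card = (inner a (b + 1) \ insert e η).card + 1 := by
    have h1 : inner a (b + 1) \ η = insert e (inner a (b + 1) \ insert e η) := by
      ext x
      simp only [mem_sdiff, mem_insert, not_or]
      constructor
      · rintro ⟨h1, h2⟩
        by_cases h3 : x = e
        · exact Or.inl h3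
        · exact Or.inr ⟨h1, h3, h2⟩
      · rintro (rfl | ⟨h1, h2, h3⟩)
        · exact ⟨he, hn⟩
        · exact ⟨h1, h3⟩
    rw [h1, card_insert_of_notMem]
    simp
  have hp : pc q = √q * (1 - pc q) := by
    unfold pc
    field_simp
    ring
  have key : rcW q qb (pc q) a b (insert e η) * (q ^ kI a b η * qb ^ kB a b η) =
      √q * (q ^ kI a b (insert e η) * qb ^ kB a b (insert e η)) * rcW q qb (pc q) a b η := by
    unfold rcW
    rw [hc1, hc2, pow_succ, pow_succ]
    linear_combination q ^ kI a b (insert e η) * qb ^ kB a b (insert e η) * pc q ^ η.card *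
      (1 - pc q) ^ (inner a (b + 1) \ insert e η).card * (q ^ kI a b η * qb ^ kB a b η) * hp
  unfold odd
  by_cases h : Conn η (src e) (tgt e)
  · rw [if_pos h]
    obtain ⟨h1, h2⟩ := k_conn (a := a) (b := b) h
    rw [h1, h2] at key
    have hpos : 0 < q ^ kI a b η * qb ^ kB a b η := by positivity
    apply mul_right_cancel₀ hpos.ne'
    rw [key]
    ring
  · rw [if_neg h]
    obtain ⟨k1, k2⟩ := k_ne he h
    split_ifs with h1
    · obtain ⟨k3, k4⟩ := k1 h1
      rw [k3, ← k4, pow_succ] at key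
      have hpos' : 0 < q ^ kI a b η * qb ^ kB a b (insert e η) * qb := by positivity
      apply mul_right_cancel₀ hpos'.ne'
      rw [mul_assoc (q ^ kI a b η) _ qb, key]
      field_simp
    · obtain ⟨k3, k4⟩ := k2 h1
      rw [k4, ← k3, pow_succ] at key
      have hpos' : 0 < q ^ kI a b (insert e η) * q * qb ^ kB a b η := by positivity
      apply mul_right_cancel₀ hpos'.ne'
      rw [key, show √q * (q ^ kI a b (insert e η) * qb ^ kB a b η) * rcW q qb (pc q) a b η =
        1 / √q * (√q * √q) * (q ^ kI a b (insert e η) * qb ^ kB a b η) * rcW q qb (pc q) a b η by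
          field_simp, hsq]
      ring

theorem odd_mono {q qb : ℝ} (hqb : 1 ≤ qb) (hq : qb ≤ q) {a b : ℤ} {η η' : Finset Ed}
    (h : η ⊆ η') (e : Ed) : odd q qb a b η e ≤ odd q qb a b η' e := by
  have hq1 : 1 ≤ q := hqb.trans hq
  have hq0 : 0 < q := by linarith
  have hs : 0 < √q := Real.sqrt_pos.2 hq0
  have hsq : √q * √q = q := Real.mul_self_sqrt hq0.le
  have hqb0 : 0 < qb := by linarith
  have i1 : √q / qb ≤ √q := div_le_self hs.le hqb
  have i2 : 1 / √q ≤ √q / qb := by
    rw [div_le_div_iff₀ hs hqb0]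
    linarith
  have hT : ∀ x, Tc a b η x → Tc a b η' x := fun x ⟨y, hy, hc⟩ => ⟨y, hy, Conn.mono h hc⟩
  unfold odd
  by_cases h1 : Conn η (src e) (tgt e)
  · rw [if_pos h1, if_pos (Conn.mono h h1)]
  · rw [if_neg h1]
    by_cases h2 : Tc a b η (src e) ∧ Tc a b η (tgt e)
    · rw [if_pos h2]
      split_ifs with h3 h4
      · exact i1
      · exact le_rfl
      · exact absurd ⟨hT _ h2.1, hT _ h2.2⟩ h4
    · rw [if_neg h2]
      split_ifs with h3 h4
      · exact i2.trans i1
      · exact i2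
      · exact le_rfl

theorem odd_anti {q qb qb' : ℝ} (hqb : 0 < qb) (h : qb ≤ qb') (hq : 0 < q) (a b : ℤ)
    (η : Finset Ed) (e : Ed) : odd q qb' a b η e ≤ odd q qb a b η e := by
  unfold odd
  split_ifs
  · exact le_rfl
  · exact div_le_div_of_nonneg_left (Real.sqrt_nonneg _) hqb h
  · exact le_rfl

theorem rc_odds {q qb : ℝ} (hqb : 1 ≤ qb) (hq : qb ≤ q) (a b : ℤ) :
    Odds (inner a (b + 1)) (rcW q qb (pc q) a b) (rcW q qb (pc q) a b) := by
  intro η η' e h1 h2 he hn
  have hq0 : 0 < q := by linarith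
  have hqb0 : 0 < qb := by linarith
  rw [rcW_insert hq0 hqb0 (h1.trans h2) he (fun h => hn (h1 h)),
    rcW_insert hq0 hqb0 h2 he hn]
  have i1 := rcW_pos hq0 hqb0 a b η
  have i2 := rcW_pos hq0 hqb0 a b η'
  have i3 := odd_mono hqb hq (a := a) (b := b) h1 e
  calc odd q qb a b η e * rcW q qb (pc q) a b η * rcW q qb (pc q) a b η' =
      odd q qb a b η e * (rcW q qb (pc q) a b η * rcW q qb (pc q) a b η') := by ring
    _ ≤ odd q qb a b η' e * (rcW q qb (pc q) a b η * rcW q qb (pc q) a b η') :=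
        mul_le_mul_of_nonneg_right i3 (mul_pos i1 i2).le
    _ = rcW q qb (pc q) a b η * (odd q qb a b η' e * rcW q qb (pc q) a b η') := by ring

theorem rc_dom {q qb qb' : ℝ} (hqb : 1 ≤ qb) (h : qb ≤ qb') (hq : qb' ≤ q) (a b : ℤ)
    {g : Finset Ed → ℝ} (hg : MonoOn (inner a (b + 1)) g) :
    ex (inner a (b + 1)) (rcW q qb' (pc q) a b) g ≤ ex (inner a (b + 1)) (rcW q qb (pc q) a b) g := by
  have hqb0 : 0 < qb := by linarith
  have hqb0' : 0 < qb' := by linarith
  have hq0 : 0 < q := by linarith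
  refine dom (fun η _ => rcW_pos hq0 hqb0' a b η) (fun η _ => rcW_pos hq0 hqb0 a b η)
    (odds_of (fun η _ => rcW_pos hq0 hqb0' a b η) (fun η _ => rcW_pos hq0 hqb0 a b η) ?_
      (rc_odds hqb (h.trans hq) a b)) hg
  intro η e h1 he hn
  rw [rcW_insert hq0 hqb0 h1 he hn, rcW_insert hq0 hqb0' h1 he hn]
  have i1 := rcW_pos hq0 hqb0 a b η
  have i2 := rcW_pos hq0 hqb0' a b η
  have i3 := odd_anti hqb0 h hq0 a b η e
  calc odd q qb' a b η e * rcW q qb' (pc q) a b η * rcW q qb (pc q) a b η =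
      odd q qb' a b η e * (rcW q qb' (pc q) a b η * rcW q qb (pc q) a b η) := by ring
    _ ≤ odd q qb a b η e * (rcW q qb' (pc q) a b η * rcW q qb (pc q) a b η) :=
        mul_le_mul_of_nonneg_right i3 (mul_pos i2 i1).le
    _ = rcW q qb' (pc q) a b η * (odd q qb a b η e * rcW q qb (pc q) a b η) := by ring

theorem rc_free {q : ℝ} (hq : 0 < q) {a b : ℤ} {η : Finset Ed} (hη : η ⊆ inner a (b + 1)) :
    rcW q q (pc q) a b η = rcW q q (pc q) a b ∅ * fw q η := by
  have hs : 0 < √q := Real.sqrt_pos.2 hq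
  have hsq : √q * √q = q := Real.mul_self_sqrt hq.le
  induction η using Finset.induction_on with
  | empty =>
    have h0 : fw q ∅ = 1 := by
      simp [fw, rk, ends]
    rw [h0, mul_one]
  | insert e η hn ih =>
    have h1 := (insert_subset_iff.1 hη).1
    have h2 := (insert_subset_iff.1 hη).2
    rw [rcW_insert hq hq h2 h1 hn, ih h2, fw_insert hq hn]
    have h3 : √q / q = 1 / √q := by
      rw [div_eq_div_iff hq.ne' hs.ne', one_mul, hsq]
    unfold odd
    rw [h3, ite_self]
    ring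

theorem rc_free_ex {q : ℝ} (hq : 0 < q) (a b : ℤ) (g : Finset Ed → ℝ) :
    ex (inner a (b + 1)) (rcW q q (pc q) a b) g = ex (inner a (b + 1)) (fw q) g := by
  have h0 := rcW_pos hq hq a b ∅
  unfold ex
  have e1 : ∑ η ∈ (inner a (b + 1)).powerset, rcW q q (pc q) a b η * g η =
      rcW q q (pc q) a b ∅ * ∑ η ∈ (inner a (b + 1)).powerset, fw q η * g η := by
    rw [mul_sum]
    refine sum_congr rfl fun η hη => ?_
    rw [rc_free hq (mem_powerset.1 hη), mul_assoc]
  have e2 : ∑ η ∈ (inner a (b + 1)).powerset, rcW q q (pc q) a b η =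
      rcW q q (pc q) a b ∅ * ∑ η ∈ (inner a (b + 1)).powerset, fw q η := by
    rw [mul_sum]
    exact sum_congr rfl fun η hη => rc_free hq (mem_powerset.1 hη)
  rw [e1, e2, mul_div_mul_left _ _ h0.ne']

end P0q
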