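import Pool.Agent.Lib.P0q.R10Sn
import Pool.Agent.Lib.P0q.R3Rc

/-!
# R10Loc: the local identity (5.1) of Q4_proof.md

Cases A, B, C, `S_c`, `S_o` as in `R10Sn` (`Sn_cases`, `caseB_box`).
`loc_id`: let `w > 0` be a weight with `w (insert e η) = r(η) w η`, `r = √q` in case A, `1/√q` in case B (nothing is assumed in case
C). Sum over `η ⊆ inner a (b+1)` with `e ∉ η` and pair `η`, `insert e η`: with `p₁ = √q/(1+√q)`, `p₀ = 1/(1+√q)`,
`m = w η + w (insert e η)`:
case A, (0,2): `w (insert e η)·2 = 2 p₁ m`; (4,4): `4m = (2p₁ + (2 + 2p₀)) m`; case B, (2,4): `2 w η + 4 w (insert e η) = (2 + 2p₀) m`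
(`w (insert e η) = p₀ m`); all others `0`. So the contribution is `2 p₁ m 1[case A] + (2 + 2p₀) m 1[S_o = 4]` in all cases. The events
`Conn (η.erase e) u v` and `Sn (insert e η) e = 4` do not depend on the state of `e`.
`free_loc`, `wired_loc`: for `rcW q q` and `rcW q 1` the ratio is `odd q q`, `odd q 1` (`rcW_insert`): case A `√q`; case B `1/√q` by `caseB_box` (for
`qb = q` always, as `√q/q = 1/√q`).
-/

set_option autoImplicit false

open Finset P0de

namespace P0q

namespace R10LocAux

theorem ind_pos {A : Finset Ed → Prop} {η : Finset Ed} (h : A η) : ind A η = 1 := if_pos h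

theorem ind_neg {A : Finset Ed → Prop} {η : Finset Ed} (h : ¬ A η) : ind A η = 0 := if_neg h

theorem ind_iff {A : Finset Ed → Prop} {η η' : Finset Ed} (h : A η ↔ A η') :
    ind A η = ind A η' := by
  by_cases h1 : A η
  · rw [ind_pos h1, ind_pos (h.1 h1)]
  · rw [ind_neg h1, ind_neg (fun h2 => h1 (h.2 h2))]

/-- the contribution of the pair `η`, `insert e η` -/
theorem pair {q qb : ℝ} (hq : 4 < q) (hqb : 0 < qb) {a b : ℤ} (hab : a < b)
    {η : Finset Ed} (hη : η ⊆ inner a (b + 1)) {e : Ed} (he : e ∈ inner a (b + 1)) (hn : e ∉ η) :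
    rcW q qb (pc q) a b η * (Sn η e : ℝ) +
      rcW q qb (pc q) a b (insert e η) * (Sn (insert e η) e : ℝ) =
    2 * (√q / (1 + √q)) * (rcW q qb (pc q) a b η *
        ind (fun η => Conn (η.erase e) (src e) (tgt e)) η +
      rcW q qb (pc q) a b (insert e η) *
        ind (fun η => Conn (η.erase e) (src e) (tgt e)) (insert e η)) +
    (2 + 2 / (1 + √q)) * (rcW q qb (pc q) a b η * ind (fun η => Sn (insert e η) e = 4) η +
      rcW q qb (pc q) a b (insert e η) * ind (fun η => Sn (insert e η) e = 4) (insert e η)) := by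
  have hq0 : 0 < q := by linarith
  have hs : 0 < √q := Real.sqrt_pos.2 hq0
  have hs1 : (1 + √q) ≠ 0 := by positivity
  have hs0 : √q ≠ 0 := hs.ne'
  have e1 : η.erase e = η := erase_eq_of_notMem hn
  have e2 : (insert e η).erase e = η := erase_insert hn
  have e3 : insert e (insert e η) = insert e η := insert_eq_of_mem (mem_insert_self _ _)
  have hw := rcW_insert hq0 hqb hη he hn
  obtain ⟨hA, hB, hC⟩ := Sn_cases hab hη he hn
  have iA : ind (fun η => Conn (η.erase e) (src e) (tgt e)) (insert e η) =
      ind (fun η => Conn (η.erase e) (src e) (tgt e)) η := by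
    refine ind_iff ?_
    show Conn ((insert e η).erase e) (src e) (tgt e) ↔ Conn (η.erase e) (src e) (tgt e)
    rw [e1, e2]
  have iB : ind (fun η => Sn (insert e η) e = 4) (insert e η) =
      ind (fun η => Sn (insert e η) e = 4) η := by
    refine ind_iff ?_
    show Sn (insert e (insert e η)) e = 4 ↔ Sn (insert e η) e = 4
    rw [e3]
  rw [iA, iB, hw]
  by_cases h1 : Conn η (src e) (tgt e)
  · have i1 : ind (fun η => Conn (η.erase e) (src e) (tgt e)) η = 1 := by
      refine ind_pos ?_
      show Conn (η.erase e) (src e) (tgt e)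
      rw [e1]; exact h1
    have ho : odd q qb a b η e = √q := by unfold odd; rw [if_pos h1]
    rw [i1, ho]
    rcases hA h1 with ⟨h2, h3⟩ | ⟨h2, h3⟩
    · have i2 : ind (fun η => Sn (insert e η) e = 4) η = 0 := by
        refine ind_neg ?_; show ¬ Sn (insert e η) e = 4; rw [h3]; norm_num
      rw [i2, h2, h3]
      push_cast
      field_simp
      ring
    · have i2 : ind (fun η => Sn (insert e η) e = 4) η = 1 := by
        refine ind_pos ?_; exact h3
      rw [i2, h2, h3]
      push_cast
      field_simp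
      ring
  · have i1 : ind (fun η => Conn (η.erase e) (src e) (tgt e)) η = 0 := by
      refine ind_neg ?_
      show ¬ Conn (η.erase e) (src e) (tgt e)
      rw [e1]; exact h1
    rw [i1]
    by_cases h4 : Conn (dual a b (insert e η)) (pu e) (pl e)
    · have hb := caseB_box hab hη he h4
      rw [e1] at hb
      have ho : odd q qb a b η e = 1 / √q := by
        unfold odd; rw [if_neg h1, if_neg hb.2]
      rw [ho]
      rcases hB h4 with ⟨h2, h3⟩ | ⟨h2, h3⟩
      · have i2 : ind (fun η => Sn (insert e η) e = 4) η = 0 := by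
          refine ind_neg ?_; show ¬ Sn (insert e η) e = 4; rw [h3]; norm_num
        rw [i2, h2, h3]
        push_cast
        ring
      · have i2 : ind (fun η => Sn (insert e η) e = 4) η = 1 := by
          refine ind_pos ?_; exact h3
        rw [i2, h2, h3]
        push_cast
        field_simp
        ring
    · obtain ⟨h2, h3⟩ := hC h1 h4
      have i2 : ind (fun η => Sn (insert e η) e = 4) η = 0 := by
        refine ind_neg ?_; show ¬ Sn (insert e η) e = 4; rw [h3]; norm_num
      rw [i2, h2, h3]
      push_cast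
      ring

theorem sum_pair {E : Finset Ed} {e : Ed} (he : e ∈ E) (f : Finset Ed → ℝ) :
    ∑ η ∈ E.powerset, f η = ∑ η ∈ (E.erase e).powerset, (f η + f (insert e η)) := by
  conv_lhs => rw [← insert_erase he]
  rw [sum_powerset_insert (notMem_erase e E), sum_add_distrib]

end R10LocAux

theorem loc_id {q qb : ℝ} (hq : 4 < q) (hqb : qb = 1 ∨ qb = q) {a b : ℤ} (hab : a < b) {e : Ed}
    (he : e ∈ inner a (b + 1)) :
    ex (inner a (b + 1)) (rcW q qb (pc q) a b) (fun η => (Sn η e : ℝ)) =
      2 * (√q / (1 + √q)) * ev (inner a (b + 1)) (rcW q qb (pc q) a b)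
        (fun η => Conn (η.erase e) (src e) (tgt e)) +
      (2 + 2 / (1 + √q)) * ev (inner a (b + 1)) (rcW q qb (pc q) a b)
        (fun η => Sn (insert e η) e = 4) := by
  have hqb0 : 0 < qb := by rcases hqb with h | h <;> rw [h] <;> linarith
  have hnum : ∑ η ∈ (inner a (b + 1)).powerset, rcW q qb (pc q) a b η * (Sn η e : ℝ) =
      2 * (√q / (1 + √q)) * ∑ η ∈ (inner a (b + 1)).powerset, rcW q qb (pc q) a b η *
        ind (fun η => Conn (η.erase e) (src e) (tgt e)) η +
      (2 + 2 / (1 + √q)) * ∑ η ∈ (inner a (b + 1)).powerset, rcW q qb (pc q) a b η *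
        ind (fun η => Sn (insert e η) e = 4) η := by
    rw [R10LocAux.sum_pair he, R10LocAux.sum_pair he, R10LocAux.sum_pair he, mul_sum, mul_sum,
      ← sum_add_distrib]
    refine sum_congr rfl fun η hη => ?_
    rw [mem_powerset] at hη
    exact R10LocAux.pair hq hqb0 hab (hη.trans (erase_subset _ _)) he
      (fun h => notMem_erase e _ (hη h))
  unfold ev ex
  rw [hnum]
  ring

end P0q
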