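import Pool.Agent.Lib.P0q.R0Case
import Pool.Agent.Lib.P0q.R3Rc

/-!
# R11Dens: edge densities

Pair `η` (with `e ∉ η`) and `insert e η`: `rcW (insert e η) = odd · rcW η` (`rcW_insert`), so with `m = w η + w (insert e η)`:
`w (insert e η) = m · odd/(1 + odd)`, `odd/(1+odd) = √q/(1+√q) = p₁` for `odd = √q` and `1/(1+√q) = p₀` for `odd = 1/√q`.
Free (`qb = q`): `odd = √q` iff `Conn η u v` (`η = (insert e η).erase e = η.erase e`), otherwise `1/√q` (`√q/q = 1/√q`). So
`P(e ∈ η) = ∑ m (p₀ + (p₁ - p₀) 1[Conn])`, `p₁ - p₀ = (√q - 1)/(√q + 1)`.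
Wired (`qb = 1`): `odd = √q` if `Conn η u v` or both ends are connected to `bdry a b`. In the second case without `Conn η u v` we are neither in
case B (`caseB_box`) nor in case A, so `caseC_box` gives that `pu e` is connected to some `q' ∉ box a b` in
`dual a b (insert e η) ⊆ dual a b η'` for `η' = η` and `η' = insert e η`. So `P(e ∈ η) ≤ p₀ + (p₁ - p₀)(P(Conn off e) + P(∃ q' ...))`.
-/

set_option autoImplicit false

open Finset P0de

namespace P0q

namespace R11DensAux

theorem pair {E : Finset Ed} {e : Ed} (he : e ∈ E) (F : Finset Ed → ℝ) :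
    ∑ η ∈ E.powerset, F η = ∑ η ∈ (E.erase e).powerset, (F η + F (insert e η)) := by
  rw [Finset.sum_add_distrib, ← Finset.sum_powerset_insert (Finset.notMem_erase e E),
    Finset.insert_erase he]

/-- comparison of expectations -/
theorem key {E : Finset Ed} {e : Ed} (he : e ∈ E) {w : Finset Ed → ℝ} (hw : ∀ η, 0 < w η)
    {F G : Finset Ed → ℝ} (h : ∀ η ∈ (E.erase e).powerset,
      w η * F η + w (insert e η) * F (insert e η) ≤ w η * G η + w (insert e η) * G (insert e η)) :
    ex E w F ≤ ex E w G := by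
  have hZ : 0 < ∑ η ∈ E.powerset, w η := sum_pos (fun η _ => hw η) (powerset_nonempty _)
  unfold ex
  apply div_le_div_of_nonneg_right _ hZ.le
  rw [pair he, pair he]
  exact Finset.sum_le_sum h

theorem key_eq {E : Finset Ed} {e : Ed} (he : e ∈ E) {w : Finset Ed → ℝ} (hw : ∀ η, 0 < w η)
    {F G : Finset Ed → ℝ} (h : ∀ η ∈ (E.erase e).powerset,
      w η * F η + w (insert e η) * F (insert e η) = w η * G η + w (insert e η) * G (insert e η)) :
    ex E w F = ex E w G :=
  le_antisymm (key he hw fun η hη => (h η hη).le) (key he hw fun η hη => (h η hη).ge)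

theorem ex_lin {E : Finset Ed} {w : Finset Ed → ℝ} (hw : ∀ η, 0 < w η) (c d : ℝ)
    (G : Finset Ed → ℝ) : ex E w (fun η => c + d * G η) = c + d * ex E w G := by
  rw [ex_add E w (fun _ => c) (fun η => d * G η), ex_const (fun η _ => hw η), ex_smul]

theorem mem_erase_pow {E : Finset Ed} {e : Ed} {η : Finset Ed}
    (h : η ∈ (E.erase e).powerset) : η ⊆ E ∧ e ∉ η := by
  rw [Finset.mem_powerset] at h
  exact ⟨h.trans (Finset.erase_subset _ _), fun h' => Finset.notMem_erase e E (h h')⟩

end R11DensAux

open R11DensAux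

/-- densities: `free`: `p₀ + (p₁ - p₀) P(u ~ v off e)` -/
theorem dens_free {q : ℝ} (hq : 4 < q) {a b : ℤ} {e : Ed} (he : e ∈ inner a (b + 1)) :
    ev (inner a (b + 1)) (rcW q q (pc q) a b) (fun η => e ∈ η) =
      1 / (1 + √q) + (√q - 1) / (1 + √q) * ev (inner a (b + 1)) (rcW q q (pc q) a b)
        (fun η => Conn (η.erase e) (src e) (tgt e)) := by
  classical
  have hq0 : (0 : ℝ) < q := by linarith
  have hs0 : (0 : ℝ) < √q := Real.sqrt_pos.2 hq0
  have hss : √q * √q = q := Real.mul_self_sqrt hq0.le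
  have hw : ∀ η, 0 < rcW q q (pc q) a b η := fun η => rcW_pos hq0 hq0 a b η
  unfold ev
  rw [← ex_lin hw]
  refine key_eq he hw fun η hη => ?_
  obtain ⟨hηE, hne⟩ := mem_erase_pow hη
  rw [rcW_insert hq0 hq0 hηE he hne]
  have hdiv : √q / q = 1 / √q := by
    rw [div_eq_div_iff hq0.ne' hs0.ne', hss, one_mul]
  simp only [ind, Finset.erase_eq_of_notMem hne, Finset.erase_insert hne, hne,
    Finset.mem_insert_self, if_true, if_false, odd]
  by_cases hC : Conn η (src e) (tgt e)
  · simp only [hC, if_true]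
    field_simp
    ring
  · simp only [hC, if_false, hdiv, ite_self]
    field_simp
    ring

/-- densities: `wired`: the conditional probability of `e` being open is `p₁` in case A, `p₀` in case B and `p₁` in case C, where
both faces beside `e` are connected to the outside off `e` (`caseC_box`) -/
theorem dens_wired {q : ℝ} (hq : 4 < q) {a b : ℤ} (hab : a < b) {e : Ed}
    (he : e ∈ inner a (b + 1)) :
    ev (inner a (b + 1)) (rcW q 1 (pc q) a b) (fun η => e ∈ η) ≤
      1 / (1 + √q) + (√q - 1) / (1 + √q) * (ev (inner a (b + 1)) (rcW q 1 (pc q) a b)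
        (fun η => Conn (η.erase e) (src e) (tgt e)) +
      ev (inner a (b + 1)) (rcW q 1 (pc q) a b)
        (fun η => ∃ q', q' ∉ box a b ∧ Conn (dual a b η) (pu e) q')) := by
  classical
  have hq0 : (0 : ℝ) < q := by linarith
  have hs1 : (1 : ℝ) < √q := by
    rw [Real.lt_sqrt (by norm_num)]; linarith
  have hs0 : (0 : ℝ) < √q := by linarith
  have hw : ∀ η, 0 < rcW q 1 (pc q) a b η := fun η => rcW_pos hq0 one_pos a b η
  unfold ev
  rw [← ex_add, ← ex_lin hw]
  refine key he hw fun η hη => ?_
  obtain ⟨hηE, hne⟩ := mem_erase_pow hη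
  rw [rcW_insert hq0 one_pos hηE he hne]
  have hw0 := hw η
  set W := rcW q 1 (pc q) a b η with hW
  have hB : ∀ ζ : Finset Ed, 0 ≤ ind (fun η => ∃ q', q' ∉ box a b ∧ Conn (dual a b η) (pu e) q') ζ := by
    intro ζ; unfold ind; split_ifs <;> norm_num
  have hcoef : 0 ≤ (√q - 1) / (1 + √q) := div_nonneg (by linarith) (by linarith)
  have hBη := hB η
  have hBi := hB (insert e η)
  by_cases hC : Conn η (src e) (tgt e)
  · have e1 : ind (fun η => Conn (η.erase e) (src e) (tgt e)) η = 1 := by
      simp [ind, Finset.erase_eq_of_notMem hne, hC]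
    have e2 : ind (fun η => Conn (η.erase e) (src e) (tgt e)) (insert e η) = 1 := by
      simp [ind, Finset.erase_insert hne, hC]
    have e3 : ind (fun η => e ∈ η) η = 0 := by simp [ind, hne]
    have e4 : ind (fun η => e ∈ η) (insert e η) = 1 := by simp [ind]
    have e5 : odd q 1 a b η e = √q := by simp [odd, hC]
    rw [e1, e2, e3, e4, e5]
    have h1 : 0 ≤ (√q - 1) / (1 + √q) * (W * ind (fun η => ∃ q', q' ∉ box a b ∧ Conn (dual a b η) (pu e) q') η
        + √q * W * ind (fun η => ∃ q', q' ∉ box a b ∧ Conn (dual a b η) (pu e) q') (insert e η)) := by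
      positivity
    have h2 : W * 0 + √q * W * 1 = (W + √q * W) * (1 / (1 + √q) + (√q - 1) / (1 + √q)) := by
      field_simp
      ring
    linarith
  · have e1 : ind (fun η => Conn (η.erase e) (src e) (tgt e)) η = 0 := by
      simp [ind, Finset.erase_eq_of_notMem hne, hC]
    have e2 : ind (fun η => Conn (η.erase e) (src e) (tgt e)) (insert e η) = 0 := by
      simp [ind, Finset.erase_insert hne, hC]
    have e3 : ind (fun η => e ∈ η) η = 0 := by simp [ind, hne]
    have e4 : ind (fun η => e ∈ η) (insert e η) = 1 := by simp [ind]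
    by_cases hT : Tc a b η (src e) ∧ Tc a b η (tgt e)
    · have e5 : odd q 1 a b η e = √q := by simp [odd, hT]
      have hnd : ¬ Conn (dual a b (insert e η)) (pu e) (pl e) := by
        intro h
        have h' := (caseB_box hab hηE he h).2
        rw [Finset.erase_eq_of_notMem hne] at h'
        exact h' hT
      have h3 := caseC_box hab hηE he (by rwa [Finset.erase_eq_of_notMem hne]) hnd
      obtain ⟨q', hq', hc⟩ := h3.2.2.1
      have e6 : ind (fun η => ∃ q', q' ∉ box a b ∧ Conn (dual a b η) (pu e) q') (insert e η) = 1 := by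
        unfold ind
        rw [if_pos ⟨q', hq', hc⟩]
      have e7 : ind (fun η => ∃ q', q' ∉ box a b ∧ Conn (dual a b η) (pu e) q') η = 1 := by
        unfold ind
        rw [if_pos]
        refine ⟨q', hq', Conn.mono ?_ hc⟩
        intro f hf
        unfold dual at hf ⊢
        rw [Finset.mem_filter] at hf ⊢
        exact ⟨hf.1, fun h => hf.2 (Finset.mem_insert_of_mem h)⟩
      rw [e1, e2, e3, e4, e5, e6, e7]
      apply le_of_eq
      field_simp
      ring
    · have e5 : odd q 1 a b η e = 1 / √q := by simp [odd, hC, hT]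
      rw [e1, e2, e3, e4, e5]
      have h1 : 0 ≤ (√q - 1) / (1 + √q) * (W * ind (fun η => ∃ q', q' ∉ box a b ∧ Conn (dual a b η) (pu e) q') η
          + 1 / √q * W * ind (fun η => ∃ q', q' ∉ box a b ∧ Conn (dual a b η) (pu e) q') (insert e η)) := by
        positivity
      have h2 : W * 0 + 1 / √q * W * 1 = (W + 1 / √q * W) * (1 / (1 + √q)) := by
        field_simp
        ring
      linarith

end P0q
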