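import Pool.Agent.Lib.P0q.F3FW
import Pool.Agent.Lib.P0q.R10Loc
import Pool.Agent.Lib.P0q.R11Dens

/-!
# F4Dens: the edge densities agree in the limit ((7.3), (7.4) of Q4_proof.md)

`bdiff`: fix `e`, `ε > 0`. Write `F_n`, `W_n` for the free and wired probabilities (`ev (EE n) (fw q)`, `ev (EE n) (Wn q n)`; `rc_free_ex` identifies
`rcW q q` with `fw q`), `b = {Conn (η.erase e) u v}`, `c = {Sn (insert e η) e = 4}` (both increasing: `Sn_up`), `p₁ = √q/(1+√q)`. By `loc_id`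
(for `qb = 1` and `qb = q`, `n` large such that `e ∈ EE n`)
`E_{W_n} Sn - E_{F_n} Sn = 2 p₁ (W_n(b) - F_n(b)) + (2 + 2/(1+√q)) (W_n(c) - F_n(c)) ≥ 2 p₁ (W_n(b) - F_n(b))`, since `F_n ≤ W_n` on increasing events (`rc_dom` with `qb = 1`, `qb' = q`,
`mono_ind`). `Sn` is the sum of four indicators `Am η x y`, `(x, y)` corners of `e` (`y ∈ nbP x`: `pu e, pl e ∈ nbP (src e), nbP (tgt e)`), so
`E_{W_n} Sn ≤ 2 + 4ε'`, `E_{F_n} Sn ≥ 2 - 4ε'` eventually (`wired_half`, `free_half`; `ex` of a sum: `ex_add`). So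
`W_n(b) - F_n(b) ≤ 8ε'/(2p₁)`, and `p₁ ≥ 1/2`: choose `ε' = ε/8`.

`ddiff`: `dens_free`, `dens_wired`: `W_n(e) - F_n(e) ≤ ((√q-1)/(1+√q)) (W_n(b) - F_n(b) + W_n(∃ q' ∉ box (-n) n, Conn (dual η) (pu e) q'))`, the factor is `≤ 1`; the last
event implies `Cross R₀ R (dual ∩ inner)` for `R₀` with `pu e ∈ box (-R₀) (R₀+1)`, `R₀ ≤ R < n` (`dual_cross`), and
`wired_dual_cross` bounds its probability by `μ(Cross R₀ R) + ε'`, where `R` is chosen by `Core.noinf`.
-/

set_option autoImplicit false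

open Finset P0de MeasureTheory Filter Topology

namespace P0q

namespace F4DensAux

theorem Sn_ex (E : Finset Ed) (w : Finset Ed → ℝ) (e : Ed) :
    ex E w (fun η => (Sn η e : ℝ)) =
      ev E w (fun η => Am η (src e) (pu e)) + ev E w (fun η => Am η (src e) (pl e)) +
      ev E w (fun η => Am η (tgt e) (pu e)) + ev E w (fun η => Am η (tgt e) (pl e)) := by
  classical
  unfold ev
  rw [← ex_add, ← ex_add, ← ex_add]
  have h : (fun η => (Sn η e : ℝ)) = fun η =>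
      ind (fun η => Am η (src e) (pu e)) η + ind (fun η => Am η (src e) (pl e)) η +
      ind (fun η => Am η (tgt e) (pu e)) η + ind (fun η => Am η (tgt e) (pl e)) η := by
    funext η
    simp only [Sn, ind, Nat.cast_add, Nat.cast_ite, Nat.cast_one, Nat.cast_zero]
  rw [h]

theorem mem_EE (e : Ed) : ∃ N : ℕ, ∀ n : ℕ, N ≤ n → e ∈ EE n := by
  obtain ⟨⟨i, j⟩, c⟩ := e
  refine ⟨i.natAbs + j.natAbs + 1, fun n hn => ?_⟩
  rw [P0de.mem_inner, P0de.mem_box, P0de.mem_box]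
  cases c <;>
    simp only [src, tgt, dir, cond_true, cond_false, Prod.mk_add_mk] <;> omega

theorem mem_bx (x : Site) : ∃ R : ℕ, x ∈ box (-(R : ℤ)) (R + 1) := by
  obtain ⟨i, j⟩ := x
  refine ⟨i.natAbs + j.natAbs + 1, ?_⟩
  rw [P0de.mem_box]
  dsimp only
  omega

theorem free_ev {q : ℝ} (hq : 4 < q) (n : ℕ) (A : Finset Ed → Prop) :
    ev (inner (-(n : ℤ)) ((n : ℤ) + 1)) (rcW q q (pc q) (-(n : ℤ)) n) A = ev (EE n) (fw q) A :=
  rc_free_ex (by linarith) _ _ _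

end F4DensAux

open F4DensAux

theorem free_le_wired {q : ℝ} (hq : 4 < q) (n : ℕ) {A : Finset Ed → Prop} (hA : Up A) :
    ev (EE n) (fw q) A ≤ ev (EE n) (Wn q n) A := by
  have h := rc_dom (q := q) (qb := 1) (qb' := q) le_rfl (by linarith) le_rfl (-(n : ℤ)) (n : ℤ)
    (g := ind A) (mono_ind hA)
  rw [rc_free_ex (by linarith)] at h
  exact h

theorem bdiff {q : ℝ} (hq : 4 < q) {μ : Measure (Ed → Bool)} (hμ : Core q μ)
    (hH : HalfAll μ) (e : Ed) {ε : ℝ} (hε : 0 < ε) :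
    ∀ᶠ n : ℕ in atTop, ev (EE n) (Wn q n) (fun η => Conn (η.erase e) (src e) (tgt e)) ≤
      ev (EE n) (fw q) (fun η => Conn (η.erase e) (src e) (tgt e)) + ε := by
  obtain ⟨N, hN⟩ := mem_EE e
  have hε' : 0 < ε / 8 := by linarith
  filter_upwards [wired_half hq hμ hH (flip_pu_src e) hε',
    wired_half hq hμ hH (flip_pl_src e) hε',
    wired_half hq hμ hH (flip_pu_tgt e) hε', wired_half hq hμ hH (flip_pl_tgt e) hε',
    free_half hq hμ hH (flip_pu_src e) hε', free_half hq hμ hH (flip_pl_src e) hε',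
    free_half hq hμ hH (flip_pu_tgt e) hε', free_half hq hμ hH (flip_pl_tgt e) hε',
    eventually_ge_atTop N, eventually_gt_atTop 0] with n w1 w2 w3 w4 f1 f2 f3 f4 hn hn0
  have he := hN n hn
  have hab : -(n : ℤ) < n := by omega
  have hW := loc_id hq (Or.inl rfl) hab he
  have hF := loc_id hq (Or.inr rfl) hab he
  rw [Sn_ex] at hW hF
  simp only [free_ev hq n] at hF
  have hb := free_le_wired hq n (Sn_up e).1
  have hc := free_le_wired hq n (Sn_up e).2
  have hs : 2 < √q := by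
    rw [Real.lt_sqrt (by norm_num)]
    linarith
  have hp : 1 / 2 ≤ √q / (1 + √q) := by
    rw [div_le_div_iff₀ (by norm_num) (by linarith)]
    linarith
  have hc2 : 0 ≤ 2 + 2 / (1 + √q) := by positivity
  generalize √q / (1 + √q) = p at hW hF hp
  generalize 2 + 2 / (1 + √q) = c at hW hF hc2
  have h1 := mul_nonneg (show (0 : ℝ) ≤ 2 * p - 1 by linarith) (sub_nonneg.2 hb)
  have h2 := mul_nonneg hc2 (sub_nonneg.2 hc)
  change ev (EE n) (Wn q n) _ + ev (EE n) (Wn q n) _ + ev (EE n) (Wn q n) _ +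
    ev (EE n) (Wn q n) _ = 2 * p * ev (EE n) (Wn q n) _ + c * ev (EE n) (Wn q n) _ at hW
  linarith

theorem ddiff {q : ℝ} (hq : 4 < q) {μ : Measure (Ed → Bool)} (hμ : Core q μ)
    (hH : HalfAll μ) (e : Ed) {ε : ℝ} (hε : 0 < ε) :
    ∀ᶠ n : ℕ in atTop, ev (EE n) (Wn q n) (fun η => e ∈ η) ≤
      ev (EE n) (fw q) (fun η => e ∈ η) + ε := by
  obtain ⟨N, hN⟩ := mem_EE e
  obtain ⟨R₀, hR₀⟩ := mem_bx (pu e)
  have hε' : 0 < ε / 3 := by linarith
  obtain ⟨R, hR, hRK⟩ := hμ.noinf R₀ (ε / 3) hε'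
  filter_upwards [bdiff hq hμ hH e hε', wired_dual_cross hq hμ R₀ R hε',
    eventually_ge_atTop N, eventually_gt_atTop R] with n hb hx hn hnR
  have he := hN n hn
  have hab : -(n : ℤ) < n := by omega
  have hW := dens_wired hq hab he
  have hF := dens_free hq he
  simp only [free_ev hq n] at hF
  have hcr : ev (inner (-(n : ℤ)) ((n : ℤ) + 1)) (rcW q 1 (pc q) (-(n : ℤ)) n)
      (fun η => ∃ q', q' ∉ box (-(n : ℤ)) n ∧ Conn (dual (-(n : ℤ)) n η) (pu e) q') ≤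
      ev (EE n) (Wn q n) (fun η => Cross R₀ R (dual (-(n : ℤ)) n η ∩ inner (-(n : ℤ)) n)) := by
    refine ev_le (fun η _ => rcW_pos (by linarith) one_pos _ _ η) fun η _ h => ?_
    obtain ⟨q', h1, h2⟩ := h
    exact dual_cross hR.le hnR hR₀ h1 h2
  have hRR := hRK R le_rfl
  have hs : 2 < √q := by
    rw [Real.lt_sqrt (by norm_num)]
    linarith
  have hk0 : 0 ≤ (√q - 1) / (1 + √q) := div_nonneg (by linarith) (by linarith)
  have hk1 : (√q - 1) / (1 + √q) ≤ 1 := by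
    rw [div_le_one (by linarith)]
    linarith
  generalize (√q - 1) / (1 + √q) = k at hW hF hk0 hk1
  generalize 1 / (1 + √q) = c at hW hF
  change ev (EE n) (Wn q n) _ ≤ c + k * (ev (EE n) (Wn q n) _ + ev (EE n) (Wn q n) _) at hW
  change ev (EE n) (Wn q n) _ ≤ _ at hcr
  have h1 := mul_le_mul_of_nonneg_left
    (show ev (EE n) (Wn q n) (fun η => Conn (η.erase e) (src e) (tgt e)) -
      ev (EE n) (fw q) (fun η => Conn (η.erase e) (src e) (tgt e)) +
      ev (EE n) (Wn q n) (fun η => ∃ q', q' ∉ box (-(n : ℤ)) n ∧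
        Conn (dual (-(n : ℤ)) n η) (pu e) q') ≤ ε by linarith) hk0
  have h2 : k * ε ≤ ε := by nlinarith
  linarith

end P0q
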