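import Pool.Agent.Lib.P0q.F4Dens

/-!
# F5Loc: local increasing events agree in the limit ((7.5) of Q4_proof.md)

`A` increasing, `E` finite. `g η = ∑_{f ∈ E} 1[f ∈ η] - 1[A (η ∩ E)]` is monotone: for `η ⊆ η'`: if `η ∩ E = η' ∩ E` nothing changes; otherwise the sum
increases by at least 1 and the indicator by at most 1. So `ex (EE n) (fw q) g ≤ ex (EE n) (Wn q n) g` (`rc_dom`, `rc_free_ex`), i.e.
`W_n(A) - F_n(A) ≤ ∑_{f ∈ E} (W_n(f) - F_n(f))`, and `ddiff` for the finitely many `f ∈ E` with `ε/(|E|+1)`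
(`Filter.eventually_all_finset`).
-/

set_option autoImplicit false

open Finset P0de MeasureTheory Filter Topology

namespace P0q

namespace F5

theorem ex_sum (E : Finset Ed) (w : Finset Ed → ℝ) (F : Finset Ed) (g : Ed → Finset Ed → ℝ) :
    ex E w (fun η => ∑ f ∈ F, g f η) = ∑ f ∈ F, ex E w (g f) := by
  induction F using Finset.induction_on with
  | empty => simp [ex]
  | insert f F hf ih =>
    rw [sum_insert hf, ← ih, ← ex_add]
    congr 1
    funext η
    rw [sum_insert hf]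

theorem mono_g {K E : Finset Ed} {A : Finset Ed → Prop} :
    MonoOn K (fun η => ∑ f ∈ E, ind (fun η => f ∈ η) η + (-1) * ind (fun η => A (η ∩ E)) η) := by
  classical
  intro η η' h _
  have h1 : ∀ f ∈ E, ind (fun η => f ∈ η) η ≤ ind (fun η => f ∈ η) η' := by
    intro f _
    unfold ind
    by_cases h2 : f ∈ η
    · rw [if_pos h2, if_pos (h h2)]
    · rw [if_neg h2]
      split_ifs <;> norm_num
  by_cases h3 : η ∩ E = η' ∩ E
  · have h4 : ind (fun η => A (η ∩ E)) η = ind (fun η => A (η ∩ E)) η' := by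
      unfold ind
      simp only [h3]
    dsimp only
    rw [h4]
    have h5 := sum_le_sum h1
    linarith
  · obtain ⟨f₀, hf1, hf2⟩ : ∃ f₀ ∈ η' ∩ E, f₀ ∉ η ∩ E := by
      by_contra hc
      push Not at hc
      exact h3 (Subset.antisymm (inter_subset_inter_right h) hc)
    rw [mem_inter] at hf1
    have hf3 : f₀ ∉ η := fun h' => hf2 (mem_inter.2 ⟨h', hf1.2⟩)
    have h6 : ∑ f ∈ E, ind (fun η => f ∈ η) η + 1 ≤ ∑ f ∈ E, ind (fun η => f ∈ η) η' := by
      rw [← add_sum_erase E _ hf1.2, ← add_sum_erase E (fun f => ind (fun η => f ∈ η) η') hf1.2]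
      have h7 : ind (fun η => f₀ ∈ η) η = 0 := by
        unfold ind
        rw [if_neg hf3]
      have h8 : ind (fun η => f₀ ∈ η) η' = 1 := by
        unfold ind
        rw [if_pos hf1.1]
      have h9 : ∑ f ∈ E.erase f₀, ind (fun η => f ∈ η) η ≤
          ∑ f ∈ E.erase f₀, ind (fun η => f ∈ η) η' :=
        sum_le_sum fun f hf => h1 f (mem_of_mem_erase hf)
      linarith
    have h10 : ∀ ζ : Finset Ed, 0 ≤ ind (fun η => A (η ∩ E)) ζ ∧ ind (fun η => A (η ∩ E)) ζ ≤ 1 := by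
      intro ζ
      unfold ind
      split_ifs <;> norm_num
    have h11 := (h10 η).1
    have h12 := (h10 η').2
    dsimp only
    linarith

theorem step {q : ℝ} (hq : 4 < q) (n : ℕ) (E : Finset Ed) {A : Finset Ed → Prop} :
    ev (EE n) (Wn q n) (fun η => A (η ∩ E)) - ev (EE n) (fw q) (fun η => A (η ∩ E)) ≤
      ∑ f ∈ E, (ev (EE n) (Wn q n) (fun η => f ∈ η) - ev (EE n) (fw q) (fun η => f ∈ η)) := by
  have h1 : ex (EE n) (fw q)
      (fun η => ∑ f ∈ E, ind (fun η => f ∈ η) η + (-1) * ind (fun η => A (η ∩ E)) η) ≤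
      ex (EE n) (Wn q n)
      (fun η => ∑ f ∈ E, ind (fun η => f ∈ η) η + (-1) * ind (fun η => A (η ∩ E)) η) := by
    have h2 := rc_free_ex (q := q) (by linarith) (-(n : ℤ)) n
      (fun η => ∑ f ∈ E, ind (fun η => f ∈ η) η + (-1) * ind (fun η => A (η ∩ E)) η)
    have h3 := rc_dom (q := q) (qb := 1) (qb' := q) le_rfl (by linarith) le_rfl (-(n : ℤ)) n
      (mono_g (K := EE n) (E := E) (A := A))
    exact h2.symm.le.trans h3
  rw [ex_add, ex_add, ex_smul, ex_smul, ex_sum, ex_sum] at h1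
  rw [sum_sub_distrib]
  unfold ev
  linarith

end F5

theorem locdiff {q : ℝ} (hq : 4 < q) {μ : Measure (Ed → Bool)} (hμ : Core q μ)
    (hH : HalfAll μ) (E : Finset Ed) {A : Finset Ed → Prop} (hA : Up A) {ε : ℝ} (hε : 0 < ε) :
    ∀ᶠ n : ℕ in atTop, ev (EE n) (Wn q n) (fun η => A (η ∩ E)) ≤
      ev (EE n) (fw q) (fun η => A (η ∩ E)) + ε := by
  have _ := hA
  have hδ : 0 < ε / (E.card + 1) := div_pos hε (by positivity)
  have h1 : ∀ᶠ n : ℕ in atTop, ∀ f ∈ E, ev (EE n) (Wn q n) (fun η => f ∈ η) ≤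
      ev (EE n) (fw q) (fun η => f ∈ η) + ε / (E.card + 1) :=
    (Filter.eventually_all_finset E).2 fun f _ => ddiff hq hμ hH f hδ
  filter_upwards [h1] with n hn
  have h2 := F5.step hq n E (A := A)
  have h3 : ∑ f ∈ E, (ev (EE n) (Wn q n) (fun η => f ∈ η) - ev (EE n) (fw q) (fun η => f ∈ η)) ≤
      ∑ f ∈ E, ε / (E.card + 1) := sum_le_sum fun f hf => by linarith [hn f hf]
  rw [sum_const, nsmul_eq_mul] at h3
  have h4 : (E.card : ℝ) * (ε / (E.card + 1)) ≤ ε := by
    rw [mul_div_assoc', div_le_iff₀ (by positivity)]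
    nlinarith
  linarith

end P0q
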