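import Pool.Agent.Lib.P0q.F1Shrink

/-!
# F6Near: without crossings the origin is deeply nested (deterministic part of (7.6) of Q4_proof.md)

`r : ℕ → ℕ` with `r i + 2 ≤ r (i+1)`, `1 ≤ r 0`, `r (2m+3) < n`, `η ⊆ EE n`, and for every `i ≤ 2m + 2`: no active crossing
`Cross (r i) (r (i+1)) η` and no passive crossing `Cross (r i) (r (i+1)) (dual (-n) n η ∩ inner (-n) n)`. Then `0` is not `Near` with `m` corners.

Claim by induction on `k ≤ m`: if the vertex `z` of the disc (active or passive) has its site in `box (-r i) (r i + 1)` and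
`i + 2k ≤ 2m`..., then not `Near k z`; precisely: for all `k ≤ m` and all `i` with `i + 2k ≤ 2m + 1`, every vertex `z` whose site lies in
`[-r i, r i]²` satisfies `¬ Near (cf η) k z`.
- A vertex `z'` connected to `z` (`Con`) has its site in `[-r (i+1), r (i+1)]²`: active: if the cluster of `z` reached outside it would connect `z` to `bdry (-r (i+1)) (r (i+1))`
  (`Tc_shrink`-like argument: first visit; `con_act`) and give `Cross (r i) (r (i+1)) η`; passive: the same with `dual` (`con_pas`; for a chain staying inside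
  `[-r(i+1), r(i+1)]²` all its passive edges are in `EE (r (i+1)) ⊆ inner (-n) n` (`EE_sub`), and the first visit to
  `bdry (-r (i+1)) (r (i+1))`).
- `k = 0`: `Near 0 z` means `Con z y` with `y ∈ bd`; the site of `y` is in `[-r (i+1), r (i+1)]²` with `r (i+1) < n`: but boundary vertices of the disc of
  `[-n, n]²` have sites in `bdry (-n) n` or outside `box (-n) n` (`mem_bd_act`, `mem_bd_pas`): contradiction, since `i + 1 ≤ 2m + 2`.
- `k + 1`: `Near (k+1) z`: `Near k z` is excluded by induction (same `i`), or `Con z z'`, `cor z' y`, `Near k y`. The site of `z'` is in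
  `[-r (i+1), r (i+1)]²`, so the site of `y` (a neighbour: `nbP`/`nbA` differ by at most 1 in each coordinate, `cor_box`) is in
  `[-r (i+1) - 1, r (i+1) + 1]² ⊆ [-r (i+2), r (i+2)]²`, contradiction to the induction hypothesis for `i + 2`.
Apply with `k = m`, `i = 0`, `z = (0, 0)` active.
-/

set_option autoImplicit false

open Finset P0de MeasureTheory Filter Topology

namespace P0q

theorem zero_mem {n : ℕ} : (((0 : ℤ), (0 : ℤ)), true) ∈ VS (-(n : ℤ)) n := by
  rw [mem_VS_true, P0de.mem_box]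
  dsimp only
  omega

namespace F6NearAux

/-- a chain starting in `[-K, K]²` and not meeting the boundary stays inside -/
theorem stay {K : ℕ} {ζ : Finset Ed} {x y : Site} (hx : x ∈ box (-(K : ℤ)) (K + 1))
    (hc : Conn ζ x y) (hT : ¬ Tc (-(K : ℤ)) K (ζ ∩ EE K) x) :
    y ∈ box (-(K : ℤ)) (K + 1) ∧ Conn (ζ ∩ EE K) x y := by
  induction hc with
  | refl => exact ⟨hx, Relation.ReflTransGen.refl⟩
  | @tail u v _ h2 ih =>
    obtain ⟨hu, hcu⟩ := ih
    have hub : u ∉ bdry (-(K : ℤ)) K := fun hb => hT ⟨u, hb, hcu⟩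
    obtain ⟨e, he, hse⟩ := h2
    obtain ⟨⟨i, j⟩, c⟩ := e
    obtain ⟨u1, u2⟩ := u
    obtain ⟨v1, v2⟩ := v
    simp only [bdry, Finset.mem_sdiff, not_and, not_not] at hub
    have hub' := hub hu
    rw [P0de.mem_box] at hub' hu
    dsimp only at hub' hu
    have hv : ((v1, v2) : Site) ∈ box (-(K : ℤ)) (K + 1) := by
      rw [P0de.mem_box]
      dsimp only
      cases c
      · simp only [src, tgt, dir, cond_false, Prod.mk_add_mk, Prod.mk.injEq] at hse
        omega
      · simp only [src, tgt, dir, cond_true, Prod.mk_add_mk, Prod.mk.injEq] at hse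
        omega
    have huu : ((u1, u2) : Site) ∈ box (-(K : ℤ)) (K + 1) := by
      rw [P0de.mem_box]
      exact hu
    refine ⟨hv, Relation.ReflTransGen.tail hcu ⟨((i, j), c), ?_, hse⟩⟩
    rw [Finset.mem_inter]
    refine ⟨he, ?_⟩
    rw [P0de.mem_inner]
    rcases hse with ⟨h1, h2⟩ | ⟨h1, h2⟩
    · rw [h1, h2]; exact ⟨huu, hv⟩
    · rw [h1, h2]; exact ⟨hv, huu⟩

/-- own diagonals preserve the type of a vertex -/
theorem flag {a b : ℤ} {ω : MM a b → Bool} {z z' : VV a b} (h : (BQ a b).Con ω z z') :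
    z'.1.2 = z.1.2 := by
  induction h with
  | refl => rfl
  | tail _ h2 ih =>
    obtain ⟨e, i, h3, h4⟩ := h2
    rw [← ih, h3, h4, B8.en_flag, B8.en_flag]

/-- the two vertices of a corner are close -/
theorem close {a b : ℤ} {z y : VV a b} (h : (BQ a b).cor z y) :
    (y.1.1.1 ≤ z.1.1.1 + 1 ∧ z.1.1.1 ≤ y.1.1.1 + 1) ∧
      (y.1.1.2 ≤ z.1.1.2 + 1 ∧ z.1.1.2 ≤ y.1.1.2 + 1) := by
  obtain ⟨_, e, he⟩ := h
  rw [Quad.sq, Finset.mem_filter] at he
  obtain ⟨_, ⟨c, i, hz⟩, ⟨c', i', hy⟩⟩ := he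
  subst hz
  subst hy
  obtain ⟨⟨⟨p, q⟩, d⟩, he⟩ := e
  cases c <;> cases i <;> cases c' <;> cases i' <;> cases d <;>
    simp [BQ, src, tgt, pu, pl, dir] <;> omega

/-- clusters of vertices of `[-r, r]²` stay in `[-K, K]²` -/
theorem con_stay {n r K : ℕ} {η : Finset Ed} (hη : η ⊆ EE n) (hrK : r ≤ K) (hK : K < n)
    (h1 : ¬ Cross r K η) (h2 : ¬ Cross r K (dual (-(n : ℤ)) n η ∩ inner (-(n : ℤ)) n))
    {z z' : VV (-(n : ℤ)) n} (hz : z.1.1 ∈ box (-(r : ℤ)) (r + 1))
    (h : (BQ (-(n : ℤ)) n).Con (cf (-(n : ℤ)) n η) z z') : z'.1.1 ∈ box (-(K : ℤ)) (K + 1) := by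
  have hzK : z.1.1 ∈ box (-(K : ℤ)) (K + 1) := by
    rw [P0de.mem_box] at hz ⊢
    omega
  have hf := flag h
  obtain ⟨⟨x, c⟩, hx⟩ := z
  obtain ⟨⟨x', c'⟩, hx'⟩ := z'
  dsimp only at hf hz hzK ⊢
  subst hf
  cases c'
  · have hc : Conn (dual (-(n : ℤ)) n η) x x' := (con_pas η hx hx').1 h
    have hT : ¬ Tc (-(K : ℤ)) K (dual (-(n : ℤ)) n η ∩ EE K) x := by
      intro hT
      refine h2 ⟨x, hz, ?_⟩
      rwa [Finset.inter_assoc, Finset.inter_eq_right.2 (EE_sub hK)]
    exact (stay hzK hc hT).1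
  · have hc : Conn η x x' := (con_act hη hx hx').1 h
    exact (stay hzK hc (fun hT => h1 ⟨x, hz, hT⟩)).1

/-- vertices of `[-K, K]²` are not on the boundary of `[-n, n]²` for `K < n` -/
theorem not_bd {n K : ℕ} (hK : K < n) {z : VV (-(n : ℤ)) n}
    (hz : z.1.1 ∈ box (-(K : ℤ)) (K + 1)) : z ∉ (BQ (-(n : ℤ)) n).bd := by
  intro hb
  have hb' : (z.1.2 = true ∧ z.1.1 ∈ bdry (-(n : ℤ)) n) ∨
      (z.1.2 = false ∧ z.1.1 ∉ box (-(n : ℤ)) n) := (Finset.mem_filter.1 hb).2
  rw [P0de.mem_box] at hz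
  rcases hb' with ⟨_, h2⟩ | ⟨_, h2⟩
  · simp only [bdry, Finset.mem_sdiff, P0de.mem_box] at h2
    omega
  · simp only [P0de.mem_box] at h2
    omega

end F6NearAux

theorem not_near {n m : ℕ} {η : Finset Ed} (hη : η ⊆ EE n) {r : ℕ → ℕ} (h0 : 1 ≤ r 0)
    (hr : ∀ i, r i + 2 ≤ r (i + 1)) (hn : r (2 * m + 3) < n)
    (h1 : ∀ i ≤ 2 * m + 2, ¬ Cross (r i) (r (i + 1)) η)
    (h2 : ∀ i ≤ 2 * m + 2, ¬ Cross (r i) (r (i + 1)) (dual (-(n : ℤ)) n η ∩ inner (-(n : ℤ)) n)) :
    ¬ (BQ (-(n : ℤ)) n).Near (cf (-(n : ℤ)) n η) m ⟨(((0 : ℤ), (0 : ℤ)), true), zero_mem⟩ := by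
  have hmono : StrictMono r := strictMono_nat_of_lt_succ fun i => by
    have := hr i
    omega
  have hle : ∀ i, i ≤ 2 * m + 3 → r i < n := fun i hi =>
    lt_of_le_of_lt (hmono.monotone hi) hn
  have key : ∀ k i, i + 2 * k ≤ 2 * m + 1 → ∀ z : VV (-(n : ℤ)) n,
      z.1.1 ∈ box (-(r i : ℤ)) (r i + 1) →
      ¬ (BQ (-(n : ℤ)) n).Near (cf (-(n : ℤ)) n η) k z := by
    intro k
    induction k with
    | zero =>
      intro i hi z hz hN
      obtain ⟨y, hy, hc⟩ := hN
      have hs := F6NearAux.con_stay hη (hmono.monotone (Nat.le_add_right i 1)) (hle (i + 1) (by omega))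
        (h1 i (by omega)) (h2 i (by omega)) hz hc
      exact F6NearAux.not_bd (hle (i + 1) (by omega)) hs hy
    | succ k ih =>
      intro i hi z hz hN
      rcases hN with hN | ⟨z', y, hc, hcor, hN⟩
      · exact ih i (by omega) z hz hN
      · have hs := F6NearAux.con_stay hη (hmono.monotone (Nat.le_add_right i 1)) (hle (i + 1) (by omega))
          (h1 i (by omega)) (h2 i (by omega)) hz hc
        have hcl := F6NearAux.close hcor
        refine ih (i + 2) (by omega) y ?_ hN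
        have h3 : r (i + 1) + 2 ≤ r (i + 2) := hr (i + 1)
        rw [P0de.mem_box] at hs ⊢
        omega
  refine key m 0 (by omega) _ ?_
  rw [P0de.mem_box]
  dsimp only
  omega

end P0q
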