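import Pool.Agent.Lib.P0q.K4Turn

/-!
# H1Ph: the exponent under shifts ((2.1) of Q4_proof.md)

`ph_shf`: `S` a union of clusters of `ω`, `h' = shf S r h = h + 2·1_S - const`. `Dl e` of a constant is `0`, so only `2·1_S` counts:
the contribution of a square `e` to `ph ω h' - ph ω h` is (sign `+` if open, `-` if closed) `±2 (#{f,g} ∩ S - #{u,v} ∩ S)`, i.e.
`2 (number of ends of the other diagonal in S) - 2 (number of ends of the own diagonal in S)`; the latter number is `2` if
`e ∈ MS ω S` and `0` otherwise. The sum over `e` is `2 ∑_e (#vertices of e in S) - 2·2·2... `: precisely, with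
`o_e` = ends of the own diagonal in `S` (= `2` on `MS`, `0` else) and `t_e` = all vertices of `e` in `S`
(`t_e - o_e` = ends of the other one): `∑_e 2((t_e - o_e) - o_e) = 2 ∑_e t_e - 4·2 |MS| = 2 (∑_{x ∈ S} deg x - 4|MS|)`, using
`∑_e t_e = ∑_{x ∈ S} deg x` (the four vertices of a square are distinct: `pr_en`, `en_ne`).

`ph_neg`, `ph_upd` (the change of the state of one square) and `Dl` facts: immediate.
-/

set_option autoImplicit false

open Finset P0de

namespace P0q

variable {V M : Type} [Fintype V] [DecidableEq V] [Fintype M] [DecidableEq M] (Q : Quad V M)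

namespace Quad

private theorem on_ind (hQ : Q.IsDisc) (e : M) (x : V) :
    (if Q.on e x then (1 : ℤ) else 0) =
      (if Q.en e false false = x then 1 else 0) + (if Q.en e false true = x then 1 else 0)
      + (if Q.en e true false = x then 1 else 0) + (if Q.en e true true = x then 1 else 0) := by
  have hp := hQ.pr_en e
  have h1 := hQ.en_ne e false
  have h2 := hQ.en_ne e true
  by_cases hx : Q.on e x
  · rw [if_pos hx]
    obtain ⟨c, i, hci⟩ := hx
    have hpx : Q.pr x = c := by rw [← hci]; exact hp c i
    cases c
    · have a1 : Q.en e true false ≠ x := by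
        intro h; have := hp true false; rw [h, hpx] at this; exact absurd this (by decide)
      have a2 : Q.en e true true ≠ x := by
        intro h; have := hp true true; rw [h, hpx] at this; exact absurd this (by decide)
      rw [if_neg a1, if_neg a2]
      cases i
      · have a3 : Q.en e false true ≠ x := by
          intro h; exact h1 (hci.trans h.symm)
        rw [if_pos hci, if_neg a3]; norm_num
      · have a3 : Q.en e false false ≠ x := by
          intro h; exact h1 (h.trans hci.symm)
        rw [if_pos hci, if_neg a3]; norm_num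
    · have a1 : Q.en e false false ≠ x := by
        intro h; have := hp false false; rw [h, hpx] at this; exact absurd this (by decide)
      have a2 : Q.en e false true ≠ x := by
        intro h; have := hp false true; rw [h, hpx] at this; exact absurd this (by decide)
      rw [if_neg a1, if_neg a2]
      cases i
      · have a3 : Q.en e true true ≠ x := by
          intro h; exact h2 (hci.trans h.symm)
        rw [if_pos hci, if_neg a3]; norm_num
      · have a3 : Q.en e true false ≠ x := by
          intro h; exact h2 (h.trans hci.symm)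
        rw [if_pos hci, if_neg a3]; norm_num
  · rw [if_neg hx]
    have a : ∀ c i, Q.en e c i ≠ x := fun c i h => hx ⟨c, i, h⟩
    rw [if_neg (a _ _), if_neg (a _ _), if_neg (a _ _), if_neg (a _ _)]; norm_num

private theorem on_sum (hQ : Q.IsDisc) (e : M) (S : Finset V) :
    ∑ x ∈ S, (if Q.on e x then (1 : ℤ) else 0) =
      (if Q.en e false false ∈ S then 1 else 0) + (if Q.en e false true ∈ S then 1 else 0)
      + (if Q.en e true false ∈ S then 1 else 0) + (if Q.en e true true ∈ S then 1 else 0) := by
  rw [Finset.sum_congr rfl fun x _ => on_ind Q hQ e x]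
  simp only [Finset.sum_add_distrib, Finset.sum_ite_eq]

private theorem deg_sum (S : Finset V) :
    ∑ x ∈ S, (Q.deg x : ℤ) = ∑ e, ∑ x ∈ S, (if Q.on e x then (1 : ℤ) else 0) := by
  rw [Finset.sum_comm]
  refine Finset.sum_congr rfl fun x _ => ?_
  rw [deg, Finset.card_filter]
  push_cast
  rfl

private theorem term (hQ : Q.IsDisc) (ω : M → Bool) (S : Finset V) (hU : Q.UC ω S) (r : V)
    (h : V → ℤ) (e : M) :
    (if ω e then Q.Dl e (shf S r h) else - Q.Dl e (shf S r h)) =
      (if ω e then Q.Dl e h else - Q.Dl e h)
      + 2 * (∑ x ∈ S, (if Q.on e x then (1 : ℤ) else 0))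
      - 8 * (if Q.en e (ω e) false ∈ S then 1 else 0) := by
  rw [on_sum Q hQ e S]
  have hU' := hU e
  cases hω : ω e
  · rw [hω] at hU'
    simp only [Bool.false_eq_true, if_false, Dl, shf]
    by_cases a : Q.en e false false ∈ S
    · have b : Q.en e false true ∈ S := hU'.1 a
      simp only [a, b, if_true]
      ring_nf
      split_ifs <;> ring
    · have b : Q.en e false true ∉ S := fun hb => a (hU'.2 hb)
      simp only [a, b, if_false]
      split_ifs <;> ring
  · rw [hω] at hU'
    simp only [if_true, Dl, shf]
    by_cases a : Q.en e true false ∈ S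
    · have b : Q.en e true true ∈ S := hU'.1 a
      simp only [a, b, if_true]
      split_ifs <;> ring
    · have b : Q.en e true true ∉ S := fun hb => a (hU'.2 hb)
      simp only [a, b, if_false]
      split_ifs <;> ring

theorem ph_shf (hQ : Q.IsDisc) (ω : M → Bool) (S : Finset V) (hU : Q.UC ω S) (r : V) (h : V → ℤ) :
    Q.ph ω (shf S r h) = Q.ph ω h + 2 * Q.NS ω S := by
  unfold ph
  rw [Finset.sum_congr rfl fun e _ => term Q hQ ω S hU r h e, Finset.sum_sub_distrib,
    Finset.sum_add_distrib, ← Finset.mul_sum, ← Finset.mul_sum, ← deg_sum, NS, MS,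
    Finset.card_filter]
  push_cast
  ring

theorem ph_neg (ω : M → Bool) (h : V → ℤ) : Q.ph ω (fun z => - h z) = - Q.ph ω h := by
  unfold ph
  rw [← Finset.sum_neg_distrib]
  refine Finset.sum_congr rfl fun e _ => ?_
  cases ω e <;> simp only [Dl, if_true, Bool.false_eq_true, if_false] <;> ring

/-- open minus closed -/
theorem ph_upd (ω : M → Bool) (e₀ : M) (h : V → ℤ) :
    Q.ph (Function.update ω e₀ true) h = Q.ph (Function.update ω e₀ false) h + 2 * Q.Dl e₀ h := by
  unfold ph
  rw [← Finset.add_sum_erase _ _ (Finset.mem_univ e₀),
    ← Finset.add_sum_erase (a := e₀) (s := univ)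
      (f := fun e => if Function.update ω e₀ false e then Q.Dl e h else - Q.Dl e h)
      (Finset.mem_univ e₀)]
  have : ∑ e ∈ univ.erase e₀, (if Function.update ω e₀ true e then Q.Dl e h else - Q.Dl e h)
      = ∑ e ∈ univ.erase e₀, (if Function.update ω e₀ false e then Q.Dl e h else - Q.Dl e h) := by
    refine Finset.sum_congr rfl fun e he => ?_
    rw [Function.update_of_ne (Finset.ne_of_mem_erase he),
      Function.update_of_ne (Finset.ne_of_mem_erase he)]
  rw [this]
  simp only [Function.update_self, if_true, Bool.false_eq_true, if_false]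
  ring

end Quad

end P0q
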