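import Pool.Agent.Lib.P0q.H0Mem
import Pool.Agent.Lib.P0q.H1Ph

/-!
# H2Shift: the shift relation and the tanh identity ((2.2), (2.3) of Q4_proof.md)

`shift_sum`: `h ↦ shf S r h`, `S = side ω x y`, is a bijection from `{h ∈ Hs r, cmp ω h, h x = h y - 1}` onto
`{h ∈ Hs r, cmp ω h, h x = h y + 1}` (`mem_Hs`, `adm_shf`, `cmp_shf`, `exists_shf`; `shf S r h r = h r = 0`; injective because it adds a
function independent of `h`; `x ∈ S`, `y ∉ S` give the new difference). `F` is multiplied by `exp (2t)`, the exponent increases by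
`2 κ NS` (`ph_shf`).

`tanh_side`: `S` misses `bd`, `r ∈ bd`, `F` depends on the boundary heights only: `shf S r h` agrees with `h` on `bd`
(`r ∉ S`), so `t = 0`, `NS = 4` (`NS_side`): `Z₊ = exp (8κ) Z₋`. Every admissible `h` has `h x = h y ± 1`, so
`∑ F e^{κ ph} (h x - h y) = Z₊ - Z₋` and `Zf = Z₊ + Z₋`; `(e^{8κ} - 1)/(e^{8κ} + 1) = tanh (4κ)`.
-/

set_option autoImplicit false

open Finset P0de

namespace P0q

variable {V M : Type} [Fintype V] [DecidableEq V] [Fintype M] [DecidableEq M] (Q : Quad V M)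

namespace Quad

private theorem shf_diff (hQ : Q.IsDisc) (ω : M → Bool) {x y : V} (hxy : Q.cor x y) (r : V)
    (h : V → ℤ) : shf (Q.side ω x y) r h x - shf (Q.side ω x y) r h y = h x - h y + 2 := by
  have hx := Q.mem_side_self ω x y
  have hy := Q.notMem_side hQ ω hxy
  unfold shf
  simp only [hx, hy, if_true, if_false]
  ring

private theorem shf_inj (S : Finset V) (r : V) {h h' : V → ℤ} (he : shf S r h = shf S r h') :
    h = h' := by
  funext z
  have := congrFun he z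
  unfold shf at this
  omega

private theorem shf_root (S : Finset V) (r : V) (h : V → ℤ) : shf S r h r = h r := by
  unfold shf
  ring

open Classical in
theorem shift_sum (hQ : Q.IsDisc) (ω : M → Bool) {x y : V} (hxy : Q.cor x y) (r : V) (κ t : ℝ)
    (F : (V → ℤ) → ℝ) (hF : ∀ h, F (shf (Q.side ω x y) r h) = Real.exp (2 * t) * F h) :
    (∑ h ∈ Q.Hs r, if Q.cmp ω h ∧ h x = h y + 1 then F h * Real.exp (κ * (Q.ph ω h : ℝ)) else 0) =
    Real.exp (2 * (κ * (Q.NS ω (Q.side ω x y) : ℝ) + t)) *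
    ∑ h ∈ Q.Hs r, if Q.cmp ω h ∧ h x = h y - 1 then F h * Real.exp (κ * (Q.ph ω h : ℝ)) else 0 := by
  rw [← Finset.sum_filter, ← Finset.sum_filter, Finset.mul_sum]
  symm
  refine Finset.sum_bij (fun h _ => shf (Q.side ω x y) r h) ?_ ?_ ?_ ?_
  · intro h hh
    rw [mem_filter, Q.mem_Hs hQ] at hh
    obtain ⟨⟨h1, h2⟩, h3, h4⟩ := hh
    rw [mem_filter, Q.mem_Hs hQ]
    have h5 := shf_diff Q hQ ω hxy r h
    refine ⟨⟨Q.adm_shf hQ hxy r h1 h3 h4, by rw [shf_root, h2]⟩,
      (Q.cmp_shf (Q.side_UC hQ ω hxy) r h).2 h3, by omega⟩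
  · intro h _ h' _ he
    exact shf_inj _ _ he
  · intro h' hh
    rw [mem_filter, Q.mem_Hs hQ] at hh
    obtain ⟨⟨h1, h2⟩, h3, h4⟩ := hh
    obtain ⟨h, a1, a2, a3, a4, a5⟩ := Q.exists_shf hQ hxy r h1 h3 h2 h4
    refine ⟨h, ?_, a5⟩
    rw [mem_filter, Q.mem_Hs hQ]
    exact ⟨⟨a1, a3⟩, a2, a4⟩
  · intro h _
    rw [hF, Q.ph_shf hQ ω _ (Q.side_UC hQ ω hxy) r h]
    push_cast
    have h1 : Real.exp (κ * ((Q.ph ω h : ℝ) + 2 * (Q.NS ω (Q.side ω x y) : ℝ)))
        = Real.exp (κ * (Q.ph ω h : ℝ)) * Real.exp (2 * (κ * (Q.NS ω (Q.side ω x y) : ℝ))) := by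
      rw [← Real.exp_add]
      congr 1
      ring
    have h2 : Real.exp (2 * (κ * (Q.NS ω (Q.side ω x y) : ℝ) + t))
        = Real.exp (2 * (κ * (Q.NS ω (Q.side ω x y) : ℝ))) * Real.exp (2 * t) := by
      rw [← Real.exp_add]
      congr 1
      ring
    rw [h1, h2]
    ring

/-- a function of the boundary heights is invariant under shifts of a set missing the boundary -/
theorem BdF_shf {F : (V → ℤ) → ℝ} (hF : Q.BdF F) {S : Finset V} (hS : ¬ Q.Tb S) {r : V}
    (hr : r ∈ Q.bd) (h : V → ℤ) : F (shf S r h) = F h := by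
  apply hF
  intro z hz
  have h1 : z ∉ S := fun h => hS ⟨z, h, hz⟩
  have h2 : r ∉ S := fun h => hS ⟨r, h, hr⟩
  unfold shf
  simp only [h1, h2, if_false]
  ring

private theorem tanh_id (κ a : ℝ) :
    Real.exp (8 * κ) * a - a = Real.tanh (4 * κ) * (Real.exp (8 * κ) * a + a) := by
  have h0 : Real.exp (8 * κ) = Real.exp (4 * κ) * Real.exp (4 * κ) := by
    rw [← Real.exp_add]
    congr 1
    ring
  have h1 : Real.exp (-(4 * κ)) = (Real.exp (4 * κ))⁻¹ := Real.exp_neg _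
  have h2 : Real.exp (4 * κ) ≠ 0 := (Real.exp_pos _).ne'
  have h3 : Real.exp (4 * κ) * Real.exp (4 * κ) + 1 ≠ 0 := by positivity
  rw [Real.tanh_eq_sinh_div_cosh, Real.sinh_eq, Real.cosh_eq, h0, h1]
  field_simp

open Classical in
theorem tanh_side (hQ : Q.IsDisc) (ω : M → Bool) {x y : V} (hxy : Q.cor x y) {r : V}
    (hr : r ∈ Q.bd) (κ : ℝ) (F : (V → ℤ) → ℝ) (hF : Q.BdF F) (hS : ¬ Q.Tb (Q.side ω x y)) :
    (∑ h ∈ Q.Hs r, if Q.cmp ω h then
      F h * Real.exp (κ * (Q.ph ω h : ℝ)) * ((h x - h y : ℤ) : ℝ) else 0) =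
    Real.tanh (4 * κ) * Q.Zf r κ F ω := by
  have h1 := Q.shift_sum hQ ω hxy r κ 0 F (fun h => by
    rw [Q.BdF_shf hF hS hr h]; simp)
  rw [Q.NS_side hQ ω hxy hS] at h1
  set Zp := ∑ h ∈ Q.Hs r, if Q.cmp ω h ∧ h x = h y + 1 then
    F h * Real.exp (κ * (Q.ph ω h : ℝ)) else 0 with hZp
  set Zm := ∑ h ∈ Q.Hs r, if Q.cmp ω h ∧ h x = h y - 1 then
    F h * Real.exp (κ * (Q.ph ω h : ℝ)) else 0 with hZm
  have h2 : Zp = Real.exp (8 * κ) * Zm := by
    rw [h1]
    congr 2
    push_cast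
    ring
  have h3 : Q.Zf r κ F ω = Zp + Zm := by
    unfold Zf
    rw [hZp, hZm, ← Finset.sum_add_distrib]
    refine Finset.sum_congr rfl fun h hh => ?_
    rw [Q.mem_Hs hQ] at hh
    rcases hh.1 x y hxy with h4 | h4
    · simp only [h4, and_true]
      have h6 : ¬ h y + 1 = h y - 1 := by omega
      simp only [h6, and_false, if_false, add_zero]
    · have h6 : ¬ h y - 1 = h y + 1 := by omega
      simp only [h4, and_true, h6, and_false, if_false, zero_add]
  have h4 : (∑ h ∈ Q.Hs r, if Q.cmp ω h then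
      F h * Real.exp (κ * (Q.ph ω h : ℝ)) * ((h x - h y : ℤ) : ℝ) else 0) = Zp - Zm := by
    rw [hZp, hZm, ← Finset.sum_sub_distrib]
    refine Finset.sum_congr rfl fun h hh => ?_
    rw [Q.mem_Hs hQ] at hh
    rcases hh.1 x y hxy with h4 | h4
    · have h6 : ¬ h y + 1 = h y - 1 := by omega
      simp only [h4, and_true, h6, and_false, if_false, sub_zero]
      have h7 : ((h y + 1 - h y : ℤ) : ℝ) = 1 := by
        push_cast
        ring
      rw [h7, mul_one]
    · have h6 : ¬ h y - 1 = h y + 1 := by omega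
      simp only [h4, and_true, h6, and_false, if_false, zero_sub]
      have h7 : ((h y - 1 - h y : ℤ) : ℝ) = -1 := by
        push_cast
        ring
      rw [h7]
      by_cases h8 : Q.cmp ω h
      · simp only [h8, if_true]
        ring
      · simp only [h8, if_false]
        simp
  rw [h4, h3, h2]
  exact tanh_id κ Zm

end Quad

end P0q
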