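import Pool.Agent.Lib.P0q.K7CaseC

/-!
# K8CaseA: `u ~ v` off `e` (Lemma 6 of Q4_proof.md)

`u, v, f, g` the ends of `e₀`, `Cono u v`. Then `¬ Cono f g` (`not_both`). `ω₁ = update ω e₀ true`,
`ω₀ = update ω e₀ false`, `S_f = side ω₁ f u`, `S_g = side ω₁ g u`, `S' = side ω₀ f u`.

`caseA_union`: `S' = S_f ∪ S_g`. Use `side_unique` for `ω₀`, the corner `{f, u}` and the set `S_f ∪ S_g`. `f ∈ S_f`; `u ∉ S_f, S_g`. Union of
clusters of `ω₀`: squares `e ≠ e₀` have the same own diagonal in `ω₀` and `ω₁`; own diagonal of `e₀` in `ω₀` is `{f, g}`, `f ∈ S_f`,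
`g ∈ S_g`. A corner `{a, b}` with `a ∈ S_f ∪ S_g`, `b` outside: if `a ∈ S_f` then `Con ω₁ f a` and `Con ω₁ u b`
(`side_cross`), hence `Cono f a` (`Con_up`), so `Con ω₀ f a`; and `Con ω₁ u b` implies `Con ω₀ u b`: in a chain of own
diagonals for `ω₁` replace the diagonal `{u, v}` by the chain off `e₀`. If `a ∈ S_g`: `Con ω₀ g a` and `g ~ f` in `ω₀`.

`caseA_or`: `S_f` or `S_g` misses `bd`. Suppose both meet `bd`. By `side_arc` (the complement of `S_f` contains `S_g` by
`caseC_disj_S`, so it meets `bd`) `|bX S_f| = 2`, similarly `|bX S_g| = 2`. `bX S'` is the disjoint union of `bX S_f` and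
`bX S_g`: (⊆) a crossing corner of the disjoint union `S_f ∪ S_g` crosses exactly one of them... in fact a corner
between `S_f` and `S_g` does not exist: by `side_cross` for `S_f` its other end would be in `cl u`, which is outside `S_g`.
So `|bX S'| = 4`. `S'` meets `bd`. If `S'ᶜ` meets `bd` then `|bX S'| = 2` by `side_arc` for `ω₀`, contradiction. If `S'ᶜ`
misses `bd` then `bX S' = ∅` (`bc_mem`), contradiction.
-/

set_option autoImplicit false

open Finset P0de

namespace P0q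

variable {V M : Type} [Fintype V] [DecidableEq V] [Fintype M] [DecidableEq M] (Q : Quad V M)

namespace Quad

namespace K8CaseAAux

theorem cor_en (hQ : Q.IsDisc) (e : M) (i j : Bool) : Q.cor (Q.en e false j) (Q.en e true i) := by
  refine ⟨?_, e, ?_⟩
  · rw [hQ.pr_en, hQ.pr_en]; decide
  · simp only [sq, mem_filter, mem_univ, true_and]
    exact ⟨⟨false, j, rfl⟩, ⟨true, i, rfl⟩⟩

theorem Cono_upd (ω : M → Bool) (e₀ : M) (b : Bool) :
    Q.Cono (Function.update ω e₀ b) e₀ = Q.Cono ω e₀ :=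
  Cono_congr Q fun e he => by rw [Function.update_of_ne he]

theorem Con_step (ω : M → Bool) (e₀ : M)
    (h1 : Q.Cono ω e₀ (Q.en e₀ true false) (Q.en e₀ true true)) {x y : V}
    (h : Q.dg (Function.update ω e₀ true) x y) : Q.Con (Function.update ω e₀ false) x y := by
  obtain ⟨e, i, hx, hy⟩ := h
  have h2 : Q.Con (Function.update ω e₀ false) (Q.en e₀ true false) (Q.en e₀ true true) := by
    apply Cono_Con Q (e₀ := e₀)
    rw [Cono_upd]
    exact h1
  by_cases he : e = e₀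
  · subst he
    rw [Function.update_self] at hx hy
    cases i
    · rw [hx, hy]; exact h2
    · rw [hx, hy]; exact Con_symm Q _ h2
  · rw [Function.update_of_ne he] at hx hy
    refine Relation.ReflTransGen.single ⟨e, i, ?_, ?_⟩
    · rw [Function.update_of_ne he]; exact hx
    · rw [Function.update_of_ne he]; exact hy

theorem Con_mono (ω : M → Bool) (e₀ : M)
    (h1 : Q.Cono ω e₀ (Q.en e₀ true false) (Q.en e₀ true true)) {x y : V}
    (h : Q.Con (Function.update ω e₀ true) x y) : Q.Con (Function.update ω e₀ false) x y := by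
  induction h with
  | refl => exact Relation.ReflTransGen.refl
  | tail _ hs ih => exact Relation.ReflTransGen.trans ih (Con_step Q ω e₀ h1 hs)

theorem u_not_mem (hQ : Q.IsDisc) (ω : M → Bool) {x y : V} (h : Q.cor x y) :
    y ∉ Q.side ω x y := by
  have h1 := mem_side_self Q ω y x
  rw [side_compl Q hQ ω h, mem_compl] at h1
  exact h1

theorem Tb_mono {S T : Finset V} (h : S ⊆ T) (hS : Q.Tb S) : Q.Tb T := by
  obtain ⟨z, hz, hb⟩ := hS
  exact ⟨z, h hz, hb⟩

theorem prop_aux (a1 a2 b1 b2 : Prop) (d1 : a1 → ¬ b1) (d2 : a2 → ¬ b2) (n1 : a1 → ¬ b2)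
    (n2 : a2 → ¬ b1) : (¬ ((a1 ∨ b1) ↔ (a2 ∨ b2)) ↔ (¬ (a1 ↔ a2) ∨ ¬ (b1 ↔ b2))) ∧
      (¬ (a1 ↔ a2) → ¬ (b1 ↔ b2) → False) := by
  by_cases h1 : a1 <;> by_cases h2 : a2 <;> by_cases h3 : b1 <;> by_cases h4 : b2 <;> simp_all

theorem bX_union (S T : Finset V) (hd : Disjoint S T) (no1 : ∀ c ∈ Q.bc, c.1 ∈ S → c.2 ∉ T)
    (no2 : ∀ c ∈ Q.bc, c.2 ∈ S → c.1 ∉ T) :
    Q.bX (S ∪ T) = Q.bX S ∪ Q.bX T ∧ Disjoint (Q.bX S) (Q.bX T) := by
  have key : ∀ c ∈ Q.bc, (¬ ((c.1 ∈ S ∨ c.1 ∈ T) ↔ (c.2 ∈ S ∨ c.2 ∈ T)) ↔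
      (¬ (c.1 ∈ S ↔ c.2 ∈ S) ∨ ¬ (c.1 ∈ T ↔ c.2 ∈ T))) ∧
      (¬ (c.1 ∈ S ↔ c.2 ∈ S) → ¬ (c.1 ∈ T ↔ c.2 ∈ T) → False) := fun c hc =>
    prop_aux _ _ _ _ (fun h => Finset.disjoint_left.mp hd h)
      (fun h => Finset.disjoint_left.mp hd h) (no1 c hc) (no2 c hc)
  constructor
  · ext c
    rw [mem_union, bX, bX, bX, mem_filter, mem_filter, mem_filter, mem_union, mem_union]
    constructor
    · rintro ⟨hc, h⟩
      rcases (key c hc).1.mp h with h | h
      · exact Or.inl ⟨hc, h⟩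
      · exact Or.inr ⟨hc, h⟩
    · rintro (⟨hc, h⟩ | ⟨hc, h⟩)
      · exact ⟨hc, (key c hc).1.mpr (Or.inl h)⟩
      · exact ⟨hc, (key c hc).1.mpr (Or.inr h)⟩
  · rw [Finset.disjoint_left]
    intro c h1 h2
    rw [bX, mem_filter] at h1 h2
    exact (key c h1.1).2 h1.2 h2.2

theorem bX_other (S : Finset V) {c : V × V} (hc : c ∈ Q.bX S) :
    c ∈ Q.bc ∧ (c.1 ∉ S ∨ c.2 ∉ S) := by
  rw [bX, mem_filter] at hc
  refine ⟨hc.1, ?_⟩
  by_contra h
  rw [not_or, not_not, not_not] at h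
  exact hc.2 ⟨fun _ => h.2, fun _ => h.1⟩

end K8CaseAAux

theorem caseA_union (hQ : Q.IsDisc) (ω : M → Bool) (e₀ : M)
    (h1 : Q.Cono ω e₀ (Q.en e₀ true false) (Q.en e₀ true true)) :
    Q.side (Function.update ω e₀ false) (Q.en e₀ false false) (Q.en e₀ true false) =
      Q.side (Function.update ω e₀ true) (Q.en e₀ false false) (Q.en e₀ true false) ∪
      Q.side (Function.update ω e₀ true) (Q.en e₀ false true) (Q.en e₀ true false) := by
  have cf := K8CaseAAux.cor_en Q hQ e₀ false false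
  have cg := K8CaseAAux.cor_en Q hQ e₀ false true
  have hUf := side_UC Q hQ (Function.update ω e₀ true) cf
  have hUg := side_UC Q hQ (Function.update ω e₀ true) cg
  symm
  apply side_unique Q hQ _ cf
  · exact mem_union_left _ (mem_side_self Q _ _ _)
  · rw [mem_union, not_or]
    exact ⟨K8CaseAAux.u_not_mem Q hQ _ cf, K8CaseAAux.u_not_mem Q hQ _ cg⟩
  · intro e
    by_cases he : e = e₀
    · subst he
      rw [Function.update_self]
      constructor
      · intro _
        exact mem_union_right _ (mem_side_self Q _ _ _)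
      · intro _
        exact mem_union_left _ (mem_side_self Q _ _ _)
    · have h3 := hUf e
      have h4 := hUg e
      rw [Function.update_of_ne he] at h3 h4
      rw [Function.update_of_ne he, mem_union, mem_union, h3, h4]
  · intro a b hab ha hb
    rw [mem_union, not_or] at hb
    rcases mem_union.mp ha with ha | ha
    · obtain ⟨h3, h4⟩ := side_cross Q hQ _ cf hab ha hb.1
      exact ⟨K8CaseAAux.Con_mono Q ω e₀ h1 h3, K8CaseAAux.Con_mono Q ω e₀ h1 h4⟩
    · obtain ⟨h3, h4⟩ := side_cross Q hQ _ cg hab ha hb.2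
      refine ⟨?_, K8CaseAAux.Con_mono Q ω e₀ h1 h4⟩
      refine Relation.ReflTransGen.trans (Relation.ReflTransGen.single ⟨e₀, false, ?_, ?_⟩)
        (K8CaseAAux.Con_mono Q ω e₀ h1 h3)
      · rw [Function.update_self]
      · rw [Function.update_self]; rfl

theorem caseA_or (hQ : Q.IsDisc) (ω : M → Bool) (e₀ : M)
    (h1 : Q.Cono ω e₀ (Q.en e₀ true false) (Q.en e₀ true true)) :
    ¬ Q.Tb (Q.side (Function.update ω e₀ true) (Q.en e₀ false false) (Q.en e₀ true false)) ∨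
    ¬ Q.Tb (Q.side (Function.update ω e₀ true) (Q.en e₀ false true) (Q.en e₀ true false)) := by
  have hun := caseA_union Q hQ ω e₀ h1
  have h2 : ¬ Q.Cono ω e₀ (Q.en e₀ false false) (Q.en e₀ false true) :=
    fun h2 => not_both Q hQ ω e₀ h1 h2
  have hdis := caseC_disj_S Q hQ ω e₀ h2
  have cf := K8CaseAAux.cor_en Q hQ e₀ false false
  have cg := K8CaseAAux.cor_en Q hQ e₀ false true
  have hUf := side_UC Q hQ (Function.update ω e₀ true) cf
  have hUg := side_UC Q hQ (Function.update ω e₀ true) cg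
  have nf := K8CaseAAux.u_not_mem Q hQ (Function.update ω e₀ true) cf
  have ng := K8CaseAAux.u_not_mem Q hQ (Function.update ω e₀ true) cg
  have compf := side_compl Q hQ (Function.update ω e₀ true) cf
  have compg := side_compl Q hQ (Function.update ω e₀ true) cg
  have crf := fun a b => side_cross Q hQ (Function.update ω e₀ true) cf (a := a) (b := b)
  have crg := fun a b => side_cross Q hQ (Function.update ω e₀ true) cg (a := a) (b := b)
  have arcf := side_arc Q hQ (Function.update ω e₀ true) cf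
  have arcg := side_arc Q hQ (Function.update ω e₀ true) cg
  have arc0 := side_arc Q hQ (Function.update ω e₀ false) cf
  have comp0 := side_compl Q hQ (Function.update ω e₀ false) cf
  rw [hun] at arc0 comp0
  rw [compf] at arcf
  rw [compg] at arcg
  rw [comp0] at arc0
  generalize hSf : Q.side (Function.update ω e₀ true) (Q.en e₀ false false) (Q.en e₀ true false) =
    Sf at *
  generalize hSg : Q.side (Function.update ω e₀ true) (Q.en e₀ false true) (Q.en e₀ true false) =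
    Sg at *
  by_contra hcon
  rw [not_or, not_not, not_not] at hcon
  obtain ⟨tf, tg⟩ := hcon
  have s1 : Sg ⊆ Sfᶜ := by
    intro z hz
    rw [mem_compl]
    exact fun h => (Finset.disjoint_left.mp hdis) h hz
  have s2 : Sf ⊆ Sgᶜ := by
    intro z hz
    rw [mem_compl]
    exact (Finset.disjoint_left.mp hdis) hz
  have kf := (arcf tf (K8CaseAAux.Tb_mono Q s1 tg)).1
  have kg := (arcg tg (K8CaseAAux.Tb_mono Q s2 tf)).1
  have no1 : ∀ c ∈ Q.bc, c.1 ∈ Sf → c.2 ∉ Sg := by
    intro c hc ha hb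
    have h3 := (crf c.1 c.2 (bc_cor Q hc) ha (mem_compl.mp (s1 hb))).2
    exact ng ((UC_Con Q _ hUg h3).mpr hb)
  have no2 : ∀ c ∈ Q.bc, c.2 ∈ Sf → c.1 ∉ Sg := by
    intro c hc ha hb
    have h3 := (crf c.2 c.1 (cor_symm Q (bc_cor Q hc)) ha (mem_compl.mp (s1 hb))).2
    exact ng ((UC_Con Q _ hUg h3).mpr hb)
  obtain ⟨hX, hd⟩ := K8CaseAAux.bX_union Q Sf Sg hdis no1 no2
  have k4 : (Q.bX (Sf ∪ Sg)).card = 4 := by
    rw [hX, Finset.card_union_of_disjoint hd, kf, kg]
  have t0 : Q.Tb (Sf ∪ Sg) := K8CaseAAux.Tb_mono Q subset_union_left tf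
  by_cases tc : Q.Tb (Sf ∪ Sg)ᶜ
  · have h5 := (arc0 t0 tc).1
    rw [k4] at h5
    norm_num at h5
  · have h5 : (Q.bX (Sf ∪ Sg)).Nonempty := by
      rw [← Finset.card_pos, k4]; norm_num
    obtain ⟨c, hc⟩ := h5
    obtain ⟨hc1, hc2⟩ := K8CaseAAux.bX_other Q _ hc
    have h6 := hQ.bc_mem c hc1
    apply tc
    rcases hc2 with h7 | h7
    · exact ⟨c.1, mem_compl.mpr h7, h6.1⟩
    · exact ⟨c.2, mem_compl.mpr h7, h6.2⟩

end Quad

end P0q
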