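import Pool.Agent.Lib.P0q.K1Dual
import Pool.Agent.Lib.P0q.K8CaseA
import Pool.Agent.Lib.P0q.H2Shift

/-!
# H4CaseAZ: the ratio in cases A and B ((2.5) of Q4_proof.md)

`u, v` active, `f, g` passive ends of `e₀`; `ω₁ = update ω e₀ true`, `ω₀ = update ω e₀ false`, `Cono ω e₀ u v`, `F` depends only on
the boundary heights, `r ∈ bd`. Claim `Zf ω₁ = 2 cosh (4κ) Zf ω₀`.

By `caseA_or` `S_f = side ω₁ f u` or `S_g = side ω₁ g u` misses `bd`; let it be `S_f` (the other case: exchange `f` and
`g` everywhere). `g ∉ S_f`, `u ∉ S_f` (`caseC_disj_S` and `mem_side_self`; its hypothesis `¬ Cono f g` is `not_both`). For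
`t = ±1` let `F_t h = F h · 1[h g = h u + t]`: it satisfies `F_t (shf S_f r h) = F_t h` (`BdF_shf`, `g, u ∉ S_f`). Apply `shift_sum` with `x = f`,
`y = u`, `t = 0`, `NS_side = 4`:
`Z[f = +, t] = e^{8κ} Z[f = -, t]`, where `Z[s, t]` is the sum of `F e^{κ ph ω₁}` over the `h ∈ Hs r` compatible with `ω₁` with
`h f = h u + s`, `h g = h u + t`. `Zf ω₁ = ∑_{s,t} Z[s, t]`.
Heights compatible with `ω₀` are: compatible with all `e ≠ e₀` and `h f = h g`; then `h u = h v` automatically
(`Cono u v`), so they are exactly the heights compatible with `ω₁` with `h f = h g`, and there `Dl e₀ h = 2t`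
and `ph ω₁ = ph ω₀ + 2 Dl = ph ω₀ + 4t` (`ph_upd`). So `Zf ω₀ = e^{-4κ} Z[+,+] + e^{4κ} Z[-,-]`, and
`Zf ω₁ = Z[+,+](1 + e^{-8κ}) + Z[-,-](1 + e^{8κ}) = (e^{4κ} + e^{-4κ}) Zf ω₀`.

Case B: apply case A to `Q.dual` and `fun e => !ω e` (`dual_isDisc`, `dual_Zf`, `dual_BdF`, `dual_Cono`; `!(update ω e₀ b) = update (!ω) e₀ (!b)`).
-/

set_option autoImplicit false

open Finset P0de

namespace P0q

variable {V M : Type} [Fintype V] [DecidableEq V] [Fintype M] [DecidableEq M] (Q : Quad V M)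

namespace Quad

namespace H4CaseAZAux

theorem cmp_Cono {ω : M → Bool} {e₀ : M} {h : V → ℤ}
    (hc : ∀ e, e ≠ e₀ → h (Q.en e (ω e) false) = h (Q.en e (ω e) true)) {x y : V}
    (hxy : Q.Cono ω e₀ x y) : h x = h y := by
  induction hxy with
  | refl => rfl
  | tail _ hs ih =>
    rw [ih]
    obtain ⟨e, i, he, rfl, rfl⟩ := hs
    cases i
    · exact hc e he
    · exact (hc e he).symm

/-- compatibility with the closed configuration at `e₀` -/
theorem cmp_zero_iff {ω : M → Bool} {e₀ : M} {h : V → ℤ}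
    (h1 : Q.Cono ω e₀ (Q.en e₀ true false) (Q.en e₀ true true)) :
    Q.cmp (Function.update ω e₀ false) h ↔
      Q.cmp (Function.update ω e₀ true) h ∧ h (Q.en e₀ false false) = h (Q.en e₀ false true) := by
  constructor
  · intro hc
    have hc' : ∀ e, e ≠ e₀ → h (Q.en e (ω e) false) = h (Q.en e (ω e) true) := by
      intro e he
      have := hc e
      rwa [Function.update_of_ne he] at this
    have h0 := hc e₀
    rw [Function.update_self] at h0
    refine ⟨?_, h0⟩
    intro e
    by_cases he : e = e₀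
    · subst he
      rw [Function.update_self]
      exact cmp_Cono Q hc' h1
    · rw [Function.update_of_ne he]
      exact hc' e he
  · rintro ⟨hc, h0⟩ e
    by_cases he : e = e₀
    · subst he
      rw [Function.update_self]
      exact h0
    · have := hc e
      rw [Function.update_of_ne he] at this ⊢
      exact this

/-- corners of the square `e₀` -/
theorem cor_e (hQ : Q.IsDisc) (e₀ : M) (j i : Bool) :
    Q.cor (Q.en e₀ false j) (Q.en e₀ true i) :=
  (Q.cor_iff hQ).2 ⟨e₀, false, j, i, rfl, rfl⟩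

/-- sums over the heights with prescribed signs -/
noncomputable def A (r : V) (κ : ℝ) (F : (V → ℤ) → ℝ) (ω : M → Bool) (f g u : V) (s t : ℤ) : ℝ := by
  classical
  exact ∑ h ∈ Q.Hs r, if Q.cmp ω h ∧ h f = h u + s ∧ h g = h u + t then
    F h * Real.exp (κ * (Q.ph ω h : ℝ)) else 0

theorem A_shift (hQ : Q.IsDisc) (ω : M → Bool) {f g u : V} (hfu : Q.cor f u) {r : V}
    (hr : r ∈ Q.bd) (κ : ℝ) (F : (V → ℤ) → ℝ) (hF : Q.BdF F) (hS : ¬ Q.Tb (Q.side ω f u))
    (hg : g ∉ Q.side ω f u) (t : ℤ) :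
    A Q r κ F ω f g u 1 t = Real.exp (8 * κ) * A Q r κ F ω f g u (-1) t := by
  classical
  have hu : u ∉ Q.side ω f u := by
    have h1 : u ∈ Q.side ω u f := Q.mem_side_self ω u f
    rw [Q.side_compl hQ ω hfu] at h1
    exact Finset.mem_compl.1 h1
  have hrS : r ∉ Q.side ω f u := fun h => hS ⟨r, h, hr⟩
  let G : (V → ℤ) → ℝ := fun h => if h g = h u + t then F h else 0
  have hG : ∀ h, G (shf (Q.side ω f u) r h) = Real.exp (2 * 0) * G h := by
    intro h
    have e1 : shf (Q.side ω f u) r h g = h g := by simp [shf, hg, hrS]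
    have e2 : shf (Q.side ω f u) r h u = h u := by simp [shf, hu, hrS]
    simp only [G, e1, e2, Q.BdF_shf hF hS hr h, mul_zero, Real.exp_zero, one_mul]
  have key := Q.shift_sum hQ ω hfu r κ 0 G hG
  rw [Q.NS_side hQ ω hfu hS] at key
  have e3 : (2 * (κ * (((4 : ℤ)) : ℝ) + 0)) = 8 * κ := by push_cast; ring
  rw [e3] at key
  have l1 : A Q r κ F ω f g u 1 t =
      ∑ h ∈ Q.Hs r, if Q.cmp ω h ∧ h f = h u + 1 then G h * Real.exp (κ * (Q.ph ω h : ℝ)) else 0 := by
    unfold A
    apply Finset.sum_congr rfl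
    intro h _
    by_cases c1 : Q.cmp ω h ∧ h f = h u + 1
    · by_cases c2 : h g = h u + t
      · rw [if_pos ⟨c1.1, c1.2, c2⟩, if_pos c1]
        simp only [G, if_pos c2]
      · rw [if_neg (fun c => c2 c.2.2), if_pos c1]
        simp only [G, if_neg c2, zero_mul]
    · rw [if_neg (fun c => c1 ⟨c.1, c.2.1⟩), if_neg c1]
  have l2 : A Q r κ F ω f g u (-1) t =
      ∑ h ∈ Q.Hs r, if Q.cmp ω h ∧ h f = h u - 1 then G h * Real.exp (κ * (Q.ph ω h : ℝ)) else 0 := by
    unfold A
    apply Finset.sum_congr rfl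
    intro h _
    by_cases c1 : Q.cmp ω h ∧ h f = h u - 1
    · by_cases c2 : h g = h u + t
      · rw [if_pos ⟨c1.1, by rw [c1.2]; ring, c2⟩, if_pos c1]
        simp only [G, if_pos c2]
      · rw [if_neg (fun c => c2 c.2.2), if_pos c1]
        simp only [G, if_neg c2, zero_mul]
    · rw [if_neg (fun c => c1 ⟨c.1, by rw [c.2.1]; ring⟩), if_neg c1]
  rw [l1, l2]
  convert key using 3

theorem Zf_open (hQ : Q.IsDisc) (ω : M → Bool) {f g u : V} (hfu : Q.cor f u) (hgu : Q.cor g u)
    (r : V) (κ : ℝ) (F : (V → ℤ) → ℝ) :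
    Q.Zf r κ F ω = A Q r κ F ω f g u 1 1 + A Q r κ F ω f g u 1 (-1) +
      (A Q r κ F ω f g u (-1) 1 + A Q r κ F ω f g u (-1) (-1)) := by
  classical
  unfold A Quad.Zf
  rw [← Finset.sum_add_distrib, ← Finset.sum_add_distrib, ← Finset.sum_add_distrib]
  apply Finset.sum_congr rfl
  intro h hh
  have ha := ((Q.mem_Hs hQ).1 hh).1
  by_cases hc : Q.cmp ω h
  · rcases ha f u hfu with h1 | h1 <;> rcases ha g u hgu with h2 | h2
    · have n1 : ¬ (h u + 1 = h u + -1) := by omega
      simp [hc, h1, h2, n1]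
    · have n1 : ¬ (h u + 1 = h u + -1) := by omega
      have n2 : ¬ (h u - 1 = h u + 1) := by omega
      have n3 : h u - 1 = h u + -1 := by ring
      rw [if_pos hc, if_neg (fun c => n2 (h2 ▸ c.2.2)), if_pos ⟨hc, h1, h2.trans n3⟩,
        if_neg (fun c => n1 (h1 ▸ c.2.1)), if_neg (fun c => n1 (h1 ▸ c.2.1))]
      ring
    · have n1 : ¬ (h u + 1 = h u + -1) := by omega
      have n2 : ¬ (h u - 1 = h u + 1) := by omega
      have n3 : h u - 1 = h u + -1 := by ring
      rw [if_pos hc, if_neg (fun c => n2 (h1 ▸ c.2.1)), if_neg (fun c => n2 (h1 ▸ c.2.1)),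
        if_pos ⟨hc, h1.trans n3, h2⟩, if_neg (fun c => n1 (h2 ▸ c.2.2))]
      ring
    · have n1 : ¬ (h u + 1 = h u + -1) := by omega
      have n2 : ¬ (h u - 1 = h u + 1) := by omega
      have n3 : h u - 1 = h u + -1 := by ring
      rw [if_pos hc, if_neg (fun c => n2 (h1 ▸ c.2.1)), if_neg (fun c => n2 (h1 ▸ c.2.1)),
        if_neg (fun c => n2 (h2 ▸ c.2.2)), if_pos ⟨hc, h1.trans n3, h2.trans n3⟩]
      ring
  · rw [if_neg hc, if_neg (fun c => hc c.1), if_neg (fun c => hc c.1), if_neg (fun c => hc c.1),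
      if_neg (fun c => hc c.1)]
    ring

theorem core (hQ : Q.IsDisc) (ω : M → Bool) (e₀ : M) {r : V} (hr : r ∈ Q.bd) (κ : ℝ)
    (F : (V → ℤ) → ℝ) (hF : Q.BdF F)
    (h1 : Q.Cono ω e₀ (Q.en e₀ true false) (Q.en e₀ true true)) (j : Bool)
    (hS : ¬ Q.Tb (Q.side (Function.update ω e₀ true) (Q.en e₀ false j) (Q.en e₀ true false))) :
    Q.Zf r κ F (Function.update ω e₀ true) =
      2 * Real.cosh (4 * κ) * Q.Zf r κ F (Function.update ω e₀ false) := by
  classical
  have hn : ¬ Q.Cono ω e₀ (Q.en e₀ false false) (Q.en e₀ false true) :=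
    fun h2 => Q.not_both hQ ω e₀ h1 h2
  have hd := Q.caseC_disj_S hQ ω e₀ hn
  set ω₁ := Function.update ω e₀ true with hω₁
  set u := Q.en e₀ true false with hu
  have hg : Q.en e₀ false (!j) ∉ Q.side ω₁ (Q.en e₀ false j) u := by
    cases j
    · exact fun h => Finset.disjoint_left.1 hd h (Q.mem_side_self _ _ _)
    · exact fun h => Finset.disjoint_left.1 hd (Q.mem_side_self _ _ _) h
  have hfu : Q.cor (Q.en e₀ false j) u := cor_e Q hQ e₀ j false
  have hgu : Q.cor (Q.en e₀ false (!j)) u := cor_e Q hQ e₀ (!j) false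
  set f := Q.en e₀ false j with hf
  set g := Q.en e₀ false (!j) with hg'
  have s1 := A_shift Q hQ ω₁ hfu hr κ F hF hS hg 1
  have s2 := A_shift Q hQ ω₁ hfu hr κ F hF hS hg (-1)
  have z1 := Zf_open Q hQ ω₁ hfu hgu r κ F
  -- the closed configuration
  have z0 : Q.Zf r κ F (Function.update ω e₀ false) =
      Real.exp (-(4 * κ)) * A Q r κ F ω₁ f g u 1 1 +
        Real.exp (4 * κ) * A Q r κ F ω₁ f g u (-1) (-1) := by
    unfold A Quad.Zf
    rw [Finset.mul_sum, Finset.mul_sum, ← Finset.sum_add_distrib]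
    apply Finset.sum_congr rfl
    intro h hh
    have ha := ((Q.mem_Hs hQ).1 hh).1
    have hiff := cmp_zero_iff Q (h := h) h1
    by_cases hc : Q.cmp ω₁ h
    · have huv : h u = h (Q.en e₀ true true) := by
        have := hc e₀
        rwa [hω₁, Function.update_self] at this
      have hph := Q.ph_upd ω e₀ h
      have hDl : Q.Dl e₀ h = h f + h g - 2 * h u := by
        unfold Quad.Dl
        rw [← huv]
        cases j
        · simp only [hf, hg', Bool.not_false]; ring
        · simp only [hf, hg', Bool.not_true]; ring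
      have hsym : (h (Q.en e₀ false false) = h (Q.en e₀ false true)) ↔ h f = h g := by
        cases j
        · simp only [hf, hg', Bool.not_false]
        · simp only [hf, hg', Bool.not_true]; exact eq_comm
      rw [hsym] at hiff
      rcases ha f u hfu with c1 | c1 <;> rcases ha g u hgu with c2 | c2
      · have n1 : ¬ (h f = h u + -1) := by omega
        rw [if_pos (hiff.2 ⟨hc, by omega⟩), if_pos ⟨hc, c1, c2⟩, if_neg (fun c => n1 c.2.1)]
        have e1 : Q.ph ω₁ h = Q.ph (Function.update ω e₀ false) h + 4 := by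
          rw [hω₁, hph, hDl, c1, c2]; ring
        rw [e1, mul_zero, add_zero]
        push_cast
        rw [show κ * ((Q.ph (Function.update ω e₀ false) h : ℝ) + 4) =
          κ * (Q.ph (Function.update ω e₀ false) h : ℝ) + 4 * κ by ring, Real.exp_add,
          Real.exp_neg]
        have := Real.exp_pos (4 * κ)
        field_simp
      · rw [if_neg (fun c => by have := (hiff.1 c).2; omega), if_neg (fun c => by
          have := c.2.2; omega), if_neg (fun c => by have := c.2.1; omega)]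
        ring
      · rw [if_neg (fun c => by have := (hiff.1 c).2; omega), if_neg (fun c => by
          have := c.2.1; omega), if_neg (fun c => by have := c.2.2; omega)]
        ring
      · have n1 : ¬ (h f = h u + 1) := by omega
        rw [if_pos (hiff.2 ⟨hc, by omega⟩), if_neg (fun c => n1 c.2.1),
          if_pos ⟨hc, by omega, by omega⟩]
        have e1 : Q.ph (Function.update ω e₀ false) h = Q.ph ω₁ h + 4 := by
          rw [hω₁, hph, hDl, c1, c2]; ring
        rw [e1, mul_zero, zero_add]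
        push_cast
        rw [show κ * ((Q.ph ω₁ h : ℝ) + 4) = κ * (Q.ph ω₁ h : ℝ) + 4 * κ by ring, Real.exp_add]
        ring
    · rw [if_neg (fun c => hc (hiff.1 c).1), if_neg (fun c => hc c.1), if_neg (fun c => hc c.1)]
      ring
  rw [z1, z0, s1, s2, Real.cosh_eq]
  have e4 := Real.exp_pos (4 * κ)
  have e5 : Real.exp (8 * κ) = Real.exp (4 * κ) * Real.exp (4 * κ) := by
    rw [← Real.exp_add]; congr 1; ring
  rw [e5, Real.exp_neg]
  field_simp

end H4CaseAZAux

open H4CaseAZAux

theorem caseA_Z (hQ : Q.IsDisc) (ω : M → Bool) (e₀ : M) {r : V} (hr : r ∈ Q.bd) (κ : ℝ)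
    (F : (V → ℤ) → ℝ) (hF : Q.BdF F)
    (h1 : Q.Cono ω e₀ (Q.en e₀ true false) (Q.en e₀ true true)) :
    Q.Zf r κ F (Function.update ω e₀ true) =
      2 * Real.cosh (4 * κ) * Q.Zf r κ F (Function.update ω e₀ false) := by
  rcases Q.caseA_or hQ ω e₀ h1 with h | h
  · exact core Q hQ ω e₀ hr κ F hF h1 false h
  · exact core Q hQ ω e₀ hr κ F hF h1 true h

theorem caseB_Z (hQ : Q.IsDisc) (ω : M → Bool) (e₀ : M) {r : V} (hr : r ∈ Q.bd) (κ : ℝ)
    (F : (V → ℤ) → ℝ) (hF : Q.BdF F)
    (h1 : Q.Cono ω e₀ (Q.en e₀ false false) (Q.en e₀ false true)) :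
    Q.Zf r κ F (Function.update ω e₀ false) =
      2 * Real.cosh (4 * κ) * Q.Zf r κ F (Function.update ω e₀ true) := by
  have h := Q.dual.caseA_Z (Q.dual_isDisc hQ) (fun e => !ω e) e₀ (r := r) hr κ F
    ((Q.dual_BdF F).2 hF) (by rw [Q.dual_Cono]; exact h1)
  have e1 : Function.update (fun e => !ω e) e₀ true =
      fun e => !(Function.update ω e₀ false) e := by
    funext e
    by_cases he : e = e₀
    · subst he; simp
    · simp [Function.update_of_ne he]
  have e2 : Function.update (fun e => !ω e) e₀ false =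
      fun e => !(Function.update ω e₀ true) e := by
    funext e
    by_cases he : e = e₀
    · subst he; simp
    · simp [Function.update_of_ne he]
  rw [e1, e2, Q.dual_Zf, Q.dual_Zf] at h
  exact h

end Quad

end P0q
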