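import Pool.Agent.Lib.P0q.Defs

/-!
# K1Dual: exchange of active and passive

`Q.dual` swaps the two diagonals of every square and the labels; the configuration `ω` becomes
`fun e => !ω e`. Everything is a direct unfolding: `Q.dual.en e (!ω e) i = Q.en e (ω e) i`
(`Bool.not_not`), `Q.dual.on e x ↔ Q.on e x` (reindex `c` by `!c`), hence `Q.dual.sq = Q.sq`,
`Q.dual.cor ↔ Q.cor`, `Q.dual.deg = Q.deg`, `Q.dual.bc` is the image of `Q.bc` under
`Prod.swap` (same cardinality), and
`Q.dual.Dl e h = - Q.Dl e h`, so `Q.dual.ph (!ω) h = Q.ph ω h`.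

`dual_isDisc`: `pot`: for `ε` put `ε' x y := ε y x`, the square sums are the same double sums
in the other order (`Finset.sum_comm`), and `γ` for `ε'` works for `ε` (`add_comm`). `conn`: the
hypothesis for `T` is the same with the roles of `i, j` exchanged. `star`, `sq_le`, `deg_int`,
`euler`, `bc_mem`, `bc_two`: transport along the equalities above.
-/

set_option autoImplicit false

open Finset P0de

namespace P0q

variable {V M : Type} [Fintype V] [DecidableEq V] [Fintype M] [DecidableEq M] (Q : Quad V M)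

namespace Quad

namespace K1DualAux

theorem en_eq (e : M) (c : Bool) (i : Bool) : Q.dual.en e c i = Q.en e (!c) i := rfl

theorem pr_eq (x : V) : Q.dual.pr x = !(Q.pr x) := rfl

theorem bd_eq : Q.dual.bd = Q.bd := rfl

end K1DualAux

open K1DualAux

theorem dual_on (e : M) (x : V) : Q.dual.on e x ↔ Q.on e x := by
  constructor
  · rintro ⟨c, i, h⟩
    exact ⟨!c, i, h⟩
  · rintro ⟨c, i, h⟩
    refine ⟨!c, i, ?_⟩
    rw [en_eq, Bool.not_not]
    exact h

theorem dual_sq (x y : V) : Q.dual.sq x y = Q.sq x y := by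
  ext e
  simp only [sq, mem_filter, mem_univ, true_and, dual_on]

theorem dual_cor (x y : V) : Q.dual.cor x y ↔ Q.cor x y := by
  unfold cor
  rw [dual_sq, pr_eq, pr_eq]
  have : ((!Q.pr x) ≠ (!Q.pr y)) ↔ (Q.pr x ≠ Q.pr y) := by
    cases Q.pr x <;> cases Q.pr y <;> simp
  rw [this]

theorem dual_deg (x : V) : Q.dual.deg x = Q.deg x := by
  unfold deg
  congr 1
  ext e
  simp only [mem_filter, mem_univ, true_and, dual_on]

theorem dual_dg (ω : M → Bool) : Q.dual.dg (fun e => !ω e) = Q.dg ω := by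
  funext x y
  unfold dg
  simp only [en_eq, Bool.not_not]

theorem dual_Con (ω : M → Bool) : Q.dual.Con (fun e => !ω e) = Q.Con ω := by
  funext x y
  unfold Con
  rw [dual_dg]

theorem dual_dgo (ω : M → Bool) (e₀ : M) : Q.dual.dgo (fun e => !ω e) e₀ = Q.dgo ω e₀ := by
  funext x y
  unfold dgo
  simp only [en_eq, Bool.not_not]

theorem dual_Cono (ω : M → Bool) (e₀ : M) :
    Q.dual.Cono (fun e => !ω e) e₀ = Q.Cono ω e₀ := by
  funext x y
  unfold Cono
  rw [dual_dgo]

theorem dual_stp (ω : M → Bool) : Q.dual.stp (fun e => !ω e) = Q.stp ω := by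
  funext y a b
  unfold stp
  rw [dual_Con, dual_dg, dual_cor]

theorem dual_side (ω : M → Bool) (x y : V) :
    Q.dual.side (fun e => !ω e) x y = Q.side ω x y := by
  unfold side
  rw [dual_stp]

theorem dual_UC (ω : M → Bool) (S : Finset V) : Q.dual.UC (fun e => !ω e) S ↔ Q.UC ω S := by
  unfold UC
  simp only [en_eq, Bool.not_not]

theorem dual_CS (ω : M → Bool) (S : Finset V) : Q.dual.CS (fun e => !ω e) S ↔ Q.CS ω S := by
  unfold CS
  rw [dual_dg]
  simp only [dual_cor]

theorem dual_MS (ω : M → Bool) (S : Finset V) :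
    Q.dual.MS (fun e => !ω e) S = Q.MS ω S := by
  unfold MS
  simp only [en_eq, Bool.not_not]

theorem dual_NS (ω : M → Bool) (S : Finset V) :
    Q.dual.NS (fun e => !ω e) S = Q.NS ω S := by
  unfold NS
  rw [dual_MS]
  simp only [dual_deg]

theorem dual_adm (h : V → ℤ) : Q.dual.adm h ↔ Q.adm h := by
  unfold adm
  simp only [dual_cor]

theorem dual_cmp (ω : M → Bool) (h : V → ℤ) : Q.dual.cmp (fun e => !ω e) h ↔ Q.cmp ω h := by
  unfold cmp
  simp only [en_eq, Bool.not_not]

theorem K1DualAux.Dl_eq (e : M) (h : V → ℤ) : Q.dual.Dl e h = - Q.Dl e h := by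
  unfold Dl
  simp only [en_eq, Bool.not_false, Bool.not_true]
  ring

theorem dual_ph (ω : M → Bool) (h : V → ℤ) :
    Q.dual.ph (fun e => !ω e) h = Q.ph ω h := by
  unfold ph
  refine Finset.sum_congr rfl fun e _ => ?_
  rw [K1DualAux.Dl_eq]
  cases hω : ω e
  · simp [hω]
  · simp [hω]

theorem dual_Hs (r : V) : Q.dual.Hs r = Q.Hs r := by
  unfold Hs
  ext h
  simp only [mem_filter, dual_adm]

theorem dual_Zf (r : V) (κ : ℝ) (F : (V → ℤ) → ℝ) (ω : M → Bool) :
    Q.dual.Zf r κ F (fun e => !ω e) = Q.Zf r κ F ω := by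
  unfold Zf
  rw [dual_Hs]
  refine Finset.sum_congr rfl fun h _ => ?_
  rw [dual_ph]
  by_cases hc : Q.cmp ω h
  · rw [if_pos hc, if_pos ((dual_cmp Q ω h).2 hc)]
  · rw [if_neg hc, if_neg (fun hc' => hc ((dual_cmp Q ω h).1 hc'))]

theorem dual_BdF (F : (V → ℤ) → ℝ) : Q.dual.BdF F ↔ Q.BdF F := Iff.rfl

theorem K1DualAux.sq_comm (x y : V) : Q.sq x y = Q.sq y x := by
  ext e
  simp only [sq, mem_filter, mem_univ, true_and]
  exact and_comm

theorem K1DualAux.mem_bc (c : V × V) : c ∈ Q.dual.bc ↔ c.swap ∈ Q.bc := by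
  unfold bc
  simp only [mem_filter, mem_univ, true_and, Prod.fst_swap, Prod.snd_swap, pr_eq, dual_sq]
  rw [K1DualAux.sq_comm Q c.2 c.1, Bool.not_eq_true', Bool.not_eq_false']
  tauto

theorem dual_isDisc (h : Q.IsDisc) : Q.dual.IsDisc := by
  have hcard : Q.dual.bc.card = Q.bc.card := by
    refine Finset.card_nbij' Prod.swap Prod.swap ?_ ?_ ?_ ?_
    · intro c hc
      exact (K1DualAux.mem_bc Q c).1 hc
    · intro c hc
      refine (K1DualAux.mem_bc Q c.swap).2 ?_
      rw [Prod.swap_swap]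
      exact hc
    · intro c _
      exact Prod.swap_swap c
    · intro c _
      exact Prod.swap_swap c
  refine ⟨?_, ?_, h.bd_ne, ?_, ?_, ?_, ?_, ?_, ?_, ?_, ?_⟩
  · intro e c i
    rw [pr_eq, en_eq, h.pr_en, Bool.not_not]
  · intro e c
    exact h.en_ne e (!c)
  · intro ε hε
    obtain ⟨γ, hγ⟩ := h.pot (fun x y => ε y x) (by
      intro e
      rw [Finset.sum_comm]
      exact hε e)
    refine ⟨γ, fun e i j => ?_⟩
    have := hγ e j i
    rw [add_comm]
    exact this
  · intro T hT hT2 x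
    exact h.conn T hT (fun e i j => (hT2 e j i).symm) x
  · intro x g hg e e' he he'
    rw [dual_on] at he he'
    refine h.star x g (fun y hy e₁ e₂ h₁ h₂ => ?_) e e' he he'
    refine hg y ?_ e₁ e₂ ?_ ?_
    · rw [pr_eq, pr_eq]
      intro h3
      apply hy
      cases h4 : Q.pr y <;> cases h5 : Q.pr x <;> rw [h4, h5] at h3 <;> simp_all
    · rw [dual_sq]; exact h₁
    · rw [dual_sq]; exact h₂
  · intro x y hxy
    rw [dual_sq]
    refine h.sq_le x y ?_
    intro h3
    apply hxy
    rw [pr_eq, pr_eq, h3]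
  · intro c hc
    rw [K1DualAux.mem_bc] at hc
    have := h.bc_mem _ hc
    exact ⟨this.2, this.1⟩
  · intro x hx
    rw [← h.bc_two x hx]
    refine Finset.card_nbij' Prod.swap Prod.swap ?_ ?_ ?_ ?_
    · intro c hc
      rw [Finset.mem_coe, Finset.mem_filter] at hc ⊢
      exact ⟨(K1DualAux.mem_bc Q c).1 hc.1, hc.2.symm⟩
    · intro c hc
      rw [Finset.mem_coe, Finset.mem_filter] at hc ⊢
      refine ⟨(K1DualAux.mem_bc Q c.swap).2 ?_, hc.2.symm⟩
      rw [Prod.swap_swap]
      exact hc.1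
    · intro c _
      exact Prod.swap_swap c
    · intro c _
      exact Prod.swap_swap c
  · intro x hx
    rw [dual_deg]
    exact h.deg_int x hx
  · rw [hcard]
    exact h.euler

end Quad

end P0q
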