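import Pool.Agent.Lib.P0q.B8Con
import Pool.Agent.Lib.P0q.K8CaseA
import Pool.Agent.Lib.P0q.K1Dual

/-!
# R0Case: the cases A, B, C in the box

`caseC_box`, `caseB_box`: translation of the cases to the box. `η ⊆ inner a (b+1)`, `e ∈ inner a (b+1)`.
`caseC_box`: apply `caseC_bd` (disc `BQ a b`, `ω = cf a b η`, hypotheses translated by `cono_act`, `cono_pas`) and read the
boundary corners with `mem_bd_act`, `mem_bd_pas`, `bc_mem`. (All four pairs `(i, j)`.)
`caseB_box`: if `pu e` and `pl e` are connected off `e` in the passive configuration then `u, v` are not connected off `e` (`not_both`), and not both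
connected to the boundary: by `caseA_or` for the dual disc (`dual_isDisc`, `dual_Cono`, `dual_side`) one of
`side ω₀ u f`, `side ω₀ v f` (`ω₀ = update ω e false`) misses `bd`; it contains the cluster of `u` (resp. `v`), in particular all sites
connected to `u` off `e` (`side_UC`, `UC_Con`), none of which is in `bdry a b`.
-/

set_option autoImplicit false

open Finset P0de

namespace P0q

namespace R0CaseAux

theorem bd_act {a b : ℤ} {v : VV a b} (hp : v.1.2 = true) (hb : v ∈ (BQ a b).bd) :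
    v.1.1 ∈ bdry a b := by
  have h1 : (v.1.2 = true ∧ v.1.1 ∈ bdry a b) ∨ (v.1.2 = false ∧ v.1.1 ∉ box a b) :=
    (mem_filter.1 hb).2
  rcases h1 with h1 | h1
  · exact h1.2
  · rw [hp] at h1
    exact absurd h1.1 (by decide)

theorem bd_pas {a b : ℤ} {v : VV a b} (hp : v.1.2 = false) (hb : v ∈ (BQ a b).bd) :
    v.1.1 ∉ box a b := by
  have h1 : (v.1.2 = true ∧ v.1.1 ∈ bdry a b) ∨ (v.1.2 = false ∧ v.1.1 ∉ box a b) :=
    (mem_filter.1 hb).2
  rcases h1 with h1 | h1
  · rw [hp] at h1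
    exact absurd h1.1 (by decide)
  · exact h1.2

theorem bd_of_bdry {a b : ℤ} {y : Site} (hy : y ∈ bdry a b) (hm : (y, true) ∈ VS a b) :
    (⟨(y, true), hm⟩ : VV a b) ∈ (BQ a b).bd :=
  mem_filter.2 ⟨mem_univ _, Or.inl ⟨rfl, hy⟩⟩

theorem bdC {a b : ℤ} (hab : a < b) {η : Finset Ed} (hη : η ⊆ inner a (b + 1)) {e : Ed}
    (he : e ∈ inner a (b + 1)) (h1 : ¬ Conn (η.erase e) (src e) (tgt e))
    (h2 : ¬ Conn (dual a b (insert e η)) (pu e) (pl e)) (i j : Bool) :
    ∃ c ∈ (BQ a b).bc, (BQ a b).Cono (cf a b η) ⟨e, he⟩ ((BQ a b).en ⟨e, he⟩ true i) c.1 ∧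
      (BQ a b).Cono (cf a b η) ⟨e, he⟩ ((BQ a b).en ⟨e, he⟩ false j) c.2 := by
  refine Quad.caseC_bd _ (isDisc hab) _ _ ?_ ?_ i j
  · intro h
    exact h1 ((cono_act hη ⟨e, he⟩ (en_mem he).1 (en_mem he).2.1).1 h)
  · intro h
    exact h2 ((cono_pas η ⟨e, he⟩ (en_mem he).2.2.1 (en_mem he).2.2.2).1 h)

theorem readA {a b : ℤ} (hab : a < b) {η : Finset Ed} (hη : η ⊆ inner a (b + 1)) (e : MM a b)
    {c : VV a b × VV a b} (hc : c ∈ (BQ a b).bc) {x : Site} (hx : (x, true) ∈ VS a b)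
    (h : (BQ a b).Cono (cf a b η) e ⟨(x, true), hx⟩ c.1) : Tc a b (η.erase e.1) x := by
  have hb := ((isDisc hab).bc_mem c hc).1
  have hp : (c.1).1.2 = true := (mem_filter.1 hc).2.1
  obtain ⟨⟨⟨y, t⟩, hm⟩, c2⟩ := c
  have ht : t = true := hp
  subst ht
  exact ⟨y, bd_act rfl hb, (cono_act hη e hx hm).1 h⟩

theorem readP {a b : ℤ} (hab : a < b) (η : Finset Ed) (e : MM a b)
    {c : VV a b × VV a b} (hc : c ∈ (BQ a b).bc) {x : Site} (hx : (x, false) ∈ VS a b)
    (h : (BQ a b).Cono (cf a b η) e ⟨(x, false), hx⟩ c.2) :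
    ∃ q', q' ∉ box a b ∧ Conn (dual a b (insert e.1 η)) x q' := by
  have hb := ((isDisc hab).bc_mem c hc).2
  have hp : (c.2).1.2 = false := (mem_filter.1 hc).2.2.1
  obtain ⟨c1, ⟨⟨y, t⟩, hm⟩⟩ := c
  have ht : t = false := hp
  subst ht
  exact ⟨y, bd_pas rfl hb, (cono_pas η e hx hm).1 h⟩

theorem cor_en {a b : ℤ} (hab : a < b) (e : MM a b) (i j : Bool) :
    (BQ a b).cor ((BQ a b).en e true i) ((BQ a b).en e false j) := by
  refine ⟨?_, e, ?_⟩
  · rw [(isDisc hab).pr_en, (isDisc hab).pr_en]; decide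
  · simp only [Quad.sq, mem_filter, mem_univ, true_and]
    exact ⟨⟨true, i, rfl⟩, ⟨false, j, rfl⟩⟩

/-- a side whose first vertex is connected off `e` to the boundary meets the boundary -/
theorem side_Tb {a b : ℤ} (hab : a < b) {η : Finset Ed} (hη : η ⊆ inner a (b + 1)) (e : MM a b)
    (i : Bool) {x : Site} (hx : (x, true) ∈ VS a b) (hxe : (BQ a b).en e true i = ⟨(x, true), hx⟩)
    (h : Tc a b (η.erase e.1) x) :
    (BQ a b).Tb ((BQ a b).side (Function.update (cf a b η) e false) ((BQ a b).en e true i)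
      ((BQ a b).en e false false)) := by
  obtain ⟨y, hy, hc⟩ := h
  have hxb : x ∈ box a (b + 1) := mem_VS_true.1 hx
  have hyb : y ∈ box a (b + 1) :=
    Conn_mem (η := η.erase e.1) ((erase_subset _ _).trans hη) hxb hc
  have hym : (y, true) ∈ VS a b := mem_VS_true.2 hyb
  have h1 : (BQ a b).Cono (cf a b η) e ((BQ a b).en e true i) ⟨(y, true), hym⟩ := by
    rw [hxe]
    exact (cono_act hη e hx hym).2 hc
  have h2 : (BQ a b).Con (Function.update (cf a b η) e false) ((BQ a b).en e true i)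
      ⟨(y, true), hym⟩ := by
    have h3 : (BQ a b).Cono (Function.update (cf a b η) e false) e ((BQ a b).en e true i)
        ⟨(y, true), hym⟩ := by
      rw [(BQ a b).Cono_congr (ω' := cf a b η)
        (fun e' he' => Function.update_of_ne he' _ _)]
      exact h1
    exact (BQ a b).Cono_Con h3
  refine ⟨⟨(y, true), hym⟩, ?_, bd_of_bdry hy hym⟩
  exact ((BQ a b).UC_Con _ ((BQ a b).side_UC (isDisc hab) _ (cor_en hab e i false)) h2).1
    ((BQ a b).mem_side_self _ _ _)

end R0CaseAux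

open R0CaseAux in
theorem caseC_box {a b : ℤ} (hab : a < b) {η : Finset Ed} (hη : η ⊆ inner a (b + 1)) {e : Ed}
    (he : e ∈ inner a (b + 1)) (h1 : ¬ Conn (η.erase e) (src e) (tgt e))
    (h2 : ¬ Conn (dual a b (insert e η)) (pu e) (pl e)) :
    Tc a b (η.erase e) (src e) ∧ Tc a b (η.erase e) (tgt e) ∧
    (∃ q', q' ∉ box a b ∧ Conn (dual a b (insert e η)) (pu e) q') ∧
    (∃ q', q' ∉ box a b ∧ Conn (dual a b (insert e η)) (pl e) q') := by
  obtain ⟨c, hc, hc1, hc2⟩ := bdC hab hη he h1 h2 false false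
  obtain ⟨d, hd, hd1, hd2⟩ := bdC hab hη he h1 h2 true true
  exact ⟨readA hab hη ⟨e, he⟩ hc (en_mem he).1 hc1, readA hab hη ⟨e, he⟩ hd (en_mem he).2.1 hd1,
    readP hab η ⟨e, he⟩ hc (en_mem he).2.2.1 hc2, readP hab η ⟨e, he⟩ hd (en_mem he).2.2.2 hd2⟩

open R0CaseAux in
theorem caseB_box {a b : ℤ} (hab : a < b) {η : Finset Ed} (hη : η ⊆ inner a (b + 1)) {e : Ed}
    (he : e ∈ inner a (b + 1)) (h2 : Conn (dual a b (insert e η)) (pu e) (pl e)) :
    ¬ Conn (η.erase e) (src e) (tgt e) ∧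
    ¬ (Tc a b (η.erase e) (src e) ∧ Tc a b (η.erase e) (tgt e)) := by
  have hQ : (BQ a b).IsDisc := isDisc hab
  have hc : (BQ a b).Cono (cf a b η) ⟨e, he⟩ ((BQ a b).en ⟨e, he⟩ false false)
      ((BQ a b).en ⟨e, he⟩ false true) :=
    (cono_pas η ⟨e, he⟩ (en_mem he).2.2.1 (en_mem he).2.2.2).2 h2
  constructor
  · intro h
    exact Quad.not_both _ hQ (cf a b η) ⟨e, he⟩
      ((cono_act hη ⟨e, he⟩ (en_mem he).1 (en_mem he).2.1).2 h) hc
  · rintro ⟨h3, h4⟩
    have t1 := side_Tb hab hη ⟨e, he⟩ false (en_mem he).1 rfl h3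
    have t2 := side_Tb hab hη ⟨e, he⟩ true (en_mem he).2.1 rfl h4
    have hcd : (BQ a b).dual.Cono (fun e' => !(cf a b η e')) ⟨e, he⟩
        ((BQ a b).dual.en ⟨e, he⟩ true false) ((BQ a b).dual.en ⟨e, he⟩ true true) := by
      rw [Quad.dual_Cono]
      exact hc
    have hor := Quad.caseA_or _ ((BQ a b).dual_isDisc hQ) (fun e' => !(cf a b η e')) ⟨e, he⟩ hcd
    have hup : Function.update (fun e' => !(cf a b η e')) (⟨e, he⟩ : MM a b) true =
        fun e' => !(Function.update (cf a b η) (⟨e, he⟩ : MM a b) false e') := by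
      funext e'
      by_cases h : e' = ⟨e, he⟩
      · subst h
        rw [Function.update_self, Function.update_self]
        rfl
      · rw [Function.update_of_ne h, Function.update_of_ne h]
    rw [hup, Quad.dual_side, Quad.dual_side] at hor
    rcases hor with hor | hor
    · exact hor t1
    · exact hor t2

end P0q
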