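import Pool.Agent.Lib.P0q.R0Lam
import Pool.Agent.Lib.P0q.R0Case
import Pool.Agent.Lib.P0q.R3Rc
import Pool.Agent.Lib.P0q.H4CaseAZ

/-!
# R8Rho: free ≤ ρ ≤ wired (section 4 of Q4_proof.md)

`κ = lam q / 4`, `4κ = lam q`. For `η ⊆ inner a (b+1)`, `e ∈ inner a (b+1) \ η`, with `ω₁ = cf (insert e η)`, `ω₀ = cf η`:
- case A (`Conn η u v`): `rhoW (insert e η) = √q rhoW η` (`caseA_Z`, `BdF_F01`);
- case B: `rhoW (insert e η) = rhoW η / √q` (`caseB_Z`);
- case C: `rhoW (insert e η) = exp (lam q) rhoW η` (`caseC_Z01`), `1/√q ≤ exp (lam q) ≤ √q`.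
free ≤ ρ: `fw (insert e η)/fw η` is `√q` in case A, `1/√q` otherwise (`fw_insert`; in case B `¬ Conn η u v` by `caseB_box`).
ρ ≤ wired: `rcW q 1` has ratio `odd q 1 a b η e` (`rcW_insert`): `√q` in case A, `≥ 1/√q` in case B, `√q` in case C (`caseC_box`; `√q/1`).
Then `odds_of'` (with `fw_odds`) and `odds_of` (with `rc_odds`, `qb = 1 ≤ q`) and `dom`.

`rho_near`: `rho_bound` for the disc, `κ > 0`, divided by the total weight: the sums over `ω : MM a b → Bool` are the sums over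
`η` (`sum_cf`).
-/

set_option autoImplicit false

open Finset P0de

namespace P0q

namespace R8RhoAux

theorem crn_bd {a b : ℤ} (hab : a < b) : crn a b hab 0 ∈ (BQ a b).bd := by
  classical
  show (⟨((a, a), true), (corner_mem hab).1⟩ : VV a b) ∈ (BQ a b).bd
  have h : (a, a) ∈ bdry a b := by
    unfold bdry
    rw [Finset.mem_sdiff, P0de.mem_box, P0de.mem_box]
    dsimp only
    omega
  simp [BQ, h]

theorem rho_A {q : ℝ} (hq : 4 < q) {a b : ℤ} (hab : a < b) {η : Finset Ed}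
    (hη : η ⊆ inner a (b + 1)) {e : Ed} (he : e ∈ inner a (b + 1)) (hn : e ∉ η)
    (h : Conn η (src e) (tgt e)) : rhoW q a b hab (insert e η) = √q * rhoW q a b hab η := by
  have h1 : (BQ a b).Cono (cf a b η) ⟨e, he⟩ ((BQ a b).en ⟨e, he⟩ true false)
      ((BQ a b).en ⟨e, he⟩ true true) := by
    refine (cono_act hη ⟨e, he⟩ (en_mem he).1 (en_mem he).2.1).2 ?_
    rwa [Finset.erase_eq_of_notMem hn]
  have h2 := (BQ a b).caseA_Z (isDisc hab) (cf a b η) ⟨e, he⟩ (crn_bd hab) (lam q / 4)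
    (BQ a b).F01 (BQ a b).BdF_F01 h1
  rw [← cf_insert η ⟨e, he⟩, ← cf_erase ⟨e, he⟩ hn, show 4 * (lam q / 4) = lam q by ring,
    (lam_spec hq).2.1] at h2
  exact h2

theorem rho_B {q : ℝ} (hq : 4 < q) {a b : ℤ} (hab : a < b) {η : Finset Ed}
    {e : Ed} (he : e ∈ inner a (b + 1)) (hn : e ∉ η)
    (h : Conn (dual a b (insert e η)) (pu e) (pl e)) :
    rhoW q a b hab η = √q * rhoW q a b hab (insert e η) := by
  have h1 : (BQ a b).Cono (cf a b η) ⟨e, he⟩ ((BQ a b).en ⟨e, he⟩ false false)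
      ((BQ a b).en ⟨e, he⟩ false true) :=
    (cono_pas η ⟨e, he⟩ (en_mem he).2.2.1 (en_mem he).2.2.2).2 h
  have h2 := (BQ a b).caseB_Z (isDisc hab) (cf a b η) ⟨e, he⟩ (crn_bd hab) (lam q / 4)
    (BQ a b).F01 (BQ a b).BdF_F01 h1
  rw [← cf_insert η ⟨e, he⟩, ← cf_erase ⟨e, he⟩ hn, show 4 * (lam q / 4) = lam q by ring,
    (lam_spec hq).2.1] at h2
  exact h2

theorem rho_C {q : ℝ} {a b : ℤ} (hab : a < b) {η : Finset Ed}
    (hη : η ⊆ inner a (b + 1)) {e : Ed} (he : e ∈ inner a (b + 1)) (hn : e ∉ η)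
    (h : ¬ Conn η (src e) (tgt e)) (h' : ¬ Conn (dual a b (insert e η)) (pu e) (pl e)) :
    rhoW q a b hab (insert e η) = Real.exp (lam q) * rhoW q a b hab η := by
  have h1 : ¬ (BQ a b).Cono (cf a b η) ⟨e, he⟩ ((BQ a b).en ⟨e, he⟩ true false)
      ((BQ a b).en ⟨e, he⟩ true true) := by
    intro hc
    have := (cono_act hη ⟨e, he⟩ (en_mem he).1 (en_mem he).2.1).1 hc
    rw [Finset.erase_eq_of_notMem hn] at this
    exact h this
  have h2 : ¬ (BQ a b).Cono (cf a b η) ⟨e, he⟩ ((BQ a b).en ⟨e, he⟩ false false)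
      ((BQ a b).en ⟨e, he⟩ false true) := fun hc =>
    h' ((cono_pas η ⟨e, he⟩ (en_mem he).2.2.1 (en_mem he).2.2.2).1 hc)
  have h3 := (BQ a b).caseC_Z01 (isDisc hab) (cf a b η) ⟨e, he⟩ (crn a b hab 0) (lam q / 4) h1 h2
  rw [← cf_insert η ⟨e, he⟩, ← cf_erase ⟨e, he⟩ hn, show 4 * (lam q / 4) = lam q by ring] at h3
  exact h3

end R8RhoAux

open R8RhoAux

theorem free_le_rho {q : ℝ} (hq : 4 < q) {a b : ℤ} (hab : a < b) {g : Finset Ed → ℝ}
    (hg : MonoOn (inner a (b + 1)) g) :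
    ex (inner a (b + 1)) (fw q) g ≤ ex (inner a (b + 1)) (rhoW q a b hab) g := by
  classical
  have hq0 : (0 : ℝ) < q := by linarith
  have hs : 0 < √q := Real.sqrt_pos.2 hq0
  have hs1 : 1 ≤ √q := by
    rw [show (1 : ℝ) = √1 by simp]
    exact Real.sqrt_le_sqrt (by linarith)
  obtain ⟨l0, l1, l2⟩ := lam_spec hq
  refine dom (fun η _ => fw_pos hq0 η) (fun η _ => rhoW_pos hab η) ?_ hg
  refine odds_of' (fun η _ => fw_pos hq0 η) (fun η _ => rhoW_pos hab η) ?_
    (fw_odds (by linarith) _)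
  intro η e hη he hn
  have f0 := fw_pos hq0 η
  have r0 := rhoW_pos (q := q) hab η
  have r1 := rhoW_pos (q := q) hab (insert e η)
  rw [fw_insert hq0 hn]
  by_cases hA : Conn η (src e) (tgt e)
  · rw [if_pos hA, rho_A hq hab hη he hn hA]
    apply le_of_eq
    ring
  · rw [if_neg hA]
    by_cases hB : Conn (dual a b (insert e η)) (pu e) (pl e)
    · rw [rho_B hq hab he hn hB]
      apply le_of_eq
      field_simp
    · rw [rho_C hab hη he hn hA hB]
      have h1 : 1 / √q ≤ Real.exp (lam q) :=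
        le_trans ((div_le_one hs).2 hs1) (Real.one_le_exp l0.le)
      calc 1 / √q * fw q η * rhoW q a b hab η = 1 / √q * (fw q η * rhoW q a b hab η) := by ring
        _ ≤ Real.exp (lam q) * (fw q η * rhoW q a b hab η) :=
          mul_le_mul_of_nonneg_right h1 (mul_pos f0 r0).le
        _ = fw q η * (Real.exp (lam q) * rhoW q a b hab η) := by ring

theorem rho_le_wired {q : ℝ} (hq : 4 < q) {a b : ℤ} (hab : a < b) {g : Finset Ed → ℝ}
    (hg : MonoOn (inner a (b + 1)) g) :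
    ex (inner a (b + 1)) (rhoW q a b hab) g ≤ ex (inner a (b + 1)) (rcW q 1 (pc q) a b) g := by
  classical
  have hq0 : (0 : ℝ) < q := by linarith
  have hs : 0 < √q := Real.sqrt_pos.2 hq0
  have hs1 : 1 ≤ √q := by
    rw [show (1 : ℝ) = √1 by simp]
    exact Real.sqrt_le_sqrt (by linarith)
  obtain ⟨l0, l1, l2⟩ := lam_spec hq
  refine dom (fun η _ => rhoW_pos hab η) (fun η _ => rcW_pos hq0 one_pos a b η) ?_ hg
  refine odds_of (fun η _ => rhoW_pos hab η) (fun η _ => rcW_pos hq0 one_pos a b η) ?_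
    (rc_odds le_rfl (by linarith) a b)
  intro η e hη he hn
  have c0 := rcW_pos hq0 one_pos a b η
  have r0 := rhoW_pos (q := q) hab η
  have r1 := rhoW_pos (q := q) hab (insert e η)
  rw [rcW_insert hq0 one_pos hη he hn]
  have hs2 : 1 / √q ≤ √q := le_trans ((div_le_one hs).2 hs1) hs1
  have ho : 1 / √q ≤ odd q 1 a b η e := by
    unfold odd
    split_ifs
    · exact hs2
    · rw [div_one]; exact hs2
    · exact le_rfl
  by_cases hA : Conn η (src e) (tgt e)
  · rw [rho_A hq hab hη he hn hA]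
    have : odd q 1 a b η e = √q := by
      unfold odd
      rw [if_pos hA]
    rw [this]
    apply le_of_eq
    ring
  · by_cases hB : Conn (dual a b (insert e η)) (pu e) (pl e)
    · rw [rho_B hq hab he hn hB]
      have h1 : 1 ≤ √q * odd q 1 a b η e := by
        calc (1 : ℝ) = √q * (1 / √q) := by field_simp
          _ ≤ √q * odd q 1 a b η e := mul_le_mul_of_nonneg_left ho hs.le
      calc rhoW q a b hab (insert e η) * rcW q 1 (pc q) a b η
          = 1 * (rhoW q a b hab (insert e η) * rcW q 1 (pc q) a b η) := by ring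
        _ ≤ √q * odd q 1 a b η e * (rhoW q a b hab (insert e η) * rcW q 1 (pc q) a b η) :=
          mul_le_mul_of_nonneg_right h1 (mul_pos r1 c0).le
        _ = √q * rhoW q a b hab (insert e η) * (odd q 1 a b η e * rcW q 1 (pc q) a b η) := by ring
    · have hE : η.erase e = η := Finset.erase_eq_of_notMem hn
      have hT := caseC_box hab hη he (by rw [hE]; exact hA) hB
      rw [hE] at hT
      have : odd q 1 a b η e = √q := by
        unfold odd
        rw [if_neg hA, if_pos ⟨hT.1, hT.2.1⟩, div_one]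
      rw [rho_C hab hη he hn hA hB, this]
      calc Real.exp (lam q) * rhoW q a b hab η * rcW q 1 (pc q) a b η
          = Real.exp (lam q) * (rhoW q a b hab η * rcW q 1 (pc q) a b η) := by ring
        _ ≤ √q * (rhoW q a b hab η * rcW q 1 (pc q) a b η) :=
          mul_le_mul_of_nonneg_right l2 (mul_pos r0 c0).le
        _ = rhoW q a b hab η * (√q * rcW q 1 (pc q) a b η) := by ring

theorem rho_near {q : ℝ} (hq : 4 < q) {a b : ℤ} (hab : a < b) (z : VV a b) (m : ℕ) :
    ((m : ℝ) + 1) * Real.tanh (lam q) *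
      ev (inner a (b + 1)) (rhoW q a b hab) (fun η => ¬ (BQ a b).Near (cf a b η) m z) ≤ 1 := by
  classical
  obtain ⟨l0, l1, l2⟩ := lam_spec hq
  have hb := (BQ a b).rho_bound (isDisc hab) (crn_bd hab) (lam q / 4) (by positivity) z m
  rw [show 4 * (lam q / 4) = lam q by ring, ← sum_cf, ← sum_cf] at hb
  have hS : 0 < ∑ η ∈ (inner a (b + 1)).powerset, rhoW q a b hab η :=
    Finset.sum_pos (fun η _ => rhoW_pos hab η) ⟨∅, by simp⟩
  unfold ev ex
  rw [← mul_div_assoc, div_le_one hS]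
  refine le_trans (le_of_eq ?_) hb
  congr 1
  refine Finset.sum_congr rfl fun η _ => ?_
  unfold ind rhoW
  by_cases hN : (BQ a b).Near (cf a b η) m z
  · rw [if_neg (not_not.2 hN), if_neg (not_not.2 hN), mul_zero]
  · rw [if_pos hN, if_pos hN, mul_one]

end P0q
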