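import Pool.Agent.Lib.P0q.F5Loc
import Pool.Agent.Lib.P0q.F6Near
import Pool.Agent.Lib.P0q.R8Rho

/-!
# F7Contra: the contradiction ((7.6) of Q4_proof.md)

`T = tanh (lam q) > 0`. Choose `m` with `(m + 1) T > 2`, `ε = 1/(12 (2m + 3))`. By `Core.noinf` choose `r 0 = 1` and inductively `r (i+1) ≥ r i + 2` with
`μ(Cross (r i) (r (i+1)) (op (EE (r (i+1))) ω)) < ε`. For `n` large, write `ρ_n = ev (EE n) (rhoW q (-n) n _)`. For each `i ≤ 2m+2`:
- active: `A = Cross (r i) (r (i+1))`, `A η ↔ A (η ∩ EE (r (i+1)))` (definition of `Cross`), increasing (`Cross_up`). `ρ_n(A) ≤ W_n(A)` (`rho_le_wired`)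
  `≤ F_n(A) + ε` (`locdiff`) `≤ μ(A) + 2ε` (`Core.free`) `≤ 3ε`.
- passive: `D η = Cross (r i) (r (i+1)) (dual (-n) n η ∩ inner (-n) n)` is decreasing in `η` and only depends on the states of the edges `cr f`,
  `f ∈ EE (r (i+1))` (`dual_loc`, `EE_sub`): for `E = (EE (r (i+1))).image cr` and the increasing event
  `A' ζ := ¬ Cross (r i) (r (i+1)) ((EE (r (i+1))).filter (cr f ∉ ζ))` we have `¬ D η ↔ A' η ↔ A' (η ∩ E)`. `ρ_n(A') ≥ F_n(A')` (`free_le_rho`) `≥ W_n(A') - ε`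
  (`locdiff`), so `ρ_n(D) ≤ W_n(D) + ε ≤ μ(Cross ..) + 2ε ≤ 3ε` (`wired_dual_cross`).
By the union bound `ρ_n(some crossing) ≤ (2m+3)·6ε = 1/2`, so by `not_near` `ρ_n(¬ Near m 0) ≥ 1/2` for large `n`, and `rho_near` gives
`(m+1) T / 2 ≤ 1`, contradiction.
-/

set_option autoImplicit false

open Finset P0de MeasureTheory Filter Topology

namespace P0q

namespace F7ContraAux

theorem cross_inter {R K : ℕ} {η ζ : Finset Ed} (h : η ∩ EE K = ζ ∩ EE K) :
    Cross R K η ↔ Cross R K ζ := by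
  unfold Cross
  rw [h]

theorem inter_idem (η : Finset Ed) (E : Finset Ed) : (η ∩ E) ∩ E = η ∩ E := by
  rw [inter_assoc, inter_self]

theorem active {q : ℝ} (hq : 4 < q) {μ : Measure (Ed → Bool)} (hμ : Core q μ)
    (hH : HalfAll μ) {R K : ℕ} {ε : ℝ} (hε : 0 < ε)
    (hc : μ.real {ω | Cross R K (op (EE K) ω)} < ε) :
    ∀ᶠ n : ℕ in atTop, ∀ hab : -(n : ℤ) < (n : ℤ),
      ev (EE n) (rhoW q (-(n : ℤ)) n hab) (Cross R K) ≤ 3 * ε := by
  have h1 := locdiff hq hμ hH (EE K) (Cross_up R K) hε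
  have h2 := (hμ.free (EE K) (Cross R K)).eventually (ge_mem_nhds
    (show μ.real {ω | Cross R K (op (EE K) ω)} < ε by exact hc))
  filter_upwards [h1, h2] with n h1 h2 hab
  have h3 := rho_le_wired hq hab (mono_ind (E := inner (-(n : ℤ)) (n + 1)) (Cross_up R K))
  have hev : ∀ w : Finset Ed → ℝ, ev (EE n) w (fun η => Cross R K (η ∩ EE K)) =
      ev (EE n) w (Cross R K) := by
    intro w
    congr 1
    funext η
    exact propext (cross_inter (inter_idem _ _))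
  rw [hev, hev] at h1
  rw [hev] at h2
  have h4 : ev (EE n) (rhoW q (-(n : ℤ)) n hab) (Cross R K) ≤ ev (EE n) (Wn q n) (Cross R K) := h3
  linarith

/-- passive crossing as a function of the states of the crossed edges -/
def G (R K : ℕ) (ζ : Finset Ed) : Prop := Cross R K ((EE K).filter fun f => cr f ∉ ζ)

theorem G_up (R K : ℕ) : Up (fun ζ => ¬ G R K ζ) := by
  intro η η' h h1 h2
  apply h1
  unfold G at *
  refine Cross_up R K _ _ ?_ h2
  intro f hf
  rw [mem_filter] at hf ⊢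
  exact ⟨hf.1, fun h3 => hf.2 (h h3)⟩

theorem G_loc (R K : ℕ) (ζ : Finset Ed) : G R K (ζ ∩ (EE K).image cr) ↔ G R K ζ := by
  unfold G
  have : ((EE K).filter fun f => cr f ∉ ζ ∩ (EE K).image cr) = (EE K).filter fun f => cr f ∉ ζ := by
    apply Finset.filter_congr
    intro f hf
    rw [mem_inter]
    constructor
    · intro h h'
      exact h ⟨h', mem_image_of_mem _ hf⟩
    · intro h h'
      exact h h'.1
  rw [this]

theorem G_iff {R K n : ℕ} (hK : K < n) (η : Finset Ed) :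
    Cross R K (dual (-(n : ℤ)) n η ∩ inner (-(n : ℤ)) n) ↔ G R K η := by
  unfold G
  apply cross_inter
  rw [← dual_loc (EE_sub hK) η, inter_idem]
  rw [inter_assoc]
  congr 1
  exact inter_eq_right.2 (EE_sub hK)

theorem passive {q : ℝ} (hq : 4 < q) {μ : Measure (Ed → Bool)} (hμ : Core q μ)
    (hH : HalfAll μ) {R K : ℕ} {ε : ℝ} (hε : 0 < ε)
    (hc : μ.real {ω | Cross R K (op (EE K) ω)} < ε) :
    ∀ᶠ n : ℕ in atTop, ∀ hab : -(n : ℤ) < (n : ℤ),
      ev (EE n) (rhoW q (-(n : ℤ)) n hab)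
        (fun η => Cross R K (dual (-(n : ℤ)) n η ∩ inner (-(n : ℤ)) n)) ≤ 3 * ε := by
  have hq0 : (0 : ℝ) < q := by linarith
  have h1 := locdiff hq hμ hH ((EE K).image cr) (G_up R K) hε
  have h2 := wired_dual_cross hq hμ R K hε
  filter_upwards [h1, h2, eventually_gt_atTop K] with n h1 h2 hK hab
  have hev : ∀ w : Finset Ed → ℝ, ev (EE n) w (fun η => ¬ G R K (η ∩ (EE K).image cr)) =
      ev (EE n) w (fun η => ¬ G R K η) := by
    intro w
    congr 1
    funext η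
    rw [G_loc]
  have hev2 : ∀ w : Finset Ed → ℝ,
      ev (EE n) w (fun η => Cross R K (dual (-(n : ℤ)) n η ∩ inner (-(n : ℤ)) n)) =
      ev (EE n) w (fun η => G R K η) := by
    intro w
    congr 1
    funext η
    exact propext (G_iff hK η)
  rw [hev, hev] at h1
  rw [hev2] at h2 ⊢
  have h3 := free_le_rho hq hab (mono_ind (E := inner (-(n : ℤ)) (n + 1)) (G_up R K))
  have h4 : ev (EE n) (fw q) (fun η => ¬ G R K η) ≤
      ev (EE n) (rhoW q (-(n : ℤ)) n hab) (fun η => ¬ G R K η) := h3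
  rw [ev_not (fun η _ => fw_pos hq0 η)] at h4 h1
  rw [ev_not (fun η _ => rhoW_pos hab η)] at h4
  rw [ev_not (fun η _ => rcW_pos hq0 one_pos _ _ η)] at h1
  linarith

theorem ev_union {E : Finset Ed} {w : Finset Ed → ℝ} (hw : ∀ η ⊆ E, 0 < w η)
    (P : ℕ → Finset Ed → Prop) (c : ℝ) : ∀ k : ℕ, (∀ i < k, ev E w (P i) ≤ c) →
    ev E w (fun η => ∃ i < k, P i η) ≤ k * c := by
  intro k
  induction k with
  | zero =>
    intro _
    have h := ev_not hw (fun _ => True)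
    have h1 : ev E w (fun _ => True) = 1 := by
      have : ind (fun _ : Finset Ed => True) = fun _ => (1 : ℝ) := by
        funext η
        simp [ind]
      unfold ev
      rw [this]
      exact ex_const hw 1
    have h2 : (fun η : Finset Ed => ∃ i < 0, P i η) = fun _ => ¬ True := by
      funext η
      simp
    rw [h2, h, h1]
    simp
  | succ k ih =>
    intro hi
    have h1 := ih (fun i h => hi i (by omega))
    have h2 := hi k (by omega)
    have h3 := ev_or hw (fun η => ∃ i < k, P i η) (P k)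
    have h4 : ev E w (fun η => ∃ i < k + 1, P i η) ≤
        ev E w (fun η => (∃ i < k, P i η) ∨ P k η) := by
      apply ev_le hw
      rintro η _ ⟨i, hik, hP⟩
      rcases Nat.lt_succ_iff_lt_or_eq.1 hik with h | rfl
      · exact Or.inl ⟨i, h, hP⟩
      · exact Or.inr hP
    push_cast
    linarith

end F7ContraAux

open F7ContraAux

theorem contra {q : ℝ} (hq : 4 < q) {μ : Measure (Ed → Bool)} (hμ : Core q μ)
    (hH : HalfAll μ) : False := by
  obtain ⟨l0, l1, l2⟩ := lam_spec hq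
  have hT : 0 < Real.tanh (lam q) := by
    rw [Real.tanh_eq_sinh_div_cosh]
    exact div_pos (Real.sinh_pos_iff.2 l0) (Real.cosh_pos _)
  obtain ⟨m, hm⟩ := exists_nat_gt (2 / Real.tanh (lam q))
  rw [div_lt_iff₀ hT] at hm
  set ε : ℝ := 1 / (12 * (2 * m + 3)) with hεdef
  have hε : 0 < ε := by positivity
  -- the radii
  choose Kf hKf1 hKf2 using fun R : ℕ => hμ.noinf R ε hε
  let r : ℕ → ℕ := fun i => Nat.rec 1 (fun _ R => max (Kf R) (R + 2)) i
  have hr0 : r 0 = 1 := rfl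
  have hrs : ∀ i, r (i + 1) = max (Kf (r i)) (r i + 2) := fun i => rfl
  have hr2 : ∀ i, r i + 2 ≤ r (i + 1) := fun i => by
    rw [hrs]
    exact le_max_right _ _
  have hrc : ∀ i, μ.real {ω | Cross (r i) (r (i + 1)) (op (EE (r (i + 1))) ω)} < ε := fun i =>
    hKf2 (r i) (r (i + 1)) (by rw [hrs]; exact le_max_left _ _)
  have hA : ∀ᶠ n : ℕ in atTop, ∀ i ∈ Finset.range (2 * m + 3), ∀ hab : -(n : ℤ) < (n : ℤ),
      ev (EE n) (rhoW q (-(n : ℤ)) n hab) (Cross (r i) (r (i + 1))) ≤ 3 * ε :=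
    (Filter.eventually_all_finset _).2 fun i _ => active hq hμ hH hε (hrc i)
  have hD : ∀ᶠ n : ℕ in atTop, ∀ i ∈ Finset.range (2 * m + 3), ∀ hab : -(n : ℤ) < (n : ℤ),
      ev (EE n) (rhoW q (-(n : ℤ)) n hab) (fun η => Cross (r i) (r (i + 1))
        (dual (-(n : ℤ)) n η ∩ inner (-(n : ℤ)) n)) ≤ 3 * ε :=
    (Filter.eventually_all_finset _).2 fun i _ => passive hq hμ hH hε (hrc i)
  obtain ⟨n, hA, hD, hn⟩ := (hA.and (hD.and (eventually_gt_atTop (r (2 * m + 3))))).exists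
  have hn1 : 0 < n := by omega
  have hab : -(n : ℤ) < (n : ℤ) := by omega
  have hw : ∀ η ⊆ EE n, 0 < rhoW q (-(n : ℤ)) n hab η := fun η _ => rhoW_pos hab η
  set Bad : ℕ → Finset Ed → Prop := fun i η => Cross (r i) (r (i + 1)) η ∨
    Cross (r i) (r (i + 1)) (dual (-(n : ℤ)) n η ∩ inner (-(n : ℤ)) n) with hBad
  have h1 : ∀ i < 2 * m + 3, ev (EE n) (rhoW q (-(n : ℤ)) n hab) (Bad i) ≤ 6 * ε := by
    intro i hi
    have e1 := hA i (Finset.mem_range.2 hi) hab
    have e2 := hD i (Finset.mem_range.2 hi) hab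
    have e3 := ev_or hw (Cross (r i) (r (i + 1))) (fun η => Cross (r i) (r (i + 1))
        (dual (-(n : ℤ)) n η ∩ inner (-(n : ℤ)) n))
    have e4 : ev (EE n) (rhoW q (-(n : ℤ)) n hab) (Bad i) ≤
      ev (EE n) (rhoW q (-(n : ℤ)) n hab) (Cross (r i) (r (i + 1))) +
      ev (EE n) (rhoW q (-(n : ℤ)) n hab) (fun η => Cross (r i) (r (i + 1))
        (dual (-(n : ℤ)) n η ∩ inner (-(n : ℤ)) n)) := e3
    linarith
  have h2 := ev_union hw Bad (6 * ε) (2 * m + 3) h1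
  have h3 : ((2 * m + 3 : ℕ) : ℝ) * (6 * ε) = 1 / 2 := by
    rw [hεdef]
    push_cast
    have : (2 * (m : ℝ) + 3) ≠ 0 := by positivity
    field_simp
    norm_num
  rw [h3] at h2
  have h4 := ev_not hw (fun η => ∃ i < 2 * m + 3, Bad i η)
  have h5 : ev (EE n) (rhoW q (-(n : ℤ)) n hab) (fun η => ¬ ∃ i < 2 * m + 3, Bad i η) ≤
      ev (EE n) (rhoW q (-(n : ℤ)) n hab) (fun η => ¬ (BQ (-(n : ℤ)) n).Near
        (cf (-(n : ℤ)) n η) m ⟨(((0 : ℤ), (0 : ℤ)), true), zero_mem⟩) := by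
    apply ev_le hw
    intro η hη hb
    refine not_near hη (r := r) (by rw [hr0]) hr2 hn ?_ ?_
    · intro i hi hC
      exact hb ⟨i, by omega, Or.inl hC⟩
    · intro i hi hC
      exact hb ⟨i, by omega, Or.inr hC⟩
  have h6 := rho_near hq hab ⟨(((0 : ℤ), (0 : ℤ)), true), zero_mem⟩ m
  have h7 : (1 : ℝ) / 2 ≤ ev (EE n) (rhoW q (-(n : ℤ)) n hab) (fun η => ¬ (BQ (-(n : ℤ)) n).Near
        (cf (-(n : ℤ)) n η) m ⟨(((0 : ℤ), (0 : ℤ)), true), zero_mem⟩) := by
    linarith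
  have h8 : ((m : ℝ) + 1) * Real.tanh (lam q) * (1 / 2) ≤ 1 :=
    le_trans (mul_le_mul_of_nonneg_left h7 (by positivity)) h6
  nlinarith

end P0q
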