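import Pool.Agent.Lib.P0q.F2Half
import Pool.Agent.Lib.P0q.F7Contra

/-!
# F8Final: final assembly (modulo the blocks I and Z)

Given `q > 4`, take `w, C` from `rc_half`. For `√q < qb ≤ w√q` (so `1 ≤ qb`) suppose `Core q μ` and that `RC^{qb}` on `[-n, n]²` converges to `μ` on local
events. `half_lim` (hypothesis `hrc`: `rc_half` for this `qb`) gives `HalfAll μ`, and `contra` the contradiction.
-/

set_option autoImplicit false

open Finset P0de MeasureTheory Filter Topology

namespace P0q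

theorem final_core {q : ℝ} (hq : 4 < q) : ∃ w : ℝ, 1 < w ∧ ∀ qb : ℝ, √q < qb → qb ≤ w * √q →
    ∀ μ : Measure (Ed → Bool), Core q μ →
      ¬ LocLim (fun n => rcW q qb (pc q) (-(n : ℤ)) n) μ := by
  obtain ⟨w, C, hw, hwq, hC, h⟩ := rc_half hq
  refine ⟨w, hw, ?_⟩
  intro qb h1 h2 μ hμ hB
  have hq1 : 1 ≤ √q := by
    rw [Real.one_le_sqrt]
    linarith
  have hqb : 1 ≤ qb := hq1.trans h1.le
  exact contra hq hμ fun x y hy ε hε =>
    half_lim hq hμ hC hqb (fun a b hab x y hx hy hp => h a b hab qb hqb h2 x y hx hy hp) hB hy hε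

end P0q
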