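import Pool.Agent.Lib.P0q.K3Cut

/-!
# H0Mem: the finite set of heights

`mem_Hs`: in a disc, an admissible `h` with `h r = 0` satisfies `|h z| ≤ |V|`. Proof: all integers between `0` and `h z` are
values of `h`: let `0 ≤ k ≤ h z` (the other case is symmetric) and suppose `k` is not a value; put
`T = {w | h w < k}`: `r ∈ T` (`h r = 0 ≠ k`, so `0 < k`), and the two ends of a corner are both in `T` or both not (their heights
differ by one and none is `k`), so `IsDisc.conn` gives `z ∈ T`, contradiction. So `0, 1, ..., h z` are `h z + 1` different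
values of `h` on `V`, `h z + 1 ≤ |V|`. (`Hs` contains `h` iff the bound, `adm h` and `h r = 0` hold.)
`IsDisc.conn` is stated with `en e true i ∈ T ↔ en e false j ∈ T`; these are corners by `pr_en`.

`zero_one_mem`: the heights `0` on active and `1` on passive vertices are admissible, compatible with every `ω`, and have
`h r = 0` if `r` is active.

`adm_shf`: `S = side ω x y`, `h` admissible, compatible with `ω`, `h x = h y - 1`. Then `shf S r h` is admissible: corners with
both ends on the same side: the difference does not change. A crossing corner `{a, b}`, `a ∈ S`, `b ∉ S`: `Con ω x a`,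
`Con ω y b` (`side_cross`), so `h a = h x`, `h b = h y` (compatible heights are constant on clusters), and the new difference is
`h a + 2 - h b = 1`. Similarly `adm_shf'` for the inverse shift when `h x = h y + 1`.
`cmp_shf`: `S` union of clusters.

`Zf_pos`: all terms are nonnegative and the term of the heights `0/1` is positive.
-/

set_option autoImplicit false

open Finset P0de

namespace P0q

variable {V M : Type} [Fintype V] [DecidableEq V] [Fintype M] [DecidableEq M] (Q : Quad V M)

namespace Quad

theorem cor_en (hQ : Q.IsDisc) (e : M) (i j : Bool) :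
    Q.cor (Q.en e true i) (Q.en e false j) :=
  (Q.cor_iff hQ).2 ⟨e, true, i, j, rfl, rfl⟩

theorem adm_neg {h : V → ℤ} (ha : Q.adm h) : Q.adm (fun z => - h z) := by
  intro x y hxy
  have := ha x y hxy
  simp only
  omega

theorem adm_le (hQ : Q.IsDisc) {r : V} {h : V → ℤ} (ha : Q.adm h) (hr : h r = 0) (z : V) :
    h z ≤ (Fintype.card V : ℤ) := by
  rcases lt_or_ge (h z) 0 with hz | hz
  · have : (0 : ℤ) ≤ (Fintype.card V : ℤ) := by positivity
    omega
  · have hval : ∀ k : ℤ, 0 ≤ k → k ≤ h z → ∃ w, h w = k := by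
      intro k hk0 hkz
      by_contra hno
      push Not at hno
      have hconn := hQ.conn (univ.filter fun w => h w < k)
        ⟨r, by
          rw [mem_filter]
          refine ⟨mem_univ _, ?_⟩
          have := hno r
          omega⟩
        (by
          intro e i j
          rw [mem_filter, mem_filter]
          have h1 := ha _ _ (Q.cor_en hQ e i j)
          have h2 := hno (Q.en e true i)
          have h3 := hno (Q.en e false j)
          constructor
          · rintro ⟨-, h4⟩
            exact ⟨mem_univ _, by omega⟩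
          · rintro ⟨-, h4⟩
            exact ⟨mem_univ _, by omega⟩) z
      rw [mem_filter] at hconn
      omega
    have hsub : Finset.Icc (0 : ℤ) (h z) ⊆ univ.image h := by
      intro k hk
      rw [Finset.mem_Icc] at hk
      obtain ⟨w, hw⟩ := hval k hk.1 hk.2
      exact mem_image.2 ⟨w, mem_univ _, hw⟩
    have hcard := (Finset.card_le_card hsub).trans Finset.card_image_le
    rw [Int.card_Icc, Finset.card_univ] at hcard
    have : (h z + 1 - 0).toNat ≤ Fintype.card V := hcard
    omega

theorem mem_Hs (hQ : Q.IsDisc) {r : V} {h : V → ℤ} : h ∈ Q.Hs r ↔ Q.adm h ∧ h r = 0 := by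
  classical
  unfold Hs
  simp only [mem_filter]
  constructor
  · exact fun h1 => h1.2
  · rintro ⟨ha, hr⟩
    refine ⟨?_, ha, hr⟩
    rw [Fintype.mem_piFinset]
    intro z
    rw [Finset.mem_Icc]
    refine ⟨?_, Q.adm_le hQ ha hr z⟩
    have := Q.adm_le hQ (r := r) (Q.adm_neg ha) (by simp [hr]) z
    omega

theorem neg_mem_Hs (hQ : Q.IsDisc) {r : V} {h : V → ℤ} (hh : h ∈ Q.Hs r) :
    (fun z => - h z) ∈ Q.Hs r := by
  rw [Q.mem_Hs hQ] at hh ⊢
  exact ⟨Q.adm_neg hh.1, by simp [hh.2]⟩

theorem cmp_Con {ω : M → Bool} {h : V → ℤ} (hc : Q.cmp ω h) {x y : V} (hxy : Q.Con ω x y) :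
    h x = h y := by
  induction hxy with
  | refl => rfl
  | tail _ hd ih =>
    rw [ih]
    obtain ⟨e, i, h1, h2⟩ := hd
    rw [h1, h2]
    have := hc e
    cases i
    · exact this
    · exact this.symm

theorem cmp_shf {ω : M → Bool} {S : Finset V} (hS : Q.UC ω S) (r : V) (h : V → ℤ) :
    Q.cmp ω (shf S r h) ↔ Q.cmp ω h := by
  unfold cmp shf
  refine forall_congr' fun e => ?_
  have h1 := hS e
  by_cases h2 : Q.en e (ω e) false ∈ S
  · have h3 := h1.1 h2
    simp only [h2, h3, if_true]
    constructor <;> intro h4 <;> omega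
  · have h3 : Q.en e (ω e) true ∉ S := fun h4 => h2 (h1.2 h4)
    simp only [h2, h3, if_false]
    constructor <;> intro h4 <;> omega

theorem adm_shf (hQ : Q.IsDisc) {ω : M → Bool} {x y : V} (hxy : Q.cor x y) (r : V) {h : V → ℤ}
    (ha : Q.adm h) (hc : Q.cmp ω h) (h1 : h x = h y - 1) :
    Q.adm (shf (Q.side ω x y) r h) := by
  intro a b hab
  have h2 := ha a b hab
  unfold shf
  by_cases h3 : a ∈ Q.side ω x y
  · by_cases h4 : b ∈ Q.side ω x y
    · simp only [h3, h4, if_true]
      omega
    · obtain ⟨h5, h6⟩ := Q.side_cross hQ ω hxy hab h3 h4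
      have h7 := Q.cmp_Con hc h5
      have h8 := Q.cmp_Con hc h6
      simp only [h3, h4, if_true, if_false]
      omega
  · by_cases h4 : b ∈ Q.side ω x y
    · obtain ⟨h5, h6⟩ := Q.side_cross hQ ω hxy (Q.cor_symm hab) h4 h3
      have h7 := Q.cmp_Con hc h5
      have h8 := Q.cmp_Con hc h6
      simp only [h3, h4, if_true, if_false]
      omega
    · simp only [h3, h4, if_false]
      omega

theorem notMem_side (hQ : Q.IsDisc) (ω : M → Bool) {x y : V} (hxy : Q.cor x y) :
    y ∉ Q.side ω x y := by
  have h1 := Q.mem_side_self ω y x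
  rw [Q.side_compl hQ ω hxy, mem_compl] at h1
  exact h1

/-- the inverse shift: every admissible compatible `h'` with `h' r = 0`, `h' x = h' y + 1` is `shf S r h` for an admissible
compatible `h` with `h r = 0` and `h x = h y - 1` -/
theorem exists_shf (hQ : Q.IsDisc) {ω : M → Bool} {x y : V} (hxy : Q.cor x y) (r : V) {h' : V → ℤ}
    (ha : Q.adm h') (hc : Q.cmp ω h') (hr : h' r = 0) (h1 : h' x = h' y + 1) :
    ∃ h : V → ℤ, Q.adm h ∧ Q.cmp ω h ∧ h r = 0 ∧ h x = h y - 1 ∧
      shf (Q.side ω x y) r h = h' := by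
  have hx := Q.mem_side_self ω x y
  have hy := Q.notMem_side hQ ω hxy
  refine ⟨fun z => h' z - (if z ∈ Q.side ω x y then 2 else 0) +
    (if r ∈ Q.side ω x y then 2 else 0), ?_, ?_, ?_, ?_, ?_⟩
  · intro a b hab
    have h2 := ha a b hab
    by_cases h3 : a ∈ Q.side ω x y
    · by_cases h4 : b ∈ Q.side ω x y
      · simp only [h3, h4, if_true]
        omega
      · obtain ⟨h5, h6⟩ := Q.side_cross hQ ω hxy hab h3 h4
        have h7 := Q.cmp_Con hc h5
        have h8 := Q.cmp_Con hc h6
        simp only [h3, h4, if_true, if_false]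
        omega
    · by_cases h4 : b ∈ Q.side ω x y
      · obtain ⟨h5, h6⟩ := Q.side_cross hQ ω hxy (Q.cor_symm hab) h4 h3
        have h7 := Q.cmp_Con hc h5
        have h8 := Q.cmp_Con hc h6
        simp only [h3, h4, if_true, if_false]
        omega
      · simp only [h3, h4, if_false]
        omega
  · intro e
    have h2 := hc e
    have h3 := Q.side_UC hQ ω hxy e
    by_cases h4 : Q.en e (ω e) false ∈ Q.side ω x y
    · have h5 := h3.1 h4
      simp only [h4, h5, if_true]
      omega
    · have h5 : Q.en e (ω e) true ∉ Q.side ω x y := fun h6 => h4 (h3.2 h6)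
      simp only [h4, h5, if_false]
      omega
  · simp only [hr]
    omega
  · simp only [hx, hy, if_true, if_false]
    omega
  · funext z
    unfold shf
    simp only
    ring

theorem zero_one_mem (hQ : Q.IsDisc) {r : V} (hr : Q.pr r = true) (ω : M → Bool) :
    (fun z => if Q.pr z then (0 : ℤ) else 1) ∈ Q.Hs r ∧
      Q.cmp ω (fun z => if Q.pr z then (0 : ℤ) else 1) := by
  constructor
  · rw [Q.mem_Hs hQ]
    refine ⟨?_, by simp [hr]⟩
    intro x y hxy
    have h1 := hxy.1
    cases hx : Q.pr x
    · have hy : Q.pr y = true := by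
        rw [hx] at h1
        cases hy : Q.pr y
        · exact absurd hy.symm h1
        · rfl
      simp [hx, hy]
    · have hy : Q.pr y = false := by
        rw [hx] at h1
        cases hy : Q.pr y
        · rfl
        · exact absurd hy.symm h1
      simp [hx, hy]
  · intro e
    simp only [hQ.pr_en]

theorem Zf_nonneg (r : V) (κ : ℝ) (F : (V → ℤ) → ℝ) (hF : ∀ h, 0 ≤ F h) (ω : M → Bool) :
    0 ≤ Q.Zf r κ F ω := by
  unfold Zf
  refine Finset.sum_nonneg fun h _ => ?_
  split_ifs
  · exact mul_nonneg (hF h) (Real.exp_pos _).le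
  · exact le_refl _

theorem Zf_pos (hQ : Q.IsDisc) {r : V} (hr : Q.pr r = true) (κ : ℝ) (F : (V → ℤ) → ℝ)
    (hF : ∀ h, 0 ≤ F h) (h01 : 0 < F fun z => if Q.pr z then 0 else 1) (ω : M → Bool) :
    0 < Q.Zf r κ F ω := by
  obtain ⟨h1, h2⟩ := Q.zero_one_mem hQ hr ω
  unfold Zf
  refine Finset.sum_pos' (fun h _ => ?_) ⟨_, h1, ?_⟩
  · split_ifs
    · exact mul_nonneg (hF h) (Real.exp_pos _).le
    · exact le_refl _
  · rw [if_pos h2]
    exact mul_pos h01 (Real.exp_pos _)

end Quad

end P0q
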