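import Pool.Agent.Lib.P0q.H0Mem
import Pool.Agent.Lib.P0q.H1Ph

/-!
# H8Even: summation over the configurations ((2.4) of Q4_proof.md)

For fixed `h` the sum over `ω : M → Bool` factorises: `∑_ω (if cmp ω h then exp (κ ph ω h) else 0) = ∏_e c_e(κ, h)`,
`c_e(κ, h) = (if h u = h v then exp (κ Dl e h) else 0) + (if h f = h g then exp (- κ Dl e h) else 0)`
(`Finset.prod_univ_sum` / `Fintype.piFinset`, or `Finset.prod_add`; the condition `cmp ω h` is a conjunction over `e`, and `ph` is a sum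
over `e`). For admissible `h`, `c_e` is unchanged under `κ → -κ` and under `h → -h`: if both `h u = h v` and `h f = h g`:
`exp x + exp (-x)`, even. If only `h u = h v = H`: `{h f, h g} = {H + 1, H - 1}`, so `Dl = 0`, `c_e = 1`; similarly if only
`h f = h g`. If none: `0` (does not occur). The corners `(u,f)` etc. are corners by `pr_en`.

`even_sum`: exchange the sums over `ω` and `h`; the sum over `h ∈ Hs r` of `F h C(h) (h x - h y)` is changed to its negative by the
bijection `h → -h` of `Hs r` (`neg_mem_Hs`), so it is `0`. `flip_sum`: `C(-κ, h) = C(κ, h)`.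
-/

set_option autoImplicit false

open Finset P0de

namespace P0q

variable {V M : Type} [Fintype V] [DecidableEq V] [Fintype M] [DecidableEq M] (Q : Quad V M)

namespace Quad

open Classical in
/-- the sum over the configurations compatible with `h` -/
noncomputable def CC (κ : ℝ) (h : V → ℤ) : ℝ :=
  ∑ ω : M → Bool, if Q.cmp ω h then Real.exp (κ * (Q.ph ω h : ℝ)) else 0

namespace H8EvenAux

/-- the local factor -/
noncomputable def cc (κ : ℝ) (h : V → ℤ) (e : M) : ℝ :=
  (if h (Q.en e true false) = h (Q.en e true true) then Real.exp (κ * (Q.Dl e h : ℝ)) else 0) +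
  (if h (Q.en e false false) = h (Q.en e false true) then Real.exp (-κ * (Q.Dl e h : ℝ)) else 0)

/-- the local factor for one state -/
noncomputable def gg (κ : ℝ) (h : V → ℤ) (e : M) (b : Bool) : ℝ :=
  if h (Q.en e b false) = h (Q.en e b true) then
    Real.exp (κ * ((if b then Q.Dl e h else - Q.Dl e h : ℤ) : ℝ)) else 0

theorem term_eq (κ : ℝ) (h : V → ℤ) (ω : M → Bool) [Decidable (Q.cmp ω h)] :
    (if Q.cmp ω h then Real.exp (κ * (Q.ph ω h : ℝ)) else 0) = ∏ e, gg Q κ h e (ω e) := by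
  by_cases hc : Q.cmp ω h
  · rw [if_pos hc]
    have h1 : ∀ e, gg Q κ h e (ω e) =
        Real.exp (κ * ((if ω e then Q.Dl e h else - Q.Dl e h : ℤ) : ℝ)) := by
      intro e
      rw [gg, if_pos (hc e)]
    rw [Finset.prod_congr rfl fun e _ => h1 e, ← Real.exp_sum, ← Finset.mul_sum]
    congr 2
    unfold ph
    push_cast
    rfl
  · rw [if_neg hc]
    unfold cmp at hc
    push Not at hc
    obtain ⟨e, he⟩ := hc
    symm
    apply Finset.prod_eq_zero (Finset.mem_univ e)
    rw [gg, if_neg he]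

open Classical in
theorem CC_eq (κ : ℝ) (h : V → ℤ) : Q.CC κ h = ∏ e, cc Q κ h e := by
  have h1 : ∀ e, cc Q κ h e = ∑ b : Bool, gg Q κ h e b := by
    intro e
    rw [Fintype.sum_bool, gg, gg, cc]
    simp
  rw [Finset.prod_congr rfl fun e _ => h1 e, Finset.prod_univ_sum, Fintype.piFinset_univ]
  unfold CC
  exact Finset.sum_congr rfl fun ω _ => term_eq Q κ h ω

theorem cor_en (hQ : Q.IsDisc) (e : M) (i j : Bool) : Q.cor (Q.en e true i) (Q.en e false j) := by
  refine ⟨?_, e, ?_⟩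
  · rw [hQ.pr_en, hQ.pr_en]; decide
  · simp only [sq, mem_filter, mem_univ, true_and]
    exact ⟨⟨true, i, rfl⟩, ⟨false, j, rfl⟩⟩

theorem cc_flip (hQ : Q.IsDisc) (κ : ℝ) {h : V → ℤ} (ha : Q.adm h) (e : M) :
    cc Q (-κ) h e = cc Q κ h e := by
  have c1 := ha _ _ (cor_en Q hQ e false false)
  have c2 := ha _ _ (cor_en Q hQ e false true)
  have c3 := ha _ _ (cor_en Q hQ e true false)
  have c4 := ha _ _ (cor_en Q hQ e true true)
  unfold cc
  by_cases h1 : h (Q.en e true false) = h (Q.en e true true)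
  · by_cases h2 : h (Q.en e false false) = h (Q.en e false true)
    · rw [if_pos h1, if_pos h2, if_pos h1, if_pos h2, neg_neg, add_comm]
    · have hD : Q.Dl e h = 0 := by unfold Dl; omega
      rw [if_pos h1, if_neg h2, if_pos h1, if_neg h2, hD]
      simp
  · by_cases h2 : h (Q.en e false false) = h (Q.en e false true)
    · have hD : Q.Dl e h = 0 := by unfold Dl; omega
      rw [if_neg h1, if_pos h2, if_neg h1, if_pos h2, hD]
      simp
    · rw [if_neg h1, if_neg h2, if_neg h1, if_neg h2]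

theorem Dl_neg (h : V → ℤ) (e : M) : Q.Dl e (fun z => - h z) = - Q.Dl e h := by
  unfold Dl; ring

theorem cc_neg (κ : ℝ) (h : V → ℤ) (e : M) :
    cc Q κ (fun z => - h z) e = cc Q (-κ) h e := by
  unfold cc
  rw [Dl_neg]
  simp only [neg_inj, Int.cast_neg, neg_neg, mul_neg, neg_mul]

end H8EvenAux

theorem CC_flip (hQ : Q.IsDisc) (κ : ℝ) {h : V → ℤ} (ha : Q.adm h) : Q.CC (-κ) h = Q.CC κ h := by
  rw [H8EvenAux.CC_eq, H8EvenAux.CC_eq]
  exact Finset.prod_congr rfl fun e _ => H8EvenAux.cc_flip Q hQ κ ha e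

theorem CC_neg (hQ : Q.IsDisc) (κ : ℝ) {h : V → ℤ} (ha : Q.adm h) :
    Q.CC κ (fun z => - h z) = Q.CC κ h := by
  rw [← CC_flip Q hQ κ ha, H8EvenAux.CC_eq, H8EvenAux.CC_eq]
  exact Finset.prod_congr rfl fun e _ => H8EvenAux.cc_neg Q κ h e

open Classical in
theorem even_sum (hQ : Q.IsDisc) (r : V) (κ : ℝ) (F : (V → ℤ) → ℝ)
    (hF : ∀ h, F (fun z => - h z) = F h) (x y : V) :
    ∑ ω : M → Bool, (∑ h ∈ Q.Hs r, if Q.cmp ω h then
      F h * Real.exp (κ * (Q.ph ω h : ℝ)) * ((h x - h y : ℤ) : ℝ) else 0) = 0 := by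
  rw [Finset.sum_comm]
  have h1 : ∀ h : V → ℤ, (∑ ω : M → Bool, if Q.cmp ω h then
      F h * Real.exp (κ * (Q.ph ω h : ℝ)) * ((h x - h y : ℤ) : ℝ) else 0) =
      F h * ((h x - h y : ℤ) : ℝ) * Q.CC κ h := by
    intro h
    unfold CC
    rw [Finset.mul_sum]
    refine Finset.sum_congr rfl fun ω _ => ?_
    split_ifs
    · ring
    · ring
  rw [Finset.sum_congr rfl fun h _ => h1 h]
  refine Finset.sum_involution (fun h _ => fun z => - h z) ?_ ?_ ?_ ?_
  · intro h hh
    have ha : Q.adm h := ((mem_Hs Q hQ).mp hh).1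
    rw [hF, CC_neg Q hQ κ ha]
    push_cast
    ring
  · intro h hh hne heq
    apply hne
    have hx : - h x = h x := congrFun heq x
    have hy : - h y = h y := congrFun heq y
    have : h x - h y = 0 := by omega
    rw [this]
    simp
  · intro h hh
    exact neg_mem_Hs Q hQ hh
  · intro h hh
    funext z
    simp

open Classical in
theorem flip_sum (hQ : Q.IsDisc) (r : V) (κ : ℝ) (F G : (V → ℤ) → ℝ) :
    ∑ ω : M → Bool, (∑ h ∈ Q.Hs r, if Q.cmp ω h then
      F h * Real.exp (-κ * (Q.ph ω h : ℝ)) * G h else 0) =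
    ∑ ω : M → Bool, (∑ h ∈ Q.Hs r, if Q.cmp ω h then
      F h * Real.exp (κ * (Q.ph ω h : ℝ)) * G h else 0) := by
  rw [Finset.sum_comm]
  conv_rhs => rw [Finset.sum_comm]
  have h1 : ∀ (κ : ℝ) (h : V → ℤ), (∑ ω : M → Bool, if Q.cmp ω h then
      F h * Real.exp (κ * (Q.ph ω h : ℝ)) * G h else 0) = F h * G h * Q.CC κ h := by
    intro κ h
    unfold CC
    rw [Finset.mul_sum]
    refine Finset.sum_congr rfl fun ω _ => ?_
    split_ifs
    · ring
    · ring
  refine Finset.sum_congr rfl fun h hh => ?_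
  rw [h1, h1, CC_flip Q hQ κ ((mem_Hs Q hQ).mp hh).1]

end Quad

end P0q
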