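import Pool.Agent.Lib.P0q.H2Shift
import Pool.Agent.Lib.P0q.H8Even

/-!
# H10Nu: evenness of the free heights ((3.1) of Q4_proof.md)

`ν ω = Zf r κ (Fch θ c₁ c₃) ω`, `κ > 0`, `r, c₁, c₃ ∈ bd`. `Fch` is even and depends only on boundary heights. For the corner
`{x, y}`, `x` active, let `D ω = ∑_{h ∈ Hs r, cmp ω h} F e^{κ ph} (h x - h y)`. `even_sum`: `∑_ω D ω = 0`. Let
`P⁻ = ∑_ω ν ω 1[side ω y x misses bd]`, `P⁺` the same for `side ω x y`, `P⁰` the sum over `ω` such that both sides meet `bd`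
(the three cases are disjoint and exhaust everything by `side_or`). `tanh_side`: `D ω = tanh (4κ) ν ω` if `side ω x y` misses `bd`,
`D ω = - tanh (4κ) ν ω` if `side ω y x` misses `bd`; in the third case `|D ω| ≤ ν ω` (`|h x - h y| = 1`, nonnegative terms) and
`Con ω x z` for some `z ∈ bd` (`side_arc`). So `P⁰ ≤ P^b := ∑_ω ν ω 1[∃ z ∈ bd, Con ω x z]` and
`0 = T (P⁺ - P⁻) + (≤ P⁰ in absolute value)`, `T = tanh (4κ) > 0`, so `P⁻ ≥ P⁺ - P⁰/T`; with `P⁺ = Σν - P⁻ - P⁰`: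
`2P⁻ ≥ Σν - (1 + 1/T) P⁰`.
-/

set_option autoImplicit false

open Finset P0de

namespace P0q

variable {V M : Type} [Fintype V] [DecidableEq V] [Fintype M] [DecidableEq M] (Q : Quad V M)

namespace Quad

theorem BdF_Fch {θ : ℝ} {c₁ c₃ : V} (h1 : c₁ ∈ Q.bd) (h3 : c₃ ∈ Q.bd) : Q.BdF (Fch θ c₁ c₃) := by
  intro h h' hh
  unfold Fch
  rw [hh _ h1, hh _ h3]

namespace H10NuAux

theorem Fch_neg (θ : ℝ) (c₁ c₃ : V) (h : V → ℤ) :
    Fch θ c₁ c₃ (fun z => - h z) = Fch θ c₁ c₃ h := by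
  unfold Fch
  rw [← Real.cosh_neg]
  congr 1
  push_cast
  ring

theorem Fch_nonneg (θ : ℝ) (c₁ c₃ : V) (h : V → ℤ) : 0 ≤ Fch θ c₁ c₃ h :=
  (Real.cosh_pos _).le

open Classical in
/-- the sum of the height differences -/
noncomputable def DD (r : V) (κ : ℝ) (F : (V → ℤ) → ℝ) (x y : V) (ω : M → Bool) : ℝ :=
  ∑ h ∈ Q.Hs r, if Q.cmp ω h then
      F h * Real.exp (κ * (Q.ph ω h : ℝ)) * ((h x - h y : ℤ) : ℝ) else 0

open Classical in
theorem DD_symm (r : V) (κ : ℝ) (F : (V → ℤ) → ℝ) (x y : V) (ω : M → Bool) :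
    DD Q r κ F x y ω = - DD Q r κ F y x ω := by
  unfold DD
  rw [← Finset.sum_neg_distrib]
  refine Finset.sum_congr rfl fun h _ => ?_
  split_ifs
  · push_cast; ring
  · simp

open Classical in
theorem neg_le_DD (hQ : Q.IsDisc) (r : V) (κ : ℝ) (F : (V → ℤ) → ℝ) (hF : ∀ h, 0 ≤ F h)
    {x y : V} (hxy : Q.cor x y) (ω : M → Bool) : - Q.Zf r κ F ω ≤ DD Q r κ F x y ω := by
  unfold DD Zf
  rw [← Finset.sum_neg_distrib]
  refine Finset.sum_le_sum fun h hh => ?_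
  split_ifs
  · have ha := ((mem_Hs Q hQ).mp hh).1 x y hxy
    have h1 : (-1 : ℝ) ≤ ((h x - h y : ℤ) : ℝ) := by
      have : (-1 : ℤ) ≤ h x - h y := by omega
      exact_mod_cast this
    have h2 : 0 ≤ F h * Real.exp (κ * (Q.ph ω h : ℝ)) := mul_nonneg (hF h) (Real.exp_pos _).le
    nlinarith [mul_le_mul_of_nonneg_left h1 h2]
  · simp

end H10NuAux

open Classical in
theorem nu_ineq (hQ : Q.IsDisc) {r c₁ c₃ : V} (hr : r ∈ Q.bd) (h1 : c₁ ∈ Q.bd) (h3 : c₃ ∈ Q.bd)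
    (κ θ : ℝ) (hκ : 0 < κ) {x y : V} (hxy : Q.cor x y) (hx : Q.pr x = true) :
    1 / 2 * ∑ ω : M → Bool, Q.Zf r κ (Fch θ c₁ c₃) ω ≤
    (∑ ω : M → Bool, if ¬ Q.Tb (Q.side ω y x) then Q.Zf r κ (Fch θ c₁ c₃) ω else 0) +
    (1 / 2 + 1 / (2 * Real.tanh (4 * κ))) *
      ∑ ω : M → Bool, if (∃ z ∈ Q.bd, Q.Con ω x z) then Q.Zf r κ (Fch θ c₁ c₃) ω else 0 := by
  set F : (V → ℤ) → ℝ := Fch θ c₁ c₃ with hF
  have hBd : Q.BdF F := BdF_Fch Q h1 h3
  have hnn : ∀ ω, 0 ≤ Q.Zf r κ F ω := fun ω =>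
    Q.Zf_nonneg r κ F (fun h => H10NuAux.Fch_nonneg θ c₁ c₃ h) ω
  have hyx : Q.cor y x := Q.cor_symm hxy
  have hT : 0 < Real.tanh (4 * κ) := by
    rw [Real.tanh_eq_sinh_div_cosh]
    exact div_pos (Real.sinh_pos_iff.mpr (by linarith)) (Real.cosh_pos _)
  set T := Real.tanh (4 * κ) with hTdef
  have hsum : ∑ ω : M → Bool, H10NuAux.DD Q r κ F x y ω = 0 :=
    even_sum Q hQ r κ F (fun h => H10NuAux.Fch_neg θ c₁ c₃ h) x y
  have hpt : ∀ ω : M → Bool, 1 / 2 * Q.Zf r κ F ω ≤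
      (if ¬ Q.Tb (Q.side ω y x) then Q.Zf r κ F ω else 0) +
      (1 / 2 + 1 / (2 * T)) * (if (∃ z ∈ Q.bd, Q.Con ω x z) then Q.Zf r κ F ω else 0) +
      1 / (2 * T) * H10NuAux.DD Q r κ F x y ω := by
    intro ω
    have hc : 0 < 1 / 2 + 1 / (2 * T) := by positivity
    have hb : 0 ≤ (1 / 2 + 1 / (2 * T)) *
        (if (∃ z ∈ Q.bd, Q.Con ω x z) then Q.Zf r κ F ω else 0) := by
      apply mul_nonneg hc.le
      split_ifs
      · exact hnn ω
      · exact le_refl _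
    by_cases hA : Q.Tb (Q.side ω x y)
    · by_cases hB : Q.Tb (Q.side ω y x)
      · have hz := (Q.side_arc hQ ω hxy hA hB).2.1
        rw [if_neg (not_not.mpr hB), if_pos hz]
        have h4 := H10NuAux.neg_le_DD Q hQ r κ F (fun h => H10NuAux.Fch_nonneg θ c₁ c₃ h) hxy ω
        have h5 := mul_le_mul_of_nonneg_left h4 (show (0 : ℝ) ≤ 1 / (2 * T) by positivity)
        linarith
      · have h4 := Q.tanh_side hQ ω hyx hr κ F hBd hB
        have h5 : H10NuAux.DD Q r κ F x y ω = - (T * Q.Zf r κ F ω) := by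
          rw [H10NuAux.DD_symm]
          unfold H10NuAux.DD
          rw [h4]
        rw [if_pos hB, h5]
        have h6 : 1 / (2 * T) * -(T * Q.Zf r κ F ω) = - (1 / 2 * Q.Zf r κ F ω) := by
          field_simp
        rw [h6]
        linarith
    · have h4 := Q.tanh_side hQ ω hxy hr κ F hBd hA
      have h5 : H10NuAux.DD Q r κ F x y ω = T * Q.Zf r κ F ω := by
        unfold H10NuAux.DD
        rw [h4]
      have h6 : 1 / (2 * T) * (T * Q.Zf r κ F ω) = 1 / 2 * Q.Zf r κ F ω := by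
        field_simp
      rw [h5, h6]
      have h7 : 0 ≤ (if ¬ Q.Tb (Q.side ω y x) then Q.Zf r κ F ω else 0) := by
        split_ifs
        · exact le_refl _
        · exact hnn ω
      linarith
  have := Finset.sum_le_sum fun ω (_ : ω ∈ (Finset.univ : Finset (M → Bool))) => hpt ω
  rw [Finset.sum_add_distrib, Finset.sum_add_distrib, ← Finset.mul_sum, ← Finset.mul_sum,
    ← Finset.mul_sum, hsum, mul_zero, add_zero] at this
  exact this

end Quad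

end P0q
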