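import Pool.Agent.Lib.P0q.H7C01
import Pool.Agent.Lib.P0q.H8Even

/-!
# H11Near: nesting for the boundary condition (0; 1) ((4.1), (4.2) of Q4_proof.md)

`r ∈ bd`, `E κ ω z := ∑_{h ∈ Hs r, cmp ω h} F01 h e^{κ ph} h z`, `Z = Zf r κ F01 ω`.

`near_exact`: for every `z` there are `m` and `t ∈ [0, 1]` with `Near ω m z`, `m = 0` or `¬ Near ω (m-1) z`, and
`E κ ω z = (t + m tanh (4κ)) Z`. Every `z` is `Near ω m` for some `m` (let `T` be the finite set of `z` such that `∃ m, Near ω m z`;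
it contains `bd` and is closed under corners: `IsDisc.conn`). Let `m` be minimal, induction on `m`.
`m = 0`: `Con ω z y`, `y ∈ bd`; for `F01 h ≠ 0` and `h` compatible, `h z = h y ∈ {0, 1}` (fixed by `pr y`): `t = 0` or `1`.
`m + 1`: (minimal) there are `z'`, `y` with `Con ω z z'`, `cor z' y`, `Near ω m y`. `h z = h z'`. `m` is minimal for `y` (otherwise
`Near ω (m-1) y`, so `Near ω m z`). Claim: `side ω z' y` misses `bd`. Otherwise: if `side ω y z'` also meets `bd`, then by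
`side_arc` `cl z'` meets `bd`: `Near ω 0 z`, contradiction (`Near` is monotone in `m`). If `side ω y z'` misses `bd`:
auxiliary fact (*): if `w ∈ side ω y z'`, `side ω y z'` misses `bd` and `Near ω k w`, then `1 ≤ k` and
`Near ω (k-1) z'`. [Induction on `k`: `k = 0` is impossible (`UC`: the cluster of `w` is inside). `k+1`: if not `Near ω k w`
(else induction and monotonicity): `Con ω w w'`, `cor w' w''`, `Near ω k w''`. `w'` is in the side; if `w''` is in the side: by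
induction `Near ω (k-1) z'`. If `w''` is not in the side: by `side_cross` `Con ω z' w''`, so `Near ω k z'` (`Near` only depends on
the cluster).] (*) for `w = y`, `k = m` gives `Near ω (m-1) z'`, so `Near ω (m-1) z`, contradiction with minimality of
`m+1`. So `tanh_side` for the corner `{z', y}` gives `E(z') - E(y) = tanh (4κ) Z`, and the induction
hypothesis for `y` gives the claim.

`rho_bound`: for `κ > 0`: by `near_exact` `E κ ω z ≥ 0` always and `E κ ω z ≥ (m+1) tanh (4κ) Z` if `¬ Near ω m z` (the minimal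
index is then `≥ m+1`). And `E (-κ) ω z ≤ Z(-κ)` (`t ≤ 1`, `tanh ≤ 0`). By `flip_sum`
`∑_ω E κ = ∑_ω E (-κ)` and `∑_ω Z(κ) = ∑_ω Z(-κ)`. So
`(m+1) tanh (4κ) ∑_{ω : ¬ Near} Z ≤ ∑_ω E κ = ∑_ω E(-κ) ≤ ∑_ω Z(-κ) = ∑_ω Z(κ)`.
(`Zf ≥ 0`: `Zf_nonneg`.)
-/

set_option autoImplicit false

open Finset P0de

namespace P0q

variable {V M : Type} [Fintype V] [DecidableEq V] [Fintype M] [DecidableEq M] (Q : Quad V M)

namespace Quad

theorem Near_mono {ω : M → Bool} {m n : ℕ} (hmn : m ≤ n) {z : V} (h : Q.Near ω m z) :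
    Q.Near ω n z := by
  induction n, hmn using Nat.le_induction with
  | base => exact h
  | succ n _ ih => exact Or.inl ih

theorem Near_Con {ω : M → Bool} {m : ℕ} {z z' : V} (hz : Q.Con ω z z') (h : Q.Near ω m z') :
    Q.Near ω m z := by
  induction m with
  | zero =>
    obtain ⟨y, hy, hc⟩ := h
    exact ⟨y, hy, Relation.ReflTransGen.trans hz hc⟩
  | succ m ih =>
    rcases h with h | ⟨z'', y, hc, hcor, hn⟩
    · exact Or.inl (ih h)
    · exact Or.inr ⟨z'', y, Relation.ReflTransGen.trans hz hc, hcor, hn⟩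

namespace H11NearAux

/-- the corners of a square -/
theorem cor_en (hQ : Q.IsDisc) (e : M) (i j : Bool) : Q.cor (Q.en e true i) (Q.en e false j) :=
  (Q.cor_iff hQ).2 ⟨e, true, i, j, rfl, rfl⟩

/-- every vertex is near the boundary -/
theorem exists_near (hQ : Q.IsDisc) (ω : M → Bool) (z : V) : ∃ m, Q.Near ω m z := by
  classical
  have key : ∀ a b : V, Q.cor b a → (∃ m, Q.Near ω m a) → ∃ m, Q.Near ω m b := by
    rintro a b hab ⟨m, hm⟩
    exact ⟨m + 1, Or.inr ⟨b, a, Relation.ReflTransGen.refl, hab, hm⟩⟩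
  have h := hQ.conn (univ.filter fun z => ∃ m, Q.Near ω m z) (by
    obtain ⟨y, hy⟩ := hQ.bd_ne
    exact ⟨y, mem_filter.2 ⟨mem_univ _, 0, y, hy, Relation.ReflTransGen.refl⟩⟩) (by
    intro e i j
    have hc := cor_en Q hQ e i j
    simp only [mem_filter, mem_univ, true_and]
    exact ⟨key _ _ (Q.cor_symm hc), key _ _ hc⟩) z
  exact (mem_filter.1 h).2

/-- the auxiliary fact (*) -/
theorem aux_star (hQ : Q.IsDisc) (ω : M → Bool) {z' y : V} (hzy : Q.cor z' y)
    (hb : ¬ Q.Tb (Q.side ω y z')) (k : ℕ) : ∀ w : V, w ∈ Q.side ω y z' → Q.Near ω k w →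
      1 ≤ k ∧ Q.Near ω (k - 1) z' := by
  have hyz : Q.cor y z' := Q.cor_symm hzy
  have hU := Q.side_UC hQ ω hyz
  induction k with
  | zero =>
    rintro w hw ⟨b, hb', hc⟩
    exact absurd ⟨b, (Q.UC_Con ω hU hc).1 hw, hb'⟩ hb
  | succ k ih =>
    intro w hw hn
    rw [Nat.add_sub_cancel]
    refine ⟨Nat.le_add_left 1 k, ?_⟩
    rcases hn with hn | ⟨w', w'', hc, hcor, hn⟩
    · exact Q.Near_mono (Nat.sub_le k 1) (ih w hw hn).2
    · have hw' : w' ∈ Q.side ω y z' := (Q.UC_Con ω hU hc).1 hw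
      by_cases hw'' : w'' ∈ Q.side ω y z'
      · exact Q.Near_mono (Nat.sub_le k 1) (ih w'' hw'' hn).2
      · exact Q.Near_Con (Q.side_cross hQ ω hyz hcor hw' hw'').2 hn

theorem F01_nonneg (h : V → ℤ) : 0 ≤ Q.F01 h := by
  classical
  unfold F01
  split_ifs <;> norm_num

theorem F01_bd {h : V → ℤ} (hF : Q.F01 h ≠ 0) {y : V} (hy : y ∈ Q.bd) :
    h y = if Q.pr y then 0 else 1 := by
  classical
  by_contra hc
  apply hF
  unfold F01
  rw [if_neg]
  intro hh
  exact hc (hh y hy)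

open Classical in
/-- the induction -/
theorem exact_step (hQ : Q.IsDisc) {r : V} (hr : r ∈ Q.bd) (κ : ℝ) (ω : M → Bool) (m : ℕ) :
    ∀ z : V, Q.Near ω m z → (m = 0 ∨ ¬ Q.Near ω (m - 1) z) → ∃ t : ℝ, 0 ≤ t ∧ t ≤ 1 ∧
      (∑ h ∈ Q.Hs r, if Q.cmp ω h then
        Q.F01 h * Real.exp (κ * (Q.ph ω h : ℝ)) * (h z : ℝ) else 0) =
      (t + m * Real.tanh (4 * κ)) * Q.Zf r κ Q.F01 ω := by
  induction m with
  | zero =>
    rintro z ⟨y, hy, hc⟩ _
    refine ⟨if Q.pr y then 0 else 1, by split_ifs <;> norm_num, by split_ifs <;> norm_num, ?_⟩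
    rw [Nat.cast_zero, zero_mul, add_zero, Zf, mul_sum]
    refine sum_congr rfl fun h _ => ?_
    by_cases hcmp : Q.cmp ω h
    · rw [if_pos hcmp, if_pos hcmp]
      by_cases hF : Q.F01 h = 0
      · rw [hF]; ring
      · have h1 : h z = if Q.pr y then 0 else 1 := by
          rw [Q.cmp_Con hcmp hc]
          exact F01_bd Q hF hy
        rw [h1]
        push_cast
        ring
    · rw [if_neg hcmp, if_neg hcmp, mul_zero]
  | succ m ih =>
    intro z hn hmin
    rw [Nat.add_sub_cancel] at hmin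
    have hnm : ¬ Q.Near ω m z := by
      rcases hmin with h | h
      · exact absurd h (Nat.succ_ne_zero m)
      · exact h
    rcases hn with hn | ⟨z', y, hc, hcor, hn⟩
    · exact absurd hn hnm
    have hmy : m = 0 ∨ ¬ Q.Near ω (m - 1) y := by
      rcases Nat.eq_zero_or_pos m with h0 | h0
      · exact Or.inl h0
      · right
        intro hy
        apply hnm
        obtain ⟨k, rfl⟩ : ∃ k, m = k + 1 := ⟨m - 1, by omega⟩
        rw [Nat.add_sub_cancel] at hy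
        exact Or.inr ⟨z', y, hc, hcor, hy⟩
    have hside : ¬ Q.Tb (Q.side ω z' y) := by
      intro h1
      by_cases h2 : Q.Tb (Q.side ω y z')
      · obtain ⟨_, ⟨b, hb, hcb⟩, _⟩ := Q.side_arc hQ ω hcor h1 h2
        apply hnm
        refine Q.Near_mono (Nat.zero_le m) ?_
        exact ⟨b, hb, Relation.ReflTransGen.trans hc hcb⟩
      · obtain ⟨_, h3⟩ := aux_star Q hQ ω hcor h2 m y (Q.mem_side_self ω y z') hn
        exact hnm (Q.Near_mono (Nat.sub_le m 1) (Q.Near_Con hc h3))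
    obtain ⟨t, ht0, ht1, ht⟩ := ih y hn hmy
    refine ⟨t, ht0, ht1, ?_⟩
    have htanh := Q.tanh_side hQ ω hcor hr κ Q.F01 Q.BdF_F01 hside
    have hsplit : (∑ h ∈ Q.Hs r, if Q.cmp ω h then
        Q.F01 h * Real.exp (κ * (Q.ph ω h : ℝ)) * (h z : ℝ) else 0) =
        (∑ h ∈ Q.Hs r, if Q.cmp ω h then
          Q.F01 h * Real.exp (κ * (Q.ph ω h : ℝ)) * ((h z' - h y : ℤ) : ℝ) else 0) +
        ∑ h ∈ Q.Hs r, if Q.cmp ω h then
          Q.F01 h * Real.exp (κ * (Q.ph ω h : ℝ)) * (h y : ℝ) else 0 := by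
      rw [← sum_add_distrib]
      refine sum_congr rfl fun h _ => ?_
      by_cases hcmp : Q.cmp ω h
      · rw [if_pos hcmp, if_pos hcmp, if_pos hcmp, Q.cmp_Con hcmp hc]
        push_cast
        ring
      · rw [if_neg hcmp, if_neg hcmp, if_neg hcmp, add_zero]
    rw [hsplit, htanh, ht]
    push_cast
    ring

end H11NearAux

open Classical in
theorem near_exact (hQ : Q.IsDisc) {r : V} (hr : r ∈ Q.bd) (κ : ℝ) (ω : M → Bool) (z : V) :
    ∃ (m : ℕ) (t : ℝ), 0 ≤ t ∧ t ≤ 1 ∧ Q.Near ω m z ∧ (m = 0 ∨ ¬ Q.Near ω (m - 1) z) ∧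
      (∑ h ∈ Q.Hs r, if Q.cmp ω h then
        Q.F01 h * Real.exp (κ * (Q.ph ω h : ℝ)) * (h z : ℝ) else 0) =
      (t + m * Real.tanh (4 * κ)) * Q.Zf r κ Q.F01 ω := by
  have hex := H11NearAux.exists_near Q hQ ω z
  have h1 := Nat.find_spec hex
  have h2 : Nat.find hex = 0 ∨ ¬ Q.Near ω (Nat.find hex - 1) z := by
    rcases Nat.eq_zero_or_pos (Nat.find hex) with h0 | h0
    · exact Or.inl h0
    · exact Or.inr (Nat.find_min hex (Nat.sub_lt h0 Nat.one_pos))
  obtain ⟨t, ht0, ht1, ht⟩ := H11NearAux.exact_step Q hQ hr κ ω (Nat.find hex) z h1 h2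
  exact ⟨Nat.find hex, t, ht0, ht1, h1, h2, ht⟩

open Classical in
theorem rho_bound (hQ : Q.IsDisc) {r : V} (hr : r ∈ Q.bd) (κ : ℝ) (hκ : 0 < κ) (z : V) (m : ℕ) :
    ((m : ℝ) + 1) * Real.tanh (4 * κ) *
      (∑ ω : M → Bool, if ¬ Q.Near ω m z then Q.Zf r κ Q.F01 ω else 0) ≤
    ∑ ω : M → Bool, Q.Zf r κ Q.F01 ω := by
  have hT : 0 < Real.tanh (4 * κ) := by
    rw [Real.tanh_eq_sinh_div_cosh]
    exact div_pos (Real.sinh_pos_iff.2 (by linarith)) (Real.cosh_pos _)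
  have hZ : ∀ (κ : ℝ) (ω : M → Bool), 0 ≤ Q.Zf r κ Q.F01 ω := fun κ ω =>
    Q.Zf_nonneg r κ Q.F01 (H11NearAux.F01_nonneg Q) ω
  -- the lower bound for `κ`
  have hlow : ((m : ℝ) + 1) * Real.tanh (4 * κ) *
      (∑ ω : M → Bool, if ¬ Q.Near ω m z then Q.Zf r κ Q.F01 ω else 0) ≤
      ∑ ω : M → Bool, ∑ h ∈ Q.Hs r, if Q.cmp ω h then
        Q.F01 h * Real.exp (κ * (Q.ph ω h : ℝ)) * (h z : ℝ) else 0 := by
    rw [mul_sum]
    refine sum_le_sum fun ω _ => ?_
    obtain ⟨k, t, ht0, _, hk, _, he⟩ := Q.near_exact hQ hr κ ω z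
    rw [he]
    by_cases hn : Q.Near ω m z
    · rw [if_neg (not_not.2 hn), mul_zero]
      exact mul_nonneg (add_nonneg ht0 (mul_nonneg (Nat.cast_nonneg k) hT.le)) (hZ κ ω)
    · rw [if_pos hn]
      refine mul_le_mul_of_nonneg_right ?_ (hZ κ ω)
      have hmk : m + 1 ≤ k := by
        by_contra hlt
        exact hn (Q.Near_mono (by omega) hk)
      have hmk' : (m : ℝ) + 1 ≤ k := by exact_mod_cast hmk
      have := mul_le_mul_of_nonneg_right hmk' hT.le
      linarith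
  -- the upper bound for `-κ`
  have hup : (∑ ω : M → Bool, ∑ h ∈ Q.Hs r, if Q.cmp ω h then
        Q.F01 h * Real.exp (-κ * (Q.ph ω h : ℝ)) * (h z : ℝ) else 0) ≤
      ∑ ω : M → Bool, Q.Zf r (-κ) Q.F01 ω := by
    refine sum_le_sum fun ω _ => ?_
    obtain ⟨k, t, _, ht1, _, _, he⟩ := Q.near_exact hQ hr (-κ) ω z
    rw [he]
    have hneg : Real.tanh (4 * -κ) = - Real.tanh (4 * κ) := by
      rw [mul_neg, Real.tanh_neg]
    rw [hneg]
    have h1 : t + (k : ℝ) * -Real.tanh (4 * κ) ≤ 1 := by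
      have := mul_nonneg (Nat.cast_nonneg (α := ℝ) k) hT.le
      linarith
    calc (t + (k : ℝ) * -Real.tanh (4 * κ)) * Q.Zf r (-κ) Q.F01 ω
        ≤ 1 * Q.Zf r (-κ) Q.F01 ω := mul_le_mul_of_nonneg_right h1 (hZ (-κ) ω)
      _ = Q.Zf r (-κ) Q.F01 ω := one_mul _
  -- the flips
  have hflipE := Q.flip_sum hQ r κ Q.F01 (fun h => (h z : ℝ))
  have hflipZ : ∑ ω : M → Bool, Q.Zf r (-κ) Q.F01 ω = ∑ ω : M → Bool, Q.Zf r κ Q.F01 ω := by
    have h := Q.flip_sum hQ r κ Q.F01 (fun _ => (1 : ℝ))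
    simp only [mul_one] at h
    exact h
  calc _ ≤ _ := hlow
    _ = _ := hflipE.symm
    _ ≤ _ := hup
    _ = _ := hflipZ

end Quad

end P0q
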