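import Pool.Agent.Lib.P0q.K7CaseC
import Pool.Agent.Lib.P0q.H2Shift

/-!
# H6CaseCZ: the ratio in case C with the tilt ((2.6) of Q4_proof.md)

`u, v` active, `f, g` passive ends of `e₀`; `ω₁ = update ω e₀ true`, `ω₀ = update ω e₀ false`, `¬ Cono u v`, `¬ Cono f g`.
`F = Fth θ c₁ c₃`, `F h = exp (θ (h c₁ - h c₃))`; `F (shf S r h) = exp (2 θ K(S)) F h`, `K(S) = 1[c₁ ∈ S] - 1[c₃ ∈ S]` (`Kc`).
`α_f = κ NS ω₁ S_f + θ K(S_f)` with `S_f = side ω₁ f u`, `α_g` with `S_g = side ω₁ g u`, `β_u = κ NS ω₀ R_u + θ K(R_u)` with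
`R_u = side ω₀ u f`, `β_v` with `R_v = side ω₀ v f`.
Claim: `Zf ω₁ cosh β_u cosh β_v = Zf ω₀ cosh α_f cosh α_g`.

Let `Z₁[s,t]` = sum of `F e^{κ ph ω₁}` over `h ∈ Hs r` compatible with `ω₁` with `h f = h u + s`, `h g = h u + t`
(`s, t = ±1`). `g, u ∉ S_f`; `f, u ∉ S_g` (`caseC_disj_S`, `mem_side_self`; `u ∉ side ω₁ f u` by `side_compl`), so
`shift_sum` (for `F h · 1[h g = h u + t]`, resp. `F h · 1[h f = h u + s]`) gives
`Z₁[+,t] = e^{2α_f} Z₁[-,t]`, `Z₁[s,+] = e^{2α_g} Z₁[s,-]`. Put `P = Z₁[+,+]`, `N = Z₁[-,-]`: `N = e^{-2α_f - 2α_g} P`,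
`Zf ω₁ = P (1 + e^{-2α_f})(1 + e^{-2α_g})`.
In `ω₀`: `Z₀[s',t']` over `h` compatible with `ω₀`, `h u = h f + s'`, `h v = h f + t'`:
`Z₀[+,t'] = e^{2β_u} Z₀[-,t']`, `Z₀[s',+] = e^{2β_v} Z₀[s',-]` (`caseC_disj_R`; here `h v = h f + t'` is invariant under the shift of `R_u`),
`Zf ω₀ = Z₀[-,-](1 + e^{2β_u})(1 + e^{2β_v})`, `Z₀[+,+] = e^{2β_u + 2β_v} Z₀[-,-]`.
The heights of `Z₁[+,+]` (`h u = h v`, `h f = h g = h u + 1`, compatible off `e₀`) are those of `Z₀[-,-]`, there `Dl e₀ h = 2`,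
`ph ω₁ = ph ω₀ + 4`: `P = e^{4κ} Z₀[-,-]`. Similarly `N = e^{-4κ} Z₀[+,+]`.
So `e^{-2α_f-2α_g} P = N = e^{-4κ} e^{2β_u+2β_v} e^{-4κ} P`. If `P = 0` both sides of the claim vanish; otherwise
`α_f + α_g + β_u + β_v = 4κ` (injectivity of `exp`), and `Zf ω₁ / Zf ω₀ = e^{4κ} (1 + e^{-2α_f})(1 + e^{-2α_g}) / ((1 + e^{2β_u})(1 + e^{2β_v}))
= e^{4κ - α_f - α_g - β_u - β_v} cosh α_f cosh α_g / (cosh β_u cosh β_v)` (`1 + e^{2x} = 2 e^x cosh x`).
-/

set_option autoImplicit false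

open Finset P0de

namespace P0q

variable {V M : Type} [Fintype V] [DecidableEq V] [Fintype M] [DecidableEq M] (Q : Quad V M)

namespace Quad

/-- `1[c₁ ∈ S] - 1[c₃ ∈ S]` -/
def Kc (c₁ c₃ : V) (S : Finset V) : ℤ := (if c₁ ∈ S then 1 else 0) - (if c₃ ∈ S then 1 else 0)

namespace H6CaseCZAux

open Classical in
/-- the part of the partition function with prescribed differences at `z₀` -/
private noncomputable def Zs (r : V) (κ : ℝ) (F : (V → ℤ) → ℝ) (ω : M → Bool) (x z y : V)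
    (s t : ℤ) : ℝ :=
  ∑ h ∈ Q.Hs r, if Q.cmp ω h ∧ h x = h y + s ∧ h z = h y + t then
    F h * Real.exp (κ * (Q.ph ω h : ℝ)) else 0

private lemma Zs_swap (r : V) (κ : ℝ) (F : (V → ℤ) → ℝ) (ω : M → Bool) (x z y : V)
    (s t : ℤ) : Zs Q r κ F ω x z y s t = Zs Q r κ F ω z x y t s := by
  classical
  unfold Zs
  refine Finset.sum_congr rfl fun h _ => ?_
  refine if_congr ?_ rfl rfl
  constructor
  · rintro ⟨h1, h2, h3⟩
    exact ⟨h1, h3, h2⟩
  · rintro ⟨h1, h2, h3⟩
    exact ⟨h1, h3, h2⟩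

private lemma Fth_shf (θ : ℝ) (c₁ c₃ : V) (S : Finset V) (r : V) (h : V → ℤ) :
    Fth θ c₁ c₃ (shf S r h) = Real.exp (2 * (θ * (Kc c₁ c₃ S : ℝ))) * Fth θ c₁ c₃ h := by
  unfold Fth
  rw [← Real.exp_add]
  congr 1
  have h1 : (shf S r h c₁ - shf S r h c₃ : ℤ) = (h c₁ - h c₃) + 2 * Kc c₁ c₃ S := by
    unfold shf Kc
    by_cases h1 : c₁ ∈ S <;> by_cases h3 : c₃ ∈ S <;> simp only [h1, h3, if_true, if_false] <;>
      ring
  rw [h1]
  push_cast
  ring

private lemma Zs_shift (hQ : Q.IsDisc) (ω : M → Bool) {x z y : V} (hxy : Q.cor x y)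
    (hz : z ∉ Q.side ω x y) (r : V) (κ θ : ℝ) (c₁ c₃ : V) (t : ℤ) :
    Zs Q r κ (Fth θ c₁ c₃) ω x z y 1 t =
      Real.exp (2 * (κ * (Q.NS ω (Q.side ω x y) : ℝ) + θ * (Kc c₁ c₃ (Q.side ω x y) : ℝ))) *
        Zs Q r κ (Fth θ c₁ c₃) ω x z y (-1) t := by
  classical
  have hy := Q.notMem_side hQ ω hxy
  set G : (V → ℤ) → ℝ := fun h => if h z = h y + t then Fth θ c₁ c₃ h else 0 with hG
  have hGs : ∀ h, G (shf (Q.side ω x y) r h) =
      Real.exp (2 * (θ * (Kc c₁ c₃ (Q.side ω x y) : ℝ))) * G h := by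
    intro h
    have e1 : (shf (Q.side ω x y) r h z = shf (Q.side ω x y) r h y + t) ↔ h z = h y + t := by
      unfold shf
      simp only [hz, hy, if_false]
      constructor <;> intro h' <;> omega
    simp only [hG]
    by_cases hc : h z = h y + t
    · rw [if_pos hc, if_pos (e1.2 hc), Fth_shf]
    · rw [if_neg hc, if_neg (fun h' => hc (e1.1 h')), mul_zero]
  have key := Q.shift_sum hQ ω hxy r κ (θ * (Kc c₁ c₃ (Q.side ω x y) : ℝ)) G hGs
  have conv : ∀ s : ℤ, Zs Q r κ (Fth θ c₁ c₃) ω x z y s t =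
      ∑ h ∈ Q.Hs r, if Q.cmp ω h ∧ h x = h y + s then G h * Real.exp (κ * (Q.ph ω h : ℝ))
        else 0 := by
    intro s
    unfold Zs
    refine Finset.sum_congr rfl fun h _ => ?_
    simp only [hG]
    by_cases h1 : Q.cmp ω h ∧ h x = h y + s
    · by_cases h2 : h z = h y + t
      · rw [if_pos ⟨h1.1, h1.2, h2⟩, if_pos h1, if_pos h2]
      · rw [if_neg (fun h' => h2 h'.2.2), if_pos h1, if_neg h2, zero_mul]
    · rw [if_neg (fun h' => h1 ⟨h'.1, h'.2.1⟩), if_neg h1]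
  rw [conv 1, conv (-1), key]
  rfl

private lemma Zf_split (ω : M → Bool) {x z y : V} (hxy : Q.cor x y) (hzy : Q.cor z y)
    (hQ : Q.IsDisc) (r : V) (κ : ℝ) (F : (V → ℤ) → ℝ) :
    Q.Zf r κ F ω = Zs Q r κ F ω x z y 1 1 + Zs Q r κ F ω x z y 1 (-1) +
      (Zs Q r κ F ω x z y (-1) 1 + Zs Q r κ F ω x z y (-1) (-1)) := by
  classical
  unfold Zf Zs
  rw [← Finset.sum_add_distrib, ← Finset.sum_add_distrib, ← Finset.sum_add_distrib]
  refine Finset.sum_congr rfl fun h hh => ?_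
  have ha := ((Q.mem_Hs hQ).1 hh).1
  by_cases hc : Q.cmp ω h
  · rcases ha x y hxy with h1 | h1 <;> rcases ha z y hzy with h2 | h2
    · rw [if_pos hc, if_pos ⟨hc, h1, h2⟩, if_neg, if_neg, if_neg]
      · ring
      all_goals (rintro ⟨-, h3, h4⟩; omega)
    · rw [if_pos hc, if_neg, if_pos (⟨hc, h1, h2⟩ : Q.cmp ω h ∧ h x = h y + 1 ∧
        h z = h y + -1), if_neg, if_neg]
      · ring
      all_goals (rintro ⟨-, h3, h4⟩; omega)
    · rw [if_pos hc, if_neg, if_neg, if_pos (⟨hc, h1, h2⟩ : Q.cmp ω h ∧ h x = h y + -1 ∧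
        h z = h y + 1), if_neg]
      · ring
      all_goals (rintro ⟨-, h3, h4⟩; omega)
    · rw [if_pos hc, if_neg, if_neg, if_neg, if_pos (⟨hc, h1, h2⟩ : Q.cmp ω h ∧
        h x = h y + -1 ∧ h z = h y + -1)]
      · ring
      all_goals (rintro ⟨-, h3, h4⟩; omega)
  · rw [if_neg hc, if_neg (fun h' => hc h'.1), if_neg (fun h' => hc h'.1),
      if_neg (fun h' => hc h'.1), if_neg (fun h' => hc h'.1)]
    ring

private lemma cmp_iff (ω : M → Bool) (e₀ : M) (b : Bool) (h : V → ℤ) :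
    Q.cmp (Function.update ω e₀ b) h ↔
      (∀ e, e ≠ e₀ → h (Q.en e (ω e) false) = h (Q.en e (ω e) true)) ∧
        h (Q.en e₀ b false) = h (Q.en e₀ b true) := by
  unfold cmp
  constructor
  · intro hc
    refine ⟨fun e he => ?_, ?_⟩
    · have := hc e
      rwa [Function.update_of_ne he] at this
    · have := hc e₀
      rwa [Function.update_self] at this
  · rintro ⟨h1, h2⟩ e
    by_cases he : e = e₀
    · subst he
      rw [Function.update_self]
      exact h2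
    · rw [Function.update_of_ne he]
      exact h1 e he

private lemma Zs_cross (ω : M → Bool) (e₀ : M) (r : V) (κ : ℝ) (F : (V → ℤ) → ℝ) (s : ℤ) :
    Zs Q r κ F (Function.update ω e₀ true) (Q.en e₀ false false) (Q.en e₀ false true)
      (Q.en e₀ true false) s s = Real.exp (4 * s * κ) *
    Zs Q r κ F (Function.update ω e₀ false) (Q.en e₀ true false) (Q.en e₀ true true)
      (Q.en e₀ false false) (-s) (-s) := by
  classical
  unfold Zs
  rw [Finset.mul_sum]
  refine Finset.sum_congr rfl fun h _ => ?_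
  have hiff : (Q.cmp (Function.update ω e₀ true) h ∧
      h (Q.en e₀ false false) = h (Q.en e₀ true false) + s ∧
      h (Q.en e₀ false true) = h (Q.en e₀ true false) + s) ↔
      (Q.cmp (Function.update ω e₀ false) h ∧
      h (Q.en e₀ true false) = h (Q.en e₀ false false) + -s ∧
      h (Q.en e₀ true true) = h (Q.en e₀ false false) + -s) := by
    rw [cmp_iff, cmp_iff]
    constructor
    · rintro ⟨⟨h1, h2⟩, h3, h4⟩
      exact ⟨⟨h1, by omega⟩, by omega, by omega⟩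
    · rintro ⟨⟨h1, h2⟩, h3, h4⟩
      exact ⟨⟨h1, by omega⟩, by omega, by omega⟩
  by_cases hc : Q.cmp (Function.update ω e₀ true) h ∧
      h (Q.en e₀ false false) = h (Q.en e₀ true false) + s ∧
      h (Q.en e₀ false true) = h (Q.en e₀ true false) + s
  · rw [if_pos hc, if_pos (hiff.1 hc)]
    have hph := Q.ph_upd ω e₀ h
    have hDl : Q.Dl e₀ h = 2 * s := by
      have h1 := (cmp_iff Q ω e₀ true h).1 hc.1
      unfold Dl
      omega
    rw [hDl] at hph
    rw [hph]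
    have : Real.exp (κ * ((Q.ph (Function.update ω e₀ false) h + 2 * (2 * s) : ℤ) : ℝ)) =
        Real.exp (4 * s * κ) * Real.exp (κ * (Q.ph (Function.update ω e₀ false) h : ℝ)) := by
      rw [← Real.exp_add]
      congr 1
      push_cast
      ring
    rw [this]
    ring
  · rw [if_neg hc, if_neg (fun h' => hc (hiff.2 h')), mul_zero]

private lemma one_add_exp (x : ℝ) : 1 + Real.exp (2 * x) = 2 * Real.exp x * Real.cosh x := by
  rw [Real.cosh_eq]
  have h1 : Real.exp (2 * x) = Real.exp x * Real.exp x := by rw [← Real.exp_add]; ring_nf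
  have h2 : Real.exp x * Real.exp (-x) = 1 := by rw [← Real.exp_add]; simp
  rw [h1]
  linear_combination (-1 : ℝ) * h2

end H6CaseCZAux

open H6CaseCZAux in
theorem caseC_Z (hQ : Q.IsDisc) (ω : M → Bool) (e₀ : M) (r : V) (κ θ : ℝ) (c₁ c₃ : V)
    (h1 : ¬ Q.Cono ω e₀ (Q.en e₀ true false) (Q.en e₀ true true))
    (h2 : ¬ Q.Cono ω e₀ (Q.en e₀ false false) (Q.en e₀ false true))
    (αf αg βu βv : ℝ)
    (hαf : αf = κ * (Q.NS (Function.update ω e₀ true) (Q.side (Function.update ω e₀ true)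
      (Q.en e₀ false false) (Q.en e₀ true false)) : ℝ) + θ * (Kc c₁ c₃ (Q.side
      (Function.update ω e₀ true) (Q.en e₀ false false) (Q.en e₀ true false)) : ℝ))
    (hαg : αg = κ * (Q.NS (Function.update ω e₀ true) (Q.side (Function.update ω e₀ true)
      (Q.en e₀ false true) (Q.en e₀ true false)) : ℝ) + θ * (Kc c₁ c₃ (Q.side
      (Function.update ω e₀ true) (Q.en e₀ false true) (Q.en e₀ true false)) : ℝ))
    (hβu : βu = κ * (Q.NS (Function.update ω e₀ false) (Q.side (Function.update ω e₀ false)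
      (Q.en e₀ true false) (Q.en e₀ false false)) : ℝ) + θ * (Kc c₁ c₃ (Q.side
      (Function.update ω e₀ false) (Q.en e₀ true false) (Q.en e₀ false false)) : ℝ))
    (hβv : βv = κ * (Q.NS (Function.update ω e₀ false) (Q.side (Function.update ω e₀ false)
      (Q.en e₀ true true) (Q.en e₀ false false)) : ℝ) + θ * (Kc c₁ c₃ (Q.side
      (Function.update ω e₀ false) (Q.en e₀ true true) (Q.en e₀ false false)) : ℝ)) :
    Q.Zf r κ (Fth θ c₁ c₃) (Function.update ω e₀ true) * (Real.cosh βu * Real.cosh βv) =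
      Q.Zf r κ (Fth θ c₁ c₃) (Function.update ω e₀ false) * (Real.cosh αf * Real.cosh αg) := by
  have cfu : Q.cor (Q.en e₀ false false) (Q.en e₀ true false) := Q.cor_symm (Q.cor_en hQ e₀ _ _)
  have cgu : Q.cor (Q.en e₀ false true) (Q.en e₀ true false) := Q.cor_symm (Q.cor_en hQ e₀ _ _)
  have cuf : Q.cor (Q.en e₀ true false) (Q.en e₀ false false) := Q.cor_en hQ e₀ _ _
  have cvf : Q.cor (Q.en e₀ true true) (Q.en e₀ false false) := Q.cor_en hQ e₀ _ _
  have dS := Q.caseC_disj_S hQ ω e₀ h2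
  have dR := Q.caseC_disj_R hQ ω e₀ h1
  have hg : Q.en e₀ false true ∉ Q.side (Function.update ω e₀ true) (Q.en e₀ false false)
      (Q.en e₀ true false) := fun h =>
    Finset.disjoint_left.1 dS h (Q.mem_side_self _ _ _)
  have hf : Q.en e₀ false false ∉ Q.side (Function.update ω e₀ true) (Q.en e₀ false true)
      (Q.en e₀ true false) := fun h =>
    Finset.disjoint_left.1 dS (Q.mem_side_self _ _ _) h
  have hv : Q.en e₀ true true ∉ Q.side (Function.update ω e₀ false) (Q.en e₀ true false)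
      (Q.en e₀ false false) := fun h =>
    Finset.disjoint_left.1 dR h (Q.mem_side_self _ _ _)
  have hu : Q.en e₀ true false ∉ Q.side (Function.update ω e₀ false) (Q.en e₀ true true)
      (Q.en e₀ false false) := fun h =>
    Finset.disjoint_left.1 dR (Q.mem_side_self _ _ _) h
  have s1 := Zf_split Q (Function.update ω e₀ true) cfu cgu hQ r κ (Fth θ c₁ c₃)
  have s0 := Zf_split Q (Function.update ω e₀ false) cuf cvf hQ r κ (Fth θ c₁ c₃)
  have a1 := fun t => Zs_shift Q hQ (Function.update ω e₀ true) cfu hg r κ θ c₁ c₃ t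
  have a2 := fun t => Zs_shift Q hQ (Function.update ω e₀ true) cgu hf r κ θ c₁ c₃ t
  have b1 := fun t => Zs_shift Q hQ (Function.update ω e₀ false) cuf hv r κ θ c₁ c₃ t
  have b2 := fun t => Zs_shift Q hQ (Function.update ω e₀ false) cvf hu r κ θ c₁ c₃ t
  rw [← hαf] at a1
  rw [← hαg] at a2
  rw [← hβu] at b1
  rw [← hβv] at b2
  have x1 := Zs_cross Q ω e₀ r κ (Fth θ c₁ c₃) 1
  have x2 := Zs_cross Q ω e₀ r κ (Fth θ c₁ c₃) (-1)
  have a11 := a1 1
  have a1m := a1 (-1)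
  have a21 := a2 1
  have a2m := a2 (-1)
  rw [Zs_swap Q r κ _ _ (Q.en e₀ false true) (Q.en e₀ false false),
    Zs_swap Q r κ _ _ (Q.en e₀ false true) (Q.en e₀ false false)] at a21 a2m
  have b11 := b1 1
  have b1m := b1 (-1)
  have b21 := b2 1
  have b2m := b2 (-1)
  rw [Zs_swap Q r κ _ _ (Q.en e₀ true true) (Q.en e₀ true false),
    Zs_swap Q r κ _ _ (Q.en e₀ true true) (Q.en e₀ true false)] at b21 b2m
  rw [neg_neg] at x2
  rw [s1, s0]
  clear s1 s0 a1 a2 b1 b2 hαf hαg hβu hβv dS dR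
  generalize Zs Q r κ (Fth θ c₁ c₃) (Function.update ω e₀ true) (Q.en e₀ false false)
    (Q.en e₀ false true) (Q.en e₀ true false) 1 1 = A11 at *
  generalize Zs Q r κ (Fth θ c₁ c₃) (Function.update ω e₀ true) (Q.en e₀ false false)
    (Q.en e₀ false true) (Q.en e₀ true false) 1 (-1) = A1m at *
  generalize Zs Q r κ (Fth θ c₁ c₃) (Function.update ω e₀ true) (Q.en e₀ false false)
    (Q.en e₀ false true) (Q.en e₀ true false) (-1) 1 = Am1 at *
  generalize Zs Q r κ (Fth θ c₁ c₃) (Function.update ω e₀ true) (Q.en e₀ false false)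
    (Q.en e₀ false true) (Q.en e₀ true false) (-1) (-1) = Amm at *
  generalize Zs Q r κ (Fth θ c₁ c₃) (Function.update ω e₀ false) (Q.en e₀ true false)
    (Q.en e₀ true true) (Q.en e₀ false false) 1 1 = B11 at *
  generalize Zs Q r κ (Fth θ c₁ c₃) (Function.update ω e₀ false) (Q.en e₀ true false)
    (Q.en e₀ true true) (Q.en e₀ false false) 1 (-1) = B1m at *
  generalize Zs Q r κ (Fth θ c₁ c₃) (Function.update ω e₀ false) (Q.en e₀ true false)
    (Q.en e₀ true true) (Q.en e₀ false false) (-1) 1 = Bm1 at *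
  generalize Zs Q r κ (Fth θ c₁ c₃) (Function.update ω e₀ false) (Q.en e₀ true false)
    (Q.en e₀ true true) (Q.en e₀ false false) (-1) (-1) = Bmm at *
  have e1 : Real.exp (4 * ((1 : ℤ) : ℝ) * κ) = Real.exp (4 * κ) := by norm_num
  have e2 : Real.exp (4 * ((-1 : ℤ) : ℝ) * κ) = (Real.exp (4 * κ))⁻¹ := by
    rw [← Real.exp_neg]; norm_num
  rw [e1] at x1
  rw [e2] at x2
  -- the sums
  have hA : A11 + A1m + (Am1 + Amm) =
      Amm * ((1 + Real.exp (2 * αf)) * (1 + Real.exp (2 * αg))) := by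
    rw [a11, a1m]
    have : Am1 = Real.exp (2 * αg) * Amm := a2m
    rw [this]
    ring
  have hB : B11 + B1m + (Bm1 + Bmm) =
      Bmm * ((1 + Real.exp (2 * βu)) * (1 + Real.exp (2 * βv))) := by
    rw [b11, b1m]
    have : Bm1 = Real.exp (2 * βv) * Bmm := b2m
    rw [this]
    ring
  rw [hA, hB, one_add_exp, one_add_exp, one_add_exp, one_add_exp]
  have hB11 : B11 = Real.exp (2 * βu) * (Real.exp (2 * βv) * Bmm) := by
    rw [b11]
    have : Bm1 = Real.exp (2 * βv) * Bmm := b2m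
    rw [this]
  have hA11 : A11 = Real.exp (2 * αf) * (Real.exp (2 * αg) * Amm) := by
    rw [a11]
    have : Am1 = Real.exp (2 * αg) * Amm := a2m
    rw [this]
  have hAmm : Amm = (Real.exp (4 * κ))⁻¹ * B11 := x2
  have hfin : Amm * (Real.exp αf * Real.exp αg) = Bmm * (Real.exp βu * Real.exp βv) := by
    by_cases h0 : Bmm = 0
    · rw [hAmm, hB11, h0]
      ring
    · have hE : Real.exp (4 * κ) ≠ 0 := (Real.exp_pos _).ne'
      -- the relation between the exponents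
      have hrel : Real.exp (2 * αf) * Real.exp (2 * αg) * Real.exp (2 * βu) * Real.exp (2 * βv) =
          Real.exp (4 * κ) * Real.exp (4 * κ) := by
        have h3 : Real.exp (2 * αf) * (Real.exp (2 * αg) *
            ((Real.exp (4 * κ))⁻¹ * (Real.exp (2 * βu) * (Real.exp (2 * βv) * Bmm)))) =
            Real.exp (4 * κ) * Bmm := by
          rw [← hB11, ← hAmm, ← hA11, x1]
        field_simp at h3
        nlinarith [h3]
      have hsum : αf + αg + βu + βv = 4 * κ := by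
        rw [← Real.exp_add, ← Real.exp_add, ← Real.exp_add, ← Real.exp_add] at hrel
        have := Real.exp_injective hrel
        linarith
      rw [hAmm, hB11]
      have h4 : (Real.exp (4 * κ))⁻¹ = Real.exp (-(αf + αg + βu + βv)) := by
        rw [hsum, Real.exp_neg]
      rw [h4]
      have h5 : Real.exp (-(αf + αg + βu + βv)) * (Real.exp (2 * βu) * (Real.exp (2 * βv) * Bmm)) *
          (Real.exp αf * Real.exp αg) = Bmm * (Real.exp (-(αf + αg + βu + βv)) *
          Real.exp (2 * βu) * Real.exp (2 * βv) * Real.exp αf * Real.exp αg) := by ring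
      rw [h5]
      congr 1
      rw [← Real.exp_add, ← Real.exp_add, ← Real.exp_add, ← Real.exp_add, ← Real.exp_add]
      congr 1
      ring
  linear_combination (4 * Real.cosh αf * Real.cosh αg * Real.cosh βu * Real.cosh βv) * hfin

end Quad

end P0q
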