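import Pool.Agent.Lib.P0q.K7CaseC
import Pool.Agent.Lib.P0q.H2Shift

/-!
# H7C01: the ratio in case C for the boundary condition (0; 1) (section 4 of Q4_proof.md)

`¬ Cono u v`, `¬ Cono f g`. If `F01 h ≠ 0` (heights `0`/`1` on active/passive boundary vertices) and `h` is compatible with
`ω₁ = update ω e₀ true`: by `caseC_bd` the classes (off `e₀`) of `u, v` contain active boundary vertices (first component of a
boundary corner, `bc_mem`), those of `f, g` passive ones; `h` is constant on them (`cmp_Con`, `Cono_Con`), so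
`h u = h v = 0`, `h f = h g = 1`. Hence `h` is compatible with `ω₀` too and `Dl e₀ h = 2`. The same conversely. So the heights with
`F01 ≠ 0` compatible with `ω₁` and `ω₀` are the same and `ph ω₁ h = ph ω₀ h + 4` (`ph_upd`).
-/

set_option autoImplicit false

open Finset P0de

namespace P0q

variable {V M : Type} [Fintype V] [DecidableEq V] [Fintype M] [DecidableEq M] (Q : Quad V M)

namespace H7C01Aux

theorem vals (hQ : Q.IsDisc) (ω ω' : M → Bool) (e₀ : M) (hω : ∀ e, e ≠ e₀ → ω e = ω' e)
    (h1 : ¬ Q.Cono ω e₀ (Q.en e₀ true false) (Q.en e₀ true true))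
    (h2 : ¬ Q.Cono ω e₀ (Q.en e₀ false false) (Q.en e₀ false true)) {h : V → ℤ}
    (hb : ∀ z ∈ Q.bd, h z = if Q.pr z then 0 else 1) (hc : Q.cmp ω' h) (i j : Bool) :
    h (Q.en e₀ true i) = 0 ∧ h (Q.en e₀ false j) = 1 := by
  obtain ⟨c, hcb, h3, h4⟩ := Q.caseC_bd hQ ω e₀ h1 h2 i j
  obtain ⟨h5, h6⟩ := hQ.bc_mem c hcb
  have h7 := hcb
  unfold Quad.bc at h7
  rw [mem_filter] at h7
  obtain ⟨-, h8, h9, -⟩ := h7
  rw [Q.Cono_congr hω] at h3 h4
  have h10 := Q.cmp_Con hc (Q.Cono_Con h3)
  have h11 := Q.cmp_Con hc (Q.Cono_Con h4)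
  rw [h10, h11, hb _ h5, hb _ h6, h8, h9]
  simp

theorem cmp_iff (ω : M → Bool) (e₀ : M) (b : Bool) (h : V → ℤ) :
    Q.cmp (Function.update ω e₀ b) h ↔
      (∀ e, e ≠ e₀ → h (Q.en e (ω e) false) = h (Q.en e (ω e) true)) ∧
        h (Q.en e₀ b false) = h (Q.en e₀ b true) := by
  unfold Quad.cmp
  constructor
  · intro h1
    refine ⟨fun e he => ?_, ?_⟩
    · have h2 := h1 e
      rwa [Function.update_of_ne he] at h2
    · have h2 := h1 e₀
      rwa [Function.update_self] at h2
  · rintro ⟨h1, h2⟩ e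
    by_cases he : e = e₀
    · subst he
      rwa [Function.update_self]
    · rw [Function.update_of_ne he]
      exact h1 e he

end H7C01Aux

namespace Quad

theorem BdF_F01 : Q.BdF Q.F01 := by
  intro h h' hh
  unfold F01
  have h1 : (∀ z ∈ Q.bd, h z = if Q.pr z then 0 else 1) ↔
      ∀ z ∈ Q.bd, h' z = if Q.pr z then 0 else 1 :=
    forall₂_congr fun z hz => by rw [hh z hz]
  simp only [h1]

theorem caseC_Z01 (hQ : Q.IsDisc) (ω : M → Bool) (e₀ : M) (r : V) (κ : ℝ)
    (h1 : ¬ Q.Cono ω e₀ (Q.en e₀ true false) (Q.en e₀ true true))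
    (h2 : ¬ Q.Cono ω e₀ (Q.en e₀ false false) (Q.en e₀ false true)) :
    Q.Zf r κ Q.F01 (Function.update ω e₀ true) =
      Real.exp (4 * κ) * Q.Zf r κ Q.F01 (Function.update ω e₀ false) := by
  classical
  unfold Zf
  rw [Finset.mul_sum]
  refine Finset.sum_congr rfl fun h _ => ?_
  by_cases hb : ∀ z ∈ Q.bd, h z = if Q.pr z then 0 else 1
  · have hiff : Q.cmp (Function.update ω e₀ true) h ↔ Q.cmp (Function.update ω e₀ false) h := by
      constructor
      · intro hc
        have h3 := H7C01Aux.vals Q hQ ω _ e₀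
          (fun e he => (Function.update_of_ne he true ω).symm) h1 h2 hb hc false false
        have h4 := H7C01Aux.vals Q hQ ω _ e₀
          (fun e he => (Function.update_of_ne he true ω).symm) h1 h2 hb hc true true
        rw [H7C01Aux.cmp_iff] at hc ⊢
        exact ⟨hc.1, by rw [h3.2, h4.2]⟩
      · intro hc
        have h3 := H7C01Aux.vals Q hQ ω _ e₀
          (fun e he => (Function.update_of_ne he false ω).symm) h1 h2 hb hc false false
        have h4 := H7C01Aux.vals Q hQ ω _ e₀
          (fun e he => (Function.update_of_ne he false ω).symm) h1 h2 hb hc true true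
        rw [H7C01Aux.cmp_iff] at hc ⊢
        exact ⟨hc.1, by rw [h3.1, h4.1]⟩
    by_cases hc : Q.cmp (Function.update ω e₀ true) h
    · rw [if_pos hc, if_pos (hiff.1 hc)]
      have h3 := H7C01Aux.vals Q hQ ω _ e₀
        (fun e he => (Function.update_of_ne he true ω).symm) h1 h2 hb hc false false
      have h4 := H7C01Aux.vals Q hQ ω _ e₀
        (fun e he => (Function.update_of_ne he true ω).symm) h1 h2 hb hc true true
      have h5 : Q.Dl e₀ h = 2 := by
        unfold Dl
        rw [h3.1, h3.2, h4.1, h4.2]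
        norm_num
      rw [Q.ph_upd, h5]
      push_cast
      have h6 : κ * ((Q.ph (Function.update ω e₀ false) h : ℝ) + 4) =
          4 * κ + κ * (Q.ph (Function.update ω e₀ false) h : ℝ) := by ring
      rw [h6, Real.exp_add]
      ring
    · rw [if_neg hc, if_neg fun h3 => hc (hiff.2 h3), mul_zero]
  · have hF : Q.F01 h = 0 := by
      unfold F01
      rw [if_neg hb]
    rw [hF]
    simp


end Quad

end P0q
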