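import Mathlib

/-!
# H9Num: the numerical lemma (Lemma 7 of Q4_proof.md)

Only finitely many tuples `(jf, jg, ju, jv, kf, kg, ku, kv)` occur (`jf + jg + ju + jv ≤ 4`, `|k| ≤ 1`). It is enough to find `θ > 0`
such that for each of them the strict inequality with `w = 1` holds: then take `w > 1` smaller than the finitely many
quotients (right side)/(left side) (all `> 1`; the left sides are positive).
For a tuple with not `ju = jv = 2`: at `θ = 0` the inequality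
`cosh (a(1-jf)) cosh (a(1-jg)) < cosh (a(3-ju)) cosh (a(3-jv))` is strict, so by continuity in `θ` it holds for all small `θ > 0`
(`Filter.Eventually` for `𝓝[>] 0`, finite intersection `Filter.eventually_all_finset`). For `ju = jv = 2`:
`jf = jg = 0`, `kf = kg = 0`, `{ku, kv} = {1, -1}`: `cosh (a+θ) cosh (a-θ) = (cosh 2a + cosh 2θ)/2 > (cosh 2a + 1)/2 = cosh a ^ 2`.

Proof of the strict inequality at `θ = 0`. `2 cosh x cosh y = cosh (x+y) + cosh (x-y)`. Let `s = jf + jg`, `t = ju + jv`, `s + t ≤ 4`.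
Left: `cosh (a(2-s)) + cosh (a(jf-jg))`, right: `cosh (a(6-t)) + cosh (a(ju-jv))`, `6 - t ≥ 2 + s`.
If `s = 0`: left is `cosh 2a + 1`, right `≥ cosh 2a + 1` with equality only if `6 - t = 2` and `ju = jv`, i.e.
`ju = jv = 2`. If `s ≥ 1`: left `≤ cosh (a|2-s|) + cosh (a s)`; right `≥ cosh (a(2+s)) + 1`; and
`cosh (a(2+s)) - cosh (a(2-s)) = 2 sinh 2a sinh as > cosh as - 1`, since `cosh z - 1 ≤ sinh z · tanh (z/2) < sinh z ...`: with
`z = as ≤ 4a`: `cosh z - 1 = 2 sinh² (z/2)`, `sinh z = 2 sinh (z/2) cosh (z/2)`, so the claim is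
`2 sinh (2a) cosh (z/2) > sinh (z/2)`, true because `z/2 ≤ 2a`, `sinh (z/2) ≤ sinh 2a < 2 sinh (2a) cosh (z/2)`.
(Or: at `θ = 0` put `c = cosh a > 1` and check the finitely many cases as polynomial inequalities in `c`, using
`cosh 2a = 2c² - 1`, `cosh 3a = 4c³ - 3c`.)
-/

set_option autoImplicit false

namespace P0q

namespace H9NumAux

open Filter Topology

/-- the strict inequality at `θ = 0` -/
theorem strict0 (a : ℝ) (ha : 0 < a) (jf jg ju jv : ℕ) (hs : jf + jg + ju + jv ≤ 4)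
    (hn : ¬ (ju = 2 ∧ jv = 2)) :
    Real.cosh (a * (1 - jf)) * Real.cosh (a * (1 - jg)) <
      Real.cosh (a * (3 - ju)) * Real.cosh (a * (3 - jv)) := by
  set c : ℝ := Real.cosh a with hc
  have h1 : 1 < c := Real.one_lt_cosh.2 ha.ne'
  have e0 : Real.cosh (a * 0) = 1 := by rw [mul_zero, Real.cosh_zero]
  have e1 : Real.cosh (a * 1) = c := by rw [mul_one]
  have e2 : Real.cosh (a * 2) = 2 * c ^ 2 - 1 := by
    rw [mul_comm, Real.cosh_two_mul]
    have := Real.cosh_sq a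
    rw [← hc] at this ⊢
    linarith
  have e3 : Real.cosh (a * 3) = 4 * c ^ 3 - 3 * c := by
    rw [mul_comm, Real.cosh_three_mul]
  have e1' : Real.cosh (a * (-1)) = c := by rw [mul_neg, Real.cosh_neg, e1]
  have e2' : Real.cosh (a * (-2)) = 2 * c ^ 2 - 1 := by rw [mul_neg, Real.cosh_neg, e2]
  have e3' : Real.cosh (a * (-3)) = 4 * c ^ 3 - 3 * c := by rw [mul_neg, Real.cosh_neg, e3]
  have g0 : ∀ j : ℕ, j ≤ 4 → Real.cosh (a * (1 - j)) =
      (if j = 0 then c else if j = 1 then 1 else if j = 2 then c else if j = 3 then 2 * c ^ 2 - 1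
        else 4 * c ^ 3 - 3 * c) := by
    intro j hj
    interval_cases j
    · rw [show ((1 : ℝ) - ((0 : ℕ) : ℝ)) = 1 by norm_num, e1]; simp
    · rw [show ((1 : ℝ) - ((1 : ℕ) : ℝ)) = 0 by norm_num, e0]; simp
    · rw [show ((1 : ℝ) - ((2 : ℕ) : ℝ)) = -1 by norm_num, e1']; simp
    · rw [show ((1 : ℝ) - ((3 : ℕ) : ℝ)) = -2 by norm_num, e2']; simp
    · rw [show ((1 : ℝ) - ((4 : ℕ) : ℝ)) = -3 by norm_num, e3']; simp
  have g1 : ∀ j : ℕ, j ≤ 4 → Real.cosh (a * (3 - j)) =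
      (if j = 0 then 4 * c ^ 3 - 3 * c else if j = 1 then 2 * c ^ 2 - 1 else if j = 2 then c
        else if j = 3 then 1 else c) := by
    intro j hj
    interval_cases j
    · rw [show ((3 : ℝ) - ((0 : ℕ) : ℝ)) = 3 by norm_num, e3]; simp
    · rw [show ((3 : ℝ) - ((1 : ℕ) : ℝ)) = 2 by norm_num, e2]; simp
    · rw [show ((3 : ℝ) - ((2 : ℕ) : ℝ)) = 1 by norm_num, e1]; simp
    · rw [show ((3 : ℝ) - ((3 : ℕ) : ℝ)) = 0 by norm_num, e0]; simp
    · rw [show ((3 : ℝ) - ((4 : ℕ) : ℝ)) = -1 by norm_num, e1']; simp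
  rw [g0 jf (by omega), g0 jg (by omega), g1 ju (by omega), g1 jv (by omega)]
  clear g0 g1 e0 e1 e2 e3 e1' e2' e3'
  clear_value c
  -- the order of the values
  set P2 : ℝ := 2 * c ^ 2 - 1 with hP2
  set P3 : ℝ := 4 * c ^ 3 - 3 * c with hP3
  have hcc : c < c * c := by nlinarith
  have h12' : c * c < P2 := by rw [hP2]; nlinarith
  have h12 : c < P2 := by linarith
  have h23' : c * P2 < P3 := by rw [hP2, hP3]; nlinarith [mul_pos (sub_pos.2 h1) (sub_pos.2 h1)]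
  have h23 : P2 < P3 := by nlinarith
  clear_value P2 P3
  have hc0 : 0 < c := by linarith
  have hP20 : 0 < P2 := by linarith
  have hP30 : 0 < P3 := by linarith
  have m1 : c * P2 < P2 * P2 := by nlinarith
  have m2 : c * P3 < P3 * P3 := by nlinarith
  have m3 : P2 * P2 < P2 * P3 := by nlinarith
  have m4 : P2 * P3 < P3 * P3 := by nlinarith
  have m5 : c * P2 < c * P3 := by nlinarith
  have m6 : P3 < c * P3 := by nlinarith
  have m7 : P2 < c * P2 := by nlinarith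
  have m8 : c * P3 < P2 * P3 := by nlinarith
  have m9 : c * c < c * P2 := by nlinarith
  have hjf : jf ≤ 4 := by omega
  have hjg : jg ≤ 4 := by omega
  have hju : ju ≤ 4 := by omega
  have hjv : jv ≤ 4 := by omega
  have hn' : ju = 2 → jv ≠ 2 := fun h h' => hn ⟨h, h'⟩
  clear hn hP2 hP3
  have hm : (1 : ℝ) * 1 < c := by linarith
  interval_cases ju <;> interval_cases jv <;> first
    | (exfalso; omega)
    | (interval_cases jf <;> first
        | (exfalso; omega)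
        | (interval_cases jg <;> first
            | (exfalso; omega)
            | (simp (config := {decide := true}) only [if_true, if_false]; linarith)))

theorem prodId (a t : ℝ) : Real.cosh (a + t) * Real.cosh (a - t) =
    Real.cosh a ^ 2 + Real.sinh t ^ 2 := by
  rw [Real.cosh_add, Real.cosh_sub]
  have h1 := Real.cosh_sq a
  have h2 := Real.cosh_sq t
  nlinarith [h1, h2]

abbrev Ix : Type := ℕ × ℕ × ℕ × ℕ × ℤ × ℤ × ℤ × ℤ

noncomputable def idx : Finset Ix :=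
  Finset.range 5 ×ˢ Finset.range 5 ×ˢ Finset.range 5 ×ˢ Finset.range 5 ×ˢ
    Finset.Icc (-1) 1 ×ˢ Finset.Icc (-1) 1 ×ˢ Finset.Icc (-1) 1 ×ˢ Finset.Icc (-1) 1

def cond (t : Ix) : Prop :=
  t.1 + t.2.1 + t.2.2.1 + t.2.2.2.1 ≤ 4 ∧
  (t.2.2.1 = 2 → t.2.2.2.1 = 2 → t.2.2.2.2.1 = 0 ∧ t.2.2.2.2.2.1 = 0 ∧
    ((t.2.2.2.2.2.2.1 = 1 ∧ t.2.2.2.2.2.2.2 = -1) ∨
      (t.2.2.2.2.2.2.1 = -1 ∧ t.2.2.2.2.2.2.2 = 1)))

noncomputable def lhs (a θ : ℝ) (t : Ix) : ℝ :=
  Real.cosh (a * (1 - t.1) + θ * t.2.2.2.2.1) * Real.cosh (a * (1 - t.2.1) + θ * t.2.2.2.2.2.1)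

noncomputable def rhs (a θ : ℝ) (t : Ix) : ℝ :=
  Real.cosh (a * (3 - t.2.2.1) + θ * t.2.2.2.2.2.2.1) *
    Real.cosh (a * (3 - t.2.2.2.1) + θ * t.2.2.2.2.2.2.2)

theorem mem_idx {jf jg ju jv : ℕ} {kf kg ku kv : ℤ} (hs : jf + jg + ju + jv ≤ 4)
    (h1 : |kf| ≤ 1) (h2 : |kg| ≤ 1) (h3 : |ku| ≤ 1) (h4 : |kv| ≤ 1) :
    ((jf, jg, ju, jv, kf, kg, ku, kv) : Ix) ∈ idx := by
  rw [abs_le] at h1 h2 h3 h4
  simp only [idx, Finset.mem_product, Finset.mem_range, Finset.mem_Icc]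
  refine ⟨by omega, by omega, by omega, by omega, h1, h2, h3, h4⟩

end H9NumAux

set_option linter.constructorNameAsVariable false in
open H9NumAux Filter Topology in
theorem num (a : ℝ) (ha : 0 < a) : ∃ θ : ℝ, 0 < θ ∧ ∃ w : ℝ, 1 < w ∧
    ∀ (jf jg ju jv : ℕ) (kf kg ku kv : ℤ), jf + jg + ju + jv ≤ 4 →
    |kf| ≤ 1 → |kg| ≤ 1 → |ku| ≤ 1 → |kv| ≤ 1 →
    (ju = 2 → jv = 2 → kf = 0 ∧ kg = 0 ∧ ((ku = 1 ∧ kv = -1) ∨ (ku = -1 ∧ kv = 1))) →
    w * (Real.cosh (a * (1 - jf) + θ * kf) * Real.cosh (a * (1 - jg) + θ * kg)) ≤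
      Real.cosh (a * (3 - ju) + θ * ku) * Real.cosh (a * (3 - jv) + θ * kv) := by
  classical
  -- the strict inequality for small `θ`
  have key : ∀ (jf jg ju jv : ℕ) (kf kg ku kv : ℤ), jf + jg + ju + jv ≤ 4 →
      (ju = 2 → jv = 2 → kf = 0 ∧ kg = 0 ∧ ((ku = 1 ∧ kv = -1) ∨ (ku = -1 ∧ kv = 1))) →
      ∀ᶠ θ : ℝ in 𝓝[>] 0,
        Real.cosh (a * (1 - jf) + θ * kf) * Real.cosh (a * (1 - jg) + θ * kg) <
        Real.cosh (a * (3 - ju) + θ * ku) * Real.cosh (a * (3 - jv) + θ * kv) := by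
    intro jf jg ju jv kf kg ku kv hs hk
    by_cases hn : ju = 2 ∧ jv = 2
    · obtain ⟨h1, h2⟩ := hn
      obtain ⟨h3, h4, h5⟩ := hk h1 h2
      have h6 : jf = 0 := by omega
      have h7 : jg = 0 := by omega
      subst h1 h2 h3 h4 h6 h7
      filter_upwards [self_mem_nhdsWithin] with θ hθ
      have hθ' : 0 < θ := hθ
      have hsh : 0 < Real.sinh θ ^ 2 := by
        have := Real.sinh_pos_iff.2 hθ'
        positivity
      have h8 := prodId a θ
      rcases h5 with ⟨h5, h6⟩ | ⟨h5, h6⟩ <;> subst h5 h6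
      · have e1 : a * (1 - ((0 : ℕ) : ℝ)) + θ * ((0 : ℤ) : ℝ) = a := by norm_num
        have e2 : a * (3 - ((2 : ℕ) : ℝ)) + θ * ((1 : ℤ) : ℝ) = a + θ := by norm_num
        have e3 : a * (3 - ((2 : ℕ) : ℝ)) + θ * ((-1 : ℤ) : ℝ) = a - θ := by norm_num; ring
        rw [e1, e2, e3, h8]
        nlinarith
      · have e1 : a * (1 - ((0 : ℕ) : ℝ)) + θ * ((0 : ℤ) : ℝ) = a := by norm_num
        have e2 : a * (3 - ((2 : ℕ) : ℝ)) + θ * ((1 : ℤ) : ℝ) = a + θ := by norm_num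
        have e3 : a * (3 - ((2 : ℕ) : ℝ)) + θ * ((-1 : ℤ) : ℝ) = a - θ := by norm_num; ring
        rw [e1, e2, e3, mul_comm (Real.cosh (a - θ)), h8]
        nlinarith
    · have h0 := strict0 a ha jf jg ju jv hs hn
      have c1 : Continuous fun θ : ℝ =>
          Real.cosh (a * (1 - jf) + θ * kf) * Real.cosh (a * (1 - jg) + θ * kg) := by
        exact (Real.continuous_cosh.comp (by fun_prop)).mul (Real.continuous_cosh.comp (by fun_prop))
      have c2 : Continuous fun θ : ℝ =>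
          Real.cosh (a * (3 - ju) + θ * ku) * Real.cosh (a * (3 - jv) + θ * kv) := by
        exact (Real.continuous_cosh.comp (by fun_prop)).mul (Real.continuous_cosh.comp (by fun_prop))
      have h1 : ∀ᶠ θ : ℝ in 𝓝 0,
          Real.cosh (a * (1 - jf) + θ * kf) * Real.cosh (a * (1 - jg) + θ * kg) <
          Real.cosh (a * (3 - ju) + θ * ku) * Real.cosh (a * (3 - jv) + θ * kv) := by
        refine (c1.continuousAt).eventually_lt c2.continuousAt ?_
        simpa using h0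
      exact h1.filter_mono nhdsWithin_le_nhds
  have hev : ∀ᶠ θ : ℝ in 𝓝[>] 0, ∀ t ∈ idx, cond t → lhs a θ t < rhs a θ t := by
    rw [Filter.eventually_all_finset]
    intro t _
    by_cases hC : cond t
    · filter_upwards [key t.1 t.2.1 t.2.2.1 t.2.2.2.1 t.2.2.2.2.1 t.2.2.2.2.2.1 t.2.2.2.2.2.2.1
        t.2.2.2.2.2.2.2 hC.1 hC.2] with θ hθ _
      exact hθ
    · exact Filter.Eventually.of_forall fun θ h => absurd h hC
  obtain ⟨θ, hθ, hθ0⟩ := (hev.and self_mem_nhdsWithin).exists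
  have hw : ∀ᶠ w : ℝ in 𝓝[>] 1, ∀ t ∈ idx, cond t → w * lhs a θ t ≤ rhs a θ t := by
    rw [Filter.eventually_all_finset]
    intro t ht
    by_cases hC : cond t
    · have h1 := hθ t ht hC
      have h2 : ∀ᶠ w : ℝ in 𝓝 1, w * lhs a θ t < rhs a θ t := by
        refine ContinuousAt.eventually_lt (by fun_prop) continuousAt_const ?_
        rw [one_mul]; exact h1
      filter_upwards [h2.filter_mono nhdsWithin_le_nhds] with w hw _
      exact hw.le
    · exact Filter.Eventually.of_forall fun θ h => absurd h hC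
  obtain ⟨w, hw, hw1⟩ := (hw.and self_mem_nhdsWithin).exists
  refine ⟨θ, hθ0, w, hw1, ?_⟩
  intro jf jg ju jv kf kg ku kv hs h1 h2 h3 h4 h5
  exact hw (jf, jg, ju, jv, kf, kg, ku, kv) (mem_idx hs h1 h2 h3 h4) ⟨hs, h5⟩

end P0q
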