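import Pool.Agent.Lib.P0q.Defs2
import Pool.Agent.Lib.P0q.R3Rc

/-!
# I1Weak: weak limits and local events

`integral_rcM`: for `f` bounded measurable (here: `f` = indicator of a local event) the integral over `rcM q qb (pc q) a b` is the expectation. The proof is
the one of `Pool.Agent.Results.MP_0de4a2_pr.LargeQ.integral_rc` (file Pool/Agent/Results/MP_0de4a2_pr/LargeQ.lean, do not import it, copy the idea):
`rcM` is a finite sum of multiples of Dirac measures: `integral_finsetSum_measure`, `integral_smul_measure`, `integral_dirac`,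
`ENNReal.toReal_ofReal`; the value at `conf η` of the indicator of `{ω | A (op E ω)}` is `ind A (op E (conf η))`, and `op E (conf η) = E ∩ η`.

`locLim_of_weak`: the indicator `f ω = if A (op E ω) then 1 else 0` is continuous (it depends on finitely many coordinates in the discrete space `Bool`:
e.g. `f = F ∘ (restriction to E)`, a function on the discrete finite space `E → Bool` composed with a continuous map), its integral for the measure
`rcM q qb (pc q) (-n) n` is `ev (EE n) (rcW q qb (pc q) (-n) n) (fun η => A (η ∩ E))`, and its integral for `μ` is `μ.real {ω | A (op E ω)}`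
(`integral_indicator_one`, `measurable_op`).

`locLim_free`: `ev` for `rcW q q` and `fw q` agree (`rc_free_ex`).

`weak_of_locLim`: conversely (used for the existence of the free measure): if `w n = rcW q qb (pc q) (-n) n` satisfies `LocLim w μ` and `μ` is a probability measure, then `WeakLim (fun n => rcM ...) μ`: a continuous
function on the compact space `Ed → Bool` is a uniform limit of functions depending on finitely many coordinates (uniform continuity, or the Stone–Weierstrass
theorem); such a function is a finite linear combination of indicators of the local events `{op E ω = ζ}`, `ζ ⊆ E`; `rcM` is a probability measure (`Z_pos`, the weights sum to 1),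
so an error `ε` in sup norm changes all integrals by at most `ε`.
-/

set_option autoImplicit false

open Finset P0de MeasureTheory Filter Topology

namespace P0q

theorem op_conf (E η : Finset Ed) : op E (conf η) = η ∩ E := by
  ext e
  simp only [op, conf, mem_filter, mem_inter, decide_eq_true_eq]
  tauto

theorem rcM_prob {q qb : ℝ} (hq : 0 < q) (hqb : 0 < qb) (a b : ℤ) :
    IsProbabilityMeasure (rcM q qb (pc q) a b) := by
  constructor
  have hZ := Z_pos hq hqb a b
  rw [rcM, Measure.finsetSum_apply]
  simp only [Measure.smul_apply, measure_univ, smul_eq_mul, mul_one]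
  rw [← ENNReal.ofReal_sum_of_nonneg]
  · rw [← sum_div, div_self hZ.ne', ENNReal.ofReal_one]
  · intro η _
    exact div_nonneg (rcW_pos hq hqb a b η).le hZ.le

namespace I1WeakAux

theorem integral_rcM {q qb : ℝ} (hq : 0 < q) (hqb : 0 < qb) (a b : ℤ) (f : (Ed → Bool) → ℝ) :
    ∫ ω, f ω ∂(rcM q qb (pc q) a b) =
      ex (inner a (b + 1)) (rcW q qb (pc q) a b) (fun η => f (conf η)) := by
  have hZ := Z_pos hq hqb a b
  have hint : ∀ η ∈ (inner a (b + 1)).powerset, Integrable f (ENNReal.ofReal
      (rcW q qb (pc q) a b η / ∑ η' ∈ (inner a (b + 1)).powerset, rcW q qb (pc q) a b η') •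
      Measure.dirac (conf η)) := by
    intro η _
    apply Integrable.smul_measure _ ENNReal.ofReal_ne_top
    exact (integrable_dirac (by simp))
  rw [rcM, integral_finsetSum_measure hint, ex, sum_div]
  apply sum_congr rfl
  intro η _
  rw [integral_smul_measure, integral_dirac]
  have h1 : 0 ≤ rcW q qb (pc q) a b η / ∑ η' ∈ (inner a (b + 1)).powerset,
      rcW q qb (pc q) a b η' := div_nonneg (rcW_pos hq hqb a b η).le hZ.le
  rw [ENNReal.toReal_ofReal h1, smul_eq_mul]
  ring

/-- the indicator of a local event is continuous -/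
theorem continuous_ind (E : Finset Ed) (A : Finset Ed → Prop) :
    Continuous fun ω : Ed → Bool => ind A (op E ω) := by
  classical
  let F : (E → Bool) → ℝ := fun ρ => ind A (E.attach.filter (fun e => ρ e = true) |>.image Subtype.val)
  have h : (fun ω : Ed → Bool => ind A (op E ω)) = F ∘ (fun ω (e : E) => ω e.1) := by
    funext ω
    simp only [F, Function.comp]
    congr 1
    ext e
    simp only [op, mem_filter, mem_image, mem_attach, true_and, Subtype.exists, exists_and_right,
      exists_eq_right, exists_prop]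
  rw [h]
  have hF : Continuous F := continuous_of_discreteTopology
  exact hF.comp (continuous_pi fun e => continuous_apply e.1)

theorem integral_ind {μ : Measure (Ed → Bool)} (E : Finset Ed) (A : Finset Ed → Prop) :
    ∫ ω, ind A (op E ω) ∂μ = μ.real {ω | A (op E ω)} := by
  classical
  have h : (fun ω : Ed → Bool => ind A (op E ω)) =
      Set.indicator {ω | A (op E ω)} (fun _ => (1 : ℝ)) := by
    funext ω
    unfold ind Set.indicator
    rfl
  rw [h, integral_indicator (measurable_op E A)]
  simp

end I1WeakAux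

open I1WeakAux

theorem locLim_of_weak {q qb : ℝ} (hq : 0 < q) (hqb : 0 < qb) {μ : Measure (Ed → Bool)}
    (hμ : IsProbabilityMeasure μ) (h : WeakLim (fun n : ℕ => rcM q qb (pc q) (-(n : ℤ)) n) μ) :
    LocLim (fun n => rcW q qb (pc q) (-(n : ℤ)) n) μ := by
  intro E A
  have h1 := h _ (continuous_ind E A)
  rw [integral_ind] at h1
  refine h1.congr ?_
  intro n
  rw [integral_rcM hq hqb]
  simp only [op_conf]
  rfl

theorem locLim_free {q : ℝ} (hq : 0 < q) {μ : Measure (Ed → Bool)} :
    LocLim (fun n => rcW q q (pc q) (-(n : ℤ)) n) μ ↔ LocLim (fun _ => fw q) μ := by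
  unfold LocLim ev
  simp only [rc_free_ex hq]


namespace I1WeakAux

/-- a continuous function nearly depends on finitely many coordinates -/
theorem approx {f : (Ed → Bool) → ℝ} (hf : Continuous f) {ε : ℝ} (hε : 0 < ε) :
    ∃ E : Finset Ed, ∀ ω ω' : Ed → Bool, (∀ e ∈ E, ω e = ω' e) → |f ω - f ω'| ≤ ε := by
  classical
  have h1 : ∀ ω : Ed → Bool, ∃ E : Finset Ed, ∀ ω' : Ed → Bool, (∀ e ∈ E, ω' e = ω e) →
      |f ω' - f ω| < ε / 2 := by
    intro ω
    have h2 : {ω' : Ed → Bool | |f ω' - f ω| < ε / 2} ∈ 𝓝 ω := by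
      have h3 := hf.continuousAt (x := ω)
      have h4 := Metric.continuousAt_iff'.1 h3 (ε / 2) (by positivity)
      simp only [Real.dist_eq] at h4
      exact h4
    rw [nhds_pi, Filter.mem_pi] at h2
    obtain ⟨I, hI, t, ht, hsub⟩ := h2
    refine ⟨hI.toFinset, fun ω' hω' => hsub ?_⟩
    intro e he
    rw [hω' e (hI.mem_toFinset.2 he)]
    exact mem_of_mem_nhds (ht e)
  choose E hE using h1
  have h5 : ∀ ω : Ed → Bool, {ω' : Ed → Bool | ∀ e ∈ E ω, ω' e = ω e} ∈ 𝓝 ω := by
    intro ω
    rw [nhds_pi, Filter.mem_pi]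
    refine ⟨(E ω : Set Ed), (E ω).finite_toSet, fun e => {ω e}, fun e => ?_, ?_⟩
    · rw [nhds_discrete]
      exact Filter.mem_pure.2 rfl
    · intro ω' hω' e he
      exact hω' e he
  obtain ⟨T, _, hT⟩ := isCompact_univ.elim_nhds_subcover (fun ω : Ed → Bool =>
    {ω' : Ed → Bool | ∀ e ∈ E ω, ω' e = ω e}) (fun ω _ => h5 ω)
  refine ⟨T.biUnion E, fun ω ω' hωω' => ?_⟩
  have h6 := hT (Set.mem_univ ω)
  simp only [Set.mem_iUnion, exists_prop] at h6
  obtain ⟨ω₀, h7, h8⟩ := h6
  have h9 := hE ω₀ ω h8
  have h10 := hE ω₀ ω' (fun e he => by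
    rw [← hωω' e (mem_biUnion.2 ⟨ω₀, h7, he⟩)]
    exact h8 e he)
  rw [abs_lt] at h9 h10
  rw [abs_le]
  constructor <;> linarith [h9.1, h9.2, h10.1, h10.2]

/-- functions of finitely many coordinates -/
theorem integral_op {ν : Measure (Ed → Bool)} (hν : IsProbabilityMeasure ν) (E : Finset Ed)
    (g : Finset Ed → ℝ) : ∫ ω, g (op E ω) ∂ν =
      ∑ ζ ∈ E.powerset, g ζ * ∫ ω, ind (fun η => η = ζ) (op E ω) ∂ν := by
  classical
  have h : ∀ ω : Ed → Bool, g (op E ω) =
      ∑ ζ ∈ E.powerset, g ζ * ind (fun η => η = ζ) (op E ω) := by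
    intro ω
    have h1 : op E ω ∈ E.powerset := mem_powerset.2 (filter_subset _ _)
    rw [sum_eq_single_of_mem _ h1]
    · simp [ind]
    · intro ζ _ hζ
      simp [ind, hζ.symm]
  simp_rw [h]
  rw [integral_finsetSum]
  · apply sum_congr rfl
    intro ζ _
    rw [integral_const_mul]
  · intro ζ _
    apply Integrable.const_mul
    exact Integrable.of_bound (continuous_ind E _).aestronglyMeasurable 1
      (Eventually.of_forall fun ω => by
        unfold ind
        split_ifs <;> simp)

end I1WeakAux

theorem weak_of_locLim {q qb : ℝ} (hq : 0 < q) (hqb : 0 < qb) {μ : Measure (Ed → Bool)}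
    (hμ : IsProbabilityMeasure μ) (h : LocLim (fun n => rcW q qb (pc q) (-(n : ℤ)) n) μ) :
    WeakLim (fun n : ℕ => rcM q qb (pc q) (-(n : ℤ)) n) μ := by
  classical
  intro f hf
  have hp : ∀ n : ℕ, IsProbabilityMeasure (rcM q qb (pc q) (-(n : ℤ)) n) := fun n =>
    rcM_prob hq hqb _ _
  have hbd : ∃ C : ℝ, ∀ ω, ‖f ω‖ ≤ C := by
    obtain ⟨C, hC⟩ := isCompact_univ.exists_bound_of_continuousOn hf.continuousOn
    exact ⟨C, fun ω => hC ω (Set.mem_univ ω)⟩
  obtain ⟨C, hC⟩ := hbd
  have hint : ∀ ν : Measure (Ed → Bool), IsProbabilityMeasure ν → Integrable f ν := fun ν hν =>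
    Integrable.of_bound hf.aestronglyMeasurable C (Eventually.of_forall hC)
  rw [Metric.tendsto_atTop]
  intro ε hε
  obtain ⟨E, hE⟩ := approx hf (ε := ε / 4) (by positivity)
  set g : Finset Ed → ℝ := fun ζ => f (conf ζ) with hg
  have hcont : Continuous fun ω : Ed → Bool => g (op E ω) := by
    have h1 : (fun ω : Ed → Bool => g (op E ω)) = fun ω =>
        ∑ ζ ∈ E.powerset, g ζ * ind (fun η => η = ζ) (op E ω) := by
      funext ω
      have h1 : op E ω ∈ E.powerset := mem_powerset.2 (filter_subset _ _)
      rw [sum_eq_single_of_mem _ h1]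
      · simp [ind]
      · intro ζ _ hζ
        simp [ind, hζ.symm]
    rw [h1]
    exact continuous_finsetSum _ fun ζ _ => continuous_const.mul (continuous_ind E _)
  have hclose : ∀ ω, |f ω - g (op E ω)| ≤ ε / 4 := by
    intro ω
    apply hE
    intro e he
    simp only [conf, op, mem_filter]
    by_cases h1 : ω e = true
    · simp [h1, he]
    · simp [h1]
  have hgint : ∀ ν : Measure (Ed → Bool), IsProbabilityMeasure ν →
      Integrable (fun ω => g (op E ω)) ν := by
    intro ν hν
    refine Integrable.of_bound hcont.aestronglyMeasurable (C + ε / 4)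
      (Eventually.of_forall fun ω => ?_)
    have h1 := hclose ω
    have h2 := hC ω
    rw [Real.norm_eq_abs] at h2 ⊢
    rw [abs_le] at h1 h2 ⊢
    constructor <;> linarith [h1.1, h1.2, h2.1, h2.2]
  have hdiff : ∀ ν : Measure (Ed → Bool), IsProbabilityMeasure ν →
      |∫ ω, f ω ∂ν - ∫ ω, g (op E ω) ∂ν| ≤ ε / 4 := by
    intro ν hν
    rw [← integral_sub (hint ν hν) (hgint ν hν)]
    have h1 := norm_integral_le_of_norm_le_const (μ := ν) (f := fun ω => f ω - g (op E ω))
      (C := ε / 4) (Eventually.of_forall fun ω => by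
        rw [Real.norm_eq_abs]
        exact hclose ω)
    simpa using h1
  have hlim : Tendsto (fun n : ℕ => ∫ ω, g (op E ω) ∂(rcM q qb (pc q) (-(n : ℤ)) n)) atTop
      (𝓝 (∫ ω, g (op E ω) ∂μ)) := by
    rw [integral_op hμ]
    have h1 : ∀ n : ℕ, ∫ ω, g (op E ω) ∂(rcM q qb (pc q) (-(n : ℤ)) n) =
        ∑ ζ ∈ E.powerset, g ζ * ev (EE n) (rcW q qb (pc q) (-(n : ℤ)) n)
          (fun η => η ∩ E = ζ) := by
      intro n
      rw [integral_op (hp n)]
      apply sum_congr rfl
      intro ζ _
      rw [integral_rcM hq hqb]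
      simp only [op_conf]
      rfl
    simp_rw [h1]
    apply tendsto_finsetSum
    intro ζ _
    rw [integral_ind]
    exact (h E (fun η => η = ζ)).const_mul (g ζ)
  rw [Metric.tendsto_atTop] at hlim
  obtain ⟨N, hN⟩ := hlim (ε / 4) (by positivity)
  refine ⟨N, fun n hn => ?_⟩
  have h1 := hN n hn
  have h2 := hdiff _ (hp n)
  have h3 := hdiff μ hμ
  rw [Real.dist_eq] at h1 ⊢
  rw [abs_lt] at h1 ⊢
  rw [abs_le] at h2 h3
  constructor <;> linarith [h1.1, h1.2, h2.1, h2.2, h3.1, h3.2]

end P0q
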