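import Pool.Agent.Lib.P0q.R2Fw

/-!
# R4Vol: monotonicity in the volume, mixing, finite energy for the free weight

Notation: `E ⊆ E'` finite sets of edges, `D = E' \ E`. Every `η' ⊆ E'` is `η ∪ ξ`, `η = η' ∩ E`, `ξ = η' \ E ⊆ D`
(`Finset.sum` over `E'.powerset` = double sum over `D.powerset` and `E.powerset`; bijection `(ξ, η) ↦ η ∪ ξ`).
For fixed `ξ ⊆ D` let `w_ξ η = fw q (η ∪ ξ)`: by `fw_odds` (`q ≥ 1`) `Odds E (fw q) w_ξ`, so by `dom` for every `G` with
`MonoOn E G`: `ex E (fw q) G ≤ ex E w_ξ G`, i.e. `∑_{η ⊆ E} fw (η ∪ ξ) G η ≥ ex E (fw q) G · ∑_{η ⊆ E} fw (η ∪ ξ)`.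

`vol_mono`: `G` monotone (on all finite sets): `G (η ∪ ξ) ≥ G η`, sum over `ξ`, divide by the total weight.
`mix`: `A` increasing, `C` arbitrary: sum over the `ξ` with `C ξ`.
`fin_energy`: `E₀ ⊆ E'`, `ζ ⊆ E₀`: for all `ξ ⊆ E' \ E₀`: `fw (ζ ∪ ξ) ≥ (1 + √q)^{-|E₀|} ∑_{η ⊆ E₀} fw (η ∪ ξ)`: induction on `E₀`
(changing the state of one edge `e ∈ E₀`: the conditional probability that `e` is open given the rest is `√q/(1+√q)` or
`1/(1+√q)` by `fw_insert`; both it and its complement are `≥ 1/(1+√q)` as `q ≥ 1`).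
-/

set_option autoImplicit false

open Finset P0de

namespace P0q

namespace R4VolAux

/-- the sum over the subsets of `E'` as a double sum -/
theorem sum_split {E E' : Finset Ed} (hE : E ⊆ E') (F : Finset Ed → ℝ) :
    ∑ η ∈ E'.powerset, F η = ∑ ξ ∈ (E' \ E).powerset, ∑ η ∈ E.powerset, F (η ∪ ξ) := by
  rw [← Finset.sum_product']
  refine Finset.sum_nbij' (fun η => (η \ E, η ∩ E)) (fun p => p.2 ∪ p.1) ?_ ?_ ?_ ?_ ?_
  · intro η hη
    rw [mem_powerset] at hη
    rw [mem_product, mem_powerset, mem_powerset]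
    exact ⟨sdiff_subset_sdiff hη subset_rfl, inter_subset_right⟩
  · intro p hp
    rw [mem_product, mem_powerset, mem_powerset] at hp
    rw [mem_powerset]
    exact union_subset (hp.2.trans hE) (hp.1.trans sdiff_subset)
  · intro η _
    ext x
    simp only [mem_union, mem_inter, mem_sdiff]
    tauto
  · intro p hp
    rw [mem_product, mem_powerset, mem_powerset] at hp
    obtain ⟨ξ, η⟩ := p
    simp only at hp ⊢
    have h1 : ∀ x ∈ ξ, x ∉ E := fun x hx => (mem_sdiff.mp (hp.1 hx)).2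
    have h2 : ∀ x ∈ η, x ∈ E := fun x hx => hp.2 hx
    refine Prod.ext ?_ ?_
    · ext x
      simp only [mem_union, mem_sdiff]
      constructor
      · rintro ⟨h | h, h3⟩
        · exact absurd (h2 x h) h3
        · exact h
      · intro h
        exact ⟨Or.inr h, h1 x h⟩
    · ext x
      simp only [mem_union, mem_inter]
      constructor
      · rintro ⟨h | h, h3⟩
        · exact h
        · exact absurd h3 (h1 x h)
      · intro h
        exact ⟨Or.inl h, h2 x h⟩
  · intro η _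
    congr 1
    ext x
    simp only [mem_union, mem_inter, mem_sdiff]
    tauto

theorem union_sdiff' {E η ξ : Finset Ed} (hη : η ⊆ E) (hξ : ∀ x ∈ ξ, x ∉ E) :
    (η ∪ ξ) \ E = ξ := by
  ext x
  simp only [mem_union, mem_sdiff]
  constructor
  · rintro ⟨h | h, h3⟩
    · exact absurd (hη h) h3
    · exact h
  · intro h
    exact ⟨Or.inr h, hξ x h⟩

theorem union_inter' {E η ξ : Finset Ed} (hη : η ⊆ E) (hξ : ∀ x ∈ ξ, x ∉ E) :
    (η ∪ ξ) ∩ E = η := by
  ext x
  simp only [mem_union, mem_inter]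
  constructor
  · rintro ⟨h | h, h3⟩
    · exact h
    · exact absurd h3 (hξ x h)
  · intro h
    exact ⟨Or.inl h, hη h⟩

theorem sum_pos {q : ℝ} (hq : 0 < q) (E ξ : Finset Ed) :
    0 < ∑ η ∈ E.powerset, fw q (η ∪ ξ) :=
  Finset.sum_pos (fun η _ => fw_pos hq _) ⟨∅, by simp⟩

theorem Z_pos {q : ℝ} (hq : 0 < q) (E : Finset Ed) :
    0 < ∑ η ∈ E.powerset, fw q η :=
  Finset.sum_pos (fun η _ => fw_pos hq _) ⟨∅, by simp⟩

theorem key {q : ℝ} (hq : 1 ≤ q) {E ξ : Finset Ed} (hξ : ∀ x ∈ ξ, x ∉ E) {G : Finset Ed → ℝ}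
    (hG : MonoOn E G) :
    ex E (fw q) G * ∑ η ∈ E.powerset, fw q (η ∪ ξ) ≤
      ∑ η ∈ E.powerset, fw q (η ∪ ξ) * G η := by
  have hq0 : 0 < q := by linarith
  have hodds : Odds E (fw q) (fun η => fw q (η ∪ ξ)) := by
    intro η η' e h1 h2 h3 h4
    have h5 : e ∉ η' ∪ ξ := by
      rw [mem_union]
      rintro (h | h)
      · exact h4 h
      · exact hξ e h h3
    have := fw_odds hq (E ∪ ξ) η (η' ∪ ξ) e (h1.trans subset_union_left)
      (union_subset_union h2 subset_rfl) (mem_union_left _ h3) h5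
    simp only [insert_union]
    exact this
  have h := dom (w := fw q) (w' := fun η => fw q (η ∪ ξ)) (fun η _ => fw_pos hq0 η)
    (fun η _ => fw_pos hq0 _) hodds hG
  have hpos := sum_pos hq0 E ξ
  have h2 : ex E (fun η => fw q (η ∪ ξ)) G
      = (∑ η ∈ E.powerset, fw q (η ∪ ξ) * G η) / ∑ η ∈ E.powerset, fw q (η ∪ ξ) := rfl
  rw [h2, le_div_iff₀ hpos] at h
  exact h

theorem mem_D {E E' ξ : Finset Ed} (h : ξ ∈ (E' \ E).powerset) : ∀ x ∈ ξ, x ∉ E :=
  fun _ hx => (mem_sdiff.mp (mem_powerset.mp h hx)).2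

theorem energy {q : ℝ} (hq : 1 ≤ q) (E₀ : Finset Ed) : ∀ ζ ξ : Finset Ed, ζ ⊆ E₀ →
    (∀ x ∈ ξ, x ∉ E₀) →
    (1 / (1 + √q)) ^ E₀.card * ∑ η ∈ E₀.powerset, fw q (η ∪ ξ) ≤ fw q (ζ ∪ ξ) := by
  have hq0 : 0 < q := by linarith
  have hs : 1 ≤ √q := Real.one_le_sqrt.mpr hq
  have hs0 : 0 < √q := by linarith
  have hc : 0 < 1 / (1 + √q) := by positivity
  induction E₀ using Finset.induction_on with
  | empty =>
    intro ζ ξ hζ _
    rw [subset_empty] at hζ
    subst hζ
    simp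
  | insert e E₁ he ih =>
    intro ζ ξ hζ hξ
    rw [sum_powerset_insert he, card_insert_of_notMem he]
    have hξe : e ∉ ξ := fun h => hξ e h (mem_insert_self e E₁)
    have hξ1 : ∀ x ∈ ξ, x ∉ E₁ := fun x hx h => hξ x hx (mem_insert_of_mem h)
    have hstep : ∀ X : Finset Ed, e ∉ X →
        1 / (1 + √q) * (fw q X + fw q (insert e X)) ≤ fw q X ∧
        1 / (1 + √q) * (fw q X + fw q (insert e X)) ≤ fw q (insert e X) := by
      intro X hX
      have hX0 := fw_pos hq0 X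
      rw [fw_insert hq0 hX]
      set r : ℝ := (open Classical in if Conn X (src e) (tgt e) then √q else 1 / √q) with hr
      have hr1 : r ≤ √q ∧ 1 ≤ r * √q := by
        rw [hr]
        split_ifs
        · exact ⟨le_rfl, by nlinarith⟩
        · refine ⟨?_, ?_⟩
          · rw [div_le_iff₀ hs0]
            nlinarith
          · rw [one_div, inv_mul_cancel₀ hs0.ne']
      have e1 : 1 / (1 + √q) * (fw q X + r * fw q X) = (1 + r) / (1 + √q) * fw q X := by ring
      rw [e1]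
      constructor
      · have : (1 + r) / (1 + √q) ≤ 1 := by
          rw [div_le_one (by positivity)]
          linarith [hr1.1]
        calc _ ≤ 1 * fw q X := mul_le_mul_of_nonneg_right this hX0.le
          _ = _ := one_mul _
      · have : (1 + r) / (1 + √q) ≤ r := by
          rw [div_le_iff₀ (by positivity)]
          linarith [hr1.2]
        exact mul_le_mul_of_nonneg_right this hX0.le
    have hsum : ∀ F : Finset Ed → ℝ, (∀ η ⊆ E₁, 1 / (1 + √q) *
        (fw q (η ∪ ξ) + fw q (insert e η ∪ ξ)) ≤ F η) →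
        (1 / (1 + √q)) ^ (E₁.card + 1) * (∑ η ∈ E₁.powerset, fw q (η ∪ ξ)
          + ∑ η ∈ E₁.powerset, fw q (insert e η ∪ ξ))
        ≤ (1 / (1 + √q)) ^ E₁.card * ∑ η ∈ E₁.powerset, F η := by
      intro F hF
      rw [pow_succ, mul_assoc, ← Finset.sum_add_distrib, Finset.mul_sum (a := 1 / (1 + √q))]
      apply mul_le_mul_of_nonneg_left _ (by positivity)
      exact Finset.sum_le_sum (fun η hη => hF η (mem_powerset.mp hη))
    have hnot : ∀ η ⊆ E₁, e ∉ η ∪ ξ := by
      intro η hη h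
      rcases mem_union.mp h with h | h
      · exact he (hη h)
      · exact hξe h
    by_cases heζ : e ∈ ζ
    · -- the edge is open
      have h1 : ζ.erase e ⊆ E₁ := by
        intro x hx
        rw [mem_erase] at hx
        rcases mem_insert.mp (hζ hx.2) with h | h
        · exact absurd h hx.1
        · exact h
      have h2 := ih (ζ.erase e) (insert e ξ) h1 (by
        intro y hy
        rcases mem_insert.mp hy with h | h
        · rw [h]; exact he
        · exact hξ1 y h)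
      have h3 : ζ.erase e ∪ insert e ξ = ζ ∪ ξ := by
        ext x
        simp only [mem_union, mem_erase, mem_insert]
        by_cases hx : x = e
        · subst hx; simp [heζ]
        · simp [hx]
      rw [h3] at h2
      refine le_trans (hsum (fun η => fw q (η ∪ insert e ξ)) ?_) h2
      intro η hη
      have h4 : η ∪ insert e ξ = insert e (η ∪ ξ) := union_insert e η ξ
      have h5 : insert e η ∪ ξ = insert e (η ∪ ξ) := insert_union e η ξ
      rw [h4, h5]
      exact (hstep _ (hnot η hη)).2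
    · have h1 : ζ ⊆ E₁ := by
        intro x hx
        rcases mem_insert.mp (hζ hx) with h | h
        · rw [h] at hx; exact absurd hx heζ
        · exact h
      have h2 := ih ζ ξ h1 hξ1
      refine le_trans (hsum (fun η => fw q (η ∪ ξ)) ?_) h2
      intro η hη
      have h5 : insert e η ∪ ξ = insert e (η ∪ ξ) := insert_union e η ξ
      rw [h5]
      exact (hstep _ (hnot η hη)).1

end R4VolAux

open R4VolAux

theorem vol_mono {q : ℝ} (hq : 1 ≤ q) {E E' : Finset Ed} (hE : E ⊆ E') {G : Finset Ed → ℝ}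
    (hG : ∀ η η', η ⊆ η' → G η ≤ G η') : ex E (fw q) G ≤ ex E' (fw q) G := by
  have hq0 : 0 < q := by linarith
  have hZ := Z_pos hq0 E'
  have h2 : ex E' (fw q) G
      = (∑ η ∈ E'.powerset, fw q η * G η) / ∑ η ∈ E'.powerset, fw q η := rfl
  rw [h2, le_div_iff₀ hZ, sum_split hE, sum_split hE, Finset.mul_sum]
  apply Finset.sum_le_sum
  intro ξ hξ
  refine le_trans (key hq (mem_D hξ) (fun η η' h _ => hG η η' h)) ?_
  apply Finset.sum_le_sum
  intro η _
  exact mul_le_mul_of_nonneg_left (hG _ _ subset_union_left) (fw_pos hq0 _).le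

/-- `A` is evaluated on the edges of `E`, `C` on the others -/
theorem mix {q : ℝ} (hq : 1 ≤ q) {E E' : Finset Ed} (hE : E ⊆ E') {A : Finset Ed → Prop}
    (hA : Up A) (C : Finset Ed → Prop) :
    ev E (fw q) A * ev E' (fw q) (fun η => C (η \ E)) ≤
      ev E' (fw q) (fun η => A (η ∩ E) ∧ C (η \ E)) := by
  have hq0 : 0 < q := by linarith
  have hZ := Z_pos hq0 E'
  have h1 : ev E' (fw q) (fun η => C (η \ E))
      = (∑ η ∈ E'.powerset, fw q η * ind (fun η => C (η \ E)) η)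
        / ∑ η ∈ E'.powerset, fw q η := rfl
  have h2 : ev E' (fw q) (fun η => A (η ∩ E) ∧ C (η \ E))
      = (∑ η ∈ E'.powerset, fw q η * ind (fun η => A (η ∩ E) ∧ C (η \ E)) η)
        / ∑ η ∈ E'.powerset, fw q η := rfl
  rw [h1, h2, ← mul_div_assoc, div_le_div_iff_of_pos_right hZ]
  rw [sum_split hE, sum_split hE, Finset.mul_sum]
  apply Finset.sum_le_sum
  intro ξ hξ
  have hξ' := mem_D hξ
  by_cases hC : C ξ
  · have e1 : ∑ η ∈ E.powerset, fw q (η ∪ ξ) * ind (fun η => C (η \ E)) (η ∪ ξ)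
        = ∑ η ∈ E.powerset, fw q (η ∪ ξ) := by
      apply Finset.sum_congr rfl
      intro η hη
      have h3 : C ((η ∪ ξ) \ E) := by
        rw [union_sdiff' (mem_powerset.mp hη) hξ']; exact hC
      unfold ind
      rw [if_pos h3, mul_one]
    have e2 : ∑ η ∈ E.powerset, fw q (η ∪ ξ) * ind (fun η => A (η ∩ E) ∧ C (η \ E)) (η ∪ ξ)
        = ∑ η ∈ E.powerset, fw q (η ∪ ξ) * ind A η := by
      apply Finset.sum_congr rfl
      intro η hη
      have h3 : (A ((η ∪ ξ) ∩ E) ∧ C ((η ∪ ξ) \ E)) ↔ A η := by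
        rw [union_sdiff' (mem_powerset.mp hη) hξ', union_inter' (mem_powerset.mp hη) hξ']
        exact ⟨fun h => h.1, fun h => ⟨h, hC⟩⟩
      unfold ind
      by_cases hAη : A η
      · rw [if_pos hAη, if_pos (h3.mpr hAη)]
      · rw [if_neg hAη, if_neg (fun h => hAη (h3.mp h))]
    rw [e1, e2]
    exact key hq hξ' (mono_ind hA)
  · have e1 : ∑ η ∈ E.powerset, fw q (η ∪ ξ) * ind (fun η => C (η \ E)) (η ∪ ξ) = 0 := by
      apply Finset.sum_eq_zero
      intro η hη
      have h3 : ¬ C ((η ∪ ξ) \ E) := by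
        rw [union_sdiff' (mem_powerset.mp hη) hξ']; exact hC
      unfold ind
      rw [if_neg h3, mul_zero]
    rw [e1, mul_zero]
    apply Finset.sum_nonneg
    intro η _
    apply mul_nonneg (fw_pos hq0 _).le
    unfold ind
    split_ifs <;> norm_num

theorem fin_energy {q : ℝ} (hq : 1 ≤ q) {E₀ E' : Finset Ed} (hE : E₀ ⊆ E') {ζ : Finset Ed}
    (hζ : ζ ⊆ E₀) (C : Finset Ed → Prop) :
    (1 / (1 + √q)) ^ E₀.card * ev E' (fw q) (fun η => C (η \ E₀)) ≤
      ev E' (fw q) (fun η => η ∩ E₀ = ζ ∧ C (η \ E₀)) := by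
  have hq0 : 0 < q := by linarith
  have hZ := Z_pos hq0 E'
  have h1 : ev E' (fw q) (fun η => C (η \ E₀))
      = (∑ η ∈ E'.powerset, fw q η * ind (fun η => C (η \ E₀)) η)
        / ∑ η ∈ E'.powerset, fw q η := rfl
  have h2 : ev E' (fw q) (fun η => η ∩ E₀ = ζ ∧ C (η \ E₀))
      = (∑ η ∈ E'.powerset, fw q η * ind (fun η => η ∩ E₀ = ζ ∧ C (η \ E₀)) η)
        / ∑ η ∈ E'.powerset, fw q η := rfl
  rw [h1, h2, ← mul_div_assoc, div_le_div_iff_of_pos_right hZ]
  rw [sum_split hE, sum_split hE, Finset.mul_sum]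
  apply Finset.sum_le_sum
  intro ξ hξ
  have hξ' := mem_D hξ
  have hnn : ∀ η, 0 ≤ fw q (η ∪ ξ) * ind (fun η => η ∩ E₀ = ζ ∧ C (η \ E₀)) (η ∪ ξ) := by
    intro η
    apply mul_nonneg (fw_pos hq0 _).le
    unfold ind
    split_ifs <;> norm_num
  by_cases hC : C ξ
  · have e1 : ∑ η ∈ E₀.powerset, fw q (η ∪ ξ) * ind (fun η => C (η \ E₀)) (η ∪ ξ)
        = ∑ η ∈ E₀.powerset, fw q (η ∪ ξ) := by
      apply Finset.sum_congr rfl
      intro η hη
      have h3 : C ((η ∪ ξ) \ E₀) := by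
        rw [union_sdiff' (mem_powerset.mp hη) hξ']; exact hC
      unfold ind
      rw [if_pos h3, mul_one]
    rw [e1]
    refine le_trans (energy hq E₀ ζ ξ hζ hξ') ?_
    have h3 : fw q (ζ ∪ ξ)
        = fw q (ζ ∪ ξ) * ind (fun η => η ∩ E₀ = ζ ∧ C (η \ E₀)) (ζ ∪ ξ) := by
      have h4 : (ζ ∪ ξ) ∩ E₀ = ζ ∧ C ((ζ ∪ ξ) \ E₀) := by
        rw [union_inter' hζ hξ', union_sdiff' hζ hξ']
        exact ⟨rfl, hC⟩
      unfold ind
      rw [if_pos h4, mul_one]
    rw [h3]
    exact Finset.single_le_sum (f := fun η => fw q (η ∪ ξ) *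
      ind (fun η => η ∩ E₀ = ζ ∧ C (η \ E₀)) (η ∪ ξ)) (fun η _ => hnn η) (mem_powerset.mpr hζ)
  · have e1 : ∑ η ∈ E₀.powerset, fw q (η ∪ ξ) * ind (fun η => C (η \ E₀)) (η ∪ ξ) = 0 := by
      apply Finset.sum_eq_zero
      intro η hη
      have h3 : ¬ C ((η ∪ ξ) \ E₀) := by
        rw [union_sdiff' (mem_powerset.mp hη) hξ']; exact hC
      unfold ind
      rw [if_neg h3, mul_zero]
    rw [e1, mul_zero]
    exact Finset.sum_nonneg (fun η _ => hnn η)

end P0q
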