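import Pool.Agent.Lib.P0q.Defs2
import Pool.Agent.Lib.P0q.R4Vol

/-!
# I2Sup: monotone limits

`h : LocLim (fun _ => fw q) μ`, `q ≥ 1`, `A` increasing, `E` finite.
`ev_vol`: for `E₁ ⊆ E₂`: `ev E₁ (fw q) (A (η ∩ E)) ≤ ev E₂ (fw q) (A (η ∩ E))` (`vol_mono` for `G η = ind (fun η => A (η ∩ E)) η`, which is monotone).
`sup_le`: every finite `E₁` is contained in `EE n` for large `n` (the ends of its edges are in `box (-n) (n+1)`), so `ev E₁ ≤ ev (EE n)` for all large `n`, and the limit is `μ.real`.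
`lim_exh`: let `F : ℕ → Finset Ed` be a sequence such that for every `m` eventually `EE m ⊆ F n`. Then `ev (F n) (fw q) (A (η ∩ E)) → μ.real`: it is `≤ μ.real` by `sup_le`, and
eventually `≥ ev (EE m) (fw q) (A (η ∩ E))`, which is `≥ μ.real - ε` for suitable `m`.
`lim_inner`: `F n = inner (-n) n ⊇ EE m` for `n > m`.
-/

set_option autoImplicit false

open Finset P0de MeasureTheory Filter Topology

namespace P0q

theorem exists_EE (E : Finset Ed) : ∃ n : ℕ, ∀ m : ℕ, n ≤ m → E ⊆ EE m := by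
  refine ⟨E.sup fun e : Ed => e.1.1.natAbs + e.1.2.natAbs + 2, fun m hm e he => ?_⟩
  have h1 : e.1.1.natAbs + e.1.2.natAbs + 2 ≤ m :=
    le_trans (Finset.le_sup (f := fun e : Ed => e.1.1.natAbs + e.1.2.natAbs + 2) he) hm
  obtain ⟨⟨i, j⟩, c⟩ := e
  simp only at h1
  rw [EE, DualAux.mem_inner, DualAux.mem_box, DualAux.mem_box]
  cases c
  · simp only [src, tgt, dir, cond_false, Prod.mk_add_mk, add_zero]
    omega
  · simp only [src, tgt, dir, cond_true, Prod.mk_add_mk, add_zero]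
    omega

theorem ev_vol {q : ℝ} (hq : 1 ≤ q) {E₁ E₂ : Finset Ed} (h12 : E₁ ⊆ E₂) (E : Finset Ed)
    {A : Finset Ed → Prop} (hA : Up A) :
    ev E₁ (fw q) (fun η => A (η ∩ E)) ≤ ev E₂ (fw q) (fun η => A (η ∩ E)) := by
  refine vol_mono hq h12 fun η η' h => ?_
  unfold ind
  by_cases h1 : A (η ∩ E)
  · have h2 : A (η' ∩ E) := hA _ _ (inter_subset_inter_right h) h1
    rw [if_pos h1, if_pos h2]
  · rw [if_neg h1]
    split_ifs
    · exact zero_le_one
    · exact le_refl _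

theorem sup_le {q : ℝ} (hq : 1 ≤ q) {μ : Measure (Ed → Bool)} (h : LocLim (fun _ => fw q) μ)
    (E₁ E : Finset Ed) {A : Finset Ed → Prop} (hA : Up A) :
    ev E₁ (fw q) (fun η => A (η ∩ E)) ≤ μ.real {ω | A (op E ω)} := by
  obtain ⟨n, hn⟩ := exists_EE E₁
  exact ge_of_tendsto (h E A) (eventually_atTop.2 ⟨n, fun m hm => ev_vol hq (hn m hm) E hA⟩)

theorem lim_exh {q : ℝ} (hq : 1 ≤ q) {μ : Measure (Ed → Bool)} (h : LocLim (fun _ => fw q) μ)
    (F : ℕ → Finset Ed) (hF : ∀ m : ℕ, ∀ᶠ n in atTop, EE m ⊆ F n) (E : Finset Ed)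
    {A : Finset Ed → Prop} (hA : Up A) :
    Tendsto (fun n => ev (F n) (fw q) (fun η => A (η ∩ E))) atTop
      (𝓝 (μ.real {ω | A (op E ω)})) := by
  rw [tendsto_order]
  constructor
  · intro a ha
    obtain ⟨m, hm⟩ := ((h E A).eventually (lt_mem_nhds ha)).exists
    filter_upwards [hF m] with n hn
    exact lt_of_lt_of_le hm (ev_vol hq hn E hA)
  · intro b hb
    exact Eventually.of_forall fun n => lt_of_le_of_lt (sup_le hq h (F n) E hA) hb

theorem lim_inner {q : ℝ} (hq : 1 ≤ q) {μ : Measure (Ed → Bool)} (h : LocLim (fun _ => fw q) μ)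
    (E : Finset Ed) {A : Finset Ed → Prop} (hA : Up A) :
    Tendsto (fun n : ℕ => ev (inner (-(n : ℤ)) n) (fw q) (fun η => A (η ∩ E))) atTop
      (𝓝 (μ.real {ω | A (op E ω)})) := by
  refine lim_exh hq h (fun n : ℕ => inner (-(n : ℤ)) n) (fun m => ?_) E hA
  refine eventually_atTop.2 ⟨m + 1, fun n hn e he => ?_⟩
  rw [EE, DualAux.mem_inner, DualAux.mem_box, DualAux.mem_box] at he
  rw [DualAux.mem_inner, DualAux.mem_box, DualAux.mem_box]
  omega

end P0q
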