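import Pool.Agent.Lib.P0q.I2Sup

/-!
# I3Good: positive association, mixing and finite energy in the limit

`h : LocLim (fun _ => fw q) μ`, `q ≥ 1`.
`lim_fkg`: `fkg_ex` for the weight `fw q` (`fw_odds`) on `EE n` and `g₁ = ind (A (· ∩ E))`, `g₂ = ind (B (· ∩ E))` (the product of the indicators is the indicator of
the conjunction); let `n → ∞`.
`lim_mix`: `N` such that `E ⊆ EE N` and `ev (EE N) (fw q) (A (η ∩ E)) ≥ μ.real {A} - ε` (`LocLim`, `exists_EE`). Let `E'` be disjoint from `EE N`. For `n` large (`EE N ⊆ EE n`): `mix` (R4Vol) with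
`E := EE N`, `E' := EE n`, the increasing event `A₁ η = A (η ∩ E)` and `C₁ ξ = C (ξ ∩ E')`: for `η ⊆ EE n`: `(η ∩ EE N) ∩ E = η ∩ E`, `(η \ EE N) ∩ E' = η ∩ E'`. So
`ev (EE N) (A (η ∩ E)) · ev (EE n) (C (η ∩ E')) ≤ ev (EE n) (A (η ∩ E) ∧ C (η ∩ E'))`. Let `n → ∞`: the right side is the local event
`{ζ ↦ A (ζ ∩ E) ∧ C (ζ ∩ E')}` for the finite set `E ∪ E'` (`op (E ∪ E') ω ∩ E = op E ω`). And `μ.real {C} ≥ 0`.
`lim_fe`: `c = (1/(1+√q))^{|E₀|}`: `fin_energy` with `E' := EE n ⊇ E₀` and `C₁ ξ = C (ξ ∩ E')`, `E'` disjoint from `E₀`.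
-/

set_option autoImplicit false

open Finset P0de MeasureTheory Filter Topology

namespace P0q

namespace I3GoodAux

theorem ev_congr' {E : Finset Ed} {w : Finset Ed → ℝ} {A B : Finset Ed → Prop}
    (h : ∀ η, A η ↔ B η) : ev E w A = ev E w B := by
  have : A = B := funext fun η => propext (h η)
  rw [this]

theorem op_inter {E F : Finset Ed} (h : E ⊆ F) (ω : Ed → Bool) : op F ω ∩ E = op E ω := by
  classical
  ext e
  simp only [op, Finset.mem_inter, Finset.mem_filter]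
  constructor
  · rintro ⟨⟨_, h2⟩, h3⟩
    exact ⟨h3, h2⟩
  · rintro ⟨h1, h2⟩
    exact ⟨⟨h h1, h2⟩, h1⟩

theorem mono_ind' {E F : Finset Ed} {A : Finset Ed → Prop} (hA : Up A) :
    MonoOn F (ind (fun η => A (η ∩ E))) := by
  intro η η' h _
  unfold ind
  by_cases h1 : A (η ∩ E)
  · have h2 : A (η' ∩ E) := hA _ _ (Finset.inter_subset_inter_right h) h1
    simp [h1, h2]
  · by_cases h2 : A (η' ∩ E) <;> simp [h1, h2]

theorem ind_mul (A B : Finset Ed → Prop) (η : Finset Ed) :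
    ind A η * ind B η = ind (fun ξ => A ξ ∧ B ξ) η := by
  unfold ind
  by_cases h1 : A η <;> by_cases h2 : B η <;> simp [h1, h2]

/-- the limit on the union of two finite sets -/
theorem lim2 {w : ℕ → Finset Ed → ℝ} {μ : Measure (Ed → Bool)} (h : LocLim w μ)
    (E E' : Finset Ed) (P : Finset Ed → Finset Ed → Prop) :
    Tendsto (fun n : ℕ => ev (EE n) (w n) (fun η => P (η ∩ E) (η ∩ E'))) atTop
      (𝓝 (μ.real {ω | P (op E ω) (op E' ω)})) := by
  classical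
  have h1 := h (E ∪ E') (fun ζ => P (ζ ∩ E) (ζ ∩ E'))
  have e1 : ∀ ω : Ed → Bool, op (E ∪ E') ω ∩ E = op E ω :=
    fun ω => op_inter Finset.subset_union_left ω
  have e2 : ∀ ω : Ed → Bool, op (E ∪ E') ω ∩ E' = op E' ω :=
    fun ω => op_inter Finset.subset_union_right ω
  have e3 : ∀ η : Finset Ed, η ∩ (E ∪ E') ∩ E = η ∩ E := by
    intro η
    rw [Finset.inter_assoc, Finset.inter_eq_right.2 (Finset.subset_union_left (s₁ := E) (s₂ := E'))]
  have e4 : ∀ η : Finset Ed, η ∩ (E ∪ E') ∩ E' = η ∩ E' := by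
    intro η
    rw [Finset.inter_assoc, Finset.inter_eq_right.2 (Finset.subset_union_right (s₁ := E) (s₂ := E'))]
  simp only [e1, e2, e3, e4] at h1
  exact h1

end I3GoodAux

open I3GoodAux in
theorem lim_fkg {q : ℝ} (hq : 1 ≤ q) {μ : Measure (Ed → Bool)} (h : LocLim (fun _ => fw q) μ)
    (E : Finset Ed) (A B : Finset Ed → Prop) (hA : Up A) (hB : Up B) :
    μ.real {ω | A (op E ω)} * μ.real {ω | B (op E ω)} ≤
      μ.real {ω | A (op E ω) ∧ B (op E ω)} := by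
  have hq0 : 0 < q := by linarith
  refine le_of_tendsto_of_tendsto' ((h E A).mul (h E B)) (h E (fun ζ => A ζ ∧ B ζ)) ?_
  intro n
  have h1 := fkg_ex (E := EE n) (fun η _ => fw_pos hq0 η) (fw_odds hq (EE n))
    (mono_ind' (E := E) (F := EE n) hA) (mono_ind' (E := E) (F := EE n) hB)
  have h2 : (fun η => ind (fun η => A (η ∩ E)) η * ind (fun η => B (η ∩ E)) η)
      = ind (fun η => A (η ∩ E) ∧ B (η ∩ E)) := funext fun η => ind_mul _ _ η
  rw [h2] at h1
  exact h1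

open I3GoodAux in
theorem lim_mix {q : ℝ} (hq : 1 ≤ q) {μ : Measure (Ed → Bool)} (h : LocLim (fun _ => fw q) μ)
    (E : Finset Ed) (A : Finset Ed → Prop) (hA : Up A) (ε : ℝ) (hε : ε > 0) :
    ∃ N : ℕ, ∀ (E' : Finset Ed) (C : Finset Ed → Prop), Disjoint E' (EE N) →
      (μ.real {ω | A (op E ω)} - ε) * μ.real {ω | C (op E' ω)} ≤
        μ.real {ω | A (op E ω) ∧ C (op E' ω)} := by
  classical
  obtain ⟨N₁, hN₁⟩ := exists_EE E
  have h1 : ∀ᶠ n in atTop, μ.real {ω | A (op E ω)} - ε <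
      ev (EE n) (fw q) (fun η => A (η ∩ E)) :=
    (h E A).eventually (lt_mem_nhds (by linarith))
  obtain ⟨N₂, hN₂⟩ := Filter.eventually_atTop.1 h1
  refine ⟨max N₁ N₂, fun E' C hd => ?_⟩
  set N := max N₁ N₂ with hN
  have hE : E ⊆ EE N := hN₁ N (le_max_left _ _)
  have hlow := hN₂ N (le_max_right _ _)
  obtain ⟨N₃, hN₃⟩ := exists_EE (EE N)
  have hC0 : 0 ≤ μ.real {ω | C (op E' ω)} := measureReal_nonneg
  refine le_trans (mul_le_mul_of_nonneg_right hlow.le hC0) ?_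
  have t1 : Tendsto (fun n : ℕ => ev (EE N) (fw q) (fun η => A (η ∩ E)) *
      ev (EE n) (fw q) (fun η => C (η ∩ E'))) atTop
      (𝓝 (ev (EE N) (fw q) (fun η => A (η ∩ E)) * μ.real {ω | C (op E' ω)})) :=
    (h E' C).const_mul _
  have t2 := lim2 h E E' (fun a b => A a ∧ C b)
  refine le_of_tendsto_of_tendsto t1 t2 ?_
  filter_upwards [Filter.eventually_ge_atTop N₃] with n hn
  have hs := hN₃ n hn
  have hup : Up (fun η => A (η ∩ E)) := fun η η' hηη' ha =>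
    hA _ _ (Finset.inter_subset_inter_right hηη') ha
  have h3 := P0q.mix hq hs hup (fun ξ => C (ξ ∩ E'))
  have e1 : ∀ η : Finset Ed, (η \ EE N) ∩ E' = η ∩ E' := by
    intro η
    ext e
    simp only [Finset.mem_inter, Finset.mem_sdiff]
    constructor
    · rintro ⟨⟨a, _⟩, b⟩
      exact ⟨a, b⟩
    · rintro ⟨a, b⟩
      exact ⟨⟨a, Finset.disjoint_left.1 hd b⟩, b⟩
  have e2 : ∀ η : Finset Ed, (η ∩ EE N) ∩ E = η ∩ E := by
    intro η
    rw [Finset.inter_assoc, Finset.inter_eq_right.2 hE]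
  simp only [e1, e2] at h3
  exact h3

open I3GoodAux in
theorem lim_fe {q : ℝ} (hq : 1 ≤ q) {μ : Measure (Ed → Bool)} (h : LocLim (fun _ => fw q) μ)
    (E₀ : Finset Ed) : ∃ c > 0, ∀ ζ ⊆ E₀, ∀ (E' : Finset Ed) (C : Finset Ed → Prop),
    Disjoint E' E₀ → c * μ.real {ω | C (op E' ω)} ≤
      μ.real {ω | op E₀ ω = ζ ∧ C (op E' ω)} := by
  classical
  have hs : 0 ≤ √q := Real.sqrt_nonneg q
  refine ⟨(1 / (1 + √q)) ^ E₀.card, by positivity, ?_⟩
  intro ζ hζ E' C hd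
  obtain ⟨N, hN⟩ := exists_EE E₀
  have t1 : Tendsto (fun n : ℕ => (1 / (1 + √q)) ^ E₀.card *
      ev (EE n) (fw q) (fun η => C (η ∩ E'))) atTop
      (𝓝 ((1 / (1 + √q)) ^ E₀.card * μ.real {ω | C (op E' ω)})) :=
    (h E' C).const_mul _
  have t2 := lim2 h E₀ E' (fun a b => a = ζ ∧ C b)
  refine le_of_tendsto_of_tendsto t1 t2 ?_
  filter_upwards [Filter.eventually_ge_atTop N] with n hn
  have h3 := fin_energy hq (hN n hn) hζ (fun ξ => C (ξ ∩ E'))
  have e1 : ∀ η : Finset Ed, (η \ E₀) ∩ E' = η ∩ E' := by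
    intro η
    ext e
    simp only [Finset.mem_inter, Finset.mem_sdiff]
    constructor
    · rintro ⟨⟨a, _⟩, b⟩
      exact ⟨a, b⟩
    · rintro ⟨a, b⟩
      exact ⟨⟨a, Finset.disjoint_left.1 hd b⟩, b⟩
  simp only [e1] at h3
  exact h3

end P0q
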