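import Pool.Agent.Lib.P0q.I2Sup

/-!
# I4Inv: invariance of the free measure under automorphisms

`pi_ext`: two probability measures on `Ed → Bool` that agree on all sets `{ω | ∀ e ∈ F, ω e = true}`, `F` finite, are equal: these sets form a π-system
(intersection: union of the `F`), they generate the product σ-algebra (`{ω | ω e = true}` generates the σ-algebra of the coordinate `e`, since `Bool` has
the two points `true`, `false`), and contain the whole space (`F = ∅`): `MeasureTheory.ext_of_generate_finite`.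

`lim_inv`: `μ' = μ.map (ω ↦ ω ∘ g)`, `g = φ.g` (measurable: coordinatewise). `μ' {∀ e ∈ F, ω e} = μ {∀ e ∈ F, ω (g e)} = μ {∀ e ∈ F.map g, ω e}`. For a finite set `F` let
`A_F η = (F ⊆ η)` (increasing), `{ω | A_F (op F ω)} = {ω | ∀ e ∈ F, ω e = true}`. For every finite `E₁`: `ev (E₁.map g) (fw q) (F.map g ⊆ η) = ev E₁ (fw q) (F ⊆ η)` by `ex_aut`
(`F.map g ⊆ η.map g ↔ F ⊆ η`). So `ev E₁ (fw q) (F ⊆ η) ≤ μ.real {F.map g open}` (`sup_le`), and with `E₁ = EE n → ∞`: `μ.real {F open} ≤ μ.real {F.map g open}`. The other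
inequality: every finite set `E₂` is `E₁.map g` with `E₁ = E₂.map g⁻¹`, so `ev E₂ (fw q) (F.map g ⊆ η) = ev E₁ (fw q) (F ⊆ η) ≤ μ.real {F open}`; `E₂ = EE n → ∞`.
(In `ev _ _ (fun η => A (η ∩ F))` with `A = (F ⊆ ·)`: `F ⊆ η ∩ F ↔ F ⊆ η`.)
-/

set_option autoImplicit false

open Finset P0de MeasureTheory Filter Topology

namespace P0q

namespace I4InvAux

/-- the event that all the edges of `F` are open -/
def ops (F : Finset Ed) : Set (Ed → Bool) := {ω | ∀ e ∈ F, ω e = true}

theorem gen : (MeasurableSpace.pi : MeasurableSpace (Ed → Bool)) =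
    MeasurableSpace.generateFrom (Set.range ops) := by
  apply le_antisymm
  · refine iSup_le fun e => ?_
    have h1 : @Measurable (Ed → Bool) Bool (MeasurableSpace.generateFrom (Set.range ops)) _
        (fun ω => ω e) := by
      refine measurable_to_bool (MeasurableSpace.measurableSet_generateFrom ⟨{e}, ?_⟩)
      ext ω
      simp [ops]
    exact h1.comap_le
  · refine MeasurableSpace.generateFrom_le ?_
    rintro _ ⟨F, rfl⟩
    have h2 : ops F = ⋂ e ∈ F, (fun ω : Ed → Bool => ω e) ⁻¹' {true} := by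
      ext ω
      simp [ops]
    rw [h2]
    exact Finset.measurableSet_biInter _ fun e _ =>
      (measurable_pi_apply e) (MeasurableSet.singleton _)

theorem meas_map (g : Ed ≃ Ed) : Measurable (fun (ω : Ed → Bool) e => ω (g e)) :=
  measurable_pi_lambda _ fun e => measurable_pi_apply (g e)

theorem ops_eq (F : Finset Ed) : ops F = {ω : Ed → Bool | F ⊆ op F ω} := by
  ext ω
  simp only [ops, Set.mem_ofPred_eq, op]
  constructor
  · intro h e he
    exact Finset.mem_filter.2 ⟨he, h e he⟩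
  · intro h e he
    exact (Finset.mem_filter.1 (h he)).2

theorem up_sub (F : Finset Ed) : Up (fun η => F ⊆ η) := fun _ _ h1 h2 => h2.trans h1

theorem ev_map {q : ℝ} (hq : 0 < q) (φ : Aut) (E F : Finset Ed) :
    ev (E.map φ.g.toEmbedding) (fw q) (fun η => F.map φ.g.toEmbedding ⊆ η ∩ F.map φ.g.toEmbedding)
      = ev E (fw q) (fun η => F ⊆ η ∩ F) := by
  unfold ev
  rw [ex_aut hq φ]
  congr 1
  funext η
  unfold ind
  have h : (F.map φ.g.toEmbedding ⊆ η.map φ.g.toEmbedding ∩ F.map φ.g.toEmbedding) ↔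
      (F ⊆ η ∩ F) := by
    rw [← Finset.map_inter, Finset.map_subset_map]
  by_cases h2 : F ⊆ η ∩ F
  · rw [if_pos h2, if_pos (h.2 h2)]
  · rw [if_neg h2, if_neg fun h3 => h2 (h.1 h3)]

theorem le1 {q : ℝ} (hq : 1 ≤ q) {μ : Measure (Ed → Bool)}
    (h : LocLim (fun _ => fw q) μ) (φ : Aut) (F : Finset Ed) :
    μ.real (ops F) ≤ μ.real (ops (F.map φ.g.toEmbedding)) := by
  rw [ops_eq, ops_eq]
  refine le_of_tendsto (h F (fun η => F ⊆ η)) (Eventually.of_forall fun n => ?_)
  rw [← ev_map (lt_of_lt_of_le one_pos hq) φ]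
  exact sup_le hq h _ _ (up_sub _)

theorem le2 {q : ℝ} (hq : 1 ≤ q) {μ : Measure (Ed → Bool)}
    (h : LocLim (fun _ => fw q) μ) (φ : Aut) (F : Finset Ed) :
    μ.real (ops (F.map φ.g.toEmbedding)) ≤ μ.real (ops F) := by
  rw [ops_eq, ops_eq]
  refine le_of_tendsto (h (F.map φ.g.toEmbedding) (fun η => F.map φ.g.toEmbedding ⊆ η))
    (Eventually.of_forall fun n => ?_)
  have h3 : EE n = ((EE n).map φ.g.symm.toEmbedding).map φ.g.toEmbedding := by
    rw [Finset.map_map]
    ext e
    simp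
  rw [h3, ev_map (lt_of_lt_of_le one_pos hq) φ]
  exact sup_le hq h _ _ (up_sub _)

end I4InvAux

theorem pi_ext {μ ν : Measure (Ed → Bool)} (hμ : IsProbabilityMeasure μ)
    (hν : IsProbabilityMeasure ν)
    (h : ∀ F : Finset Ed, μ {ω | ∀ e ∈ F, ω e = true} = ν {ω | ∀ e ∈ F, ω e = true}) : μ = ν := by
  refine MeasureTheory.ext_of_generate_finite (Set.range I4InvAux.ops) I4InvAux.gen ?_ ?_ ?_
  · rintro _ ⟨F, rfl⟩ _ ⟨G, rfl⟩ _
    refine ⟨F ∪ G, ?_⟩
    ext ω
    simp only [I4InvAux.ops, Set.mem_ofPred_eq, Finset.mem_union, Set.mem_inter_iff]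
    constructor
    · intro h1
      exact ⟨fun e he => h1 e (Or.inl he), fun e he => h1 e (Or.inr he)⟩
    · rintro ⟨h1, h2⟩ e (he | he)
      · exact h1 e he
      · exact h2 e he
  · rintro _ ⟨F, rfl⟩
    exact h F
  · rw [measure_univ, measure_univ]

theorem lim_inv {q : ℝ} (hq : 1 ≤ q) {μ : Measure (Ed → Bool)} (hμ : IsProbabilityMeasure μ)
    (h : LocLim (fun _ => fw q) μ) (φ : Aut) : μ.map (fun ω e => ω (φ.g e)) = μ := by
  have hm := I4InvAux.meas_map φ.g
  refine pi_ext (Measure.isProbabilityMeasure_map hm.aemeasurable) hμ fun F => ?_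
  have hF : MeasurableSet (I4InvAux.ops F) := by
    have h2 : I4InvAux.ops F = ⋂ e ∈ F, (fun ω : Ed → Bool => ω e) ⁻¹' {true} := by
      ext ω
      simp [I4InvAux.ops]
    rw [h2]
    exact Finset.measurableSet_biInter _ fun e _ =>
      (measurable_pi_apply e) (MeasurableSet.singleton _)
  change μ.map (fun ω e => ω (φ.g e)) (I4InvAux.ops F) = μ (I4InvAux.ops F)
  rw [Measure.map_apply hm hF]
  have h4 : (fun (ω : Ed → Bool) e => ω (φ.g e)) ⁻¹' (I4InvAux.ops F) =
      I4InvAux.ops (F.map φ.g.toEmbedding) := by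
    ext ω
    simp only [I4InvAux.ops, Set.mem_preimage, Set.mem_ofPred_eq, Finset.mem_map]
    constructor
    · rintro h1 _ ⟨e, he, rfl⟩
      exact h1 e he
    · intro h1 e he
      exact h1 _ ⟨e, he, rfl⟩
  rw [h4]
  have h5 : μ.real (I4InvAux.ops (F.map φ.g.toEmbedding)) = μ.real (I4InvAux.ops F) :=
    le_antisymm (I4InvAux.le2 hq h φ F) (I4InvAux.le1 hq h φ F)
  unfold Measure.real at h5
  exact (ENNReal.toReal_eq_toReal_iff' (measure_ne_top μ _) (measure_ne_top μ _)).1 h5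

end P0q
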