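import Pool.Agent.Lib.P0q.I2Sup
import Pool.Agent.Lib.P0q.R6Dual

/-!
# I5Dom: the law of the passive configuration dominates the free measure ((6.1) of Q4_proof.md)

`q ≥ 1`, `A` increasing, `E` finite set of passive edges. For `n` large: `E ⊆ inner (-n) n`, and for `η ⊆ EE n`: `dual (-n) n η ∩ E = E.filter (cr f ∉ η)`
(`P0de.DualAux.mem_dual`). Let `D η = A (dual (-n) n η ∩ E)`, a decreasing event.
`ev (inner (-n) n) (fw q) (A (η ∩ E)) = ev (EE n) (rcW q 1 ..) D` (`dual_law` with `G ζ = ind A (ζ ∩ E)`; `(dual η ∩ inner (-n) n) ∩ E = dual η ∩ E`)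
`≤ ev (EE n) (rcW q q ..) D` (`rc_dom` for the increasing complement of `D`, `qb = 1 ≤ q = qb'`; `ev_not`) `= ev (EE n) (fw q) D` (`rc_free_ex`). Let `n → ∞`: the left side tends to
`μ.real {ω | A (op E ω)}` (`lim_inner`), the right side to `μ.real {ω | A (op E (dl ω))}`: `D η = A' (η ∩ E₂)` with `E₂ = E.image cr`,
`A' ζ = A (E.filter fun f => cr f ∉ ζ)`, and `A' (op E₂ ω) = A (op E (dl ω))`.
-/

set_option autoImplicit false

open Finset P0de MeasureTheory Filter Topology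

namespace P0q

namespace I5DomAux

open P0de.DualAux

theorem inner_sub {m n : ℕ} (h : m + 1 ≤ n) : EE m ⊆ inner (-(n : ℤ)) n := by
  intro e he
  have h' : (m : ℤ) + 1 ≤ n := by exact_mod_cast h
  rw [EE, DualAux.mem_inner, DualAux.mem_box, DualAux.mem_box] at he
  rw [DualAux.mem_inner, DualAux.mem_box, DualAux.mem_box]
  obtain ⟨⟨⟨h1, h2⟩, h3, h4⟩, ⟨h5, h6⟩, h7, h8⟩ := he
  refine ⟨⟨⟨?_, ?_⟩, ?_, ?_⟩, ⟨?_, ?_⟩, ?_, ?_⟩ <;> omega

theorem filt_eq (E η : Finset Ed) :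
    (E.filter fun f => cr f ∉ η ∩ E.image cr) = E.filter fun f => cr f ∉ η := by
  apply filter_congr
  intro f hf
  have : cr f ∈ E.image cr := mem_image_of_mem _ hf
  simp [this]

theorem op_dl (E : Finset Ed) (ω : Ed → Bool) :
    (E.filter fun f => cr f ∉ op (E.image cr) ω) = op E (dl ω) := by
  unfold op
  apply filter_congr
  intro f hf
  have : cr f ∈ E.image cr := mem_image_of_mem _ hf
  simp only [mem_filter, this, true_and, dl]
  cases ω (cr f) <;> simp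

theorem dual_inter {n : ℕ} {E : Finset Ed} (hE : E ⊆ inner (-(n : ℤ)) n) (η : Finset Ed) :
    dual (-(n : ℤ)) n η ∩ inner (-(n : ℤ)) n ∩ E = E.filter fun f => cr f ∉ η := by
  ext e
  rw [mem_inter, mem_inter, mem_filter]
  constructor
  · rintro ⟨⟨h1, h2⟩, h3⟩
    exact ⟨h3, (mem_dual h2).1 h1⟩
  · rintro ⟨h1, h2⟩
    exact ⟨⟨(mem_dual (hE h1)).2 h2, hE h1⟩, h1⟩

theorem le_n {q : ℝ} (hq : 1 ≤ q) {n : ℕ} (hn : 0 < n) {E : Finset Ed}
    (hE : E ⊆ inner (-(n : ℤ)) n) {A : Finset Ed → Prop} (hA : Up A) :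
    ev (inner (-(n : ℤ)) n) (fw q) (fun η => A (η ∩ E)) ≤
      ev (EE n) (fw q) (fun η => A (E.filter fun f => cr f ∉ η)) := by
  have hq0 : 0 < q := by linarith
  have hn' : (0 : ℤ) < n := by exact_mod_cast hn
  have h1 := dual_law hq (a := -(n : ℤ)) (b := n) (by linarith) (ind fun η => A (η ∩ E))
  have h2 : (fun η => ind (fun η => A (η ∩ E)) (dual (-(n : ℤ)) n η ∩ inner (-(n : ℤ)) n)) =
      ind (fun η => A (E.filter fun f => cr f ∉ η)) := by
    funext η
    have hi : A (dual (-(n : ℤ)) n η ∩ inner (-(n : ℤ)) n ∩ E) ↔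
        A (E.filter fun f => cr f ∉ η) := by
      rw [dual_inter hE η]
    unfold ind
    by_cases hc : A (E.filter fun f => cr f ∉ η)
    · rw [if_pos (hi.2 hc), if_pos hc]
    · rw [if_neg (fun hh => hc (hi.1 hh)), if_neg hc]
  rw [h2] at h1
  unfold ev
  rw [← h1, ← rc_free_ex hq0]
  have hup : Up (fun η => ¬ A (E.filter fun f => cr f ∉ η)) := by
    intro η η' hs h h'
    refine h (hA _ _ ?_ h')
    intro f hf
    rw [mem_filter] at hf ⊢
    exact ⟨hf.1, fun hh => hf.2 (hs hh)⟩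
  have h3 := rc_dom (q := q) (qb := 1) (qb' := q) le_rfl hq le_rfl (-(n : ℤ)) n
    (mono_ind (E := inner (-(n : ℤ)) ((n : ℤ) + 1)) hup)
  have h4 := ev_not (E := inner (-(n : ℤ)) ((n : ℤ) + 1)) (w := rcW q q (pc q) (-(n : ℤ)) n)
    (fun η _ => rcW_pos hq0 hq0 _ _ η) (fun η => A (E.filter fun f => cr f ∉ η))
  have h5 := ev_not (E := inner (-(n : ℤ)) ((n : ℤ) + 1)) (w := rcW q 1 (pc q) (-(n : ℤ)) n)
    (fun η _ => rcW_pos hq0 one_pos _ _ η) (fun η => A (E.filter fun f => cr f ∉ η))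
  unfold ev at h4 h5
  rw [h4, h5] at h3
  linarith

end I5DomAux

open I5DomAux in
theorem lim_dom {q : ℝ} (hq : 1 ≤ q) {μ : Measure (Ed → Bool)} (h : LocLim (fun _ => fw q) μ)
    (E : Finset Ed) (A : Finset Ed → Prop) (hA : Up A) :
    μ.real {ω | A (op E ω)} ≤ μ.real {ω | A (op E (dl ω))} := by
  have hl := lim_inner hq h E hA
  have hr := h (E.image cr) (fun ζ => A (E.filter fun f => cr f ∉ ζ))
  simp only [op_dl, filt_eq] at hr
  obtain ⟨N, hN⟩ := exists_EE E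
  refine le_of_tendsto_of_tendsto hl hr ?_
  filter_upwards [eventually_ge_atTop (N + 1)] with n hn
  exact le_n hq (by omega) ((hN N le_rfl).trans (inner_sub hn)) hA

end P0q
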