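import Pool.Agent.Lib.P0q.I1Weak
import Pool.Agent.Lib.P0q.I2Sup

/-!
# I6Exist: existence of the free infinite-volume measure

`q ≥ 1`. For an increasing event `A` and finite `E` the sequence `ev (EE n) (fw q) (A (η ∩ E))` is nondecreasing (`ev_vol`) and bounded by 1, so it converges.
Hence it converges for every event `A` evaluated on `η ∩ E`: for `F ⊆ E` the events `{F ⊆ η ∩ E}` are increasing, and `1[η ∩ E = ζ] = ∑_{ζ ⊆ F ⊆ E} (-1)^{|F \ ζ|} 1[F ⊆ η]`
(Möbius inversion, or induction on `|E \ ζ|`: `1[η ∩ E = ζ] = 1[ζ ⊆ η] - ∑_{ζ ⊂ ζ' ⊆ E} 1[η ∩ E = ζ']`), `1[A (η ∩ E)] = ∑_{ζ ⊆ E, A ζ} 1[η ∩ E = ζ]`.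
Let `L(E, A)` be the limit. By compactness of the space of probability measures on the compact space `Ed → Bool`
(`Mathlib.MeasureTheory.Measure.Prokhorov`, instance `CompactSpace (ProbabilityMeasure E)`; `Ed → Bool` is compact, metrizable as a countable product) the sequence
`rcM q q (pc q) (-n) n` (probability measures, `rcM_prob`) has a cluster point `μ` (weak topology). For a local event the indicator `f` is continuous, so `∫ f dμ` is a cluster
point of `∫ f d(rcM n) = ev (EE n) (rcW q q ..) (A (η ∩ E)) = ev (EE n) (fw q) (A (η ∩ E))`, which converges to `L(E, A)`; so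
`μ.real {A (op E ω)} = L(E, A)` and `LocLim (fun _ => fw q) μ`. By `weak_of_locLim`, `locLim_free`: `WeakLim`.
(Other constructions of `μ` are welcome, e.g. an additive content / Riesz representation.)
-/

set_option autoImplicit false

open Finset P0de MeasureTheory Filter Topology

namespace P0q

namespace I6ExistAux

/-- convergence of the free expectations of `g (η ∩ E)` -/
def Cv (q : ℝ) (E : Finset Ed) (g : Finset Ed → ℝ) : Prop :=
  ∃ L : ℝ, Tendsto (fun n : ℕ => ex (EE n) (fw q) (fun η => g (η ∩ E))) atTop (𝓝 L)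

theorem Cv.congr {q : ℝ} {E : Finset Ed} {g g' : Finset Ed → ℝ} (h : Cv q E g)
    (hg : ∀ ζ ⊆ E, g ζ = g' ζ) : Cv q E g' := by
  obtain ⟨L, hL⟩ := h
  have e : (fun n : ℕ => ex (EE n) (fw q) (fun η => g (η ∩ E))) =
      fun n : ℕ => ex (EE n) (fw q) (fun η => g' (η ∩ E)) := by
    funext n
    congr 1
    funext η
    exact hg _ Finset.inter_subset_right
  exact ⟨L, e ▸ hL⟩

theorem Cv.add {q : ℝ} {E : Finset Ed} {g g' : Finset Ed → ℝ} (h : Cv q E g) (h' : Cv q E g') :
    Cv q E (fun ζ => g ζ + g' ζ) := by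
  obtain ⟨L, hL⟩ := h
  obtain ⟨L', hL'⟩ := h'
  refine ⟨L + L', ?_⟩
  have e : (fun n : ℕ => ex (EE n) (fw q) (fun η => g (η ∩ E) + g' (η ∩ E))) =
      fun n : ℕ => ex (EE n) (fw q) (fun η => g (η ∩ E)) +
        ex (EE n) (fw q) (fun η => g' (η ∩ E)) := by
    funext n
    exact ex_add _ _ (fun η => g (η ∩ E)) (fun η => g' (η ∩ E))
  show Tendsto (fun n : ℕ => ex (EE n) (fw q) (fun η => g (η ∩ E) + g' (η ∩ E))) atTop _
  rw [e]
  exact hL.add hL'

theorem Cv.smul {q : ℝ} {E : Finset Ed} {g : Finset Ed → ℝ} (h : Cv q E g) (c : ℝ) :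
    Cv q E (fun ζ => c * g ζ) := by
  obtain ⟨L, hL⟩ := h
  refine ⟨c * L, ?_⟩
  have e : (fun n : ℕ => ex (EE n) (fw q) (fun η => c * g (η ∩ E))) =
      fun n : ℕ => c * ex (EE n) (fw q) (fun η => g (η ∩ E)) := by
    funext n
    exact ex_smul _ _ (fun η => g (η ∩ E)) c
  show Tendsto (fun n : ℕ => ex (EE n) (fw q) (fun η => c * g (η ∩ E))) atTop _
  rw [e]
  exact hL.const_mul c

theorem Cv.zero (q : ℝ) (E : Finset Ed) : Cv q E (fun _ => 0) := by
  refine ⟨0, ?_⟩
  have e : (fun n : ℕ => ex (EE n) (fw q) (fun _ => (0 : ℝ))) = fun _ => 0 := by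
    funext n
    unfold ex
    simp
  show Tendsto (fun n : ℕ => ex (EE n) (fw q) (fun _ => (0 : ℝ))) atTop _
  rw [e]
  exact tendsto_const_nhds

theorem Cv.sum {q : ℝ} {E : Finset Ed} (s : Finset (Finset Ed)) (c : Finset Ed → ℝ)
    (g : Finset Ed → Finset Ed → ℝ) (h : ∀ i ∈ s, Cv q E (g i)) :
    Cv q E (fun ζ => ∑ i ∈ s, c i * g i ζ) := by
  classical
  induction s using Finset.induction_on with
  | empty => exact (Cv.zero q E).congr fun ζ _ => by simp
  | insert a s ha ih =>
    have h1 := ih fun i hi => h i (Finset.mem_insert_of_mem hi)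
    have h2 := (h a (Finset.mem_insert_self a s)).smul (c a)
    exact (h2.add h1).congr fun ζ _ => by rw [Finset.sum_insert ha]

theorem Cv.up {q : ℝ} (hq : 1 ≤ q) (E : Finset Ed) {A : Finset Ed → Prop} (hA : Up A) :
    Cv q E (ind A) := by
  have hq0 : 0 < q := lt_of_lt_of_le one_pos hq
  have hm : Monotone fun n : ℕ => ev (EE n) (fw q) (fun η => A (η ∩ E)) := by
    intro n m hnm
    refine ev_vol hq ?_ E hA
    intro e he
    rw [EE, DualAux.mem_inner, DualAux.mem_box, DualAux.mem_box] at he ⊢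
    have : (n : ℤ) ≤ m := by exact_mod_cast hnm
    omega
  have hb : BddAbove (Set.range fun n : ℕ => ev (EE n) (fw q) (fun η => A (η ∩ E))) := by
    refine ⟨1, ?_⟩
    rintro x ⟨n, rfl⟩
    exact (ev_mem (fun η _ => fw_pos hq0 η) _).2
  exact ⟨_, tendsto_atTop_ciSup hm hb⟩

open Classical in
/-- point indicators -/
noncomputable def pt (ζ₀ ζ : Finset Ed) : ℝ := if ζ = ζ₀ then 1 else 0

theorem Cv.pt {q : ℝ} (hq : 1 ≤ q) (E : Finset Ed) : ∀ (k : ℕ) (ζ₀ : Finset Ed), ζ₀ ⊆ E →
    (E \ ζ₀).card = k → Cv q E (I6ExistAux.pt ζ₀) := by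
  classical
  intro k
  induction k using Nat.strong_induction_on with
  | _ k ih =>
    intro ζ₀ h0 hk
    have hup : Up fun ζ => ζ₀ ⊆ ζ := fun η η' h1 h2 => h2.trans h1
    have h1 := Cv.up hq E hup
    have h2 : Cv q E (fun ζ => ∑ i ∈ E.powerset.filter fun i => ζ₀ ⊂ i,
        (-1) * I6ExistAux.pt i ζ) := by
      refine Cv.sum _ (fun _ => -1) _ fun i hi => ?_
      rw [Finset.mem_filter, Finset.mem_powerset] at hi
      refine ih (E \ i).card ?_ i hi.1 rfl
      rw [← hk]
      refine Finset.card_lt_card ?_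
      refine ⟨Finset.sdiff_subset_sdiff (Finset.Subset.refl E) hi.2.1, fun hh => ?_⟩
      refine hi.2.2 fun e he => ?_
      by_contra hne
      have := hh (Finset.mem_sdiff.2 ⟨hi.1 he, hne⟩)
      exact (Finset.mem_sdiff.1 this).2 he
    refine (h1.add h2).congr fun ζ hζ => ?_
    rw [← Finset.mul_sum]
    have h3 : ∑ i ∈ E.powerset.filter (fun i => ζ₀ ⊂ i), I6ExistAux.pt i ζ =
        if ζ₀ ⊂ ζ then 1 else 0 := by
      unfold I6ExistAux.pt
      rw [Finset.sum_ite_eq]
      simp only [Finset.mem_filter, Finset.mem_powerset, hζ, true_and]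
    rw [h3]
    unfold ind I6ExistAux.pt
    by_cases h4 : ζ = ζ₀
    · subst h4
      rw [if_pos (Finset.Subset.refl ζ), if_neg (fun h : ζ ⊂ ζ => h.2 h.1), if_pos rfl]
      norm_num
    · rw [if_neg h4]
      by_cases h5 : ζ₀ ⊆ ζ
      · have h6 : ζ₀ ⊂ ζ := ⟨h5, fun h => h4 (Finset.Subset.antisymm h h5)⟩
        rw [if_pos h5, if_pos h6]
        norm_num
      · rw [if_neg h5, if_neg (fun h : ζ₀ ⊂ ζ => h5 h.1)]
        norm_num

theorem Cv.all {q : ℝ} (hq : 1 ≤ q) (E : Finset Ed) (A : Finset Ed → Prop) :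
    Cv q E (ind A) := by
  classical
  refine (Cv.sum E.powerset (ind A) I6ExistAux.pt fun i hi =>
    Cv.pt hq E _ i (Finset.mem_powerset.1 hi) rfl).congr fun ζ hζ => ?_
  unfold I6ExistAux.pt
  simp only [mul_ite, mul_one, mul_zero]
  rw [Finset.sum_ite_eq]
  rw [if_pos (Finset.mem_powerset.2 hζ)]

theorem open_ev (E : Finset Ed) (A : Finset Ed → Prop) :
    IsOpen {ω : Ed → Bool | A (op E ω)} := by
  classical
  rw [isOpen_iff_mem_nhds]
  intro ω hω
  have h1 : IsOpen (⋂ e ∈ E, {ω' : Ed → Bool | ω' e = ω e}) := by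
    refine isOpen_biInter_finset fun e _ => ?_
    have hc : Continuous fun ω' : Ed → Bool => ω' e := continuous_apply e
    exact (isOpen_discrete ({ω e} : Set Bool)).preimage hc
  refine Filter.mem_of_superset (h1.mem_nhds ?_) ?_
  · simp
  · intro ω' hω'
    simp only [Set.mem_iInter, Set.mem_setOf_eq] at hω'
    have h2 : op E ω' = op E ω := by
      unfold op
      refine Finset.filter_congr fun e he => ?_
      rw [hω' e he]
    show A (op E ω')
    rw [h2]
    exact hω

theorem clopen_ev (E : Finset Ed) (A : Finset Ed → Prop) :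
    IsClopen {ω : Ed → Bool | A (op E ω)} := by
  refine ⟨?_, open_ev E A⟩
  rw [← isOpen_compl_iff]
  exact open_ev E (fun ζ => ¬ A ζ)

theorem rcM_real {q : ℝ} (hq : 0 < q) (a b : ℤ) (E : Finset Ed) (A : Finset Ed → Prop) :
    (rcM q q (pc q) a b).real {ω | A (op E ω)} =
      ev (inner a (b + 1)) (rcW q q (pc q) a b) (fun η => A (η ∩ E)) := by
  classical
  have hp : ∀ η, 0 < rcW q q (pc q) a b η := rcW_pos hq hq a b
  have hZ : 0 < ∑ η' ∈ (inner a (b + 1)).powerset, rcW q q (pc q) a b η' :=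
    Finset.sum_pos (fun η _ => hp η) ⟨∅, Finset.mem_powerset.2 (Finset.empty_subset _)⟩
  unfold Measure.real rcM
  rw [Measure.finsetSum_apply, ENNReal.toReal_sum]
  · unfold ev ex
    rw [Finset.sum_div]
    refine Finset.sum_congr rfl fun η _ => ?_
    rw [Measure.smul_apply, Measure.dirac_apply' _ (measurable_op E A), smul_eq_mul,
      ENNReal.toReal_mul, ENNReal.toReal_ofReal (div_pos (hp η) hZ).le]
    have h1 : ((Set.indicator {ω : Ed → Bool | A (op E ω)} 1 (conf η) : ENNReal)).toReal =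
        ind (fun η => A (η ∩ E)) η := by
      unfold ind
      by_cases h : A (η ∩ E)
      · rw [if_pos h, Set.indicator_of_mem]
        · simp
        · show A (op E (conf η))
          rw [op_conf]
          exact h
      · rw [if_neg h, Set.indicator_of_notMem]
        · simp
        · show ¬ A (op E (conf η))
          rw [op_conf]
          exact h
    rw [h1]
    ring
  · intro η _
    rw [Measure.smul_apply, smul_eq_mul]
    exact ENNReal.mul_ne_top ENNReal.ofReal_ne_top (measure_ne_top _ _)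

end I6ExistAux

open I6ExistAux in
theorem exists_free {q : ℝ} (hq : 1 ≤ q) : ∃ μ : Measure (Ed → Bool), IsProbabilityMeasure μ ∧
    WeakLim (fun n : ℕ => rcM q q (pc q) (-(n : ℤ)) n) μ := by
  classical
  have hq0 : 0 < q := lt_of_lt_of_le one_pos hq
  let P : ℕ → ProbabilityMeasure (Ed → Bool) := fun n =>
    ⟨rcM q q (pc q) (-(n : ℤ)) n, rcM_prob hq0 hq0 _ _⟩
  obtain ⟨μ, -, hμ⟩ := (isCompact_univ (X := ProbabilityMeasure (Ed → Bool))).ultrafilter_le_nhds
    ((Filter.hyperfilter ℕ).map P) (by simp)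
  have hU : ((Filter.hyperfilter ℕ : Ultrafilter ℕ) : Filter ℕ) ≤ atTop := by
    rw [← Nat.cofinite_eq_atTop]
    exact Filter.hyperfilter_le_cofinite
  have hloc : LocLim (fun n => rcW q q (pc q) (-(n : ℤ)) n) (μ : Measure (Ed → Bool)) := by
    intro E A
    obtain ⟨L, hL⟩ := Cv.all hq E A
    have h1 : Tendsto (fun n : ℕ => ev (EE n) (rcW q q (pc q) (-(n : ℤ)) n)
        (fun η => A (η ∩ E))) atTop (𝓝 L) := by
      have e : (fun n : ℕ => ev (EE n) (rcW q q (pc q) (-(n : ℤ)) n) (fun η => A (η ∩ E))) =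
          fun n : ℕ => ex (EE n) (fw q) (fun η => ind A (η ∩ E)) := by
        funext n
        unfold ev
        exact rc_free_ex hq0 _ _ _
      rw [e]
      exact hL
    let F : BoundedContinuousFunction (Ed → Bool) ℝ :=
      BoundedContinuousFunction.mkOfCompact
        ⟨Set.indicator {ω : Ed → Bool | A (op E ω)} (fun _ => (1 : ℝ)),
          (clopen_ev E A).continuous_indicator continuous_const⟩
    have hF : ∀ ν : Measure (Ed → Bool), ∫ ω, F ω ∂ν = ν.real {ω | A (op E ω)} := by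
      intro ν
      exact integral_indicator_one (measurable_op E A)
    have h2 : Tendsto (fun n : ℕ => ∫ ω, F ω ∂(P n : Measure (Ed → Bool)))
        ((Filter.hyperfilter ℕ : Ultrafilter ℕ) : Filter ℕ)
        (𝓝 (∫ ω, F ω ∂(μ : Measure (Ed → Bool)))) := by
      have h3 := (ProbabilityMeasure.continuous_integral_boundedContinuousFunction F).tendsto μ
      exact h3.comp hμ
    have h4 : Tendsto (fun n : ℕ => ∫ ω, F ω ∂(P n : Measure (Ed → Bool)))
        ((Filter.hyperfilter ℕ : Ultrafilter ℕ) : Filter ℕ) (𝓝 L) := by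
      have e : (fun n : ℕ => ∫ ω, F ω ∂(P n : Measure (Ed → Bool))) =
          fun n : ℕ => ev (EE n) (rcW q q (pc q) (-(n : ℤ)) n) (fun η => A (η ∩ E)) := by
        funext n
        rw [hF]
        exact rcM_real hq0 _ _ E A
      rw [e]
      exact h1.mono_left hU
    have h5 : L = ∫ ω, F ω ∂(μ : Measure (Ed → Bool)) := tendsto_nhds_unique h4 h2
    rw [hF] at h5
    rw [← h5]
    exact h1
  exact ⟨μ, μ.2, weak_of_locLim hq0 hq0 μ.2 hloc⟩

end P0q
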