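import Pool.Agent.Lib.P0q.Defs

/-!
# K2Rel: relative Euler formula (Lemma 2 of Q4_proof.md)

Let `R` and its complement `S = Rᶜ` be unions of clusters, both connected by steps, `R` meets the
boundary, `S` is nonempty. Then `2|R| = 2|M_R| + #(boundary corners touching R)`.

Notation: every corner `{x, y}` is written with its active end first, `C_R` is the set of pairs
`c : V × V` with `pr c.1 = true`, `pr c.2 = false`, `sq c.1 c.2` nonempty, and `c.1 ∈ R ∨ c.2 ∈ R`.
Equations: for every square `e ∈ M_R` (own diagonal in `R`): the sum of its four corners; for every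
square `e ∉ M_R` (own diagonal in `S`) and every vertex `r ∈ R` of `e` (so `r = en e (!ω e) i` is an
end of the other diagonal): the sum of the two corners of `e` at `r`. `A` = number of such pairs
`(e, i)`. Consider the linear map `Φ : (C_R → ZMod 2) → (M_R ⊕ A → ZMod 2)`.

(1) `Ker Φ` has dimension `|R|`. The linear map `Ψ : (R → ZMod 2) → (C_R → ZMod 2)`,
`γ ↦ (c ↦ γ(c.1)[c.1 ∈ R] + γ(c.2)[c.2 ∈ R])` is injective: if it is `0`, extend `γ` by `0` to `V`; then
`γ` takes the same value at the two ends of every corner (corners inside `S` trivially), so `γ` is constant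
(`IsDisc.conn` for `T = {γ = 0}`, nonempty since `S` is nonempty), hence `0`. Its range is `Ker Φ`: each
`Ψ γ` satisfies the equations (four corners of `e`: every end is counted twice; two corners at the vertex
`r ∈ R` of a square with own diagonal in `S`: `γ(r) + γ(r) = 0`). Conversely, let `ε ∈ Ker Φ`, extend `ε` by `0`
to the corners inside `S` (and to all pairs which are no corners). All square sums vanish (for `e ∉ M_R`: the
four corners are grouped at the two ends of the other diagonal; a group at `r ∈ R` is an equation, a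
group at `r ∈ S` consists of corners inside `S`). By `IsDisc.pot` `ε = dγ`. `γ` is constant on `S`: corners
inside `S` have `ε = 0`; the ends `s, s'` of an own diagonal in `S` of the square `e`: let `r` be a vertex of the
other diagonal; the two corners `{r, s}`, `{r, s'}` have `ε`-sum `0` (an equation if `r ∈ R`, both `0` if
`r ∈ S`), so `γ(s) = γ(s')`; `S` is connected by steps (`CS`). Replace `γ` by `γ + const`, so that
`γ = 0` on `S`: then `ε = Ψ(γ|R)`.

(2) `Φ` is surjective. Equivalently the transposed map is injective (`LinearMap.dualMap` /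
`LinearMap.range_eq_top`..., or: a linear combination of the equations that vanishes is trivial). Let
`t_e` (`e ∈ M_R`), `t_{e,r}` be coefficients such that the combination of the equations is `0`. For `r ∈ R` and a square `e`
at `r` put `t_r(e) := t_e` if `e ∈ M_R`, `t_{e,r}` otherwise. For a corner `c` at `r ∈ R` the coefficient of `ε(c)`
in the combination is the sum of `t_r(e)` over the squares `e` containing `c` (one or two squares). So
`t_r(e) = t_r(e')` if `c` lies in `e ≠ e'`, and by `IsDisc.star` `t_r` is constant on the squares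
at `r`: call it `τ(r)`. If `r, r' ∈ R` form a corner, take a square `e` containing it: every corner of `e` meets the
own diagonal of `e`, so `e ∈ M_R` and `τ(r) = t_e = τ(r')`. If `r, r'` are the ends of an own diagonal of `e`, the same. So `τ` is
constant on `R` (`CS`). A boundary corner at a vertex `r ∈ R ∩ bd` (exists by `bc_two`) lies in exactly one square:
its coefficient is `τ(r) = 0`. So all coefficients vanish (each `e ∈ M_R` contains a vertex of `R`).

(3) So `|C_R| = |R| + |M_R| + A`. Count the pairs (square, corner of it in `C_R`): squares in `M_R` have 4 such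
corners, the others 2 for each `r`: `4|M_R| + 2A`. Corners in `C_R` lie in two squares, except the boundary corners
touching `R` (one square): `2|C_R| - |bT R|`. Subtract.

Any other proof is welcome (for instance with `Module.finrank`, `LinearMap.finrank_range_add_finrank_ker`;
cf. `Pool/Agent/Lib/P0de4a2/Lin.lean`).
-/

set_option autoImplicit false

open Finset P0de

namespace P0q

/-! ### auxiliary lemmas -/

namespace K2RelAux

variable {V M : Type} [Fintype V] [DecidableEq V] [Fintype M] [DecidableEq M] (Q : Quad V M)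

/-- the corners of the square `e` -/
def K (e : M) : Finset (V × V) :=
  univ.filter fun c => Q.pr c.1 = true ∧ Q.pr c.2 = false ∧ Q.on e c.1 ∧ Q.on e c.2

/-- the corners touching `R` -/
def CR (R : Finset V) : Finset (V × V) :=
  univ.filter fun c => (Q.pr c.1 = true ∧ Q.pr c.2 = false ∧ (Q.sq c.1 c.2).Nonempty) ∧
    (c.1 ∈ R ∨ c.2 ∈ R)

/-- the pairs of a square with own diagonal outside `R` and a vertex of it in `R` -/
def AR (ω : M → Bool) (R : Finset V) : Finset (M × V) :=
  univ.filter fun p => p.1 ∉ Q.MS ω R ∧ p.2 ∈ R ∧ Q.on p.1 p.2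

/-- extension by zero -/
def ext {α : Type} [DecidableEq α] (S : Finset α) (t : S → ZMod 2) (a : α) : ZMod 2 :=
  if h : a ∈ S then t ⟨a, h⟩ else 0

theorem ext_mem {α : Type} [DecidableEq α] {S : Finset α} (t : S → ZMod 2) {a : α} (h : a ∈ S) :
    ext S t a = t ⟨a, h⟩ := by simp [ext, h]

theorem ext_not {α : Type} [DecidableEq α] {S : Finset α} (t : S → ZMod 2) {a : α} (h : a ∉ S) :
    ext S t a = 0 := by simp [ext, h]

theorem sum_ext {α : Type} [Fintype α] [DecidableEq α] (S : Finset α) (t : S → ZMod 2)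
    (f : α → ZMod 2) : ∑ a : S, f a * t a = ∑ a, f a * ext S t a := by
  rw [← Finset.sum_subset (Finset.subset_univ S)]
  · rw [← Finset.sum_coe_sort S (fun a => f a * ext S t a)]
    apply Finset.sum_congr rfl
    intro a _
    rw [ext_mem t a.2]
  · intro a _ ha
    rw [ext_not t ha, mul_zero]

theorem on_iff (hQ : Q.IsDisc) (e : M) (x : V) : Q.on e x ↔ ∃ i, Q.en e (Q.pr x) i = x := by
  constructor
  · rintro ⟨c, i, rfl⟩
    exact ⟨i, by rw [hQ.pr_en]⟩
  · rintro ⟨i, h⟩
    exact ⟨_, i, h⟩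

theorem on_en (e : M) (c i : Bool) : Q.on e (Q.en e c i) := ⟨c, i, rfl⟩

theorem en_inj (hQ : Q.IsDisc) (e : M) (c : Bool) {i j : Bool} (h : Q.en e c i = Q.en e c j) :
    i = j := by
  cases i <;> cases j
  · rfl
  · exact absurd h (hQ.en_ne e c)
  · exact absurd h.symm (hQ.en_ne e c)
  · rfl

theorem en_ne_not (hQ : Q.IsDisc) (e e' : M) (c i j : Bool) : Q.en e c i ≠ Q.en e' (!c) j := by
  intro h
  have h1 := congrArg Q.pr h
  rw [hQ.pr_en, hQ.pr_en] at h1
  cases c <;> simp at h1

/-- the corner of `e` between the `i`-th end of the diagonal `b` and the `j`-th end of the other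
diagonal -/
def cp (e : M) (b i j : Bool) : V × V :=
  if b then (Q.en e true i, Q.en e false j) else (Q.en e true j, Q.en e false i)

theorem K_eq (hQ : Q.IsDisc) (e : M) :
    K Q e = univ.image (fun p : Bool × Bool => (Q.en e true p.1, Q.en e false p.2)) := by
  ext ⟨x, y⟩
  simp only [K, mem_filter, mem_univ, true_and, mem_image, Prod.exists, Prod.mk.injEq]
  constructor
  · rintro ⟨h1, h2, h3, h4⟩
    obtain ⟨i, hi⟩ := (on_iff Q hQ e x).1 h3
    obtain ⟨j, hj⟩ := (on_iff Q hQ e y).1 h4
    rw [h1] at hi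
    rw [h2] at hj
    exact ⟨i, j, hi, hj⟩
  · rintro ⟨i, j, rfl, rfl⟩
    exact ⟨hQ.pr_en _ _ _, hQ.pr_en _ _ _, ⟨_, _, rfl⟩, ⟨_, _, rfl⟩⟩

theorem sum_K {A : Type} [AddCommMonoid A] (hQ : Q.IsDisc) (e : M) (b : Bool) (f : V × V → A) :
    ∑ c ∈ K Q e, f c = ∑ i, ∑ j, f (cp Q e b i j) := by
  have h : ∑ c ∈ K Q e, f c = ∑ i, ∑ j, f (Q.en e true i, Q.en e false j) := by
    rw [K_eq Q hQ, sum_image, Fintype.sum_prod_type]
    rintro ⟨i, j⟩ - ⟨i', j'⟩ - h
    simp only [Prod.mk.injEq] at h
    rw [en_inj Q hQ e _ h.1, en_inj Q hQ e _ h.2]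
  rw [h]
  cases b
  · rw [Finset.sum_comm]
    rfl
  · rfl

theorem cp_mem_K (hQ : Q.IsDisc) (e : M) (b i j : Bool) : cp Q e b i j ∈ K Q e := by
  rw [K_eq Q hQ]
  cases b
  · exact mem_image.2 ⟨(j, i), mem_univ _, rfl⟩
  · exact mem_image.2 ⟨(i, j), mem_univ _, rfl⟩

theorem mem_K_cp (hQ : Q.IsDisc) {e : M} (b : Bool) {c : V × V} (hc : c ∈ K Q e) :
    ∃ i j, c = cp Q e b i j := by
  rw [K_eq Q hQ, mem_image] at hc
  obtain ⟨⟨i, j⟩, -, rfl⟩ := hc
  cases b
  · exact ⟨j, i, rfl⟩
  · exact ⟨i, j, rfl⟩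

theorem cp_ends (e : M) (b i j : Bool) (P : V → Prop) :
    (P (cp Q e b i j).1 ∨ P (cp Q e b i j).2) ↔ (P (Q.en e b i) ∨ P (Q.en e (!b) j)) := by
  cases b
  · exact Or.comm
  · exact Iff.rfl

theorem mem_K_iff {e : M} {c : V × V} :
    c ∈ K Q e ↔ Q.pr c.1 = true ∧ Q.pr c.2 = false ∧ e ∈ Q.sq c.1 c.2 := by
  simp [K, Quad.sq]

theorem cp_mem_CR (hQ : Q.IsDisc) {R : Finset V} (e : M) (b i j : Bool) :
    cp Q e b i j ∈ CR Q R ↔ (Q.en e b i ∈ R ∨ Q.en e (!b) j ∈ R) := by
  have h := (mem_K_iff Q).1 (cp_mem_K Q hQ e b i j)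
  simp only [CR, mem_filter, mem_univ, true_and]
  rw [cp_ends Q e b i j (fun x => x ∈ R)]
  constructor
  · exact fun h => h.2
  · exact fun h' => ⟨⟨h.1, h.2.1, e, h.2.2⟩, h'⟩

theorem exists_K {R : Finset V} {c : V × V} (hc : c ∈ CR Q R) : ∃ e, c ∈ K Q e := by
  simp only [CR, mem_filter, mem_univ, true_and] at hc
  obtain ⟨⟨h1, h2, e, he⟩, -⟩ := hc
  exact ⟨e, (mem_K_iff Q).2 ⟨h1, h2, he⟩⟩

variable {ω : M → Bool} {R : Finset V}

theorem mem_MS {e : M} : e ∈ Q.MS ω R ↔ Q.en e (ω e) false ∈ R := by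
  simp [Quad.MS]

theorem own_iff (hU : Q.UC ω R) (e : M) (i : Bool) : Q.en e (ω e) i ∈ R ↔ e ∈ Q.MS ω R := by
  rw [mem_MS]
  cases i
  · rfl
  · exact (hU e).symm

theorem other_of_on (hQ : Q.IsDisc) (hU : Q.UC ω R) {e : M} (he : e ∉ Q.MS ω R) {x : V}
    (hx : x ∈ R) (ho : Q.on e x) : ∃ k, x = Q.en e (!(ω e)) k := by
  obtain ⟨c, k, rfl⟩ := ho
  by_cases hc : c = ω e
  · subst hc
    exact absurd ((own_iff Q hU e k).1 hx) he
  · have : c = !(ω e) := by
      cases c <;> cases h : ω e <;> simp_all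
    exact ⟨k, by rw [this]⟩

/-- the matrix of the equations -/
def Mx (ω : M → Bool) (R : Finset V) : Matrix (Q.MS ω R ⊕ AR Q ω R) (CR Q R) (ZMod 2) :=
  fun p c => match p with
    | Sum.inl e => if (c : V × V) ∈ K Q e then 1 else 0
    | Sum.inr a => if (c : V × V) ∈ K Q a.1.1 ∧ ((c : V × V).1 = a.1.2 ∨ (c : V × V).2 = a.1.2)
        then 1 else 0

theorem mulVec_inl (hQ : Q.IsDisc) (t : CR Q R → ZMod 2) (e : Q.MS ω R) (b : Bool) :
    (Mx Q ω R).mulVec t (Sum.inl e) = ∑ i, ∑ j, ext (CR Q R) t (cp Q e b i j) := by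
  rw [← sum_K Q hQ (e : M) b]
  simp only [Matrix.mulVec, dotProduct, Mx]
  rw [sum_ext (CR Q R) t (fun c => if c ∈ K Q (e : M) then 1 else 0)]
  simp [Finset.sum_ite_mem]

theorem mulVec_inr (hQ : Q.IsDisc) (t : CR Q R → ZMod 2) (a : AR Q ω R) {k b : Bool}
    (hb : b = ω a.1.1) (hk : a.1.2 = Q.en a.1.1 (!b) k) :
    (Mx Q ω R).mulVec t (Sum.inr a) = ∑ i, ext (CR Q R) t (cp Q a.1.1 b i k) := by
  have h1 : (Mx Q ω R).mulVec t (Sum.inr a) =
      ∑ c ∈ K Q a.1.1, if (c.1 = a.1.2 ∨ c.2 = a.1.2) then ext (CR Q R) t c else 0 := by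
    simp only [Matrix.mulVec, dotProduct, Mx]
    rw [sum_ext (CR Q R) t (fun c => if c ∈ K Q a.1.1 ∧ (c.1 = a.1.2 ∨ c.2 = a.1.2) then 1 else 0)]
    rw [← Finset.sum_filter, ← Finset.sum_subset (Finset.subset_univ
      ((K Q a.1.1).filter fun c => c.1 = a.1.2 ∨ c.2 = a.1.2))]
    · apply Finset.sum_congr rfl
      intro c hc
      rw [mem_filter] at hc
      rw [if_pos hc, one_mul]
    · intro c _ hc
      rw [mem_filter] at hc
      rw [if_neg hc, zero_mul]
  rw [h1, sum_K Q hQ a.1.1 b]
  apply Finset.sum_congr rfl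
  intro i _
  have h2 : ∀ j, ((cp Q a.1.1 b i j).1 = a.1.2 ∨ (cp Q a.1.1 b i j).2 = a.1.2) ↔ j = k := by
    intro j
    rw [cp_ends Q a.1.1 b i j (fun x => x = a.1.2), hk]
    constructor
    · rintro (h | h)
      · exact absurd h (en_ne_not Q hQ _ _ _ _ _)
      · exact en_inj Q hQ _ _ h
    · rintro rfl
      exact Or.inr rfl
  simp only [h2]
  simp


/-! ### the kernel -/

/-- the gradient map -/
def Psi (R : Finset V) : (R → ZMod 2) →ₗ[ZMod 2] (CR Q R → ZMod 2) where
  toFun γ c := ext R γ (c : V × V).1 + ext R γ (c : V × V).2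
  map_add' γ δ := by
    funext c
    simp only [Pi.add_apply]
    have h : ∀ x, ext R (γ + δ) x = ext R γ x + ext R δ x := by
      intro x
      by_cases hx : x ∈ R
      · simp [ext_mem _ hx]
      · simp [ext_not _ hx]
    rw [h, h]
    ring
  map_smul' a γ := by
    funext c
    simp only [Pi.smul_apply, smul_eq_mul, RingHom.id_apply]
    have h : ∀ x, ext R (a • γ) x = a * ext R γ x := by
      intro x
      by_cases hx : x ∈ R
      · simp [ext_mem _ hx]
      · simp [ext_not _ hx]
    rw [h, h]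
    ring

theorem Psi_cp (hQ : Q.IsDisc) (γ : R → ZMod 2) (e : M) (b i j : Bool) :
    ext (CR Q R) (Psi Q R γ) (cp Q e b i j) =
      ext R γ (Q.en e b i) + ext R γ (Q.en e (!b) j) := by
  by_cases h : cp Q e b i j ∈ CR Q R
  · rw [ext_mem _ h]
    change ext R γ (cp Q e b i j).1 + ext R γ (cp Q e b i j).2 = _
    cases b
    · exact add_comm _ _
    · rfl
  · rw [ext_not _ h]
    rw [cp_mem_CR Q hQ] at h
    push Not at h
    rw [ext_not _ h.1, ext_not _ h.2, add_zero]

theorem Psi_inj (hQ : Q.IsDisc) (hS : Rᶜ.Nonempty) : Function.Injective (Psi Q R) := by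
  rw [injective_iff_map_eq_zero]
  intro γ hγ
  have h1 : ∀ e i j, ext R γ (Q.en e true i) = ext R γ (Q.en e false j) := by
    intro e i j
    have h2 := Psi_cp Q hQ γ e true i j
    rw [hγ] at h2
    have h3 : ext (CR Q R) (0 : CR Q R → ZMod 2) (cp Q e true i j) = 0 := by
      by_cases h : cp Q e true i j ∈ CR Q R
      · rw [ext_mem _ h]; rfl
      · rw [ext_not _ h]
    rw [h3] at h2
    exact CharTwo.add_eq_zero.1 h2.symm
  obtain ⟨s, hs⟩ := hS
  rw [mem_compl] at hs
  have h4 := hQ.conn (univ.filter fun x => ext R γ x = 0)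
    ⟨s, by rw [mem_filter]; exact ⟨mem_univ _, ext_not _ hs⟩⟩ (by
      intro e i j
      simp only [mem_filter, mem_univ, true_and]
      rw [h1 e i j])
  funext x
  have h5 := h4 x
  rw [mem_filter] at h5
  rw [← ext_mem γ x.2]
  exact h5.2

theorem Psi_ker (hQ : Q.IsDisc) (hU : Q.UC ω R) (γ : R → ZMod 2) :
    (Mx Q ω R).mulVec (Psi Q R γ) = 0 := by
  funext p
  rcases p with e | a
  · rw [mulVec_inl Q hQ _ e true]
    simp only [Psi_cp Q hQ, Fintype.sum_bool, Pi.zero_apply]
    generalize ext R γ (Q.en (e : M) true true) = u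
    generalize ext R γ (Q.en (e : M) true false) = v
    generalize ext R γ (Q.en (e : M) (!true) true) = w
    generalize ext R γ (Q.en (e : M) (!true) false) = z
    have h : u + w + (u + z) + (v + w + (v + z)) = (u + u) + (v + v) + (w + w) + (z + z) := by ring
    rw [h]
    simp [CharTwo.add_self_eq_zero]
  · have ha := a.2
    simp only [AR, mem_filter, mem_univ, true_and] at ha
    obtain ⟨k, hk⟩ := other_of_on Q hQ hU ha.1 ha.2.1 ha.2.2
    rw [mulVec_inr Q hQ _ a rfl hk]
    simp only [Psi_cp Q hQ, Fintype.sum_bool, Pi.zero_apply]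
    have h1 : ∀ i, ext R γ (Q.en a.1.1 (ω a.1.1) i) = 0 := by
      intro i
      apply ext_not
      intro h
      exact ha.1 ((own_iff Q hU _ i).1 h)
    rw [h1, h1, zero_add, CharTwo.add_self_eq_zero]

theorem ker_le (hQ : Q.IsDisc) (hU : Q.UC ω R) (h2 : Q.CS ω Rᶜ) (hS : Rᶜ.Nonempty)
    (t : CR Q R → ZMod 2) (ht : (Mx Q ω R).mulVec t = 0) : ∃ γ, Psi Q R γ = t := by
  set F := ext (CR Q R) t with hF
  -- the group sums for the squares outside
  have hout : ∀ e, e ∉ Q.MS ω R → ∀ k, ∑ i, F (cp Q e (ω e) i k) = 0 := by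
    intro e he k
    by_cases hk : Q.en e (!(ω e)) k ∈ R
    · have ha : (e, Q.en e (!(ω e)) k) ∈ AR Q ω R := by
        simp only [AR, mem_filter, mem_univ, true_and]
        exact ⟨he, hk, on_en Q _ _ _⟩
      have h3 := mulVec_inr Q hQ t ⟨_, ha⟩ (b := ω e) (k := k) rfl rfl
      rw [ht] at h3
      exact h3.symm
    · apply Finset.sum_eq_zero
      intro i _
      apply ext_not
      rw [cp_mem_CR Q hQ]
      push Not
      exact ⟨fun h => he ((own_iff Q hU _ i).1 h), hk⟩
  have hall : ∀ e, ∑ i : Bool, ∑ j : Bool,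
      (fun x y => F (x, y)) (Q.en e true i) (Q.en e false j) = 0 := by
    intro e
    have h3 : ∑ i : Bool, ∑ j : Bool, (fun x y => F (x, y)) (Q.en e true i) (Q.en e false j) =
        ∑ c ∈ K Q e, F c := (sum_K Q hQ e true F).symm
    rw [h3]
    by_cases he : e ∈ Q.MS ω R
    · have h4 := mulVec_inl Q hQ t ⟨e, he⟩ true
      rw [ht] at h4
      rw [sum_K Q hQ e true F]
      exact h4.symm
    · rw [sum_K Q hQ e (ω e) F, Finset.sum_comm]
      exact Finset.sum_eq_zero fun k _ => hout e he k
  obtain ⟨γ, hγ⟩ := hQ.pot (fun x y => F (x, y)) hall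
  have hcp : ∀ e b i j, F (cp Q e b i j) = γ (Q.en e b i) + γ (Q.en e (!b) j) := by
    intro e b i j
    cases b
    · rw [add_comm]
      exact hγ e j i
    · exact hγ e i j
  -- `γ` is constant on the complement
  have hstep : ∀ x y, x ∈ Rᶜ → y ∈ Rᶜ → (Q.cor x y ∨ Q.dg ω x y) → γ x = γ y := by
    intro x y hx hy h
    rw [mem_compl] at hx hy
    rcases h with ⟨hp, e, he⟩ | ⟨e, i, rfl, rfl⟩
    · simp only [Quad.sq, mem_filter, mem_univ, true_and] at he
      obtain ⟨i, hi⟩ := (on_iff Q hQ e x).1 he.1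
      obtain ⟨j, hj⟩ := (on_iff Q hQ e y).1 he.2
      have hp' : Q.pr y = !(Q.pr x) := by
        cases h1 : Q.pr x <;> cases h2 : Q.pr y <;> simp_all
      rw [hp'] at hj
      have h3 := hcp e (Q.pr x) i j
      rw [hi, hj] at h3
      have h4 : F (cp Q e (Q.pr x) i j) = 0 := by
        apply ext_not
        rw [cp_mem_CR Q hQ, hi, hj]
        tauto
      rw [h4] at h3
      exact CharTwo.add_eq_zero.1 h3.symm
    · have he : e ∉ Q.MS ω R := fun h => hx ((own_iff Q hU _ i).2 h)
      have h3 := hout e he false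
      rw [Fintype.sum_bool, hcp, hcp] at h3
      have h4 : γ (Q.en e (ω e) true) + γ (Q.en e (ω e) false) = 0 := by
        rw [← h3]
        generalize γ (Q.en e (!(ω e)) false) = w
        have : γ (Q.en e (ω e) true) + w + (γ (Q.en e (ω e) false) + w) =
          γ (Q.en e (ω e) true) + γ (Q.en e (ω e) false) + (w + w) := by ring
        rw [this, CharTwo.add_self_eq_zero, add_zero]
      have h5 := CharTwo.add_eq_zero.1 h4
      cases i
      · exact h5.symm
      · exact h5
  obtain ⟨s, hs⟩ := hS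
  have hconst : ∀ y ∈ Rᶜ, γ y = γ s := by
    intro y hy
    have h3 := h2 s hs y hy
    clear hy
    induction h3 with
    | refl => rfl
    | tail _ hbc ih => rw [← hstep _ _ hbc.1 hbc.2.1 hbc.2.2, ih]
  refine ⟨fun x => γ x + γ s, ?_⟩
  have hext : ∀ x, ext R (fun x : R => γ x + γ s) x = γ x + γ s := by
    intro x
    by_cases hx : x ∈ R
    · rw [ext_mem _ hx]
    · rw [ext_not _ hx, hconst x (mem_compl.2 hx), CharTwo.add_self_eq_zero]
  funext c
  obtain ⟨e, he⟩ := exists_K Q c.2
  obtain ⟨i, j, hc⟩ := mem_K_cp Q hQ true he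
  have h3 := Psi_cp Q hQ (fun x : R => γ x + γ s) e true i j
  rw [← hc, ext_mem _ c.2] at h3
  have h4 := hcp e true i j
  rw [← hc, hF, ext_mem _ c.2] at h4
  change Psi Q R (fun x : R => γ x + γ s) c = t c at *
  rw [show (Psi Q R (fun x : R => γ x + γ s)) c = _ from h3, show t c = _ from h4, hext, hext]
  generalize γ (Q.en e true i) = u
  generalize γ (Q.en e (!true) j) = v
  generalize γ s = w
  have : u + w + (v + w) = u + v + (w + w) := by ring
  rw [this, CharTwo.add_self_eq_zero, add_zero]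

theorem rank_add (hQ : Q.IsDisc) (hU : Q.UC ω R) (h2 : Q.CS ω Rᶜ) (hS : Rᶜ.Nonempty) :
    (Mx Q ω R).rank + R.card = (CR Q R).card := by
  have hker : LinearMap.ker (Mx Q ω R).mulVecLin = LinearMap.range (Psi Q R) := by
    ext t
    rw [LinearMap.mem_ker, LinearMap.mem_range, Matrix.mulVecLin_apply]
    constructor
    · exact ker_le Q hQ hU h2 hS t
    · rintro ⟨γ, rfl⟩
      exact Psi_ker Q hQ hU γ
  have h3 := LinearMap.finrank_range_add_finrank_ker (Mx Q ω R).mulVecLin
  rw [hker, LinearMap.finrank_range_of_inj (Psi_inj Q hQ hS)] at h3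
  simpa [Matrix.rank] using h3

/-! ### the equations are independent -/

/-- the coefficient at a square and a vertex -/
def ct (t : Q.MS ω R ⊕ AR Q ω R → ZMod 2) (e : M) (x : V) : ZMod 2 :=
  ext (Q.MS ω R) (fun e => t (Sum.inl e)) e + ext (AR Q ω R) (fun a => t (Sum.inr a)) (e, x)

theorem vecMul_eq (hQ : Q.IsDisc) (hU : Q.UC ω R) (t : Q.MS ω R ⊕ AR Q ω R → ZMod 2)
    (c : CR Q R) (x y : V) (hx : x ∈ R) (hc : ((c : V × V) = (x, y)) ∨ ((c : V × V) = (y, x))) :
    (Mx Q ω R).transpose.mulVec t c = ∑ e ∈ Q.sq x y, ct Q t e x := by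
  have hsq : ∀ e, e ∈ Q.sq x y ↔ (c : V × V) ∈ K Q e := by
    intro e
    rw [mem_K_iff]
    have h := c.2
    simp only [CR, mem_filter, mem_univ, true_and] at h
    simp only [h.1.1, h.1.2.1, true_and]
    rcases hc with h | h
    · rw [h]
    · rw [h]
      simp only [Quad.sq, mem_filter, mem_univ, true_and]
      exact And.comm
  simp only [Matrix.mulVec, dotProduct, Fintype.sum_sum_type, Matrix.transpose_apply, Mx]
  rw [sum_ext (Q.MS ω R) (fun e => t (Sum.inl e)) (fun e => if (c : V × V) ∈ K Q e then 1 else 0),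
    sum_ext (AR Q ω R) (fun a => t (Sum.inr a)) (fun a => if (c : V × V) ∈ K Q a.1 ∧
      ((c : V × V).1 = a.2 ∨ (c : V × V).2 = a.2) then 1 else 0), Fintype.sum_prod_type,
    ← Finset.sum_add_distrib, ← Finset.sum_subset (Finset.subset_univ (Q.sq x y))]
  · apply Finset.sum_congr rfl
    intro e he
    have he' := (hsq e).1 he
    rw [if_pos he', one_mul, ct]
    congr 1
    rw [Finset.sum_eq_single x]
    · rw [if_pos, one_mul]
      refine ⟨he', ?_⟩
      rcases hc with h | h
      · left; rw [h]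
      · right; rw [h]
    · intro z _ hz
      by_cases h : ((c : V × V) ∈ K Q (e, z).1 ∧ ((c : V × V).1 = (e, z).2 ∨ (c : V × V).2 = (e, z).2))
      · rw [if_pos h, one_mul]
        apply ext_not
        simp only [AR, mem_filter, mem_univ, true_and, not_and]
        intro hMS hzR hz2
        -- then `z = y` and both ends of `c` are in `R`
        have hzy : z = y := by
          rcases hc with h' | h'
          · rw [h'] at h
            rcases h.2 with h3 | h3
            · exact absurd h3.symm hz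
            · exact h3.symm
          · rw [h'] at h
            rcases h.2 with h3 | h3
            · exact h3.symm
            · exact absurd h3.symm hz
        subst hzy
        simp only [Quad.sq, mem_filter, mem_univ, true_and] at he
        obtain ⟨k, hk⟩ := other_of_on Q hQ hU hMS hx he.1
        obtain ⟨l, hl⟩ := other_of_on Q hQ hU hMS hzR hz2
        have hp1 := hQ.pr_en e (!(ω e)) k
        have hp2 := hQ.pr_en e (!(ω e)) l
        rw [← hk] at hp1
        rw [← hl] at hp2
        have hK := (mem_K_iff Q).1 he'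
        rcases hc with h' | h'
        · rw [h'] at hK
          rw [hK.1] at hp1
          rw [hK.2.1] at hp2
          rw [← hp1] at hp2
          exact absurd hp2 (by simp)
        · rw [h'] at hK
          rw [hK.1] at hp2
          rw [hK.2.1] at hp1
          rw [← hp1] at hp2
          exact absurd hp2 (by simp)
      · rw [if_neg h, zero_mul]
    · intro h
      exact absurd (mem_univ _) h
  · intro e _ he
    have he' : ¬ ((c : V × V) ∈ K Q e) := fun h => he ((hsq e).2 h)
    rw [if_neg he', zero_mul, zero_add]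
    apply Finset.sum_eq_zero
    intro z _
    rw [if_neg (fun h => he' h.1), zero_mul]

theorem transpose_inj (hQ : Q.IsDisc) (hU : Q.UC ω R) (h1 : Q.CS ω R) (hb : Q.Tb R)
    (t : Q.MS ω R ⊕ AR Q ω R → ZMod 2) (ht : (Mx Q ω R).transpose.mulVec t = 0) : t = 0 := by
  -- the sum over the squares of a corner
  have hsum : ∀ x y, x ∈ R → Q.pr y ≠ Q.pr x → (Q.sq x y).Nonempty →
      ∑ e ∈ Q.sq x y, ct Q t e x = 0 := by
    intro x y hx hp hne
    have hsym : Q.sq y x = Q.sq x y := by
      ext e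
      simp only [Quad.sq, mem_filter, mem_univ, true_and]
      exact And.comm
    cases hpx : Q.pr x
    · have hpy : Q.pr y = true := by
        cases h : Q.pr y <;> simp_all
      have hc : (y, x) ∈ CR Q R := by
        simp only [CR, mem_filter, mem_univ, true_and]
        exact ⟨⟨hpy, hpx, by rw [hsym]; exact hne⟩, Or.inr hx⟩
      have := vecMul_eq Q hQ hU t ⟨_, hc⟩ x y hx (Or.inr rfl)
      rw [← this, ht]
      rfl
    · have hpy : Q.pr y = false := by
        cases h : Q.pr y <;> simp_all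
      have hc : (x, y) ∈ CR Q R := by
        simp only [CR, mem_filter, mem_univ, true_and]
        exact ⟨⟨hpx, hpy, hne⟩, Or.inl hx⟩
      have := vecMul_eq Q hQ hU t ⟨_, hc⟩ x y hx (Or.inl rfl)
      rw [← this, ht]
      rfl
  -- constant around a vertex
  have hstar : ∀ x ∈ R, ∀ e e', Q.on e x → Q.on e' x → ct Q t e x = ct Q t e' x := by
    intro x hx
    apply hQ.star x (fun e => ct Q t e x)
    intro y hp e e' he he'
    by_cases hee : e = e'
    · rw [hee]
    have h3 : Q.sq x y = {e, e'} := by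
      symm
      apply Finset.eq_of_subset_of_card_le
      · intro z hz
        rw [mem_insert, mem_singleton] at hz
        rcases hz with rfl | rfl
        · exact he
        · exact he'
      · rw [card_pair hee]
        exact hQ.sq_le x y hp.symm
    have h4 := hsum x y hx hp ⟨e, he⟩
    rw [h3, sum_pair hee] at h4
    exact CharTwo.add_eq_zero.1 h4
  -- all zero at a boundary vertex
  obtain ⟨z, hzR, hzb⟩ := hb
  have hz0 : ∀ e, Q.on e z → ct Q t e z = 0 := by
    have h3 := hQ.bc_two z hzb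
    obtain ⟨c, hc⟩ : (Q.bc.filter fun c => c.1 = z ∨ c.2 = z).Nonempty := by
      rw [← card_pos, h3]
      norm_num
    simp only [Quad.bc, mem_filter, mem_univ, true_and] at hc
    obtain ⟨⟨hp1, hp2, hcard⟩, hcz⟩ := hc
    have hex : ∃ y, Q.pr y ≠ Q.pr z ∧ (Q.sq z y).card = 1 := by
      rcases hcz with h | h
      · refine ⟨c.2, ?_, ?_⟩
        · rw [← h, hp1, hp2]; simp
        · rw [← h]; exact hcard
      · refine ⟨c.1, ?_, ?_⟩
        · rw [← h, hp1, hp2]; simp
        · rw [← h, ← hcard]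
          congr 1
          ext e
          simp only [Quad.sq, mem_filter, mem_univ, true_and]
          exact And.comm
    obtain ⟨y, hy, hcy⟩ := hex
    rw [card_eq_one] at hcy
    obtain ⟨e0, he0⟩ := hcy
    have h4 := hsum z y hzR hy ⟨e0, by rw [he0]; exact mem_singleton_self _⟩
    rw [he0, sum_singleton] at h4
    have h5 : Q.on e0 z := by
      have : e0 ∈ Q.sq z y := by rw [he0]; exact mem_singleton_self _
      simp only [Quad.sq, mem_filter, mem_univ, true_and] at this
      exact this.1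
    intro e he
    rw [hstar z hzR e e0 he h5, h4]
  -- inside `M_R` the coefficient does not depend on the vertex
  have hin : ∀ e, e ∈ Q.MS ω R → ∀ x y, ct Q t e x = ct Q t e y := by
    intro e he x y
    have h3 : ∀ x, ext (AR Q ω R) (fun a => t (Sum.inr a)) (e, x) = 0 := by
      intro x
      apply ext_not
      simp only [AR, mem_filter, mem_univ, true_and]
      tauto
    rw [ct, ct, h3, h3]
  have hstep : ∀ x y, x ∈ R → y ∈ R → (Q.cor x y ∨ Q.dg ω x y) →
      (∀ e, Q.on e x → ct Q t e x = 0) → ∀ e, Q.on e y → ct Q t e y = 0 := by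
    intro x y hx hy h hz
    have key : ∃ e, e ∈ Q.MS ω R ∧ Q.on e x ∧ Q.on e y := by
      rcases h with ⟨hp, e, he⟩ | ⟨e, i, rfl, rfl⟩
      · simp only [Quad.sq, mem_filter, mem_univ, true_and] at he
        refine ⟨e, ?_, he.1, he.2⟩
        by_contra hMS
        obtain ⟨k, hk⟩ := other_of_on Q hQ hU hMS hx he.1
        obtain ⟨l, hl⟩ := other_of_on Q hQ hU hMS hy he.2
        apply hp
        rw [hk, hl, hQ.pr_en, hQ.pr_en]
      · exact ⟨e, (own_iff Q hU _ i).1 hx, on_en Q _ _ _, on_en Q _ _ _⟩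
    obtain ⟨e, heM, hex, hey⟩ := key
    intro e' he'
    rw [hstar y hy e' e he' hey, hin e heM y x]
    exact hz e hex
  have hall : ∀ y ∈ R, ∀ e, Q.on e y → ct Q t e y = 0 := by
    intro y hy
    have h3 := h1 z hzR y hy
    clear hy
    induction h3 with
    | refl => exact hz0
    | tail _ hbc ih => exact hstep _ _ hbc.1 hbc.2.1 hbc.2.2 ih
  funext p
  rcases p with e | a
  · have h3 := hall (Q.en e.1 (ω e.1) false) ((mem_MS Q).1 e.2) e.1 (on_en Q _ _ _)
    have h4 : ext (AR Q ω R) (fun a => t (Sum.inr a)) (e.1, Q.en e.1 (ω e.1) false) = 0 := by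
      apply ext_not
      simp only [AR, mem_filter, mem_univ, true_and]
      intro h
      exact h.1 e.2
    rw [ct, h4, add_zero, ext_mem _ e.2] at h3
    exact h3
  · have ha := a.2
    simp only [AR, mem_filter, mem_univ, true_and] at ha
    have h3 := hall a.1.2 ha.2.1 a.1.1 ha.2.2
    rw [ct, ext_not _ ha.1, zero_add, ext_mem (a := (a.1.1, a.1.2)) _ a.2] at h3
    exact h3

theorem rank_eq (hQ : Q.IsDisc) (hU : Q.UC ω R) (h1 : Q.CS ω R) (hb : Q.Tb R) :
    (Mx Q ω R).rank = (Q.MS ω R).card + (AR Q ω R).card := by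
  rw [← Matrix.rank_transpose]
  have hinj : Function.Injective (Mx Q ω R).transpose.mulVecLin := by
    rw [injective_iff_map_eq_zero]
    intro t ht
    exact transpose_inj Q hQ hU h1 hb t ht
  rw [Matrix.rank, LinearMap.finrank_range_of_inj hinj]
  simp

/-! ### counting -/

theorem card_AR (hQ : Q.IsDisc) (hU : Q.UC ω R) :
    (AR Q ω R).card = ∑ e, if e ∈ Q.MS ω R then 0 else
      ∑ k : Bool, if Q.en e (!(ω e)) k ∈ R then 1 else 0 := by
  rw [AR, Finset.card_filter, Fintype.sum_prod_type]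
  apply Finset.sum_congr rfl
  intro e _
  by_cases he : e ∈ Q.MS ω R
  · simp [he]
  · rw [if_neg he]
    simp only [he, not_false_eq_true, true_and]
    rw [← Finset.card_filter, ← Finset.card_filter]
    have h3 : (univ.filter fun x => x ∈ R ∧ Q.on e x) =
        (univ.filter fun k => Q.en e (!(ω e)) k ∈ R).image (Q.en e (!(ω e))) := by
      ext x
      simp only [mem_filter, mem_univ, true_and, mem_image]
      constructor
      · rintro ⟨hx, ho⟩
        obtain ⟨k, rfl⟩ := other_of_on Q hQ hU he hx ho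
        exact ⟨k, hx, rfl⟩
      · rintro ⟨k, hk, rfl⟩
        exact ⟨hk, on_en Q _ _ _⟩
    rw [h3, Finset.card_image_of_injective]
    intro i j h
    exact en_inj Q hQ e _ h

theorem count (hQ : Q.IsDisc) (hU : Q.UC ω R) :
    2 * (CR Q R).card = 4 * (Q.MS ω R).card + 2 * (AR Q ω R).card + (Q.bT R).card := by
  have e1 : ∑ c ∈ CR Q R, (Q.sq c.1 c.2).card + (Q.bT R).card = 2 * (CR Q R).card := by
    have hbT : Q.bT R = (CR Q R).filter fun c => (Q.sq c.1 c.2).card = 1 := by
      ext c
      simp only [Quad.bT, Quad.bc, CR, mem_filter, mem_univ, true_and]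
      constructor
      · rintro ⟨⟨h1, h2, h3⟩, h4⟩
        exact ⟨⟨⟨h1, h2, by rw [← card_pos, h3]; norm_num⟩, h4⟩, h3⟩
      · rintro ⟨⟨⟨h1, h2, -⟩, h4⟩, h3⟩
        exact ⟨⟨h1, h2, h3⟩, h4⟩
    rw [hbT, Finset.card_filter, ← Finset.sum_add_distrib, mul_comm, ← smul_eq_mul,
      ← Finset.sum_const]
    apply Finset.sum_congr rfl
    intro c hc
    simp only [CR, mem_filter, mem_univ, true_and] at hc
    have h3 := hQ.sq_le c.1 c.2 (by rw [hc.1.1, hc.1.2.1]; simp)
    have h4 := card_pos.2 hc.1.2.2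
    by_cases h5 : (Q.sq c.1 c.2).card = 1
    · rw [if_pos h5, h5]
    · rw [if_neg h5]
      omega
  have e2 : ∑ c ∈ CR Q R, (Q.sq c.1 c.2).card =
      ∑ e, ∑ c ∈ K Q e, if c ∈ CR Q R then 1 else 0 := by
    have h3 : ∀ c ∈ CR Q R, (Q.sq c.1 c.2).card = ∑ e, if c ∈ K Q e then 1 else 0 := by
      intro c hc
      simp only [CR, mem_filter, mem_univ, true_and] at hc
      rw [← Finset.card_filter]
      congr 1
      ext e
      rw [mem_filter, mem_K_iff]
      simp [hc.1.1, hc.1.2.1]
    rw [Finset.sum_congr rfl h3, Finset.sum_comm]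
    apply Finset.sum_congr rfl
    intro e _
    rw [← Finset.card_filter, ← Finset.card_filter]
    congr 1
    ext c
    simp only [mem_filter]
    exact And.comm
  have e3 : ∀ e, ∑ c ∈ K Q e, (if c ∈ CR Q R then 1 else 0) =
      (if e ∈ Q.MS ω R then 4 else 0) + 2 * (if e ∈ Q.MS ω R then 0 else
        ∑ k : Bool, if Q.en e (!(ω e)) k ∈ R then 1 else 0) := by
    intro e
    rw [sum_K Q hQ e (ω e)]
    simp only [cp_mem_CR Q hQ, own_iff Q hU]
    by_cases he : e ∈ Q.MS ω R
    · simp [he]
    · simp only [he, false_or, if_false, zero_add]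
      rw [Fintype.sum_bool, two_mul]
  have e4 : ∑ c ∈ CR Q R, (Q.sq c.1 c.2).card = 4 * (Q.MS ω R).card + 2 * (AR Q ω R).card := by
    rw [e2, Finset.sum_congr rfl (fun e _ => e3 e), Finset.sum_add_distrib, card_AR Q hQ hU,
      ← Finset.mul_sum]
    congr 1
    rw [← Finset.sum_filter, Finset.sum_const, smul_eq_mul, mul_comm]
    congr 2
    ext e
    simp
  omega

end K2RelAux

variable {V M : Type} [Fintype V] [DecidableEq V] [Fintype M] [DecidableEq M] (Q : Quad V M)

namespace Quad

theorem rel_euler (hQ : Q.IsDisc) (ω : M → Bool) (R : Finset V) (hU : Q.UC ω R) (h1 : Q.CS ω R)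
    (h2 : Q.CS ω Rᶜ) (hb : Q.Tb R) (hS : Rᶜ.Nonempty) :
    2 * R.card = 2 * (Q.MS ω R).card + (Q.bT R).card := by
  have e1 := K2RelAux.rank_add Q hQ hU h2 hS
  have e2 := K2RelAux.rank_eq Q hQ hU h1 hb
  have e3 := K2RelAux.count Q hQ hU
  omega

end Quad

end P0q
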