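import Pool.Agent.Lib.P0q.Defs

/-!
# K3Cut: the two sides of a corner (Lemma 1 of Q4_proof.md)

Let `{x, y}` be a corner (`Q.cor x y`: labels differ and some square contains both). Then
`S = side ω x y` contains `x`, not `y`, is a union of clusters, `side ω y x = Sᶜ`, and every corner `{a, b}` with
`a ∈ S`, `b ∉ S` satisfies `Con ω x a` and `Con ω y b`. `S` is connected by steps inside `S`.

Proof. `Con ω` is an equivalence relation (`dg` is symmetric: replace `i` by `!i`), and `Con ω a b` implies
`pr a = pr b` (the two ends of a diagonal have the same label, `pr_en`). By symmetry of the statement let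
`pr x = true`, `pr y = false` (otherwise exchange `x, y`; or define `ε` symmetrically). Let `ε a b = 1` if `Con ω x a`
and `Con ω y b`, else `0` (`a` active, `b` passive). Square sums: if `e` is open, its active ends `u, v` satisfy
`Con ω x u ↔ Con ω x v`, so `ε u f = ε v f` and `ε u g = ε v g`, sum `0` in `ZMod 2`; closed: the same for
`f, g`. `IsDisc.pot` gives `γ`. If `a`, `b` are the ends of an own diagonal of `e`, then `γ a = γ b`: take a third vertex `c`
of `e`; the corners `{a, c}`, `{b, c}` have equal `ε`. So `γ` is constant on clusters. Let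
`T = {z | γ z = γ x}`. Since `ε x y = 1` (the corner `{x, y}` lies in a square `e`, write `x = en e true i`,
`y = en e false j` by `pr_en`), `γ y = γ x + 1`, `y ∉ T`. A corner between `T` and `Tᶜ` has `ε = 1` (values in `ZMod 2`),
so it joins `cl x` and `cl y`; its end in `cl x` has `γ = γ x`, so it is the end in `T`.
Claim `side ω x y = T`. (⊆) A step `stp ω y a b` with `a ∈ T` has `b ∈ T`: own diagonals do not leave `T`; a corner
leaving `T` would end in `cl y`, which is avoided. Start: `x ∈ T`. (⊇) Let `D = side ω x y ∪ Tᶜ`. `D` is closed under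
corners in both directions: let `{a, b}` be a corner, `a ∈ D`, show `b ∈ D`: if `b ∉ T` fine. `b ∈ T`: then `b` is
not in `cl y` (`cl y ⊆ Tᶜ`). If `a ∈ side` then `stp ω y a b` holds (`a ∈ T`), so `b ∈ side`. If `a ∉ T`: the corner crosses, so
`Con ω x b`, and `b ∈ side` by steps along own diagonals (all vertices of `cl x` avoid `cl y`, since their labels
differ from `pr y`). By `IsDisc.conn` `D = univ`, so `T ⊆ side`.
The same argument with `x, y` exchanged gives `side ω y x = {z | γ z = γ y} = Tᶜ`.
`CS`: every `z ∈ side` is joined to `x` by steps `stp ω y`; all intermediate vertices are in `side` (prefixes of the chain);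
reverse one chain and compose (steps are symmetric).
-/

set_option autoImplicit false

open Finset P0de

namespace P0q

variable {V M : Type} [Fintype V] [DecidableEq V] [Fintype M] [DecidableEq M] (Q : Quad V M)

namespace Quad

theorem K3CutAux.dg_symm (ω : M → Bool) {x y : V} (h : Q.dg ω x y) : Q.dg ω y x := by
  obtain ⟨e, i, hx, hy⟩ := h
  exact ⟨e, !i, hy, by simpa using hx⟩

theorem Con_symm (ω : M → Bool) {x y : V} (h : Q.Con ω x y) : Q.Con ω y x := by
  unfold Con at *
  induction h with
  | refl => exact Relation.ReflTransGen.refl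
  | tail _ hbc ih => exact Relation.ReflTransGen.head (K3CutAux.dg_symm Q ω hbc) ih

theorem Con_pr (hQ : Q.IsDisc) (ω : M → Bool) {x y : V} (h : Q.Con ω x y) : Q.pr x = Q.pr y := by
  unfold Con at h
  induction h with
  | refl => rfl
  | tail _ hbc ih =>
    obtain ⟨e, i, hx, hy⟩ := hbc
    rw [ih, hx, hy, hQ.pr_en, hQ.pr_en]

theorem cor_symm {x y : V} (h : Q.cor x y) : Q.cor y x := by
  obtain ⟨h1, e, he⟩ := h
  refine ⟨fun h => h1 h.symm, e, ?_⟩
  simp only [sq, mem_filter, mem_univ, true_and] at he ⊢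
  exact ⟨he.2, he.1⟩

/-- a corner is given by a square and one end on each of its diagonals -/
theorem cor_iff (hQ : Q.IsDisc) {x y : V} : Q.cor x y ↔
    ∃ e c i j, x = Q.en e c i ∧ y = Q.en e (!c) j := by
  constructor
  · rintro ⟨h1, e, he⟩
    simp only [sq, mem_filter, mem_univ, true_and] at he
    obtain ⟨⟨c, i, hx⟩, c', j, hy⟩ := he
    have hc : c' = !c := by
      rw [← hx, ← hy, hQ.pr_en, hQ.pr_en] at h1
      cases c <;> cases c' <;> simp_all
    subst hc
    exact ⟨e, c, i, j, hx.symm, hy.symm⟩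
  · rintro ⟨e, c, i, j, rfl, rfl⟩
    refine ⟨?_, e, ?_⟩
    · rw [hQ.pr_en, hQ.pr_en]
      cases c <;> simp
    · simp only [sq, mem_filter, mem_univ, true_and]
      exact ⟨⟨c, i, rfl⟩, !c, j, rfl⟩

theorem mem_side_self (ω : M → Bool) (x y : V) : x ∈ Q.side ω x y := by
  unfold side
  simp only [mem_filter, mem_univ, true_and]
  exact Relation.ReflTransGen.refl

/-- `T` separates the clusters of `x` and of `y` -/
def K3CutAux.Good (ω : M → Bool) (x y : V) (T : V → Prop) : Prop :=
  T x ∧ ¬ T y ∧ (∀ a b, Q.dg ω a b → T a → T b) ∧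
    ∀ a b, Q.cor a b → T a → ¬ T b → Q.Con ω x a ∧ Q.Con ω y b

theorem K3CutAux.Good.symm {Q : Quad V M} {ω : M → Bool} {x y : V} {T : V → Prop}
    (h : K3CutAux.Good Q ω x y T) : K3CutAux.Good Q ω y x (fun z => ¬ T z) := by
  obtain ⟨h1, h2, h3, h4⟩ := h
  refine ⟨h2, fun h => h h1, ?_, ?_⟩
  · intro a b hab ha hb
    exact ha (h3 b a (K3CutAux.dg_symm Q ω hab) hb)
  · intro a b hab ha hb
    have := h4 b a (Q.cor_symm hab) (not_not.1 hb) ha
    exact ⟨this.2, this.1⟩

theorem K3CutAux.Good.con {Q : Quad V M} {ω : M → Bool} {x y : V} {T : V → Prop}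
    (h : K3CutAux.Good Q ω x y T) {a b : V} (hab : Q.Con ω a b) (ha : T a) : T b := by
  unfold Con at hab
  induction hab with
  | refl => exact ha
  | tail _ hbc ih => exact h.2.2.1 _ _ hbc ih

theorem K3CutAux.Good.not_con {Q : Quad V M} {ω : M → Bool} {x y : V} {T : V → Prop}
    (h : K3CutAux.Good Q ω x y T) {a : V} (ha : T a) : ¬ Q.Con ω y a := fun hc =>
  h.2.1 (h.con (Q.Con_symm ω hc) ha)

theorem K3CutAux.Good.sub {Q : Quad V M} {ω : M → Bool} {x y : V} {T : V → Prop}
    (h : K3CutAux.Good Q ω x y T) {z : V} (hz : Relation.ReflTransGen (Q.stp ω y) x z) : T z := by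
  induction hz with
  | refl => exact h.1
  | tail _ hbc ih =>
    obtain ⟨h1, h2, h3⟩ := hbc
    rcases h3 with h3 | h3
    · by_contra hc
      exact h2 (h.2.2.2 _ _ h3 ih hc).2
    · exact h.2.2.1 _ _ h3 ih

theorem K3CutAux.Good.cl {Q : Quad V M} {ω : M → Bool} {x y : V} {T : V → Prop}
    (h : K3CutAux.Good Q ω x y T) {z : V} (hz : Q.Con ω x z) :
    Relation.ReflTransGen (Q.stp ω y) x z := by
  unfold Con at hz
  induction hz with
  | refl => exact Relation.ReflTransGen.refl
  | @tail b c hab hbc ih =>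
    refine Relation.ReflTransGen.tail ih ⟨?_, ?_, Or.inr hbc⟩
    · exact h.not_con (h.con hab h.1)
    · exact h.not_con (h.con (Relation.ReflTransGen.tail hab hbc) h.1)

theorem K3CutAux.Good.mem {Q : Quad V M} (hQ : Q.IsDisc) {ω : M → Bool} {x y : V} {T : V → Prop}
    (h : K3CutAux.Good Q ω x y T) (z : V) : z ∈ Q.side ω x y ↔ T z := by
  classical
  have key : ∀ a b, Q.cor a b → (Relation.ReflTransGen (Q.stp ω y) x a ∨ ¬ T a) →
      (Relation.ReflTransGen (Q.stp ω y) x b ∨ ¬ T b) := by
    intro a b hab ha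
    by_cases hb : T b
    · left
      rcases ha with ha | ha
      · exact Relation.ReflTransGen.tail ha ⟨h.not_con (h.sub ha), h.not_con hb, Or.inl hab⟩
      · exact h.cl (h.2.2.2 b a (Q.cor_symm hab) hb ha).1
    · exact Or.inr hb
  have hD := hQ.conn (univ.filter fun z => Relation.ReflTransGen (Q.stp ω y) x z ∨ ¬ T z)
    ⟨x, by
      simp only [mem_filter, mem_univ, true_and]
      exact Or.inl Relation.ReflTransGen.refl⟩
    (by
      intro e i j
      simp only [mem_filter, mem_univ, true_and]
      have hc : Q.cor (Q.en e true i) (Q.en e false j) :=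
        (Q.cor_iff hQ).2 ⟨e, true, i, j, rfl, rfl⟩
      exact ⟨key _ _ hc, key _ _ (Q.cor_symm hc)⟩) z
  simp only [mem_filter, mem_univ, true_and] at hD
  unfold side
  simp only [mem_filter, mem_univ, true_and]
  constructor
  · exact h.sub
  · intro hz
    rcases hD with hD | hD
    · exact hD
    · exact absurd hz hD

theorem K3CutAux.zmod2' (u v : ZMod 2) (h : 0 = u + v) : v = u := by
  revert u v; decide

theorem K3CutAux.exists_good (hQ : Q.IsDisc) (ω : M → Bool) {x y : V} (h : Q.cor x y) :
    ∃ T, K3CutAux.Good Q ω x y T := by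
  classical
  set ε : V → V → ZMod 2 := fun a b =>
    if (Q.Con ω x a ∧ Q.Con ω y b) ∨ (Q.Con ω x b ∧ Q.Con ω y a) then 1 else 0 with hε
  have hsymm : ∀ a b, ε a b = ε b a := by
    intro a b
    simp only [hε]
    congr 1
    exact propext or_comm
  have hcon : ∀ a b c, Q.Con ω a b → ε a c = ε b c := by
    intro a b c hab
    have hba := Q.Con_symm ω hab
    have e1 : ∀ w, Q.Con ω w a ↔ Q.Con ω w b := fun w =>
      ⟨fun h => Relation.ReflTransGen.trans h hab, fun h => Relation.ReflTransGen.trans h hba⟩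
    simp only [hε, e1]
  have hown : ∀ e, Q.Con ω (Q.en e (ω e) false) (Q.en e (ω e) true) := fun e =>
    Relation.ReflTransGen.single ⟨e, false, rfl, rfl⟩
  obtain ⟨γ, hγ⟩ := hQ.pot ε (by
    intro e
    have h1 := hown e
    simp only [Fintype.sum_bool]
    cases hω : ω e with
    | true =>
      rw [hω] at h1
      rw [hcon _ _ (Q.en e false true) (Q.Con_symm ω h1), hcon _ _ (Q.en e false false) (Q.Con_symm ω h1)]
      generalize ε (Q.en e true false) (Q.en e false true) = u
      generalize ε (Q.en e true false) (Q.en e false false) = v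
      revert u v; decide
    | false =>
      rw [hω] at h1
      rw [hsymm (Q.en e true true), hsymm (Q.en e true true), hsymm (Q.en e true false),
        hsymm (Q.en e true false), hcon _ _ (Q.en e true true) h1, hcon _ _ (Q.en e true false) h1]
      generalize ε (Q.en e false true) (Q.en e true true) = u
      generalize ε (Q.en e false true) (Q.en e true false) = v
      revert u v; decide)
  have hcor : ∀ a b, Q.cor a b → ε a b = γ a + γ b := by
    intro a b hab
    obtain ⟨e, c, i, j, rfl, rfl⟩ := (Q.cor_iff hQ).1 hab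
    cases c
    · rw [hsymm]
      exact (hγ e j i).trans (add_comm _ _)
    · exact hγ e i j
  have hdg : ∀ a b, Q.dg ω a b → γ a = γ b := by
    rintro a b ⟨e, i, rfl, rfl⟩
    have c1 : Q.cor (Q.en e (ω e) i) (Q.en e (!(ω e)) false) :=
      (Q.cor_iff hQ).2 ⟨e, ω e, i, false, rfl, rfl⟩
    have c2 : Q.cor (Q.en e (ω e) (!i)) (Q.en e (!(ω e)) false) :=
      (Q.cor_iff hQ).2 ⟨e, ω e, !i, false, rfl, rfl⟩
    have e1 := hcor _ _ c1
    have e2 := hcor _ _ c2
    rw [hcon _ (Q.en e (ω e) (!i)) _ (Relation.ReflTransGen.single ⟨e, i, rfl, rfl⟩), e2] at e1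
    exact (add_right_cancel e1).symm
  have hxy : γ y ≠ γ x := by
    intro hc
    have := hcor _ _ h
    rw [hc] at this
    have h1 : ε x y = 1 := by
      simp only [hε]
      rw [if_pos (Or.inl ⟨Relation.ReflTransGen.refl, Relation.ReflTransGen.refl⟩)]
    rw [h1] at this
    generalize γ x = u at this
    revert u; decide
  have hγcon : ∀ a b, Q.Con ω a b → γ a = γ b := by
    intro a b hab
    unfold Con at hab
    induction hab with
    | refl => rfl
    | tail _ hbc ih => exact ih.trans (hdg _ _ hbc)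
  refine ⟨fun z => γ z = γ x, rfl, hxy, ?_, ?_⟩
  · intro a b hab ha
    exact (hdg a b hab).symm.trans ha
  · intro a b hab ha hb
    have h1 := hcor a b hab
    replace ha : γ a = γ x := ha
    replace hb : ¬ γ b = γ x := hb
    by_cases hc : (Q.Con ω x a ∧ Q.Con ω y b) ∨ (Q.Con ω x b ∧ Q.Con ω y a)
    · rcases hc with hc | hc
      · exact hc
      · exact absurd (hγcon _ _ hc.1).symm hb
    · exfalso
      simp only [hε] at h1
      rw [if_neg hc, ha] at h1
      exact hb (K3CutAux.zmod2' _ _ h1)

theorem side_UC (hQ : Q.IsDisc) (ω : M → Bool) {x y : V} (h : Q.cor x y) :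
    Q.UC ω (Q.side ω x y) := by
  obtain ⟨T, hT⟩ := K3CutAux.exists_good Q hQ ω h
  intro e
  rw [hT.mem hQ, hT.mem hQ]
  exact ⟨hT.2.2.1 _ _ ⟨e, false, rfl, rfl⟩, hT.2.2.1 _ _ ⟨e, true, rfl, rfl⟩⟩

/-- unions of clusters are closed under `Con` -/
theorem UC_Con (ω : M → Bool) {S : Finset V} (hS : Q.UC ω S) {a b : V} (h : Q.Con ω a b) :
    a ∈ S ↔ b ∈ S := by
  unfold Con at h
  induction h with
  | refl => exact Iff.rfl
  | tail _ hbc ih =>
    obtain ⟨e, i, rfl, rfl⟩ := hbc
    rw [ih]
    cases i
    · exact hS e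
    · exact (hS e).symm

theorem side_compl (hQ : Q.IsDisc) (ω : M → Bool) {x y : V} (h : Q.cor x y) :
    Q.side ω y x = (Q.side ω x y)ᶜ := by
  obtain ⟨T, hT⟩ := K3CutAux.exists_good Q hQ ω h
  ext z
  rw [mem_compl, hT.mem hQ, hT.symm.mem hQ]

theorem side_cross (hQ : Q.IsDisc) (ω : M → Bool) {x y : V} (h : Q.cor x y) {a b : V}
    (hab : Q.cor a b) (ha : a ∈ Q.side ω x y) (hb : b ∉ Q.side ω x y) :
    Q.Con ω x a ∧ Q.Con ω y b := by
  obtain ⟨T, hT⟩ := K3CutAux.exists_good Q hQ ω h
  rw [hT.mem hQ] at ha hb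
  exact hT.2.2.2 a b hab ha hb

theorem side_CS (hQ : Q.IsDisc) (ω : M → Bool) {x y : V} (h : Q.cor x y) :
    Q.CS ω (Q.side ω x y) := by
  have key : ∀ z, Relation.ReflTransGen (Q.stp ω y) x z → Relation.ReflTransGen
      (fun a b => a ∈ Q.side ω x y ∧ b ∈ Q.side ω x y ∧ (Q.cor a b ∨ Q.dg ω a b)) x z := by
    intro z hz
    induction hz with
    | refl => exact Relation.ReflTransGen.refl
    | @tail b c hab hbc ih =>
      refine Relation.ReflTransGen.tail ih ⟨?_, ?_, hbc.2.2⟩
      · unfold side
        simp only [mem_filter, mem_univ, true_and]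
        exact hab
      · unfold side
        simp only [mem_filter, mem_univ, true_and]
        exact Relation.ReflTransGen.tail hab hbc
  have hs : ∀ u v, Relation.ReflTransGen
      (fun a b => a ∈ Q.side ω x y ∧ b ∈ Q.side ω x y ∧ (Q.cor a b ∨ Q.dg ω a b)) u v →
      Relation.ReflTransGen
      (fun a b => a ∈ Q.side ω x y ∧ b ∈ Q.side ω x y ∧ (Q.cor a b ∨ Q.dg ω a b)) v u := by
    intro u v huv
    induction huv with
    | refl => exact Relation.ReflTransGen.refl
    | tail _ hbc ih =>
      refine Relation.ReflTransGen.head ⟨hbc.2.1, hbc.1, ?_⟩ ih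
      rcases hbc.2.2 with h1 | h1
      · exact Or.inl (Q.cor_symm h1)
      · exact Or.inr (K3CutAux.dg_symm Q ω h1)
  intro u hu v hv
  unfold side at hu hv
  simp only [mem_filter, mem_univ, true_and] at hu hv
  exact Relation.ReflTransGen.trans (hs _ _ (key u hu)) (key v hv)

/-- uniqueness: a union of clusters containing `x`, not `y`, all of whose crossing corners join
`cl x` to `cl y`, is the side. (⊆ and ⊇ as in the header: a step avoiding `cl y` cannot leave `S`; and `side ∪ Sᶜ` is closed
under corners.) -/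
theorem side_unique (hQ : Q.IsDisc) (ω : M → Bool) {x y : V} (h : Q.cor x y) (S : Finset V)
    (hx : x ∈ S) (hy : y ∉ S) (hU : Q.UC ω S)
    (hc : ∀ a b, Q.cor a b → a ∈ S → b ∉ S → Q.Con ω x a ∧ Q.Con ω y b) :
    S = Q.side ω x y := by
  have hG : K3CutAux.Good Q ω x y (fun z => z ∈ S) :=
    ⟨hx, hy, fun a b hab ha => (Q.UC_Con ω hU (Relation.ReflTransGen.single hab)).1 ha, hc⟩
  ext z
  exact (hG.mem hQ z).symm

end Quad

end P0q
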