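import Pool.Agent.Lib.P0q.K2Rel
import Pool.Agent.Lib.P0q.K3Cut

/-!
# K4Turn: turning numbers (Lemma 3 (i) and the first half of (ii) of Q4_proof.md)

`NS_compl`: every square has exactly 4 vertices (`en_ne`, `pr_en`), so `∑ x, deg x = 4 |M|` (double count
pairs (square, vertex)); the squares are split into `MS ω S` and `MS ω Sᶜ` (`MS ω Sᶜ` is the
complement of `MS ω S`). So `NS ω S + NS ω Sᶜ = 4|M| - 4|M| = 0`.

`NS_side`: `S = side ω x y` misses the boundary. Then `R = Sᶜ = side ω y x` contains the boundary (`bd_ne`), and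
`rel_euler` for `R` (`K3Cut`: `UC`, `CS` for both sides, `Rᶜ = S ∋ x`) gives
`2|R| = 2|M_R| + |bT R|`, `bT R = bc` (both ends of boundary corners are in `bd ⊆ R`). With `IsDisc.euler`:
`2|S| = 2|V| - 2|R| = 2|M| + 2 - 2|M_R| = 2|M_S| + 2`. All degrees in `S` are 4 (`deg_int`), so
`NS = 4|S| - 4|M_S| = 4`.

`side_arc`: both sides meet the boundary: `rel_euler` for both sides and `|bT S| + |bT Sᶜ| = |bc| + |bX S|`
(a boundary corner is counted twice iff its ends are on different sides):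
`2|V| = 2|M| + |bc| + |bX S|`, so `|bX S| = 2` by `euler`. A crossing boundary corner joins `cl x` and `cl y`
(`side_cross`), its ends are boundary vertices (`bc_mem`); so `cl x` and `cl y` meet `bd`.
A boundary corner is a corner: `sq` has one element, so it is nonempty, and the labels are `true`, `false`.
-/

set_option autoImplicit false

open Finset P0de

namespace P0q

variable {V M : Type} [Fintype V] [DecidableEq V] [Fintype M] [DecidableEq M] (Q : Quad V M)

namespace Quad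

namespace K4TurnAux

private theorem en_inj (hQ : Q.IsDisc) (e : M) :
    Function.Injective fun p : Bool × Bool => Q.en e p.1 p.2 := by
  rintro ⟨c, i⟩ ⟨c', i'⟩ h
  have h' : Q.en e c i = Q.en e c' i' := h
  have h1 : c = c' := by
    have h2 := congrArg Q.pr h'
    rwa [hQ.pr_en, hQ.pr_en] at h2
  subst h1
  have h3 := hQ.en_ne e c
  cases i <;> cases i'
  · rfl
  · exact absurd h' h3
  · exact absurd h'.symm h3
  · rfl

private theorem card_on (hQ : Q.IsDisc) (e : M) :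
    ((univ : Finset V).filter fun x => Q.on e x).card = 4 := by
  have h : ((univ : Finset V).filter fun x => Q.on e x) =
      (univ : Finset (Bool × Bool)).image fun p => Q.en e p.1 p.2 := by
    ext x
    simp only [mem_filter, mem_univ, true_and, mem_image, Prod.exists]
    exact Iff.rfl
  rw [h, card_image_of_injective _ (en_inj Q hQ e)]
  rfl

private theorem MS_add (ω : M → Bool) (S : Finset V) :
    (Q.MS ω S).card + (Q.MS ω Sᶜ).card = Fintype.card M := by
  have h : Q.MS ω Sᶜ = univ.filter fun e => ¬ (Q.en e (ω e) false ∈ S) := by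
    unfold MS
    ext e
    simp only [mem_filter, mem_univ, true_and, mem_compl]
  rw [h]
  unfold MS
  rw [card_filter_add_card_filter_not, card_univ]

private theorem card_add (S : Finset V) : S.card + Sᶜ.card = Fintype.card V :=
  card_add_card_compl S

private theorem bT_add (S : Finset V) :
    (Q.bT S).card + (Q.bT Sᶜ).card = Q.bc.card + (Q.bX S).card := by
  have h1 : Q.bT S ∪ Q.bT Sᶜ = Q.bc := by
    unfold bT
    ext c
    simp only [mem_union, mem_filter, mem_compl]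
    tauto
  have h2 : Q.bT S ∩ Q.bT Sᶜ = Q.bX S := by
    unfold bT bX
    ext c
    simp only [mem_inter, mem_filter, mem_compl]
    tauto
  rw [← h1, ← h2, card_union_add_card_inter]

end K4TurnAux

open K4TurnAux

theorem sum_deg (hQ : Q.IsDisc) : ∑ x : V, Q.deg x = 4 * Fintype.card M := by
  have h : ∀ x : V, Q.deg x = ∑ e : M, if Q.on e x then 1 else 0 := by
    intro x
    unfold deg
    rw [card_filter]
  simp only [h]
  rw [sum_comm]
  have h2 : ∀ e : M, (∑ x : V, if Q.on e x then 1 else 0) = 4 := by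
    intro e
    rw [← card_filter]
    exact card_on Q hQ e
  rw [sum_congr rfl fun e _ => h2 e, sum_const, card_univ, smul_eq_mul, mul_comm]

theorem NS_compl (hQ : Q.IsDisc) (ω : M → Bool) (S : Finset V) (hU : Q.UC ω S) :
    Q.NS ω S + Q.NS ω Sᶜ = 0 := by
  unfold NS
  have h1 : ∑ x ∈ S, (Q.deg x : ℤ) + ∑ x ∈ Sᶜ, (Q.deg x : ℤ) = 4 * (Fintype.card M : ℤ) := by
    rw [sum_add_sum_compl]
    exact_mod_cast sum_deg Q hQ
  have h2 : ((Q.MS ω S).card : ℤ) + ((Q.MS ω Sᶜ).card : ℤ) = (Fintype.card M : ℤ) := by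
    exact_mod_cast MS_add Q ω S
  linarith

theorem bc_cor {c : V × V} (hc : c ∈ Q.bc) : Q.cor c.1 c.2 := by
  unfold bc at hc
  rw [mem_filter] at hc
  obtain ⟨_, h1, h2, h3⟩ := hc
  refine ⟨?_, ?_⟩
  · rw [h1, h2]
    decide
  · rw [← card_pos, h3]
    exact Nat.one_pos

theorem NS_side (hQ : Q.IsDisc) (ω : M → Bool) {x y : V} (h : Q.cor x y)
    (hb : ¬ Q.Tb (Q.side ω x y)) : Q.NS ω (Q.side ω x y) = 4 := by
  have hR := Q.side_compl hQ ω h
  have hU := Q.side_UC hQ ω (Q.cor_symm h)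
  have hC1 := Q.side_CS hQ ω (Q.cor_symm h)
  have hC2 := Q.side_CS hQ ω h
  have hx := Q.mem_side_self ω x y
  rw [hR] at hU hC1
  generalize Q.side ω x y = S at hb hU hC1 hC2 hx
  have hnb : ∀ z ∈ S, z ∉ Q.bd := fun z hz hzb => hb ⟨z, hz, hzb⟩
  have hbR : ∀ z ∈ Q.bd, z ∈ Sᶜ := fun z hz => mem_compl.2 fun hzS => hnb z hzS hz
  obtain ⟨z, hz⟩ := hQ.bd_ne
  have e1 := Q.rel_euler hQ ω Sᶜ hU hC1 (by rw [compl_compl]; exact hC2) ⟨z, hbR z hz, hz⟩
    (by rw [compl_compl]; exact ⟨x, hx⟩)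
  have hbT : Q.bT Sᶜ = Q.bc := by
    unfold bT
    rw [filter_true_of_mem]
    intro c hc
    exact Or.inl (hbR _ (hQ.bc_mem c hc).1)
  rw [hbT] at e1
  have e2 := hQ.euler
  have e3 := MS_add Q ω S
  have e4 := card_add S
  have e5 : ∑ x ∈ S, (Q.deg x : ℤ) = 4 * (S.card : ℤ) := by
    rw [sum_congr rfl fun z hz => by rw [hQ.deg_int z (hnb z hz)], sum_const, nsmul_eq_mul]
    push_cast
    ring
  unfold NS
  rw [e5]
  have e6 : S.card = (Q.MS ω S).card + 1 := by omega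
  rw [e6]
  push_cast
  ring

theorem side_arc (hQ : Q.IsDisc) (ω : M → Bool) {x y : V} (h : Q.cor x y)
    (h1 : Q.Tb (Q.side ω x y)) (h2 : Q.Tb (Q.side ω y x)) :
    (Q.bX (Q.side ω x y)).card = 2 ∧ (∃ z ∈ Q.bd, Q.Con ω x z) ∧ ∃ z ∈ Q.bd, Q.Con ω y z := by
  have hR := Q.side_compl hQ ω h
  have hU1 := Q.side_UC hQ ω (Q.cor_symm h)
  have hU2 := Q.side_UC hQ ω h
  have hC1 := Q.side_CS hQ ω (Q.cor_symm h)
  have hC2 := Q.side_CS hQ ω h
  have hcr : ∀ {a b : V}, Q.cor a b → a ∈ Q.side ω x y → b ∉ Q.side ω x y →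
      Q.Con ω x a ∧ Q.Con ω y b := fun hab ha hb => Q.side_cross hQ ω h hab ha hb
  rw [hR] at hU1 hC1 h2
  generalize Q.side ω x y = S at h1 h2 hU1 hU2 hC1 hC2 hcr
  have hne1 : S.Nonempty := by
    obtain ⟨z, hz, _⟩ := h1
    exact ⟨z, hz⟩
  have hne2 : Sᶜ.Nonempty := by
    obtain ⟨z, hz, _⟩ := h2
    exact ⟨z, hz⟩
  have e1 := Q.rel_euler hQ ω Sᶜ hU1 hC1 (by rw [compl_compl]; exact hC2) h2
    (by rw [compl_compl]; exact hne1)
  have e2 := Q.rel_euler hQ ω S hU2 hC2 hC1 h1 hne2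
  have e3 := MS_add Q ω S
  have e4 := card_add S
  have e5 := bT_add Q S
  have e6 := hQ.euler
  have hcard : (Q.bX S).card = 2 := by omega
  have hX : (Q.bX S).Nonempty := by
    rw [← card_pos, hcard]
    exact Nat.two_pos
  obtain ⟨c, hc⟩ := hX
  unfold bX at hc
  rw [mem_filter] at hc
  obtain ⟨hcb, hcx⟩ := hc
  have hm := hQ.bc_mem c hcb
  have hcc := bc_cor Q hcb
  refine ⟨hcard, ?_⟩
  by_cases h3 : c.1 ∈ S
  · have h4 : c.2 ∉ S := fun h4 => hcx ⟨fun _ => h4, fun _ => h3⟩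
    obtain ⟨h5, h6⟩ := hcr hcc h3 h4
    exact ⟨⟨c.1, hm.1, h5⟩, ⟨c.2, hm.2, h6⟩⟩
  · have h4 : c.2 ∈ S := by
      by_contra h4
      exact hcx ⟨fun h => absurd h h3, fun h => absurd h h4⟩
    obtain ⟨h5, h6⟩ := hcr (Q.cor_symm hcc) h4 h3
    exact ⟨⟨c.2, hm.2, h5⟩, ⟨c.1, hm.1, h6⟩⟩

/-- at least one side meets the boundary -/
theorem side_or (hQ : Q.IsDisc) (ω : M → Bool) {x y : V} (h : Q.cor x y) :
    Q.Tb (Q.side ω x y) ∨ Q.Tb (Q.side ω y x) := by
  obtain ⟨z, hz⟩ := hQ.bd_ne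
  rw [Q.side_compl hQ ω h]
  by_cases hzS : z ∈ Q.side ω x y
  · exact Or.inl ⟨z, hzS, hz⟩
  · exact Or.inr ⟨z, mem_compl.2 hzS, hz⟩

end Quad

end P0q
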