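import Pool.Agent.Lib.P0q.K6Not

/-!
# K7CaseC: neither `u ~ v` nor `f ~ g` off `e` (Lemma 5 of Q4_proof.md)

`u = en e₀ true false`, `v = en e₀ true true`, `f = en e₀ false false`, `g = en e₀ false true`;
`¬ Cono u v`, `¬ Cono f g`.

`caseC_bd`: for `i, j : Bool` there is a boundary corner `c` with `Cono (en e₀ true i) c.1` and `Cono (en e₀ false j) c.2`. Proof:
let `ε a b = 1` if `Cono (en e₀ true i) a` and `Cono (en e₀ false j) b`, else `0` (`ZMod 2`). The sum of `ε` over the four corners of a square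
`e ≠ e₀` is `0` (the ends of the own diagonal of `e` are in the same class), for `e₀` it is `1` (only the corner
`(en e₀ true i, en e₀ false j)` counts, by the hypotheses; `Cono` is an equivalence relation). Sum over all squares: each corner
lying in two squares contributes `0`, so `1 = ∑_{c ∈ bc} ε c` and some `c ∈ bc` has `ε c = 1`.
(`∑_e ∑_{i,j} ε (en e true i) (en e false j) = ∑_{x active, y passive} |sq x y| ε x y`: for given `e` and `(x, y)` with
`e ∈ sq x y`, `x` active, `y` passive there is exactly one `(i, j)`, by `pr_en`, `en_ne`.)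
So each of the four classes meets `bd` (`bc_mem`).

Disjointness. `ω₁ = update ω e₀ true`, `ω₀ = update ω e₀ false`; `S_j = side ω₁ (en e₀ false j) u` (open at `e₀`; here
`u` may be replaced by `v`, they are in the same cluster), `R_i = side ω₀ (en e₀ true i) f`.
In `ω₁` the clusters of `f` and `g` are their `Cono`-classes (the square `e₀` uses its active diagonal), so `f, g` are not connected;
the cluster of `u` is the union of the classes of `u` and `v`. In `ω₀` similarly.
(a) `S_false ∩ S_true = ∅`: `f ∉ S_true` (`S_true` is the side of `g` for the corner `{g, u}`; if `f ∈ S_true` then the corner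
`{f, u}` crosses, so `Con ω₁ g f` by `side_cross`, contradiction). If `z ∈ S_false ∩ S_true`, a chain of steps avoiding `cl u` from
`f` to `z` (definition of `side`) leaves the complement of `S_true` at some step `a → b`, `a ∉ S_true`, `b ∈ S_true`: not an own diagonal
(`UC`), so a corner, and `side_cross` gives `Con ω₁ u a`, but the steps avoid `cl u`.
(b) `R_false ∩ R_true = ∅`: the same with the roles exchanged.
(c) `S_j ∩ R_i = ∅`: `f_j := en e₀ false j ∉ R_i` (`R_i` contains `en e₀ true i` and not `f`; and `g ~ f` in `ω₀`, so neither `f` nor `g` is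
in `R_i`). If `z ∈ S_j ∩ R_i`: the chain of steps from `f_j` to `z` for `ω₁` avoiding `cl u ∋ v`: it does not use the diagonal
`{u, v}` of `e₀`, so own diagonals in it are own diagonals of squares `≠ e₀` and do not leave `R_i`. So some corner
`{a, b}` has `a ∉ R_i`, `b ∈ R_i`: by `side_cross` for `R_i`, `Con ω₀ (en e₀ true i) b`, hence `Cono (en e₀ true i) b` (the `ω₀`-cluster of
an active vertex is its `Cono`-class), hence `Con ω₁ u b` (`u ~ v` in `ω₁`): but the steps avoid `cl u`.

`caseC_Tb`: `S_j` meets `bd` (it contains the class of `f_j`), and its complement `side ω₁ u f_j` meets `bd` (the class of `u`);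
the same for `R_i`.
-/

set_option autoImplicit false

open Finset P0de

namespace P0q

variable {V M : Type} [Fintype V] [DecidableEq V] [Fintype M] [DecidableEq M] (Q : Quad V M)

namespace Quad

namespace K7CaseCAux

theorem dgo_symm (ω : M → Bool) (e₀ : M) {x y : V} (h : Q.dgo ω e₀ x y) : Q.dgo ω e₀ y x := by
  obtain ⟨e, i, he, hx, hy⟩ := h
  exact ⟨e, !i, he, hy, by simpa using hx⟩

theorem Cono_symm (ω : M → Bool) (e₀ : M) {x y : V} (h : Q.Cono ω e₀ x y) :
    Q.Cono ω e₀ y x := by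
  unfold Cono at *
  induction h with
  | refl => exact Relation.ReflTransGen.refl
  | tail _ hbc ih => exact Relation.ReflTransGen.head (dgo_symm Q ω e₀ hbc) ih

theorem Cono_trans (ω : M → Bool) (e₀ : M) {x y z : V} (h : Q.Cono ω e₀ x y)
    (h' : Q.Cono ω e₀ y z) : Q.Cono ω e₀ x z := Relation.ReflTransGen.trans h h'

theorem Cono_own (ω : M → Bool) (e₀ : M) {e : M} (he : e ≠ e₀) :
    Q.Cono ω e₀ (Q.en e (ω e) false) (Q.en e (ω e) true) :=
  Relation.ReflTransGen.single ⟨e, false, he, rfl, rfl⟩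

/-- double count -/
theorem sum_sq (hQ : Q.IsDisc) (ε : V → V → ZMod 2) :
    ∑ e, ∑ i : Bool, ∑ j : Bool, ε (Q.en e true i) (Q.en e false j) =
      ∑ c ∈ Q.bc, ε c.1 c.2 := by
  have h1 : ∀ e, ∑ i : Bool, ∑ j : Bool, ε (Q.en e true i) (Q.en e false j) =
      ∑ c ∈ K2RelAux.K Q e, ε c.1 c.2 := fun e =>
    (K2RelAux.sum_K Q hQ e true (fun c => ε c.1 c.2)).symm
  have h2 : ∀ e, ∑ c ∈ K2RelAux.K Q e, ε c.1 c.2 =
      ∑ c : V × V, if c ∈ K2RelAux.K Q e then ε c.1 c.2 else 0 := by
    intro e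
    rw [← Finset.sum_filter]
    congr 1
    ext c
    simp
  simp_rw [h1, h2]
  rw [Finset.sum_comm, Quad.bc, Finset.sum_filter]
  apply Finset.sum_congr rfl
  rintro ⟨x, y⟩ -
  simp only [K2RelAux.mem_K_iff]
  by_cases hx : Q.pr x = true
  · by_cases hy : Q.pr y = false
    · have h3 : ∑ e, (if Q.pr x = true ∧ Q.pr y = false ∧ e ∈ Q.sq x y then ε x y else 0) =
          ((Q.sq x y).card : ZMod 2) * ε x y := by
        simp only [hx, hy, true_and]
        rw [← Finset.sum_filter, Finset.sum_const, nsmul_eq_mul]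
        congr 2
        congr 1
        ext e
        simp
      rw [h3]
      have hle := hQ.sq_le x y (by rw [hx, hy]; decide)
      simp only [hx, hy, true_and]
      have h4 : (Q.sq x y).card = 0 ∨ (Q.sq x y).card = 1 ∨ (Q.sq x y).card = 2 := by omega
      rcases h4 with h4 | h4 | h4
      · rw [h4]; simp
      · rw [h4]; simp
      · rw [h4]
        simp only [Nat.cast_ofNat, OfNat.ofNat_ne_one, if_false]
        have : (2 : ZMod 2) = 0 := by decide
        rw [this, zero_mul]
    · simp [hy]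
  · simp [hx]

end K7CaseCAux

theorem caseC_bd (hQ : Q.IsDisc) (ω : M → Bool) (e₀ : M)
    (h1 : ¬ Q.Cono ω e₀ (Q.en e₀ true false) (Q.en e₀ true true))
    (h2 : ¬ Q.Cono ω e₀ (Q.en e₀ false false) (Q.en e₀ false true)) (i j : Bool) :
    ∃ c ∈ Q.bc, Q.Cono ω e₀ (Q.en e₀ true i) c.1 ∧ Q.Cono ω e₀ (Q.en e₀ false j) c.2 := by
  classical
  set ε : V → V → ZMod 2 := fun a b =>
    if Q.Cono ω e₀ (Q.en e₀ true i) a ∧ Q.Cono ω e₀ (Q.en e₀ false j) b then 1 else 0 with hε
  have hL : ∀ a b c, Q.Cono ω e₀ a b → ε a c = ε b c := by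
    intro a b c hab
    have e1 : Q.Cono ω e₀ (Q.en e₀ true i) a ↔ Q.Cono ω e₀ (Q.en e₀ true i) b :=
      ⟨fun h => K7CaseCAux.Cono_trans Q ω e₀ h hab,
        fun h => K7CaseCAux.Cono_trans Q ω e₀ h (K7CaseCAux.Cono_symm Q ω e₀ hab)⟩
    simp only [hε, e1]
  have hR : ∀ a b c, Q.Cono ω e₀ a b → ε c a = ε c b := by
    intro a b c hab
    have e1 : Q.Cono ω e₀ (Q.en e₀ false j) a ↔ Q.Cono ω e₀ (Q.en e₀ false j) b :=
      ⟨fun h => K7CaseCAux.Cono_trans Q ω e₀ h hab,
        fun h => K7CaseCAux.Cono_trans Q ω e₀ h (K7CaseCAux.Cono_symm Q ω e₀ hab)⟩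
    simp only [hε, e1]
  have hzero : ∀ e, e ≠ e₀ →
      ∑ a : Bool, ∑ b : Bool, ε (Q.en e true a) (Q.en e false b) = 0 := by
    intro e he
    have h3 := K7CaseCAux.Cono_own Q ω e₀ he
    simp only [Fintype.sum_bool]
    cases hω : ω e with
    | true =>
      rw [hω] at h3
      rw [hL _ _ (Q.en e false true) h3, hL _ _ (Q.en e false false) h3]
      generalize ε (Q.en e true true) (Q.en e false true) = u
      generalize ε (Q.en e true true) (Q.en e false false) = v
      revert u v; decide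
    | false =>
      rw [hω] at h3
      rw [hR _ _ (Q.en e true true) h3, hR _ _ (Q.en e true false) h3]
      generalize ε (Q.en e true true) (Q.en e false true) = u
      generalize ε (Q.en e true false) (Q.en e false true) = v
      revert u v; decide
  have hn : ∀ c : Bool, ¬ Q.Cono ω e₀ (Q.en e₀ c false) (Q.en e₀ c true) := by
    intro c
    cases c
    · exact h2
    · exact h1
  have hiff : ∀ c k l : Bool, Q.Cono ω e₀ (Q.en e₀ c k) (Q.en e₀ c l) ↔ k = l := by
    intro c k l
    constructor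
    · intro h
      cases k <;> cases l
      · rfl
      · exact absurd h (hn c)
      · exact absurd (K7CaseCAux.Cono_symm Q ω e₀ h) (hn c)
      · rfl
    · rintro rfl
      exact Relation.ReflTransGen.refl
  have hone : ∑ a : Bool, ∑ b : Bool, ε (Q.en e₀ true a) (Q.en e₀ false b) = 1 := by
    simp only [hε, hiff, Fintype.sum_bool]
    cases i <;> cases j <;> simp
  have hsum : ∑ e, ∑ a : Bool, ∑ b : Bool, ε (Q.en e true a) (Q.en e false b) = 1 := by
    rw [Finset.sum_eq_single e₀]
    · exact hone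
    · intro e _ he
      exact hzero e he
    · intro h
      exact absurd (mem_univ _) h
  rw [K7CaseCAux.sum_sq Q hQ] at hsum
  obtain ⟨c, hc, hne⟩ := Finset.exists_ne_zero_of_sum_ne_zero (by rw [hsum]; decide :
    ∑ c ∈ Q.bc, ε c.1 c.2 ≠ 0)
  refine ⟨c, hc, ?_⟩
  by_contra hcc
  apply hne
  simp only [hε]
  rw [if_neg hcc]

/-- in the open configuration a passive vertex is connected to the same vertices as off `e₀`, and similarly closed/active -/
theorem K7CaseCAux.Con_gen (hQ : Q.IsDisc) (ω : M → Bool) (e₀ : M) (k : Bool) {x y : V}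
    (hx : Q.pr x = !k) :
    Q.Con (Function.update ω e₀ k) x y ↔ Q.Cono ω e₀ x y := by
  have hc : Q.Cono ω e₀ = Q.Cono (Function.update ω e₀ k) e₀ :=
    Q.Cono_congr (fun e he => by rw [Function.update_of_ne he])
  constructor
  · intro h
    rw [hc]
    unfold Con at h
    induction h with
    | refl => exact Relation.ReflTransGen.refl
    | @tail b c hab hbc ih =>
      refine Relation.ReflTransGen.tail ih ?_
      obtain ⟨e, i, hb, hc'⟩ := hbc
      refine ⟨e, i, ?_, hb, hc'⟩
      rintro rfl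
      have h3 := Q.Con_pr hQ _ (show Q.Con (Function.update ω e k) x b from hab)
      rw [hx, hb, hQ.pr_en, Function.update_self] at h3
      cases k <;> simp at h3
  · intro h
    rw [hc] at h
    exact Q.Cono_Con h

theorem Con_up (hQ : Q.IsDisc) (ω : M → Bool) (e₀ : M) {x y : V} (hx : Q.pr x = false) :
    Q.Con (Function.update ω e₀ true) x y ↔ Q.Cono ω e₀ x y :=
  K7CaseCAux.Con_gen Q hQ ω e₀ true hx

theorem Con_dn (hQ : Q.IsDisc) (ω : M → Bool) (e₀ : M) {x y : V} (hx : Q.pr x = true) :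
    Q.Con (Function.update ω e₀ false) x y ↔ Q.Cono ω e₀ x y :=
  K7CaseCAux.Con_gen Q hQ ω e₀ false hx

namespace K7CaseCAux

theorem cor_en (hQ : Q.IsDisc) (e : M) (c i j : Bool) : Q.cor (Q.en e c i) (Q.en e (!c) j) :=
  (Q.cor_iff hQ).2 ⟨e, c, i, j, rfl, rfl⟩

/-- two sides with the same avoided cluster are disjoint if their base points are not connected -/
theorem disj (hQ : Q.IsDisc) (ω : M → Bool) {x x' y : V} (h : Q.cor x y) (h' : Q.cor x' y)
    (hn : ¬ Q.Con ω x' x) : Disjoint (Q.side ω x y) (Q.side ω x' y) := by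
  have hy : y ∉ Q.side ω x' y := by
    have := Q.mem_side_self ω y x'
    rw [Q.side_compl hQ ω h'] at this
    exact mem_compl.1 this
  have hx : x ∉ Q.side ω x' y := by
    intro hx
    exact hn (Q.side_cross hQ ω h' h hx hy).1
  rw [Finset.disjoint_left]
  intro z hz
  unfold side at hz
  simp only [mem_filter, mem_univ, true_and] at hz
  induction hz with
  | refl => exact hx
  | @tail a b _ hab ih =>
    intro hb
    obtain ⟨ha1, hb1, hc | hc⟩ := hab
    · exact ha1 (Q.side_cross hQ ω h' (Q.cor_symm hc) hb ih).2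
    · exact ih ((Q.UC_Con ω (Q.side_UC hQ ω h') (Relation.ReflTransGen.single hc)).2 hb)

end K7CaseCAux

theorem caseC_disj_S (hQ : Q.IsDisc) (ω : M → Bool) (e₀ : M)
    (h2 : ¬ Q.Cono ω e₀ (Q.en e₀ false false) (Q.en e₀ false true)) :
    Disjoint (Q.side (Function.update ω e₀ true) (Q.en e₀ false false) (Q.en e₀ true false))
      (Q.side (Function.update ω e₀ true) (Q.en e₀ false true) (Q.en e₀ true false)) := by
  apply K7CaseCAux.disj Q hQ
  · exact K7CaseCAux.cor_en Q hQ e₀ false _ _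
  · exact K7CaseCAux.cor_en Q hQ e₀ false _ _
  · rw [Q.Con_up hQ ω e₀ (hQ.pr_en _ _ _)]
    exact fun h => h2 (K7CaseCAux.Cono_symm Q ω e₀ h)

theorem caseC_disj_R (hQ : Q.IsDisc) (ω : M → Bool) (e₀ : M)
    (h1 : ¬ Q.Cono ω e₀ (Q.en e₀ true false) (Q.en e₀ true true)) :
    Disjoint (Q.side (Function.update ω e₀ false) (Q.en e₀ true false) (Q.en e₀ false false))
      (Q.side (Function.update ω e₀ false) (Q.en e₀ true true) (Q.en e₀ false false)) := by
  apply K7CaseCAux.disj Q hQ
  · exact K7CaseCAux.cor_en Q hQ e₀ true _ _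
  · exact K7CaseCAux.cor_en Q hQ e₀ true _ _
  · rw [Q.Con_dn hQ ω e₀ (hQ.pr_en _ _ _)]
    exact fun h => h1 (K7CaseCAux.Cono_symm Q ω e₀ h)

theorem caseC_disj_SR (hQ : Q.IsDisc) (ω : M → Bool) (e₀ : M)
    (h1 : ¬ Q.Cono ω e₀ (Q.en e₀ true false) (Q.en e₀ true true))
    (h2 : ¬ Q.Cono ω e₀ (Q.en e₀ false false) (Q.en e₀ false true)) (i j : Bool) :
    Disjoint (Q.side (Function.update ω e₀ true) (Q.en e₀ false j) (Q.en e₀ true false))
      (Q.side (Function.update ω e₀ false) (Q.en e₀ true i) (Q.en e₀ false false)) := by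
  set ω₁ : M → Bool := Function.update ω e₀ true with hω₁
  set ω₀ : M → Bool := Function.update ω e₀ false with hω₀
  have hv1 : ω₁ e₀ = true := by rw [hω₁]; simp
  have hv0 : ω₀ e₀ = false := by rw [hω₀]; simp
  have h10 : ∀ e, e ≠ e₀ → ω₁ e = ω₀ e := fun e he => by
    rw [hω₁, hω₀, Function.update_of_ne he, Function.update_of_ne he]
  have hcR : Q.cor (Q.en e₀ true i) (Q.en e₀ false false) := K7CaseCAux.cor_en Q hQ e₀ true _ _
  have hU : Q.UC ω₀ (Q.side ω₀ (Q.en e₀ true i) (Q.en e₀ false false)) := Q.side_UC hQ ω₀ hcR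
  -- the active ends are connected in `ω₁`
  have huv : ∀ k, Q.Con ω₁ (Q.en e₀ true false) (Q.en e₀ true k) := by
    intro k
    cases k
    · exact Relation.ReflTransGen.refl
    · refine Relation.ReflTransGen.single ⟨e₀, false, ?_, ?_⟩
      · rw [hv1]
      · rw [hv1]; rfl
  have hf : Q.en e₀ false false ∉ Q.side ω₀ (Q.en e₀ true i) (Q.en e₀ false false) := by
    have := Q.mem_side_self ω₀ (Q.en e₀ false false) (Q.en e₀ true i)
    rw [Q.side_compl hQ ω₀ hcR] at this
    exact mem_compl.1 this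
  have hfj : Q.en e₀ false j ∉ Q.side ω₀ (Q.en e₀ true i) (Q.en e₀ false false) := by
    cases j
    · exact hf
    · intro h
      apply hf
      refine (Q.UC_Con ω₀ hU ?_).2 h
      refine Relation.ReflTransGen.single ⟨e₀, false, ?_, ?_⟩
      · rw [hv0]
      · rw [hv0]; rfl
  rw [Finset.disjoint_left]
  intro z hz
  unfold side at hz
  simp only [mem_filter, mem_univ, true_and] at hz
  induction hz with
  | refl => exact hfj
  | @tail a b _ hab ih =>
    intro hb
    obtain ⟨ha1, hb1, hc | hc⟩ := hab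
    · have h3 := (Q.side_cross hQ ω₀ hcR (Q.cor_symm hc) hb ih).1
      rw [hω₀, Q.Con_dn hQ ω e₀ (hQ.pr_en _ _ _)] at h3
      have hcg : Q.Cono ω e₀ = Q.Cono ω₁ e₀ :=
        Q.Cono_congr (fun e he => by rw [hω₁, Function.update_of_ne he])
      rw [hcg] at h3
      exact hb1 (Relation.ReflTransGen.trans (huv i) (Q.Cono_Con h3))
    · obtain ⟨e, k, hae, hbe⟩ := hc
      by_cases he : e = e₀
      · subst he
        rw [hv1] at hae
        rw [hae] at ha1
        exact ha1 (huv k)
      · rw [h10 e he] at hae hbe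
        exact ih ((Q.UC_Con ω₀ hU (Relation.ReflTransGen.single ⟨e, k, hae, hbe⟩)).2 hb)

theorem caseC_Tb (hQ : Q.IsDisc) (ω : M → Bool) (e₀ : M)
    (h1 : ¬ Q.Cono ω e₀ (Q.en e₀ true false) (Q.en e₀ true true))
    (h2 : ¬ Q.Cono ω e₀ (Q.en e₀ false false) (Q.en e₀ false true)) (i j : Bool) :
    Q.Tb (Q.side (Function.update ω e₀ true) (Q.en e₀ false j) (Q.en e₀ true i)) ∧
    Q.Tb (Q.side (Function.update ω e₀ true) (Q.en e₀ true i) (Q.en e₀ false j)) ∧
    Q.Tb (Q.side (Function.update ω e₀ false) (Q.en e₀ false j) (Q.en e₀ true i)) ∧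
    Q.Tb (Q.side (Function.update ω e₀ false) (Q.en e₀ true i) (Q.en e₀ false j)) := by
  obtain ⟨c, hc, hc1, hc2⟩ := Q.caseC_bd hQ ω e₀ h1 h2 i j
  obtain ⟨hb1, hb2⟩ := hQ.bc_mem c hc
  have key : ∀ k : Bool, ∀ x y z : V, Q.cor x y → Q.Cono ω e₀ x z → z ∈ Q.bd →
      Q.Tb (Q.side (Function.update ω e₀ k) x y) := by
    intro k x y z hxy hxz hz
    refine ⟨z, ?_, hz⟩
    have hcg : Q.Cono ω e₀ = Q.Cono (Function.update ω e₀ k) e₀ :=
      Q.Cono_congr (fun e he => by rw [Function.update_of_ne he])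
    rw [hcg] at hxz
    exact (Q.UC_Con _ (Q.side_UC hQ _ hxy) (Q.Cono_Con hxz)).1 (Q.mem_side_self _ x y)
  have k1 : Q.cor (Q.en e₀ false j) (Q.en e₀ true i) := K7CaseCAux.cor_en Q hQ e₀ false _ _
  have k2 : Q.cor (Q.en e₀ true i) (Q.en e₀ false j) := K7CaseCAux.cor_en Q hQ e₀ true _ _
  exact ⟨key _ _ _ _ k1 hc2 hb2, key _ _ _ _ k2 hc1 hb1, key _ _ _ _ k1 hc2 hb2,
    key _ _ _ _ k2 hc1 hb1⟩

end Quad

end P0q
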