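import Pool.Agent.Lib.P0q.H6CaseCZ
import Pool.Agent.Lib.P0q.H10Nu
import Pool.Agent.Lib.P0q.H11Near
import Pool.Agent.Lib.P0q.B8Con

/-!
# R0Lam: the parameter `lam q` and the weights `nuW`, `rhoW`

`lam q = log ((√q + √(q - 4)) / 2)`: for `q > 4` the number `t = (√q + √(q-4))/2 > 1` satisfies `t + 1/t = √q`
(`t (√q - √(q-4))/2 = 1`), so `2 cosh (lam q) = √q`, `lam q > 0`; `exp (lam q) ≤ 2 cosh (lam q) = √q`.

-/

set_option autoImplicit false

open Finset P0de

namespace P0q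

noncomputable def lam (q : ℝ) : ℝ := Real.log ((√q + √(q - 4)) / 2)

theorem lam_spec {q : ℝ} (hq : 4 < q) : 0 < lam q ∧ 2 * Real.cosh (lam q) = √q ∧
    Real.exp (lam q) ≤ √q := by
  have h1 : √q * √q = q := Real.mul_self_sqrt (by linarith)
  have h2 : √(q - 4) * √(q - 4) = q - 4 := Real.mul_self_sqrt (by linarith)
  have h3 : 2 < √q := by
    have h : √(4 : ℝ) < √q := Real.sqrt_lt_sqrt (by norm_num) hq
    have h4 : √(4 : ℝ) = 2 := by
      rw [show (4 : ℝ) = 2 ^ 2 by norm_num]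
      exact Real.sqrt_sq (by norm_num)
    linarith
  have h5 : 0 < √(q - 4) := Real.sqrt_pos.2 (by linarith)
  have h6 : √(q - 4) ≤ √q := Real.sqrt_le_sqrt (by linarith)
  have ht : 1 < (√q + √(q - 4)) / 2 := by linarith
  have ht0 : 0 < (√q + √(q - 4)) / 2 := by linarith
  have hinv : ((√q + √(q - 4)) / 2)⁻¹ = (√q - √(q - 4)) / 2 := by
    apply inv_eq_of_mul_eq_one_right
    nlinarith
  refine ⟨Real.log_pos ht, ?_, ?_⟩
  · rw [lam, Real.cosh_log ht0, hinv]
    ring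
  · rw [lam, Real.exp_log ht0]
    linarith

/-- the weight `ν` of the free heights -/
noncomputable def nuW (q θ : ℝ) (a b : ℤ) (hab : a < b) (η : Finset Ed) : ℝ :=
  (BQ a b).Zf (crn a b hab 0) (lam q / 4) (Quad.Fch θ (crn a b hab 0) (crn a b hab 2)) (cf a b η)

/-- the weight `ρ` of the heights with boundary values `0`, `1` -/
noncomputable def rhoW (q : ℝ) (a b : ℤ) (hab : a < b) (η : Finset Ed) : ℝ :=
  (BQ a b).Zf (crn a b hab 0) (lam q / 4) (BQ a b).F01 (cf a b η)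

theorem nuW_pos {q : ℝ} (θ : ℝ) {a b : ℤ} (hab : a < b) (η : Finset Ed) :
    0 < nuW q θ a b hab η := by
  unfold nuW
  refine (BQ a b).Zf_pos (isDisc hab) rfl _ _ (fun h => (Real.cosh_pos _).le) ?_ _
  exact Real.cosh_pos _

theorem rhoW_pos {q : ℝ} {a b : ℤ} (hab : a < b) (η : Finset Ed) :
    0 < rhoW q a b hab η := by
  unfold rhoW
  refine (BQ a b).Zf_pos (isDisc hab) rfl _ _ (fun h => ?_) ?_ _
  · unfold Quad.F01
    split_ifs <;> norm_num
  · unfold Quad.F01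
    rw [if_pos]
    · norm_num
    · intro z _
      rfl

end P0q
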