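import Pool.Agent.Lib.P0q.R0Case
import Pool.Agent.Lib.P0q.B10Am

/-!
# R10Sn: the number of enclosing corners of a square (section 5 of Q4_proof.md)

`Sn η e` = number of the four corners `(x, y)` of `e` (`x ∈ {src e, tgt e}`, `y ∈ {pu e, pl e}`) with `Am η x y`.
`η ⊆ inner a (b+1)`, `e ∈ inner a (b+1) \ η`; `S_c = Sn η e`, `S_o = Sn (insert e η) e`. `Q = BQ a b`, `ω₀ = cf η`,
`ω₁ = cf (insert e η)`, sides as in `K7CaseC`/`K8CaseA` (`am_side`: `Am η x y` iff `side ω y x` misses `bd`).
- case A (`Conn η u v`): `S' = side ω₀ f u = S_f ∪ S_g` (`caseA_union`), `S_f` or `S_g` misses `bd` (`caseA_or`). In `ω₁` `u` and `v` are in the same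
  cluster, so `side ω₁ f v = side ω₁ f u` (the definition of `side` only uses the cluster of the second vertex), and in
  `ω₀` all four corners have the sides `side ω₀ f u = side ω₀ g u = side ω₀ f v = side ω₀ g v` (`f ~ g`, `u ~ v`;
  `side ω f u = side ω g u` if `Con ω f g`: both are the unique set of `side_unique`). So
  `S_o = 2[S_f misses] + 2[S_g misses]`, `S_c = 4[S_f and S_g miss]`: `(S_c, S_o) = (0, 2)` or `(4, 4)`.
- case B (`pu e, pl e` connected off `e`): case A for the dual disc: `R' = side ω₁ u f = R_u ∪ R_v`, `R_u = side ω₀ u f`,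
  `R_v = side ω₀ v f`, one of them misses `bd`. `Am` for the corner `(u, f)` in `ω₀`: `side ω₀ f u = R_uᶜ` misses `bd` iff `bd ⊆ R_u`.
  `S_c = 2[bd ⊆ R_u] + 2[bd ⊆ R_v]`, `S_o = 4[bd ⊆ R']`; if `R_u` misses `bd` (nonempty) then `bd ⊆ R'` iff `bd ⊆ R_v`:
  `(S_c, S_o) = (0, 0)` or `(2, 4)`.
- case C (neither): by `caseC_Tb` all sides of all four corners meet `bd` in `ω₀` and in `ω₁`: `(0, 0)`.
`Sn_up`: `Am_up`, `Conn.mono`.
-/

set_option autoImplicit false

open Finset P0de

namespace P0q

namespace R10SnAux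

variable {V M : Type} [Fintype V] [DecidableEq V] [Fintype M] [DecidableEq M] (Q : Quad V M)

theorem side_right (ω : M → Bool) {x y y' : V} (h : Q.Con ω y y') :
    Q.side ω x y = Q.side ω x y' := by
  have hc : ∀ z, Q.Con ω y z ↔ Q.Con ω y' z := fun z =>
    ⟨fun h1 => Relation.ReflTransGen.trans (Q.Con_symm ω h) h1,
      fun h1 => Relation.ReflTransGen.trans h h1⟩
  have h1 : Q.stp ω y = Q.stp ω y' := by
    funext a b
    unfold Quad.stp
    rw [hc a, hc b]
  unfold Quad.side
  rw [h1]

theorem side_left (hQ : Q.IsDisc) (ω : M → Bool) {x x' y : V} (hc : Q.cor x y) (hc' : Q.cor x' y)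
    (h : Q.Con ω x x') : Q.side ω x y = Q.side ω x' y := by
  rw [Q.side_compl hQ ω (Q.cor_symm hc), Q.side_compl hQ ω (Q.cor_symm hc'),
    side_right Q ω h]

open Classical in
/-- indicator of missing the boundary -/
noncomputable def ms (S : Finset V) : ℕ := if ¬ Q.Tb S then 1 else 0

theorem ms_one {S : Finset V} (h : ¬ Q.Tb S) : ms Q S = 1 := by
  unfold ms
  rw [if_pos h]

theorem ms_zero {S : Finset V} (h : Q.Tb S) : ms Q S = 0 := by
  unfold ms
  rw [if_neg (not_not.2 h)]

/-- the number of corners of `e` whose passive side misses the boundary -/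
noncomputable def four (ω : M → Bool) (e : M) : ℕ :=
  ms Q (Q.side ω (Q.en e false false) (Q.en e true false)) +
  ms Q (Q.side ω (Q.en e false true) (Q.en e true false)) +
  ms Q (Q.side ω (Q.en e false false) (Q.en e true true)) +
  ms Q (Q.side ω (Q.en e false true) (Q.en e true true))

theorem cor_en (hQ : Q.IsDisc) (e : M) (i j : Bool) : Q.cor (Q.en e false j) (Q.en e true i) :=
  (Q.cor_iff hQ).2 ⟨e, false, j, i, rfl, rfl⟩

theorem Tb_union {S T : Finset V} : Q.Tb (S ∪ T) ↔ Q.Tb S ∨ Q.Tb T := by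
  constructor
  · rintro ⟨z, hz, hb⟩
    rcases mem_union.1 hz with hz | hz
    · exact Or.inl ⟨z, hz, hb⟩
    · exact Or.inr ⟨z, hz, hb⟩
  · rintro (⟨z, hz, hb⟩ | ⟨z, hz, hb⟩)
    · exact ⟨z, mem_union_left _ hz, hb⟩
    · exact ⟨z, mem_union_right _ hz, hb⟩

theorem dg_own (ω : M → Bool) (e : M) : Q.Con ω (Q.en e (ω e) false) (Q.en e (ω e) true) :=
  Relation.ReflTransGen.single ⟨e, false, rfl, rfl⟩

theorem con_upd (ω : M → Bool) (e : M) (c : Bool) :
    Q.Con (Function.update ω e c) (Q.en e c false) (Q.en e c true) := by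
  have h := dg_own Q (Function.update ω e c) e
  rw [Function.update_self] at h
  exact h

theorem cono_upd (ω : M → Bool) (e : M) (c : Bool) {x y : V} (h : Q.Cono ω e x y) :
    Q.Con (Function.update ω e c) x y := by
  apply Quad.Cono_Con Q (e₀ := e)
  rw [Quad.Cono_congr Q (ω' := ω) (fun e' he => by rw [Function.update_of_ne he])]
  exact h

theorem caseA (hQ : Q.IsDisc) (ω : M → Bool) (e : M)
    (h1 : Q.Cono ω e (Q.en e true false) (Q.en e true true)) :
    (four Q (Function.update ω e false) e = 0 ∧ four Q (Function.update ω e true) e = 2) ∨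
    (four Q (Function.update ω e false) e = 4 ∧ four Q (Function.update ω e true) e = 4) := by
  set u := Q.en e true false with hu
  set v := Q.en e true true with hv
  set f := Q.en e false false with hf
  set g := Q.en e false true with hg
  have cfu : Q.cor f u := cor_en Q hQ e false false
  have cgu : Q.cor g u := cor_en Q hQ e false true
  have cfv : Q.cor f v := cor_en Q hQ e true false
  have cgv : Q.cor g v := cor_en Q hQ e true true
  have hfg : Q.Con (Function.update ω e false) f g := con_upd Q ω e false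
  have huv : Q.Con (Function.update ω e true) u v := con_upd Q ω e true
  have huv0 : Q.Con (Function.update ω e false) u v := cono_upd Q ω e false h1
  have hun : Q.side (Function.update ω e false) f u = _ := Q.caseA_union hQ ω e h1
  have hor := Q.caseA_or hQ ω e h1
  have e0 : four Q (Function.update ω e false) e =
      4 * ms Q (Q.side (Function.update ω e false) f u) := by
    unfold four
    rw [← hu, ← hv, ← hf, ← hg, side_left Q hQ _ cgu cfu (Q.Con_symm _ hfg),
      side_left Q hQ _ cgv cfv (Q.Con_symm _ hfg), side_right Q _ (Q.Con_symm _ huv0) (x := f)]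
    ring
  have e1 : four Q (Function.update ω e true) e =
      2 * ms Q (Q.side (Function.update ω e true) f u) +
      2 * ms Q (Q.side (Function.update ω e true) g u) := by
    unfold four
    rw [← hu, ← hv, ← hf, ← hg, side_right Q _ (Q.Con_symm _ huv) (x := f),
      side_right Q _ (Q.Con_symm _ huv) (x := g)]
    ring
  rw [e0, e1, hun, ← hu, ← hf, ← hg]
  rw [← hu, ← hf, ← hg] at hor
  by_cases h2 : Q.Tb (Q.side (Function.update ω e true) f u)
  · have h3 : ¬ Q.Tb (Q.side (Function.update ω e true) g u) := hor.resolve_left (not_not.2 h2)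
    left
    rw [ms_zero Q ((Tb_union Q).2 (Or.inl h2)), ms_zero Q h2, ms_one Q h3]
    exact ⟨rfl, rfl⟩
  · by_cases h3 : Q.Tb (Q.side (Function.update ω e true) g u)
    · left
      rw [ms_zero Q ((Tb_union Q).2 (Or.inr h3)), ms_zero Q h3, ms_one Q h2]
      exact ⟨rfl, rfl⟩
    · right
      rw [ms_one Q (fun h => ((Tb_union Q).1 h).elim h2 h3), ms_one Q h2, ms_one Q h3]
      exact ⟨rfl, rfl⟩

theorem caseB (hQ : Q.IsDisc) (ω : M → Bool) (e : M)
    (h1 : Q.Cono ω e (Q.en e false false) (Q.en e false true)) :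
    (four Q (Function.update ω e false) e = 0 ∧ four Q (Function.update ω e true) e = 0) ∨
    (four Q (Function.update ω e false) e = 2 ∧ four Q (Function.update ω e true) e = 4) := by
  have hQd := Q.dual_isDisc hQ
  have h1' : Q.dual.Cono (fun e => !ω e) e (Q.dual.en e true false) (Q.dual.en e true true) := by
    rw [Q.dual_Cono]
    exact h1
  have hun := Q.dual.caseA_union hQd (fun e => !ω e) e h1'
  have hor := Q.dual.caseA_or hQd (fun e => !ω e) e h1'
  have e1 : Function.update (fun e => !ω e) e true =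
      fun e' => !(Function.update ω e false) e' := by
    funext e'
    by_cases h : e' = e
    · subst h
      simp
    · rw [Function.update_of_ne h, Function.update_of_ne h]
  have e2 : Function.update (fun e => !ω e) e false =
      fun e' => !(Function.update ω e true) e' := by
    funext e'
    by_cases h : e' = e
    · subst h
      simp
    · rw [Function.update_of_ne h, Function.update_of_ne h]
  rw [e1, e2, Q.dual_side, Q.dual_side, Q.dual_side] at hun
  rw [e1, Q.dual_side, Q.dual_side] at hor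
  have hTb : ∀ S, Q.dual.Tb S ↔ Q.Tb S := fun S => Iff.rfl
  rw [hTb, hTb] at hor
  set u := Q.en e true false with hu
  set v := Q.en e true true with hv
  set f := Q.en e false false with hf
  set g := Q.en e false true with hg
  have cfu : Q.cor f u := cor_en Q hQ e false false
  have cgu : Q.cor g u := cor_en Q hQ e false true
  have cfv : Q.cor f v := cor_en Q hQ e true false
  have cgv : Q.cor g v := cor_en Q hQ e true true
  have hfg : Q.Con (Function.update ω e false) f g := con_upd Q ω e false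
  have huv : Q.Con (Function.update ω e true) u v := con_upd Q ω e true
  have hfg1 : Q.Con (Function.update ω e true) f g := cono_upd Q ω e true h1
  have hun' : Q.side (Function.update ω e true) u f =
      Q.side (Function.update ω e false) u f ∪ Q.side (Function.update ω e false) v f := hun
  have hor' : ¬ Q.Tb (Q.side (Function.update ω e false) u f) ∨
      ¬ Q.Tb (Q.side (Function.update ω e false) v f) := hor
  have e0 : four Q (Function.update ω e false) e =
      2 * ms Q (Q.side (Function.update ω e false) u f)ᶜ +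
      2 * ms Q (Q.side (Function.update ω e false) v f)ᶜ := by
    unfold four
    rw [← hu, ← hv, ← hf, ← hg, side_left Q hQ _ cgu cfu (Q.Con_symm _ hfg),
      side_left Q hQ _ cgv cfv (Q.Con_symm _ hfg), Q.side_compl hQ _ (Q.cor_symm cfu),
      Q.side_compl hQ _ (Q.cor_symm cfv)]
    ring
  have e3 : four Q (Function.update ω e true) e =
      4 * ms Q (Q.side (Function.update ω e true) u f)ᶜ := by
    unfold four
    rw [← hu, ← hv, ← hf, ← hg, side_left Q hQ _ cgu cfu (Q.Con_symm _ hfg1),
      side_left Q hQ _ cgv cfv (Q.Con_symm _ hfg1), side_right Q _ (Q.Con_symm _ huv) (x := f),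
      Q.side_compl hQ _ (Q.cor_symm cfu)]
    ring
  rw [e0, e3, hun']
  obtain ⟨z, hz⟩ := hQ.bd_ne
  have key : ∀ R T : Finset V, ¬ Q.Tb R → ms Q Rᶜ = 0 ∧ ms Q (R ∪ T)ᶜ = ms Q Tᶜ := by
    intro R T hR
    have hR' : ∀ z ∈ Q.bd, z ∉ R := fun z hz h => hR ⟨z, h, hz⟩
    refine ⟨ms_zero Q ⟨z, mem_compl.2 (hR' z hz), hz⟩, ?_⟩
    by_cases hT : Q.Tb Tᶜ
    · rw [ms_zero Q hT]
      obtain ⟨y, hy, hb⟩ := hT
      refine ms_zero Q ⟨y, ?_, hb⟩
      rw [mem_compl, mem_union, not_or]
      exact ⟨hR' y hb, mem_compl.1 hy⟩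
    · rw [ms_one Q hT]
      refine ms_one Q ?_
      rintro ⟨y, hy, hb⟩
      rw [mem_compl, mem_union, not_or] at hy
      exact hT ⟨y, mem_compl.2 hy.2, hb⟩
  have key2 : ∀ T : Finset V, ms Q T = 0 ∨ ms Q T = 1 := by
    intro T
    by_cases hT : Q.Tb T
    · exact Or.inl (ms_zero Q hT)
    · exact Or.inr (ms_one Q hT)
  rcases hor' with h2 | h2
  · obtain ⟨k1, k2⟩ := key _ (Q.side (Function.update ω e false) v f) h2
    rw [k1, k2]
    rcases key2 (Q.side (Function.update ω e false) v f)ᶜ with h3 | h3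
    · left
      rw [h3]
      exact ⟨rfl, rfl⟩
    · right
      rw [h3]
      exact ⟨rfl, rfl⟩
  · obtain ⟨k1, k2⟩ := key _ (Q.side (Function.update ω e false) u f) h2
    rw [union_comm, k1, k2]
    rcases key2 (Q.side (Function.update ω e false) u f)ᶜ with h3 | h3
    · left
      rw [h3]
      exact ⟨rfl, rfl⟩
    · right
      rw [h3]
      exact ⟨rfl, rfl⟩

theorem caseC (hQ : Q.IsDisc) (ω : M → Bool) (e : M)
    (h1 : ¬ Q.Cono ω e (Q.en e true false) (Q.en e true true))
    (h2 : ¬ Q.Cono ω e (Q.en e false false) (Q.en e false true)) :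
    four Q (Function.update ω e false) e = 0 ∧ four Q (Function.update ω e true) e = 0 := by
  have h := fun i j => Q.caseC_Tb hQ ω e h1 h2 i j
  unfold four
  constructor
  · rw [ms_zero Q (h false false).2.2.1, ms_zero Q (h false true).2.2.1,
      ms_zero Q (h true false).2.2.1, ms_zero Q (h true true).2.2.1]
  · rw [ms_zero Q (h false false).1, ms_zero Q (h false true).1,
      ms_zero Q (h true false).1, ms_zero Q (h true true).1]

end R10SnAux

open R10SnAux

open Classical in
/-- number of the corners of `e` with the enclosing event -/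
noncomputable def Sn (η : Finset Ed) (e : Ed) : ℕ :=
  (if Am η (src e) (pu e) then 1 else 0) + (if Am η (src e) (pl e) then 1 else 0) +
  (if Am η (tgt e) (pu e) then 1 else 0) + (if Am η (tgt e) (pl e) then 1 else 0)

theorem R10SnAux.Sn_eq {a b : ℤ} (hab : a < b) {η : Finset Ed} (hη : η ⊆ inner a (b + 1))
    {e : Ed} (he : e ∈ inner a (b + 1)) : Sn η e = four (BQ a b) (cf a b η) ⟨e, he⟩ := by
  have h := en_mem he
  have e1 := am_side hab hη h.1 h.2.2.1 (flip_pu_src e)
  have e2 := am_side hab hη h.1 h.2.2.2 (flip_pl_src e)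
  have e3 := am_side hab hη h.2.1 h.2.2.1 (flip_pu_tgt e)
  have e4 := am_side hab hη h.2.1 h.2.2.2 (flip_pl_tgt e)
  have key : ∀ (A : Prop) (S : Finset (VV a b)) (i : Decidable A), (A ↔ ¬ (BQ a b).Tb S) →
      (@ite ℕ A i 1 0) = ms (BQ a b) S := by
    intro A S i hA
    by_cases hS : (BQ a b).Tb S
    · rw [if_neg (fun h => hA.1 h hS), ms_zero _ hS]
    · rw [if_pos (hA.2 hS), ms_one _ hS]
  unfold Sn
  rw [key _ _ _ e1, key _ _ _ e2, key _ _ _ e3, key _ _ _ e4]
  rfl

theorem Sn_cases {a b : ℤ} (hab : a < b) {η : Finset Ed} (hη : η ⊆ inner a (b + 1)) {e : Ed}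
    (he : e ∈ inner a (b + 1)) (hn : e ∉ η) :
    (Conn η (src e) (tgt e) →
      (Sn η e = 0 ∧ Sn (insert e η) e = 2) ∨ (Sn η e = 4 ∧ Sn (insert e η) e = 4)) ∧
    (Conn (dual a b (insert e η)) (pu e) (pl e) →
      (Sn η e = 0 ∧ Sn (insert e η) e = 0) ∨ (Sn η e = 2 ∧ Sn (insert e η) e = 4)) ∧
    (¬ Conn η (src e) (tgt e) → ¬ Conn (dual a b (insert e η)) (pu e) (pl e) →
      Sn η e = 0 ∧ Sn (insert e η) e = 0) := by
  have hQ := isDisc hab
  have hη' : insert e η ⊆ inner a (b + 1) := insert_subset he hη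
  have h := en_mem he
  have s0 := Sn_eq hab hη he
  have s1 := Sn_eq hab hη' he
  have u0 : cf a b η = Function.update (cf a b η) ⟨e, he⟩ false := cf_erase ⟨e, he⟩ hn
  have u1 : cf a b (insert e η) = Function.update (cf a b η) ⟨e, he⟩ true := cf_insert η ⟨e, he⟩
  rw [u0] at s0
  rw [u1] at s1
  have c1 : (BQ a b).Cono (cf a b η) ⟨e, he⟩ ((BQ a b).en ⟨e, he⟩ true false)
      ((BQ a b).en ⟨e, he⟩ true true) ↔ Conn η (src e) (tgt e) := by
    have := cono_act hη ⟨e, he⟩ h.1 h.2.1
    rw [erase_eq_of_notMem hn] at this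
    exact this
  have c2 : (BQ a b).Cono (cf a b η) ⟨e, he⟩ ((BQ a b).en ⟨e, he⟩ false false)
      ((BQ a b).en ⟨e, he⟩ false true) ↔ Conn (dual a b (insert e η)) (pu e) (pl e) :=
    cono_pas η ⟨e, he⟩ h.2.2.1 h.2.2.2
  rw [s0, s1, ← c1, ← c2]
  exact ⟨fun h1 => caseA _ hQ _ _ h1, fun h1 => caseB _ hQ _ _ h1,
    fun h1 h2 => caseC _ hQ _ _ h1 h2⟩

/-- the events are increasing -/
theorem Sn_up (e : Ed) : Up (fun η => Conn (η.erase e) (src e) (tgt e)) ∧
    Up (fun η => Sn (insert e η) e = 4) := by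
  refine ⟨fun η η' h h1 => Conn.mono (erase_subset_erase e h) h1, fun η η' h h1 => ?_⟩
  replace h1 : Sn (insert e η) e = 4 := h1
  have hsub : insert e η ⊆ insert e η' := insert_subset_insert e h
  have key : ∀ x q, Am (insert e η) x q → Am (insert e η') x q := fun x q => Am_up x q _ _ hsub
  have h2 : Am (insert e η) (src e) (pu e) ∧ Am (insert e η) (src e) (pl e) ∧
      Am (insert e η) (tgt e) (pu e) ∧ Am (insert e η) (tgt e) (pl e) := by
    unfold Sn at h1
    refine ⟨?_, ?_, ?_, ?_⟩ <;>
    · by_contra h3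
      rw [if_neg h3] at h1
      split_ifs at h1 <;> omega
  show Sn (insert e η') e = 4
  unfold Sn
  rw [if_pos (key _ _ h2.1), if_pos (key _ _ h2.2.1), if_pos (key _ _ h2.2.2.1),
    if_pos (key _ _ h2.2.2.2)]

end P0q
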