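import Pool.Agent.Lib.P0q.Defs

/-!
# R1Dom: Holley's comparison and FKG for weights on the subsets of a finite set of edges

`w, w' > 0` on the subsets of `E`, and for `η ⊆ η' ⊆ E`, `e ∈ E \ η'`: `w (insert e η) w' η' ≤ w η w' (insert e η')`
(the conditional odds of `e` are smaller for `w`). Then for `A, B ⊆ E`: `w A w' B ≤ w (A ∩ B) w' (A ∪ B)`: induction on `|A \ B|`, adding the
elements of `A \ B` one by one: more precisely prove for all finsets `X ⊆ E` disjoint from `η' ⊇ η`:
`w (η ∪ X) w' η' ≤ w η w' (η' ∪ X)` by induction on `X` (`Finset.induction_on`): for `insert e X`: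
`w (insert e (η ∪ X)) w' (η' ∪ X) ≤ w (η ∪ X) w' (insert e (η' ∪ X))` (hypothesis, `η ∪ X ⊆ η' ∪ X`, `e ∉ η' ∪ X`); multiply with the
induction hypothesis and cancel the positive factors. Then take `η = A ∩ B`, `η' = B`, `X = A \ B`.

`dom`: Holley's inequality. In Mathlib: `holley` (for a finite distributive lattice: `0 ≤ μ, f, g`, `Monotone μ`, `∑ f = ∑ g`,
`f a * g b ≤ f (a ⊓ b) * g (a ⊔ b)` imply `∑ μ f ≤ ∑ μ g`) or `Finset.four_functions_theorem` / `four_functions_theorem`. Use it for the lattice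
`Finset {e // e ∈ E}` (subsets of `E`, `Finset.map`/`subtype`), normalised `f = w/∑w`, `g = w'/∑w'`, and a monotone function
made nonnegative by adding a constant; the exchange of `a, b` in the hypothesis is harmless. (Alternatively a direct proof by induction on `E`.)

`fkg`: for `w = w'`: `∑w ∑(w g₁ g₂) ≥ ∑(w g₁) ∑(w g₂)` for monotone `g₁, g₂` (Mathlib `fkg`), or apply
`dom` to the weights `w` and `w (g₁ + c)`, where `g₁ + c > 0`.
-/

set_option autoImplicit false

open Finset P0de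

namespace P0q

/-- monotone functions on the subsets of `E` -/
def MonoOn (E : Finset Ed) (g : Finset Ed → ℝ) : Prop := ∀ η η', η ⊆ η' → η' ⊆ E → g η ≤ g η'

/-- comparison of the conditional odds -/
def Odds (E : Finset Ed) (w w' : Finset Ed → ℝ) : Prop :=
  ∀ η η' e, η ⊆ η' → η' ⊆ E → e ∈ E → e ∉ η' → w (insert e η) * w' η' ≤ w η * w' (insert e η')

private theorem sum_pos' {E : Finset Ed} {w : Finset Ed → ℝ} (hw : ∀ η ⊆ E, 0 < w η) :
    0 < ∑ η ∈ E.powerset, w η := by
  refine Finset.sum_pos (fun η hη => hw η (Finset.mem_powerset.1 hη)) ?_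
  exact ⟨∅, Finset.mem_powerset.2 (Finset.empty_subset E)⟩

private theorem odds_add {E : Finset Ed} {w w' : Finset Ed → ℝ} (hw : ∀ η ⊆ E, 0 < w η)
    (hw' : ∀ η ⊆ E, 0 < w' η) (h : Odds E w w') (η η' : Finset Ed) (hηη' : η ⊆ η') (hη' : η' ⊆ E)
    (X : Finset Ed) : X ⊆ E → Disjoint X η' → w (η ∪ X) * w' η' ≤ w η * w' (η' ∪ X) := by
  classical
  induction X using Finset.induction_on with
  | empty => intro _ _; simp
  | insert e X he ih =>
    intro hX hd
    have hXE : X ⊆ E := (Finset.subset_insert e X).trans hX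
    have heE : e ∈ E := hX (Finset.mem_insert_self e X)
    have heη' : e ∉ η' := fun hh => (Finset.disjoint_left.1 hd) (Finset.mem_insert_self e X) hh
    have hdX : Disjoint X η' := Finset.disjoint_of_subset_left (Finset.subset_insert e X) hd
    have h1 := ih hXE hdX
    have h2 := h (η ∪ X) (η' ∪ X) e (Finset.union_subset_union hηη' (Finset.Subset.refl X))
      (Finset.union_subset hη' hXE) heE (by
        rw [Finset.mem_union, not_or]; exact ⟨heη', he⟩)
    have e1 : η ∪ insert e X = insert e (η ∪ X) := Finset.union_insert e η X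
    have e2 : η' ∪ insert e X = insert e (η' ∪ X) := Finset.union_insert e η' X
    rw [e1, e2]
    have p1 : 0 < w (η ∪ X) := hw _ (Finset.union_subset (hηη'.trans hη') hXE)
    have p2 : 0 < w' (η' ∪ X) := hw' _ (Finset.union_subset hη' hXE)
    have p3 : 0 < w' η' := hw' _ hη'
    have p4 : 0 < w η := hw _ (hηη'.trans hη')
    have p5 : 0 < w' (insert e (η' ∪ X)) := by
      refine hw' _ ?_
      refine Finset.insert_subset heE (Finset.union_subset hη' hXE)
    have key : (w (insert e (η ∪ X)) * w' η') * (w (η ∪ X) * w' (η' ∪ X)) ≤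
        (w η * w' (insert e (η' ∪ X))) * (w (η ∪ X) * w' (η' ∪ X)) := by
      calc (w (insert e (η ∪ X)) * w' η') * (w (η ∪ X) * w' (η' ∪ X))
          = (w (insert e (η ∪ X)) * w' (η' ∪ X)) * (w (η ∪ X) * w' η') := by ring
        _ ≤ (w (η ∪ X) * w' (insert e (η' ∪ X))) * (w (η ∪ X) * w' η') :=
            mul_le_mul_of_nonneg_right h2 (mul_pos p1 p3).le
        _ ≤ (w (η ∪ X) * w' (insert e (η' ∪ X))) * (w η * w' (η' ∪ X)) :=
            mul_le_mul_of_nonneg_left h1 (mul_pos p1 p5).le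
        _ = (w η * w' (insert e (η' ∪ X))) * (w (η ∪ X) * w' (η' ∪ X)) := by ring
    exact le_of_mul_le_mul_right key (mul_pos p1 p2)

private theorem odds_lattice {E : Finset Ed} {w w' : Finset Ed → ℝ} (hw : ∀ η ⊆ E, 0 < w η)
    (hw' : ∀ η ⊆ E, 0 < w' η) (h : Odds E w w') (A B : Finset Ed) (hA : A ⊆ E) (hB : B ⊆ E) :
    w A * w' B ≤ w (A ∩ B) * w' (A ∪ B) := by
  classical
  have := odds_add hw hw' h (A ∩ B) B Finset.inter_subset_right hB (A \ B)
    (Finset.sdiff_subset.trans hA) Finset.sdiff_disjoint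
  have e1 : A ∩ B ∪ A \ B = A := by
    ext x; simp only [Finset.mem_union, Finset.mem_inter, Finset.mem_sdiff]; tauto
  have e2 : B ∪ A \ B = A ∪ B := by
    ext x; simp only [Finset.mem_union, Finset.mem_sdiff]; tauto
  rwa [e1, e2] at this

private theorem hol {E : Finset Ed} {w w' : Finset Ed → ℝ} (hw : ∀ η ⊆ E, 0 < w η)
    (hw' : ∀ η ⊆ E, 0 < w' η) (h : Odds E w w') {g : Finset Ed → ℝ} (hg : MonoOn E g)
    (hg0 : ∀ η ⊆ E, 0 ≤ g η) :
    (∑ η ∈ E.powerset, w' η) * ∑ η ∈ E.powerset, w η * g η ≤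
      (∑ η ∈ E.powerset, w η) * ∑ η ∈ E.powerset, w' η * g η := by
  classical
  have key := Finset.four_functions_theorem (α := Ed) (β := ℝ)
    (f₁ := fun η => if η ⊆ E then w' η else 0) (f₂ := fun η => if η ⊆ E then w η * g η else 0)
    (f₃ := fun η => if η ⊆ E then w η else 0) (f₄ := fun η => if η ⊆ E then w' η * g η else 0)
    E ?_ ?_ ?_ ?_ ?_ (Finset.Subset.refl E.powerset) (Finset.Subset.refl E.powerset)
  · rw [Finset.powerset_infs_powerset_self, Finset.powerset_sups_powerset_self] at key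
    have r : ∀ f : Finset Ed → ℝ, ∑ s ∈ E.powerset, (if s ⊆ E then f s else 0) =
        ∑ s ∈ E.powerset, f s := fun f => Finset.sum_congr rfl fun s hs =>
      if_pos (Finset.mem_powerset.1 hs)
    rw [r, r, r, r] at key
    exact key
  · intro η
    show (0 : ℝ) ≤ if η ⊆ E then w' η else 0
    split_ifs with hη
    · exact (hw' η hη).le
    · exact le_refl _
  · intro η
    show (0 : ℝ) ≤ if η ⊆ E then w η * g η else 0
    split_ifs with hη
    · exact mul_nonneg (hw η hη).le (hg0 η hη)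
    · exact le_refl _
  · intro η
    show (0 : ℝ) ≤ if η ⊆ E then w η else 0
    split_ifs with hη
    · exact (hw η hη).le
    · exact le_refl _
  · intro η
    show (0 : ℝ) ≤ if η ⊆ E then w' η * g η else 0
    split_ifs with hη
    · exact mul_nonneg (hw' η hη).le (hg0 η hη)
    · exact le_refl _
  · intro s hs t ht
    have hst : s ∩ t ⊆ E := Finset.inter_subset_left.trans hs
    have hst' : s ∪ t ⊆ E := Finset.union_subset hs ht
    show (if s ⊆ E then w' s else 0) * (if t ⊆ E then w t * g t else 0) ≤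
      (if s ∩ t ⊆ E then w (s ∩ t) else 0) * (if s ∪ t ⊆ E then w' (s ∪ t) * g (s ∪ t) else 0)
    rw [if_pos hs, if_pos ht, if_pos hst, if_pos hst']
    have h1 := odds_lattice hw hw' h t s ht hs
    rw [Finset.inter_comm, Finset.union_comm] at h1
    have h2 : g t ≤ g (s ∪ t) := hg t (s ∪ t) Finset.subset_union_right hst'
    calc w' s * (w t * g t) = (w t * w' s) * g t := by ring
      _ ≤ (w (s ∩ t) * w' (s ∪ t)) * g (s ∪ t) :=
        mul_le_mul h1 h2 (hg0 t ht) (mul_pos (hw _ hst) (hw' _ hst')).le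
      _ = w (s ∩ t) * (w' (s ∪ t) * g (s ∪ t)) := by ring

theorem ex_const {E : Finset Ed} {w : Finset Ed → ℝ} (hw : ∀ η ⊆ E, 0 < w η) (c : ℝ) :
    ex E w (fun _ => c) = c := by
  unfold ex
  rw [← Finset.sum_mul]
  field_simp [(sum_pos' hw).ne']

theorem ex_add (E : Finset Ed) (w g₁ g₂ : Finset Ed → ℝ) :
    ex E w (fun η => g₁ η + g₂ η) = ex E w g₁ + ex E w g₂ := by
  unfold ex
  rw [← add_div, ← Finset.sum_add_distrib]
  congr 1
  exact Finset.sum_congr rfl fun η _ => mul_add _ _ _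

theorem ex_smul (E : Finset Ed) (w g : Finset Ed → ℝ) (c : ℝ) :
    ex E w (fun η => c * g η) = c * ex E w g := by
  unfold ex
  rw [← mul_div_assoc, Finset.mul_sum]
  congr 1
  exact Finset.sum_congr rfl fun η _ => by ring

theorem ex_le {E : Finset Ed} {w g₁ g₂ : Finset Ed → ℝ} (hw : ∀ η ⊆ E, 0 < w η)
    (h : ∀ η ⊆ E, g₁ η ≤ g₂ η) : ex E w g₁ ≤ ex E w g₂ := by
  unfold ex
  refine div_le_div_of_nonneg_right ?_ (sum_pos' hw).le
  refine Finset.sum_le_sum fun η hη => ?_
  exact mul_le_mul_of_nonneg_left (h η (Finset.mem_powerset.1 hη))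
    (hw η (Finset.mem_powerset.1 hη)).le

theorem dom {E : Finset Ed} {w w' : Finset Ed → ℝ} (hw : ∀ η ⊆ E, 0 < w η)
    (hw' : ∀ η ⊆ E, 0 < w' η) (h : Odds E w w') {g : Finset Ed → ℝ} (hg : MonoOn E g) :
    ex E w g ≤ ex E w' g := by
  have hg' : MonoOn E (fun η => g η + -(g ∅)) := fun η η' h1 h2 => by
    have := hg η η' h1 h2
    show g η + -(g ∅) ≤ g η' + -(g ∅)
    linarith
  have h0 : ∀ η ⊆ E, 0 ≤ (fun η => g η + -(g ∅)) η := fun η hη => by
    have := hg ∅ η (Finset.empty_subset η) hη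
    show 0 ≤ g η + -(g ∅)
    linarith
  have key := hol hw hw' h hg' h0
  have p1 := sum_pos' hw
  have p2 := sum_pos' hw'
  have h2 : ex E w (fun η => g η + -(g ∅)) ≤ ex E w' (fun η => g η + -(g ∅)) := by
    unfold ex
    rw [div_le_div_iff₀ p1 p2]
    calc (∑ η ∈ E.powerset, w η * (g η + -(g ∅))) * ∑ η ∈ E.powerset, w' η
        = (∑ η ∈ E.powerset, w' η) * ∑ η ∈ E.powerset, w η * (g η + -(g ∅)) := mul_comm _ _
      _ ≤ (∑ η ∈ E.powerset, w η) * ∑ η ∈ E.powerset, w' η * (g η + -(g ∅)) := key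
      _ = (∑ η ∈ E.powerset, w' η * (g η + -(g ∅))) * ∑ η ∈ E.powerset, w η := mul_comm _ _
  have e1 := ex_add E w g (fun _ => -(g ∅))
  have e2 := ex_add E w' g (fun _ => -(g ∅))
  rw [ex_const hw] at e1
  rw [ex_const hw'] at e2
  rw [e1, e2] at h2
  linarith

theorem fkg_ex {E : Finset Ed} {w : Finset Ed → ℝ} (hw : ∀ η ⊆ E, 0 < w η) (h : Odds E w w)
    {g₁ g₂ : Finset Ed → ℝ} (h1 : MonoOn E g₁) (h2 : MonoOn E g₂) :
    ex E w g₁ * ex E w g₂ ≤ ex E w (fun η => g₁ η * g₂ η) := by
  have hp : ∀ η ⊆ E, 0 < g₁ η + (1 - g₁ ∅) := fun η hη => by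
    have := h1 ∅ η (Finset.empty_subset η) hη
    linarith
  have hw' : ∀ η ⊆ E, 0 < (fun η => w η * (g₁ η + (1 - g₁ ∅))) η := fun η hη =>
    mul_pos (hw η hη) (hp η hη)
  have ho : Odds E w (fun η => w η * (g₁ η + (1 - g₁ ∅))) := by
    intro η η' e hs hs' he he'
    have hi : insert e η' ⊆ E := Finset.insert_subset he hs'
    have a1 := h η η' e hs hs' he he'
    have a2 := h1 η' (insert e η') (Finset.subset_insert e η') hi
    show w (insert e η) * (w η' * (g₁ η' + (1 - g₁ ∅))) ≤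
      w η * (w (insert e η') * (g₁ (insert e η') + (1 - g₁ ∅)))
    calc w (insert e η) * (w η' * (g₁ η' + (1 - g₁ ∅)))
        = (w (insert e η) * w η') * (g₁ η' + (1 - g₁ ∅)) := by ring
      _ ≤ (w η * w (insert e η')) * (g₁ (insert e η') + (1 - g₁ ∅)) :=
        mul_le_mul a1 (by linarith) (hp η' hs').le
          (mul_pos (hw η (hs.trans hs')) (hw _ hi)).le
      _ = w η * (w (insert e η') * (g₁ (insert e η') + (1 - g₁ ∅))) := by ring
  have key := dom hw hw' ho h2
  have p1 := sum_pos' hw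
  have p2 := sum_pos' hw'
  have e1 : (∑ η ∈ E.powerset, w η * (g₁ η + (1 - g₁ ∅))) =
      (∑ η ∈ E.powerset, w η) * (ex E w g₁ + (1 - g₁ ∅)) := by
    have : ex E w (fun η => g₁ η + (1 - g₁ ∅)) = ex E w g₁ + (1 - g₁ ∅) := by
      rw [ex_add E w g₁ (fun _ => 1 - g₁ ∅), ex_const hw]
    rw [← this]
    unfold ex
    rw [mul_div_cancel₀ _ p1.ne']
  have e2 : (∑ η ∈ E.powerset, (w η * (g₁ η + (1 - g₁ ∅))) * g₂ η) =
      (∑ η ∈ E.powerset, w η) * (ex E w (fun η => g₁ η * g₂ η) + (1 - g₁ ∅) * ex E w g₂) := by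
    have : ex E w (fun η => g₁ η * g₂ η + (1 - g₁ ∅) * g₂ η) =
        ex E w (fun η => g₁ η * g₂ η) + (1 - g₁ ∅) * ex E w g₂ := by
      rw [ex_add E w (fun η => g₁ η * g₂ η) (fun η => (1 - g₁ ∅) * g₂ η), ex_smul]
    rw [← this]
    unfold ex
    rw [mul_div_cancel₀ _ p1.ne']
    exact Finset.sum_congr rfl fun η _ => by ring
  have key' : ex E w g₂ ≤ (∑ η ∈ E.powerset, (w η * (g₁ η + (1 - g₁ ∅))) * g₂ η) /
      (∑ η ∈ E.powerset, w η * (g₁ η + (1 - g₁ ∅))) := key
  rw [le_div_iff₀ p2, e1, e2] at key'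
  have key2 : (∑ η ∈ E.powerset, w η) * (ex E w g₂ * (ex E w g₁ + (1 - g₁ ∅))) ≤
      (∑ η ∈ E.powerset, w η) *
        (ex E w (fun η => g₁ η * g₂ η) + (1 - g₁ ∅) * ex E w g₂) := by
    calc _ = ex E w g₂ * ((∑ η ∈ E.powerset, w η) * (ex E w g₁ + (1 - g₁ ∅))) := by ring
      _ ≤ _ := key'
  have key3 := le_of_mul_le_mul_left key2 p1
  nlinarith [key3]

/-- a comparison of the odds at the same configuration, together with monotone odds of `w'`, is enough -/
theorem odds_of {E : Finset Ed} {w w' : Finset Ed → ℝ} (hw : ∀ η ⊆ E, 0 < w η)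
    (hw' : ∀ η ⊆ E, 0 < w' η) (h : ∀ η e, η ⊆ E → e ∈ E → e ∉ η →
      w (insert e η) * w' η ≤ w η * w' (insert e η)) (h' : Odds E w' w') : Odds E w w' := by
  intro η η' e hs hs' he he'
  have hηE : η ⊆ E := hs.trans hs'
  have heη : e ∉ η := fun hh => he' (hs hh)
  have hi : insert e η ⊆ E := Finset.insert_subset he hηE
  have hi' : insert e η' ⊆ E := Finset.insert_subset he hs'
  have a1 := h η e hηE he heη
  have a2 := h' η η' e hs hs' he he'
  have p1 := hw η hηE
  have p2 := hw' η hηE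
  have p3 := hw' _ hi
  have p4 := hw _ hi
  have p5 := hw' _ hs'
  have p6 := hw' _ hi'
  have key : (w (insert e η) * w' η') * (w' η * w' (insert e η)) ≤
      (w η * w' (insert e η')) * (w' η * w' (insert e η)) := by
    calc (w (insert e η) * w' η') * (w' η * w' (insert e η))
        = (w (insert e η) * w' η) * (w' (insert e η) * w' η') := by ring
      _ ≤ (w η * w' (insert e η)) * (w' (insert e η) * w' η') :=
        mul_le_mul_of_nonneg_right a1 (mul_pos p3 p5).le
      _ ≤ (w η * w' (insert e η)) * (w' η * w' (insert e η')) :=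
        mul_le_mul_of_nonneg_left a2 (mul_pos p1 p3).le
      _ = (w η * w' (insert e η')) * (w' η * w' (insert e η)) := by ring
  exact le_of_mul_le_mul_right key (mul_pos p2 p3)

/-- the same with monotone odds of `w` -/
theorem odds_of' {E : Finset Ed} {w w' : Finset Ed → ℝ} (hw : ∀ η ⊆ E, 0 < w η)
    (hw' : ∀ η ⊆ E, 0 < w' η) (h : ∀ η e, η ⊆ E → e ∈ E → e ∉ η →
      w (insert e η) * w' η ≤ w η * w' (insert e η)) (h' : Odds E w w) : Odds E w w' := by
  intro η η' e hs hs' he he'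
  have hηE : η ⊆ E := hs.trans hs'
  have hi : insert e η ⊆ E := Finset.insert_subset he hηE
  have hi' : insert e η' ⊆ E := Finset.insert_subset he hs'
  have a1 := h η' e hs' he he'
  have a2 := h' η η' e hs hs' he he'
  have p1 := hw η hηE
  have p3 := hw' _ hi'
  have p4 := hw _ hi
  have p5 := hw' _ hs'
  have p6 := hw _ hi'
  have p7 := hw _ hs'
  have key : (w (insert e η) * w' η') * (w η' * w (insert e η')) ≤
      (w η * w' (insert e η')) * (w η' * w (insert e η')) := by
    calc (w (insert e η) * w' η') * (w η' * w (insert e η'))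
        = (w (insert e η) * w η') * (w (insert e η') * w' η') := by ring
      _ ≤ (w η * w (insert e η')) * (w (insert e η') * w' η') :=
        mul_le_mul_of_nonneg_right a2 (mul_pos p6 p5).le
      _ ≤ (w η * w (insert e η')) * (w η' * w' (insert e η')) :=
        mul_le_mul_of_nonneg_left a1 (mul_pos p1 p6).le
      _ = (w η * w' (insert e η')) * (w η' * w (insert e η')) := by ring
  exact le_of_mul_le_mul_right key (mul_pos p7 p6)

/-- indicators of increasing events are monotone -/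
theorem mono_ind {E : Finset Ed} {A : Finset Ed → Prop} (hA : Up A) : MonoOn E (ind A) := by
  intro η η' h _
  unfold ind
  by_cases h1 : A η
  · rw [if_pos h1, if_pos (hA η η' h h1)]
  · rw [if_neg h1]
    split_ifs
    · exact zero_le_one
    · exact le_refl _

private theorem ind_le {A B : Finset Ed → Prop} {η : Finset Ed} (h : A η → B η) :
    ind A η ≤ ind B η := by
  unfold ind
  by_cases h1 : A η
  · rw [if_pos h1, if_pos (h h1)]
  · rw [if_neg h1]
    split_ifs
    · exact zero_le_one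
    · exact le_refl _

theorem ev_not {E : Finset Ed} {w : Finset Ed → ℝ} (hw : ∀ η ⊆ E, 0 < w η)
    (A : Finset Ed → Prop) : ev E w (fun η => ¬ A η) = 1 - ev E w A := by
  unfold ev
  have h1 : ind (fun η => ¬ A η) = fun η => 1 + (-1) * ind A η := by
    funext η
    unfold ind
    by_cases h : A η
    · rw [if_neg (not_not.2 h), if_pos h]; norm_num
    · rw [if_pos h, if_neg h]; norm_num
  rw [h1, ex_add E w (fun _ => 1) (fun η => (-1) * ind A η), ex_const hw, ex_smul]
  ring

theorem ev_le {E : Finset Ed} {w : Finset Ed → ℝ} (hw : ∀ η ⊆ E, 0 < w η)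
    {A B : Finset Ed → Prop} (h : ∀ η ⊆ E, A η → B η) : ev E w A ≤ ev E w B :=
  ex_le hw fun η hη => ind_le (h η hη)

theorem ev_or {E : Finset Ed} {w : Finset Ed → ℝ} (hw : ∀ η ⊆ E, 0 < w η)
    (A B : Finset Ed → Prop) : ev E w (fun η => A η ∨ B η) ≤ ev E w A + ev E w B := by
  unfold ev
  rw [← ex_add]
  refine ex_le hw fun η _ => ?_
  unfold ind
  by_cases h1 : A η
  · rw [if_pos (Or.inl h1), if_pos h1]
    split_ifs
    · norm_num
    · norm_num
  · by_cases h2 : B η
    · rw [if_pos (Or.inr h2), if_neg h1, if_pos h2]; norm_num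
    · rw [if_neg (by tauto), if_neg h1, if_neg h2]; norm_num

theorem ev_mem {E : Finset Ed} {w : Finset Ed → ℝ} (hw : ∀ η ⊆ E, 0 < w η)
    (A : Finset Ed → Prop) : 0 ≤ ev E w A ∧ ev E w A ≤ 1 := by
  unfold ev
  constructor
  · have := ex_le (g₁ := fun _ => (0 : ℝ)) (g₂ := ind A) hw (fun η _ => by
      unfold ind
      split_ifs
      · exact zero_le_one
      · exact le_refl _)
    rwa [ex_const hw] at this
  · have := ex_le (g₁ := ind A) (g₂ := fun _ => (1 : ℝ)) hw (fun η _ => by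
      unfold ind
      split_ifs
      · exact le_refl _
      · exact zero_le_one)
    rwa [ex_const hw] at this

end P0q
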