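import Pool.Agent.Lib.P0q.R1Dom

/-!
# R2Fw: the free weight

`rk_insert`: for a finite `V` containing `ends η`, `|V| - |clus V η| = rk η` (every `x ∈ V \ ends η` is a cluster of its own;
`P0de.card_clus_add`: `(clus J M).card + Q.card = (clus Q M).card + J.card` for `Q ⊆ J`, `M ⊆ edIn Q`), and
`|clus V η| ≤ |V|`. For `V = ends (insert e η)`: `|clus V (insert e η)| = |clus V η|` if `Conn η (src e) (tgt e)` (the
connectivity relation does not change), and `= |clus V η| - 1` otherwise (the clusters of the two ends are merged, the others stay; the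
map `clus V η → clus V (insert e η)` sending a cluster to the cluster containing it is surjective, and the only two clusters with the same
image are those of `src e` and `tgt e`). So `rk (insert e η) = rk η` or `rk η + 1`.
`fw_insert`: `(√q)^{|η|+1}/q^{rk+1} = fw/√q` (`q = √q √q`).

`fw_odds`: for `q ≥ 1`, `η ⊆ η'`, `e ∉ η'`: the ratio is `√q` or `1/√q ≤ √q`, and `Conn η u v → Conn η' u v`.
-/

set_option autoImplicit false

open Finset P0de

namespace P0q

namespace R2FwAux

theorem mem_ends_src {η : Finset Ed} {e : Ed} (he : e ∈ η) : src e ∈ ends η :=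
  mem_union_left _ (mem_image_of_mem _ he)

theorem mem_ends_tgt {η : Finset Ed} {e : Ed} (he : e ∈ η) : tgt e ∈ ends η :=
  mem_union_right _ (mem_image_of_mem _ he)

theorem sub_edIn (η : Finset Ed) : η ⊆ edIn (ends η) := fun _ he =>
  mem_edIn'.2 ⟨mem_ends_src he, mem_ends_tgt he⟩

theorem ends_mono {η η' : Finset Ed} (h : η ⊆ η') : ends η ⊆ ends η' := by
  intro x hx
  simp only [ends, mem_union, mem_image] at hx ⊢
  rcases hx with ⟨e, he, rfl⟩ | ⟨e, he, rfl⟩
  · exact Or.inl ⟨e, h he, rfl⟩
  · exact Or.inr ⟨e, h he, rfl⟩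

theorem card_clus_le (W : Finset Site) (η : Finset Ed) : (clus W η).card ≤ W.card :=
  card_image_le

theorem rk_eq' {η : Finset Ed} {W : Finset Site} (hW : ends η ⊆ W) :
    rk η + (clus W η).card = W.card := by
  have h1 := card_clus_add (J := W) (Q := ends η) (M := η) hW (sub_edIn η)
  have h2 := card_clus_le (ends η) η
  unfold rk
  omega

/-- connections after adding one edge -/
theorem conn_insert {η : Finset Ed} {e : Ed} {x y : Site} :
    Conn (insert e η) x y ↔ Conn η x y ∨ (Conn η x (src e) ∧ Conn η (tgt e) y) ∨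
      (Conn η x (tgt e) ∧ Conn η (src e) y) := by
  constructor
  · intro h
    unfold Conn at h
    induction h with
    | refl => exact Or.inl Relation.ReflTransGen.refl
    | @tail b c _ h2 ih =>
      obtain ⟨f, hf, h3⟩ := h2
      rw [mem_insert] at hf
      rcases hf with rfl | hf
      · -- the new edge
        rcases h3 with ⟨rfl, rfl⟩ | ⟨rfl, rfl⟩
        · rcases ih with ih | ⟨ih1, ih2⟩ | ⟨ih1, ih2⟩
          · exact Or.inr (Or.inl ⟨ih, Relation.ReflTransGen.refl⟩)
          · exact Or.inr (Or.inl ⟨ih1, Relation.ReflTransGen.refl⟩)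
          · exact Or.inl ih1
        · rcases ih with ih | ⟨ih1, ih2⟩ | ⟨ih1, ih2⟩
          · exact Or.inr (Or.inr ⟨ih, Relation.ReflTransGen.refl⟩)
          · exact Or.inl ih1
          · exact Or.inr (Or.inr ⟨ih1, Relation.ReflTransGen.refl⟩)
      · have h4 : Conn η b c := Relation.ReflTransGen.single ⟨f, hf, h3⟩
        rcases ih with ih | ⟨ih1, ih2⟩ | ⟨ih1, ih2⟩
        · exact Or.inl (ih.trans h4)
        · exact Or.inr (Or.inl ⟨ih1, ih2.trans h4⟩)
        · exact Or.inr (Or.inr ⟨ih1, ih2.trans h4⟩)
  · have hm : ∀ {a b : Site}, Conn η a b → Conn (insert e η) a b := fun h =>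
      Conn.mono (subset_insert _ _) h
    have he : Conn (insert e η) (src e) (tgt e) :=
      Relation.ReflTransGen.single ⟨e, mem_insert_self _ _, Or.inl ⟨rfl, rfl⟩⟩
    rintro (h | ⟨h1, h2⟩ | ⟨h1, h2⟩)
    · exact hm h
    · exact (hm h1).trans (he.trans (hm h2))
    · exact (hm h1).trans (he.symm.trans (hm h2))

theorem clus_insert_conn {W : Finset Site} {η : Finset Ed} {e : Ed}
    (h : Conn η (src e) (tgt e)) : clus W (insert e η) = clus W η := by
  have h1 : ∀ x y, Conn (insert e η) x y ↔ Conn η x y := by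
    intro x y
    rw [conn_insert]
    constructor
    · rintro (h2 | ⟨h2, h3⟩ | ⟨h2, h3⟩)
      · exact h2
      · exact h2.trans (h.trans h3)
      · exact h2.trans (h.symm.trans h3)
    · exact Or.inl
  unfold clus
  apply Finset.image_congr
  intro x _
  ext y
  simp only [mem_filter, h1]

theorem clus_insert_not {W : Finset Site} {η : Finset Ed} {e : Ed} (hs : src e ∈ W)
    (ht : tgt e ∈ W) (h : ¬ Conn η (src e) (tgt e)) :
    (clus W (insert e η)).card + 1 = (clus W η).card := by
  classical
  set Cu : Finset Site := W.filter fun y => Conn η (src e) y with hCu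
  set Cv : Finset Site := W.filter fun y => Conn η (tgt e) y with hCv
  have hu : src e ∈ Cu := mem_filter.2 ⟨hs, Relation.ReflTransGen.refl⟩
  have hv : tgt e ∈ Cv := mem_filter.2 ⟨ht, Relation.ReflTransGen.refl⟩
  have hCum : Cu ∈ clus W η := mem_image.2 ⟨src e, hs, by rw [hCu]⟩
  have hCvm : Cv ∈ clus W η := mem_image.2 ⟨tgt e, ht, by rw [hCv]⟩
  have hne : Cu ≠ Cv := by
    intro hE
    apply h
    rw [← hE] at hv
    exact (mem_filter.1 hv).2
  have hE : clus W (insert e η) = insert (Cu ∪ Cv) (((clus W η).erase Cu).erase Cv) := by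
    ext C
    simp only [clus, mem_image, mem_insert, mem_erase]
    constructor
    · rintro ⟨x, hx, rfl⟩
      by_cases hxu : Conn η x (src e)
      · left
        ext y
        simp only [mem_filter, hCu, hCv, mem_union, conn_insert]
        constructor
        · rintro ⟨hy, h1 | ⟨h1, h2⟩ | ⟨h1, h2⟩⟩
          · exact Or.inl ⟨hy, hxu.symm.trans h1⟩
          · exact Or.inr ⟨hy, h2⟩
          · exact Or.inl ⟨hy, h2⟩
        · rintro (⟨hy, h1⟩ | ⟨hy, h1⟩)
          · exact ⟨hy, Or.inl (hxu.trans h1)⟩
          · exact ⟨hy, Or.inr (Or.inl ⟨hxu, h1⟩)⟩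
      · by_cases hxv : Conn η x (tgt e)
        · left
          ext y
          simp only [mem_filter, hCu, hCv, mem_union, conn_insert]
          constructor
          · rintro ⟨hy, h1 | ⟨h1, h2⟩ | ⟨h1, h2⟩⟩
            · exact Or.inr ⟨hy, hxv.symm.trans h1⟩
            · exact Or.inr ⟨hy, h2⟩
            · exact Or.inl ⟨hy, h2⟩
          · rintro (⟨hy, h1⟩ | ⟨hy, h1⟩)
            · exact ⟨hy, Or.inr (Or.inr ⟨hxv, h1⟩)⟩
            · exact ⟨hy, Or.inl (hxv.trans h1)⟩
        · right
          have h1 : (W.filter fun y => Conn (insert e η) x y) = W.filter fun y => Conn η x y := by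
            ext y
            simp only [mem_filter, conn_insert]
            tauto
          rw [h1]
          have hxx : x ∈ W.filter fun y => Conn η x y :=
            mem_filter.2 ⟨hx, Relation.ReflTransGen.refl⟩
          refine ⟨?_, ?_, x, hx, rfl⟩
          · intro h2
            rw [h2] at hxx
            exact hxv (mem_filter.1 hxx).2.symm
          · intro h2
            rw [h2] at hxx
            exact hxu (mem_filter.1 hxx).2.symm
    · rintro (rfl | ⟨h1, h2, x, hx, rfl⟩)
      · refine ⟨src e, hs, ?_⟩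
        ext y
        simp only [mem_filter, hCu, hCv, mem_union, conn_insert]
        constructor
        · rintro ⟨hy, h1 | ⟨h1, h2⟩ | ⟨h1, h2⟩⟩
          · exact Or.inl ⟨hy, h1⟩
          · exact Or.inr ⟨hy, h2⟩
          · exact absurd h1 h
        · rintro (⟨hy, h1⟩ | ⟨hy, h1⟩)
          · exact ⟨hy, Or.inl h1⟩
          · exact ⟨hy, Or.inr (Or.inl ⟨Relation.ReflTransGen.refl, h1⟩)⟩
      · have hxu : ¬ Conn η x (src e) := fun h3 => h2 (clus_eq_of h3)
        have hxv : ¬ Conn η x (tgt e) := fun h3 => h1 (clus_eq_of h3)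
        refine ⟨x, hx, ?_⟩
        ext y
        simp only [mem_filter, conn_insert]
        tauto
  have hnot : Cu ∪ Cv ∉ ((clus W η).erase Cu).erase Cv := by
    intro h1
    rw [mem_erase, mem_erase] at h1
    exact h ((mem_clus h1.2.2).2.2.1 _ (mem_union_left _ hu) _ (mem_union_right _ hv))
  rw [hE, card_insert_of_notMem hnot, card_erase_of_mem (mem_erase.2 ⟨hne.symm, hCvm⟩),
    card_erase_of_mem hCum]
  have h3 : 2 ≤ (clus W η).card := by
    rw [← card_pair hne]
    apply card_le_card
    intro C hC
    rw [mem_insert, mem_singleton] at hC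
    rcases hC with rfl | rfl
    · exact hCum
    · exact hCvm
  omega

end R2FwAux

open R2FwAux

open Classical in
theorem rk_insert {η : Finset Ed} {e : Ed} (he : e ∉ η) :
    rk (insert e η) = if Conn η (src e) (tgt e) then rk η else rk η + 1 := by
  have h1 := rk_eq' (η := insert e η) (W := ends (insert e η)) (Subset.refl _)
  have h2 := rk_eq' (η := η) (W := ends (insert e η)) (ends_mono (subset_insert _ _))
  by_cases h : Conn η (src e) (tgt e)
  · rw [if_pos h]
    rw [clus_insert_conn h] at h1
    omega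
  · rw [if_neg h]
    have h3 := clus_insert_not (W := ends (insert e η)) (mem_ends_src (mem_insert_self e η))
      (mem_ends_tgt (mem_insert_self e η)) h
    omega

/-- the rank may be computed in any finite set of sites containing the ends -/
theorem rk_eq {η : Finset Ed} {W : Finset Site} (hW : ends η ⊆ W) :
    rk η + (clus W η).card = W.card := rk_eq' hW

open Classical in
theorem fw_insert {q : ℝ} (hq : 0 < q) {η : Finset Ed} {e : Ed} (he : e ∉ η) :
    fw q (insert e η) = (if Conn η (src e) (tgt e) then √q else 1 / √q) * fw q η := by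
  have hs : 0 < √q := Real.sqrt_pos.2 hq
  have hsq : √q * √q = q := Real.mul_self_sqrt hq.le
  have hq0 : q ≠ 0 := hq.ne'
  unfold fw
  rw [card_insert_of_notMem he, rk_insert he, pow_succ]
  by_cases h : Conn η (src e) (tgt e)
  · rw [if_pos h, if_pos h]
    ring
  · rw [if_neg h, if_neg h, pow_succ]
    rw [div_eq_iff (by positivity)]
    have h2 : 1 / √q * (√q ^ η.card / q ^ rk η) * (q ^ rk η * q) = √q ^ η.card * (q / √q) := by
      field_simp
    rw [h2]
    congr 1
    rw [eq_div_iff hs.ne', hsq]

theorem fw_pos {q : ℝ} (hq : 0 < q) (η : Finset Ed) : 0 < fw q η := by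
  have hs : 0 < √q := Real.sqrt_pos.2 hq
  unfold fw
  positivity

theorem fw_odds {q : ℝ} (hq : 1 ≤ q) (E : Finset Ed) : Odds E (fw q) (fw q) := by
  classical
  intro η η' e hsub _ _ he
  have hq0 : 0 < q := by linarith
  have hs : 1 ≤ √q := Real.one_le_sqrt.2 hq
  have hs0 : 0 < √q := by linarith
  have hs1 : 1 / √q ≤ √q := by
    rw [div_le_iff₀ hs0]
    nlinarith
  have h1 := fw_insert hq0 (fun h => he (hsub h) : e ∉ η)
  have h2 := fw_insert hq0 he
  have hr : (if Conn η (src e) (tgt e) then √q else 1 / √q) ≤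
      (if Conn η' (src e) (tgt e) then √q else 1 / √q) := by
    by_cases h : Conn η (src e) (tgt e)
    · rw [if_pos h, if_pos (Conn.mono hsub h)]
    · rw [if_neg h]
      split_ifs
      · exact hs1
      · exact le_rfl
  have p1 := fw_pos hq0 η
  have p2 := fw_pos hq0 η'
  rw [h1, h2]
  have h3 := mul_le_mul_of_nonneg_right hr (mul_pos p1 p2).le
  linarith

end P0q
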