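import Pool.Agent.Lib.P0q.R2Fw

/-!
# R5Aut: automorphisms of the lattice

`Aut`: a permutation `g` of the edges together with a permutation `s` of the (active) sites and a permutation `p` of the passive
sites, compatible with the ends and with the passive ends. Instances: translations, the exchange of the coordinates, the reflection `x ↦ -x`; closed under
composition and inverse.

`Conn_aut`: `Conn (η.map g) (s x) (s y) ↔ Conn η x y` (chains; inverse). So `fw q (η.map g) = fw q η`: induction on `η`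
(`Finset.induction_on`) with `fw_insert` (`map` of `insert`; the condition `Conn η (src e) (tgt e)` corresponds to
`Conn (η.map g) (src (g e)) (tgt (g e))`, where the two ends may be exchanged, use `Conn.symm`).
`ev_aut`: reindex the powerset sum by `η ↦ η.map g`.

Passive edges: the edge `f` of the passive lattice crosses `cr f`; `g` acts on passive edges by `cr⁻¹ ∘ g ∘ cr` (`cr` is a bijection,
`P0de.DualAux.cr_injective`, `P0de.DualAux.cr_surjective`); `dAut` is this automorphism with the roles of `s` and `p` exchanged up to the shift by `(1,1)`: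
as an automorphism of the passive lattice its site map is `p`, and its passive-of-passive map is `s` conjugated by `sh`: `x ↦ s (x + (1,1)) - (1,1)`.
[Facts: `pu (cr f) = tgt f`, `pl (cr f) = src f`; `src (cr f) = pl f + (1,1)`, `tgt (cr f) = pu f + (1,1)`.]
-/

set_option autoImplicit false

open Finset P0de

namespace P0q

/-- automorphisms of the square lattice, acting on edges, sites and faces -/
structure Aut where
  g : Ed ≃ Ed
  s : Site ≃ Site
  p : Site ≃ Site
  hs : ∀ e, (src (g e) = s (src e) ∧ tgt (g e) = s (tgt e)) ∨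
    (src (g e) = s (tgt e) ∧ tgt (g e) = s (src e))
  hp : ∀ e, (pu (g e) = p (pu e) ∧ pl (g e) = p (pl e)) ∨
    (pu (g e) = p (pl e) ∧ pl (g e) = p (pu e))

/-- translation -/
def Aut.tr (t : Site) : Aut where
  g := ⟨fun e => (e.1 + t, e.2), fun e => (e.1 - t, e.2), fun e => by simp, fun e => by simp⟩
  s := Equiv.addRight t
  p := Equiv.addRight t
  hs e := by
    left
    simp only [src, tgt, Equiv.coe_fn_mk, Equiv.coe_addRight, true_and]
    abel
  hp e := by
    left
    simp only [pu, pl, Equiv.coe_fn_mk, Equiv.coe_addRight, true_and]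
    abel

/-- exchange of the coordinates -/
def Aut.sw : Aut where
  g := ⟨fun e => (e.1.swap, !e.2), fun e => (e.1.swap, !e.2), fun e => by simp, fun e => by simp⟩
  s := Equiv.prodComm ℤ ℤ
  p := Equiv.prodComm ℤ ℤ
  hs e := by
    obtain ⟨⟨i, j⟩, c⟩ := e
    left
    cases c <;> simp [src, tgt, dir]
  hp e := by
    obtain ⟨⟨i, j⟩, c⟩ := e
    left
    cases c <;> simp [pu, pl, dir]

/-- the reflection `x ↦ -x` of the first coordinate -/
def Aut.ng : Aut where
  g := ⟨fun e => ((if e.2 then -e.1.1 else -e.1.1 - 1, e.1.2), e.2),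
    fun e => ((if e.2 then -e.1.1 else -e.1.1 - 1, e.1.2), e.2),
    fun e => by obtain ⟨⟨i, j⟩, c⟩ := e; cases c <;> simp,
    fun e => by obtain ⟨⟨i, j⟩, c⟩ := e; cases c <;> simp⟩
  s := ⟨fun x => (-x.1, x.2), fun x => (-x.1, x.2), fun x => by simp, fun x => by simp⟩
  p := ⟨fun x => (-x.1 - 1, x.2), fun x => (-x.1 - 1, x.2), fun x => by simp, fun x => by simp⟩
  hs e := by
    obtain ⟨⟨i, j⟩, c⟩ := e
    cases c
    · right; simp [src, tgt, dir]; ring
    · left; simp [src, tgt, dir]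
  hp e := by
    obtain ⟨⟨i, j⟩, c⟩ := e
    cases c
    · left; simp [pu, pl, dir]
    · right; simp [pu, pl, dir]

/-- composition -/
def Aut.comp (φ ψ : Aut) : Aut where
  g := ψ.g.trans φ.g
  s := ψ.s.trans φ.s
  p := ψ.p.trans φ.p
  hs e := by
    rcases ψ.hs e with h | h <;> rcases φ.hs (ψ.g e) with h' | h' <;>
      simp [h.1, h.2, h'.1, h'.2]
  hp e := by
    rcases ψ.hp e with h | h <;> rcases φ.hp (ψ.g e) with h' | h' <;>
      simp [h.1, h.2, h'.1, h'.2]

namespace R5AutAux

theorem Adj_aut (φ : Aut) {η : Finset Ed} {x y : Site} :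
    Adj (η.map φ.g.toEmbedding) (φ.s x) (φ.s y) ↔ Adj η x y := by
  constructor
  · rintro ⟨e', he', h⟩
    obtain ⟨e, he, rfl⟩ := mem_map.1 he'
    refine ⟨e, he, ?_⟩
    simp only [Equiv.coe_toEmbedding] at h
    rcases φ.hs e with ⟨h1, h2⟩ | ⟨h1, h2⟩ <;> rw [h1, h2] at h <;>
      simp only [EmbeddingLike.apply_eq_iff_eq] at h <;> tauto
  · rintro ⟨e, he, h⟩
    refine ⟨φ.g e, mem_map_of_mem _ he, ?_⟩
    rcases φ.hs e with ⟨h1, h2⟩ | ⟨h1, h2⟩ <;> rw [h1, h2] <;>
      simp only [EmbeddingLike.apply_eq_iff_eq] <;> tauto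

end R5AutAux

theorem Conn_aut (φ : Aut) {η : Finset Ed} {x y : Site} :
    Conn (η.map φ.g.toEmbedding) (φ.s x) (φ.s y) ↔ Conn η x y := by
  constructor
  · intro h
    have h' := Relation.ReflTransGen.lift (p := Adj η) φ.s.symm (fun a b hab => by
      have := (R5AutAux.Adj_aut φ (η := η) (x := φ.s.symm a) (y := φ.s.symm b)).1
        (by simpa using hab)
      exact this) _ _ h
    simpa [Function.onFun, Conn] using h'
  · intro h
    exact Relation.ReflTransGen.lift φ.s (fun a b hab => (R5AutAux.Adj_aut φ).2 hab) _ _ h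

theorem fw_aut {q : ℝ} (hq : 0 < q) (φ : Aut) (η : Finset Ed) :
    fw q (η.map φ.g.toEmbedding) = fw q η := by
  classical
  induction η using Finset.induction_on with
  | empty => simp
  | insert e η he ih =>
    rw [map_insert]
    have he' : φ.g.toEmbedding e ∉ η.map φ.g.toEmbedding := by
      rw [mem_map']
      exact he
    rw [fw_insert hq he', fw_insert hq he, ih]
    congr 1
    have hc : Conn (η.map φ.g.toEmbedding) (src (φ.g.toEmbedding e)) (tgt (φ.g.toEmbedding e)) ↔
        Conn η (src e) (tgt e) := by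
      simp only [Equiv.coe_toEmbedding]
      rcases φ.hs e with ⟨h1, h2⟩ | ⟨h1, h2⟩
      · rw [h1, h2]
        exact Conn_aut φ
      · rw [h1, h2, Conn_aut φ]
        exact ⟨Conn.symm, Conn.symm⟩
    by_cases h : Conn η (src e) (tgt e)
    · rw [if_pos h, if_pos (hc.2 h)]
    · rw [if_neg h, if_neg (fun h' => h (hc.1 h'))]

theorem ex_aut {q : ℝ} (hq : 0 < q) (φ : Aut) (E : Finset Ed) (G : Finset Ed → ℝ) :
    ex (E.map φ.g.toEmbedding) (fw q) G = ex E (fw q) (fun η => G (η.map φ.g.toEmbedding)) := by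
  classical
  have key : ∀ H : Finset Ed → ℝ, ∑ η ∈ (E.map φ.g.toEmbedding).powerset, H η =
      ∑ η ∈ E.powerset, H (η.map φ.g.toEmbedding) := by
    intro H
    symm
    refine Finset.sum_bij (fun η _ => η.map φ.g.toEmbedding) ?_ ?_ ?_ ?_
    · intro η hη
      rw [mem_powerset] at hη ⊢
      exact map_subset_map.2 hη
    · intro η _ η' _ h
      exact map_injective _ h
    · intro η hη
      rw [mem_powerset, subset_map_iff] at hη
      obtain ⟨u, hu, rfl⟩ := hη
      exact ⟨u, mem_powerset.2 hu, rfl⟩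
    · intro η _
      rfl
  unfold ex
  rw [key, key]
  simp only [fw_aut hq φ]

/-- `cr` as a permutation -/
noncomputable def crE : Ed ≃ Ed := Equiv.ofBijective cr ⟨DualAux.cr_injective, DualAux.cr_surjective⟩

/-- the automorphism of the passive lattice induced by an automorphism -/
theorem exists_dAut (φ : Aut) : ∃ ψ : Aut, (∀ f, ψ.g f = crE.symm (φ.g (cr f))) ∧
    (∀ x, ψ.s x = φ.p x) := by
  have e1 : ∀ f : Ed, src f = pl (cr f) := by
    rintro ⟨⟨i, j⟩, c⟩
    cases c <;> simp [src, pl, cr, dir]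
  have e2 : ∀ f : Ed, tgt f = pu (cr f) := by
    rintro ⟨⟨i, j⟩, c⟩
    cases c <;> simp [tgt, pu, cr, dir]
  have e3 : ∀ f : Ed, pl f = src (cr f) - (1, 1) := by
    rintro ⟨⟨i, j⟩, c⟩
    cases c <;> simp [src, pl, cr, dir]
  have e4 : ∀ f : Ed, pu f = tgt (cr f) - (1, 1) := by
    rintro ⟨⟨i, j⟩, c⟩
    cases c <;> simp [tgt, pu, cr, dir]
  have e5 : ∀ f : Ed, cr (crE.symm (φ.g (cr f))) = φ.g (cr f) := fun f =>
    crE.apply_symm_apply _
  refine ⟨⟨(crE.trans φ.g).trans crE.symm, φ.p,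
    ⟨fun x => φ.s (x + (1, 1)) - (1, 1), fun x => φ.s.symm (x + (1, 1)) - (1, 1),
      fun x => by simp, fun x => by simp⟩, ?_, ?_⟩, fun f => rfl, fun x => rfl⟩
  · intro f
    change (src (crE.symm (φ.g (cr f))) = φ.p (src f) ∧
        tgt (crE.symm (φ.g (cr f))) = φ.p (tgt f)) ∨
      (src (crE.symm (φ.g (cr f))) = φ.p (tgt f) ∧ tgt (crE.symm (φ.g (cr f))) = φ.p (src f))
    rw [e1 (crE.symm (φ.g (cr f))), e2 (crE.symm (φ.g (cr f))), e5, e1 f, e2 f]
    rcases φ.hp (cr f) with ⟨h1, h2⟩ | ⟨h1, h2⟩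
    · exact Or.inl ⟨h2, h1⟩
    · exact Or.inr ⟨h2, h1⟩
  · intro f
    change (pu (crE.symm (φ.g (cr f))) = φ.s (pu f + (1, 1)) - (1, 1) ∧
        pl (crE.symm (φ.g (cr f))) = φ.s (pl f + (1, 1)) - (1, 1)) ∨
      (pu (crE.symm (φ.g (cr f))) = φ.s (pl f + (1, 1)) - (1, 1) ∧
        pl (crE.symm (φ.g (cr f))) = φ.s (pu f + (1, 1)) - (1, 1))
    rw [e3 (crE.symm (φ.g (cr f))), e4 (crE.symm (φ.g (cr f))), e5, e3 f, e4 f]
    rcases φ.hs (cr f) with ⟨h1, h2⟩ | ⟨h1, h2⟩
    · left
      rw [h1, h2]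
      simp
    · right
      rw [h1, h2]
      simp

end P0q
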