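import Pool.Agent.Lib.P0q.R0Lam
import Pool.Agent.Lib.P0q.R0Case
import Pool.Agent.Lib.P0q.R3Rc
import Pool.Agent.Lib.P0q.H4CaseAZ
import Pool.Agent.Lib.P0q.B7Alt
import Pool.Agent.Lib.P0q.H9Num

/-!
# R7NuDom: the free heights are dominated by `RC^{w√q}` (section 3 of Q4_proof.md)

Let `a₀ = lam q / 4 = κ`, `θ, w₀` from `num a₀`; `w = min w₀ √q` (`√q > 2 > 1`), so `w √q ≤ q` and `w ≤ w₀`.
Claim (`nu_ratio`): for `η ⊆ inner a (b+1)`, `e ∈ inner a (b+1) \ η`: `nuW (insert e η) ≤ odd q (w√q) a b η e · nuW η`.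
Put `Q = BQ a b`, `ω = cf a b η`, `cf (insert e η) = update ω e true`, `ω = update ω e false` (`cf_insert`, `cf_erase`; `η.erase e = η`).
- `Conn η u v` (case A): `caseA_Z` (`BdF_Fch`; the box corners are in `bd`): `nuW (insert e η) = 2 cosh (lam q) nuW η = √q nuW η`, and `odd = √q`.
- not A, but `pu e, pl e` connected off `e` in the passive configuration (case B): `caseB_Z`: `nuW η = √q nuW (insert e η)`; and
  `odd ≥ 1/√q` (`odd = 1/√q` by `caseB_box`; in any case `√q/(w√q) = 1/w ≥ 1/√q`).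
- neither (case C): `Tc` for both ends (`caseC_box`), so `odd = √q/(w√q) = 1/w`. Show `w nuW (insert e η) ≤ nuW η`.
  `Fch θ = (Fth θ + Fth (-θ))/2`, so `nuW = (Z^θ + Z^{-θ})/2`, `Z^{θ'} = Zf _ κ (Fth θ' c₁ c₃) _`, and it is enough to show
  `w Z^{θ'}(ω₁) ≤ Z^{θ'}(ω₀)` for `θ' = ±θ`. By `caseC_Z`: `Z(ω₁) cosh β_u cosh β_v = Z(ω₀) cosh α_f cosh α_g`, so we need
  `w cosh α_f cosh α_g ≤ cosh β_u cosh β_v`. By `caseC_Tb` both sides of each of the four corners meet `bd`, so `NS_arc` (`bdDeg`) gives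
  `NS = 1 - J` for `S_f, S_g` and `3 - J` for `R_u, R_v`. So `α_f = a₀(1 - J_f) + θ' K_f` etc. with `J = Jc crn S`,
  `K = Kc c₀ c₂ S = 1[c₀ ∈ S] - 1[c₂ ∈ S]`. The four sets are pairwise disjoint (`caseC_disj_S`, `_R`, `_SR`): `J_f + J_g + J_u + J_v ≤ 4`;
  `|K| ≤ 1`. If `J_u = J_v = 2`: the four box corners are in `R_u ∪ R_v`, two in each, so `J_f = J_g = 0`, `K_f = K_g = 0`; `bX R_u` has 2
  elements (`side_arc`), so by `no_alt` `R_u` contains exactly one of `c 0, c 2` (if it contains both, `c 1, c 3 ∉ R_u`; if none, then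
  `c 1, c 3 ∈ R_u`): `{K_u, K_v} = {1, -1}`. So `num` applies, with `θ` and the `K`'s, and for `θ' = -θ` with the
  `-K`'s.
`nu_dom`: `rcW_insert` turns the claim into the comparison of odds at the same configuration, `odds_of` and `rc_odds` (`1 ≤ w√q ≤ q`) and `dom` give
domination by `RC^{w√q}`; then `rc_dom` for `qb ≤ w√q`.
-/

set_option autoImplicit false

open Finset P0de

namespace P0q

namespace R7NuDomAux

theorem Zf_Fch {V M : Type} [Fintype V] [DecidableEq V] [Fintype M] [DecidableEq M]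
    (Q : Quad V M) (r : V) (κ θ : ℝ) (c₁ c₃ : V) (ω : M → Bool) :
    2 * Q.Zf r κ (Quad.Fch θ c₁ c₃) ω =
      Q.Zf r κ (Quad.Fth θ c₁ c₃) ω + Q.Zf r κ (Quad.Fth (-θ) c₁ c₃) ω := by
  unfold Quad.Zf
  rw [← sum_add_distrib, mul_sum]
  refine sum_congr rfl fun h _ => ?_
  split_ifs
  · unfold Quad.Fch Quad.Fth
    rw [Real.cosh_eq, neg_mul]
    ring
  · ring

/-- the four box corners: the tuple of `num` -/
theorem tuple {V : Type} [DecidableEq V] (c : Fin 4 → V) (Sf Sg Ru Rv : Finset V)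
    (h1 : Disjoint Sf Sg) (h2 : Disjoint Ru Rv) (h3 : Disjoint Sf Ru) (h4 : Disjoint Sf Rv)
    (h5 : Disjoint Sg Ru) (h6 : Disjoint Sg Rv)
    (hn : ¬ (c 0 ∈ Ru ∧ c 2 ∈ Ru ∧ c 1 ∉ Ru ∧ c 3 ∉ Ru) ∧
      ¬ (c 0 ∉ Ru ∧ c 2 ∉ Ru ∧ c 1 ∈ Ru ∧ c 3 ∈ Ru)) :
    Quad.Jc c Sf + Quad.Jc c Sg + Quad.Jc c Ru + Quad.Jc c Rv ≤ 4 ∧
    (Quad.Jc c Ru = 2 → Quad.Jc c Rv = 2 →
      Quad.Kc (c 0) (c 2) Sf = 0 ∧ Quad.Kc (c 0) (c 2) Sg = 0 ∧
      ((Quad.Kc (c 0) (c 2) Ru = 1 ∧ Quad.Kc (c 0) (c 2) Rv = -1) ∨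
       (Quad.Kc (c 0) (c 2) Ru = -1 ∧ Quad.Kc (c 0) (c 2) Rv = 1))) := by
  have hJ : ∀ S : Finset V, Quad.Jc c S = (if c 0 ∈ S then 1 else 0) + (if c 1 ∈ S then 1 else 0) +
      (if c 2 ∈ S then 1 else 0) + (if c 3 ∈ S then 1 else 0) := by
    intro S
    unfold Quad.Jc
    rw [card_filter, Fin.sum_univ_four]
  obtain ⟨x, hx⟩ : ∃ x : Finset V → Fin 4 → ℕ, ∀ S i, x S i = if c i ∈ S then 1 else 0 :=
    ⟨_, fun _ _ => rfl⟩
  have hx1 : ∀ S i, x S i ≤ 1 := by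
    intro S i
    rw [hx]
    split_ifs <;> omega
  have hd : ∀ S T : Finset V, Disjoint S T → ∀ i, x S i + x T i ≤ 1 := by
    intro S T hST i
    rw [hx, hx]
    by_cases hS : c i ∈ S
    · rw [if_pos hS, if_neg (disjoint_left.1 hST hS)]
    · rw [if_neg hS]
      split_ifs <;> omega
  have hK : ∀ S, Quad.Kc (c 0) (c 2) S = (x S 0 : ℤ) - (x S 2 : ℤ) := by
    intro S
    unfold Quad.Kc
    rw [hx, hx]
    push_cast
    rfl
  have hJ' : ∀ S, Quad.Jc c S = x S 0 + x S 1 + x S 2 + x S 3 := by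
    intro S
    rw [hJ, hx, hx, hx, hx]
  have hone : ∀ S i, c i ∈ S ↔ x S i = 1 := by
    intro S i
    rw [hx]
    split_ifs with h <;> simp [h]
  rw [hone, hone, hone, hone] at hn
  simp only [hK, hJ']
  have a1 := fun i => hd _ _ h1 i
  have a2 := fun i => hd _ _ h2 i
  have a3 := fun i => hd _ _ h3 i
  have a4 := fun i => hd _ _ h4 i
  have a5 := fun i => hd _ _ h5 i
  have a6 := fun i => hd _ _ h6 i
  have b1 := a1 0; have b2 := a1 1; have b3 := a1 2; have b4 := a1 3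
  have b5 := a2 0; have b6 := a2 1; have b7 := a2 2; have b8 := a2 3
  have b9 := a3 0; have b10 := a3 1; have b11 := a3 2; have b12 := a3 3
  have b13 := a4 0; have b14 := a4 1; have b15 := a4 2; have b16 := a4 3
  have b17 := a5 0; have b18 := a5 1; have b19 := a5 2; have b20 := a5 3
  have b21 := a6 0; have b22 := a6 1; have b23 := a6 2; have b24 := a6 3
  have s0 : x Sf 0 + x Sg 0 + x Ru 0 + x Rv 0 ≤ 1 := by omega
  have s1 : x Sf 1 + x Sg 1 + x Ru 1 + x Rv 1 ≤ 1 := by omega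
  have s2 : x Sf 2 + x Sg 2 + x Ru 2 + x Rv 2 ≤ 1 := by omega
  have s3 : x Sf 3 + x Sg 3 + x Ru 3 + x Rv 3 ≤ 1 := by omega
  clear b1 b2 b3 b4 b5 b6 b7 b8 b9 b10 b11 b12 b13 b14 b15 b16 b17 b18 b19 b20 b21 b22 b23 b24
  refine ⟨by omega, fun j1 j2 => ?_⟩
  have t1 : x Sf 0 = 0 ∧ x Sf 2 = 0 ∧ x Sg 0 = 0 ∧ x Sg 2 = 0 ∧ x Ru 0 + x Rv 0 = 1 ∧
      x Ru 2 + x Rv 2 = 1 := by omega
  obtain ⟨t1, t2, t3, t4, t5, t6⟩ := t1
  have t7 : x Ru 0 + x Ru 2 = 1 := by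
    have := hx1 Ru 0
    have := hx1 Ru 1
    have := hx1 Ru 2
    have := hx1 Ru 3
    omega
  omega

theorem Kc_abs {V : Type} [DecidableEq V] (c₁ c₃ : V) (S : Finset V) :
    |Quad.Kc c₁ c₃ S| ≤ 1 := by
  unfold Quad.Kc
  rw [abs_le]
  split_ifs <;> omega

theorem cor_en {V M : Type} [Fintype V] [DecidableEq V] [Fintype M] [DecidableEq M]
    (Q : Quad V M) (hQ : Q.IsDisc) (e : M) (i j : Bool) :
    Q.cor (Q.en e false j) (Q.en e true i) :=
  (Q.cor_iff hQ).2 ⟨e, false, j, i, rfl, rfl⟩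

theorem caseC_ratio {a b : ℤ} (hab : a < b) {κ θ w : ℝ}
    (hnum : ∀ (jf jg ju jv : ℕ) (kf kg ku kv : ℤ), jf + jg + ju + jv ≤ 4 →
      |kf| ≤ 1 → |kg| ≤ 1 → |ku| ≤ 1 → |kv| ≤ 1 →
      (ju = 2 → jv = 2 → kf = 0 ∧ kg = 0 ∧ ((ku = 1 ∧ kv = -1) ∨ (ku = -1 ∧ kv = 1))) →
      w * (Real.cosh (κ * (1 - jf) + θ * kf) * Real.cosh (κ * (1 - jg) + θ * kg)) ≤
        Real.cosh (κ * (3 - ju) + θ * ku) * Real.cosh (κ * (3 - jv) + θ * kv))
    (ω : MM a b → Bool) (e : MM a b)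
    (h1 : ¬ (BQ a b).Cono ω e ((BQ a b).en e true false) ((BQ a b).en e true true))
    (h2 : ¬ (BQ a b).Cono ω e ((BQ a b).en e false false) ((BQ a b).en e false true)) :
    w * (BQ a b).Zf (crn a b hab 0) κ (Quad.Fth θ (crn a b hab 0) (crn a b hab 2))
        (Function.update ω e true) ≤
      (BQ a b).Zf (crn a b hab 0) κ (Quad.Fth θ (crn a b hab 0) (crn a b hab 2))
        (Function.update ω e false) := by
  have hQ := isDisc hab
  have hb := bdDeg hab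
  set Q := BQ a b with hQdef
  set c := crn a b hab with hc
  have hTb := fun i j => Q.caseC_Tb hQ ω e h1 h2 i j
  have ns1 : ∀ j, Q.NS (Function.update ω e true) (Q.side (Function.update ω e true)
      (Q.en e false j) (Q.en e true false)) = 1 - (Quad.Jc c (Q.side (Function.update ω e true)
      (Q.en e false j) (Q.en e true false)) : ℤ) := by
    intro j
    rw [Q.NS_arc hQ c hb _ (cor_en Q hQ e false j) (hTb false j).1 (hTb false j).2.1, hQ.pr_en]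
    simp
  have ns2 : ∀ i, Q.NS (Function.update ω e false) (Q.side (Function.update ω e false)
      (Q.en e true i) (Q.en e false false)) = 3 - (Quad.Jc c (Q.side (Function.update ω e false)
      (Q.en e true i) (Q.en e false false)) : ℤ) := by
    intro i
    rw [Q.NS_arc hQ c hb _ (Q.cor_symm (cor_en Q hQ e i false)) (hTb i false).2.2.2
      (hTb i false).2.2.1, hQ.pr_en]
    simp
  set Sf := Q.side (Function.update ω e true) (Q.en e false false) (Q.en e true false) with hSf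
  set Sg := Q.side (Function.update ω e true) (Q.en e false true) (Q.en e true false) with hSg
  set Ru := Q.side (Function.update ω e false) (Q.en e true false) (Q.en e false false) with hRu
  set Rv := Q.side (Function.update ω e false) (Q.en e true true) (Q.en e false false) with hRv
  have hbX : (Q.bX Ru).card ≤ 3 := by
    rw [hRu, (Q.side_arc hQ _ (Q.cor_symm (cor_en Q hQ e false false)) (hTb false false).2.2.2
      (hTb false false).2.2.1).1]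
    norm_num
  obtain ⟨t1, t2⟩ := tuple c Sf Sg Ru Rv (Q.caseC_disj_S hQ ω e h2) (Q.caseC_disj_R hQ ω e h1)
    (Q.caseC_disj_SR hQ ω e h1 h2 false false) (Q.caseC_disj_SR hQ ω e h1 h2 true false)
    (Q.caseC_disj_SR hQ ω e h1 h2 false true) (Q.caseC_disj_SR hQ ω e h1 h2 true true)
    (no_alt hab Ru hbX)
  have hn := hnum _ _ _ _ _ _ _ _ t1 (Kc_abs (c 0) (c 2) Sf) (Kc_abs (c 0) (c 2) Sg)
    (Kc_abs (c 0) (c 2) Ru) (Kc_abs (c 0) (c 2) Rv) t2
  have hZ := Q.caseC_Z hQ ω e (c 0) κ θ (c 0) (c 2) h1 h2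
    (κ * (1 - Quad.Jc c Sf) + θ * Quad.Kc (c 0) (c 2) Sf)
    (κ * (1 - Quad.Jc c Sg) + θ * Quad.Kc (c 0) (c 2) Sg)
    (κ * (3 - Quad.Jc c Ru) + θ * Quad.Kc (c 0) (c 2) Ru)
    (κ * (3 - Quad.Jc c Rv) + θ * Quad.Kc (c 0) (c 2) Rv)
    (by rw [ns1 false]; push_cast; rfl) (by rw [ns1 true]; push_cast; rfl)
    (by rw [ns2 false]; push_cast; rfl) (by rw [ns2 true]; push_cast; rfl)
  have hZ1 : 0 ≤ Q.Zf (c 0) κ (Quad.Fth θ (c 0) (c 2)) (Function.update ω e true) :=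
    Q.Zf_nonneg _ _ _ (fun h => (Real.exp_pos _).le) _
  have hpos : 0 < Real.cosh (κ * (1 - Quad.Jc c Sf) + θ * Quad.Kc (c 0) (c 2) Sf) *
      Real.cosh (κ * (1 - Quad.Jc c Sg) + θ * Quad.Kc (c 0) (c 2) Sg) :=
    mul_pos (Real.cosh_pos _) (Real.cosh_pos _)
  have h3 := mul_le_mul_of_nonneg_left hn hZ1
  rw [hZ] at h3
  refine le_of_mul_le_mul_right ?_ hpos
  refine le_trans (le_of_eq ?_) h3
  ring

theorem neg_num {κ θ w : ℝ}
    (hnum : ∀ (jf jg ju jv : ℕ) (kf kg ku kv : ℤ), jf + jg + ju + jv ≤ 4 →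
      |kf| ≤ 1 → |kg| ≤ 1 → |ku| ≤ 1 → |kv| ≤ 1 →
      (ju = 2 → jv = 2 → kf = 0 ∧ kg = 0 ∧ ((ku = 1 ∧ kv = -1) ∨ (ku = -1 ∧ kv = 1))) →
      w * (Real.cosh (κ * (1 - jf) + θ * kf) * Real.cosh (κ * (1 - jg) + θ * kg)) ≤
        Real.cosh (κ * (3 - ju) + θ * ku) * Real.cosh (κ * (3 - jv) + θ * kv)) :
    ∀ (jf jg ju jv : ℕ) (kf kg ku kv : ℤ), jf + jg + ju + jv ≤ 4 →
      |kf| ≤ 1 → |kg| ≤ 1 → |ku| ≤ 1 → |kv| ≤ 1 →
      (ju = 2 → jv = 2 → kf = 0 ∧ kg = 0 ∧ ((ku = 1 ∧ kv = -1) ∨ (ku = -1 ∧ kv = 1))) →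
      w * (Real.cosh (κ * (1 - jf) + -θ * kf) * Real.cosh (κ * (1 - jg) + -θ * kg)) ≤
        Real.cosh (κ * (3 - ju) + -θ * ku) * Real.cosh (κ * (3 - jv) + -θ * kv) := by
  intro jf jg ju jv kf kg ku kv h1 h2 h3 h4 h5 h6
  have h := hnum jf jg ju jv (-kf) (-kg) (-ku) (-kv) h1 (by rwa [abs_neg]) (by rwa [abs_neg])
    (by rwa [abs_neg]) (by rwa [abs_neg]) (fun j1 j2 => by
      have := h6 j1 j2
      omega)
  have e : ∀ k : ℤ, -θ * (k : ℝ) = θ * ((-k : ℤ) : ℝ) := by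
    intro k
    push_cast
    ring
  rw [e kf, e kg, e ku, e kv]
  exact h

theorem nu_ratio {q : ℝ} (hq : 4 < q) {θ w : ℝ} (hw : 1 < w) (hws : w ≤ √q)
    (hnum : ∀ (jf jg ju jv : ℕ) (kf kg ku kv : ℤ), jf + jg + ju + jv ≤ 4 →
      |kf| ≤ 1 → |kg| ≤ 1 → |ku| ≤ 1 → |kv| ≤ 1 →
      (ju = 2 → jv = 2 → kf = 0 ∧ kg = 0 ∧ ((ku = 1 ∧ kv = -1) ∨ (ku = -1 ∧ kv = 1))) →
      w * (Real.cosh (lam q / 4 * (1 - jf) + θ * kf) * Real.cosh (lam q / 4 * (1 - jg) + θ * kg)) ≤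
        Real.cosh (lam q / 4 * (3 - ju) + θ * ku) * Real.cosh (lam q / 4 * (3 - jv) + θ * kv))
    {a b : ℤ} (hab : a < b) {η : Finset Ed} (hη : η ⊆ inner a (b + 1)) {e : Ed}
    (he : e ∈ inner a (b + 1)) (hn : e ∉ η) :
    nuW q θ a b hab (insert e η) ≤ odd q (w * √q) a b η e * nuW q θ a b hab η := by
  have hQ := isDisc hab
  have hb := bdDeg hab
  have hs0 : 0 < √q := Real.sqrt_pos.2 (by linarith)
  have hsq : √q * √q = q := Real.mul_self_sqrt (by linarith)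
  have h4 : 4 * (lam q / 4) = lam q := by ring
  have hlam := lam_spec hq
  have hm := en_mem he
  have u0 : cf a b η = Function.update (cf a b η) ⟨e, he⟩ false := cf_erase ⟨e, he⟩ hn
  have u1 : cf a b (insert e η) = Function.update (cf a b η) ⟨e, he⟩ true := cf_insert η ⟨e, he⟩
  have c1 : (BQ a b).Cono (cf a b η) ⟨e, he⟩ ((BQ a b).en ⟨e, he⟩ true false)
      ((BQ a b).en ⟨e, he⟩ true true) ↔ Conn η (src e) (tgt e) := by
    have := cono_act hη ⟨e, he⟩ hm.1 hm.2.1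
    rw [erase_eq_of_notMem hn] at this
    exact this
  have c2 : (BQ a b).Cono (cf a b η) ⟨e, he⟩ ((BQ a b).en ⟨e, he⟩ false false)
      ((BQ a b).en ⟨e, he⟩ false true) ↔ Conn (dual a b (insert e η)) (pu e) (pl e) :=
    cono_pas η ⟨e, he⟩ hm.2.2.1 hm.2.2.2
  have hBd := Quad.BdF_Fch (BQ a b) (θ := θ) (hb.mem 0).1 (hb.mem 2).1
  have hZ0 := (nuW_pos (q := q) θ hab η).le
  unfold nuW
  unfold nuW at hZ0
  rw [u1]
  by_cases hA : Conn η (src e) (tgt e)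
  · have h := (BQ a b).caseA_Z hQ (cf a b η) ⟨e, he⟩ (hb.mem 0).1 (lam q / 4) _ hBd (c1.2 hA)
    rw [← u0, h4, hlam.2.1] at h
    rw [h]
    unfold odd
    rw [if_pos hA]
  · by_cases hB : Conn (dual a b (insert e η)) (pu e) (pl e)
    · have h := (BQ a b).caseB_Z hQ (cf a b η) ⟨e, he⟩ (hb.mem 0).1 (lam q / 4) _ hBd (c2.2 hB)
      rw [← u0, h4, hlam.2.1] at h
      have i1 : 1 / √q ≤ odd q (w * √q) a b η e := by
        have hw0 : 0 < w := by linarith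
        have i2 : 1 / √q ≤ √q / (w * √q) := by
          rw [div_le_div_iff₀ hs0 (by positivity), one_mul]
          exact mul_le_mul_of_nonneg_right hws hs0.le
        unfold odd
        split_ifs
        exact i2
        exact le_rfl
      have h5 : (BQ a b).Zf (crn a b hab 0) (lam q / 4)
          (Quad.Fch θ (crn a b hab 0) (crn a b hab 2))
          (Function.update (cf a b η) ⟨e, he⟩ true) = 1 / √q * (BQ a b).Zf (crn a b hab 0)
          (lam q / 4) (Quad.Fch θ (crn a b hab 0) (crn a b hab 2)) (cf a b η) := by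
        rw [h]
        field_simp
      rw [h5]
      exact mul_le_mul_of_nonneg_right i1 hZ0
    · have hA' : ¬ Conn (η.erase e) (src e) (tgt e) := by
        rw [erase_eq_of_notMem hn]
        exact hA
      have hTc := caseC_box hab hη he hA' hB
      rw [erase_eq_of_notMem hn] at hTc
      have ho : odd q (w * √q) a b η e = 1 / w := by
        unfold odd
        rw [if_neg hA, if_pos ⟨hTc.1, hTc.2.1⟩]
        field_simp
      have r1 := caseC_ratio hab hnum (cf a b η) ⟨e, he⟩ (fun h => hA (c1.1 h))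
        (fun h => hB (c2.1 h))
      have r2 := caseC_ratio hab (neg_num hnum) (cf a b η) ⟨e, he⟩ (fun h => hA (c1.1 h))
        (fun h => hB (c2.1 h))
      rw [← u0] at r1 r2
      have f0 := Zf_Fch (BQ a b) (crn a b hab 0) (lam q / 4) θ (crn a b hab 0) (crn a b hab 2)
        (cf a b η)
      have f1 := Zf_Fch (BQ a b) (crn a b hab 0) (lam q / 4) θ (crn a b hab 0) (crn a b hab 2)
        (Function.update (cf a b η) ⟨e, he⟩ true)
      have hw0 : 0 < w := by linarith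
      have f2 := congrArg (fun t => w * t) f1
      replace f2 : w * (2 * (BQ a b).Zf (crn a b hab 0) (lam q / 4)
          (Quad.Fch θ (crn a b hab 0) (crn a b hab 2))
          (Function.update (cf a b η) ⟨e, he⟩ true)) = w * ((BQ a b).Zf (crn a b hab 0)
          (lam q / 4) (Quad.Fth θ (crn a b hab 0) (crn a b hab 2))
          (Function.update (cf a b η) ⟨e, he⟩ true) + (BQ a b).Zf (crn a b hab 0) (lam q / 4)
          (Quad.Fth (-θ) (crn a b hab 0) (crn a b hab 2))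
          (Function.update (cf a b η) ⟨e, he⟩ true)) := f2
      rw [ho, one_div, ← div_eq_inv_mul, le_div_iff₀ hw0]
      linarith

end R7NuDomAux

open R7NuDomAux

theorem nu_dom {q : ℝ} (hq : 4 < q) : ∃ θ : ℝ, ∃ w : ℝ, 1 < w ∧ w * √q ≤ q ∧
    ∀ (a b : ℤ) (hab : a < b) (qb : ℝ), 1 ≤ qb → qb ≤ w * √q → ∀ g : Finset Ed → ℝ,
      MonoOn (inner a (b + 1)) g →
      ex (inner a (b + 1)) (nuW q θ a b hab) g ≤ ex (inner a (b + 1)) (rcW q qb (pc q) a b) g := by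
  have hlam := lam_spec hq
  obtain ⟨θ, -, w₀, hw₀, hnum₀⟩ := num (lam q / 4) (by linarith [hlam.1])
  have hq0 : 0 < q := by linarith
  have hs0 : 0 < √q := Real.sqrt_pos.2 hq0
  have hsq : √q * √q = q := Real.mul_self_sqrt hq0.le
  have hs1 : 1 < √q := by
    rw [Real.lt_sqrt (by norm_num)]
    linarith
  have hw : 1 < min w₀ √q := lt_min hw₀ hs1
  have hws : min w₀ √q ≤ √q := min_le_right _ _
  have hnum : ∀ (jf jg ju jv : ℕ) (kf kg ku kv : ℤ), jf + jg + ju + jv ≤ 4 →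
      |kf| ≤ 1 → |kg| ≤ 1 → |ku| ≤ 1 → |kv| ≤ 1 →
      (ju = 2 → jv = 2 → kf = 0 ∧ kg = 0 ∧ ((ku = 1 ∧ kv = -1) ∨ (ku = -1 ∧ kv = 1))) →
      min w₀ √q * (Real.cosh (lam q / 4 * (1 - jf) + θ * kf) *
        Real.cosh (lam q / 4 * (1 - jg) + θ * kg)) ≤
        Real.cosh (lam q / 4 * (3 - ju) + θ * ku) * Real.cosh (lam q / 4 * (3 - jv) + θ * kv) := by
    intro jf jg ju jv kf kg ku kv h1 h2 h3 h4 h5 h6
    refine le_trans ?_ (hnum₀ jf jg ju jv kf kg ku kv h1 h2 h3 h4 h5 h6)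
    exact mul_le_mul_of_nonneg_right (min_le_left _ _)
      (mul_pos (Real.cosh_pos _) (Real.cosh_pos _)).le
  have hwq : min w₀ √q * √q ≤ q := by
    calc min w₀ √q * √q ≤ √q * √q := mul_le_mul_of_nonneg_right hws hs0.le
      _ = q := hsq
  refine ⟨θ, min w₀ √q, hw, hwq, fun a b hab qb hqb hqb' g hg => ?_⟩
  have hws1 : 1 ≤ min w₀ √q * √q := hqb.trans hqb'
  have hws0 : 0 < min w₀ √q * √q := by linarith
  refine le_trans ?_ (rc_dom hqb hqb' hwq a b hg)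
  refine dom (fun η _ => nuW_pos θ hab η) (fun η _ => rcW_pos hq0 hws0 a b η)
    (odds_of (fun η _ => nuW_pos θ hab η) (fun η _ => rcW_pos hq0 hws0 a b η) ?_
      (rc_odds hws1 hwq a b)) hg
  intro η e h1 he hn
  rw [rcW_insert hq0 hws0 h1 he hn]
  have i1 := rcW_pos hq0 hws0 a b η
  have i2 := nu_ratio hq hw hws hnum hab h1 he hn
  calc nuW q θ a b hab (insert e η) * rcW q (min w₀ √q * √q) (pc q) a b η ≤
      (odd q (min w₀ √q * √q) a b η e * nuW q θ a b hab η) *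
        rcW q (min w₀ √q * √q) (pc q) a b η := mul_le_mul_of_nonneg_right i2 i1.le
    _ = nuW q θ a b hab η *
        (odd q (min w₀ √q * √q) a b η e * rcW q (min w₀ √q * √q) (pc q) a b η) := by ring

end P0q
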