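import Pool.Agent.Lib.P0q.Z1Hit

/-!
# Z4Zero: if the origin is connected to infinity with positive probability, then large boxes are, with probability close to one

Write `p n K = μ.real {ω | Cross n K (op (EE K) ω)}`. `cross_mono`: for `K ≤ K'`, `Cross 0 K' (op (EE K') ω)` implies `Cross 0 K (op (EE K) ω)`: `Cross_anti` gives
`Cross 0 K (op (EE K') ω)`, which only depends on `op (EE K') ω ∩ EE K = op (EE K) ω` (`EE K ⊆ EE K'`; `Cross` intersects with `EE K`). So `θ K = p 0 K` is antitone and `≥ δ` for `K ≥ 1`.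
Given `ε > 0` put `η = min (ε δ / 4) (δ / 2)`. There is `K₁ ≥ 1` with `θ K₁ - θ K ≤ η` for all `K ≥ K₁` (an antitone sequence bounded below: `tendsto_atTop_ciInf`, or: the infimum).
`hμ.mix (EE K₁) (Cross 0 K₁) (Cross_up _ _) η` gives `N₀`. Let `n = max N₀ K₁` and `K > n`. Take `E' = EE K \ EE n` (disjoint from `EE N₀ ⊆ EE n`) and
`C ξ := ¬ Crs (-n) n (-K) K ξ`. Then
 (1) `1 - p n K ≤ μ.real {C (op E' ω)}`: if `Crs (-n) n (-K) K (op E' ω)` then `Cross n K (op (EE K) ω)` (`Crs_up`, `op E' ω ⊆ op (EE K) ω ∩ EE K`).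
 (2) `{Cross 0 K₁ (op (EE K₁) ω) ∧ C (op E' ω)} ⊆ {Cross 0 K₁ (op (EE K₁) ω)} \ {Cross 0 K (op (EE K) ω)}`: if `Cross 0 K (op (EE K) ω)`: `x ∈ box 0 1 ⊆ box (-n) (n+1)` is connected to
     `w ∈ bdry (-K) K`, `w ∉ box (-n) (n+1)` as `n < K`; `last_exit'`: some `x' ∈ box (-n) (n+1)` is connected to `w` in `(op (EE K) ω ∩ EE K) \ inner (-n) (n+1) = op E' ω`, so `¬ C`.
     The second event is contained in the first one (`cross_mono`, `K₁ ≤ n < K`), so the measure of the difference is `θ K₁ - θ K ≤ η`.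
 So `(θ K₁ - η) (1 - p n K) ≤ η` with `θ K₁ - η ≥ δ/2` and `1 - p n K ≥ 0`, hence `1 - p n K ≤ 2 η / δ ≤ ε`.
-/

set_option autoImplicit false

open Finset P0de MeasureTheory Filter Topology

namespace P0q

namespace Z4ZeroAux

theorem EE_mono {K K' : ℕ} (h : K ≤ K') : EE K ⊆ EE K' := by
  intro e he
  rw [EE, DualAux.mem_inner] at he
  rw [EE, DualAux.mem_inner]
  exact ⟨F1ShrinkAux.box_mono (by omega) (by omega) he.1,
    F1ShrinkAux.box_mono (by omega) (by omega) he.2⟩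

theorem cross_mono {K K' : ℕ} (h : K ≤ K') {ω : Ed → Bool}
    (hc : Cross 0 K' (op (EE K') ω)) : Cross 0 K (op (EE K) ω) := by
  have h1 : Cross 0 K (op (EE K') ω) := Cross_anti le_rfl h (Nat.zero_le _) hc
  have h2 : op (EE K') ω ∩ EE K = op (EE K) ω ∩ EE K := by
    ext e
    simp only [op, mem_inter, mem_filter]
    constructor
    · rintro ⟨⟨_, h3⟩, h4⟩
      exact ⟨⟨h4, h3⟩, h4⟩
    · rintro ⟨⟨_, h3⟩, h4⟩
      exact ⟨⟨EE_mono h h4, h3⟩, h4⟩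
  unfold Cross at h1 ⊢
  rwa [h2] at h1

theorem step1 {n K : ℕ} {ω : Ed → Bool}
    (h : Crs (-(n : ℤ)) n (-(K : ℤ)) K (op (EE K \ EE n) ω)) :
    Cross n K (op (EE K) ω) := by
  have h1 : op (EE K \ EE n) ω ⊆ op (EE K) ω ∩ EE K := by
    intro e he
    simp only [op, mem_inter, mem_filter, Finset.mem_sdiff] at he ⊢
    exact ⟨⟨he.1.1, he.2⟩, he.1.1⟩
  exact Crs_up _ _ _ _ _ _ h1 h

theorem step2 {n K : ℕ} (hn : n < K) {ω : Ed → Bool} (h : Cross 0 K (op (EE K) ω)) :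
    Crs (-(n : ℤ)) n (-(K : ℤ)) K (op (EE K \ EE n) ω) := by
  obtain ⟨x, hx, w, hw, hc⟩ := h
  have hx' : x ∈ box (-(n : ℤ)) ((n : ℤ) + 1) :=
    F1ShrinkAux.box_mono (by simp) (by simp) hx
  have hw' : w ∉ box (-(n : ℤ)) ((n : ℤ) + 1) := fun h1 =>
    (mem_bdry.1 hw).2 (F1ShrinkAux.box_mono (by omega) (by omega) h1)
  obtain ⟨x', hx2, hc2⟩ := last_exit' hx' hw' hc
  refine ⟨x', hx2, w, hw, Conn.mono ?_ hc2⟩
  intro e he
  simp only [op, mem_inter, mem_filter, Finset.mem_sdiff] at he ⊢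
  exact ⟨⟨he.1.2, he.2⟩, he.1.1.2⟩

end Z4ZeroAux

open Z4ZeroAux

theorem zero_one {μ : Measure (Ed → Bool)} (hμ : Good μ) {δ : ℝ} (hδ : 0 < δ)
    (h : ∀ K : ℕ, 0 < K → δ ≤ μ.real {ω | Cross 0 K (op (EE K) ω)}) {ε : ℝ} (hε : 0 < ε) :
    ∃ n : ℕ, ∀ K : ℕ, n < K → 1 - ε ≤ μ.real {ω | Cross n K (op (EE K) ω)} := by
  have := hμ.prob
  set θ : ℕ → ℝ := fun K => μ.real {ω | Cross 0 K (op (EE K) ω)} with hθ
  have hanti : Antitone θ := by
    intro K K' hK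
    exact measureReal_mono (fun ω hω => cross_mono hK hω)
  have hbdd : BddBelow (Set.range θ) := ⟨0, by rintro _ ⟨K, rfl⟩; exact measureReal_nonneg⟩
  have hlim : Tendsto θ atTop (𝓝 (⨅ K, θ K)) := tendsto_atTop_ciInf hanti hbdd
  obtain ⟨η, hη, hη1, hη2⟩ : ∃ η : ℝ, 0 < η ∧ η ≤ ε * δ / 4 ∧ η ≤ δ / 2 :=
    ⟨min (ε * δ / 4) (δ / 2), lt_min (by positivity) (by positivity),
      min_le_left _ _, min_le_right _ _⟩
  have hev : ∀ᶠ K in atTop, θ K < (⨅ K, θ K) + η :=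
    hlim.eventually (gt_mem_nhds (by linarith))
  obtain ⟨K₁, hK1, hK1'⟩ := (hev.and (eventually_ge_atTop 1)).exists
  have hK : ∀ K, θ K₁ - θ K ≤ η := fun K => by
    have := ciInf_le hbdd K
    linarith
  obtain ⟨N, hN⟩ := hμ.mix (EE K₁) (Cross 0 K₁) (Cross_up _ _) η hη
  refine ⟨max N K₁, fun K hK2 => ?_⟩
  set n := max N K₁ with hn
  have hNn : N ≤ n := le_max_left _ _
  have hKn : K₁ ≤ n := le_max_right _ _
  have hdis : Disjoint (EE K \ EE n) (EE N) :=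
    (disjoint_sdiff_self_left (x := EE n) (y := EE K)).mono_right (EE_mono hNn)
  have hm := hN (EE K \ EE n) (fun ξ => ¬ Crs (-(n : ℤ)) n (-(K : ℤ)) K ξ) hdis
  have hp1 : 1 - μ.real {ω | Cross n K (op (EE K) ω)} ≤
      μ.real {ω | ¬ Crs (-(n : ℤ)) n (-(K : ℤ)) K (op (EE K \ EE n) ω)} := by
    rw [← probReal_compl_eq_one_sub (measurable_op (EE K) (Cross n K))]
    refine measureReal_mono ?_
    intro ω hω h1
    exact hω (step1 h1)
  have hp2 : μ.real {ω | Cross 0 K₁ (op (EE K₁) ω) ∧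
      ¬ Crs (-(n : ℤ)) n (-(K : ℤ)) K (op (EE K \ EE n) ω)} ≤ θ K₁ - θ K := by
    have hsub : {ω | Cross 0 K (op (EE K) ω)} ⊆ {ω | Cross 0 K₁ (op (EE K₁) ω)} :=
      fun ω hω => cross_mono (by omega) hω
    rw [hθ]
    rw [← measureReal_sdiff hsub (measurable_op (EE K) (Cross 0 K))]
    refine measureReal_mono ?_
    rintro ω ⟨h1, h2⟩
    exact ⟨h1, fun h3 => h2 (step2 hK2 h3)⟩
  have h3 := h K₁ (by omega)
  have h4 : δ / 2 ≤ θ K₁ - η := by
    have : δ ≤ θ K₁ := h3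
    linarith
  have h5 : (0 : ℝ) ≤ 1 - μ.real {ω | Cross n K (op (EE K) ω)} := by
    have := measureReal_le_one (μ := μ) (s := {ω | Cross n K (op (EE K) ω)})
    linarith
  have h6 : (δ / 2) * (1 - μ.real {ω | Cross n K (op (EE K) ω)}) ≤ η := by
    calc (δ / 2) * (1 - μ.real {ω | Cross n K (op (EE K) ω)})
        ≤ (θ K₁ - η) * (1 - μ.real {ω | Cross n K (op (EE K) ω)}) :=
          mul_le_mul_of_nonneg_right h4 h5
      _ ≤ (θ K₁ - η) * μ.real {ω | ¬ Crs (-(n : ℤ)) n (-(K : ℤ)) K (op (EE K \ EE n) ω)} :=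
          mul_le_mul_of_nonneg_left hp1 (by linarith)
      _ ≤ θ K₁ - θ K := le_trans hm hp2
      _ ≤ η := hK K
  have h7 : (δ / 2) * (1 - μ.real {ω | Cross n K (op (EE K) ω)}) ≤ (δ / 2) * ε := by
    have : ε * δ / 4 ≤ (δ / 2) * ε := by nlinarith [mul_pos hε hδ]
    linarith
  have h8 := le_of_mul_le_mul_left h7 (by positivity)
  linarith

end P0q
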