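import Pool.Agent.Lib.P0q.Z6Six

/-!
# Z6Fin: finite energy makes `[-n, n]²` a trifurcation box

`E₀ = EI (-n) n`, `B = box (-n) (n+1)`, `E' = EE K \ E₀`. For `y` with `∀ i, Ext n (y i)` let `pat y` be the set of the edges `e ∈ E₀` with `(src e ∈ B ∨ ∃ i, src e = y i)` and
`(tgt e ∈ B ∨ ∃ i, tgt e = y i)`.
(1) Deterministic: if `η = op (EE K) ω` with `op E₀ ω = pat y`, `Ext n (y i)` for all `i` and `Sep K y (op E' ω)` then `Tri η B 0 y` and `Tc (-K) K (off η B) (y i)`; so `TE n K η`.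
  [`E₀ ⊆ EE K` as `n < K`; `tch η B = η ∩ E₀ = op E₀ ω = pat y` and `off η B = η \ E₀ = op E' ω` by `mem_EI`. `c_mem`: `0 ∈ B`. `ends`: by definition of `pat`. `conn_B`: `inner (-n) (n+1) ⊆ pat y`, `box_conn`,
  `Conn.mono`. `conn_y`: the edge of `E₀` joining `y i` to some `x ∈ B` is in `pat y`. `disc`: `Sep`.]
(2) Let `Y` be the finite set of the `y : Fin 3 → Site` with all `y i ∈ box (-n-1) (n+2)` (`Fintype.piFinset fun _ => box ..`): it contains all `y` with `∀ i, Ext n (y i)`. `hμ.fe E₀` gives `c > 0`. For `K > n`: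
  `1/2 ≤ μ.real {∃ y, (∀ i, Ext n (y i)) ∧ Sep K y (op E' ω)} ≤ ∑_{y ∈ Y, ∀ i, Ext n (y i)} μ.real {Sep K y (op E' ω)}` (`measureReal_biUnion_finset_le`) and for each such `y`
  `c * μ.real {Sep K y (op E' ω)} ≤ μ.real {op E₀ ω = pat y ∧ Sep K y (op E' ω)} ≤ μ.real {TE n K (op (EE K) ω)}` (`pat y ⊆ E₀`, `E'` disjoint from `E₀`, (1)).
  So `c / 2 ≤ |Y| μ.real {TE}`; `δ = c / (2 (|Y| + 1))`.
-/

set_option autoImplicit false

open Finset P0de MeasureTheory Filter Topology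

namespace P0q

namespace Z6F

open Classical in
/-- the pattern joining the box to the three exits -/
noncomputable def pat (n : ℕ) (y : Fin 3 → Site) : Finset Ed :=
  (EI (-(n : ℤ)) n).filter fun e => (src e ∈ box (-(n : ℤ)) (n + 1) ∨ ∃ i, src e = y i) ∧
    (tgt e ∈ box (-(n : ℤ)) (n + 1) ∨ ∃ i, tgt e = y i)

theorem mem_pat {n : ℕ} {y : Fin 3 → Site} {e : Ed} : e ∈ pat n y ↔ e ∈ EI (-(n : ℤ)) n ∧
    (src e ∈ box (-(n : ℤ)) (n + 1) ∨ ∃ i, src e = y i) ∧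
    (tgt e ∈ box (-(n : ℤ)) (n + 1) ∨ ∃ i, tgt e = y i) := by
  unfold pat
  exact Finset.mem_filter

theorem pat_sub {n : ℕ} {y : Fin 3 → Site} : pat n y ⊆ EI (-(n : ℤ)) n := by
  intro e he
  exact (mem_pat.1 he).1

theorem EI_sub {n K : ℕ} (h : n < K) : EI (-(n : ℤ)) n ⊆ EE K := by
  intro e he
  rw [mem_EI] at he
  rw [DualAux.mem_inner]
  obtain ⟨⟨x, y⟩, c⟩ := e
  have h' : (n : ℤ) < K := by exact_mod_cast h
  cases c <;> simp only [src, tgt, dir, DualAux.mem_box, cond_true, cond_false, Prod.mk_add_mk] at he ⊢ <;>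
    omega

theorem det {n K : ℕ} (h : n < K) {ω : Ed → Bool} {y : Fin 3 → Site} (hy : ∀ i, Ext n (y i))
    (hp : op (EI (-(n : ℤ)) n) ω = pat n y) (hs : Sep K y (op (EE K \ EI (-(n : ℤ)) n) ω)) :
    TE n K (op (EE K) ω) := by
  have ht : tch (op (EE K) ω) (box (-(n : ℤ)) (n + 1)) = pat n y := by
    rw [← hp]
    ext e
    unfold tch op
    rw [Finset.mem_filter, Finset.mem_filter, Finset.mem_filter, mem_EI]
    constructor
    · rintro ⟨⟨_, h2⟩, h3⟩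
      exact ⟨h3, h2⟩
    · rintro ⟨h3, h2⟩
      exact ⟨⟨EI_sub h (mem_EI.2 h3), h2⟩, h3⟩
  have ho : off (op (EE K) ω) (box (-(n : ℤ)) (n + 1)) = op (EE K \ EI (-(n : ℤ)) n) ω := by
    ext e
    unfold off op
    rw [Finset.mem_filter, Finset.mem_filter, Finset.mem_filter, Finset.mem_sdiff, mem_EI]
    tauto
  have hcB : ∀ x ∈ box (-(n : ℤ)) (n + 1),
      Conn (tch (op (EE K) ω) (box (-(n : ℤ)) (n + 1))) 0 x := by
    intro x hx
    rw [ht]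
    have h0 : (0 : Site) ∈ box (-(n : ℤ)) (n + 1) := by
      rw [DualAux.mem_box]
      simp only [Prod.fst_zero, Prod.snd_zero]
      omega
    refine Conn.mono ?_ (box_conn h0 hx)
    intro e he
    rw [DualAux.mem_inner] at he
    exact mem_pat.2 ⟨mem_EI.2 (Or.inl he.1), Or.inl he.1, Or.inl he.2⟩
  refine ⟨y, ⟨?_, ?_, ?_, hcB, ?_, ?_⟩, ?_⟩
  · rw [DualAux.mem_box]
    simp only [Prod.fst_zero, Prod.snd_zero]
    omega
  · intro i
    exact (hy i).1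
  · intro e he h1
    have h2 : e ∈ pat n y := by
      rw [← ht]
      unfold tch
      exact Finset.mem_filter.2 ⟨he, h1⟩
    exact (mem_pat.1 h2).2
  · intro i
    obtain ⟨x, hx, e, he, h1⟩ := (hy i).2
    refine Conn.trans (hcB x hx) (Relation.ReflTransGen.single ⟨e, ?_, h1⟩)
    rw [ht]
    refine mem_pat.2 ⟨he, ?_⟩
    rcases h1 with ⟨h2, h3⟩ | ⟨h2, h3⟩
    · exact ⟨Or.inl (h2 ▸ hx), Or.inr ⟨i, h3⟩⟩
    · exact ⟨Or.inr ⟨i, h2⟩, Or.inl (h3 ▸ hx)⟩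
  · intro i j hij
    rw [ho]
    exact hs.2 i j hij
  · intro i
    rw [ho]
    exact hs.1 i

theorem ext_box {n : ℕ} {z : Site} (h : Ext n z) : z ∈ box (-(n : ℤ) - 1) (n + 2) := by
  obtain ⟨_, x, hx, e, _, h1⟩ := h
  obtain ⟨⟨a, b⟩, c⟩ := e
  obtain ⟨x1, x2⟩ := x
  obtain ⟨z1, z2⟩ := z
  rw [DualAux.mem_box] at hx ⊢
  cases c <;> simp only [src, tgt, dir, cond_true, cond_false, Prod.mk_add_mk, Prod.mk.injEq] at h1 hx ⊢ <;>
    omega

end Z6F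

open Z6F in
theorem te_prob {μ : Measure (Ed → Bool)} (hμ : Good μ) {n : ℕ}
    (h : ∀ K : ℕ, n < K → 1 / 2 ≤ μ.real {ω | ∃ y : Fin 3 → Site, (∀ i, Ext n (y i)) ∧
      Sep K y (op (EE K \ EI (-(n : ℤ)) n) ω)}) :
    ∃ δ : ℝ, 0 < δ ∧ ∀ K : ℕ, n < K → δ ≤ μ.real {ω | TE n K (op (EE K) ω)} := by
  classical
  have := hμ.prob
  obtain ⟨c, hc, hfe⟩ := hμ.fe (EI (-(n : ℤ)) n)
  set Y : Finset (Fin 3 → Site) :=
    (Fintype.piFinset fun _ : Fin 3 => box (-(n : ℤ) - 1) (n + 2)).filter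
      fun y => ∀ i, Ext n (y i) with hY
  have hYpos : (0 : ℝ) < 2 * ((Y.card : ℝ) + 1) := by positivity
  refine ⟨c / (2 * ((Y.card : ℝ) + 1)), div_pos hc hYpos, ?_⟩
  intro K hK
  have h1 : μ.real {ω | ∃ y : Fin 3 → Site, (∀ i, Ext n (y i)) ∧
      Sep K y (op (EE K \ EI (-(n : ℤ)) n) ω)} ≤
      ∑ y ∈ Y, μ.real {ω | Sep K y (op (EE K \ EI (-(n : ℤ)) n) ω)} := by
    refine le_trans (measureReal_mono ?_ (measure_ne_top _ _)) (measureReal_biUnion_finset_le Y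
      (fun y => {ω : Ed → Bool | Sep K y (op (EE K \ EI (-(n : ℤ)) n) ω)}))
    rintro ω ⟨y, hy, hs⟩
    simp only [Set.mem_iUnion, Set.mem_setOf_eq, exists_prop]
    refine ⟨y, ?_, hs⟩
    rw [hY, Finset.mem_filter, Fintype.mem_piFinset]
    exact ⟨fun i => ext_box (hy i), hy⟩
  have h2 : ∀ y ∈ Y, μ.real {ω | Sep K y (op (EE K \ EI (-(n : ℤ)) n) ω)} ≤
      μ.real {ω | TE n K (op (EE K) ω)} / c := by
    intro y hy
    rw [le_div_iff₀ hc, mul_comm]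
    have hy' : ∀ i, Ext n (y i) := (Finset.mem_filter.1 hy).2
    refine le_trans (hfe (pat n y) pat_sub (EE K \ EI (-(n : ℤ)) n) (fun ξ => Sep K y ξ)
      Finset.sdiff_disjoint) (measureReal_mono ?_ (measure_ne_top _ _))
    rintro ω ⟨h3, h4⟩
    exact det hK hy' h3 h4
  have h3 := (h K hK).trans (h1.trans (Finset.sum_le_sum h2))
  rw [Finset.sum_const, nsmul_eq_mul] at h3
  have h4 : (0 : ℝ) ≤ μ.real {ω | TE n K (op (EE K) ω)} := measureReal_nonneg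
  rw [div_le_iff₀ hYpos]
  have h5 : c / 2 ≤ (Y.card : ℝ) * μ.real {ω | TE n K (op (EE K) ω)} := by
    have : c * (1 / 2) ≤ c * ((Y.card : ℝ) * (μ.real {ω | TE n K (op (EE K) ω)} / c)) :=
      mul_le_mul_of_nonneg_left h3 hc.le
    have h6 : c * ((Y.card : ℝ) * (μ.real {ω | TE n K (op (EE K) ω)} / c)) =
        (Y.card : ℝ) * μ.real {ω | TE n K (op (EE K) ω)} := by
      field_simp
    linarith
  nlinarith [h4, h5]

end P0q
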