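import Pool.Agent.Lib.P0q.Z8Dens
import Pool.Agent.Lib.P0q.Z6Fin
import Pool.Agent.Lib.P0q.Z4Zero

/-!
# ZFinal: no percolation for `Good` measures

Let `θ K = μ.real {ω | Cross 0 K (op (EE K) ω)}`. (1) For every `δ > 0` there is `K ≥ 1` with `θ K < δ`: otherwise `zero_one`, `six_prob`, `te_prob`, `te_contra` give a contradiction.
(2) `Cross R K (op (EE K) ω)` with `K ≥ R + k`, `k ≥ 1`: some `x ∈ box (-R) (R+1)` is connected to `w ∈ bdry (-K) K`. With `φ = Aut.tr x`: `0` is connected to `w - x ∉ box (-k+1) k` by edges of the translated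
configuration, so (`Tc_first`) `Cross 0 k (op (EE k) (ω ∘ φ.g))`. [`op (EE k) (ω ∘ φ.g)` mapped by `φ.g` is `op ((EE k).map φ.g) ω`, `op_aut`; `Conn_aut`.] So
`μ.real {Cross R K} ≤ ∑_{x ∈ box (-R) (R+1)} μ.real {Cross 0 k (op (EE k) (ω ∘ (Aut.tr x).g))} = (2R+1)² θ k` (`real_inv`). Choose `k ≥ 1` with `(2R+1)² θ k < ε` and `K = R + k`.
-/

set_option autoImplicit false

open Finset P0de MeasureTheory Filter Topology

namespace P0q

namespace ZFinalAux

theorem small {μ : Measure (Ed → Bool)} (hμ : Good μ) {δ : ℝ} (hδ : 0 < δ) :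
    ∃ K : ℕ, 0 < K ∧ μ.real {ω | Cross 0 K (op (EE K) ω)} < δ := by
  by_contra hcon
  have h : ∀ K : ℕ, 0 < K → δ ≤ μ.real {ω | Cross 0 K (op (EE K) ω)} := by
    intro K hK
    by_contra h'
    exact hcon ⟨K, hK, lt_of_not_ge h'⟩
  obtain ⟨n, hn⟩ := six_prob hμ (fun ε hε => zero_one hμ hδ h hε)
  obtain ⟨δ', hδ', h'⟩ := te_prob hμ hn
  exact te_contra hμ hδ' h'

theorem shift {R k : ℕ} (_hk : 0 < k) {ω : Ed → Bool} {x : Site}
    (hx : x ∈ box (-(R : ℤ)) (R + 1))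
    (h : Tc (-((R + k : ℕ) : ℤ)) (R + k : ℕ) (op (EE (R + k)) ω ∩ EE (R + k)) x) :
    Cross 0 k (op (EE k) (fun e => ω ((Aut.tr x).g e))) := by
  obtain ⟨w, hw, hc⟩ := h
  have hsub : op (EE (R + k)) ω ∩ EE (R + k) ⊆ op (EE (R + k)) ω := inter_subset_left
  have hc1 : Conn (op (EE (R + k)) ω) x w := Conn.mono hsub hc
  -- the edges of the translated box
  set E1 : Finset Ed := (EE (R + k)).map (Aut.tr x).g.symm.toEmbedding with hE1
  have hmap : E1.map (Aut.tr x).g.toEmbedding = EE (R + k) := by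
    rw [hE1, Finset.map_map]
    ext e
    simp
  have hop : (op E1 (fun e => ω ((Aut.tr x).g e))).map (Aut.tr x).g.toEmbedding =
      op (EE (R + k)) ω := by
    rw [op_aut, hmap]
  have hs0 : (Aut.tr x).s (0 : Site) = x := by
    simp [Aut.tr]
  have hsw : (Aut.tr x).s (w - x) = w := by
    simp [Aut.tr]
  have hc2 : Conn (op E1 (fun e => ω ((Aut.tr x).g e))) 0 (w - x) := by
    rw [← Conn_aut (Aut.tr x), hop, hs0, hsw]
    exact hc1
  have h0 : (0 : Site) ∈ box (-(k : ℤ)) ((k : ℤ) + 1) := by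
    rw [DualAux.mem_box]
    simp only [Prod.fst_zero, Prod.snd_zero]
    omega
  have hw0 : w - x ∉ box (-(k : ℤ) + 1) (k : ℤ) := by
    rw [mem_bdry] at hw
    obtain ⟨_, hw2⟩ := hw
    rw [DualAux.mem_box] at hw2 hx ⊢
    simp only [Prod.fst_sub, Prod.snd_sub]
    push_cast at hw2
    omega
  obtain ⟨v, hv, hcv⟩ := Tc_first h0 hw0 hc2
  refine ⟨0, ?_, v, hv, ?_⟩
  · rw [DualAux.mem_box]
    simp
  · refine Conn.mono ?_ hcv
    intro e he
    rw [mem_inter] at he ⊢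
    refine ⟨?_, he.2⟩
    have := he.1
    unfold op at this ⊢
    rw [mem_filter] at this ⊢
    exact ⟨he.2, this.2⟩

end ZFinalAux

open ZFinalAux in
theorem no_perc {μ : Measure (Ed → Bool)} (hμ : Good μ) (R : ℕ) {ε : ℝ} (hε : 0 < ε) :
    ∃ K : ℕ, R < K ∧ μ.real {ω | Cross R K (op (EE K) ω)} < ε := by
  have hprob := hμ.prob
  set B : Finset Site := box (-(R : ℤ)) (R + 1) with hB
  obtain ⟨k, hk, hsm⟩ := small hμ (δ := ε / ((B.card : ℝ) + 1)) (by positivity)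
  refine ⟨R + k, by omega, ?_⟩
  have hincl : {ω : Ed → Bool | Cross R (R + k) (op (EE (R + k)) ω)} ⊆
      ⋃ x ∈ B, {ω | (fun e => ω ((Aut.tr x).g e)) ∈ {ω' : Ed → Bool | Cross 0 k (op (EE k) ω')}} := by
    intro ω hω
    obtain ⟨x, hx, hT⟩ := hω
    rw [Set.mem_iUnion₂]
    exact ⟨x, hx, shift hk hx hT⟩
  calc μ.real {ω | Cross R (R + k) (op (EE (R + k)) ω)}
      ≤ μ.real (⋃ x ∈ B, {ω | (fun e => ω ((Aut.tr x).g e)) ∈
          {ω' : Ed → Bool | Cross 0 k (op (EE k) ω')}}) :=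
        measureReal_mono hincl (measure_ne_top _ _)
    _ ≤ ∑ x ∈ B, μ.real {ω | (fun e => ω ((Aut.tr x).g e)) ∈
          {ω' : Ed → Bool | Cross 0 k (op (EE k) ω')}} := measureReal_biUnion_finset_le _ _
    _ = ∑ x ∈ B, μ.real {ω | Cross 0 k (op (EE k) ω)} := by
        refine Finset.sum_congr rfl fun x _ => ?_
        exact real_inv hμ.psy (Aut.tr x) (measurable_op (EE k) (Cross 0 k))
    _ = (B.card : ℝ) * μ.real {ω | Cross 0 k (op (EE k) ω)} := by
        rw [Finset.sum_const, nsmul_eq_mul]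
    _ < ε := by
        have h1 : (0 : ℝ) ≤ B.card := Nat.cast_nonneg _
        have h2 : μ.real {ω | Cross 0 k (op (EE k) ω)} * ((B.card : ℝ) + 1) < ε := by
          rwa [lt_div_iff₀ (by positivity)] at hsm
        have h3 : 0 ≤ μ.real {ω | Cross 0 k (op (EE k) ω)} := measureReal_nonneg
        nlinarith

end P0q
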