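import Pool.Agent.Lib.P0q.I3Good
import Pool.Agent.Lib.P0q.I4Inv
import Pool.Agent.Lib.P0q.I5Dom
import Pool.Agent.Lib.P0q.ZFinal
import Pool.Agent.Lib.P0q.F8Final

/-!
# W1Core: the free measure satisfies the hypotheses of the final part
-/

set_option autoImplicit false

open Finset P0de MeasureTheory Filter Topology

namespace P0q

theorem good_of_lim {q : ℝ} (hq : 1 ≤ q) {μ : Measure (Ed → Bool)} (hμ : IsProbabilityMeasure μ)
    (h : LocLim (fun _ => fw q) μ) : Good μ where
  prob := hμ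
  fkg := lim_fkg hq h
  inv := lim_inv hq hμ h
  mix := lim_mix hq h
  fe := lim_fe hq h
  dom := lim_dom hq h

theorem EE_mono {K K' : ℕ} (h : K ≤ K') : EE K ⊆ EE K' := by
  intro e he
  rw [DualAux.mem_inner, P0de.mem_box, P0de.mem_box] at he ⊢
  omega

theorem core_of_lim {q : ℝ} (hq : 1 ≤ q) {μ : Measure (Ed → Bool)} (hμ : IsProbabilityMeasure μ)
    (h : LocLim (fun _ => fw q) μ) : Core q μ where
  prob := hμ
  free := h
  free' := fun E A hA => lim_inner hq h E hA
  noinf R ε hε := by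
    obtain ⟨K, hK, h1⟩ := no_perc (good_of_lim hq hμ h) R hε
    refine ⟨K, hK, fun K' hK' => lt_of_le_of_lt ?_ h1⟩
    apply measureReal_mono
    · intro ω hω
      have h2 : Cross R K (op (EE K') ω) := Cross_anti le_rfl hK' hK.le hω
      have h3 : op (EE K') ω ∩ EE K = op (EE K) ω ∩ EE K := by
        ext e
        simp only [op, mem_inter, mem_filter]
        constructor
        · rintro ⟨⟨_, h4⟩, h5⟩
          exact ⟨⟨h5, h4⟩, h5⟩
        · rintro ⟨⟨_, h4⟩, h5⟩
          exact ⟨⟨EE_mono hK' h5, h4⟩, h5⟩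
      unfold Cross at h2 ⊢
      rw [h3] at h2
      exact h2
    · exact measure_ne_top μ _

end P0q
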