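import Pool.Agent.Lib.P0q.Defs2

/-!
# Z0Defs: definitions for block Z (Zhang's argument and the Burton–Keane argument)

`EI a b`: the edges with an end in `[a, b]²`. `hs i a b y`: `y` is a neighbour of `[a, b]²` outside of it, on the half
side `i` of the eight half sides. `Arm i a b A B η`: an open exit edge through the half side `i`, continued by open
edges without end in `[a, b]²` to the boundary of `[A, B]²`. `Tri`: trifurcation boxes. `Psy`: positively associated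
invariant measures.
-/

set_option autoImplicit false

open Finset P0de MeasureTheory Filter Topology

namespace P0q

/-- the edges with an end in the box `[a, b]²` -/
noncomputable def EI (a b : ℤ) : Finset Ed := inner a (b + 1) ∪ stubs a (b + 1)

theorem mem_EI {a b : ℤ} {e : Ed} :
    e ∈ EI a b ↔ src e ∈ box a (b + 1) ∨ tgt e ∈ box a (b + 1) := by
  rw [EI, mem_union, DualAux.mem_inner, DualAux.mem_stubs]
  tauto

theorem mem_bdry {a b : ℤ} {x : Site} :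
    x ∈ bdry a b ↔ x ∈ box a (b + 1) ∧ x ∉ box (a + 1) b := by
  unfold bdry
  exact Finset.mem_sdiff

/-- the outer end of an exit edge of `[a, b]²` on the half side `i` -/
def hs (i : Fin 8) (a b : ℤ) (y : Site) : Prop :=
  match i with
  | 0 => y.1 = b + 1 ∧ (a ≤ y.2 ∧ y.2 ≤ b) ∧ 2 * y.2 ≤ a + b
  | 1 => y.1 = b + 1 ∧ (a ≤ y.2 ∧ y.2 ≤ b) ∧ a + b ≤ 2 * y.2
  | 2 => y.2 = b + 1 ∧ (a ≤ y.1 ∧ y.1 ≤ b) ∧ a + b ≤ 2 * y.1
  | 3 => y.2 = b + 1 ∧ (a ≤ y.1 ∧ y.1 ≤ b) ∧ 2 * y.1 ≤ a + b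
  | 4 => y.1 = a - 1 ∧ (a ≤ y.2 ∧ y.2 ≤ b) ∧ a + b ≤ 2 * y.2
  | 5 => y.1 = a - 1 ∧ (a ≤ y.2 ∧ y.2 ≤ b) ∧ 2 * y.2 ≤ a + b
  | 6 => y.2 = a - 1 ∧ (a ≤ y.1 ∧ y.1 ≤ b) ∧ 2 * y.1 ≤ a + b
  | 7 => y.2 = a - 1 ∧ (a ≤ y.1 ∧ y.1 ≤ b) ∧ a + b ≤ 2 * y.1

/-- an arm leaving `[a, b]²` through the half side `i` and reaching the boundary of `[A, B]²` -/
def Arm (i : Fin 8) (a b A B : ℤ) (η : Finset Ed) : Prop :=
  ∃ x y, hs i a b y ∧ x ∈ box a (b + 1) ∧ Adj η x y ∧ Tc A B (η \ EI a b) y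

/-- some site of `[a, b]²` is connected to the boundary of `[A, B]²` -/
def Crs (a b A B : ℤ) (η : Finset Ed) : Prop := ∃ x ∈ box a (b + 1), Tc A B η x

/-- the edges of `η` with an end in `B` -/
def tch (η : Finset Ed) (B : Finset Site) : Finset Ed := η.filter fun e => src e ∈ B ∨ tgt e ∈ B

/-- the edges of `η` without end in `B` -/
def off (η : Finset Ed) (B : Finset Site) : Finset Ed := η.filter fun e => src e ∉ B ∧ tgt e ∉ B

/-- `B` is a trifurcation box of `η` with centre `c` and exits `y 0, y 1, y 2` -/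
structure Tri (η : Finset Ed) (B : Finset Site) (c : Site) (y : Fin 3 → Site) : Prop where
  c_mem : c ∈ B
  y_not : ∀ i, y i ∉ B
  ends : ∀ e ∈ η, src e ∈ B ∨ tgt e ∈ B →
    (src e ∈ B ∨ ∃ i, src e = y i) ∧ (tgt e ∈ B ∨ ∃ i, tgt e = y i)
  conn_B : ∀ x ∈ B, Conn (tch η B) c x
  conn_y : ∀ i, Conn (tch η B) c (y i)
  disc : ∀ i j, i ≠ j → ¬ Conn (off η B) (y i) (y j)

/-- `[-n, n]²` is a trifurcation box whose three branches reach the boundary of `[-K, K]²` -/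
def TE (n K : ℕ) (η : Finset Ed) : Prop :=
  ∃ y : Fin 3 → Site, Tri η (box (-(n : ℤ)) (n + 1)) 0 y ∧
    ∀ i, Tc (-(K : ℤ)) K (off η (box (-(n : ℤ)) (n + 1))) (y i)

/-- Positively associated measures, invariant under the automorphisms of the lattice. -/
structure Psy (ν : Measure (Ed → Bool)) : Prop where
  prob : IsProbabilityMeasure ν
  fkg : ∀ (E : Finset Ed) (A B : Finset Ed → Prop), Up A → Up B →
    ν.real {ω | A (op E ω)} * ν.real {ω | B (op E ω)} ≤ ν.real {ω | A (op E ω) ∧ B (op E ω)}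
  inv : ∀ φ : Aut, ν.map (fun ω e => ω (φ.g e)) = ν

theorem Good.psy {μ : Measure (Ed → Bool)} (hμ : Good μ) : Psy μ := ⟨hμ.prob, hμ.fkg, hμ.inv⟩

/-- the automorphism `φ` preserves the box `[a, b]²` -/
def Fixes (φ : Aut) (a b : ℤ) : Prop := ∀ x, φ.s x ∈ box a b ↔ x ∈ box a b

end P0q
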