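import Pool.Agent.Lib.P0q.Z0Defs
import Pool.Agent.Lib.P0q.F1Shrink

/-!
# Z1Hit: first hitting and last exit of boxes

`Tc_first`: go along the path from `y` to `w`. Claim, for all `v` with `Conn ξ y v` (induction on `Relation.ReflTransGen`): either
`Tc A B (ξ ∩ inner A (B+1)) y`, or `v ∈ box (A+1) B` and `Conn (ξ ∩ inner A (B+1)) y v`. Start: `y ∈ box A (B+1)` is in `box (A+1) B` or in
`bdry A B` (`mem_bdry`). Step by an edge `e ∈ ξ` from `v ∈ box (A+1) B` to `v'`: `v' ∈ box A (B+1)` (lattice: `rcases` on the edge, `simp` with `src, tgt, dir,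
DualAux.mem_box`, `omega`), so `e ∈ inner A (B+1)`; `v' ∈ box (A+1) B` or `v' ∈ bdry A B`.

`last_exit`: go along the path from `w` to `x` (`Conn.symm`). Claim for all `v` with `Conn ξ w v`: the conclusion, or `v ∉ box a (b+1)` and
`Conn (ξ \ EI a b) w v`. Step from `v ∉ box` to `v'`: if `v' ∈ box` take `x' = v'`, `y' = v`; otherwise the edge has no end in the box (`mem_EI`).
`last_exit'`: the edge from `x'` to `y'` is not in `inner a (b+1)` as `y'` is outside, and `ξ \ EI a b ⊆ ξ \ inner a (b+1)`.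

`Crs_anti`: `Tc_first` with `y = x ∈ box a (b+1) ⊆ box A' (B'+1)`, `w ∈ bdry A B`, so `w ∉ box (A'+1) B'`. `Cross R K η` is `Crs (-R) R (-K) K (η ∩ EE K)` (`Iff.rfl`).
`exists_arm`: `w ∈ bdry A B` is not in `box a (b+1) ⊆ box (A+1) B`; `last_exit`; the neighbour `y'` of `x' ∈ box a (b+1)` outside of the box satisfies one of the
eight `hs i a b y'` (four sides; `2 * t ≤ a + b` or `a + b ≤ 2 * t`).
-/

set_option autoImplicit false

open Finset P0de MeasureTheory Filter Topology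

namespace P0q

namespace Z1HitAux

theorem adj_coord {ξ : Finset Ed} {x y : Site} (h : Adj ξ x y) :
    (y.1 = x.1 + 1 ∧ y.2 = x.2) ∨ (y.1 = x.1 - 1 ∧ y.2 = x.2) ∨
    (y.1 = x.1 ∧ y.2 = x.2 + 1) ∨ (y.1 = x.1 ∧ y.2 = x.2 - 1) := by
  obtain ⟨⟨⟨i, j⟩, c⟩, _, ⟨rfl, rfl⟩ | ⟨rfl, rfl⟩⟩ := h
  · cases c
    · left
      simp [src, tgt, dir]
    · right; right; left
      simp [src, tgt, dir]
  · cases c
    · right; left
      simp [src, tgt, dir]
    · right; right; right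
      simp [src, tgt, dir]

theorem box_sub {a b a' b' : ℤ} (h1 : a' ≤ a) (h2 : b ≤ b') : box a b ⊆ box a' b' := by
  intro x hx
  rw [DualAux.mem_box] at hx ⊢
  omega

end Z1HitAux

open Z1HitAux

theorem Tc_first {A B : ℤ} {ξ : Finset Ed} {y w : Site} (hy : y ∈ box A (B + 1))
    (hw : w ∉ box (A + 1) B) (h : Conn ξ y w) : Tc A B (ξ ∩ inner A (B + 1)) y := by
  have key : ∀ v, Relation.ReflTransGen (Adj ξ) y v → Tc A B (ξ ∩ inner A (B + 1)) y ∨
      (v ∈ box (A + 1) B ∧ Conn (ξ ∩ inner A (B + 1)) y v) := by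
    intro v hv
    induction hv with
    | refl =>
      by_cases h1 : y ∈ box (A + 1) B
      · exact Or.inr ⟨h1, Relation.ReflTransGen.refl⟩
      · exact Or.inl ⟨y, mem_bdry.2 ⟨hy, h1⟩, Relation.ReflTransGen.refl⟩
    | @tail v v' _ h2 ih =>
      rcases ih with ih | ⟨h3, h4⟩
      · exact Or.inl ih
      · have hc := adj_coord h2
        have h5 : v' ∈ box A (B + 1) := by
          rw [DualAux.mem_box] at h3 ⊢
          omega
        have h6 : v ∈ box A (B + 1) := by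
          rw [DualAux.mem_box] at h3 ⊢
          omega
        obtain ⟨e, he, h7⟩ := h2
        have h8 : e ∈ inner A (B + 1) := by
          rw [DualAux.mem_inner]
          rcases h7 with ⟨h7, h8⟩ | ⟨h7, h8⟩
          · rw [h7, h8]
            exact ⟨h6, h5⟩
          · rw [h7, h8]
            exact ⟨h5, h6⟩
        have h9 : Conn (ξ ∩ inner A (B + 1)) y v' :=
          Relation.ReflTransGen.tail h4 ⟨e, mem_inter.2 ⟨he, h8⟩, h7⟩
        by_cases h10 : v' ∈ box (A + 1) B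
        · exact Or.inr ⟨h10, h9⟩
        · exact Or.inl ⟨v', mem_bdry.2 ⟨h5, h10⟩, h9⟩
  rcases key w h with h1 | ⟨h1, _⟩
  · exact h1
  · exact absurd h1 hw

theorem last_exit {a b : ℤ} {ξ : Finset Ed} {x w : Site} (hx : x ∈ box a (b + 1))
    (hw : w ∉ box a (b + 1)) (h : Conn ξ x w) :
    ∃ x' y', x' ∈ box a (b + 1) ∧ y' ∉ box a (b + 1) ∧ Adj ξ x' y' ∧
      Conn (ξ \ EI a b) y' w := by
  have key : ∀ v, Relation.ReflTransGen (Adj ξ) w v →
      (∃ x' y', x' ∈ box a (b + 1) ∧ y' ∉ box a (b + 1) ∧ Adj ξ x' y' ∧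
        Conn (ξ \ EI a b) y' w) ∨ (v ∉ box a (b + 1) ∧ Conn (ξ \ EI a b) w v) := by
    intro v hv
    induction hv with
    | refl => exact Or.inr ⟨hw, Relation.ReflTransGen.refl⟩
    | @tail v v' _ h2 ih =>
      rcases ih with ih | ⟨h3, h4⟩
      · exact Or.inl ih
      · by_cases h5 : v' ∈ box a (b + 1)
        · exact Or.inl ⟨v', v, h5, h3, Adj.symm h2, Conn.symm h4⟩
        · refine Or.inr ⟨h5, ?_⟩
          obtain ⟨e, he, h7⟩ := h2
          refine Relation.ReflTransGen.tail h4 ⟨e, mem_sdiff.2 ⟨he, fun h8 => ?_⟩, h7⟩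
          rw [mem_EI] at h8
          rcases h7 with ⟨h7, h9⟩ | ⟨h7, h9⟩
          · rw [h7, h9] at h8
            exact h8.elim h3 h5
          · rw [h7, h9] at h8
            exact h8.elim h5 h3
  rcases key x (Conn.symm h) with h1 | ⟨h1, _⟩
  · exact h1
  · exact absurd hx h1

theorem last_exit' {a b : ℤ} {ξ : Finset Ed} {x w : Site} (hx : x ∈ box a (b + 1))
    (hw : w ∉ box a (b + 1)) (h : Conn ξ x w) :
    ∃ x' ∈ box a (b + 1), Conn (ξ \ inner a (b + 1)) x' w := by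
  obtain ⟨x', y', h1, h2, ⟨e, he, h3⟩, h4⟩ := last_exit hx hw h
  refine ⟨x', h1, ?_⟩
  have h5 : Conn (ξ \ inner a (b + 1)) y' w :=
    Conn.mono (sdiff_subset_sdiff (Subset.refl _) subset_union_left) h4
  refine Relation.ReflTransGen.head ⟨e, mem_sdiff.2 ⟨he, fun h8 => ?_⟩, h3⟩ h5
  rw [DualAux.mem_inner] at h8
  rcases h3 with ⟨h7, h9⟩ | ⟨h7, h9⟩
  · rw [h7, h9] at h8
    exact h2 h8.2
  · rw [h7, h9] at h8
    exact h2 h8.1

theorem Crs_anti {a b a' b' A B A' B' : ℤ} (h1 : box a (b + 1) ⊆ box a' (b' + 1))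
    (h2 : box a (b + 1) ⊆ box A' (B' + 1)) (h3 : box (A' + 1) B' ⊆ box (A + 1) B)
    {η : Finset Ed} (h : Crs a b A B η) : Crs a' b' A' B' (η ∩ inner A' (B' + 1)) := by
  obtain ⟨x, hx, w, hw, hc⟩ := h
  exact ⟨x, h1 hx, Tc_first (h2 hx) (fun h4 => (mem_bdry.1 hw).2 (h3 h4)) hc⟩

theorem Crs_up (a b A B : ℤ) : Up (Crs a b A B) := by
  rintro η η' h ⟨x, hx, w, hw, hc⟩
  exact ⟨x, hx, w, hw, Conn.mono h hc⟩

theorem Cross_anti {R R' K K' : ℕ} (h1 : R ≤ R') (h2 : K' ≤ K) (h3 : R ≤ K') {η : Finset Ed}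
    (h : Cross R K η) : Cross R' K' η := by
  have h4 : Crs (-(R : ℤ)) R (-(K : ℤ)) K (η ∩ EE K) := h
  have h5 : Crs (-(R' : ℤ)) R' (-(K' : ℤ)) K'
      ((η ∩ EE K) ∩ inner (-(K' : ℤ)) ((K' : ℤ) + 1)) :=
    Crs_anti (box_sub (by omega) (by omega)) (box_sub (by omega) (by omega))
      (box_sub (by omega) (by omega)) h4
  exact Crs_up _ _ _ _ _ _ (inter_subset_inter_right inter_subset_left) h5

theorem exists_arm {a b A B : ℤ} (hA : A < a) (hB : b < B) {η : Finset Ed}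
    (h : Crs a b A B η) : ∃ i, Arm i a b A B η := by
  obtain ⟨x, hx, w, hw, hc⟩ := h
  have hw' : w ∉ box a (b + 1) := fun h1 =>
    (mem_bdry.1 hw).2 (box_sub (by omega) (by omega) h1)
  obtain ⟨x', y', h1, h2, h3, h4⟩ := last_exit hx hw' hc
  have h5 : Tc A B (η \ EI a b) y' := ⟨w, hw, h4⟩
  have hcd := adj_coord h3
  have h1' := h1
  have h2' := h2
  rw [DualAux.mem_box] at h1' h2'
  rcases hcd with hcd | hcd | hcd | hcd
  · by_cases h6 : 2 * y'.2 ≤ a + b
    · refine ⟨0, x', y', ?_, h1, h3, h5⟩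
      simp only [hs]
      omega
    · refine ⟨1, x', y', ?_, h1, h3, h5⟩
      simp only [hs]
      omega
  · by_cases h6 : a + b ≤ 2 * y'.2
    · refine ⟨4, x', y', ?_, h1, h3, h5⟩
      simp only [hs]
      omega
    · refine ⟨5, x', y', ?_, h1, h3, h5⟩
      simp only [hs]
      omega
  · by_cases h6 : a + b ≤ 2 * y'.1
    · refine ⟨2, x', y', ?_, h1, h3, h5⟩
      simp only [hs]
      omega
    · refine ⟨3, x', y', ?_, h1, h3, h5⟩
      simp only [hs]
      omega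
  · by_cases h6 : 2 * y'.1 ≤ a + b
    · refine ⟨6, x', y', ?_, h1, h3, h5⟩
      simp only [hs]
      omega
    · refine ⟨7, x', y', ?_, h1, h3, h5⟩
      simp only [hs]
      omega

theorem Arm_up (i : Fin 8) (a b A B : ℤ) : Up (Arm i a b A B) := by
  rintro η η' h ⟨x, y, h1, h2, ⟨e, he, h3⟩, w, hw, hc⟩
  exact ⟨x, y, h1, h2, ⟨e, h he, h3⟩, w, hw,
    Conn.mono (sdiff_subset_sdiff h (Subset.refl _)) hc⟩

end P0q
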