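import Pool.Agent.Lib.P0q.Z1Hit

/-!
# Z2Aut: the eight half sides have the same probability

`real_inv`: `measureReal` of a preimage; `ω ↦ (e ↦ ω (φ.g e))` is measurable (`measurable_pi_iff`), `hν.inv φ`, `Measure.map_apply` (or
`MeasureTheory.map_measureReal_apply`). `op_aut`: elementwise (`mem_map`, `op`, `φ.g` bijective). `inner_aut`: `φ.hs` says that the two ends of `φ.g e` are the images of the two
ends of `e`, so `φ.g e ∈ inner a b ↔ e ∈ inner a b`; `φ.g` is surjective. In the same way `φ.g e ∈ EI a b ↔ e ∈ EI a b` (`mem_EI`, `Fixes φ a (b+1)`), so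
`(η \ EI a b).map φ.g = (η.map φ.g) \ EI a b`. `Tc_aut`: `Conn_aut`, `mem_bdry`, `φ.s` surjective. `Arm_aut`: `x, y ↦ φ.s x, φ.s y`
(`R5AutAux.Adj_aut`), and back with `φ.s.symm`.

`arm_eq`: put `s = a + b = A + B`. Two automorphisms: `Aut.sw` (exchange of the coordinates) and `ρ = (Aut.tr (s, 0)).comp Aut.ng`, with
`ρ.s (x₁, x₂) = (s - x₁, x₂)` (`comp φ ψ` has `s := ψ.s.trans φ.s`, i.e. first `ψ`). Both preserve `box a (b+1)`, `box A (B+1)`, `box (A+1) B`. Half sides: `sw` exchanges `0 ↔ 3`,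
`1 ↔ 2`, `4 ↔ 7`, `5 ↔ 6`; `ρ` exchanges `0 ↔ 5`, `1 ↔ 4`, `2 ↔ 3`, `6 ↔ 7`. For such a `φ` and `E = inner A (B+1)`: `ν.real {Arm i (op E ω)} =
ν.real {ω | Arm i (op E (ω ∘ φ.g))}` (`real_inv`, `measurable_op`) and `Arm i (op E (ω ∘ φ.g)) ↔ Arm j ((op E (ω ∘ φ.g)).map φ.g) = Arm j (op (E.map φ.g) ω) = Arm j (op E ω)`. The
chain `0 -sw- 3 -ρ- 2 -sw- 1 -ρ- 4 -sw- 7 -ρ- 6 -sw- 5` connects all the half sides.
-/

set_option autoImplicit false

open Finset P0de MeasureTheory Filter Topology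

namespace P0q

theorem real_inv {ν : Measure (Ed → Bool)} (hν : Psy ν) (φ : Aut) {S : Set (Ed → Bool)}
    (hS : MeasurableSet S) : ν.real {ω | (fun e => ω (φ.g e)) ∈ S} = ν.real S := by
  have hm : Measurable (fun (ω : Ed → Bool) (e : Ed) => ω (φ.g e)) :=
    measurable_pi_iff.2 (fun e => measurable_pi_apply (φ.g e))
  have h1 : ν S = ν {ω | (fun e => ω (φ.g e)) ∈ S} := by
    conv_lhs => rw [← hν.inv φ]
    rw [Measure.map_apply hm hS]
    rfl
  rw [Measure.real, Measure.real, h1]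

theorem op_aut (φ : Aut) (E : Finset Ed) (ω : Ed → Bool) :
    (op E (fun e => ω (φ.g e))).map φ.g.toEmbedding = op (E.map φ.g.toEmbedding) ω := by
  ext e'
  simp only [op, Finset.mem_map, mem_filter, Equiv.coe_toEmbedding]
  constructor
  · rintro ⟨e, ⟨he, h⟩, rfl⟩
    exact ⟨⟨e, he, rfl⟩, h⟩
  · rintro ⟨⟨e, he, rfl⟩, h⟩
    exact ⟨e, ⟨he, h⟩, rfl⟩

theorem inner_aut (φ : Aut) {a b : ℤ} (h : Fixes φ a b) :
    (inner a b).map φ.g.toEmbedding = inner a b := by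
  have key : ∀ e, φ.g e ∈ inner a b ↔ e ∈ inner a b := by
    intro e
    rw [DualAux.mem_inner, DualAux.mem_inner]
    rcases φ.hs e with ⟨h1, h2⟩ | ⟨h1, h2⟩
    · rw [h1, h2, h, h]
    · rw [h1, h2, h, h]
      exact and_comm
  ext e'
  simp only [Finset.mem_map, Equiv.coe_toEmbedding]
  constructor
  · rintro ⟨e, he, rfl⟩
    exact (key e).2 he
  · intro he
    refine ⟨φ.g.symm e', ?_, φ.g.apply_symm_apply e'⟩
    rw [← key, φ.g.apply_symm_apply]
    exact he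

theorem Tc_aut (φ : Aut) {A B : ℤ} (h1 : Fixes φ A (B + 1)) (h2 : Fixes φ (A + 1) B)
    {η : Finset Ed} {x : Site} : Tc A B (η.map φ.g.toEmbedding) (φ.s x) ↔ Tc A B η x := by
  have key : ∀ y, φ.s y ∈ bdry A B ↔ y ∈ bdry A B := by
    intro y
    rw [mem_bdry, mem_bdry, h1, h2]
  constructor
  · rintro ⟨y, hy, h⟩
    obtain ⟨z, rfl⟩ := φ.s.surjective y
    exact ⟨z, (key z).1 hy, (Conn_aut φ).1 h⟩
  · rintro ⟨y, hy, h⟩
    exact ⟨φ.s y, (key y).2 hy, (Conn_aut φ).2 h⟩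

theorem Arm_aut (φ : Aut) {a b A B : ℤ} (h0 : Fixes φ a (b + 1)) (h1 : Fixes φ A (B + 1))
    (h2 : Fixes φ (A + 1) B) {i j : Fin 8} (h : ∀ y, hs i a b y ↔ hs j a b (φ.s y))
    {η : Finset Ed} : Arm i a b A B η ↔ Arm j a b A B (η.map φ.g.toEmbedding) := by
  have hE : ∀ e, φ.g e ∈ EI a b ↔ e ∈ EI a b := by
    intro e
    rw [mem_EI, mem_EI]
    rcases φ.hs e with ⟨h1, h2⟩ | ⟨h1, h2⟩
    · rw [h1, h2, h0, h0]
    · rw [h1, h2, h0, h0]
      exact or_comm
  have hm : (η \ EI a b).map φ.g.toEmbedding = (η.map φ.g.toEmbedding) \ EI a b := by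
    ext e'
    simp only [Finset.mem_map, Finset.mem_sdiff, Equiv.coe_toEmbedding]
    constructor
    · rintro ⟨e, ⟨he, hn⟩, rfl⟩
      exact ⟨⟨e, he, rfl⟩, fun h => hn ((hE e).1 h)⟩
    · rintro ⟨⟨e, he, rfl⟩, hn⟩
      exact ⟨e, ⟨he, fun h => hn ((hE e).2 h)⟩, rfl⟩
  constructor
  · rintro ⟨x, y, h3, h4, h5, h6⟩
    refine ⟨φ.s x, φ.s y, (h y).1 h3, (h0 x).2 h4, (R5AutAux.Adj_aut φ).2 h5, ?_⟩
    rw [← hm]
    exact (Tc_aut φ h1 h2).2 h6
  · rintro ⟨x', y', h3, h4, h5, h6⟩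
    obtain ⟨x, rfl⟩ := φ.s.surjective x'
    obtain ⟨y, rfl⟩ := φ.s.surjective y'
    refine ⟨x, y, (h y).2 h3, (h0 x).1 h4, (R5AutAux.Adj_aut φ).1 h5, ?_⟩
    rw [← hm] at h6
    exact (Tc_aut φ h1 h2).1 h6

namespace Z2AutAux

theorem arm_step {ν : Measure (Ed → Bool)} (hν : Psy ν) (φ : Aut) {a b A B : ℤ}
    (h0 : Fixes φ a (b + 1)) (h1 : Fixes φ A (B + 1)) (h2 : Fixes φ (A + 1) B) {i j : Fin 8}
    (h : ∀ y, hs i a b y ↔ hs j a b (φ.s y)) :
    ν.real {ω | Arm i a b A B (op (inner A (B + 1)) ω)} =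
      ν.real {ω | Arm j a b A B (op (inner A (B + 1)) ω)} := by
  rw [← real_inv hν φ (measurable_op (inner A (B + 1)) (Arm i a b A B))]
  congr 1
  ext ω
  change Arm i a b A B (op (inner A (B + 1)) (fun e => ω (φ.g e))) ↔
    Arm j a b A B (op (inner A (B + 1)) ω)
  rw [Arm_aut φ h0 h1 h2 h, op_aut, inner_aut φ h1]

/-- the reflection exchanging the vertical sides of a box `[a, b]²` with `a + b = s` -/
def rho (s : ℤ) : Aut := (Aut.tr (s, 0)).comp Aut.ng

theorem rho_s (s : ℤ) (x : Site) : (rho s).s x = (s - x.1, x.2) := by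
  change ((-x.1, x.2) : Site) + (s, 0) = (s - x.1, x.2)
  rw [Prod.mk_add_mk, add_zero]
  congr 1
  ring

theorem sw_s (x : Site) : Aut.sw.s x = (x.2, x.1) := rfl

theorem fix_sw (a b : ℤ) : Fixes Aut.sw a b := by
  intro x
  rw [sw_s, P0de.mem_box, P0de.mem_box]
  constructor <;> intro h <;> simp only at h ⊢ <;> omega

theorem fix_rho {a b s : ℤ} (h : s = a + b - 1) : Fixes (rho s) a b := by
  intro x
  rw [rho_s, P0de.mem_box, P0de.mem_box]
  simp only
  omega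

end Z2AutAux

theorem arm_eq {ν : Measure (Ed → Bool)} (hν : Psy ν) {a b A B : ℤ} (hab : a + b = A + B)
    (i j : Fin 8) : ν.real {ω | Arm i a b A B (op (inner A (B + 1)) ω)} =
      ν.real {ω | Arm j a b A B (op (inner A (B + 1)) ω)} := by
  have hsw : ∀ {i j : Fin 8}, (∀ y, hs i a b y ↔ hs j a b (Aut.sw.s y)) →
      ν.real {ω | Arm i a b A B (op (inner A (B + 1)) ω)} =
      ν.real {ω | Arm j a b A B (op (inner A (B + 1)) ω)} := fun h =>
    Z2AutAux.arm_step hν Aut.sw (Z2AutAux.fix_sw _ _) (Z2AutAux.fix_sw _ _)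
      (Z2AutAux.fix_sw _ _) h
  have hrho : ∀ {i j : Fin 8}, (∀ y, hs i a b y ↔ hs j a b ((Z2AutAux.rho (a + b)).s y)) →
      ν.real {ω | Arm i a b A B (op (inner A (B + 1)) ω)} =
      ν.real {ω | Arm j a b A B (op (inner A (B + 1)) ω)} := fun h =>
    Z2AutAux.arm_step hν (Z2AutAux.rho (a + b)) (Z2AutAux.fix_rho (by ring))
      (Z2AutAux.fix_rho (by rw [hab]; ring)) (Z2AutAux.fix_rho (by rw [hab]; ring)) h
  have e03 := hsw (i := 0) (j := 3) (fun y => by rw [Z2AutAux.sw_s]; simp only [hs])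
  have e21 := hsw (i := 2) (j := 1) (fun y => by rw [Z2AutAux.sw_s]; simp only [hs])
  have e47 := hsw (i := 4) (j := 7) (fun y => by rw [Z2AutAux.sw_s]; simp only [hs])
  have e65 := hsw (i := 6) (j := 5) (fun y => by rw [Z2AutAux.sw_s]; simp only [hs])
  have e32 := hrho (i := 3) (j := 2) (fun y => by
    rw [Z2AutAux.rho_s]; simp only [hs]; omega)
  have e14 := hrho (i := 1) (j := 4) (fun y => by
    rw [Z2AutAux.rho_s]; simp only [hs]; omega)
  have e76 := hrho (i := 7) (j := 6) (fun y => by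
    rw [Z2AutAux.rho_s]; simp only [hs]; omega)
  have key : ∀ k : Fin 8, ν.real {ω | Arm k a b A B (op (inner A (B + 1)) ω)} =
      ν.real {ω | Arm 0 a b A B (op (inner A (B + 1)) ω)} := by
    intro k
    have k3 := e03.symm
    have k2 := e32.symm.trans k3
    have k1 := e21.symm.trans k2
    have k4 := e14.symm.trans k1
    have k7 := e47.symm.trans k4
    have k6 := e76.symm.trans k7
    have k5 := e65.symm.trans k6
    match k with
    | 0 => rfl
    | 1 => exact k1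
    | 2 => exact k2
    | 3 => exact k3
    | 4 => exact k4
    | 5 => exact k5
    | 6 => exact k6
    | 7 => exact k7
  rw [key i, key j]

end P0q
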