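import Pool.Agent.Lib.P0q.Z0Defs

/-!
# Z2Dual: the law of the passive configuration is positively associated and invariant

`measurable_dl`: `measurable_pi_iff`, each coordinate is `!` of a coordinate (functions on `Bool` are measurable: `measurable_of_countable` or `measurable_from_top`).

`fkg`: `(μ.map dl).real {ω | A (op E ω)} = μ.real {ω | A (op E (dl ω))}` (`measurable_op`). With `E' = E.image cr`: for `f ∈ E`,
`f ∈ op E (dl ω) ↔ cr f ∉ op E' ω`. So `A (op E (dl ω)) ↔ ¬ A' (op E' ω)` with `A' ξ := ¬ A (E.filter fun f => cr f ∉ ξ)`, an increasing event; the same for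
`B`. `μ.real (¬A' ∧ ¬B') = 1 - μ.real (A') - μ.real (B') + μ.real (A' ∧ B') ≥ (1 - μ.real A') (1 - μ.real B')` by `hμ.fkg E' A' B'`
(probability measure; `measureReal_compl`/`probReal_compl_eq_one_sub`, `measureReal_union_add_inter`).

`inv`: let `φ : Aut`. `exists_dAut φ` gives `φ'` with `φ'.g f = crE.symm (φ.g (cr f))`, i.e. `cr (φ'.g f) = φ.g (cr f)` for all `f`. Put
`ψ = (Aut.tr (1, 1)).comp (φ'.comp (Aut.tr (-1, -1)))`, so `ψ.g e = φ'.g (e - (1,1)) + (1,1)`. Then `ψ.g (cr f) = cr (φ.g f)`: as `cr (cr f) = f + (1,1)`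
(`DualAux.cr_cr`), it is enough (`DualAux.cr_injective`) ... with `e := cr f - (1,1)` one has `cr e = cr (cr f) - (1,1) = f`, so `cr (φ'.g e) = φ.g f`, and `cr (cr (φ'.g e)) = φ'.g e + (1,1) = ψ.g (cr f)`.
[`cr` commutes with translations.] So `dl ω (φ.g f) = !ω (cr (φ.g f)) = !ω (ψ.g (cr f)) = dl (ω ∘ ψ.g) f`, and
`(μ.map dl).map (· ∘ φ.g) = μ.map (dl ∘ (· ∘ ψ.g)) = (μ.map (· ∘ ψ.g)).map dl = μ.map dl` (`Measure.map_map`, `hμ.inv ψ`).
-/

set_option autoImplicit false

open Finset P0de MeasureTheory Filter Topology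

namespace P0q

theorem measurable_dl : Measurable dl := by
  refine measurable_pi_iff.2 fun f => ?_
  exact (measurable_from_top (f := fun b : Bool => !b)).comp (measurable_pi_apply (cr f))

namespace Z2DualAux

/-- the increasing event of the active edges whose complement is the event `A` of the passive edges of `E` -/
def nA (E : Finset Ed) (A : Finset Ed → Prop) (ξ : Finset Ed) : Prop :=
  ¬ A (E.filter fun f => cr f ∉ ξ)

theorem nA_up {E : Finset Ed} {A : Finset Ed → Prop} (hA : Up A) : Up (nA E A) := by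
  intro η η' h h1 h2
  refine h1 (hA _ _ ?_ h2)
  intro f hf
  rw [mem_filter] at hf ⊢
  exact ⟨hf.1, fun h' => hf.2 (h h')⟩

theorem op_dl (E : Finset Ed) (ω : Ed → Bool) :
    op E (dl ω) = E.filter fun f => cr f ∉ op (E.image cr) ω := by
  ext f
  simp only [op, dl, mem_filter, mem_image, Bool.not_eq_true', not_and, Bool.not_eq_true]
  constructor
  · rintro ⟨h1, h2⟩
    exact ⟨h1, fun _ => h2⟩
  · rintro ⟨h1, h2⟩
    exact ⟨h1, h2 ⟨f, h1, rfl⟩⟩

theorem real_map {μ : Measure (Ed → Bool)} (E : Finset Ed) (A : Finset Ed → Prop) :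
    (μ.map dl).real {ω | A (op E ω)} = μ.real {ω | ¬ nA E A (op (E.image cr) ω)} := by
  rw [map_measureReal_apply measurable_dl (measurable_op E A)]
  congr 1
  ext ω
  simp only [Set.mem_preimage, Set.mem_setOf_eq, nA, not_not]
  rw [op_dl]

theorem shift_cr (f : Ed) : cr ((Aut.tr (-1, -1)).g (cr f)) = f := by
  obtain ⟨⟨i, j⟩, c⟩ := f
  cases c <;> simp [Aut.tr, cr, dir]

theorem tr_cr (f : Ed) : (Aut.tr (1, 1)).g f = cr (cr f) := by
  rw [DualAux.cr_cr]
  rfl

theorem exists_psi (φ : Aut) : ∃ ψ : Aut, ∀ f, ψ.g (cr f) = cr (φ.g f) := by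
  obtain ⟨φ', h1, -⟩ := exists_dAut φ
  have h2 : ∀ f, cr (φ'.g f) = φ.g (cr f) := by
    intro f
    rw [h1]
    exact crE.apply_symm_apply _
  refine ⟨(Aut.tr (1, 1)).comp (φ'.comp (Aut.tr (-1, -1))), fun f => ?_⟩
  change (Aut.tr (1, 1)).g (φ'.g ((Aut.tr (-1, -1)).g (cr f))) = cr (φ.g f)
  rw [tr_cr, h2, shift_cr]

end Z2DualAux

open Z2DualAux in
theorem Good.psyD {μ : Measure (Ed → Bool)} (hμ : Good μ) : Psy (μ.map dl) := by
  haveI := hμ.prob
  refine ⟨Measure.isProbabilityMeasure_map measurable_dl.aemeasurable, ?_, ?_⟩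
  · intro E A B hA hB
    have h := hμ.fkg (E.image cr) (nA E A) (nA E B) (nA_up hA) (nA_up hB)
    have e3 := real_map (μ := μ) E (fun ξ => A ξ ∧ B ξ)
    rw [real_map, real_map, e3]
    set SA : Set (Ed → Bool) := {ω | nA E A (op (E.image cr) ω)} with hSA
    set SB : Set (Ed → Bool) := {ω | nA E B (op (E.image cr) ω)} with hSB
    have mA : MeasurableSet SA := measurable_op _ _
    have mB : MeasurableSet SB := measurable_op _ _
    have e1 : {ω : Ed → Bool | ¬ nA E A (op (E.image cr) ω)} = SAᶜ := rfl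
    have e2 : {ω : Ed → Bool | ¬ nA E B (op (E.image cr) ω)} = SBᶜ := rfl
    have e4 : {ω : Ed → Bool | ¬ nA E (fun ξ => A ξ ∧ B ξ) (op (E.image cr) ω)} =
        (SA ∪ SB)ᶜ := by
      ext ω
      simp only [Set.mem_setOf_eq, hSA, hSB, Set.mem_compl_iff, Set.mem_union, nA]
      tauto
    have e5 : {ω : Ed → Bool | nA E A (op (E.image cr) ω) ∧ nA E B (op (E.image cr) ω)} =
        SA ∩ SB := rfl
    rw [e5] at h
    rw [e1, e2, e4, probReal_compl_eq_one_sub mA, probReal_compl_eq_one_sub mB,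
      probReal_compl_eq_one_sub (mA.union mB)]
    have e6 := measureReal_union_add_inter (μ := μ) (s := SA) (t := SB) mB
    nlinarith
  · intro φ
    obtain ⟨ψ, hψ⟩ := exists_psi φ
    have m1 : Measurable (fun (ω : Ed → Bool) (e : Ed) => ω (φ.g e)) :=
      measurable_pi_iff.2 (fun e => measurable_pi_apply (φ.g e))
    have m2 : Measurable (fun (ω : Ed → Bool) (e : Ed) => ω (ψ.g e)) :=
      measurable_pi_iff.2 (fun e => measurable_pi_apply (ψ.g e))
    rw [Measure.map_map m1 measurable_dl]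
    have e1 : (fun (ω : Ed → Bool) (e : Ed) => ω (φ.g e)) ∘ dl =
        dl ∘ (fun (ω : Ed → Bool) (e : Ed) => ω (ψ.g e)) := by
      funext ω f
      change (!ω (cr (φ.g f))) = !ω (ψ.g (cr f))
      rw [hψ]
    rw [e1, ← Measure.map_map measurable_dl m2, hμ.inv ψ]

end P0q
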