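import Pool.Agent.Lib.P0q.Z2Aut

/-!
# Z3Sqrt: the square root trick

`fkg_not`: induction on `s` (`Finset.induction_on`): for `insert j s` let `U ξ := ∃ i ∈ s, A i ξ` (increasing). With `u = ν.real {U}`, `v = ν.real {A j}`,
`ν.real {¬U ∧ ¬A j} = 1 - u - v + ν.real {U ∧ A j} ≥ (1 - u)(1 - v)` by `hν.fkg E U (A j)`; and `1 - u = ν.real {∀ i ∈ s, ¬ A i}` is at least the product (induction), `1 - v ≥ 0`.
(`hν.prob` is a probability measure; all events are measurable by `measurable_op`; `probReal_compl_eq_one_sub`, `measureReal_union_add_inter`.)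

`arm_prob`: let `E = inner A (B+1)`, `p = ν.real {Arm i}`, the same for all `i` (`arm_eq`). `fkg_not` with `s = univ`, `A i = Arm i a b A B` (`Arm_up`):
`(1-p)^8 ≤ ν.real {∀ i, ¬ Arm i} ≤ ν.real {¬ Crs}` (`exists_arm`) `= 1 - ν.real {Crs} ≤ ε^8`. So `1 - p ≤ ε` (`pow_le_pow_left₀`/`abs_le_of_sq_le`/`le_of_pow_le_pow_left₀`; `0 ≤ 1-p`).
-/

set_option autoImplicit false

open Finset P0de MeasureTheory Filter Topology

namespace P0q

theorem fkg_not {ν : Measure (Ed → Bool)} (hν : Psy ν) (E : Finset Ed) {ι : Type} [DecidableEq ι]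
    (s : Finset ι) (A : ι → Finset Ed → Prop) (hA : ∀ i, Up (A i)) :
    ∏ i ∈ s, (1 - ν.real {ω | A i (op E ω)}) ≤ ν.real {ω | ∀ i ∈ s, ¬ A i (op E ω)} := by
  have := hν.prob
  induction s using Finset.induction_on with
  | empty => simp
  | insert j s hj ih =>
    set U : Finset Ed → Prop := fun ξ => ∃ i ∈ s, A i ξ with hU
    have hUup : Up U := by
      rintro η η' h ⟨i, hi, h1⟩
      exact ⟨i, hi, hA i η η' h h1⟩
    have m1 : MeasurableSet {ω : Ed → Bool | U (op E ω)} := measurable_op E U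
    have m2 : MeasurableSet {ω : Ed → Bool | A j (op E ω)} := measurable_op E (A j)
    have e1 : {ω : Ed → Bool | ∀ i ∈ insert j s, ¬ A i (op E ω)} =
        ({ω : Ed → Bool | U (op E ω)} ∪ {ω : Ed → Bool | A j (op E ω)})ᶜ := by
      ext ω
      simp only [Set.mem_setOf_eq, Set.mem_compl_iff, Set.mem_union, Finset.mem_insert, hU]
      constructor
      · rintro h (⟨i, hi, h1⟩ | h1)
        · exact h i (Or.inr hi) h1
        · exact h j (Or.inl rfl) h1
      · rintro h i (rfl | hi) h1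
        · exact h (Or.inr h1)
        · exact h (Or.inl ⟨i, hi, h1⟩)
    have e2 : {ω : Ed → Bool | ∀ i ∈ s, ¬ A i (op E ω)} = {ω : Ed → Bool | U (op E ω)}ᶜ := by
      ext ω
      simp only [Set.mem_setOf_eq, Set.mem_compl_iff, hU]
      push Not
      rfl
    have h1 := measureReal_union_add_inter (μ := ν) (s := {ω : Ed → Bool | U (op E ω)}) m2
    have h2 := hν.fkg E U (A j) hUup (hA j)
    have h3 : {ω : Ed → Bool | U (op E ω)} ∩ {ω : Ed → Bool | A j (op E ω)} =
        {ω | U (op E ω) ∧ A j (op E ω)} := rfl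
    rw [h3] at h1
    rw [e1, probReal_compl_eq_one_sub (m1.union m2), prod_insert hj]
    rw [e2, probReal_compl_eq_one_sub m1] at ih
    have h4 : ν.real {ω | A j (op E ω)} ≤ 1 := measureReal_le_one
    have h5 := mul_le_mul_of_nonneg_left ih (sub_nonneg.2 h4)
    nlinarith

theorem arm_prob {ν : Measure (Ed → Bool)} (hν : Psy ν) {a b A B : ℤ} (hA : A < a) (hB : b < B)
    (hab : a + b = A + B) {ε : ℝ} (hε : 0 ≤ ε)
    (h : 1 - ε ^ 8 ≤ ν.real {ω | Crs a b A B (op (inner A (B + 1)) ω)}) (i : Fin 8) :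
    1 - ε ≤ ν.real {ω | Arm i a b A B (op (inner A (B + 1)) ω)} := by
  have := hν.prob
  set p := ν.real {ω | Arm i a b A B (op (inner A (B + 1)) ω)} with hp
  have h1 := fkg_not hν (inner A (B + 1)) (Finset.univ : Finset (Fin 8))
    (fun i => Arm i a b A B) (fun i => Arm_up i a b A B)
  have h2 : ∏ j : Fin 8, (1 - ν.real {ω | Arm j a b A B (op (inner A (B + 1)) ω)}) =
      (1 - p) ^ 8 := by
    have h3 : ∀ j : Fin 8, 1 - ν.real {ω | Arm j a b A B (op (inner A (B + 1)) ω)} = 1 - p := by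
      intro j
      rw [arm_eq hν hab j i]
    rw [Finset.prod_congr rfl (fun j _ => h3 j), Finset.prod_const]
    simp
  rw [h2] at h1
  have m1 : MeasurableSet {ω : Ed → Bool | Crs a b A B (op (inner A (B + 1)) ω)} :=
    measurable_op _ _
  have h4 : ν.real {ω | ∀ j ∈ (Finset.univ : Finset (Fin 8)),
      ¬ Arm j a b A B (op (inner A (B + 1)) ω)} ≤
      ν.real {ω : Ed → Bool | Crs a b A B (op (inner A (B + 1)) ω)}ᶜ := by
    refine measureReal_mono ?_ (measure_ne_top _ _)
    intro ω hω hC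
    obtain ⟨j, hj⟩ := exists_arm hA hB hC
    exact hω j (Finset.mem_univ j) hj
  rw [probReal_compl_eq_one_sub m1] at h4
  by_contra hcon
  push Not at hcon
  have h5 : ε < 1 - p := by linarith
  have h6 := pow_lt_pow_left₀ h5 hε (show (8 : ℕ) ≠ 0 by norm_num)
  linarith

end P0q
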