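import Pool.Agent.Lib.P0q.Z0Defs

/-!
# Z5Cut: potentials of closed chains; boxes are connected

`exists_chain` (induction on `Relation.ReflTransGen`): refl: `c = 0`. Step from `y` to `y'` by the edge `e ∈ ξ`: add the indicator of `e` (in `ZMod 2`), whose
boundary at `z` is `1[z = src e] + 1[z = tgt e]` (`{src e, tgt e} = {y, y'}`; `src e ≠ tgt e`; cases on the direction of `e`).
Here `bd c z = c (z, false) + c (z, true) + c (z - (1,0), false) + c (z - (0,1), true)` is the sum over the four edges at `z`.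

`exists_cut`: `c` = chain from `src e₀` to `tgt e₀` in `ξ`, `Γ = c +` indicator of `e₀`: `bd Γ = 0`, `Γ e₀ = 1` as `c e₀ = 0`, and `Γ e = 0` for
`e ∉ ξ`, `e ≠ e₀`. Apply `P0de.exists_pot` to `F f := Γ (cr f)`: its hypothesis at `x` is `bd Γ (x + (1,1)) = 0`: `cr (x, false) = (x + (1,0), true)`,
`cr (x + (1,0), true) = (x + (1,1), false)`, `cr (x + (0,1), false) = (x + (1,1), true)`, `cr (x, true) = (x + (0,1), false)`. The potential `γ` satisfies
`Γ (cr f) = γ (src f) + γ (tgt f)`; `0 = γ (src f) + γ (tgt f)` means equality in `ZMod 2`.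

`box_conn`: in the box `[a, b]²` first connect horizontally, then vertically (`Int.le_induction`, or: the set of sites connected to a given one is closed under neighbours).
-/

set_option autoImplicit false

open Finset P0de MeasureTheory Filter Topology

namespace P0q

/-- the boundary of the chain `c` -/
def cbd (c : Ed → ZMod 2) (z : Site) : ZMod 2 :=
  c (z, false) + c (z, true) + c (z - (1, 0), false) + c (z - (0, 1), true)

namespace Z5CutAux

/-- the indicator of the edge `e` -/
def ie (e : Ed) (f : Ed) : ZMod 2 := if f = e then 1 else 0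

theorem cbd_ie (e : Ed) (z : Site) :
    cbd (ie e) z = (if z = src e then 1 else 0) + (if z = tgt e then 1 else 0) := by
  obtain ⟨⟨i, j⟩, c⟩ := e
  obtain ⟨z1, z2⟩ := z
  cases c
  · simp [cbd, ie, src, tgt, dir, sub_eq_iff_eq_add]
  · simp [cbd, ie, src, tgt, dir, sub_eq_iff_eq_add]

theorem cbd_add (c c' : Ed → ZMod 2) (z : Site) :
    cbd (fun e => c e + c' e) z = cbd c z + cbd c' z := by
  simp only [cbd]
  ring

theorem two0 : (2 : ZMod 2) = 0 := rfl

theorem eq_of_add : ∀ s t : ZMod 2, s + t = 0 → s = t := by decide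

theorem hor {a b i j : ℤ} (hi : a ≤ i) (hj : a ≤ j ∧ j ≤ b) (n : ℕ) (h : i + n ≤ b) :
    Conn (inner a (b + 1)) (i, j) (i + n, j) := by
  induction n with
  | zero =>
    rw [Nat.cast_zero, add_zero]
    exact Relation.ReflTransGen.refl
  | succ n ih =>
    push_cast at h ⊢
    refine Relation.ReflTransGen.tail (ih (by omega)) ⟨((i + n, j), false), ?_, Or.inl ⟨rfl, ?_⟩⟩
    · rw [DualAux.mem_inner, DualAux.mem_box, DualAux.mem_box]
      simp only [src, tgt, dir, cond_false, Prod.mk_add_mk, add_zero]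
      omega
    · simp only [tgt, dir, cond_false, Prod.mk_add_mk, add_zero, add_assoc]

theorem ver {a b i j : ℤ} (hi : a ≤ i ∧ i ≤ b) (hj : a ≤ j) (n : ℕ) (h : j + n ≤ b) :
    Conn (inner a (b + 1)) (i, j) (i, j + n) := by
  induction n with
  | zero =>
    rw [Nat.cast_zero, add_zero]
    exact Relation.ReflTransGen.refl
  | succ n ih =>
    push_cast at h ⊢
    refine Relation.ReflTransGen.tail (ih (by omega)) ⟨((i, j + n), true), ?_, Or.inl ⟨rfl, ?_⟩⟩
    · rw [DualAux.mem_inner, DualAux.mem_box, DualAux.mem_box]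
      simp only [src, tgt, dir, cond_true, Prod.mk_add_mk, add_zero]
      omega
    · simp only [tgt, dir, cond_true, Prod.mk_add_mk, add_zero, add_assoc]

theorem hor' {a b i i' j : ℤ} (hi : a ≤ i ∧ i ≤ b) (hi' : a ≤ i' ∧ i' ≤ b) (hj : a ≤ j ∧ j ≤ b) :
    Conn (inner a (b + 1)) (i, j) (i', j) := by
  rcases le_total i i' with h | h
  · obtain ⟨n, rfl⟩ := Int.le.dest h
    exact hor hi.1 hj n hi'.2
  · obtain ⟨n, rfl⟩ := Int.le.dest h
    exact (hor hi'.1 hj n hi.2).symm

theorem ver' {a b i j j' : ℤ} (hi : a ≤ i ∧ i ≤ b) (hj : a ≤ j ∧ j ≤ b) (hj' : a ≤ j' ∧ j' ≤ b) :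
    Conn (inner a (b + 1)) (i, j) (i, j') := by
  rcases le_total j j' with h | h
  · obtain ⟨n, rfl⟩ := Int.le.dest h
    exact ver hi hj.1 n hj'.2
  · obtain ⟨n, rfl⟩ := Int.le.dest h
    exact (ver hi hj'.1 n hj.2).symm

end Z5CutAux

open Z5CutAux

theorem exists_chain {ξ : Finset Ed} {x y : Site} (h : Conn ξ x y) :
    ∃ c : Ed → ZMod 2, (∀ e, e ∉ ξ → c e = 0) ∧
      ∀ z, cbd c z = (if z = x then 1 else 0) + (if z = y then 1 else 0) := by
  unfold Conn at h
  induction h with
  | refl =>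
    refine ⟨fun _ => 0, fun _ _ => rfl, fun z => ?_⟩
    have h2 := two0
    simp only [cbd]
    linear_combination -(if z = x then 1 else 0) * h2
  | @tail y y' _ hyy ih =>
    obtain ⟨c, hc, hb⟩ := ih
    obtain ⟨e, he, hev⟩ := hyy
    refine ⟨fun f => c f + ie e f, fun f hf => ?_, fun z => ?_⟩
    · have hne : f ≠ e := fun h => hf (h ▸ he)
      simp [hc f hf, ie, hne]
    · rw [cbd_add, hb, cbd_ie]
      have h2 := two0
      rcases hev with ⟨rfl, rfl⟩ | ⟨rfl, rfl⟩
      · linear_combination (if z = src e then 1 else 0) * h2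
      · linear_combination (if z = tgt e then 1 else 0) * h2

theorem exists_cut {ξ : Finset Ed} {e₀ : Ed} (h0 : e₀ ∉ ξ) (h : Conn ξ (src e₀) (tgt e₀)) :
    ∃ γ : Site → ZMod 2, (∀ f, cr f = e₀ → γ (src f) + γ (tgt f) = 1) ∧
      ∀ f, cr f ≠ e₀ → cr f ∉ ξ → γ (src f) = γ (tgt f) := by
  obtain ⟨c, hc, hb⟩ := exists_chain h
  have h2 := two0
  have hz : ∀ z, cbd (fun f => c f + ie e₀ f) z = 0 := by
    intro z
    rw [cbd_add, hb, cbd_ie]
    linear_combination ((if z = src e₀ then 1 else 0) + (if z = tgt e₀ then 1 else 0)) * h2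
  obtain ⟨γ, hγ⟩ := exists_pot (fun f => c (cr f) + ie e₀ (cr f)) (by
    rintro ⟨i, j⟩
    have := hz (i + 1, j + 1)
    simp only [cbd, Prod.mk_sub_mk, add_sub_cancel_right, sub_zero] at this
    simp only [cr, dir, cond_true, cond_false, Bool.not_true, Bool.not_false, Prod.mk_add_mk,
      add_zero]
    linear_combination this)
  refine ⟨γ, fun f hf => ?_, fun f hf hf' => ?_⟩
  · rw [← hγ f]
    simp [hf, hc e₀ h0, ie]
  · apply eq_of_add
    rw [← hγ f]
    simp [hc _ hf', ie, hf]

theorem box_conn {a b : ℤ} {x y : Site} (hx : x ∈ box a (b + 1)) (hy : y ∈ box a (b + 1)) :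
    Conn (inner a (b + 1)) x y := by
  obtain ⟨x1, x2⟩ := x
  obtain ⟨y1, y2⟩ := y
  rw [DualAux.mem_box] at hx hy
  simp only at hx hy
  exact (hor' (i := x1) (i' := y1) (j := x2) (by omega) (by omega) (by omega)).trans
    (ver' (by omega) (by omega) (by omega))

end P0q
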