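import Pool.Agent.Lib.P0q.Z5Cut

/-!
# Z5Sep: three passive arms separate three active arms

Active box `[a, b]²`, passive box `[a-1, b]²` (the faces around it), active outer box `[A, B]²`, passive outer box `[A-1, B]²`.

`arm_pot`: let `Γ`-type potential `γ` be given: `γ (src f) = γ (tgt f)` whenever `cr f ∉ G`, where `G ⊆ η ∪ EI a b` is a set of active edges inside `inner A (B+1)`. `γ` is constant outside
`box A B`: for `src f, tgt f ∉ box A B`, `cr f ∉ inner A (B+1)` (`DualAux.cr_mem_inner`, `DualAux.mem_inner`, `DualAux.mem_stubs`), so `P0de.const_outside` applies. Passive arm: `x'` in the passive box, `y'` with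
`hs i (a-1) b y'`, `Adj ζ x' y'`, `Tc (A-1) B (ζ \ EI (a-1) b) y'`. For a passive edge `f ∈ ζ` with an end outside the passive box: `cr f ∉ η` (`hζ`) and
`cr f ∉ EI a b` [`cr f ∈ EI a b` iff both ends of `f` are in `box (a-1) (b+1)`: cases on the direction, `omega`], so `γ` has the same values at its ends. `y'` is outside the passive box (`hs`). Edges of
`ζ \ EI (a-1) b` have both ends outside. So `γ x' = γ y' = γ w`, `w ∈ bdry (A-1) B`, which is outside `box A B`. Hence `γ x' = γ w₀`, `w₀ = (A-1, A-1)`, for every passive arm.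
The inner end `x'` of the exit edge is determined by `y'`: for `i = 1`: `y' = (b+1, t₁)`, `x' = (b, t₁)`, `a - 1 + b ≤ 2 t₁`, `t₁ ≤ b`;
`i = 3`: `x' = (s₃, b)`, `2 s₃ ≤ a - 1 + b`, `a - 1 ≤ s₃`; `i = 6`: `y' = (s₆, a-2)`, `x' = (s₆, a-1)`, `a - 1 ≤ s₆ ≤ b`.

`arms_sep`. Pairs `(y₀, y')`, `y' = y₂` or `y₄`: suppose `Conn (η \ EI a b) y₀ y'`. Let `e₀ = ((b, t₀), false)` be the stub of `y₀ = (b+1, t₀)` (`2 t₀ ≤ a+b`), `e'` the stub of `y'` (`((s₂, b), true)` for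
`y₂ = (s₂, b+1)`, `((a-1, t₄), false)` for `y₄ = (a-1, t₄)`), and `ξ = (η \ EI a b) ∪ inner a (b+1) ∪ {e'}`. `e₀ ∉ ξ` and `Conn ξ (src e₀) (tgt e₀)` (`box_conn` inside the box to the inner end of `e'`, then `e'`, then the connection).
`exists_cut` gives `γ`; `G = insert e₀ ξ`. `arm_pot` for the arms 1 and 6: `γ (b, t₁) = γ (s₆, a-1)`. Walk on the ring: from `(s₆, a-1)` right to `(b, a-1)`: each step `f = ((s, a-1), false)` has
`cr f = ((s+1, a-1), true)`, a stub on the bottom, not in `insert e₀ ξ`: `γ` constant. From `(b, a-1)` up to `(b, t₁)`: `f = ((b, t), true)`, `cr f = ((b, t+1), false)`, equal to `e₀` iff `t + 1 = t₀`, otherwise not in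
`insert e₀ ξ`. Claim for `a - 1 ≤ t ≤ b`: `γ (b, t) = γ (b, a-1) + (if t₀ ≤ t then 1 else 0)` (`Int.le_induction`). As `2 t₀ ≤ a + b ≤ 2 t₁ + 1`, `t₀ ≤ t₁`: `γ (b, t₁) = γ (s₆, a-1) + 1`, a contradiction.
Pair `(y₂, y₄)`: `e₀ = ((s₂, b), true)`, `e' = ((a-1, t₄), false)`, arms 1 and 3: walk from `(b, t₁)` up to `(b, b)` (stubs `((b, t+1), false)` on the right, not in `insert e₀ ξ`), then left to
`(s₃, b)`: the step from `(s, b)` to `(s-1, b)` is `f = ((s-1, b), false)` with `cr f = ((s, b), true)`, equal to `e₀` iff `s = s₂`. `2 s₃ ≤ a + b - 1 < 2 s₂`, so `s₃ < s₂ ≤ b`: `γ (s₃, b) = γ (b, t₁) + 1`, a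
contradiction.
-/

set_option autoImplicit false

open Finset P0de MeasureTheory Filter Topology

namespace P0q

namespace Z5SepAux

theorem mem_inner' {a b : ℤ} {i j : ℤ} {c : Bool} : ((i, j), c) ∈ inner a b ↔
    ((a ≤ i ∧ i < b) ∧ a ≤ j ∧ j < b) ∧
      ((a ≤ i + (if c then 0 else 1) ∧ i + (if c then 0 else 1) < b) ∧
        a ≤ j + (if c then 1 else 0) ∧ j + (if c then 1 else 0) < b) := by
  rw [DualAux.mem_inner, DualAux.mem_box, DualAux.mem_box]
  cases c <;> simp [src, tgt, dir]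

theorem mem_EI' {a b : ℤ} {i j : ℤ} {c : Bool} : ((i, j), c) ∈ EI a b ↔
    ((a ≤ i ∧ i < b + 1) ∧ a ≤ j ∧ j < b + 1) ∨
      ((a ≤ i + (if c then 0 else 1) ∧ i + (if c then 0 else 1) < b + 1) ∧
        a ≤ j + (if c then 1 else 0) ∧ j + (if c then 1 else 0) < b + 1) := by
  rw [mem_EI, DualAux.mem_box, DualAux.mem_box]
  cases c <;> simp [src, tgt, dir]

/-- passive edges with an end outside the passive box do not cross `EI a b` -/
theorem cr_not_EI {a b : ℤ} {f : Ed} (h : src f ∉ box (a - 1) (b + 1) ∨ tgt f ∉ box (a - 1) (b + 1)) :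
    cr f ∉ EI a b := by
  obtain ⟨⟨i, j⟩, c⟩ := f
  cases c
  · show ((i + 1, j + 0), true) ∉ EI a b
    rw [mem_EI']
    simp only [src, tgt, dir, cond_false, Prod.mk_add_mk, DualAux.mem_box] at h
    simp only [if_true]
    omega
  · show ((i + 0, j + 1), false) ∉ EI a b
    rw [mem_EI']
    simp only [src, tgt, dir, cond_true, Prod.mk_add_mk, DualAux.mem_box] at h
    simp only [Bool.false_eq_true, if_false]
    omega

theorem cr_not_inner {A B : ℤ} {f : Ed} (h1 : src f ∉ box A B) (h2 : tgt f ∉ box A B) :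
    cr f ∉ inner A (B + 1) := by
  rw [DualAux.cr_mem_inner, mem_union, DualAux.mem_inner, DualAux.mem_stubs]
  tauto

/-- the potential along a passive arm -/
theorem arm_pot {a b A B : ℤ} {η ζ G : Finset Ed} (hζ : ∀ f ∈ ζ, cr f ∉ η)
    (hG : ∀ e ∈ G, e ∈ η ∨ e ∈ EI a b) (hG2 : G ⊆ inner A (B + 1)) {γ : Site → ZMod 2}
    (hγ : ∀ f, cr f ∉ G → γ (src f) = γ (tgt f)) {x y : Site} (hy : y ∉ box (a - 1) (b + 1))
    (h1 : Adj ζ x y) (h2 : Tc (A - 1) B (ζ \ EI (a - 1) b) y) : γ x = γ (A - 1, A - 1) := by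
  have hout : ∀ f : Ed, src f ∉ box A B → tgt f ∉ box A B → γ (src f) = γ (tgt f) :=
    fun f h3 h4 => hγ f fun h5 => cr_not_inner h3 h4 (hG2 h5)
  have hc := const_outside γ hout
  have hz : ∀ f ∈ ζ, (src f ∉ box (a - 1) (b + 1) ∨ tgt f ∉ box (a - 1) (b + 1)) →
      γ (src f) = γ (tgt f) := by
    intro f hf h
    refine hγ f fun h5 => ?_
    rcases hG _ h5 with h6 | h6
    · exact hζ f hf h6
    · exact cr_not_EI h h6
  have hxy : γ x = γ y := by
    obtain ⟨f, hf, ⟨h3, h4⟩ | ⟨h3, h4⟩⟩ := h1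
    · rw [← h3, ← h4]
      exact hz f hf (Or.inr (h4 ▸ hy))
    · rw [← h3, ← h4]
      exact (hz f hf (Or.inl (h3 ▸ hy))).symm
  obtain ⟨w, hw, hcw⟩ := h2
  have hall : ∀ u, Relation.ReflTransGen (Adj (ζ \ EI (a - 1) b)) y u → γ y = γ u := by
    intro u hu
    induction hu with
    | refl => rfl
    | @tail u v _ h3 ih =>
      obtain ⟨f, hf, h4⟩ := h3
      have hf1 := (Finset.mem_sdiff.1 hf).1
      have hf2 := (Finset.mem_sdiff.1 hf).2
      rw [mem_EI] at hf2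
      have h5 := hz f hf1 (Or.inl fun h => hf2 (Or.inl h))
      rw [ih]
      rcases h4 with ⟨h6, h7⟩ | ⟨h6, h7⟩
      · rw [← h6, ← h7]; exact h5
      · rw [← h6, ← h7]; exact h5.symm
  have hyw : γ y = γ w := hall w hcw
  rw [hxy, hyw]
  refine hc w _ ?_ ?_
  · rw [mem_bdry] at hw
    rw [show A = A - 1 + 1 by ring]
    exact hw.2
  · rw [DualAux.mem_box]
    simp

/-- the inner end of an exit edge is determined by the outer end -/
theorem exit_edge {ζ : Finset Ed} {x y : Site} (h : Adj ζ x y) :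
    y = x + (1, 0) ∨ y = x + (0, 1) ∨ x = y + (1, 0) ∨ x = y + (0, 1) := by
  obtain ⟨⟨z, c⟩, _, ⟨rfl, rfl⟩ | ⟨rfl, rfl⟩⟩ := h
  · cases c
    · exact Or.inl rfl
    · exact Or.inr (Or.inl rfl)
  · cases c
    · exact Or.inr (Or.inr (Or.inl rfl))
    · exact Or.inr (Or.inr (Or.inr rfl))

theorem arm1 {a b A B : ℤ} {η ζ : Finset Ed} (hζ : ∀ f ∈ ζ, cr f ∉ η)
    (h : Arm 1 (a - 1) b (A - 1) B ζ) : ∃ t : ℤ, a - 1 ≤ t ∧ t ≤ b ∧ a - 1 + b ≤ 2 * t ∧
      ∀ (G : Finset Ed) (γ : Site → ZMod 2), (∀ e ∈ G, e ∈ η ∨ e ∈ EI a b) →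
        G ⊆ inner A (B + 1) → (∀ f, cr f ∉ G → γ (src f) = γ (tgt f)) →
        γ (b, t) = γ (A - 1, A - 1) := by
  obtain ⟨x, y, hs, hx, h1, h2⟩ := h
  have hs' : y.1 = b + 1 ∧ (a - 1 ≤ y.2 ∧ y.2 ≤ b) ∧ a - 1 + b ≤ 2 * y.2 := hs
  have hy : y ∉ box (a - 1) (b + 1) := by rw [DualAux.mem_box]; omega
  rw [DualAux.mem_box] at hx
  have hxe : x = (b, y.2) := by
    have h3 := exit_edge h1
    obtain ⟨x1, x2⟩ := x
    obtain ⟨y1, y2⟩ := y
    simp only [Prod.mk_add_mk, Prod.mk.injEq] at h3 hs' hx ⊢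
    omega
  refine ⟨y.2, hs'.2.1.1, hs'.2.1.2, hs'.2.2, fun G γ hG hG2 hγ => ?_⟩
  rw [← hxe]
  exact arm_pot hζ hG hG2 hγ hy h1 h2

theorem arm3 {a b A B : ℤ} {η ζ : Finset Ed} (hζ : ∀ f ∈ ζ, cr f ∉ η)
    (h : Arm 3 (a - 1) b (A - 1) B ζ) : ∃ s : ℤ, a - 1 ≤ s ∧ s ≤ b ∧ 2 * s ≤ a - 1 + b ∧
      ∀ (G : Finset Ed) (γ : Site → ZMod 2), (∀ e ∈ G, e ∈ η ∨ e ∈ EI a b) →
        G ⊆ inner A (B + 1) → (∀ f, cr f ∉ G → γ (src f) = γ (tgt f)) →
        γ (s, b) = γ (A - 1, A - 1) := by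
  obtain ⟨x, y, hs, hx, h1, h2⟩ := h
  have hs' : y.2 = b + 1 ∧ (a - 1 ≤ y.1 ∧ y.1 ≤ b) ∧ 2 * y.1 ≤ a - 1 + b := hs
  have hy : y ∉ box (a - 1) (b + 1) := by rw [DualAux.mem_box]; omega
  rw [DualAux.mem_box] at hx
  have hxe : x = (y.1, b) := by
    have h3 := exit_edge h1
    obtain ⟨x1, x2⟩ := x
    obtain ⟨y1, y2⟩ := y
    simp only [Prod.mk_add_mk, Prod.mk.injEq] at h3 hs' hx ⊢
    omega
  refine ⟨y.1, hs'.2.1.1, hs'.2.1.2, hs'.2.2, fun G γ hG hG2 hγ => ?_⟩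
  rw [← hxe]
  exact arm_pot hζ hG hG2 hγ hy h1 h2

theorem arm6 {a b A B : ℤ} {η ζ : Finset Ed} (hζ : ∀ f ∈ ζ, cr f ∉ η)
    (h : Arm 6 (a - 1) b (A - 1) B ζ) : ∃ s : ℤ, a - 1 ≤ s ∧ s ≤ b ∧
      ∀ (G : Finset Ed) (γ : Site → ZMod 2), (∀ e ∈ G, e ∈ η ∨ e ∈ EI a b) →
        G ⊆ inner A (B + 1) → (∀ f, cr f ∉ G → γ (src f) = γ (tgt f)) →
        γ (s, a - 1) = γ (A - 1, A - 1) := by
  obtain ⟨x, y, hs, hx, h1, h2⟩ := h
  have hs' : y.2 = a - 1 - 1 ∧ (a - 1 ≤ y.1 ∧ y.1 ≤ b) ∧ 2 * y.1 ≤ a - 1 + b := hs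
  have hy : y ∉ box (a - 1) (b + 1) := by rw [DualAux.mem_box]; omega
  rw [DualAux.mem_box] at hx
  have hxe : x = (y.1, a - 1) := by
    have h3 := exit_edge h1
    obtain ⟨x1, x2⟩ := x
    obtain ⟨y1, y2⟩ := y
    simp only [Prod.mk_add_mk, Prod.mk.injEq] at h3 hs' hx ⊢
    omega
  refine ⟨y.1, hs'.2.1.1, hs'.2.1.2, fun G γ hG hG2 hγ => ?_⟩
  rw [← hxe]
  exact arm_pot hζ hG hG2 hγ hy h1 h2

/-- the potential of the closed chain through the stubs `e₀` and `e₁` -/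
theorem core {a b A B : ℤ} (hA : A < a) (hB : b < B) {η : Finset Ed}
    (hη : η ⊆ inner A (B + 1)) {e₀ e₁ : Ed} {z y' : Site} (h0 : src e₀ ∈ box a (b + 1))
    (h0' : tgt e₀ ∉ box a (b + 1)) (h1 : (src e₁ = z ∧ tgt e₁ = y') ∨ (src e₁ = y' ∧ tgt e₁ = z))
    (hz : z ∈ box a (b + 1)) (hne : e₀ ≠ e₁) (hc : Conn (η \ EI a b) (tgt e₀) y') :
    ∃ (G : Finset Ed) (γ : Site → ZMod 2), (∀ e ∈ G, e ∈ η ∨ e ∈ EI a b) ∧
      G ⊆ inner A (B + 1) ∧ (∀ f, cr f ∉ G → γ (src f) = γ (tgt f)) ∧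
      (∀ f, cr f = e₀ → γ (src f) + γ (tgt f) = 1) ∧
      ∀ f, cr f ≠ e₀ → cr f ≠ e₁ → cr f ∈ EI a b → cr f ∉ inner a (b + 1) →
        γ (src f) = γ (tgt f) := by
  have hEI : ∀ e ∈ EI a b, e ∈ inner A (B + 1) := by
    rintro ⟨⟨i, j⟩, c⟩ he
    rw [mem_EI'] at he
    rw [mem_inner']
    cases c
    · simp only [Bool.false_eq_true, if_false] at he ⊢
      omega
    · simp only [if_true] at he ⊢
      omega
  have he0 : e₀ ∈ EI a b := mem_EI.2 (Or.inl h0)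
  have he1 : e₁ ∈ EI a b := by
    rcases h1 with ⟨h2, _⟩ | ⟨_, h2⟩
    · exact mem_EI.2 (Or.inl (h2 ▸ hz))
    · exact mem_EI.2 (Or.inr (h2 ▸ hz))
  have hin : ∀ e ∈ inner a (b + 1), e ∈ EI a b := fun e he =>
    mem_EI.2 (Or.inl (DualAux.mem_inner.1 he).1)
  set ξ : Finset Ed := insert e₁ ((η \ EI a b) ∪ inner a (b + 1)) with hξ
  have h0ξ : e₀ ∉ ξ := by
    rw [hξ, Finset.mem_insert, Finset.mem_union, Finset.mem_sdiff]
    rintro (h | h | h)
    · exact hne h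
    · exact h.2 he0
    · exact h0' (DualAux.mem_inner.1 h).2
  have hsub1 : η \ EI a b ⊆ ξ := fun e he =>
    Finset.mem_insert_of_mem (Finset.mem_union_left _ he)
  have hsub2 : inner a (b + 1) ⊆ ξ := fun e he =>
    Finset.mem_insert_of_mem (Finset.mem_union_right _ he)
  have hst : Conn ξ z y' := by
    refine Relation.ReflTransGen.single ⟨e₁, Finset.mem_insert_self _ _, ?_⟩
    exact h1
  have hconn : Conn ξ (src e₀) (tgt e₀) :=
    (Conn.mono hsub2 (box_conn h0 hz)).trans (hst.trans (Conn.mono hsub1 hc).symm)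
  obtain ⟨γ, hγ1, hγ2⟩ := exists_cut h0ξ hconn
  refine ⟨insert e₀ ξ, γ, ?_, ?_, ?_, hγ1, ?_⟩
  · intro e he
    rw [hξ, Finset.mem_insert, Finset.mem_insert, Finset.mem_union, Finset.mem_sdiff] at he
    rcases he with rfl | rfl | ⟨h, _⟩ | h
    · exact Or.inr he0
    · exact Or.inr he1
    · exact Or.inl h
    · exact Or.inr (hin _ h)
  · intro e he
    rw [hξ, Finset.mem_insert, Finset.mem_insert, Finset.mem_union, Finset.mem_sdiff] at he
    rcases he with rfl | rfl | ⟨h, _⟩ | h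
    · exact hEI _ he0
    · exact hEI _ he1
    · exact hη h
    · exact hEI _ (hin _ h)
  · intro f hf
    rw [Finset.mem_insert] at hf
    exact hγ2 f (fun h => hf (Or.inl h)) (fun h => hf (Or.inr h))
  · intro f h2 h3 h4 h5
    refine hγ2 f h2 fun h6 => ?_
    rw [hξ, Finset.mem_insert, Finset.mem_union, Finset.mem_sdiff] at h6
    rcases h6 with h6 | h6 | h6
    · exact h3 h6
    · exact h6.2 h4
    · exact h5 h6

theorem z2_add {u v : ZMod 2} (h : u + v = 1) : v = u + 1 := by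
  revert u v
  decide

theorem z2_ne (u : ZMod 2) : u + 1 ≠ u := by
  revert u
  decide

/-- walks along the ring: bottom side -/
theorem walk_bot {a b : ℤ} {γ : Site → ZMod 2} {e₀ e₁ : Ed}
    (h0 : ∀ s, e₀ ≠ ((s, a - 1), true)) (h1 : ∀ s, e₁ ≠ ((s, a - 1), true))
    (hab : a ≤ b) (hγ : ∀ f, cr f ≠ e₀ → cr f ≠ e₁ → cr f ∈ EI a b → cr f ∉ inner a (b + 1) →
      γ (src f) = γ (tgt f)) {s : ℤ} (hs : a - 1 ≤ s) (hsb : s ≤ b) :
    γ (s, a - 1) = γ (b, a - 1) := by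
  have key : ∀ n : ℤ, s ≤ n → n ≤ b → γ (s, a - 1) = γ (n, a - 1) := by
    intro n hn
    induction n, hn using Int.leInduction with
    | base => intro _; rfl
    | succ n hn ih =>
      intro hb
      rw [ih (by omega)]
      have hcr : cr ((n, a - 1), false) = ((n + 1, a - 1), true) := by
        simp [cr, dir]
      have := hγ ((n, a - 1), false) (by rw [hcr]; exact (h0 _).symm) (by rw [hcr]; exact (h1 _).symm)
        (by rw [hcr, mem_EI']; simp only [if_true]; omega)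
        (by rw [hcr, mem_inner']; simp only [if_true]; omega)
      simpa [src, tgt, dir] using this
  exact key b hsb le_rfl

/-- walks along the ring: right side, without crossing -/
theorem walk_right {a b : ℤ} {γ : Site → ZMod 2} {e₀ e₁ : Ed}
    (h0 : ∀ t, e₀ ≠ ((b, t), false)) (h1 : ∀ t, e₁ ≠ ((b, t), false))
    (hab : a ≤ b) (hγ : ∀ f, cr f ≠ e₀ → cr f ≠ e₁ → cr f ∈ EI a b → cr f ∉ inner a (b + 1) →
      γ (src f) = γ (tgt f)) {t : ℤ} (ht : a - 1 ≤ t) (htb : t ≤ b) :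
    γ (b, t) = γ (b, b) := by
  have key : ∀ n : ℤ, t ≤ n → n ≤ b → γ (b, t) = γ (b, n) := by
    intro n hn
    induction n, hn using Int.leInduction with
    | base => intro _; rfl
    | succ n hn ih =>
      intro hb
      rw [ih (by omega)]
      have hcr : cr ((b, n), true) = ((b, n + 1), false) := by
        simp [cr, dir]
      have := hγ ((b, n), true) (by rw [hcr]; exact (h0 _).symm) (by rw [hcr]; exact (h1 _).symm)
        (by rw [hcr, mem_EI']; simp only [Bool.false_eq_true, if_false]; omega)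
        (by rw [hcr, mem_inner']; simp only [Bool.false_eq_true, if_false]; omega)
      simpa [src, tgt, dir] using this
  exact key b htb le_rfl

/-- walks along the ring: right side, across the stub `((b, t₀), false)` -/
theorem walk_right_cross {a b : ℤ} {γ : Site → ZMod 2} {t₀ : ℤ} {e₁ : Ed} (ht0 : a ≤ t₀)
    (h1 : ∀ t, e₁ ≠ ((b, t), false)) (hab : a ≤ b)
    (hγ1 : ∀ f, cr f = ((b, t₀), false) → γ (src f) + γ (tgt f) = 1)
    (hγ : ∀ f, cr f ≠ ((b, t₀), false) → cr f ≠ e₁ → cr f ∈ EI a b → cr f ∉ inner a (b + 1) →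
      γ (src f) = γ (tgt f)) {t : ℤ} (ht : t₀ ≤ t) (htb : t ≤ b) :
    γ (b, t) = γ (b, a - 1) + 1 := by
  have key : ∀ n : ℤ, a - 1 ≤ n → n ≤ b → γ (b, n) = γ (b, a - 1) + (if t₀ ≤ n then 1 else 0) := by
    intro n hn
    induction n, hn using Int.leInduction with
    | base => intro _; rw [if_neg (by omega), add_zero]
    | succ n hn ih =>
      intro hb
      have ih' := ih (by omega)
      have hcr : cr ((b, n), true) = ((b, n + 1), false) := by
        simp [cr, dir]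
      by_cases h : n + 1 = t₀
      · have h2 := hγ1 ((b, n), true) (by rw [hcr, h])
        have h3 : γ (b, n) + γ (b, n + 1) = 1 := by simpa [src, tgt, dir] using h2
        rw [if_neg (by omega), add_zero] at ih'
        rw [if_pos (by omega), z2_add h3, ih']
      · have h2 := hγ ((b, n), true) (by rw [hcr]; intro h3; apply h; simpa using h3)
          (by rw [hcr]; exact (h1 _).symm)
          (by rw [hcr, mem_EI']; simp only [Bool.false_eq_true, if_false]; omega)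
          (by rw [hcr, mem_inner']; simp only [Bool.false_eq_true, if_false]; omega)
        have h3 : γ (b, n) = γ (b, n + 1) := by simpa [src, tgt, dir] using h2
        rw [← h3, ih']
        congr 1
        by_cases h4 : t₀ ≤ n
        · rw [if_pos h4, if_pos (by omega)]
        · rw [if_neg h4, if_neg (by omega)]
  rw [key t (by omega) htb, if_pos ht]

/-- walks along the ring: top side, across the stub `((s₂, b), true)` -/
theorem walk_top_cross {a b : ℤ} {γ : Site → ZMod 2} {s₂ : ℤ} {e₁ : Ed} (hs2 : s₂ ≤ b)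
    (h1 : ∀ s, e₁ ≠ ((s, b), true)) (hab : a ≤ b)
    (hγ1 : ∀ f, cr f = ((s₂, b), true) → γ (src f) + γ (tgt f) = 1)
    (hγ : ∀ f, cr f ≠ ((s₂, b), true) → cr f ≠ e₁ → cr f ∈ EI a b → cr f ∉ inner a (b + 1) →
      γ (src f) = γ (tgt f)) {s : ℤ} (hs : a - 1 ≤ s) (hsb : s < s₂) :
    γ (s, b) = γ (b, b) + 1 := by
  have key : ∀ n : ℤ, n ≤ b → a - 1 ≤ n → γ (n, b) = γ (b, b) + (if n < s₂ then 1 else 0) := by
    intro n hn
    induction n, hn using Int.leInductionDown with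
    | base => intro _; rw [if_neg (by omega), add_zero]
    | pred n hn ih =>
      intro hb
      have ih' := ih (by omega)
      have hcr : cr ((n - 1, b), false) = ((n, b), true) := by
        simp [cr, dir]
      by_cases h : n = s₂
      · have h2 := hγ1 ((n - 1, b), false) (by rw [hcr, h])
        have h3 : γ (n - 1, b) + γ (n, b) = 1 := by simpa [src, tgt, dir] using h2
        rw [add_comm] at h3
        rw [if_neg (by omega), add_zero] at ih'
        rw [if_pos (by omega), z2_add h3, ih']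
      · have h2 := hγ ((n - 1, b), false) (by rw [hcr]; intro h3; apply h; simpa using h3)
          (by rw [hcr]; exact (h1 _).symm)
          (by rw [hcr, mem_EI']; simp only [if_true]; omega)
          (by rw [hcr, mem_inner']; simp only [if_true]; omega)
        have h3 : γ (n - 1, b) = γ (n, b) := by simpa [src, tgt, dir] using h2
        rw [h3, ih']
        congr 1
        by_cases h4 : n < s₂
        · rw [if_pos h4, if_pos (by omega)]
        · rw [if_neg h4, if_neg (by omega)]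
  rw [key s (by omega) hs, if_pos hsb]

end Z5SepAux

theorem arms_sep {a b A B : ℤ} (hab : a ≤ b) (hA : A < a) (hB : b < B) {η ζ : Finset Ed}
    (hη : η ⊆ inner A (B + 1)) (hζ : ∀ f ∈ ζ, cr f ∉ η)
    (h1 : Arm 1 (a - 1) b (A - 1) B ζ) (h3 : Arm 3 (a - 1) b (A - 1) B ζ)
    (h6 : Arm 6 (a - 1) b (A - 1) B ζ) {y₀ y₂ y₄ : Site} (hy0 : hs 0 a b y₀)
    (hy2 : hs 2 a b y₂) (hy4 : hs 4 a b y₄) :
    ¬ Conn (η \ EI a b) y₀ y₂ ∧ ¬ Conn (η \ EI a b) y₀ y₄ ∧ ¬ Conn (η \ EI a b) y₂ y₄ := by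
  obtain ⟨t₁, ht1, ht1b, ht1', k1⟩ := Z5SepAux.arm1 hζ h1
  obtain ⟨s₃, hs3, hs3b, hs3', k3⟩ := Z5SepAux.arm3 hζ h3
  obtain ⟨s₆, hs6, hs6b, k6⟩ := Z5SepAux.arm6 hζ h6
  obtain ⟨u0, t₀⟩ := y₀
  obtain ⟨s₂, u2⟩ := y₂
  obtain ⟨u4, t₄⟩ := y₄
  have hy0' : u0 = b + 1 ∧ (a ≤ t₀ ∧ t₀ ≤ b) ∧ 2 * t₀ ≤ a + b := hy0
  have hy2' : u2 = b + 1 ∧ (a ≤ s₂ ∧ s₂ ≤ b) ∧ a + b ≤ 2 * s₂ := hy2
  have hy4' : u4 = a - 1 ∧ (a ≤ t₄ ∧ t₄ ≤ b) ∧ a + b ≤ 2 * t₄ := hy4
  obtain ⟨rfl, ⟨h01, h02⟩, h03⟩ := hy0'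
  obtain ⟨rfl, ⟨h21, h22⟩, h23⟩ := hy2'
  obtain ⟨rfl, ⟨h41, h42⟩, h43⟩ := hy4'
  have ht : tgt ((b, t₀), false) = (b + 1, t₀) := by simp [tgt, dir]
  have ht2 : tgt ((s₂, b), true) = (s₂, b + 1) := by simp [tgt, dir]
  have ht4 : tgt ((a - 1, t₄), false) = (a, t₄) := by simp [tgt, dir]
  have caseA : ∀ (e₁ : Ed) (z y' : Site),
      ((src e₁ = z ∧ tgt e₁ = y') ∨ (src e₁ = y' ∧ tgt e₁ = z)) → z ∈ box a (b + 1) →
      (∀ s, e₁ ≠ ((s, a - 1), true)) → (∀ t, e₁ ≠ ((b, t), false)) →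
      ¬ Conn (η \ EI a b) (b + 1, t₀) y' := by
    intro e₁ z y' hst hz n1 n2 hc
    obtain ⟨G, γ, hG, hG2, hγ, hγ1, hγ2⟩ := Z5SepAux.core (a := a) (b := b) hA hB hη
      (e₀ := ((b, t₀), false)) (e₁ := e₁) (z := z) (y' := y')
      (by rw [DualAux.mem_box]; simp only [src]; omega)
      (by rw [ht, DualAux.mem_box]; simp only; omega) hst hz (n2 t₀).symm (by rw [ht]; exact hc)
    have e1 := k1 G γ hG hG2 hγ
    have e6 := k6 G γ hG hG2 hγ
    have w1 := Z5SepAux.walk_bot (e₀ := ((b, t₀), false)) (e₁ := e₁) (fun s => by simp) n1 hab hγ2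
      hs6 hs6b
    have w2 := Z5SepAux.walk_right_cross h01 n2 hab hγ1 hγ2 (t := t₁) (by omega) ht1b
    rw [← w1, e6, e1] at w2
    exact Z5SepAux.z2_ne _ w2.symm
  refine ⟨?_, ?_, ?_⟩
  · refine caseA ((s₂, b), true) (s₂, b) _ (Or.inl ⟨rfl, ht2⟩) ?_ ?_ ?_
    · rw [DualAux.mem_box]; simp only; omega
    · intro s h
      simp only [Prod.mk.injEq] at h
      omega
    · intro t h
      simp at h
  · refine caseA ((a - 1, t₄), false) (a, t₄) _ (Or.inr ⟨rfl, ht4⟩) ?_ ?_ ?_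
    · rw [DualAux.mem_box]; simp only; omega
    · intro s h
      simp at h
    · intro t h
      simp only [Prod.mk.injEq] at h
      omega
  · intro hc
    obtain ⟨G, γ, hG, hG2, hγ, hγ1, hγ2⟩ := Z5SepAux.core (a := a) (b := b) hA hB hη
      (e₀ := ((s₂, b), true)) (e₁ := ((a - 1, t₄), false)) (z := (a, t₄)) (y' := (a - 1, t₄))
      (by rw [DualAux.mem_box]; simp only [src]; omega)
      (by rw [ht2, DualAux.mem_box]; simp only; omega) (Or.inr ⟨rfl, ht4⟩)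
      (by rw [DualAux.mem_box]; simp only; omega) (by simp) (by rw [ht2]; exact hc)
    have e1 := k1 G γ hG hG2 hγ
    have e3 := k3 G γ hG hG2 hγ
    have w1 := Z5SepAux.walk_right (e₀ := ((s₂, b), true)) (e₁ := ((a - 1, t₄), false))
      (fun t => by simp) (fun t h => by simp only [Prod.mk.injEq] at h; omega) hab hγ2 ht1 ht1b
    have w2 := Z5SepAux.walk_top_cross h22 (e₁ := ((a - 1, t₄), false)) (fun s => by simp) hab hγ1
      hγ2 (s := s₃) hs3 (by omega)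
    rw [← w1, e3, e1] at w2
    exact Z5SepAux.z2_ne _ w2.symm

end P0q
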