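import Pool.Agent.Lib.P0q.Z3Sqrt
import Pool.Agent.Lib.P0q.Z2Dual
import Pool.Agent.Lib.P0q.Z5Sep

/-!
# Z6Six: six alternating arms with probability at least 1/2

Take `ε = 1/12`, `n` from the hypothesis with `ε^8`, and `K > n`; `a = -n`, `b = n`, `A = -K`, `B = K`.
- Active: `1 - ε^8 ≤ μ.real {Crs (-n) n (-K) K (op (EE K) ω)}` (this is `Cross n K (op (EE K) ω)`, as `op (EE K) ω ∩ EE K = op (EE K) ω`). `arm_prob hμ.psy`: each `Arm i (-n) n (-K) K (op (EE K) ω)`,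
  `i = 0, 2, 4`, has probability `≥ 1 - ε`.
- Passive: let `E = inner (-K-1) (K+1)`, the passive edges of `[-K-1, K]²`. `1 - ε^8 ≤ μ.real {Cross n (K+1) (op (EE (K+1)) ω)} ≤ μ.real {Crs (-n-1) n (-K-1) K (op E ω)}` by `Crs_anti`
  (`a = -n, b = n, a' = -n-1, b' = n, A = -K-1, B = K+1, A' = -K-1, B' = K`; `op (EE (K+1)) ω ∩ inner (-K-1) (K+1) ⊆ op E ω`, `Crs_up`) `≤ μ.real {Crs (-n-1) n (-K-1) K (op E (dl ω))}` (`hμ.dom`, `Crs_up`)
  `= (μ.map dl).real {Crs ... (op E ω)}` (`measurable_dl`, `measurable_op`). `arm_prob hμ.psyD` (`(-n-1) + n = (-K-1) + K`): each `Arm i (-n-1) n (-K-1) K (op E (dl ω))`, `i = 1, 3, 6`, has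
  probability `≥ 1 - ε`.
- So all six hold with probability `≥ 1 - 6 ε = 1/2` (union bound for the complements). On this event: `η = op (EE K) ω`, `ζ = op E (dl ω)`: for `f ∈ ζ`, `ω (cr f) = false`, so `cr f ∉ η`. The active arms give
  `y₀, y₂, y₄` with `hs 0, 2, 4` and `Tc (-K) K (η \ EI (-n) n) (y_i)`; `arms_sep` gives the separation; `η \ EI (-n) n = op (EE K \ EI (-n) n) ω`. `y = ![y₀, y₂, y₄]`; `Ext n (y i)`: `hs` says where
  it is, and it is joined to a site of the box by an edge of `EI (-n) n` (e.g. `((n, t₀), false)`).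
-/

set_option autoImplicit false

open Finset P0de MeasureTheory Filter Topology

namespace P0q

/-- `y` is a neighbour of `[-n, n]²` outside of it -/
def Ext (n : ℕ) (y : Site) : Prop :=
  y ∉ box (-(n : ℤ)) (n + 1) ∧ ∃ x ∈ box (-(n : ℤ)) (n + 1), Adj (EI (-(n : ℤ)) n) x y

/-- three separated arms -/
def Sep (K : ℕ) (y : Fin 3 → Site) (ξ : Finset Ed) : Prop :=
  (∀ i, Tc (-(K : ℤ)) K ξ (y i)) ∧ ∀ i j, i ≠ j → ¬ Conn ξ (y i) (y j)

namespace Z6SixAux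

theorem hs_not {i : Fin 8} {a b : ℤ} {y : Site} (h : hs i a b y) : y ∉ box a (b + 1) := by
  rw [DualAux.mem_box]
  fin_cases i <;> dsimp only [hs] at h <;> omega

theorem ext_arm {n : ℕ} {i : Fin 8} {η : Finset Ed} {x y : Site}
    (h : hs i (-(n : ℤ)) n y) (hx : x ∈ box (-(n : ℤ)) (n + 1)) (ha : Adj η x y) : Ext n y := by
  refine ⟨hs_not h, x, hx, ?_⟩
  obtain ⟨e, _, he⟩ := ha
  refine ⟨e, ?_, he⟩
  rw [mem_EI]
  rcases he with ⟨h1, _⟩ | ⟨_, h2⟩
  · left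
    rw [h1]
    exact hx
  · right
    rw [h2]
    exact hx

theorem inter_ge {μ : Measure (Ed → Bool)} [IsProbabilityMeasure μ] {S T : Set (Ed → Bool)}
    (hT : MeasurableSet T) {s t : ℝ} (h1 : s ≤ μ.real S) (h2 : t ≤ μ.real T) :
    s + t - 1 ≤ μ.real (S ∩ T) := by
  have h3 := measureReal_union_add_inter (μ := μ) (s := S) hT
  have h4 : μ.real (S ∪ T) ≤ 1 := measureReal_le_one
  linarith

theorem op_sdiff (E F : Finset Ed) (ω : Ed → Bool) : op E ω \ F = op (E \ F) ω := by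
  ext e
  simp only [op, Finset.mem_sdiff, Finset.mem_filter]
  tauto

theorem box_sub' {a b a' b' : ℤ} (h1 : a' ≤ a) (h2 : b ≤ b') : box a b ⊆ box a' b' := by
  intro x hx
  rw [DualAux.mem_box] at hx ⊢
  omega

end Z6SixAux

open Z6SixAux

theorem six_prob {μ : Measure (Ed → Bool)} (hμ : Good μ)
    (h : ∀ ε : ℝ, 0 < ε → ∃ n : ℕ, ∀ K : ℕ, n < K →
      1 - ε ≤ μ.real {ω | Cross n K (op (EE K) ω)}) :
    ∃ n : ℕ, ∀ K : ℕ, n < K → 1 / 2 ≤ μ.real {ω | ∃ y : Fin 3 → Site, (∀ i, Ext n (y i)) ∧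
      Sep K y (op (EE K \ EI (-(n : ℤ)) n) ω)} := by
  have := hμ.prob
  obtain ⟨n, hn⟩ := h ((1 / 12 : ℝ) ^ 8) (by positivity)
  refine ⟨n, fun K hK => ?_⟩
  have hnK : (n : ℤ) < K := by exact_mod_cast hK
  -- active arms
  have hact : 1 - (1 / 12 : ℝ) ^ 8 ≤ μ.real {ω | Crs (-(n : ℤ)) n (-(K : ℤ)) K
      (op (inner (-(K : ℤ)) (K + 1)) ω)} := by
    refine (hn K hK).trans (measureReal_mono ?_ (measure_ne_top _ _))
    intro ω hω
    exact Crs_up _ _ _ _ _ _ inter_subset_left hω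
  have act : ∀ i, 1 - (1 / 12 : ℝ) ≤ μ.real {ω | Arm i (-(n : ℤ)) n (-(K : ℤ)) K
      (op (inner (-(K : ℤ)) (K + 1)) ω)} :=
    fun i => arm_prob hμ.psy (by omega) (by omega) (by omega) (by norm_num) hact i
  -- passive arms
  have hpas : 1 - (1 / 12 : ℝ) ^ 8 ≤ (μ.map dl).real {ω | Crs (-(n : ℤ) - 1) n (-(K : ℤ) - 1) K
      (op (inner (-(K : ℤ) - 1) (K + 1)) ω)} := by
    rw [map_measureReal_apply measurable_dl (measurable_op _ _)]
    refine le_trans ?_ (hμ.dom (inner (-(K : ℤ) - 1) (K + 1))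
      (Crs (-(n : ℤ) - 1) n (-(K : ℤ) - 1) K) (Crs_up _ _ _ _))
    refine (hn (K + 1) (by omega)).trans (measureReal_mono ?_ (measure_ne_top _ _))
    intro ω hω
    have h1 : Crs (-(n : ℤ)) n (-((K + 1 : ℕ) : ℤ)) ((K + 1 : ℕ) : ℤ)
        (op (EE (K + 1)) ω ∩ EE (K + 1)) := hω
    push_cast at h1
    have h2 := Crs_anti (a' := -(n : ℤ) - 1) (b' := n) (A' := -(K : ℤ) - 1) (B' := K)
      (box_sub' (by omega) (by omega)) (box_sub' (by omega) (by omega))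
      (box_sub' (by omega) (by omega)) h1
    refine Crs_up _ _ _ _ _ _ ?_ h2
    intro e he
    have he1 := (mem_inter.1 he).1
    have he2 := (mem_inter.1 he).2
    have he3 := (mem_inter.1 he1).1
    exact mem_filter.2 ⟨he2, (mem_filter.1 he3).2⟩
  have pas : ∀ i, 1 - (1 / 12 : ℝ) ≤ μ.real {ω | Arm i (-(n : ℤ) - 1) n (-(K : ℤ) - 1) K
      (op (inner (-(K : ℤ) - 1) (K + 1)) (dl ω))} := by
    intro i
    have h1 := arm_prob hμ.psyD (a := -(n : ℤ) - 1) (b := n) (A := -(K : ℤ) - 1) (B := K)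
      (by omega) (by omega) (by omega) (by norm_num) hpas i
    rw [map_measureReal_apply measurable_dl (measurable_op _ _)] at h1
    exact h1
  have mact : ∀ i, MeasurableSet {ω | Arm i (-(n : ℤ)) n (-(K : ℤ)) K
      (op (inner (-(K : ℤ)) (K + 1)) ω)} := fun i => measurable_op _ _
  have mpas : ∀ i, MeasurableSet {ω | Arm i (-(n : ℤ) - 1) n (-(K : ℤ) - 1) K
      (op (inner (-(K : ℤ) - 1) (K + 1)) (dl ω))} := fun i =>
    measurable_dl (measurable_op (inner (-(K : ℤ) - 1) (K + 1))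
      (Arm i (-(n : ℤ) - 1) n (-(K : ℤ) - 1) K))
  have u1 := inter_ge (mact 2) (act 0) (act 2)
  have u2 := inter_ge (mact 4) u1 (act 4)
  have u3 := inter_ge (mpas 1) u2 (pas 1)
  have u4 := inter_ge (mpas 3) u3 (pas 3)
  have u5 := inter_ge (mpas 6) u4 (pas 6)
  refine le_trans (le_trans ?_ u5) (measureReal_mono ?_ (measure_ne_top _ _))
  · norm_num
  rintro ω ⟨⟨⟨⟨⟨⟨x₀, y₀, hy0, hx0, ha0, ht0⟩, ⟨x₂, y₂, hy2, hx2, ha2, ht2⟩⟩,
    ⟨x₄, y₄, hy4, hx4, ha4, ht4⟩⟩, h1⟩, h3⟩, h6⟩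
  obtain ⟨s02, s04, s24⟩ := arms_sep (a := -(n : ℤ)) (b := n) (A := -(K : ℤ)) (B := K)
    (η := op (inner (-(K : ℤ)) (K + 1)) ω) (ζ := op (inner (-(K : ℤ) - 1) (K + 1)) (dl ω))
    (by omega) (by omega) (by omega) (filter_subset _ _) (by
      intro f hf hf2
      have h4 : dl ω f = true := (mem_filter.1 hf).2
      have h5 : ω (cr f) = true := (mem_filter.1 hf2).2
      simp [dl, h5] at h4) h1 h3 h6 hy0 hy2 hy4
  rw [op_sdiff] at s02 s04 s24 ht0 ht2 ht4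
  have sy : ∀ {u v : Site}, ¬ Conn (op (inner (-(K : ℤ)) (K + 1) \ EI (-(n : ℤ)) n) ω) u v →
      ¬ Conn (op (inner (-(K : ℤ)) (K + 1) \ EI (-(n : ℤ)) n) ω) v u :=
    fun h hc => h (Conn.symm hc)
  refine ⟨![y₀, y₂, y₄], ?_, ?_, ?_⟩
  · intro i
    fin_cases i
    · exact ext_arm hy0 hx0 ha0
    · exact ext_arm hy2 hx2 ha2
    · exact ext_arm hy4 hx4 ha4
  · intro i
    fin_cases i
    · exact ht0
    · exact ht2
    · exact ht4
  · intro i j hij
    fin_cases i <;> fin_cases j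
    · exact absurd rfl hij
    · exact s02
    · exact s04
    · exact sy s02
    · exact absurd rfl hij
    · exact s24
    · exact sy s04
    · exact sy s24
    · exact absurd rfl hij

end P0q
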