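import Pool.Agent.Lib.P0q.Z0Defs

/-!
# Z7Count: there are at most `|D|` trifurcation boxes

For `z ∈ Z` write `Br z i = {w | Conn (off η (B z)) (y z i) w}`, `E z = tch η (B z)`.
(N0) `Br z i` and `Br z j` are disjoint for `i ≠ j` (`disc`, symmetry, transitivity); `Br z i ∩ B z = ∅` (no edge of `off η (B z)` has an end in `B z`, `y z i ∉ B z`).
(N2) Let `z ≠ z'`, `c z ∉ Br z' j`. Then every `w ∈ Br z' j` is connected to `c z'` in `off η (B z)`: a path from `y z' j` to `w` in `off η (B z')` never visits `B z` (at a visited vertex `v ∈ B z`: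
   `v ∈ Br z' j`, and `v` is connected to `c z` by edges of `tch η (B z)`, which are in `off η (B z')` by `he`; so `c z ∈ Br z' j`), so all its edges are in `off η (B z)` (induction on the path);
   and `y z' j` is connected to `c z'` in `tch η (B z') ⊆ off η (B z)`.
(N2') so if `z ≠ z'`, `c z ∉ Br z' j`, `c z' ∈ Br z i` then `Br z' j ⊆ Br z i`.
(N3) `z ≠ z'`, `Conn η (c z) (c z')` → `∃ j, c z ∈ Br z' j`: otherwise let `S = {w | Conn (off η (B z')) (c z) w}`; no `y z' j` is in `S`. `S` is closed under the edges of `η`: let `e ∈ η` have an end in `S`; if `e`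
   touches `B z'` this end is in `B z'` (by `ends`, as no `y z' j ∈ S`), but a vertex of `B z'` has no edge in `off η (B z')`, so it equals `c z ∈ B z`, contradicting `hd`. So `c z' ∈ S`, again impossible.
Induction on `|Z|` (generalising `D`; `Z = ∅` trivial). Choose `(z, i) ∈ Z × Fin 3` with the smallest number of elements of `D ∩ Br z i` (`Finset.exists_min_image`).
 Claim: `c z' ∉ Br z i` for all `z' ∈ Z`, `z' ≠ z`. Otherwise `c z` is connected to `c z'` in `η`, `c z ∈ Br z' j` for some `j` (N3); for the two `k ≠ j`, `c z ∉ Br z' k` (N0), so `Br z' k ⊆ Br z i` (N2'). `D ∩ Br z' k` (`k ≠ j`)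
   are two disjoint nonempty subsets of `D ∩ Br z i`, so one (each) of them is smaller than `D ∩ Br z i`: contradiction.
 Put `D' = D \ Br z i`, `|D'| < |D|`, `Z' = Z.erase z`. For `z' ∈ Z'`, `j`, there is `d ∈ D' ∩ Br z' j`: if `c z ∉ Br z' j`: `Br z' j ∩ Br z i = ∅` [`w` in both: by (N2) `w` is connected to `c z'` in `off η (B z)`, so `c z' ∈ Br z i`,
   contradicting the claim]. If `c z ∈ Br z' j`: `c z`, `c z'` are connected in `η`, so `c z' ∈ Br z i'` for some `i'` (N3), `i' ≠ i` by the claim; let `k ≠ i, i'`: `c z' ∉ Br z k`, so `Br z k ⊆ Br z' j` (N2'), and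
   `D ∩ Br z k` is nonempty and disjoint from `Br z i`. The induction hypothesis gives `|Z| - 1 ≤ |D'| ≤ |D| - 1`.
-/

set_option autoImplicit false

open Finset P0de MeasureTheory Filter Topology

namespace P0q

namespace Z7CountAux

theorem mem_tch {η : Finset Ed} {B : Finset Site} {e : Ed} :
    e ∈ tch η B ↔ e ∈ η ∧ (src e ∈ B ∨ tgt e ∈ B) := by
  unfold tch
  exact Finset.mem_filter

theorem mem_off {η : Finset Ed} {B : Finset Site} {e : Ed} :
    e ∈ off η B ↔ e ∈ η ∧ (src e ∉ B ∧ tgt e ∉ B) := by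
  unfold off
  exact Finset.mem_filter

theorem off_sub {η : Finset Ed} {B : Finset Site} : off η B ⊆ η := fun _ h => (mem_off.1 h).1

theorem tch_off {η : Finset Ed} {B B' : Finset Site} (h : Disjoint (tch η B) (tch η B')) :
    tch η B ⊆ off η B' := by
  intro e he
  have h1 : e ∉ tch η B' := Finset.disjoint_left.1 h he
  rw [mem_tch] at h1 he
  rw [mem_off]
  tauto

/-- a vertex of `B` has no edge in `off η B` -/
theorem off_iso {η : Finset Ed} {B : Finset Site} {x y : Site} (h : Conn (off η B) x y)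
    (hx : x ∈ B) : y = x := by
  unfold Conn at h
  induction h with
  | refl => rfl
  | tail _ h2 ih =>
    obtain ⟨e, he, h3⟩ := h2
    rw [mem_off] at he
    rw [ih] at h3
    rcases h3 with ⟨h, _⟩ | ⟨_, h⟩
    · exact absurd (h ▸ hx) he.2.1
    · exact absurd (h ▸ hx) he.2.2

theorem N0 {η : Finset Ed} {B : Finset Site} {c : Site} {y : Fin 3 → Site} (T : Tri η B c y)
    {i j : Fin 3} (hij : i ≠ j) {w : Site} (h1 : Conn (off η B) (y i) w)
    (h2 : Conn (off η B) (y j) w) : False :=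
  T.disc i j hij (h1.trans h2.symm)

theorem N2 {η : Finset Ed} {B B' : Finset Site} {c c' : Site} {y y' : Fin 3 → Site}
    (T : Tri η B c y) (T' : Tri η B' c' y') (he : Disjoint (tch η B) (tch η B')) {j : Fin 3}
    (hn : ¬ Conn (off η B') (y' j) c) {w : Site} (hw : Conn (off η B') (y' j) w) :
    Conn (off η B) c' w := by
  have h1 : Conn (off η B) c' (y' j) := (T'.conn_y j).mono (tch_off he.symm)
  have hv : ∀ v ∈ B, Conn (off η B') (y' j) v → False := by
    intro v hv h
    exact hn (h.trans (((T.conn_B v hv).mono (tch_off he)).symm))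
  refine h1.trans ?_
  unfold Conn at hw
  induction hw with
  | refl => exact Relation.ReflTransGen.refl
  | tail h3 h2 ih =>
    refine Relation.ReflTransGen.tail ih ?_
    have h4 : Conn (off η B') (y' j) _ := Relation.ReflTransGen.tail h3 h2
    obtain ⟨e, he', h5⟩ := h2
    refine ⟨e, ?_, h5⟩
    rw [mem_off]
    refine ⟨(mem_off.1 he').1, ?_, ?_⟩
    · intro h6
      rcases h5 with ⟨h7, h8⟩ | ⟨h7, h8⟩
      · exact hv _ (h7 ▸ h6) h3
      · exact hv _ (h7 ▸ h6) h4
    · intro h6
      rcases h5 with ⟨h7, h8⟩ | ⟨h7, h8⟩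
      · exact hv _ (h8 ▸ h6) h4
      · exact hv _ (h8 ▸ h6) h3

theorem N3 {η : Finset Ed} {B B' : Finset Site} {c c' : Site} {y y' : Fin 3 → Site}
    (T : Tri η B c y) (T' : Tri η B' c' y') (hd : Disjoint B B') (h : Conn η c c') :
    ∃ j, Conn (off η B') (y' j) c := by
  by_contra hcon
  push Not at hcon
  have hcB : c ∉ B' := Finset.disjoint_left.1 hd T.c_mem
  have hB : ∀ v ∈ B', ¬ Conn (off η B') c v := by
    intro v hv h1
    exact hcB ((off_iso h1.symm hv) ▸ hv)
  have key : ∀ w, Conn η c w → Conn (off η B') c w := by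
    intro w hw
    unfold Conn at hw
    induction hw with
    | refl => exact Relation.ReflTransGen.refl
    | tail h3 h2 ih =>
      obtain ⟨e, he, h5⟩ := h2
      by_cases ht : src e ∈ B' ∨ tgt e ∈ B'
      · exfalso
        obtain ⟨h6, h7⟩ := T'.ends e he ht
        rcases h5 with ⟨h8, h9⟩ | ⟨h8, h9⟩
        · rcases h6 with h6 | ⟨j, h6⟩
          · exact hB _ (h8 ▸ h6) ih
          · exact hcon j (by rw [← h6, h8]; exact Conn.symm ih)
        · rcases h7 with h7 | ⟨j, h7⟩
          · exact hB _ (h9 ▸ h7) ih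
          · exact hcon j (by rw [← h7, h9]; exact Conn.symm ih)
      · push Not at ht
        exact Relation.ReflTransGen.tail ih ⟨e, mem_off.2 ⟨he, ht⟩, h5⟩
  exact hB _ T'.c_mem (key _ h)

theorem conn_c {η : Finset Ed} {B : Finset Site} {c : Site} {y : Fin 3 → Site} (T : Tri η B c y)
    {i : Fin 3} {w : Site} (h : Conn (off η B) (y i) w) : Conn η c w :=
  ((T.conn_y i).mono (filter_subset _ _)).trans (h.mono off_sub)

theorem third (i j : Fin 3) : ∃ k, k ≠ i ∧ k ≠ j := by
  revert i j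
  decide

theorem two_others (j : Fin 3) : ∃ k l, k ≠ j ∧ l ≠ j ∧ k ≠ l := by
  revert j
  decide

open Classical in
theorem main {ι : Type} [DecidableEq ι] {η : Finset Ed} (B : ι → Finset Site) (c : ι → Site)
    (y : ι → Fin 3 → Site) : ∀ (n : ℕ) (Z : Finset ι) (D : Finset Site), Z.card = n →
    (∀ z ∈ Z, Tri η (B z) (c z) (y z)) →
    (∀ z ∈ Z, ∀ z' ∈ Z, z ≠ z' → Disjoint (B z) (B z')) →
    (∀ z ∈ Z, ∀ z' ∈ Z, z ≠ z' → Disjoint (tch η (B z)) (tch η (B z'))) →
    (∀ z ∈ Z, ∀ i, ∃ d ∈ D, Conn (off η (B z)) (y z i) d) → n ≤ D.card := by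
  intro n
  induction n with
  | zero => intro Z D _ _ _ _ _; exact Nat.zero_le _
  | succ n ih =>
    intro Z D hZ hT hd he hD
    have hne : (Z ×ˢ (univ : Finset (Fin 3))).Nonempty := by
      have h1 : Z.Nonempty := by
        rw [← Finset.card_pos]
        omega
      exact h1.product ⟨0, mem_univ _⟩
    obtain ⟨⟨z, i⟩, hz, hmin⟩ := Finset.exists_min_image _
      (fun p : ι × Fin 3 => (D.filter fun d => Conn (off η (B p.1)) (y p.1 p.2) d).card) hne
    have hzZ : z ∈ Z := (mem_product.1 hz).1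
    simp only at hmin
    have claim : ∀ z' ∈ Z, z' ≠ z → ¬ Conn (off η (B z)) (y z i) (c z') := by
      intro z' hz' hzz' hc
      have h1 : Conn η (c z) (c z') := conn_c (hT z hzZ) hc
      obtain ⟨j, hj⟩ := N3 (hT z hzZ) (hT z' hz') (hd z hzZ z' hz' hzz'.symm) h1
      obtain ⟨k, l, hk, hl, hkl⟩ := two_others j
      have hsub : ∀ m, m ≠ j → ∀ w, Conn (off η (B z')) (y z' m) w →
          Conn (off η (B z)) (y z i) w := by
        intro m hm w hw
        have h2 : ¬ Conn (off η (B z')) (y z' m) (c z) := fun h => N0 (hT z' hz') hm h hj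
        exact hc.trans (N2 (hT z hzZ) (hT z' hz') (he z hzZ z' hz' hzz'.symm) h2 hw)
      have hlt : (D.filter fun d => Conn (off η (B z')) (y z' k) d).card <
          (D.filter fun d => Conn (off η (B z)) (y z i) d).card := by
        apply Finset.card_lt_card
        refine ⟨fun d hd' => ?_, fun hsup => ?_⟩
        · rw [mem_filter] at hd' ⊢
          exact ⟨hd'.1, hsub k hk d hd'.2⟩
        · obtain ⟨d, hdD, hd'⟩ := hD z' hz' l
          have h3 : d ∈ D.filter fun d => Conn (off η (B z')) (y z' k) d := by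
            apply hsup
            rw [mem_filter]
            exact ⟨hdD, hsub l hl d hd'⟩
          exact N0 (hT z' hz') hkl (mem_filter.1 h3).2 hd'
      exact absurd (hmin (z', k) (mem_product.2 ⟨hz', mem_univ _⟩)) (not_le.2 hlt)
    have hcard : (Z.erase z).card = n := by
      rw [card_erase_of_mem hzZ, hZ]
      rfl
    have hD' : ∀ z' ∈ Z.erase z, ∀ j, ∃ d ∈ D.filter (fun d => ¬ Conn (off η (B z)) (y z i) d),
        Conn (off η (B z')) (y z' j) d := by
      intro z' hz'' j
      obtain ⟨hzz', hz'⟩ := mem_erase.1 hz''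
      by_cases hc : Conn (off η (B z')) (y z' j) (c z)
      · have h1 : Conn η (c z') (c z) := conn_c (hT z' hz') hc
        obtain ⟨i', hi'⟩ := N3 (hT z' hz') (hT z hzZ) (hd z' hz' z hzZ hzz') h1
        obtain ⟨k, hk1, hk2⟩ := third i i'
        have h2 : ¬ Conn (off η (B z)) (y z k) (c z') := fun h => N0 (hT z hzZ) hk2 h hi'
        obtain ⟨d, hdD, hd'⟩ := hD z hzZ k
        refine ⟨d, ?_, hc.trans (N2 (hT z' hz') (hT z hzZ) (he z' hz' z hzZ hzz') h2 hd')⟩
        rw [mem_filter]
        exact ⟨hdD, fun h => N0 (hT z hzZ) hk1 hd' h⟩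
      · obtain ⟨d, hdD, hd'⟩ := hD z' hz' j
        refine ⟨d, ?_, hd'⟩
        rw [mem_filter]
        refine ⟨hdD, fun h => claim z' hz' hzz' ?_⟩
        exact h.trans (N2 (hT z hzZ) (hT z' hz') (he z hzZ z' hz' hzz'.symm) hc hd').symm
    have h1 := ih (Z.erase z) (D.filter fun d => ¬ Conn (off η (B z)) (y z i) d) hcard
      (fun z' hz' => hT z' (mem_erase.1 hz').2)
      (fun z₁ h₁ z₂ h₂ => hd z₁ (mem_erase.1 h₁).2 z₂ (mem_erase.1 h₂).2)
      (fun z₁ h₁ z₂ h₂ => he z₁ (mem_erase.1 h₁).2 z₂ (mem_erase.1 h₂).2) hD'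
    have h2 : (D.filter fun d => ¬ Conn (off η (B z)) (y z i) d).card < D.card := by
      apply Finset.card_lt_card
      obtain ⟨d, hdD, hd'⟩ := hD z hzZ i
      refine ⟨filter_subset _ _, fun hsup => ?_⟩
      exact (mem_filter.1 (hsup hdD)).2 hd'
    omega

end Z7CountAux

theorem tri_count {ι : Type} [DecidableEq ι] {η : Finset Ed} (Z : Finset ι)
    (B : ι → Finset Site) (c : ι → Site) (y : ι → Fin 3 → Site)
    (hT : ∀ z ∈ Z, Tri η (B z) (c z) (y z))
    (hd : ∀ z ∈ Z, ∀ z' ∈ Z, z ≠ z' → Disjoint (B z) (B z'))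
    (he : ∀ z ∈ Z, ∀ z' ∈ Z, z ≠ z' → Disjoint (tch η (B z)) (tch η (B z')))
    (D : Finset Site) (hD : ∀ z ∈ Z, ∀ i, ∃ d ∈ D, Conn (off η (B z)) (y z i) d) :
    Z.card ≤ D.card :=
  Z7CountAux.main B c y Z.card Z D rfl hT hd he hD

end P0q
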