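import Pool.Agent.Lib.P0q.Z8Shift
import Pool.Agent.Lib.P0q.Z7Count

/-!
# Z8Dens: a positive density of trifurcation boxes is impossible

`L = 2n+2`, `m ≥ 1`, `N = L m`, `K = 2 N + n + 1`. For `(i, j) ∈ Fin m × Fin m` let `z = (L i, L j)`: `z_k + n + 1 ≤ L (m-1) + n + 1 ≤ N`. Let `S_z = {ω | TE n K (op (EE K) (ω ∘ (Aut.tr z).g))}`:
`μ.real S_z = μ.real {TE n K (op (EE K) ω)} ≥ δ` (`real_inv hμ.psy`, `measurable_op`).
For every `ω`: the number of `(i, j)` with `ω ∈ S_z` is at most `|bdry (-N) N|`: `te_shift` gives for each such `z` a trifurcation box `B z = z + [-n, n]²` of `op (EE N) ω`; `tri_count` with `D = bdry (-N) N` (the index set is the filter of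
`univ : Finset (Fin m × Fin m)`; choose `y` with `Classical.choice`; default values for the others). `hd`, `he`: two different centres differ by at least `2n+2` in some coordinate; if `x ∈ B z`, `x' ∈ B z'` then
`|x_k - x'_k| ≥ 2` for this coordinate `k`, so the boxes are disjoint and no edge touches both.
`|bdry (-N) N| ≤ 8 N` (`DualAux.card_box`: `(2N+1)² - (2N-1)²`; `mem_bdry`, `Finset.card_sdiff`).
So `δ m² ≤ ∑ μ.real S_z = ∫ ∑ 1_{S_z} ≤ 8 N = 8 L m` for all `m ≥ 1` (`measureReal` of a set = integral of the indicator, `integral_finset_sum`; or: `∑ μ(S_z) ≤ k` if every point is in at most `k` of the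
sets, by `lintegral`), contradiction for `m > 8 L / δ`.
-/

set_option autoImplicit false

open Finset P0de MeasureTheory Filter Topology

namespace P0q

namespace Z8DensAux

/-- a family of events such that every point is in at most `k` of them -/
theorem sum_le {ι : Type} [DecidableEq ι] {μ : Measure (Ed → Bool)} (hμ : IsProbabilityMeasure μ)
    (I : Finset ι) (S : ι → Set (Ed → Bool)) (hS : ∀ p, MeasurableSet (S p)) (k : ℕ)
    (hk : ∀ ω (J : Finset ι), J ⊆ I → (∀ p ∈ J, ω ∈ S p) → J.card ≤ k) :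
    ∑ p ∈ I, μ.real (S p) ≤ k := by
  classical
  have h1 : ∀ p ∈ I, Integrable (Set.indicator (S p) (fun _ => (1 : ℝ))) μ := fun p _ =>
    (integrable_const (1 : ℝ)).indicator (hS p)
  have h2 : ∑ p ∈ I, μ.real (S p) = ∫ ω, ∑ p ∈ I, Set.indicator (S p) (fun _ => (1 : ℝ)) ω ∂μ := by
    rw [integral_finsetSum _ h1]
    apply sum_congr rfl
    intro p _
    rw [integral_indicator (hS p)]
    simp
  rw [h2]
  have h3 : ∀ ω, ∑ p ∈ I, Set.indicator (S p) (fun _ => (1 : ℝ)) ω ≤ k := by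
    intro ω
    have h4 : ∑ p ∈ I, Set.indicator (S p) (fun _ => (1 : ℝ)) ω =
        ((I.filter fun p => ω ∈ S p).card : ℝ) := by
      rw [card_filter]
      push_cast
      apply sum_congr rfl
      intro p _
      by_cases hp : ω ∈ S p <;> simp [Set.indicator, hp]
    rw [h4]
    exact_mod_cast hk ω _ (filter_subset _ _) (fun p hp => (mem_filter.1 hp).2)
  calc ∫ ω, ∑ p ∈ I, Set.indicator (S p) (fun _ => (1 : ℝ)) ω ∂μ ≤ ∫ _, (k : ℝ) ∂μ :=
        integral_mono (integrable_finsetSum _ h1) (integrable_const _) h3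
    _ = k := by simp

/-- the centre with index `p` -/
def zz (n : ℕ) (p : ℕ × ℕ) : Site := ((2 * (n : ℤ) + 2) * p.1, (2 * (n : ℤ) + 2) * p.2)

theorem card_bdry (N : ℕ) (hN : 1 ≤ N) : ((bdry (-(N : ℤ)) N).card : ℝ) ≤ 8 * N := by
  have h1 : box (-(N : ℤ) + 1) N ⊆ box (-(N : ℤ)) (N + 1) := by
    intro x hx
    rw [P0de.mem_box] at hx ⊢
    omega
  have h2 : (box (-(N : ℤ)) (N + 1)).card = (2 * N + 1) * (2 * N + 1) :=
    DualAux.card_box (n := 2 * N + 1) (by push_cast; ring)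
  have h3 : (box (-(N : ℤ) + 1) N).card = (2 * N - 1) * (2 * N - 1) :=
    DualAux.card_box (n := 2 * N - 1) (by omega)
  have h4 : (bdry (-(N : ℤ)) N).card = (2 * N + 1) * (2 * N + 1) - (2 * N - 1) * (2 * N - 1) := by
    unfold bdry
    rw [card_sdiff_of_subset h1, h2, h3]
  obtain ⟨k, rfl⟩ : ∃ k, N = k + 1 := ⟨N - 1, by omega⟩
  have h5 : (2 * (k + 1) + 1) * (2 * (k + 1) + 1) - (2 * (k + 1) - 1) * (2 * (k + 1) - 1) =
      8 * (k + 1) := by
    have : 2 * (k + 1) - 1 = 2 * k + 1 := by omega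
    rw [this]
    have h6 : (2 * (k + 1) + 1) * (2 * (k + 1) + 1) = (2 * k + 1) * (2 * k + 1) + 8 * (k + 1) := by
      ring
    omega
  rw [h4, h5]
  push_cast
  linarith

/-- different boxes are far from each other -/
theorem far {n : ℕ} {p p' : ℕ × ℕ} (h : p ≠ p') {x x' : Site}
    (hx : x - zz n p ∈ box (-(n : ℤ)) (n + 1)) (hx' : x' - zz n p' ∈ box (-(n : ℤ)) (n + 1)) :
    2 ≤ |x.1 - x'.1| ∨ 2 ≤ |x.2 - x'.2| := by
  rw [P0de.mem_box] at hx hx'
  simp only [zz, Prod.fst_sub, Prod.snd_sub] at hx hx'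
  obtain ⟨⟨a1, a2⟩, a3, a4⟩ := hx
  obtain ⟨⟨b1, b2⟩, b3, b4⟩ := hx'
  have key : ∀ (i i' : ℕ) (s t : ℤ), i < i' → -(n : ℤ) ≤ s - (2 * (n : ℤ) + 2) * i →
      s - (2 * (n : ℤ) + 2) * i < n + 1 → -(n : ℤ) ≤ t - (2 * (n : ℤ) + 2) * i' →
      t - (2 * (n : ℤ) + 2) * i' < n + 1 → 2 ≤ t - s := by
    intro i i' s t hi h1 h2 h3 h4
    have h5 : ((i : ℤ) + 1) ≤ i' := by exact_mod_cast hi
    have h6 : (2 * (n : ℤ) + 2) * ((i : ℤ) + 1) ≤ (2 * (n : ℤ) + 2) * i' :=
      mul_le_mul_of_nonneg_left h5 (by positivity)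
    have h7 : (2 * (n : ℤ) + 2) * ((i : ℤ) + 1) = (2 * (n : ℤ) + 2) * i + (2 * (n : ℤ) + 2) := by
      ring
    omega
  have h0 : p.1 ≠ p'.1 ∨ p.2 ≠ p'.2 := by
    by_contra hcon
    rw [not_or, not_not, not_not] at hcon
    exact h (Prod.ext hcon.1 hcon.2)
  rcases h0 with h0 | h0
  · left
    rcases lt_or_gt_of_ne h0 with h1 | h1
    · have := key _ _ _ _ h1 a1 a2 b1 b2
      rw [le_abs]
      right
      linarith
    · have := key _ _ _ _ h1 b1 b2 a1 a2
      rw [le_abs]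
      left
      linarith
  · right
    rcases lt_or_gt_of_ne h0 with h1 | h1
    · have := key _ _ _ _ h1 a3 a4 b3 b4
      rw [le_abs]
      right
      linarith
    · have := key _ _ _ _ h1 b3 b4 a3 a4
      rw [le_abs]
      left
      linarith

theorem edge_close (e : Ed) : |(src e).1 - (tgt e).1| ≤ 1 ∧ |(src e).2 - (tgt e).2| ≤ 1 := by
  obtain ⟨⟨i, j⟩, c⟩ := e
  cases c <;> simp [src, tgt, dir]

end Z8DensAux

open Z8DensAux in
theorem te_contra {μ : Measure (Ed → Bool)} (hμ : Good μ) {n : ℕ} {δ : ℝ} (hδ : 0 < δ)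
    (h : ∀ K : ℕ, n < K → δ ≤ μ.real {ω | TE n K (op (EE K) ω)}) : False := by
  classical
  have hprob := hμ.prob
  obtain ⟨m, hm⟩ := exists_nat_gt (8 * (2 * (n : ℝ) + 2) / δ)
  have hm0 : 0 < m := by
    rcases Nat.eq_zero_or_pos m with h0 | h0
    · exfalso
      rw [h0] at hm
      have : 0 ≤ 8 * (2 * (n : ℝ) + 2) / δ := by positivity
      simp only [Nat.cast_zero] at hm
      linarith
    · exact h0
  set N : ℕ := (2 * n + 2) * m with hN
  set K : ℕ := 2 * N + n + 1 with hK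
  set I : Finset (ℕ × ℕ) := range m ×ˢ range m with hI
  set S : ℕ × ℕ → Set (Ed → Bool) := fun p =>
    {ω | TE n K (op (EE K) (fun e => ω ((Aut.tr (zz n p)).g e)))} with hS
  set S₀ : Set (Ed → Bool) := {ω | TE n K (op (EE K) ω)} with hS₀
  have hm₀ : MeasurableSet S₀ := measurable_op (EE K) (TE n K)
  have hmeas : ∀ p, MeasurableSet (S p) := by
    intro p
    have h1 : Measurable (fun (ω : Ed → Bool) (e : Ed) => ω ((Aut.tr (zz n p)).g e)) :=
      measurable_pi_iff.2 (fun e => measurable_pi_apply _)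
    exact h1 hm₀
  have hval : ∀ p, δ ≤ μ.real (S p) := by
    intro p
    have h1 : μ.real (S p) = μ.real S₀ := real_inv hμ.psy (Aut.tr (zz n p)) hm₀
    rw [h1]
    exact h K (by omega)
  have hcount := sum_le hprob I S hmeas (bdry (-(N : ℤ)) N).card (by
    intro ω J hJ hω
    have hrange : ∀ p ∈ J, 0 ≤ (zz n p).1 ∧ (zz n p).1 + n + 1 ≤ N ∧ 0 ≤ (zz n p).2 ∧
        (zz n p).2 + n + 1 ≤ N := by
      intro p hp
      have h1 := hJ hp
      rw [hI, mem_product, mem_range, mem_range] at h1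
      have key : ∀ i : ℕ, i < m → (2 * (n : ℤ) + 2) * i + n + 1 ≤ N := by
        intro i hi
        have h2 : ((i : ℤ) + 1) ≤ m := by exact_mod_cast hi
        have h3 : (2 * (n : ℤ) + 2) * ((i : ℤ) + 1) ≤ (2 * (n : ℤ) + 2) * m :=
          mul_le_mul_of_nonneg_left h2 (by positivity)
        have h4 : (N : ℤ) = (2 * (n : ℤ) + 2) * m := by rw [hN]; push_cast; ring
        have h5 : (2 * (n : ℤ) + 2) * ((i : ℤ) + 1) = (2 * (n : ℤ) + 2) * i + (2 * n + 2) := by
          ring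
        omega
      simp only [zz]
      exact ⟨by positivity, key _ h1.1, by positivity, key _ h1.2⟩
    have hts : ∀ p : ℕ × ℕ, ∃ y : Fin 3 → Site, p ∈ J →
        Tri (op (EE N) ω) ((box (-(n : ℤ)) (n + 1)).map (Aut.tr (zz n p)).s.toEmbedding)
          (zz n p) y ∧
        ∀ i, ∃ d ∈ bdry (-(N : ℤ)) N, Conn (off (op (EE N) ω)
          ((box (-(n : ℤ)) (n + 1)).map (Aut.tr (zz n p)).s.toEmbedding)) (y i) d := by
      intro p
      by_cases hp : p ∈ J
      · obtain ⟨r1, r2, r3, r4⟩ := hrange p hp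
        obtain ⟨y, hy⟩ := te_shift r1 r2 r3 r4 (K := K) (by omega) (hω p hp)
        exact ⟨y, fun _ => hy⟩
      · exact ⟨fun _ => 0, fun h => absurd h hp⟩
    choose y hy using hts
    have hmem : ∀ (p : ℕ × ℕ) (x : Site),
        x ∈ (box (-(n : ℤ)) (n + 1)).map (Aut.tr (zz n p)).s.toEmbedding →
        x - zz n p ∈ box (-(n : ℤ)) (n + 1) := fun p x hx => Z8ShiftAux.mem_map_s.1 hx
    refine tri_count J
      (fun p => (box (-(n : ℤ)) (n + 1)).map (Aut.tr (zz n p)).s.toEmbedding)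
      (fun p => zz n p) y (fun p hp => (hy p hp).1) ?_ ?_ (bdry (-(N : ℤ)) N)
      (fun p hp => (hy p hp).2)
    · intro p _ p' _ hpp'
      rw [Finset.disjoint_left]
      intro x hx hx'
      rcases far hpp' (hmem p x hx) (hmem p' x hx') with h1 | h1 <;> simp at h1
    · intro p _ p' _ hpp'
      rw [Finset.disjoint_left]
      intro e he he'
      have h1 := (mem_filter.1 he).2
      have h2 := (mem_filter.1 he').2
      have h3 := edge_close e
      rw [abs_le, abs_le] at h3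
      rcases h1 with h1 | h1 <;> rcases h2 with h2 | h2 <;>
      rcases far hpp' (hmem p _ h1) (hmem p' _ h2) with h4 | h4 <;> rw [le_abs] at h4 <;> omega)
  have hcard : ∑ p ∈ I, μ.real (S p) ≥ δ * (m : ℝ) ^ 2 := by
    calc δ * (m : ℝ) ^ 2 = ∑ p ∈ I, δ := by
          rw [sum_const, hI, card_product, card_range, nsmul_eq_mul]
          push_cast
          ring
      _ ≤ ∑ p ∈ I, μ.real (S p) := sum_le_sum fun p _ => hval p
  have hN1 : 1 ≤ N := by
    rw [hN]
    exact Nat.mul_pos (by omega) hm0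
  have hb := card_bdry N hN1
  have hNr : (N : ℝ) = (2 * (n : ℝ) + 2) * m := by rw [hN]; push_cast; ring
  have hfin : δ * (m : ℝ) ^ 2 ≤ 8 * ((2 * (n : ℝ) + 2) * m) := by
    rw [← hNr]
    linarith
  have hmr : (0 : ℝ) < m := by exact_mod_cast hm0
  have h1 : δ * (m : ℝ) ≤ 8 * (2 * (n : ℝ) + 2) := by
    have h2 : δ * (m : ℝ) * m ≤ 8 * (2 * (n : ℝ) + 2) * m := by
      calc δ * (m : ℝ) * m = δ * (m : ℝ) ^ 2 := by ring
        _ ≤ 8 * ((2 * (n : ℝ) + 2) * m) := hfin
        _ = 8 * (2 * (n : ℝ) + 2) * m := by ring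
    exact le_of_mul_le_mul_right h2 hmr
  rw [div_lt_iff₀ hδ] at hm
  linarith

end P0q
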