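import Pool.Agent.Lib.P0q.Z2Aut

/-!
# Z8Shift: the trifurcation box at `z` inside `[-N, N]²`

`g = (Aut.tr z).g`, `s = (Aut.tr z).s` (`s x = x + z`). Let `η' = op (EE K) (ω ∘ g)`, `ηz = η'.map g = op ((EE K).map g) ω` (`op_aut`), `Bz = (box (-n) (n+1)).map s`, `η = op (EE N) ω`.
`TE` gives `y` with `Tri η' (box (-n) (n+1)) 0 y` and `w i ∈ bdry (-K) K` with `Conn (off η' _) (y i) (w i)`.
(1) `Tri_aut`: `Tri ηz Bz z (fun i => y i + z)` (`s 0 = z`), and `Conn (off ηz Bz) (y i + z) (w i + z)`: `(tch η' B).map g = tch (η'.map g) (B.map s)`, `(off η' B).map g = off (η'.map g) (B.map s)` (by `Aut.hs`), `Conn_aut`.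
(2) `EE N ⊆ (EE K).map g` (both ends in `z + [-K, K]²`, as `0 ≤ z_i ≤ N`, `2N ≤ K`), so `η ⊆ ηz`; and `tch ηz Bz ⊆ EE N`: the ends of an edge touching `Bz` are in `z + [-n-1, n+1]² ⊆ [-N, N]²`. So
  `tch η Bz = tch ηz Bz`, `off η Bz ⊆ off ηz Bz` and `Tri η Bz z (y + z)`.
(3) `y i + z` is a neighbour of `Bz` (the last edge of a path from `z ∈ Bz` to `y i + z ∉ Bz` in `tch ηz Bz`), so it is in `box (-N) (N+1)`. `w i + z ∉ box (-N+1) N`: `w i ∈ bdry (-K) K` has a coordinate `≤ -K` or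
  `≥ K`, `0 ≤ z_j ≤ N - n - 1`, `K ≥ 2 N`. `Tc_first` with `ξ = off ηz Bz`: `Tc (-N) N (off ηz Bz ∩ EE N) (y i + z)`, and `off ηz Bz ∩ EE N ⊆ off η Bz`.
-/

set_option autoImplicit false

open Finset P0de MeasureTheory Filter Topology

namespace P0q

namespace Z8ShiftAux

theorem mem_map_s {z x : Site} {B : Finset Site} :
    x ∈ B.map (Aut.tr z).s.toEmbedding ↔ x - z ∈ B := by
  rw [Finset.mem_map]
  constructor
  · rintro ⟨y, hy, rfl⟩
    have : (Aut.tr z).s.toEmbedding y - z = y := add_sub_cancel_right y z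
    rw [this]
    exact hy
  · intro h
    exact ⟨x - z, h, sub_add_cancel x z⟩

theorem src_g (z : Site) (e : Ed) : src ((Aut.tr z).g e) = src e + z := rfl

theorem tgt_g (z : Site) (e : Ed) : tgt ((Aut.tr z).g e) = tgt e + z := by
  change e.1 + z + dir e.2 = e.1 + dir e.2 + z
  abel

theorem src_mem {z : Site} {e : Ed} {B : Finset Site} :
    src ((Aut.tr z).g e) ∈ B.map (Aut.tr z).s.toEmbedding ↔ src e ∈ B := by
  rw [mem_map_s, src_g, add_sub_cancel_right]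

theorem tgt_mem {z : Site} {e : Ed} {B : Finset Site} :
    tgt ((Aut.tr z).g e) ∈ B.map (Aut.tr z).s.toEmbedding ↔ tgt e ∈ B := by
  rw [mem_map_s, tgt_g, add_sub_cancel_right]

theorem tch_map (z : Site) (η : Finset Ed) (B : Finset Site) :
    (tch η B).map (Aut.tr z).g.toEmbedding =
      tch (η.map (Aut.tr z).g.toEmbedding) (B.map (Aut.tr z).s.toEmbedding) := by
  ext e
  unfold tch
  simp only [Finset.mem_map, mem_filter, Equiv.coe_toEmbedding]
  constructor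
  · rintro ⟨e', ⟨h1, h2⟩, rfl⟩
    exact ⟨⟨e', h1, rfl⟩, h2.imp (fun h => Finset.mem_map.1 (src_mem.2 h)) (fun h => Finset.mem_map.1 (tgt_mem.2 h))⟩
  · rintro ⟨⟨e', h1, rfl⟩, h2⟩
    exact ⟨e', ⟨h1, h2.imp (fun h => src_mem.1 (Finset.mem_map.2 h)) (fun h => tgt_mem.1 (Finset.mem_map.2 h))⟩, rfl⟩

theorem off_map (z : Site) (η : Finset Ed) (B : Finset Site) :
    (off η B).map (Aut.tr z).g.toEmbedding =
      off (η.map (Aut.tr z).g.toEmbedding) (B.map (Aut.tr z).s.toEmbedding) := by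
  ext e
  unfold off
  rw [Finset.mem_map, mem_filter, Finset.mem_map]
  constructor
  · rintro ⟨e', h, rfl⟩
    rw [mem_filter] at h
    exact ⟨⟨e', h.1, rfl⟩, fun h' => h.2.1 (src_mem.1 h'), fun h' => h.2.2 (tgt_mem.1 h')⟩
  · rintro ⟨⟨e', h1, rfl⟩, h2, h3⟩
    refine ⟨e', ?_, rfl⟩
    rw [mem_filter]
    exact ⟨h1, fun h' => h2 (src_mem.2 h'), fun h' => h3 (tgt_mem.2 h')⟩

theorem Conn_mono {η η' : Finset Ed} (h : η ⊆ η') {x y : Site} (hc : Conn η x y) :
    Conn η' x y :=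
  Relation.ReflTransGen.lift (p := Adj η') id (fun _ _ ⟨e, he, h'⟩ => ⟨e, h he, h'⟩) _ _ hc

theorem ends_near (e : Ed) : (src e).1 ≤ (tgt e).1 ∧ (tgt e).1 ≤ (src e).1 + 1 ∧
    (src e).2 ≤ (tgt e).2 ∧ (tgt e).2 ≤ (src e).2 + 1 := by
  obtain ⟨⟨i, j⟩, c⟩ := e
  cases c <;> simp [src, tgt, dir]

end Z8ShiftAux

open Z8ShiftAux in
theorem te_shift {n N K : ℕ} {z : Site} (h1 : 0 ≤ z.1) (h2 : z.1 + n + 1 ≤ N) (h3 : 0 ≤ z.2)
    (h4 : z.2 + n + 1 ≤ N) (hK : 2 * N ≤ K) {ω : Ed → Bool}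
    (h : TE n K (op (EE K) (fun e => ω ((Aut.tr z).g e)))) :
    ∃ y : Fin 3 → Site,
      Tri (op (EE N) ω) ((box (-(n : ℤ)) (n + 1)).map (Aut.tr z).s.toEmbedding) z y ∧
      ∀ i, ∃ d ∈ bdry (-(N : ℤ)) N,
        Conn (off (op (EE N) ω) ((box (-(n : ℤ)) (n + 1)).map (Aut.tr z).s.toEmbedding))
          (y i) d := by
  obtain ⟨y, hT, hY⟩ := h
  have hK' : 2 * (N : ℤ) ≤ K := by exact_mod_cast hK
  have hop := op_aut (Aut.tr z) (EE K) ω
  set η' := op (EE K) (fun e => ω ((Aut.tr z).g e)) with hη'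
  set B := box (-(n : ℤ)) (n + 1) with hB
  set Bz := B.map (Aut.tr z).s.toEmbedding with hBz
  set ηz := η'.map (Aut.tr z).g.toEmbedding with hηz
  set η := op (EE N) ω with hη
  have memη : ∀ e, e ∈ η ↔ (src e ∈ box (-(N : ℤ)) (N + 1) ∧ tgt e ∈ box (-(N : ℤ)) (N + 1)) ∧
      ω e = true := by
    intro e
    rw [hη, op, mem_filter, DualAux.mem_inner]
  have memηz : ∀ e, e ∈ ηz ↔ (src e - z ∈ box (-(K : ℤ)) (K + 1) ∧
      tgt e - z ∈ box (-(K : ℤ)) (K + 1)) ∧ ω e = true := by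
    intro e
    rw [hop, op, mem_filter, Finset.mem_map]
    constructor
    · rintro ⟨⟨e', he', rfl⟩, hω⟩
      refine ⟨?_, hω⟩
      rw [DualAux.mem_inner] at he'
      simp only [Equiv.coe_toEmbedding]
      rw [src_g, tgt_g, add_sub_cancel_right, add_sub_cancel_right]
      exact he'
    · rintro ⟨he', hω⟩
      refine ⟨⟨(Aut.tr z).g.symm e, ?_, by simp⟩, hω⟩
      rw [DualAux.mem_inner]
      have e1 : e = (Aut.tr z).g ((Aut.tr z).g.symm e) := by simp
      rw [e1, src_g, tgt_g, add_sub_cancel_right, add_sub_cancel_right] at he'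
      exact he'
  have hsub : η ⊆ ηz := by
    intro e he
    rw [memη] at he
    rw [memηz]
    obtain ⟨⟨he1, he2⟩, he3⟩ := he
    rw [DualAux.mem_box] at he1 he2
    refine ⟨⟨?_, ?_⟩, he3⟩
    · rw [DualAux.mem_box, Prod.fst_sub, Prod.snd_sub]
      constructor <;> constructor <;> omega
    · rw [DualAux.mem_box, Prod.fst_sub, Prod.snd_sub]
      constructor <;> constructor <;> omega
  have hBmem : ∀ x, x ∈ Bz ↔ (-(n : ℤ) ≤ x.1 - z.1 ∧ x.1 - z.1 < n + 1) ∧
      -(n : ℤ) ≤ x.2 - z.2 ∧ x.2 - z.2 < n + 1 := by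
    intro x
    rw [hBz, mem_map_s, hB, DualAux.mem_box, Prod.fst_sub, Prod.snd_sub]
  have htch : tch ηz Bz = tch η Bz := by
    apply Finset.Subset.antisymm
    · intro e he
      rw [tch, mem_filter] at he ⊢
      refine ⟨?_, he.2⟩
      obtain ⟨he1, he2⟩ := he
      rw [memηz] at he1
      rw [memη]
      refine ⟨?_, he1.2⟩
      obtain ⟨a1, a2, a3, a4⟩ := ends_near e
      rw [hBmem, hBmem] at he2
      rw [DualAux.mem_box, DualAux.mem_box]
      rcases he2 with he2 | he2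
      · refine ⟨⟨⟨?_, ?_⟩, ?_, ?_⟩, ⟨?_, ?_⟩, ?_, ?_⟩ <;> omega
      · refine ⟨⟨⟨?_, ?_⟩, ?_, ?_⟩, ⟨?_, ?_⟩, ?_, ?_⟩ <;> omega
    · intro e he
      rw [tch, mem_filter] at he ⊢
      exact ⟨hsub he.1, he.2⟩
  have hoff : off η Bz ⊆ off ηz Bz := by
    intro e he
    rw [off, mem_filter] at he ⊢
    exact ⟨hsub he.1, he.2⟩
  have hcz : ∀ x, Conn (tch η' B) 0 x → Conn (tch η Bz) z (x + z) := by
    intro x hx
    have h5 := (Conn_aut (Aut.tr z)).2 hx
    rw [tch_map] at h5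
    rw [← htch]
    have e1 : (Aut.tr z).s 0 = z := zero_add z
    rw [e1] at h5
    exact h5
  have hoffz : ∀ x x', Conn (off ηz Bz) (x + z) (x' + z) ↔ Conn (off η' B) x x' := by
    intro x x'
    have h5 := Conn_aut (Aut.tr z) (η := off η' B) (x := x) (y := x')
    rw [off_map] at h5
    exact h5
  refine ⟨fun i => y i + z, ⟨?_, ?_, ?_, ?_, ?_, ?_⟩, ?_⟩
  · rw [hBz, mem_map_s, sub_self]
    exact hT.c_mem
  · intro i
    rw [hBz, mem_map_s, add_sub_cancel_right]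
    exact hT.y_not i
  · intro e he hor
    have he' := hsub he
    obtain ⟨e', he1, rfl⟩ := Finset.mem_map.1 he'
    simp only [Equiv.coe_toEmbedding] at hor ⊢
    rw [hBz, src_mem, tgt_mem] at hor
    rw [hBz, src_mem, tgt_mem, src_g, tgt_g]
    obtain ⟨h5, h6⟩ := hT.ends e' he1 hor
    constructor
    · rcases h5 with h5 | ⟨i, h5⟩
      · exact Or.inl h5
      · exact Or.inr ⟨i, by rw [h5]⟩
    · rcases h6 with h6 | ⟨i, h6⟩
      · exact Or.inl h6
      · exact Or.inr ⟨i, by rw [h6]⟩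
  · intro x hx
    rw [hBz, mem_map_s] at hx
    have h5 := hcz _ (hT.conn_B _ hx)
    rwa [sub_add_cancel] at h5
  · intro i
    exact hcz _ (hT.conn_y i)
  · intro i j hij hc
    exact hT.disc i j hij ((hoffz _ _).1 (Conn_mono hoff hc))
  · intro i
    obtain ⟨w, hw, hcw⟩ := hY i
    have hyB : y i + z ∈ box (-(N : ℤ)) (N + 1) := by
      have h5 := hT.conn_y i
      rcases Relation.ReflTransGen.cases_tail h5 with h6 | ⟨v, -, e, he, hev⟩
      · exact absurd (h6 ▸ hT.c_mem) (hT.y_not i)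
      · rw [tch, mem_filter] at he
        obtain ⟨a1, a2, a3, a4⟩ := ends_near e
        have hny := hT.y_not i
        rw [DualAux.mem_box, Prod.fst_add, Prod.snd_add]
        rcases hev with ⟨hv1, hv2⟩ | ⟨hv1, hv2⟩
        · rw [hv2] at he a1 a2 a3 a4
          have h7 : src e ∈ B := by
            rcases he.2 with h8 | h8
            · exact h8
            · exact absurd h8 hny
          rw [hB, DualAux.mem_box] at h7
          refine ⟨⟨?_, ?_⟩, ?_, ?_⟩ <;> omega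
        · rw [hv1] at he a1 a2 a3 a4
          have h7 : tgt e ∈ B := by
            rcases he.2 with h8 | h8
            · exact absurd h8 hny
            · exact h8
          rw [hB, DualAux.mem_box] at h7
          refine ⟨⟨?_, ?_⟩, ?_, ?_⟩ <;> omega
    have hwB : w + z ∉ box (-(N : ℤ) + 1) N := by
      rw [mem_bdry, DualAux.mem_box, DualAux.mem_box] at hw
      rw [DualAux.mem_box, Prod.fst_add, Prod.snd_add]
      omega
    obtain ⟨d, hd, hcd⟩ := Tc_first hyB hwB ((hoffz _ _).2 hcw)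
    refine ⟨d, hd, Conn_mono ?_ hcd⟩
    intro e he
    rw [mem_inter, off, mem_filter, DualAux.mem_inner] at he
    rw [off, mem_filter]
    refine ⟨?_, he.1.2⟩
    rw [memη]
    exact ⟨he.2, ((memηz e).1 he.1.1).2⟩

end P0q
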